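import Pool.Agent.Work.MP_6f5fa7_al.Mon.Defs

/-! Mon: M2, consequences of T2, T3 in a clean stage (`N = ⊥`). -/
set_option autoImplicit false

namespace Mon

-- variable {G X : Type} [Group G] [MulAction G X] {d : X → X → ℕ} (P : Par)

-- variable {M : ℕ}

/-- growth from T2 -/
def S.t2_growth : Prop :=
  ∀ {G X : Type} [Group G] [MulAction G X] {d : X → X → ℕ} (P : Par) {M : ℕ}  (hG : P.St G d M) {g : G} (hg : g ^ P.n ≠ 1) (x : X) (j : ℕ),
    j * (16 * P.δ) ≤ d x (g ^ (M * j) • x)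

def S.t2_growth' : Prop :=
  ∀ {G X : Type} [Group G] [MulAction G X] {d : X → X → ℕ} (P : Par) {M : ℕ}  (hG : P.St G d M) {g : G} (hg : g ^ P.n ≠ 1) (x : X) (f : ℕ),
    f * (16 * P.δ) ≤ M * d x (g ^ f • x)

def S.t2_unbdd : Prop :=
  ∀ {G X : Type} [Group G] [MulAction G X] {d : X → X → ℕ} (P : Par) {M : ℕ}  (hG : P.St G d M) {g : G} (hg : g ^ P.n ≠ 1) (x : X) (B : ℕ),
    ∃ i : ℕ, B < d x (g ^ i • x)

/-- an element of infinite order (mod n) has no nontrivial torsion power -/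
def S.inf_pow : Prop :=
  ∀ {G X : Type} [Group G] [MulAction G X] {d : X → X → ℕ} (P : Par) {M : ℕ}  (hG : P.St G d M) {g : G} (hg : g ^ P.n ≠ 1) (x : X) {i : ℕ} (hi : 1 ≤ i),
    g ^ i ≠ 1

/-- bounded orbits along a sequence of exponents force torsion -/
def S.tors_of_bdd : Prop :=
  ∀ {G X : Type} [Group G] [MulAction G X] {d : X → X → ℕ} (P : Par) {M : ℕ}  (hG : P.St G d M) {g : G} (x : X) (B : ℕ)
    (h : ∀ k : ℕ, ∃ i : ℕ, k ≤ i ∧ d x (g ^ i • x) ≤ B),
    g ^ P.n = 1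

/-- (C0) moving two far apart points a little: torsion free -/
def S.inf_of_far : Prop :=
  ∀ {G X : Type} [Group G] [MulAction G X] {d : X → X → ℕ} (P : Par) {M : ℕ}  (hG : P.St G d M) {g : G} (hg : g ≠ 1) {x y : X} {R : ℕ}
    (h : 12 * R + 3 * P.A ≤ d x y) (h1 : Mv d g x R) (h2 : Mv d g y R),
    g ^ P.n ≠ 1

/-- (C1) an element of infinite order has its axis near every point it moves a little -/
def S.axis_near : Prop :=
  ∀ {G X : Type} [Group G] [MulAction G X] {d : X → X → ℕ} (P : Par) {M : ℕ}  (hG : P.St G d M) {g : G} (hg : g ^ P.n ≠ 1) {x : X} {R : ℕ} (h1 : Mv d g x R),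
    ∃ z, d x z ≤ 6 * R + P.A ∧ Thick d g z P.A0 ∧
      (Mv d g z (25 * P.δ) ∨ Thick d g z (9 * P.δ))

/-- the centralisers of short elements of infinite order are abelian -/
def S.cyc_abelian : Prop :=
  ∀ {G X : Type} [Group G] [MulAction G X] {d : X → X → ℕ} (P : Par) {M : ℕ}  (hG : P.St G d M) {h : G} (hh : P.Short d h) {g g' : G} (h1 : g * h = h * g)
    (h2 : g' * h = h * g'),
    g * g' = g' * g

def S.cyc_tf : Prop :=
  ∀ {G X : Type} [Group G] [MulAction G X] {d : X → X → ℕ} (P : Par) {M : ℕ}  (hG : P.St G d M) {h : G} (hh : P.Short d h) {g : G} (h1 : g * h = h * g)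
    (hg : g ≠ 1),
    g ^ P.n ≠ 1

def S.cyc_cent : Prop :=
  ∀ {G X : Type} [Group G] [MulAction G X] {d : X → X → ℕ} (P : Par) {M : ℕ}  (hG : P.St G d M) {h : G} (hh : P.Short d h) {g g' : G} (h1 : g * h = h * g)
    (hg : g ≠ 1) (h2 : g' * g = g * g'),
    g' * h = h * g'

def S.cyc_norm : Prop :=
  ∀ {G X : Type} [Group G] [MulAction G X] {d : X → X → ℕ} (P : Par) {M : ℕ}  (hG : P.St G d M) {h : G} (hh : P.Short d h) {g : G}
    (h1 : (g * h * g⁻¹) * h = h * (g * h * g⁻¹)),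
    g * h = h * g

/-- (C+) two elements moving far apart points a little commute -/
def S.far_comm : Prop :=
  ∀ {G X : Type} [Group G] [MulAction G X] {d : X → X → ℕ} (P : Par) {M : ℕ}  (hG : P.St G d M) {g h : G} {x y : X} {R : ℕ}
    (hxy : 20 * R + 10 * P.A ≤ d x y) (g1 : Mv d g x R) (g2 : Mv d g y R)
    (h1 : Mv d h x R) (h2 : Mv d h y R),
    g * h = h * g

/-- (C2) points moved at most `R` by a nontrivial element of `C(h)` are near `Y` -/
def S.near_Y : Prop :=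
  ∀ {G X : Type} [Group G] [MulAction G X] {d : X → X → ℕ} (P : Par) {M : ℕ}  (hG : P.St G d M) {h : G} (hh : P.Short d h) {g : G} (h1 : g * h = h * g)
    (hg : g ≠ 1) {x : X} {R : ℕ} (hx : Mv d g x R),
    ∃ y ∈ P.Yset d (Subgroup.centralizer {h}), d x y ≤ 6 * R + 3 * P.A

end Mon

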