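import Pool.Agent.Work.MP_6f5fa7_al.Mon.StTool
import Pool.Agent.Work.MP_6f5fa7_al.Mon.StCyc

/-! Mon: item C6 (backup, helper71): if `g h g⁻¹` commutes with the short element `h`, so does `g`. -/
set_option autoImplicit false

namespace Mon

theorem C6b_par (P : Par) : 1000 ≤ P.δ ∧ P.Λs ≤ P.Λ ∧ 3 ≤ P.n := by
  have h1 := P.h1
  have h2 := P.hδ
  have h3 := P.hΛs
  have h4 := P.hΛ
  have h5 := P.hA0
  have h6 := P.hD
  have h7 := P.hA
  have h8 := P.hs
  have h9 := P.hN10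
  have h9' := P.hN
  have h10 : 1000 * P.Λ ≤ Ex (1000 * P.Λ) := by
    unfold Ex
    exact Nat.le_mul_of_pos_right _ (by positivity)
  have h11 : 1 ≤ P.TT2 := by
    refine le_trans ?_ P.hTT2
    have : 1 ≤ P.δ1 * P.s * 2 ^ P.D :=
      Nat.mul_pos (Nat.mul_pos (by omega) (by omega)) (by positivity)
    omega
  have h12 : 10 ≤ P.M1 := le_trans (by omega) P.hM1
  have h13 : 10 ≤ P.M := le_trans (by omega) P.hM
  have h14 : 1 ≤ P.Q := by
    refine le_trans ?_ P.hQ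
    have : 1 ≤ P.M * P.TT2 := Nat.mul_pos (by omega) h11
    nlinarith
  have h15 : 1 ≤ P.TT1 := by
    refine le_trans ?_ P.hTT1
    have : 1 ≤ P.TT2 * P.Q ^ (10 * P.N + 100) := Nat.mul_pos h11 (by positivity)
    nlinarith
  have h16 : 1 ≤ P.M * P.TT1 := Nat.mul_pos (by omega) h15
  have h17 := P.hn
  refine ⟨by omega, by omega, ?_⟩
  have : 1000 * P.M * P.TT1 = 1000 * (P.M * P.TT1) := by ring
  omega

theorem C6b_zpow {G X : Type} [Group G] [MulAction G X] {d : X → X → ℕ} (hg : Geo d)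
    (hi : Isom G d) (h : G) (x : X) (j : ℤ) : d x (h ^ j • x) = d x (h ^ j.natAbs • x) := by
  rcases Int.natAbs_eq j with e | e
  · conv_lhs => rw [e]
    rw [zpow_natCast]
  · conv_lhs => rw [e]
    rw [zpow_neg, zpow_natCast, ← hi (h ^ j.natAbs) x, smul_inv_smul, hg.symm]

/-- an orbit point near `h ^ j x`, `|j|` and `i` having nearly equal displacement -/
theorem C6b_near {G X : Type} [Group G] [MulAction G X] {d : X → X → ℕ} (hg : Geo d)
    (hi : Isom G d) {h : G} {x y : X} {A0 B : ℕ} (ht : Thick d h x A0) (i : ℕ) (j : ℤ)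
    (h1 : d y (h ^ j • x) ≤ B) (h2 : d x (h ^ j.natAbs • x) ≤ d x (h ^ i • x) + B)
    (h3 : d x (h ^ i • x) ≤ d x (h ^ j.natAbs • x) + B) :
    ∃ ε : ℤ, (ε = 1 ∨ ε = -1) ∧ d y (h ^ (ε * i) • x) ≤ 2 * B + A0 := by
  have key : ∃ ε : ℤ, (ε = 1 ∨ ε = -1) ∧ (j - ε * i = j.natAbs - i ∨ j - ε * i = i - j.natAbs) := by
    rcases Int.natAbs_eq j with e | e
    · exact ⟨1, Or.inl rfl, Or.inl (by omega)⟩
    · exact ⟨-1, Or.inr rfl, Or.inr (by omega)⟩
  obtain ⟨ε, hε, hd⟩ := key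
  refine ⟨ε, hε, ?_⟩
  have hsmall : d x (h ^ (j - ε * i) • x) ≤ B + A0 := by
    rw [C6b_zpow hg hi]
    rcases le_total i j.natAbs with hle | hle
    · obtain ⟨q, hq⟩ := Nat.exists_eq_add_of_le hle
      have hq' : (j - ε * i).natAbs = q := by omega
      rw [hq']
      have := ht i q
      rw [hq] at h2
      omega
    · obtain ⟨q, hq⟩ := Nat.exists_eq_add_of_le hle
      have hq' : (j - ε * i).natAbs = q := by omega
      rw [hq']
      have := ht j.natAbs q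
      rw [← hq] at this
      omega
  have e1 : d (h ^ (ε * i) • x) (h ^ j • x) = d x (h ^ (j - ε * i) • x) := by
    rw [← hi (h ^ (ε * i)) x, ← mul_smul, ← zpow_add]
    congr 3
    ring
  have t := hg.tri y (h ^ j • x) (h ^ (ε * i) • x)
  have s := hg.symm (h ^ j • x) (h ^ (ε * i) • x)
  omega

theorem cyc_norm_b (hax : S.ax_near) (hqc : S.quasi_centre_tors) (hub : S.t2_unbdd)
    (htb : S.tors_of_bdd) (htf : S.cyc_tf) (hcc : S.cyc_cent) : S.cyc_norm := by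
  intro G X _ _ d P M hG h hh g h1
  obtain ⟨hδ, hΛ, hn3⟩ := C6b_par P
  obtain ⟨hn, x, hx⟩ := id hh
  have hxL : Mv d h x P.Λ := le_trans hx hΛ
  have hn' : h ^ P.n ∉ (⊥ : Subgroup G) := fun e => hn (Subgroup.mem_bot.mp e)
  have ht : Thick d h x P.A0 := hG.T3b h x hn' hxL
  have hcomm : Commute (g * h * g⁻¹) h := h1
  set c := d x (g⁻¹ • x) with hc
  set B := 2 * (P.A0 + P.A0 + P.Λs + 5 * P.δ) + 2 * c with hB
  -- each power of `h'` moves `x` near `h ^ (± i) x`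
  have hstep : ∀ i : ℕ, ∃ ε : ℤ, (ε = 1 ∨ ε = -1) ∧
      d ((g * h * g⁻¹) ^ i • x) (h ^ (ε * i) • x) ≤ 2 * B + P.A0 := by
    intro i
    have hci : h * (g * h * g⁻¹) ^ i = (g * h * g⁻¹) ^ i * h := (hcomm.symm.pow_right i).eq
    have hm : d ((g * h * g⁻¹) ^ i • x) (h • (g * h * g⁻¹) ^ i • x) = d x (h • x) := by
      rw [← mul_smul, hci, mul_smul, hG.isom]
    have hm' : Mv d h ((g * h * g⁻¹) ^ i • x) P.Λ := by
      unfold Mv
      rw [hm]
      exact hxL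
    have ht' : Thick d h ((g * h * g⁻¹) ^ i • x) P.A0 := hG.T3b h _ hn' hm'
    obtain ⟨j, hj⟩ := hax hG.geo hG.isom hG.hyp h x ((g * h * g⁻¹) ^ i • x) P.A0 P.A0 P.Λs
      (fun B => hub P hG hn x B) ht' ht hx
    have hconj : d x ((g * h * g⁻¹) ^ i • x) = d (g⁻¹ • x) (h ^ i • g⁻¹ • x) := by
      rw [conj_pow, ← hG.isom g (g⁻¹ • x), smul_inv_smul, mul_smul, mul_smul]
    have t1 := hG.geo.tri (g⁻¹ • x) x (h ^ i • g⁻¹ • x)
    have t2 := hG.geo.tri x (h ^ i • x) (h ^ i • g⁻¹ • x)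
    have e1 : d (h ^ i • x) (h ^ i • g⁻¹ • x) = c := hG.isom _ _ _
    have t3 := hG.geo.tri x (g⁻¹ • x) (h ^ i • x)
    have t4 := hG.geo.tri (g⁻¹ • x) (h ^ i • g⁻¹ • x) (h ^ i • x)
    have s1 := hG.geo.symm (g⁻¹ • x) x
    have s2 := hG.geo.symm (h ^ i • g⁻¹ • x) (h ^ i • x)
    have t5 := hG.geo.tri x ((g * h * g⁻¹) ^ i • x) (h ^ j • x)
    have t6 := hG.geo.tri x (h ^ j • x) ((g * h * g⁻¹) ^ i • x)
    have s3 := hG.geo.symm (h ^ j • x) ((g * h * g⁻¹) ^ i • x)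
    have e2 := C6b_zpow hG.geo hG.isom h x j
    refine C6b_near hG.geo hG.isom ht i j ?_ ?_ ?_ <;> omega
  -- the same sign infinitely often
  have hinf : ∃ ε : ℤ, (ε = 1 ∨ ε = -1) ∧ ∀ k : ℕ, ∃ i : ℕ, k ≤ i ∧
      d ((g * h * g⁻¹) ^ i • x) (h ^ (ε * i) • x) ≤ 2 * B + P.A0 := by
    by_contra hcon
    have h1 : ¬ ∀ k : ℕ, ∃ i : ℕ, k ≤ i ∧
        d ((g * h * g⁻¹) ^ i • x) (h ^ ((1 : ℤ) * i) • x) ≤ 2 * B + P.A0 :=
      fun hh => hcon ⟨1, Or.inl rfl, hh⟩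
    have h2 : ¬ ∀ k : ℕ, ∃ i : ℕ, k ≤ i ∧
        d ((g * h * g⁻¹) ^ i • x) (h ^ ((-1 : ℤ) * i) • x) ≤ 2 * B + P.A0 :=
      fun hh => hcon ⟨-1, Or.inr rfl, hh⟩
    push Not at h1 h2
    obtain ⟨k1, hk1⟩ := h1
    obtain ⟨k2, hk2⟩ := h2
    obtain ⟨ε, hε, he⟩ := hstep (k1 + k2)
    rcases hε with rfl | rfl
    · exact absurd he (not_le.mpr (hk1 _ (Nat.le_add_right _ _)))
    · exact absurd he (not_le.mpr (hk2 _ (Nat.le_add_left _ _)))
  obtain ⟨ε, hε, hk⟩ := hinf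
  have hcz : Commute (g * h * g⁻¹) (h ^ ε) := hcomm.zpow_right ε
  have heq : g * h * g⁻¹ = h ^ ε := by
    have htor : ((h ^ ε)⁻¹ * (g * h * g⁻¹)) ^ P.n = 1 := by
      refine htb P hG x (2 * B + P.A0) fun k => ?_
      obtain ⟨i, hki, hi⟩ := hk k
      refine ⟨i, hki, ?_⟩
      have hc2 : Commute (h ^ ε)⁻¹ (g * h * g⁻¹) := hcz.symm.inv_left
      rw [hc2.mul_pow, mul_smul, ← hG.isom (h ^ (ε * i)) x]
      have e3 : h ^ (ε * (i : ℤ)) • ((h ^ ε)⁻¹) ^ i • (g * h * g⁻¹) ^ i • x =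
          (g * h * g⁻¹) ^ i • x := by
        rw [inv_pow, ← zpow_natCast (h ^ ε) i, ← zpow_mul, smul_inv_smul]
      rw [e3, hG.geo.symm]
      exact hi
    by_contra hne
    have h3 : (h ^ ε)⁻¹ * (g * h * g⁻¹) ≠ 1 := fun e => hne (inv_mul_eq_one.mp e).symm
    have h4 : ((h ^ ε)⁻¹ * (g * h * g⁻¹)) * h = h * ((h ^ ε)⁻¹ * (g * h * g⁻¹)) := by
      have : Commute ((h ^ ε)⁻¹ * (g * h * g⁻¹)) h :=
        Commute.mul_left ((Commute.refl h).zpow_left ε).inv_left hcomm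
      exact this.eq
    exact htf P hG hh h4 h3 htor
  rcases hε with rfl | rfl
  · rw [zpow_one] at heq
    calc g * h = (g * h * g⁻¹) * g := by group
      _ = h * g := by rw [heq]
  · rw [zpow_neg, zpow_one] at heq
    have hg2 : g ^ 2 * h = h * g ^ 2 := by
      have e1 : g * h * g⁻¹ = h⁻¹ := heq
      have e2 : g * h⁻¹ * g⁻¹ = h := by
        have := congrArg (fun z => z⁻¹) e1
        simpa [mul_assoc] using this
      calc g ^ 2 * h = g * (g * h * g⁻¹) * g⁻¹ * g ^ 2 := by rw [pow_two]; group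
        _ = g * h⁻¹ * g⁻¹ * g ^ 2 := by rw [e1]
        _ = h * g ^ 2 := by rw [e2]
    by_cases hg1 : g ^ 2 = 1
    · exfalso
      have hodd : Odd P.n := P.hprime.odd_of_ne_two (by omega)
      obtain ⟨k, hk2⟩ := hodd
      have hgn : g ^ P.n = g := by
        rw [hk2, pow_succ, pow_mul, hg1, one_pow, one_mul]
      rcases hG.T2 g with h5 | h5
      · have h6 : g = 1 := by
          rw [hgn] at h5
          exact Subgroup.mem_bot.mp h5
        rw [h6] at heq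
        have h7 : h = h⁻¹ := by simpa using heq
        have h8 : h ^ 2 = 1 := by
          rw [pow_two]
          nth_rewrite 2 [h7]
          exact mul_inv_cancel h
        have h9 : h ^ P.n = h := by
          rw [hk2, pow_succ, pow_mul, h8, one_pow, one_mul]
        have h10 : h ≠ 1 := fun e => hn (by rw [e, one_pow])
        obtain ⟨i, hi⟩ := hub P hG hn x (d x (h • x))
        rcases Nat.even_or_odd i with ⟨r, hr⟩ | ⟨r, hr⟩
        · rw [hr, ← two_mul, pow_mul, h8, one_pow, one_smul, hG.geo.self] at hi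
          omega
        · rw [hr, pow_succ, pow_mul, h8, one_pow, one_mul] at hi
          omega
      · obtain ⟨z, hz⟩ := hqc hG.geo hG.isom hG.hyp g x 2 (by omega) (fun y => by
          rw [hg1, one_smul, hG.geo.self])
        have h6 := hz (M : ℤ)
        rw [zpow_natCast] at h6
        have h7 := h5 z
        omega
    · exact hcc P hG hh hg2 hg1 (by rw [← pow_succ, ← pow_succ'])

end Mon
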