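import Pool.Agent.Work.MP_6f5fa7_al.Mon.ConeDefs

/-! Mon: M3, M4 (guessing lemma, elementary facts on the cone-off). -/
set_option autoImplicit false

namespace Mon

/-- a space with slim intervals satisfies the four point condition -/
def S.slim_hyp : Prop :=
  ∀ {V : Type} {e : V → V → ℕ} {σ : ℕ} (hg : Geo e)
    (h : ∀ p q r w, Btw e p w q 0 → ∃ u, (Btw e p u r 0 ∨ Btw e r u q 0) ∧ e w u ≤ σ),
    Hyp (6 * σ + 2) e

/-- guessing geodesics (Bowditch, Masur–Schleimer) -/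
def S.guess : Prop :=
  ∀ (h : ℕ),
    ∃ δ1 : ℕ, 1 ≤ δ1 ∧ ∀ δ1' : ℕ, δ1 ≤ δ1' → GuessP h δ1'

def S.rdist_geo : Prop :=
  ∀ {V : Type} (r : V → V → Prop) (hs : ∀ v w, r v w → r w v)
    (hc : ∀ v w, ∃ n, Chain r n v w),
    Geo (rdist r)

def S.rdist_le : Prop :=
  ∀ {V : Type} (r : V → V → Prop) (v w : V) (n : ℕ) (h : Chain r n v w),
    rdist r v w ≤ n

def S.rdist_chain : Prop :=
  ∀ {V : Type} (r : V → V → Prop) (hc : ∀ v w, ∃ n, Chain r n v w) (v w : V),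
    Chain r (rdist r v w) v w

def S.rdist_lip : Prop :=
  ∀ {V : Type} (r : V → V → Prop) (hc : ∀ v w, ∃ n, Chain r n v w) (f : V → ℕ)
    (hf : ∀ v w, r v w → f v ≤ f w + 1) (v w : V),
    f v ≤ f w + rdist r v w

-- variable {G X : Type} [Group G] [MulAction G X] {d : X → X → ℕ} {s D : ℕ} {F : Fam G X}   (hg : Geo d) (hi : Isom G d) (hs : 1 ≤ s) (hD : 1 ≤ D)

def S.cone_geo : Prop :=
  ∀ {G X : Type} [Group G] [MulAction G X] {d : X → X → ℕ} {s D : ℕ} {F : Fam G X}   (hg : Geo d) (hi : Isom G d) (hs : 1 ≤ s) (hD : 1 ≤ D),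
    Geo (cd F D d s)

def S.cone_isom : Prop :=
  ∀ {G X : Type} [Group G] [MulAction G X] {d : X → X → ℕ} {s D : ℕ} {F : Fam G X}   (hg : Geo d) (hi : Isom G d) (hs : 1 ≤ s) (hD : 1 ≤ D),
    Isom G (cd F D d s)

def S.smul_bs : Prop :=
  ∀ {G X : Type} [Group G] [MulAction G X] {d : X → X → ℕ} {s D : ℕ} {F : Fam G X}   (hg : Geo d) (hi : Isom G d) (hs : 1 ≤ s) (hD : 1 ≤ D)  (g : G) (x : X),
    g • bs F D x = bs F D (g • x)

def S.smul_ap : Prop :=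
  ∀ {G X : Type} [Group G] [MulAction G X] {d : X → X → ℕ} {s D : ℕ} {F : Fam G X}   (hg : Geo d) (hi : Isom G d) (hs : 1 ≤ s) (hD : 1 ≤ D)  (g : G) (c : F.C),
    g • ap F D c = ap F D (g • c)

def S.smul_vt : Prop :=
  ∀ {G X : Type} [Group G] [MulAction G X] {d : X → X → ℕ} {s D : ℕ} {F : Fam G X}   (hg : Geo d) (hi : Isom G d) (hs : 1 ≤ s) (hD : 1 ≤ D)  (g : G) (c : F.C) (y : F.Y c) (k : ℕ),
    g • vt F D c y k = vt F D (g • c) ⟨g • y.1, F.Y_smul g c y.1 y.2⟩ k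

def S.lev_lip : Prop :=
  ∀ {G X : Type} [Group G] [MulAction G X] {d : X → X → ℕ} {s D : ℕ} {F : Fam G X}   (hg : Geo d) (hi : Isom G d) (hs : 1 ≤ s) (hD : 1 ≤ D)  (c : F.C) (v w : Cone F D),
    lev F D c v ≤ lev F D c w + cd F D d s v w

def S.lev_smul : Prop :=
  ∀ {G X : Type} [Group G] [MulAction G X] {d : X → X → ℕ} {s D : ℕ} {F : Fam G X}   (hg : Geo d) (hi : Isom G d) (hs : 1 ≤ s) (hD : 1 ≤ D)  (g : G) (c : F.C) (v : Cone F D),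
    lev F D (g • c) (g • v) = lev F D c v

def S.sh_smul : Prop :=
  ∀ {G X : Type} [Group G] [MulAction G X] {d : X → X → ℕ} {s D : ℕ} {F : Fam G X}   (hg : Geo d) (hi : Isom G d) (hs : 1 ≤ s) (hD : 1 ≤ D)  (g : G) (v : Cone F D) (h : NA v),
    sh F D (g • v) = g • sh F D v

def S.lev_bs : Prop :=
  ∀ {G X : Type} [Group G] [MulAction G X] {d : X → X → ℕ} {s D : ℕ} {F : Fam G X}   (hg : Geo d) (hi : Isom G d) (hs : 1 ≤ s) (hD : 1 ≤ D)  (c : F.C) (x : X),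
    lev F D c (bs F D x) = 0

def S.lev_vt : Prop :=
  ∀ {G X : Type} [Group G] [MulAction G X] {d : X → X → ℕ} {s D : ℕ} {F : Fam G X}   (hg : Geo d) (hi : Isom G d) (hs : 1 ≤ s) (hD : 1 ≤ D)  (c : F.C) (y : F.Y c) (k : ℕ),
    lev F D c (vt F D c y k) = min k (D + 1)

def S.lev_ap : Prop :=
  ∀ {G X : Type} [Group G] [MulAction G X] {d : X → X → ℕ} {s D : ℕ} {F : Fam G X}   (hg : Geo d) (hi : Isom G d) (hs : 1 ≤ s) (hD : 1 ≤ D)  (c : F.C),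
    lev F D c (ap F D c) = D + 1

def S.lev_vt_ne : Prop :=
  ∀ {G X : Type} [Group G] [MulAction G X] {d : X → X → ℕ} {s D : ℕ} {F : Fam G X}   (hg : Geo d) (hi : Isom G d) (hs : 1 ≤ s) (hD : 1 ≤ D)  (c c' : F.C) (y : F.Y c) (k : ℕ) (h : c ≠ c'),
    lev F D c' (vt F D c y k) = 0

/-- every vertex is a base vertex or a vertex of positive level over some `c` -/
def S.vertex_cases : Prop :=
  ∀ {G X : Type} [Group G] [MulAction G X] {d : X → X → ℕ} {s D : ℕ} {F : Fam G X}   (hg : Geo d) (hi : Isom G d) (hs : 1 ≤ s) (hD : 1 ≤ D)  (v : Cone F D),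
    (∃ x, v = bs F D x) ∨
    ∃ (c : F.C) (y : F.Y c) (k : ℕ), 1 ≤ k ∧ k ≤ D + 1 ∧ v = vt F D c y k

def S.eq_vt_of_lev : Prop :=
  ∀ {G X : Type} [Group G] [MulAction G X] {d : X → X → ℕ} {s D : ℕ} {F : Fam G X}   (hg : Geo d) (hi : Isom G d) (hs : 1 ≤ s) (hD : 1 ≤ D)  (c : F.C) (v : Cone F D) (h : 1 ≤ lev F D c v),
    ∃ y : F.Y c, v = vt F D c y (lev F D c v) ∧ (lev F D c v ≤ D → sh F D v = y.1)

def S.cd_vt_ap : Prop :=
  ∀ {G X : Type} [Group G] [MulAction G X] {d : X → X → ℕ} {s D : ℕ} {F : Fam G X}   (hg : Geo d) (hi : Isom G d) (hs : 1 ≤ s) (hD : 1 ≤ D)  (c : F.C) (y : F.Y c) (k : ℕ) (hk : k ≤ D + 1),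
    cd F D d s (vt F D c y k) (ap F D c) = D + 1 - k

def S.cd_vt_vt : Prop :=
  ∀ {G X : Type} [Group G] [MulAction G X] {d : X → X → ℕ} {s D : ℕ} {F : Fam G X}   (hg : Geo d) (hi : Isom G d) (hs : 1 ≤ s) (hD : 1 ≤ D)  (c : F.C) (y : F.Y c) (k k' : ℕ) (h : k ≤ k'),
    cd F D d s (vt F D c y k) (vt F D c y k') ≤ k' - k

def S.cd_hor : Prop :=
  ∀ {G X : Type} [Group G] [MulAction G X] {d : X → X → ℕ} {s D : ℕ} {F : Fam G X}   (hg : Geo d) (hi : Isom G d) (hs : 1 ≤ s) (hD : 1 ≤ D)  (c : F.C) (y y' : F.Y c) (k : ℕ) (h : d y.1 y'.1 ≤ s * 2 ^ k),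
    cd F D d s (vt F D c y k) (vt F D c y' k) ≤ 1

def S.cd_bs : Prop :=
  ∀ {G X : Type} [Group G] [MulAction G X] {d : X → X → ℕ} {s D : ℕ} {F : Fam G X}   (hg : Geo d) (hi : Isom G d) (hs : 1 ≤ s) (hD : 1 ≤ D)  (x x' : X),
    cd F D d s (bs F D x) (bs F D x') ≤ d x x' / s + 1

def S.nbr_ap : Prop :=
  ∀ {G X : Type} [Group G] [MulAction G X] {d : X → X → ℕ} {s D : ℕ} {F : Fam G X}   (hg : Geo d) (hi : Isom G d) (hs : 1 ≤ s) (hD : 1 ≤ D)  (c : F.C) (v : Cone F D) (h : cd F D d s v (ap F D c) = 1),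
    ∃ y : F.Y c, v = vt F D c y D

def S.ap_ap : Prop :=
  ∀ {G X : Type} [Group G] [MulAction G X] {d : X → X → ℕ} {s D : ℕ} {F : Fam G X}   (hg : Geo d) (hi : Isom G d) (hs : 1 ≤ s) (hD : 1 ≤ D)  (c c' : F.C) (h : c ≠ c'),
    2 * D + 2 ≤ cd F D d s (ap F D c) (ap F D c')

/-- staying in the cone over `c`, below the apex -/
def S.stay_path : Prop :=
  ∀ {G X : Type} [Group G] [MulAction G X] {d : X → X → ℕ} {s D : ℕ} {F : Fam G X}   (hg : Geo d) (hi : Isom G d) (hs : 1 ≤ s) (hD : 1 ≤ D)  (c : F.C) (γ : ℕ → Cone F D) (m : ℕ)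
    (h1 : ∀ i, i < m → cd F D d s (γ i) (γ (i + 1)) ≤ 1)
    (h2 : ∀ i, i ≤ m → 1 ≤ lev F D c (γ i) ∧ lev F D c (γ i) ≤ D),
    d (sh F D (γ 0)) (sh F D (γ m)) ≤ m * (s * 2 ^ D)

def S.stay : Prop :=
  ∀ {G X : Type} [Group G] [MulAction G X] {d : X → X → ℕ} {s D : ℕ} {F : Fam G X}   (hg : Geo d) (hi : Isom G d) (hs : 1 ≤ s) (hD : 1 ≤ D)  (c : F.C) (v w : Cone F D) (j : ℕ) (h : cd F D d s v w ≤ j) (h1 : j < lev F D c v)
    (h2 : lev F D c v + j ≤ D),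
    d (sh F D v) (sh F D w) ≤ j * (s * 2 ^ (lev F D c v + j))

/-- base vertices at cone distance `ρ ≤ D` are at `d`-distance at most `s ρ 2^ρ` -/
def S.bs_dist : Prop :=
  ∀ {G X : Type} [Group G] [MulAction G X] {d : X → X → ℕ} {s D : ℕ} {F : Fam G X}   (hg : Geo d) (hi : Isom G d) (hs : 1 ≤ s) (hD : 1 ≤ D)  (u v : X) (ρ : ℕ) (h : cd F D d s (bs F D u) (bs F D v) ≤ ρ) (hρ : ρ ≤ D),
    d u v ≤ s * Ex ρ

/-- an element moving `v` less than its level over `c` fixes `c` -/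
def S.cone_fix : Prop :=
  ∀ {G X : Type} [Group G] [MulAction G X] {d : X → X → ℕ} {s D : ℕ} {F : Fam G X}   (hg : Geo d) (hi : Isom G d) (hs : 1 ≤ s) (hD : 1 ≤ D)  (c : F.C) (v : Cone F D) (g : G) (ρ : ℕ) (h : ρ < lev F D c v)
    (h1 : Mv (cd F D d s) g v ρ),
    g • c = c

/-- if no level of `v` exceeds `ρ`, then `v` is within `ρ` of the base vertex below it -/
def S.to_base : Prop :=
  ∀ {G X : Type} [Group G] [MulAction G X] {d : X → X → ℕ} {s D : ℕ} {F : Fam G X}   (hg : Geo d) (hi : Isom G d) (hs : 1 ≤ s) (hD : 1 ≤ D)  (v : Cone F D) (ρ : ℕ) (hρ : ρ ≤ D) (h : ∀ c, lev F D c v ≤ ρ),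
    cd F D d s v (bs F D (sh F D v)) ≤ ρ

end Mon

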