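import Pool.Agent.Work.MP_6f5fa7_al.Mon.ConeDefs

/-! Mon: M5 (projections, the guessed quasi-geodesics, hyperbolicity of the cone-off). -/
set_option autoImplicit false

namespace Mon

-- variable {G X : Type} [Group G] [MulAction G X] {d : X → X → ℕ} {P : Par} {F : Fam G X} {T M : ℕ}   (hG : P.St G d M) (hF : FamOK P d F T)

/-- the projection is a closest point -/
def S.pr_min : Prop :=
  ∀ {G X : Type} [Group G] [MulAction G X] {d : X → X → ℕ} {P : Par} {F : Fam G X} {T M : ℕ}   (hG : P.St G d M) (hF : FamOK P d F T)  (c : F.C) (x : X) (y : X) (hy : y ∈ F.Y c),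
    d x (pr F d c x).1 ≤ d x y

def S.pr_self : Prop :=
  ∀ {G X : Type} [Group G] [MulAction G X] {d : X → X → ℕ} {P : Par} {F : Fam G X} {T M : ℕ}   (hG : P.St G d M) (hF : FamOK P d F T)  (c : F.C) (x : X) (hx : x ∈ F.Y c),
    (pr F d c x).1 = x

/-- (Pr1) -/
def S.pr_btw : Prop :=
  ∀ {G X : Type} [Group G] [MulAction G X] {d : X → X → ℕ} {P : Par} {F : Fam G X} {T M : ℕ}   (hG : P.St G d M) (hF : FamOK P d F T)  (c : F.C) (x y : X) (hy : y ∈ F.Y c),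
    Btw d x (pr F d c x).1 y (3 * P.A)

/-- (Pr2) -/
def S.pr_btw2 : Prop :=
  ∀ {G X : Type} [Group G] [MulAction G X] {d : X → X → ℕ} {P : Par} {F : Fam G X} {T M : ℕ}   (hG : P.St G d M) (hF : FamOK P d F T)  (c : F.C) (x y : X) (h : 4 * P.A ≤ d (pr F d c x).1 (pr F d c y).1),
    d x (pr F d c x).1 + d (pr F d c x).1 (pr F d c y).1 + d (pr F d c y).1 y ≤
      d x y + 7 * P.A

/-- (Pr3) -/
def S.pr_lip : Prop :=
  ∀ {G X : Type} [Group G] [MulAction G X] {d : X → X → ℕ} {P : Par} {F : Fam G X} {T M : ℕ}   (hG : P.St G d M) (hF : FamOK P d F T)  (c : F.C) (x y : X),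
    d (pr F d c x).1 (pr F d c y).1 ≤ d x y + 7 * P.A

/-- (Pr4) -/
def S.pr_mid : Prop :=
  ∀ {G X : Type} [Group G] [MulAction G X] {d : X → X → ℕ} {P : Par} {F : Fam G X} {T M : ℕ}   (hG : P.St G d M) (hF : FamOK P d F T)  (c : F.C) (x y w w' : X) (κ ρ : ℕ) (h : Btw d x w y κ) (hw : w' ∈ F.Y c)
    (h1 : d w w' ≤ ρ),
    Btw d (pr F d c x).1 w' (pr F d c y).1 (κ + 6 * P.A + 2 * ρ)

/-- (Pr5) the projection of `Y c` to `Y c'` is small -/
def S.pr_other : Prop :=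
  ∀ {G X : Type} [Group G] [MulAction G X] {d : X → X → ℕ} {P : Par} {F : Fam G X} {T M : ℕ}   (hG : P.St G d M) (hF : FamOK P d F T)  (c c' : F.C) (h : c ≠ c') (x y : X) (hx : x ∈ F.Y c) (hy : y ∈ F.Y c),
    d (pr F d c' x).1 (pr F d c' y).1 ≤ P.s

/-- (SI) self-improvement -/
def S.pr_improve : Prop :=
  ∀ {G X : Type} [Group G] [MulAction G X] {d : X → X → ℕ} {P : Par} {F : Fam G X} {T M : ℕ}   (hG : P.St G d M) (hF : FamOK P d F T)  (c : F.C) (x y w w' : X) (h : Btw d x w y (10 * P.A)) (hw : w' ∈ F.Y c)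
    (h1 : d w w' ≤ 3 * P.s) (h2 : 10 * P.s ≤ d w (pr F d c x).1)
    (h3 : 10 * P.s ≤ d w (pr F d c y).1),
    ∃ y' ∈ F.Y c, d w y' ≤ 25 * P.A

def S.LL_short : Prop :=
  ∀ {G X : Type} [Group G] [MulAction G X] {d : X → X → ℕ} {P : Par} {F : Fam G X} {T M : ℕ}   (hG : P.St G d M) (hF : FamOK P d F T)  (p q v : Cone F P.D) (h : cd F P.D d P.s p q ≤ 1)
    (hv : v ∈ LL F P.D d P.s P.A p q),
    cd F P.D d P.s p v ≤ 1000

def S.LL_slim : Prop :=
  ∀ {G X : Type} [Group G] [MulAction G X] {d : X → X → ℕ} {P : Par} {F : Fam G X} {T M : ℕ}   (hG : P.St G d M) (hF : FamOK P d F T)  (p q r v : Cone F P.D) (hv : v ∈ LL F P.D d P.s P.A p q),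
    ∃ w, (w ∈ LL F P.D d P.s P.A p r ∨ w ∈ LL F P.D d P.s P.A r q) ∧
      cd F P.D d P.s v w ≤ 1000

def S.LL_conn : Prop :=
  ∀ {G X : Type} [Group G] [MulAction G X] {d : X → X → ℕ} {P : Par} {F : Fam G X} {T M : ℕ}   (hG : P.St G d M) (hF : FamOK P d F T)  (p q : Cone F P.D),
    ∃ (m : ℕ) (v : ℕ → Cone F P.D), v 0 = p ∧ v m = q ∧
    (∀ i, i ≤ m → v i ∈ LL F P.D d P.s P.A p q) ∧
    ∀ i, i < m → cd F P.D d P.s (v i) (v (i + 1)) ≤ 1000

/-- the cone-off is `δ1`-hyperbolic -/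
def S.cone_hyp : Prop :=
  ∀ {G X : Type} [Group G] [MulAction G X] {d : X → X → ℕ} {P : Par} {F : Fam G X} {T M : ℕ}   (hG : P.St G d M) (hF : FamOK P d F T),
    Hyp P.δ1 (cd F P.D d P.s)

def S.LL_near : Prop :=
  ∀ {G X : Type} [Group G] [MulAction G X] {d : X → X → ℕ} {P : Par} {F : Fam G X} {T M : ℕ}   (hG : P.St G d M) (hF : FamOK P d F T)  (p q v : Cone F P.D) (hv : v ∈ LL F P.D d P.s P.A p q),
    ∃ w, Btw (cd F P.D d P.s) p w q 0 ∧ cd F P.D d P.s v w ≤ P.δ1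

def S.near_LL : Prop :=
  ∀ {G X : Type} [Group G] [MulAction G X] {d : X → X → ℕ} {P : Par} {F : Fam G X} {T M : ℕ}   (hG : P.St G d M) (hF : FamOK P d F T)  (p q w : Cone F P.D) (hw : Btw (cd F P.D d P.s) p w q 0),
    ∃ v ∈ LL F P.D d P.s P.A p q, cd F P.D d P.s v w ≤ P.δ1

/-- (X5) exits of base vertices are near the projections -/
def S.exit_proj : Prop :=
  ∀ {G X : Type} [Group G] [MulAction G X] {d : X → X → ℕ} {P : Par} {F : Fam G X} {T M : ℕ}   (hG : P.St G d M) (hF : FamOK P d F T)  (c : F.C) (x e : X) (h : e ∈ Exi F P.D (cd F P.D d P.s) c (bs F P.D x)),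
    d e (pr F d c x).1 ≤ P.δ1 * (P.s * 2 ^ P.D)

/-- (X8) points between `x` and `y` remain between them in the cone-off, if the projections of
`x` and `y` to all `Y c` are at distance at most `B s` -/
def S.cone_thick : Prop :=
  ∀ {G X : Type} [Group G] [MulAction G X] {d : X → X → ℕ} {P : Par} {F : Fam G X} {T M : ℕ}   (hG : P.St G d M) (hF : FamOK P d F T)  (x y z : X) (B : ℕ) (h : Btw d x z y P.s)
    (hB : ∀ c, d (pr F d c x).1 (pr F d c y).1 ≤ B * P.s),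
    Btw (cd F P.D d P.s) (bs F P.D x) (bs F P.D z) (bs F P.D y)
      (2 * (B + P.δ1 + 100))

end Mon

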