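import Pool.Agent.Work.MP_6f5fa7_al.Mon.Defs

/-! Mon: statements of the metric toolkit (M0, M1). -/
set_option autoImplicit false

namespace Mon

-- variable {X : Type} {d : X → X → ℕ} {δ : ℕ}

/-- (H1) -/
def S.btw_split : Prop :=
  ∀ {X : Type} {d : X → X → ℕ} {δ : ℕ}  (hg : Geo d) (hh : Hyp δ d) {x w y : X} {κ : ℕ} (h : Btw d x w y κ) (z : X),
    Btw d x w z (κ + δ) ∨ Btw d z w y (κ + δ)

/-- (H2) two points between `x` and `y` at nearly the same distance from `x` are close -/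
def S.btw_close : Prop :=
  ∀ {X : Type} {d : X → X → ℕ} {δ : ℕ}  (hg : Geo d) (hh : Hyp δ d) {x y w w' : X} {κ j : ℕ}
    (h : Btw d x w y κ) (h' : Btw d x w' y κ) (h1 : d x w ≤ d x w' + j) (h2 : d x w' ≤ d x w + j),
    d w w' ≤ j + κ + δ

/-- (H3) quadrilateral with short sides -/
def S.btw_quad : Prop :=
  ∀ {X : Type} {d : X → X → ℕ} {δ : ℕ}  (hg : Geo d) (hh : Hyp δ d) {x y x' y' w : X} {κ R : ℕ}
    (h : Btw d x' w y' κ) (hx : d x x' ≤ R) (hy : d y y' ≤ R)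
    (h1 : R + κ + 2 * δ < d w x') (h2 : R + κ + δ < d w y'),
    Btw d x w y (κ + 2 * δ)

/-- a point between `x,y` up to `κ` is near a point exactly between -/
def S.btw_proj : Prop :=
  ∀ {X : Type} {d : X → X → ℕ} {δ : ℕ}  (hg : Geo d) (hh : Hyp δ d) {x y w : X} {κ : ℕ} (h : Btw d x w y κ),
    ∃ m, Btw d x m y 0 ∧ d w m ≤ 2 * κ + δ

/-- (H4) centre of a triangle on the side `x,y` -/
def S.tri_centre : Prop :=
  ∀ {X : Type} {d : X → X → ℕ} {δ : ℕ}  (hg : Geo d) (hh : Hyp δ d) (x y z : X),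
    ∃ m, Btw d x m y 0 ∧ 2 * d x m ≤ d x y + d x z - d y z + 1 ∧
      d x y + d x z ≤ 2 * d x m + d y z + 1 ∧
      2 * d m z ≤ d x z + d y z - d x y + 2 * δ + 2

/-- points on two sides of a triangle at the same distance from the common vertex -/
def S.fellow : Prop :=
  ∀ {X : Type} {d : X → X → ℕ} {δ : ℕ}  (hg : Geo d) (hh : Hyp δ d) {c p q v w : X} (h1 : Btw d c v p 0) (h2 : Btw d c w q 0)
    (h3 : d c v = d c w) (h4 : 2 * d c v + d p q ≤ d c p + d c q),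
    d v w ≤ 2 * δ

-- variable {G : Type} [Group G] [MulAction G X]

/-- (I1) -/
def S.lox_growth : Prop :=
  ∀ {X : Type} {d : X → X → ℕ} {δ : ℕ} {G : Type} [Group G] [MulAction G X]  (hg : Geo d) (hi : Isom G d) (hh : Hyp δ d) (g : G) (x : X)
    (h : d x (g • x) + δ + 1 ≤ d x (g ^ 2 • x)) (i : ℕ),
    d x (g • x) + i * (d x (g ^ 2 • x) - d x (g • x) - δ) ≤ d x (g ^ (i + 1) • x)

/-- (I6) -/
def S.lox_thick : Prop :=
  ∀ {X : Type} {d : X → X → ℕ} {δ : ℕ} {G : Type} [Group G] [MulAction G X]  (hg : Geo d) (hi : Isom G d) (hh : Hyp δ d) (g : G) (x : X) (κ : ℕ)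
    (h : 2 * d x (g • x) ≤ d x (g ^ 2 • x) + κ) (h1 : κ + 2 * δ < d x (g • x)),
    Thick d g x (κ + 2 * δ)

/-- (I2) -/
def S.disp_growth : Prop :=
  ∀ {X : Type} {d : X → X → ℕ} {δ : ℕ} {G : Type} [Group G] [MulAction G X]  (hg : Geo d) (hi : Isom G d) (hh : Hyp δ d) (hδ : 1 ≤ δ) (g : G) (L : ℕ)
    (h : ∀ x : X, L ≤ d x (g • x)) (hL : 5 * δ < L) (x : X) (i : ℕ),
    i * (L - 4 * δ) ≤ d x (g ^ i • x)

/-- (I3) quasi centre -/
def S.quasi_centre : Prop :=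
  ∀ {X : Type} {d : X → X → ℕ} {δ : ℕ} {G : Type} [Group G] [MulAction G X]  (hg : Geo d) (hi : Isom G d) (hh : Hyp δ d) (g : G) (x : X) (M L : ℕ)
    (hM : 1 ≤ M) (h : d x (g ^ M • x) ≤ L),
    ∃ z, ∀ i, i ≤ M → d z (g ^ i • z) ≤ 2 * L + 2 * δ + 1

/-- quasi centre of an element a power of which acts trivially -/
def S.quasi_centre_tors : Prop :=
  ∀ {X : Type} {d : X → X → ℕ} {δ : ℕ} {G : Type} [Group G] [MulAction G X]  (hg : Geo d) (hi : Isom G d) (hh : Hyp δ d) (g : G) (x : X) (n : ℕ)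
    (hn : 1 ≤ n) (h : ∀ y : X, d y (g ^ n • y) = 0),
    ∃ z, ∀ i : ℤ, d z (g ^ i • z) ≤ 2 * δ + 1

/-- (I4) commutators move the middle very little -/
def S.comm_middle : Prop :=
  ∀ {X : Type} {d : X → X → ℕ} {δ : ℕ} {G : Type} [Group G] [MulAction G X]  (hg : Geo d) (hi : Isom G d) (hh : Hyp δ d) (g h : G) (x y m : X) (R : ℕ)
    (g1 : Mv d g x R) (g2 : Mv d g y R) (h1 : Mv d h x R) (h2 : Mv d h y R)
    (hm : Btw d x m y 0) (m1 : 5 * R + 40 * δ ≤ d x m) (m2 : 5 * R + 40 * δ ≤ d m y),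
    Mv d (g * h * g⁻¹ * h⁻¹) m (20 * δ)

/-- (I5) dichotomy -/
def S.dichotomy : Prop :=
  ∀ {X : Type} {d : X → X → ℕ} {δ : ℕ} {G : Type} [Group G] [MulAction G X]  (hg : Geo d) (hi : Isom G d) (hh : Hyp δ d) (hδ : 1 ≤ δ) (g : G) (x y m : X)
    (R : ℕ) (g1 : Mv d g x R) (g2 : Mv d g y R)
    (hm : Btw d x m y 0) (m1 : 5 * R + 40 * δ ≤ d x m) (m2 : 5 * R + 40 * δ ≤ d m y),
    Mv d g m (25 * δ) ∨ (Thick d g m (9 * δ) ∧ ∀ i : ℕ, i ≤ d m (g ^ i • m))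

/-- points of a geodesic are moved at most three times as much as the end points -/
def S.middle_move : Prop :=
  ∀ {X : Type} {d : X → X → ℕ} {δ : ℕ} {G : Type} [Group G] [MulAction G X]  (hg : Geo d) (hi : Isom G d) (hh : Hyp δ d) (g : G) (x y m : X)
    (R : ℕ) (g1 : Mv d g x R) (g2 : Mv d g y R) (hm : Btw d x m y 0),
    Mv d g m (3 * R + 6 * δ)

/-- middle points are not moved more than the end points (up to `3δ`) -/
def S.middle_move' : Prop :=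
  ∀ {X : Type} {d : X → X → ℕ} {δ : ℕ} {G : Type} [Group G] [MulAction G X]  (hg : Geo d) (hi : Isom G d) (hh : Hyp δ d) (g : G) (x y m : X)
    (R : ℕ) (g1 : Mv d g x R) (g2 : Mv d g y R) (hm : Btw d x m y 0)
    (m1 : R + 2 * δ < d x m) (m2 : R + 2 * δ < d m y),
    Mv d g m (R + 3 * δ)

/-- (AxNear) -/
def S.ax_near : Prop :=
  ∀ {X : Type} {d : X → X → ℕ} {δ : ℕ} {G : Type} [Group G] [MulAction G X]  (hg : Geo d) (hi : Isom G d) (hh : Hyp δ d) (g : G) (x m : X) (κ κ' R : ℕ)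
    (hub : ∀ B : ℕ, ∃ i : ℕ, B < d x (g ^ i • x))
    (h1 : Thick d g m κ) (h2 : Thick d g x κ') (h3 : Mv d g x R),
    ∃ j : ℤ, d m (g ^ j • x) ≤ 2 * (κ + κ' + R + 5 * δ)

/-- broken geodesics -/
def S.broken : Prop :=
  ∀ {X : Type} {d : X → X → ℕ} {δ : ℕ} {G : Type} [Group G] [MulAction G X]  (hg : Geo d) (hh : Hyp δ d) (q : ℕ → X) (B L : ℕ)
    (h1 : ∀ i, L ≤ d (q i) (q (i + 1)))
    (h2 : ∀ i, d (q i) (q (i + 1)) + d (q (i + 1)) (q (i + 2)) ≤ d (q i) (q (i + 2)) + B)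
    (hL : 2 * B + 10 * δ + 2 ≤ L) (m : ℕ),
    m ≤ d (q 0) (q m)

end Mon

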