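import Pool.Agent.Work.MP_6f5fa7_al.Mon.StAct
import Pool.Agent.Work.MP_6f5fa7_al.Mon.StHyp
import Pool.Agent.Work.MP_6f5fa7_al.Mon.StCone
import Pool.Agent.Work.MP_6f5fa7_al.Mon.StTool

/-! Mon: item A1 (exits and angles, elementary properties). -/
set_option autoImplicit false

namespace Mon

private lemma A1_Ex_le (ρ : ℕ) : ρ ≤ Ex ρ := Nat.le_mul_of_pos_right ρ (by positivity)

private lemma A1_D (P : Par) : 2 * P.δ1 + 1 ≤ P.D := by
  have h1 := P.h1
  have h2 := P.hδ
  have h3 := P.hΛs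
  have h4 := P.hΛ
  have h5 := P.hA0
  have h6 := P.hD
  have h7 := A1_Ex_le (1000 * P.Λ)
  omega

private lemma A1_s (P : Par) : 1 ≤ P.s := by
  have h1 := A1_D P
  have h2 := P.hA
  have h3 := P.hs
  omega

variable {G X : Type} [Group G] [MulAction G X] {d : X → X → ℕ} {F : Fam G X} {D s : ℕ}

private lemma A1_vt_ap (c : F.C) (y : F.Y c) (k : ℕ) (hk : D < k) : vt F D c y k = ap F D c := by
  unfold vt
  rw [dif_neg (by omega), dif_neg (by omega)]

private lemma A1_vt_val (c : F.C) (y : F.Y c) (k : ℕ) (h1 : 1 ≤ k) (hk : k ≤ D) :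
    (vt F D c y k).1 = .cone c y.1 k := by
  unfold vt
  rw [dif_neg (by omega), dif_pos hk]

private lemma A1_sh (c : F.C) (y : F.Y c) (k : ℕ) (hk : k ≤ D) : sh F D (vt F D c y k) = y.1 := by
  unfold sh
  by_cases h0 : k = 0
  · subst h0
    unfold vt
    rw [dif_pos rfl]
    rfl
  · rw [A1_vt_val c y k (by omega) hk]
    rfl

private lemma A1_adj_of_one {V : Type} {r : V → V → Prop} {v w : V} (h : rdist r v w = 1) :
    r v w := by
  have hne : {n | Chain r n v w}.Nonempty := by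
    by_contra hcon
    rw [Set.not_nonempty_iff_eq_empty] at hcon
    unfold rdist at h
    rw [hcon, Nat.sInf_empty] at h
    omega
  have h1 : rdist r v w ∈ {n | Chain r n v w} := Nat.sInf_mem hne
  rw [h] at h1
  obtain ⟨u, hu, hu2⟩ := h1
  have : u = w := hu2
  exact this ▸ hu

/-- a vertex adjacent to `vt c y k` with level `k - 1` is `vt c y (k - 1)` -/
private lemma A1_pred (c : F.C) (y : F.Y c) (k : ℕ) (h1 : 1 ≤ k) (hk : k ≤ D) (z : Cone F D)
    (hz : cadj F D d s z (vt F D c y k)) (hl : lev F D c z + 1 = k) :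
    z = vt F D c y (k - 1) := by
  obtain ⟨z, hzv⟩ := z
  unfold cadj at hz
  rw [A1_vt_val c y k h1 hk] at hz
  unfold lev at hl
  simp only at hz hl
  rcases hz with hz | hz
  · generalize hw : (CV.cone c y.1 k : CV X F.C) = w at hz
    cases hz with
    | hor0 x x' _ => exact absurd hw (by simp)
    | hor c' y1 y2 k' _ =>
      injection hw with e1 e2 e3
      subst e1 e3
      simp [levr] at hl
    | up0 c' y1 =>
      injection hw with e1 e2 e3
      subst e1 e3
      apply Subtype.ext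
      simp only [Nat.sub_self]
      unfold vt
      rw [dif_pos rfl]
      simp [bs, e2]
    | up c' y1 k' =>
      injection hw with e1 e2 e3
      subst e1 e3
      apply Subtype.ext
      rw [Nat.add_sub_cancel, A1_vt_val c y k' hzv.2.1 hzv.2.2]
      simp [e2]
    | top c' y1 => exact absurd hw (by simp)
  · generalize hw : (CV.cone c y.1 k : CV X F.C) = w at hz
    cases hz with
    | hor0 x x' _ => exact absurd hw (by simp)
    | hor c' y1 y2 k' _ =>
      injection hw with e1 e2 e3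
      subst e1 e3
      simp [levr] at hl
    | up0 c' y1 => exact absurd hw (by simp)
    | up c' y1 k' =>
      injection hw with e1 e2 e3
      subst e1 e3
      simp [levr] at hl
      omega
    | top c' y1 =>
      injection hw with e1 e2 e3
      subst e1
      simp [levr] at hl
      omega

theorem exit_ne (k1 : S.cone_geo) (k2 : S.nbr_ap) (k3 : S.lev_lip) (k4 : S.lev_ap)
    (k5 : S.eq_vt_of_lev) : S.exit_ne := by
  intro G X _ _ d P F T M hG hF hT c p h
  have hs := A1_s P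
  have hD : 1 ≤ P.D := by have := A1_D P; omega
  have hg := k1 (F := F) hG.geo hG.isom hs hD
  have hpos : 1 ≤ cd F P.D d P.s p (ap F P.D c) := by
    by_contra h0
    have h1 := k3 (F := F) hG.geo hG.isom hs hD c (ap F P.D c) p
    rw [k4 (F := F) hG.geo hG.isom hs hD c, hg.symm] at h1
    obtain ⟨y, hy, _⟩ := k5 (F := F) hG.geo hG.isom hs hD c p (by omega)
    apply h
    rw [hy, A1_vt_ap]
    omega
  obtain ⟨z, hz1, hz2⟩ := hg.geo p (ap F P.D c) (cd F P.D d P.s p (ap F P.D c) - 1) (by omega)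
  obtain ⟨y, hy⟩ := k2 (F := F) hG.geo hG.isom hs hD c z (by omega)
  refine ⟨y.1, y, rfl, ?_⟩
  rw [← hy]
  omega

theorem exit_smul (k1 : S.cone_isom) (k2 : S.smul_ap) (k3 : S.smul_vt) : S.exit_smul := by
  intro G X _ _ d P F T M hG hF hT g c p y h
  have hs := A1_s P
  have hD : 1 ≤ P.D := by have := A1_D P; omega
  obtain ⟨y1, rfl, hy⟩ := h
  refine ⟨⟨g • y1.1, F.Y_smul g c y1.1 y1.2⟩, rfl, ?_⟩
  rw [← k3 (F := F) hG.geo hG.isom hs hD g c y1 P.D, ← k2 (F := F) hG.geo hG.isom hs hD g c,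
    k1 (F := F) hG.geo hG.isom hs hD, k1 (F := F) hG.geo hG.isom hs hD]
  exact hy

theorem ang_smul (k1 : S.cone_isom) (k2 : S.smul_ap) (k3 : S.smul_vt) : S.ang_smul := by
  intro G X _ _ d P F T M hG hF hT g c p q t h
  obtain ⟨y, hy, y', hy', ht⟩ := h
  refine ⟨g • y, exit_smul k1 k2 k3 hG hF hT g c p y hy, g • y',
    exit_smul k1 k2 k3 hG hF hT g c q y' hy', ?_⟩
  rw [hG.isom]
  exact ht

theorem ang_tri (k1 : S.cone_geo) (k2 : S.nbr_ap) (k3 : S.lev_lip) (k4 : S.lev_ap)
    (k5 : S.eq_vt_of_lev) : S.ang_tri := by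
  intro G X _ _ d P F T M hG hF hT c p q r t t1 t2 h h1 ht
  obtain ⟨y, hy, y', hy', hyt⟩ := h1
  obtain ⟨z, hz⟩ := exit_ne k1 k2 k3 k4 k5 hG hF hT c q h
  have h2 := hG.geo.tri y z y'
  by_cases h3 : t1 ≤ d y z
  · exact Or.inl ⟨y, hy, z, hz, h3⟩
  · exact Or.inr ⟨z, hz, y', hy', by omega⟩

theorem exit_btw (k1 : S.cone_geo) (k2 : S.cd_vt_ap) : S.exit_btw := by
  intro G X _ _ d P F T M hG hF hT c c' p hc h y hy
  have hs := A1_s P
  have hD : 1 ≤ P.D := by have := A1_D P; omega
  have hg := k1 (F := F) hG.geo hG.isom hs hD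
  obtain ⟨y1, rfl, hy⟩ := hy
  refine ⟨y1, rfl, ?_⟩
  have h1 := hg.tri p (ap F P.D c') (vt F P.D c y1 P.D)
  have h2 := hg.tri p (vt F P.D c y1 P.D) (ap F P.D c)
  have h3 := k2 (F := F) hG.geo hG.isom hs hD c y1 P.D (by omega)
  unfold Btw at h
  omega

theorem exit_thru (k1 : S.cone_geo) (k2 : S.cd_vt_ap) (k3 : S.ap_ap) : S.exit_thru := by
  intro G X _ _ d P F T M hG hF hT c c' p hc h y hy
  have hs := A1_s P
  have hD : 1 ≤ P.D := by have := A1_D P; omega
  have hg := k1 (F := F) hG.geo hG.isom hs hD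
  obtain ⟨y1, rfl, hy⟩ := hy
  refine ⟨y1, rfl, ?_⟩
  have h3 := k2 (F := F) hG.geo hG.isom hs hD c y1 P.D (by omega)
  have h4 := k3 (F := F) hG.geo hG.isom hs hD c' c hc
  have h5 := hg.tri (ap F P.D c') (vt F P.D c y1 P.D) (ap F P.D c)
  rcases h.2 (vt F P.D c y1 P.D) (by unfold Btw; omega) with h6 | h6
  · have h7 := h.1
    unfold Btw at h6
    omega
  · unfold Btw at h6
    omega

/-- the vertical rays below exits are geodesic -/
private lemma A1_vertical (k1 : S.cone_geo) (k2 : S.cd_vt_ap) (k3 : S.lev_lip) (k4 : S.lev_vt)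
    (k5 : S.eq_vt_of_lev) {P : Par} {T M : ℕ} (hG : P.St G d M) (hF : FamOK P d F T)
    (c : F.C) (p : Cone F P.D) (y : F.Y c)
    (hy : cd F P.D d P.s p (vt F P.D c y P.D) + 1 = cd F P.D d P.s p (ap F P.D c)) (i : ℕ)
    (hi : lev F P.D c p + i ≤ P.D) :
    cd F P.D d P.s p (vt F P.D c y (P.D - i)) + (i + 1) = cd F P.D d P.s p (ap F P.D c) := by
  have hs := A1_s P
  have hD : 1 ≤ P.D := by have := A1_D P; omega
  have hg := k1 (F := F) hG.geo hG.isom hs hD
  induction i with
  | zero => simpa using hy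
  | succ i ih =>
    have ih' := ih (by omega)
    have hk1 : 1 ≤ P.D - i := by omega
    have hl := k4 (F := F) hG.geo hG.isom hs hD c y (P.D - i)
    rw [min_eq_left (by omega)] at hl
    have hne : cd F P.D d P.s p (vt F P.D c y (P.D - i)) ≠ 0 := by
      intro h0
      have h1 := k3 (F := F) hG.geo hG.isom hs hD c (vt F P.D c y (P.D - i)) p
      rw [hg.symm, h0, hl] at h1
      omega
    obtain ⟨z, hz1, hz2⟩ := hg.geo p (vt F P.D c y (P.D - i))
      (cd F P.D d P.s p (vt F P.D c y (P.D - i)) - 1) (by omega)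
    have hz3 : cd F P.D d P.s z (vt F P.D c y (P.D - i)) = 1 := by omega
    have h1 := k3 (F := F) hG.geo hG.isom hs hD c (vt F P.D c y (P.D - i)) z
    rw [hg.symm, hz3, hl] at h1
    have h2 : lev F P.D c z + 1 = P.D - i := by
      by_contra hcon
      obtain ⟨y2, hy2, _⟩ := k5 (F := F) hG.geo hG.isom hs hD c z (by omega)
      have h3 := hg.tri p z (ap F P.D c)
      by_cases h4 : lev F P.D c z ≤ P.D + 1
      · have h5 := k2 (F := F) hG.geo hG.isom hs hD c y2 (lev F P.D c z) h4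
        rw [← hy2] at h5
        omega
      · rw [hy2, A1_vt_ap c y2 _ (by omega), hg.self] at h3
        rw [hy2, A1_vt_ap c y2 _ (by omega)] at hz1
        omega
    have h6 := A1_pred c y (P.D - i) hk1 (by omega) z (A1_adj_of_one hz3) h2
    have h7 : P.D - i - 1 = P.D - (i + 1) := by omega
    rw [h7] at h6
    rw [← h6]
    omega

theorem exit_small (k1 : S.cone_geo) (k2 : S.cd_vt_ap) (k3 : S.lev_lip) (k4 : S.lev_vt)
    (k5 : S.eq_vt_of_lev) (k6 : S.stay) (k7 : S.cone_hyp) (k8 : S.btw_close) :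
    S.exit_small := by
  intro G X _ _ d P F T M hG hF hT c p y y' h h'
  have hs := A1_s P
  have hD2 := A1_D P
  have hD : 1 ≤ P.D := by omega
  have hg := k1 (F := F) hG.geo hG.isom hs hD
  have hh := k7 hG hF
  obtain ⟨y, rfl, hy⟩ := h
  obtain ⟨y', rfl, hy'⟩ := h'
  by_cases hl : 1 ≤ lev F P.D c p
  · obtain ⟨y0, hy0, _⟩ := k5 (F := F) hG.geo hG.isom hs hD c p hl
    by_cases hl2 : lev F P.D c p ≤ P.D
    · have key : ∀ z : F.Y c,
          cd F P.D d P.s p (vt F P.D c z P.D) + 1 = cd F P.D d P.s p (ap F P.D c) →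
          d y0.1 z.1 = 0 := by
        intro z hz
        have h1 := A1_vertical k1 k2 k3 k4 k5 hG hF c p z hz (P.D - lev F P.D c p) (by omega)
        have h2 := k2 (F := F) hG.geo hG.isom hs hD c y0 (lev F P.D c p) (by omega)
        rw [← hy0] at h2
        rw [Nat.sub_sub_self hl2] at h1
        have h3 : cd F P.D d P.s p (vt F P.D c z (lev F P.D c p)) ≤ 0 := by omega
        have h4 := k6 (F := F) hG.geo hG.isom hs hD c p (vt F P.D c z (lev F P.D c p)) 0 h3
          hl (by omega)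
        rw [A1_sh c z _ hl2] at h4
        have h5 : sh F P.D p = y0.1 := by
          conv_lhs => rw [hy0]
          exact A1_sh c y0 _ hl2
        rw [h5] at h4
        omega
      have e1 := key y hy
      have e2 := key y' hy'
      have e3 := hG.geo.tri y.1 y0.1 y'.1
      rw [hG.geo.symm y.1 y0.1] at e3
      omega
    · have h1 : p = ap F P.D c := by rw [hy0, A1_vt_ap c y0 _ (by omega)]
      rw [h1, hg.self] at hy
      omega
  · have h1 := A1_vertical k1 k2 k3 k4 k5 hG hF c p y hy P.δ1 (by omega)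
    have h2 := A1_vertical k1 k2 k3 k4 k5 hG hF c p y' hy' P.δ1 (by omega)
    have h3 := k2 (F := F) hG.geo hG.isom hs hD c y (P.D - P.δ1) (by omega)
    have h4 := k2 (F := F) hG.geo hG.isom hs hD c y' (P.D - P.δ1) (by omega)
    have hl := k4 (F := F) hG.geo hG.isom hs hD c y (P.D - P.δ1)
    rw [min_eq_left (by omega)] at hl
    have h5 := k8 hg hh (x := p) (y := ap F P.D c) (w := vt F P.D c y (P.D - P.δ1))
      (w' := vt F P.D c y' (P.D - P.δ1)) (κ := 0) (j := 0) (by unfold Btw; omega)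
      (by unfold Btw; omega) (by omega) (by omega)
    have h6 := k6 (F := F) hG.geo hG.isom hs hD c (vt F P.D c y (P.D - P.δ1))
      (vt F P.D c y' (P.D - P.δ1)) P.δ1 (by omega) (by omega) (by omega)
    rw [A1_sh c y _ (by omega), A1_sh c y' _ (by omega), hl, Nat.sub_add_cancel (by omega)] at h6
    exact h6

end Mon
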