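import Pool.Agent.Work.MP_6f5fa7_al.Mon.ConeDefs

/-! Mon: M6 (exits, angles), M7 (windmill), M8 (quotient), M9 (lifting), M10 (the invariants of
the quotient), for a clean stage `hG` and a family `hF`. -/
set_option autoImplicit false

namespace Mon

-- variable {G X : Type} [Group G] [MulAction G X] {d : X → X → ℕ} {P : Par} {F : Fam G X} {T M : ℕ}   (hG : P.St G d M) (hF : FamOK P d F T) (hT : P.TT2 ≤ T)

def S.exit_ne : Prop :=
  ∀ {G X : Type} [Group G] [MulAction G X] {d : X → X → ℕ} {P : Par} {F : Fam G X} {T M : ℕ}   (hG : P.St G d M) (hF : FamOK P d F T) (hT : P.TT2 ≤ T)  (c : F.C) (p : Cone F P.D) (h : p ≠ ap F P.D c),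
    (Exi F P.D (cd F P.D d P.s) c p).Nonempty

def S.exit_small : Prop :=
  ∀ {G X : Type} [Group G] [MulAction G X] {d : X → X → ℕ} {P : Par} {F : Fam G X} {T M : ℕ}   (hG : P.St G d M) (hF : FamOK P d F T) (hT : P.TT2 ≤ T)  (c : F.C) (p : Cone F P.D) (y y' : X)
    (h : y ∈ Exi F P.D (cd F P.D d P.s) c p) (h' : y' ∈ Exi F P.D (cd F P.D d P.s) c p),
    d y y' ≤ P.δ1 * (P.s * 2 ^ P.D)

def S.exit_smul : Prop :=
  ∀ {G X : Type} [Group G] [MulAction G X] {d : X → X → ℕ} {P : Par} {F : Fam G X} {T M : ℕ}   (hG : P.St G d M) (hF : FamOK P d F T) (hT : P.TT2 ≤ T)  (g : G) (c : F.C) (p : Cone F P.D) (y : X)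
    (h : y ∈ Exi F P.D (cd F P.D d P.s) c p),
    g • y ∈ Exi F P.D (cd F P.D d P.s) (g • c) (g • p)

def S.ang_smul : Prop :=
  ∀ {G X : Type} [Group G] [MulAction G X] {d : X → X → ℕ} {P : Par} {F : Fam G X} {T M : ℕ}   (hG : P.St G d M) (hF : FamOK P d F T) (hT : P.TT2 ≤ T)  (g : G) (c : F.C) (p q : Cone F P.D) (t : ℕ)
    (h : Ang F P.D d (cd F P.D d P.s) c p q t),
    Ang F P.D d (cd F P.D d P.s) (g • c) (g • p) (g • q) t

/-- (A2) -/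
def S.ang_tri : Prop :=
  ∀ {G X : Type} [Group G] [MulAction G X] {d : X → X → ℕ} {P : Par} {F : Fam G X} {T M : ℕ}   (hG : P.St G d M) (hF : FamOK P d F T) (hT : P.TT2 ≤ T)  (c : F.C) (p q r : Cone F P.D) (t t1 t2 : ℕ) (h : q ≠ ap F P.D c)
    (h1 : Ang F P.D d (cd F P.D d P.s) c p r t) (ht : t1 + t2 ≤ t + 1),
    Ang F P.D d (cd F P.D d P.s) c p q t1 ∨ Ang F P.D d (cd F P.D d P.s) c q r t2

def S.exit_thru : Prop :=
  ∀ {G X : Type} [Group G] [MulAction G X] {d : X → X → ℕ} {P : Par} {F : Fam G X} {T M : ℕ}   (hG : P.St G d M) (hF : FamOK P d F T) (hT : P.TT2 ≤ T)  (c c' : F.C) (p : Cone F P.D) (hc : c' ≠ c)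
    (h : Thru (cd F P.D d P.s) (ap F P.D c') p (ap F P.D c)),
    Exi F P.D (cd F P.D d P.s) c p ⊆ Exi F P.D (cd F P.D d P.s) c (ap F P.D c')

def S.exit_btw : Prop :=
  ∀ {G X : Type} [Group G] [MulAction G X] {d : X → X → ℕ} {P : Par} {F : Fam G X} {T M : ℕ}   (hG : P.St G d M) (hF : FamOK P d F T) (hT : P.TT2 ≤ T)  (c c' : F.C) (p : Cone F P.D) (hc : c' ≠ c)
    (h : Btw (cd F P.D d P.s) p (ap F P.D c') (ap F P.D c) 0),
    Exi F P.D (cd F P.D d P.s) c (ap F P.D c') ⊆ Exi F P.D (cd F P.D d P.s) c p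

/-- (P) -/
def S.ang_thru : Prop :=
  ∀ {G X : Type} [Group G] [MulAction G X] {d : X → X → ℕ} {P : Par} {F : Fam G X} {T M : ℕ}   (hG : P.St G d M) (hF : FamOK P d F T) (hT : P.TT2 ≤ T)  (c : F.C) (p q : Cone F P.D) (t : ℕ) (ht : P.θ < t)
    (h : Ang F P.D d (cd F P.D d P.s) c p q t),
    Thru (cd F P.D d P.s) (ap F P.D c) p q

/-- the windmill -/
def S.windmill : Prop :=
  ∀ {G X : Type} [Group G] [MulAction G X] {d : X → X → ℕ} {P : Par} {F : Fam G X} {T M : ℕ}   (hG : P.St G d M) (hF : FamOK P d F T) (hT : P.TT2 ≤ T)  (p : Cone F P.D) (hp : NA p) (k : G) (hk : k ∈ Ker F),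
    Peel F P.D d (cd F P.D d P.s) (T - 6 * P.θ) p k

def S.ker_normal : Prop :=
  ∀ {G X : Type} [Group G] [MulAction G X] {d : X → X → ℕ} {P : Par} {F : Fam G X} {T M : ℕ}   (hG : P.St G d M) (hF : FamOK P d F T) (hT : P.TT2 ≤ T),
    (Ker F).Normal

/-- (PL) lifting of polygons with at most 20 sides -/
def S.poly_lift : Prop :=
  ∀ {G X : Type} [Group G] [MulAction G X] {d : X → X → ℕ} {P : Par} {F : Fam G X} {T M : ℕ}   (hG : P.St G d M) (hF : FamOK P d F T) (hT : P.TT2 ≤ T)  (m : ℕ) (hm : m ≤ 20) (p : ℕ → Cone F P.D) (k : G) (hk : k ∈ Ker F)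
    (h0 : NA (p 0)) (h1 : p m = k • p 0),
    ∃ p' : ℕ → Cone F P.D, p' 0 = p 0 ∧ p' m = p 0 ∧
      (∀ i, i ≤ m → ∃ κ ∈ Ker F, p' i = κ • p i) ∧
      ∀ i, i < m → cd F P.D d P.s (p' i) (p' (i + 1)) ≤ cd F P.D d P.s (p i) (p (i + 1))

/-- (PL') the same with an arbitrary starting vertex -/
def S.poly_lift' : Prop :=
  ∀ {G X : Type} [Group G] [MulAction G X] {d : X → X → ℕ} {P : Par} {F : Fam G X} {T M : ℕ}   (hG : P.St G d M) (hF : FamOK P d F T) (hT : P.TT2 ≤ T)  (m : ℕ) (hm : m ≤ 10) (p : ℕ → Cone F P.D) (k : G) (hk : k ∈ Ker F)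
    (h1 : p m = k • p 0),
    ∃ p' : ℕ → Cone F P.D, p' 0 = p 0 ∧ p' m = p 0 ∧
      (∀ i, i ≤ m → ∃ κ ∈ Ker F, p' i = κ • p i) ∧
      ∀ i, i < m → cd F P.D d P.s (p' i) (p' (i + 1)) ≤ cd F P.D d P.s (p i) (p (i + 1))

/-- (U1) -/
def S.ker_far : Prop :=
  ∀ {G X : Type} [Group G] [MulAction G X] {d : X → X → ℕ} {P : Par} {F : Fam G X} {T M : ℕ}   (hG : P.St G d M) (hF : FamOK P d F T) (hT : P.TT2 ≤ T)  (p : Cone F P.D) (hp : NA p) (k : G) (hk : k ∈ Ker F) (h1 : k ≠ 1),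
    ∃ c, 2 * cd F P.D d P.s p (ap F P.D c) ≤ cd F P.D d P.s p (k • p)

/-- (U3) -/
def S.loc_iso : Prop :=
  ∀ {G X : Type} [Group G] [MulAction G X] {d : X → X → ℕ} {P : Par} {F : Fam G X} {T M : ℕ}   (hG : P.St G d M) (hF : FamOK P d F T) (hT : P.TT2 ≤ T)  (p q : Cone F P.D) (hp : NA p) (hq : NA q)
    (h : ∀ c, cd F P.D d P.s p q < cd F P.D d P.s p (ap F P.D c)) (k : G) (hk : k ∈ Ker F),
    cd F P.D d P.s p q ≤ cd F P.D d P.s p (k • q)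

/-- (U5) -/
def S.small_turns : Prop :=
  ∀ {G X : Type} [Group G] [MulAction G X] {d : X → X → ℕ} {P : Par} {F : Fam G X} {T M : ℕ}   (hG : P.St G d M) (hF : FamOK P d F T) (hT : P.TT2 ≤ T)  (p q : Cone F P.D) (hp : NA p) (hq : NA q)
    (h : ∀ c, ¬ Ang F P.D d (cd F P.D d P.s) c p q (T / 2)) (k : G) (hk : k ∈ Ker F),
    cd F P.D d P.s p q ≤ cd F P.D d P.s p (k • q)

/-- (U7) nontrivial elements of the kernel move every point of `X` a lot -/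
def S.ker_big : Prop :=
  ∀ {G X : Type} [Group G] [MulAction G X] {d : X → X → ℕ} {P : Par} {F : Fam G X} {T M : ℕ}   (hG : P.St G d M) (hF : FamOK P d F T) (hT : P.TT2 ≤ T)  (k : G) (hk : k ∈ Ker F) (h1 : k ≠ 1) (x : X),
    T ≤ d x (k • x) + 9 * P.θ

/-- (Near) -/
def S.near_unique : Prop :=
  ∀ {G X : Type} [Group G] [MulAction G X] {d : X → X → ℕ} {P : Par} {F : Fam G X} {T M : ℕ}   (hG : P.St G d M) (hF : FamOK P d F T) (hT : P.TT2 ≤ T)  (p : Cone F P.D) (hp : NA p) (c : F.C) (κ : G) (hκ : κ ∈ Ker F)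
    (h1 : cd F P.D d P.s p (ap F P.D c) ≤ 2 * P.D + 2)
    (h2 : cd F P.D d P.s p (ap F P.D (κ • c)) ≤ 2 * P.D + 2),
    κ • c = c

/-- `Ker ∩ Stab c = R c` -/
def S.ker_stab : Prop :=
  ∀ {G X : Type} [Group G] [MulAction G X] {d : X → X → ℕ} {P : Par} {F : Fam G X} {T M : ℕ}   (hG : P.St G d M) (hF : FamOK P d F T) (hT : P.TT2 ≤ T)  (c : F.C) (κ : G) (hκ : κ ∈ Ker F) (h : κ • c = c),
    κ ∈ F.R c

def S.qd_att : Prop :=
  ∀ {G X : Type} [Group G] [MulAction G X] {d : X → X → ℕ} {P : Par} {F : Fam G X} {T M : ℕ}   (hG : P.St G d M) (hF : FamOK P d F T) (hT : P.TT2 ≤ T)  (p q : Cone F P.D),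
    ∃ κ ∈ Ker F, cd F P.D d P.s p (κ • q) = qd (Ker F) (cd F P.D d P.s) p q

def S.qd_le : Prop :=
  ∀ {G X : Type} [Group G] [MulAction G X] {d : X → X → ℕ} {P : Par} {F : Fam G X} {T M : ℕ}   (hG : P.St G d M) (hF : FamOK P d F T) (hT : P.TT2 ≤ T)  (p q : Cone F P.D) (κ : G) (hκ : κ ∈ Ker F),
    qd (Ker F) (cd F P.D d P.s) p q ≤ cd F P.D d P.s p (κ • q)

def S.qd_geo : Prop :=
  ∀ {G X : Type} [Group G] [MulAction G X] {d : X → X → ℕ} {P : Par} {F : Fam G X} {T M : ℕ}   (hG : P.St G d M) (hF : FamOK P d F T) (hT : P.TT2 ≤ T),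
    Geo (qd (Ker F) (cd F P.D d P.s))

def S.qd_isom : Prop :=
  ∀ {G X : Type} [Group G] [MulAction G X] {d : X → X → ℕ} {P : Par} {F : Fam G X} {T M : ℕ}   (hG : P.St G d M) (hF : FamOK P d F T) (hT : P.TT2 ≤ T),
    Isom G (qd (Ker F) (cd F P.D d P.s))

def S.qd_zero : Prop :=
  ∀ {G X : Type} [Group G] [MulAction G X] {d : X → X → ℕ} {P : Par} {F : Fam G X} {T M : ℕ}   (hG : P.St G d M) (hF : FamOK P d F T) (hT : P.TT2 ≤ T)  (κ : G) (hκ : κ ∈ Ker F) (p : Cone F P.D),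
    qd (Ker F) (cd F P.D d P.s) p (κ • p) = 0

def S.qd_hyp : Prop :=
  ∀ {G X : Type} [Group G] [MulAction G X] {d : X → X → ℕ} {P : Par} {F : Fam G X} {T M : ℕ}   (hG : P.St G d M) (hF : FamOK P d F T) (hT : P.TT2 ≤ T),
    Hyp P.δ (qd (Ker F) (cd F P.D d P.s))

def S.qd_ap : Prop :=
  ∀ {G X : Type} [Group G] [MulAction G X] {d : X → X → ℕ} {P : Par} {F : Fam G X} {T M : ℕ}   (hG : P.St G d M) (hF : FamOK P d F T) (hT : P.TT2 ≤ T)  (c c' : F.C) (h : ∀ κ ∈ Ker F, κ • c ≠ c'),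
    2 * P.D + 2 ≤ qd (Ker F) (cd F P.D d P.s) (ap F P.D c) (ap F P.D c')

/-- if `u` moves the class of an apex by less than `2D+2` then it fixes it -/
def S.fixB_of_close : Prop :=
  ∀ {G X : Type} [Group G] [MulAction G X] {d : X → X → ℕ} {P : Par} {F : Fam G X} {T M : ℕ}   (hG : P.St G d M) (hF : FamOK P d F T) (hT : P.TT2 ≤ T)  (c : F.C) (u : G)
    (h : qd (Ker F) (cd F P.D d P.s) (ap F P.D c) (u • ap F P.D c) < 2 * P.D + 2),
    FixB F u c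

/-- (NL) narrow lifting -/
def S.narrow_lift : Prop :=
  ∀ {G X : Type} [Group G] [MulAction G X] {d : X → X → ℕ} {P : Par} {F : Fam G X} {T M : ℕ}   (hG : P.St G d M) (hF : FamOK P d F T) (hT : P.TT2 ≤ T)  (p q : Cone F P.D) (hp : NA p) (hq : NA q) (g : G) (ρ : ℕ) (hρ : 10 * ρ ≤ P.D)
    (h0 : cd F P.D d P.s p q = qd (Ker F) (cd F P.D d P.s) p q)
    (h1 : Mv (cd F P.D d P.s) g p ρ) (h2 : Mv (qd (Ker F) (cd F P.D d P.s)) g q ρ)
    (h3 : ∀ (c : F.C) (v : Cone F P.D), Btw (qd (Ker F) (cd F P.D d P.s)) p v q 0 →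
      P.D ≤ 2 * qd (Ker F) (cd F P.D d P.s) v (ap F P.D c)),
    Mv (cd F P.D d P.s) g q ρ

/-- (Rot) -/
def S.rot : Prop :=
  ∀ {G X : Type} [Group G] [MulAction G X] {d : X → X → ℕ} {P : Par} {F : Fam G X} {T M : ℕ}   (hG : P.St G d M) (hF : FamOK P d F T) (hT : P.TT2 ≤ T)  (c : F.C) (g : G) (hg : FixB F g c) (hg1 : g ∉ Ker F) (p : Cone F P.D) (ρ : ℕ)
    (hρ : 1000 * Ex (100 * (ρ + P.δ)) ≤ P.A0)
    (h : Mv (qd (Ker F) (cd F P.D d P.s)) g p ρ),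
    qd (Ker F) (cd F P.D d P.s) p (ap F P.D c) ≤ P.D + 100 * Ex (100 * (ρ + P.δ))

/-- (TorLift) the small lift of a torsion element is torsion or fixes a nearby apex -/
def S.tor_lift : Prop :=
  ∀ {G X : Type} [Group G] [MulAction G X] {d : X → X → ℕ} {P : Par} {F : Fam G X} {T M : ℕ}   (hG : P.St G d M) (hF : FamOK P d F T) (hT : P.TT2 ≤ T)  (p : Cone F P.D) (hp : NA p) (x : G) (ρ : ℕ)
    (hρ : 1000 * Ex (100 * (ρ + P.δ)) ≤ P.A0)
    (h : Mv (cd F P.D d P.s) x p ρ) (hx : x ^ P.n ∈ Ker F)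
    (hc : ∀ c, P.D ≤ 2 * qd (Ker F) (cd F P.D d P.s) p (ap F P.D c)),
    x ^ P.n = 1 ∨ ∃ c, x • c = c ∧ x ∉ F.R c ∧
      cd F P.D d P.s p (ap F P.D c) ≤ P.D + 100 * Ex (100 * (ρ + P.δ))

/-- (OldSmall) -/
def S.old_small : Prop :=
  ∀ {G X : Type} [Group G] [MulAction G X] {d : X → X → ℕ} {P : Par} {F : Fam G X} {T M : ℕ}   (hG : P.St G d M) (hF : FamOK P d F T) (hT : P.TT2 ≤ T)  (u : G) (hu : u ∉ Ker F) (hun : u ^ P.n ∈ Ker F) (hc : ∀ c, ¬ FixB F u c)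
    (p q : Cone F P.D) (ρ : ℕ) (hρ : 1000 * Ex (100 * (ρ + P.δ)) ≤ P.A0)
    (h1 : Mv (qd (Ker F) (cd F P.D d P.s)) u p ρ) (h2 : Mv (qd (Ker F) (cd F P.D d P.s)) u q ρ),
    qd (Ker F) (cd F P.D d P.s) p q ≤ 100 * Ex (100 * (ρ + P.δ))

/-- T2 for the quotient, when all short elements of infinite order fix an element of the family -/
def S.qT2a : Prop :=
  ∀ {G X : Type} [Group G] [MulAction G X] {d : X → X → ℕ} {P : Par} {F : Fam G X} {T M : ℕ}   (hG : P.St G d M) (hF : FamOK P d F T) (hT : P.TT2 ≤ T)  (hsh : ∀ h : G, P.Short d h → ∃ c : F.C, h • c = c) (g : G),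
    g ^ P.n ∈ Ker F ∨
      ∀ x : Cone F P.D, 20 * P.δ ≤ qd (Ker F) (cd F P.D d P.s) x (g ^ P.M1 • x)

/-- T2 for the quotient in general, when the input satisfies T2 with exponent `M1` -/
def S.qT2b : Prop :=
  ∀ {G X : Type} [Group G] [MulAction G X] {d : X → X → ℕ} {P : Par} {F : Fam G X} {T M : ℕ}   (hG : P.St G d M) (hF : FamOK P d F T) (hT : P.TT2 ≤ T)  (hM : M = P.M1) (g : G),
    g ^ P.n ∈ Ker F ∨
      ∀ x : Cone F P.D, 20 * P.δ ≤ qd (Ker F) (cd F P.D d P.s) x (g ^ P.M • x)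

def S.qT3a : Prop :=
  ∀ {G X : Type} [Group G] [MulAction G X] {d : X → X → ℕ} {P : Par} {F : Fam G X} {T M : ℕ}   (hG : P.St G d M) (hF : FamOK P d F T) (hT : P.TT2 ≤ T)  (g : G) (x y : Cone F P.D) (hg : g ∉ Ker F)
    (h : P.A ≤ qd (Ker F) (cd F P.D d P.s) x y)
    (h1 : Mv (qd (Ker F) (cd F P.D d P.s)) g x P.Λ)
    (h2 : Mv (qd (Ker F) (cd F P.D d P.s)) g y P.Λ),
    g ^ P.n ∉ Ker F

def S.qT3b : Prop :=
  ∀ {G X : Type} [Group G] [MulAction G X] {d : X → X → ℕ} {P : Par} {F : Fam G X} {T M : ℕ}   (hG : P.St G d M) (hF : FamOK P d F T) (hT : P.TT2 ≤ T)  (g : G) (x : Cone F P.D) (hg : g ^ P.n ∉ Ker F)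
    (h1 : Mv (qd (Ker F) (cd F P.D d P.s)) g x P.Λ),
    Thick (qd (Ker F) (cd F P.D d P.s)) g x P.A0

def S.qT3c : Prop :=
  ∀ {G X : Type} [Group G] [MulAction G X] {d : X → X → ℕ} {P : Par} {F : Fam G X} {T M : ℕ}   (hG : P.St G d M) (hF : FamOK P d F T) (hT : P.TT2 ≤ T)  (g h : G) (x y : Cone F P.D) (hxy : P.A ≤ qd (Ker F) (cd F P.D d P.s) x y)
    (h1 : Mv (qd (Ker F) (cd F P.D d P.s)) g x P.Λ) (h2 : Mv (qd (Ker F) (cd F P.D d P.s)) g y P.Λ)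
    (h3 : Mv (qd (Ker F) (cd F P.D d P.s)) h x P.Λ) (h4 : Mv (qd (Ker F) (cd F P.D d P.s)) h y P.Λ),
    g * h * g⁻¹ * h⁻¹ ∈ Ker F

/-- (A1) large angles in the quotient -/
def S.angQ_thru : Prop :=
  ∀ {G X : Type} [Group G] [MulAction G X] {d : X → X → ℕ} {P : Par} {F : Fam G X} {T M : ℕ}   (hG : P.St G d M) (hF : FamOK P d F T) (hT : P.TT2 ≤ T)  (c : F.C) (p q : Cone F P.D) (t : ℕ) (ht : P.θ < t)
    (h : AngQ F P.D d (qd (Ker F) (cd F P.D d P.s)) c p q t),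
    Thru (qd (Ker F) (cd F P.D d P.s)) (ap F P.D c) p q

def S.exitQ_ne : Prop :=
  ∀ {G X : Type} [Group G] [MulAction G X] {d : X → X → ℕ} {P : Par} {F : Fam G X} {T M : ℕ}   (hG : P.St G d M) (hF : FamOK P d F T) (hT : P.TT2 ≤ T)  (c : F.C) (p : Cone F P.D) (h : ∀ κ ∈ Ker F, p ≠ κ • ap F P.D c),
    (Exi F P.D (qd (Ker F) (cd F P.D d P.s)) c p).Nonempty

/-- two exits of the same point in the quotient are close modulo `R c` -/
def S.exitQ_small : Prop :=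
  ∀ {G X : Type} [Group G] [MulAction G X] {d : X → X → ℕ} {P : Par} {F : Fam G X} {T M : ℕ}   (hG : P.St G d M) (hF : FamOK P d F T) (hT : P.TT2 ≤ T)  (c : F.C) (p : Cone F P.D) (y y' : X)
    (h : y ∈ Exi F P.D (qd (Ker F) (cd F P.D d P.s)) c p)
    (h' : y' ∈ Exi F P.D (qd (Ker F) (cd F P.D d P.s)) c p),
    ∃ r ∈ F.R c, d y (r • y') ≤ 2 * P.θ

def S.exitQ_smul : Prop :=
  ∀ {G X : Type} [Group G] [MulAction G X] {d : X → X → ℕ} {P : Par} {F : Fam G X} {T M : ℕ}   (hG : P.St G d M) (hF : FamOK P d F T) (hT : P.TT2 ≤ T)  (g : G) (c : F.C) (p : Cone F P.D) (y : X)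
    (h : y ∈ Exi F P.D (qd (Ker F) (cd F P.D d P.s)) c p),
    g • y ∈ Exi F P.D (qd (Ker F) (cd F P.D d P.s)) (g • c) (g • p)

def S.exitQ_ker : Prop :=
  ∀ {G X : Type} [Group G] [MulAction G X] {d : X → X → ℕ} {P : Par} {F : Fam G X} {T M : ℕ}   (hG : P.St G d M) (hF : FamOK P d F T) (hT : P.TT2 ≤ T)  (κ : G) (hκ : κ ∈ Ker F) (c : F.C) (p : Cone F P.D) (y : X)
    (h : y ∈ Exi F P.D (qd (Ker F) (cd F P.D d P.s)) c p),
    y ∈ Exi F P.D (qd (Ker F) (cd F P.D d P.s)) c (κ • p)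

def S.exitQ_btw : Prop :=
  ∀ {G X : Type} [Group G] [MulAction G X] {d : X → X → ℕ} {P : Par} {F : Fam G X} {T M : ℕ}   (hG : P.St G d M) (hF : FamOK P d F T) (hT : P.TT2 ≤ T)  (c c' : F.C) (p : Cone F P.D) (hc : ∀ κ ∈ Ker F, κ • c' ≠ c)
    (h : Btw (qd (Ker F) (cd F P.D d P.s)) p (ap F P.D c') (ap F P.D c) 0),
    Exi F P.D (qd (Ker F) (cd F P.D d P.s)) c (ap F P.D c') ⊆
      Exi F P.D (qd (Ker F) (cd F P.D d P.s)) c p

/-- triangle inequality for the angles in the quotient -/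
def S.angQ_tri : Prop :=
  ∀ {G X : Type} [Group G] [MulAction G X] {d : X → X → ℕ} {P : Par} {F : Fam G X} {T M : ℕ}   (hG : P.St G d M) (hF : FamOK P d F T) (hT : P.TT2 ≤ T)  (c : F.C) (p q r : Cone F P.D) (t t1 t2 : ℕ)
    (h : ∀ κ ∈ Ker F, q ≠ κ • ap F P.D c)
    (h1 : AngQ F P.D d (qd (Ker F) (cd F P.D d P.s)) c p r t) (ht : t1 + t2 ≤ t + 1),
    AngQ F P.D d (qd (Ker F) (cd F P.D d P.s)) c p q t1 ∨
      AngQ F P.D d (qd (Ker F) (cd F P.D d P.s)) c q r t2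

def S.angQ_smul : Prop :=
  ∀ {G X : Type} [Group G] [MulAction G X] {d : X → X → ℕ} {P : Par} {F : Fam G X} {T M : ℕ}   (hG : P.St G d M) (hF : FamOK P d F T) (hT : P.TT2 ≤ T)  (g : G) (c : F.C) (p q : Cone F P.D) (t : ℕ)
    (h : AngQ F P.D d (qd (Ker F) (cd F P.D d P.s)) c p q t),
    AngQ F P.D d (qd (Ker F) (cd F P.D d P.s)) (g • c) (g • p) (g • q) t

def S.exitQ_thru : Prop :=
  ∀ {G X : Type} [Group G] [MulAction G X] {d : X → X → ℕ} {P : Par} {F : Fam G X} {T M : ℕ}   (hG : P.St G d M) (hF : FamOK P d F T) (hT : P.TT2 ≤ T)  (c c' : F.C) (p : Cone F P.D) (hc : ∀ κ ∈ Ker F, κ • c' ≠ c)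
    (h : Thru (qd (Ker F) (cd F P.D d P.s)) (ap F P.D c') p (ap F P.D c)),
    Exi F P.D (qd (Ker F) (cd F P.D d P.s)) c p ⊆
      Exi F P.D (qd (Ker F) (cd F P.D d P.s)) c (ap F P.D c')

end Mon

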