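import Pool.Agent.Work.MP_6f5fa7_al.Mon.StTool
import Pool.Agent.Work.MP_6f5fa7_al.Mon.StCone
import Pool.Agent.Work.MP_6f5fa7_al.Mon.StHyp
import Pool.Agent.Work.MP_6f5fa7_al.Mon.StAct

/-! Mon: item A10 (`rot`). -/
set_option autoImplicit false

namespace Mon

/-- right invariance of the quotient pseudo-distance -/
theorem A10_qd_right {G V : Type} [Group G] [MulAction G V] (K : Subgroup G) (e : V → V → ℕ)
    {κ : G} (hκ : κ ∈ K) (p q : V) : qd K e p (κ • q) = qd K e p q := by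
  unfold qd
  congr 1
  ext m
  constructor
  · rintro ⟨k, hk, h⟩
    exact ⟨k * κ, K.mul_mem hk hκ, by rw [mul_smul]; exact h⟩
  · rintro ⟨k, hk, h⟩
    refine ⟨k * κ⁻¹, K.mul_mem hk (K.inv_mem hκ), ?_⟩
    rw [mul_smul, inv_smul_smul]
    exact h

theorem A10_ex_mono {a b : ℕ} (h : a ≤ b) : Ex a ≤ Ex b := by
  unfold Ex
  exact Nat.mul_le_mul h (Nat.pow_le_pow_right (by norm_num) h)

theorem A10_le_ex (a : ℕ) : a ≤ Ex a := by
  unfold Ex
  exact Nat.le_mul_of_pos_right a (by positivity)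

theorem A10_lev_le {G X : Type} [Group G] [MulAction G X] (F : Fam G X) (D : ℕ) (c : F.C)
    (v : Cone F D) : lev F D c v ≤ D + 1 := by
  obtain ⟨v, hv⟩ := v
  unfold lev levr
  cases v with
  | base x => simp
  | cone c' y k =>
    have h : k ≤ D := hv.2.2
    simp only
    split_ifs <;> omega
  | apex c' =>
    simp only
    split_ifs <;> omega

theorem rot (hqg : S.qd_geo) (hqi : S.qd_isom) (hqh : S.qd_hyp) (hmm : S.middle_move)
    (hqa : S.qd_ap) (hatt : S.qd_att) (hqz : S.qd_zero) (hnu : S.near_unique)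
    (hcg : S.cone_geo) (hci : S.cone_isom) (hch : S.cone_hyp) (hfel : S.fellow)
    (hcf : S.cone_fix) (heq : S.eq_vt_of_lev) (hva : S.cd_vt_ap)
    (htb : S.to_base) (hsb : S.smul_bs) (hsa : S.smul_ap) (hbd : S.bs_dist) (hcb : S.cd_bs)
    (hkn : S.ker_normal) : S.rot := by
  intro G X _ _ d P F T M hG hF hT c g0 hg0 hg01 p ρ hρ h0
  obtain ⟨κ0, hκ0, hfix0⟩ := hg0
  by_contra hcon
  -- parameters
  obtain ⟨E, hE⟩ : ∃ E, E = Ex (100 * (ρ + P.δ)) := ⟨_, rfl⟩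
  rw [← hE] at hcon hρ
  have hE1 : 100 * (ρ + P.δ) ≤ E := by rw [hE]; exact A10_le_ex _
  have hδ1 := P.h1
  have hδ := P.hδ
  have hDp := P.hD
  have hAp := P.hA
  have hsp := P.hs
  have hEx6 : Ex (6 * P.δ1) ≤ E := by rw [hE]; exact A10_ex_mono (by omega)
  have hEx6' : 6 * P.δ1 ≤ Ex (6 * P.δ1) := A10_le_ex _
  have hs1 : 1 ≤ P.s := by omega
  have hD1 : 1 ≤ P.D := by omega
  -- metric facts
  have Qg := hqg hG hF hT
  have Qi := hqi hG hF hT
  have Qh := hqh hG hF hT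
  have Cg : Geo (cd F P.D d P.s) := hcg hG.geo hG.isom hs1 hD1
  have Ci : Isom G (cd F P.D d P.s) := hci hG.geo hG.isom hs1 hD1
  have Ch := hch hG hF
  have hN : (Ker F).Normal := hkn hG hF hT
  -- replace `g0` by an element fixing `c`
  obtain ⟨g, hg⟩ : ∃ g, g = κ0 * g0 := ⟨_, rfl⟩
  rw [← hg] at hfix0
  have hgK : g ∉ Ker F := by
    intro hh
    apply hg01
    have : κ0⁻¹ * g ∈ Ker F := (Ker F).mul_mem ((Ker F).inv_mem hκ0) hh
    rw [hg, inv_mul_cancel_left] at this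
    exact this
  have hgp : Mv (qd (Ker F) (cd F P.D d P.s)) g p ρ := by
    unfold Mv
    rw [hg, mul_smul, A10_qd_right _ _ hκ0]
    exact h0
  have hga : g • ap F P.D c = ap F P.D c := by
    rw [hsa hG.geo hG.isom hs1 hD1, hfix0]
  have hgap : Mv (qd (Ker F) (cd F P.D d P.s)) g (ap F P.D c) ρ := by
    unfold Mv
    rw [hga, Qg.self]
    exact Nat.zero_le _
  -- the point `x1`
  have hfar : P.D + 1 + 100 * E ≤ qd (Ker F) (cd F P.D d P.s) (ap F P.D c) p := by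
    rw [Qg.symm]; omega
  obtain ⟨x1, hx1, hx1'⟩ := Qg.geo (ap F P.D c) p (P.D + 1 + 100 * E) hfar
  have hx1b : Btw (qd (Ker F) (cd F P.D d P.s)) (ap F P.D c) x1 p 0 := by
    unfold Btw; rw [hx1, hx1']; omega
  have hx1m := hmm Qg Qi Qh g (ap F P.D c) p x1 ρ hgap hgp hx1b
  have hx1NA : NA x1 := by
    intro b hb
    rw [hb] at hx1
    by_cases hκ : ∀ κ ∈ Ker F, κ • c ≠ b
    · have := hqa hG hF hT c b hκ
      omega
    · push Not at hκ
      obtain ⟨κ, hκ, hκc⟩ := hκ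
      have := hqz hG hF hT κ hκ (ap F P.D c)
      rw [hsa hG.geo hG.isom hs1 hD1, hκc] at this
      omega
  -- the lift `x2`
  obtain ⟨κ1, hκ1, hκ1'⟩ := hatt hG hF hT (ap F P.D c) x1
  rw [hx1] at hκ1'
  obtain ⟨x2, hx2⟩ : ∃ x2, x2 = κ1 • x1 := ⟨_, rfl⟩
  rw [← hx2] at hκ1'
  have hx2NA : NA x2 := by
    intro b hb
    apply hx1NA (κ1⁻¹ • b)
    rw [← hsa hG.geo hG.isom hs1 hD1, ← hb, hx2, inv_smul_smul]
  have hx2m : qd (Ker F) (cd F P.D d P.s) x2 (g • x2) ≤ 3 * ρ + 6 * P.δ := by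
    have e1 : g • x2 = (g * κ1 * g⁻¹) • (g • x1) := by
      rw [hx2, ← mul_smul, ← mul_smul]; congr 1; group
    rw [e1, A10_qd_right _ _ (hN.conj_mem κ1 hκ1 g), Qg.symm, hx2, A10_qd_right _ _ hκ1, Qg.symm]
    exact hx1m
  obtain ⟨κ2, hκ2, hκ2'⟩ := hatt hG hF hT x2 (g • x2)
  obtain ⟨g2, hg2⟩ : ∃ g2, g2 = κ2 * g := ⟨_, rfl⟩
  have hg2m : cd F P.D d P.s x2 (g2 • x2) ≤ 3 * ρ + 6 * P.δ := by
    rw [hg2, mul_smul, hκ2']
    exact hx2m
  have hg2K : g2 ∉ Ker F := by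
    intro hh
    apply hgK
    have : κ2⁻¹ * g2 ∈ Ker F := (Ker F).mul_mem ((Ker F).inv_mem hκ2) hh
    rw [hg2, inv_mul_cancel_left] at this
    exact this
  have hg2a : g2 • ap F P.D c = ap F P.D (κ2 • c) := by
    rw [hg2, mul_smul, hga, hsa hG.geo hG.isom hs1 hD1]
  have hκ2c : κ2 • c = c := by
    refine hnu hG hF hT x2 hx2NA c κ2 hκ2 ?_ ?_
    · rw [Cg.symm, hκ1']; omega
    · rw [← hg2a]
      have h1 := Cg.tri x2 (g2 • x2) (g2 • ap F P.D c)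
      have h2 := Ci g2 x2 (ap F P.D c)
      rw [Cg.symm x2 (ap F P.D c), hκ1'] at h2
      omega
  have hg2c : g2 • c = c := by rw [hg2, mul_smul, hfix0, hκ2c]
  have hg2a' : g2 • ap F P.D c = ap F P.D c := by rw [hg2a, hκ2c]
  -- the point `v`
  obtain ⟨v, hv, hv'⟩ := Cg.geo (ap F P.D c) x2 (P.D + 1 + 50 * E) (by omega)
  have hvb : Btw (cd F P.D d P.s) (ap F P.D c) v x2 0 := by
    unfold Btw; rw [hv, hv']; omega
  have hgv : cd F P.D d P.s (ap F P.D c) (g2 • v) = cd F P.D d P.s (ap F P.D c) v := by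
    have h1 := Ci g2 (ap F P.D c) v
    rw [hg2a'] at h1
    exact h1
  have hgx : cd F P.D d P.s (ap F P.D c) (g2 • x2) = cd F P.D d P.s (ap F P.D c) x2 := by
    have h1 := Ci g2 (ap F P.D c) x2
    rw [hg2a'] at h1
    exact h1
  have hvb2 : Btw (cd F P.D d P.s) (ap F P.D c) (g2 • v) (g2 • x2) 0 := by
    unfold Btw at hvb ⊢
    rw [hgv, hgx, Ci]
    exact hvb
  have hvm : cd F P.D d P.s v (g2 • v) ≤ 2 * P.δ1 := by
    refine hfel Cg Ch hvb hvb2 hgv.symm ?_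
    rw [hgx, hκ1', hv]
    omega
  -- levels
  have hlev : ∀ b, lev F P.D b v ≤ 2 * P.δ1 := by
    intro b
    by_contra hb
    have hgb : g2 • b = b :=
      hcf hG.geo hG.isom hs1 hD1 b v g2 (2 * P.δ1) (by omega) hvm
    by_cases hbc : b = c
    · subst hbc
      obtain ⟨y, hy, _⟩ := heq hG.geo hG.isom hs1 hD1 b v (by omega)
      have hle := A10_lev_le F P.D b v
      have h1 := hva hG.geo hG.isom hs1 hD1 b y (lev F P.D b v) hle
      rw [← hy, Cg.symm, hv] at h1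
      omega
    · have h1 := hF.inter c b g2 (fun hh => hbc hh.symm) hg2c hgb
      exact hg2K (Subgroup.subset_closure ⟨c, h1⟩)
  have hvu := htb hG.geo hG.isom hs1 hD1 v (2 * P.δ1) (by omega) hlev
  obtain ⟨u, hu⟩ : ∃ u, u = sh F P.D v := ⟨_, rfl⟩
  rw [← hu] at hvu
  have hbu : cd F P.D d P.s (bs F P.D u) (bs F P.D (g2 • u)) ≤ 6 * P.δ1 := by
    rw [← hsb hG.geo hG.isom hs1 hD1]
    have h1 := Cg.tri (bs F P.D u) v (g2 • bs F P.D u)
    have h2 := Cg.tri v (g2 • v) (g2 • bs F P.D u)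
    have h3 := Ci g2 v (bs F P.D u)
    have h4 := Cg.symm (bs F P.D u) v
    omega
  have hdu := hbd hG.geo hG.isom hs1 hD1 u (g2 • u) (6 * P.δ1) hbu (by omega)
  obtain ⟨y, hyY, hy⟩ := hF.near c g2 u (P.s * Ex (6 * P.δ1)) hg2c
    (fun hh => hg2K (Subgroup.subset_closure ⟨c, hh⟩)) hdu
  have h1 := hcb (F := F) hG.geo hG.isom hs1 hD1 u y
  have h2 : d u y / P.s ≤ 6 * Ex (6 * P.δ1) + 1 := by
    apply Nat.div_le_of_le_mul
    have : P.s * (6 * Ex (6 * P.δ1) + 1) = 6 * (P.s * Ex (6 * P.δ1)) + P.s := by ring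
    omega
  have h3 := hva hG.geo hG.isom hs1 hD1 c ⟨y, hyY⟩ 0 (by omega)
  have h4 : vt F P.D c ⟨y, hyY⟩ 0 = bs F P.D y := by
    unfold vt
    rw [dif_pos rfl]
  rw [h4] at h3
  have h5 := Cg.tri (ap F P.D c) (bs F P.D y) v
  have h6 := Cg.tri (bs F P.D y) (bs F P.D u) v
  have h7 := Cg.symm (ap F P.D c) (bs F P.D y)
  have h8 := Cg.symm (bs F P.D y) (bs F P.D u)
  have h9 := Cg.symm (bs F P.D u) v
  omega

end Mon
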