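import Pool.Agent.Work.MP_6f5fa7_al.Mon.StTool
import Pool.Agent.Work.MP_6f5fa7_al.Mon.StCone
import Pool.Agent.Work.MP_6f5fa7_al.Mon.StAct

/-! Mon: item A11, lifting of torsion elements (helper76). -/
set_option autoImplicit false

namespace Mon

private theorem A11_le_Ex (r : ℕ) : r ≤ Ex r := by
  unfold Ex
  exact Nat.le_mul_of_pos_right r (Nat.pos_of_ne_zero (by positivity))

theorem tor_lift (h_qct : S.quasi_centre_tors) (h_mid : S.middle_move) (h_cgeo : S.cone_geo)
    (h_cisom : S.cone_isom) (h_smap : S.smul_ap) (h_norm : S.ker_normal) (h_far : S.ker_far)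
    (h_near : S.near_unique) (h_att : S.qd_att) (h_le : S.qd_le) (h_qgeo : S.qd_geo)
    (h_qisom : S.qd_isom) (h_zero : S.qd_zero) (h_qhyp : S.qd_hyp) (h_fixB : S.fixB_of_close)
    (h_narrow : S.narrow_lift) (h_rot : S.rot) : S.tor_lift := by
  intro G X _ _ d P F T M hG hF hT p hp x ρ hρ h hx hc
  classical
  have e1 := A11_le_Ex (100 * (ρ + P.δ))
  have e2 := P.hD
  have e3 := P.hA
  have e4 := P.hs
  have e5 := P.h1
  have e6 := P.hδ
  have hs1 : 1 ≤ P.s := by omega
  have hD1 : 1 ≤ P.D := by omega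
  have cg : Geo (cd F P.D d P.s) := h_cgeo hG.geo hG.isom hs1 hD1
  have ci : Isom G (cd F P.D d P.s) := h_cisom hG.geo hG.isom hs1 hD1
  have qg : Geo (qd (Ker F) (cd F P.D d P.s)) := h_qgeo hG hF hT
  have qi : Isom G (qd (Ker F) (cd F P.D d P.s)) := h_qisom hG hF hT
  have qh : Hyp P.δ (qd (Ker F) (cd F P.D d P.s)) := h_qhyp hG hF hT
  have qle : ∀ a b : Cone F P.D, qd (Ker F) (cd F P.D d P.s) a b ≤ cd F P.D d P.s a b := by
    intro a b
    have := h_le hG hF hT a b 1 (Ker F).one_mem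
    rwa [one_smul] at this
  have nK : (Ker F).Normal := h_norm hG hF hT
  have sa : ∀ (g : G) (c : F.C), g • ap F P.D c = ap F P.D (g • c) :=
    fun g c => h_smap hG.geo hG.isom hs1 hD1 g c
  -- `NA` is invariant
  have na : ∀ (g : G) (v : Cone F P.D), NA v → NA (g • v) := by
    intro g v hv c hcv
    apply hv (g⁻¹ • c)
    rw [← sa, ← hcv, inv_smul_smul]
  -- elements of the kernel moving a point far from all the apices by little are trivial
  have small : ∀ (z : Cone F P.D) (g : G), NA z →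
      (∀ c, P.D ≤ 2 * qd (Ker F) (cd F P.D d P.s) z (ap F P.D c)) →
      ∀ κ ∈ Ker F, cd F P.D d P.s (g • z) (κ • (g • z)) < P.D → κ = 1 := by
    intro z g hz hzc κ hκ hd
    by_contra hne
    obtain ⟨c, hcc⟩ := h_far hG hF hT (g • z) (na g z hz) κ hκ hne
    have h1 := hzc (g⁻¹ • c)
    have h2 := qle z (ap F P.D (g⁻¹ • c))
    have h3 : cd F P.D d P.s z (ap F P.D (g⁻¹ • c)) = cd F P.D d P.s (g • z) (ap F P.D c) := by
      rw [← ci g z, sa, smul_inv_smul]
    omega
  by_cases hxK : x ∈ Ker F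
  · left
    have h1 : x = 1 := by
      apply small p 1 hp hc x hxK
      rw [one_smul]
      have : cd F P.D d P.s p (x • p) ≤ ρ := h
      omega
    rw [h1, one_pow]
  -- a quasi-centre in the quotient
  obtain ⟨z0, hz0⟩ := h_qct qg qi qh x p P.n P.hprime.one_lt.le (fun y => h_zero hG hF hT _ hx y)
  obtain ⟨κ, hκ, hκz⟩ := h_att hG hF hT p z0
  have qz : ∀ a b : Cone F P.D, ∀ k ∈ Ker F,
      qd (Ker F) (cd F P.D d P.s) a (k • b) = qd (Ker F) (cd F P.D d P.s) a b := by
    intro a b k hk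
    have h1 := qg.tri a b (k • b)
    have h2 := qg.tri a (k • b) b
    have h3 := h_zero hG hF hT k hk b
    have h4 := qg.symm b (k • b)
    omega
  obtain ⟨z, hzz⟩ : ∃ z, z = κ • z0 := ⟨_, rfl⟩
  have hz : ∀ i : ℤ, qd (Ker F) (cd F P.D d P.s) z (x ^ i • z) ≤ 2 * P.δ + 1 := by
    intro i
    have h1 : x ^ i • z = (x ^ i * κ * (x ^ i)⁻¹) • (x ^ i • z0) := by
      rw [hzz, smul_smul, smul_smul]
      congr 1
      group
    rw [h1, qz _ _ _ (nK.conj_mem κ hκ (x ^ i)), hzz, qg.symm, qz _ _ _ hκ, qg.symm]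
    exact hz0 i
  have hzn : ∀ i : ℕ, qd (Ker F) (cd F P.D d P.s) z (x ^ i • z) ≤ 2 * P.δ + 1 := by
    intro i
    have := hz (i : ℤ)
    rwa [zpow_natCast] at this
  have hpz : cd F P.D d P.s p z = qd (Ker F) (cd F P.D d P.s) p z := by
    rw [hzz, hκz, qz _ _ _ hκ]
  have hqp : Mv (qd (Ker F) (cd F P.D d P.s)) x p ρ := le_trans (qle _ _) h
  have hqp' : Mv (qd (Ker F) (cd F P.D d P.s)) x p (ρ + 2 * P.δ + 1) := by
    have : qd (Ker F) (cd F P.D d P.s) p (x • p) ≤ ρ := hqp
    show qd (Ker F) (cd F P.D d P.s) p (x • p) ≤ _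
    omega
  have hqz' : Mv (qd (Ker F) (cd F P.D d P.s)) x z (ρ + 2 * P.δ + 1) := by
    have := hzn 1
    rw [pow_one] at this
    show qd (Ker F) (cd F P.D d P.s) z (x • z) ≤ _
    omega
  by_cases hcase : ∃ (c : F.C) (v : Cone F P.D), Btw (qd (Ker F) (cd F P.D d P.s)) p v z 0 ∧
      2 * qd (Ker F) (cd F P.D d P.s) v (ap F P.D c) < P.D
  · -- (a) a short distance to an apex
    right
    obtain ⟨c, v, hv, hvc⟩ := hcase
    have hmv : qd (Ker F) (cd F P.D d P.s) v (x • v) ≤ 3 * (ρ + 2 * P.δ + 1) + 6 * P.δ :=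
      h_mid qg qi qh x p z v _ hqp' hqz' hv
    have hfix : FixB F x c := by
      apply h_fixB hG hF hT
      have h1 := qg.tri (ap F P.D c) v (x • ap F P.D c)
      have h2 := qg.tri v (x • v) (x • ap F P.D c)
      have h3 := qi x v (ap F P.D c)
      have h4 := qg.symm v (ap F P.D c)
      omega
    have hrot := h_rot hG hF hT c x hfix hxK p ρ hρ hqp
    obtain ⟨κ1, hκ1, hκ1c⟩ := h_att hG hF hT p (ap F P.D c)
    rw [sa] at hκ1c
    obtain ⟨κ2, hκ2, hκ2c⟩ := hfix
    have hc1 : cd F P.D d P.s p (ap F P.D (κ1 • c)) ≤ P.D + 100 * Ex (100 * (ρ + P.δ)) := by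
      rw [hκ1c]
      exact hrot
    -- the element `κ3 * x` fixes `κ1 • c`
    have hκ3 : κ1 * κ2 * (x * κ1⁻¹ * x⁻¹) ∈ Ker F :=
      (Ker F).mul_mem ((Ker F).mul_mem hκ1 hκ2) (nK.conj_mem _ ((Ker F).inv_mem hκ1) x)
    have hκ3c : (κ1 * κ2 * (x * κ1⁻¹ * x⁻¹)) • (x • (κ1 • c)) = κ1 • c := by
      have : (κ1 * κ2 * (x * κ1⁻¹ * x⁻¹)) • (x • (κ1 • c)) = κ1 • ((κ2 * x) • c) := by
        rw [smul_smul, smul_smul, smul_smul]
        congr 1
        group
      rw [this, hκ2c]
    have hn := h_near hG hF hT p hp (x • (κ1 • c)) _ hκ3 (by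
      have h1 := cg.tri p (x • p) (ap F P.D (x • (κ1 • c)))
      have h2 : cd F P.D d P.s (x • p) (ap F P.D (x • (κ1 • c))) =
          cd F P.D d P.s p (ap F P.D (κ1 • c)) := by
        rw [← sa, ci]
      have h3 : cd F P.D d P.s p (x • p) ≤ ρ := h
      omega) (by
      rw [hκ3c]
      omega)
    rw [hκ3c] at hn
    refine ⟨κ1 • c, hn.symm, ?_, hc1⟩
    intro hR
    exact hxK (Subgroup.subset_closure ⟨_, hR⟩)
  · -- (b) `x` is torsion
    left
    push Not at hcase
    have hzc : ∀ c, P.D ≤ 2 * qd (Ker F) (cd F P.D d P.s) z (ap F P.D c) := by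
      intro c
      apply hcase c z
      show _ ≤ _
      rw [qg.self z]
    have hzNA : NA z := by
      intro c hcz
      have h1 := hzc c
      rw [← hcz, qg.self z] at h1
      omega
    have hmz : cd F P.D d P.s z (x • z) ≤ ρ + 2 * P.δ + 1 :=
      h_narrow hG hF hT p z hp hzNA x (ρ + 2 * P.δ + 1) (by omega) hpz
        (by
          have : cd F P.D d P.s p (x • p) ≤ ρ := h
          show cd F P.D d P.s p (x • p) ≤ _
          omega) hqz' (fun c v hv => hcase c v hv)
    have hall : ∀ i : ℕ, cd F P.D d P.s z (x ^ i • z) ≤ 2 * P.δ + 1 := by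
      intro i
      induction i with
      | zero => rw [pow_zero, one_smul, cg.self]; omega
      | succ i ih =>
        have h1 : cd F P.D d P.s z (x ^ (i + 1) • z) ≤ (2 * P.δ + 1) + (ρ + 2 * P.δ + 1) := by
          have h2 := cg.tri z (x ^ i • z) (x ^ (i + 1) • z)
          have h3 : cd F P.D d P.s (x ^ i • z) (x ^ (i + 1) • z) = cd F P.D d P.s z (x • z) := by
            rw [pow_succ, mul_smul, ci]
          omega
        obtain ⟨k, hk, hkz⟩ := h_att hG hF hT z (x ^ (i + 1) • z)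
        have h4 := hzn (i + 1)
        have h5 : k = 1 := by
          apply small z (x ^ (i + 1)) hzNA hzc k hk
          have h6 := cg.tri (x ^ (i + 1) • z) z (k • (x ^ (i + 1) • z))
          have h7 := cg.symm (x ^ (i + 1) • z) z
          omega
        rw [h5, one_smul] at hkz
        omega
    have h1 : x ^ P.n = 1 := by
      apply small z 1 hzNA hzc _ hx
      rw [one_smul]
      have := hall P.n
      omega
    exact h1

end Mon
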