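import Pool.Agent.Work.MP_6f5fa7_al.Mon.StTool
import Pool.Agent.Work.MP_6f5fa7_al.Mon.StCyc
import Pool.Agent.Work.MP_6f5fa7_al.Mon.StCone
import Pool.Agent.Work.MP_6f5fa7_al.Mon.StAct

/-! Mon: item A12 (old_small). -/
set_option autoImplicit false

namespace Mon

private theorem a12_Ex_mono {a b : ℕ} (h : a ≤ b) : Ex a ≤ Ex b := by
  unfold Ex
  exact Nat.mul_le_mul h (Nat.pow_le_pow_right (by norm_num) h)

private theorem a12_le_Ex (a : ℕ) : a ≤ Ex a := by
  unfold Ex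
  exact Nat.le_mul_of_pos_right a (by positivity)

theorem old_small (h_geo : S.qd_geo) (h_isom : S.qd_isom) (h_hyp : S.qd_hyp)
    (h_mid : S.middle_move) (h_fixB : S.fixB_of_close) (h_att : S.qd_att) (h_le : S.qd_le)
    (h_zero : S.qd_zero) (h_norm : S.ker_normal) (h_nl : S.narrow_lift) (h_cf : S.cone_fix)
    (h_tb : S.to_base) (h_bd : S.bs_dist) (h_tl : S.tor_lift) (h_inf : S.inf_of_far)
    (h_cb : S.cd_bs) (h_cg : S.cone_geo) (h_ci : S.cone_isom) (h_sb : S.smul_bs) :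
    S.old_small := by
  intro G X _ _ d P F T M hG hF hT u hu hun hc p q ρ hρ h1 h2
  -- numerical facts
  have e1 : 100 * (ρ + P.δ) ≤ Ex (100 * (ρ + P.δ)) := a12_le_Ex _
  have e2 : Ex (3 * ρ) ≤ Ex (100 * (ρ + P.δ)) := a12_Ex_mono (by omega)
  have n1 := P.h1
  have n2 := P.hδ
  have n3 := P.hD
  have n4 := P.hA
  have n5 := P.hs
  have hD1 : 1 ≤ P.D := by omega
  have hs1 : 1 ≤ P.s := by omega
  have hgeo : Geo d := hG.geo
  have hiso : Isom G d := hG.isom
  set e := cd F P.D d P.s with he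
  set K := Ker F with hK
  have ceg : Geo e := h_cg hgeo hiso hs1 hD1
  have cei : Isom G e := h_ci hgeo hiso hs1 hD1
  have qg : Geo (qd K e) := h_geo hG hF hT
  have qi : Isom G (qd K e) := h_isom hG hF hT
  have qh : Hyp P.δ (qd K e) := h_hyp hG hF hT
  haveI hN : K.Normal := h_norm hG hF hT
  -- points between `p` and `q` are far from the apices
  have far : ∀ (v : Cone F P.D) (c : F.C), Btw (qd K e) p v q 0 →
      P.D ≤ 2 * qd K e v (ap F P.D c) := by
    intro v c hv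
    by_contra hlt
    rw [not_le] at hlt
    have m1 : Mv (qd K e) u v (3 * ρ + 6 * P.δ) := h_mid qg qi qh u p q v ρ h1 h2 hv
    have t1 := qg.tri (ap F P.D c) v (u • ap F P.D c)
    have t2 := qg.tri v (u • v) (u • ap F P.D c)
    have t3 := qi u v (ap F P.D c)
    have t4 := qg.symm (ap F P.D c) v
    have m2 : qd K e v (u • v) ≤ 3 * ρ + 6 * P.δ := m1
    exact hc c (h_fixB hG hF hT c u (by
      show qd K e (ap F P.D c) (u • ap F P.D c) < 2 * P.D + 2
      omega))
  have hpp : Btw (qd K e) p p q 0 := by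
    unfold Btw; rw [qg.self]; omega
  have hpq : Btw (qd K e) p q q 0 := by
    unfold Btw; rw [qg.self]
  have NAp : NA p := by
    intro c hcp
    have := far p c hpp
    rw [hcp, qg.self] at this
    omega
  -- invariance of the quotient distance
  have inv : ∀ (κ : G), κ ∈ K → ∀ x y : Cone F P.D, qd K e x (κ • y) = qd K e x y := by
    intro κ hκ x y
    have z := h_zero hG hF hT κ hκ y
    have z' : qd K e y (κ • y) = 0 := z
    have t1 := qg.tri x y (κ • y)
    have t2 := qg.tri x (κ • y) y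
    rw [qg.symm (κ • y) y] at t2
    omega
  obtain ⟨κ1, hκ1, hk1⟩ := h_att hG hF hT p (u • p)
  obtain ⟨κ2, hκ2, hk2⟩ := h_att hG hF hT p q
  change e p (κ1 • u • p) = qd K e p (u • p) at hk1
  change e p (κ2 • q) = qd K e p q at hk2
  set g := κ1 * u with hg
  set q' := κ2 • q with hq'
  have hgp : Mv e g p ρ := by
    unfold Mv at h1 ⊢
    rw [hg, mul_smul, hk1]; exact h1
  have hqq : ∀ x, qd K e x q' = qd K e x q := fun x => inv κ2 hκ2 x q
  have hgq : Mv (qd K e) g q' ρ := by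
    unfold Mv at h2 ⊢
    have a1 : g • q' = (κ1 * (u * κ2 * u⁻¹)) • (u • q) := by
      rw [hg, hq', ← mul_smul, ← mul_smul]
      congr 1
      group
    have a2 : κ1 * (u * κ2 * u⁻¹) ∈ K := K.mul_mem hκ1 (hN.conj_mem κ2 hκ2 u)
    rw [a1, inv _ a2, qg.symm, hqq, qg.symm]
    exact h2
  have far' : ∀ (c : F.C) (v : Cone F P.D), Btw (qd K e) p v q' 0 →
      P.D ≤ 2 * qd K e v (ap F P.D c) := by
    intro c v hv
    refine far v c ?_
    unfold Btw at hv ⊢
    rwa [hqq, hqq] at hv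
  have hpq'' : Btw (qd K e) p q' q' 0 := by
    unfold Btw; rw [qg.self]
  have NAq : NA q' := by
    intro c hcp
    have := far' c q' hpq''
    rw [hcp, qg.self] at this
    omega
  have hep : e p q' = qd K e p q' := by rw [hk2, hqq]
  have hgq' : Mv e g q' ρ :=
    h_nl hG hF hT p q' NAp NAq g ρ (by omega) hep hgp hgq far'
  have noFix : ∀ c : F.C, g • c ≠ c := fun c hcc => hc c ⟨κ1, hκ1, hcc⟩
  have levp : ∀ c, lev F P.D c p ≤ ρ := by
    intro c
    by_contra hlt
    rw [not_le] at hlt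
    exact noFix c (h_cf hgeo hiso hs1 hD1 c p g ρ hlt hgp)
  have levq : ∀ c, lev F P.D c q' ≤ ρ := by
    intro c
    by_contra hlt
    rw [not_le] at hlt
    exact noFix c (h_cf hgeo hiso hs1 hD1 c q' g ρ hlt hgq')
  have hρD : 3 * ρ ≤ P.D := by omega
  have bp : e p (bs F P.D (sh F P.D p)) ≤ ρ := h_tb hgeo hiso hs1 hD1 p ρ (by omega) levp
  have bq : e q' (bs F P.D (sh F P.D q')) ≤ ρ := h_tb hgeo hiso hs1 hD1 q' ρ (by omega) levq
  have shad : ∀ w : Cone F P.D, Mv e g w ρ → e w (bs F P.D (sh F P.D w)) ≤ ρ →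
      d (sh F P.D w) (g • sh F P.D w) ≤ P.s * Ex (3 * ρ) := by
    intro w hw hb
    refine h_bd (F := F) hgeo hiso hs1 hD1 _ _ (3 * ρ) ?_ hρD
    rw [← h_sb (F := F) hgeo hiso hs1 hD1 g (sh F P.D w)]
    have t1 := ceg.tri (bs F P.D (sh F P.D w)) w (g • bs F P.D (sh F P.D w))
    have t2 := ceg.tri w (g • w) (g • bs F P.D (sh F P.D w))
    have t3 := cei g w (bs F P.D (sh F P.D w))
    have t4 := ceg.symm (bs F P.D (sh F P.D w)) w
    have t5 : e w (g • w) ≤ ρ := hw
    change e (bs F P.D (sh F P.D w)) (g • bs F P.D (sh F P.D w)) ≤ 3 * ρ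
    omega
  have dp := shad p hgp bp
  have dq := shad q' hgq' bq
  -- `g` is torsion
  have hgn : g ^ P.n ∈ K := by
    rw [← QuotientGroup.eq_one_iff] at hun ⊢
    have a1 : ((g : G) : G ⧸ K) = (u : G ⧸ K) := by
      rw [hg, QuotientGroup.mk_mul, (QuotientGroup.eq_one_iff κ1).2 hκ1, one_mul]
    rw [QuotientGroup.mk_pow, a1, ← QuotientGroup.mk_pow]
    exact hun
  have hg1 : g ≠ 1 := by
    intro h0
    apply hu
    have : u = κ1⁻¹ := by
      rw [hg] at h0
      exact eq_inv_of_mul_eq_one_right h0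
    rw [this]
    exact K.inv_mem hκ1
  have hgtor : g ^ P.n = 1 := by
    rcases h_tl hG hF hT p NAp g ρ hρ hgp hgn (fun c => far p c hpp) with h | ⟨c, hcc, _⟩
    · exact h
    · exact absurd hcc (noFix c)
  have hdd : d (sh F P.D p) (sh F P.D q') < 12 * (P.s * Ex (3 * ρ)) + 3 * P.A := by
    by_contra hlt
    rw [not_lt] at hlt
    exact h_inf P hG hg1 hlt dp dq hgtor
  have cb := h_cb (F := F) hgeo hiso hs1 hD1 (sh F P.D p) (sh F P.D q')
  change e _ _ ≤ _ at cb
  have hdiv : d (sh F P.D p) (sh F P.D q') / P.s ≤ 12 * Ex (3 * ρ) + 1 := by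
    have : d (sh F P.D p) (sh F P.D q') < (12 * Ex (3 * ρ) + 1) * P.s := by
      have h3 : 3 * P.A ≤ P.s := by omega
      calc d (sh F P.D p) (sh F P.D q') < 12 * (P.s * Ex (3 * ρ)) + 3 * P.A := hdd
        _ ≤ 12 * (P.s * Ex (3 * ρ)) + P.s := by omega
        _ = (12 * Ex (3 * ρ) + 1) * P.s := by ring
    exact (Nat.div_lt_of_lt_mul (by rw [mul_comm]; exact this)).le
  have le1 : qd K e p q ≤ e p q' := h_le hG hF hT p q κ2 hκ2
  have t1 := ceg.tri p (bs F P.D (sh F P.D p)) q'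
  have t2 := ceg.tri (bs F P.D (sh F P.D p)) (bs F P.D (sh F P.D q')) q'
  have t3 := ceg.symm (bs F P.D (sh F P.D q')) q'
  omega

end Mon
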