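import Pool.Agent.Work.MP_6f5fa7_al.Mon.StAct
import Pool.Agent.Work.MP_6f5fa7_al.Mon.StTool
import Pool.Agent.Work.MP_6f5fa7_al.Mon.StCyc
import Pool.Agent.Work.MP_6f5fa7_al.Mon.StCone

/-! Mon, item A14: T3a and T3c for the quotient. -/
set_option autoImplicit false

namespace Mon

private theorem A14_Ex_mono {a b : ℕ} (h : a ≤ b) : Ex a ≤ Ex b := by
  unfold Ex
  exact Nat.mul_le_mul h (Nat.pow_le_pow_right (by norm_num) h)

private theorem A14_le_Ex (a : ℕ) : a ≤ Ex a := by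
  unfold Ex
  exact Nat.le_mul_of_pos_right _ (by positivity)

private theorem A14_num (P : Par) : 1 ≤ P.δ ∧ P.δ ≤ P.Λ ∧ 1 ≤ P.Λ ∧ P.Λ ≤ Ex (1000 * P.Λ) ∧
    1 ≤ Ex (1000 * P.Λ) := by
  have h1 := P.h1
  have h2 := P.hδ
  have h3 := P.hΛs
  have h4 := P.hΛ
  have h5 := A14_le_Ex (1000 * P.Λ)
  refine ⟨?_, ?_, ?_, ?_, ?_⟩ <;> omega

private theorem A14_rho (P : Par) : 1000 * Ex (100 * (P.Λ + P.δ)) ≤ P.A0 := by
  obtain ⟨_, h2, _, _, _⟩ := A14_num P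
  have h := P.hA0
  have h' : Ex (100 * (P.Λ + P.δ)) ≤ Ex (1000 * P.Λ) := A14_Ex_mono (by omega)
  omega

theorem qT3a (hrot : S.rot) (hold : S.old_small) (hgeo : S.qd_geo) : S.qT3a := by
  intro G X _ _ d P F T M hG hF hT g x y hg h h1 h2 hcon
  have hρ := A14_rho P
  have hGeo := hgeo hG hF hT
  obtain ⟨n1, n2, n3, n4, n5⟩ := A14_num P
  have m1 := P.hA0
  have m2 := P.hD
  have m3 := P.hA
  by_cases hc : ∃ c, FixB F g c
  · obtain ⟨c, hc⟩ := hc
    have r1 := hrot hG hF hT c g hc hg x P.Λ hρ h1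
    have r2 := hrot hG hF hT c g hc hg y P.Λ hρ h2
    have r3 := hGeo.tri x (ap F P.D c) y
    rw [hGeo.symm (ap F P.D c) y] at r3
    omega
  · push Not at hc
    have r1 := hold hG hF hT g hg hcon hc x y P.Λ hρ h1 h2
    omega

section

variable {G X : Type} [Group G] [MulAction G X] {d : X → X → ℕ} {P : Par} {F : Fam G X} {T M : ℕ}

private theorem A14_fix (hgeo : S.qd_geo) (hiso : S.qd_isom) (hfc : S.fixB_of_close)
    (hG : P.St G d M) (hF : FamOK P d F T) (hT : P.TT2 ≤ T) (c : F.C) (v : Cone F P.D) (g : G)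
    (h : 2 * qd (Ker F) (cd F P.D d P.s) v (ap F P.D c) < P.D)
    (hv : Mv (qd (Ker F) (cd F P.D d P.s)) g v (3 * P.Λ + 6 * P.δ)) : FixB F g c := by
  have hGeo := hgeo hG hF hT
  have hIso := hiso hG hF hT
  apply hfc hG hF hT c g
  obtain ⟨n1, n2, n3, n4, n5⟩ := A14_num P
  have m1 := P.hA0
  have m2 := P.hD
  unfold Mv at hv
  have e1 := hGeo.tri (ap F P.D c) v (g • ap F P.D c)
  have e2 := hGeo.tri v (g • v) (g • ap F P.D c)
  have e3 := hIso g v (ap F P.D c)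
  rw [hGeo.symm (ap F P.D c) v] at e1
  omega

private theorem A14_inv (hgeo : S.qd_geo) (hz : S.qd_zero)
    (hG : P.St G d M) (hF : FamOK P d F T) (hT : P.TT2 ≤ T) (a b : Cone F P.D) (κ : G)
    (hκ : κ ∈ Ker F) : qd (Ker F) (cd F P.D d P.s) a (κ • b) = qd (Ker F) (cd F P.D d P.s) a b := by
  have hGeo := hgeo hG hF hT
  have h0 := hz hG hF hT κ hκ b
  apply le_antisymm
  · have := hGeo.tri a b (κ • b)
    omega
  · have := hGeo.tri a (κ • b) b
    rw [hGeo.symm (κ • b) b] at this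
    omega

/-- everything about one element: the lift -/
private theorem A14_lift (hgeo : S.qd_geo) (hiso : S.qd_isom) (hhyp : S.qd_hyp) (hz : S.qd_zero)
    (hatt : S.qd_att) (hfc : S.fixB_of_close) (hnor : S.ker_normal) (hmm : S.middle_move)
    (hnl : S.narrow_lift) (hG : P.St G d M) (hF : FamOK P d F T) (hT : P.TT2 ≤ T)
    (x y : Cone F P.D) (hx : NA x) (hy : NA y)
    (h0 : cd F P.D d P.s x y = qd (Ker F) (cd F P.D d P.s) x y) (g : G)
    (hc : ∀ c, ¬ FixB F g c)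
    (h1 : Mv (qd (Ker F) (cd F P.D d P.s)) g x P.Λ)
    (h2 : Mv (qd (Ker F) (cd F P.D d P.s)) g y P.Λ) :
    ∃ κ ∈ Ker F, Mv (cd F P.D d P.s) (κ * g) x P.Λ ∧ Mv (cd F P.D d P.s) (κ * g) y P.Λ := by
  have hGeo := hgeo hG hF hT
  have hIso := hiso hG hF hT
  have hHyp := hhyp hG hF hT
  obtain ⟨n1, n2, n3, n4, n5⟩ := A14_num P
  have m1 := P.hA0
  have m2 := P.hD
  obtain ⟨κ, hκ, hκe⟩ := hatt hG hF hT x (g • x)
  refine ⟨κ, hκ, ?_, ?_⟩
  · unfold Mv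
    rw [mul_smul, hκe]
    exact h1
  · refine hnl hG hF hT x y hx hy (κ * g) P.Λ (by omega) h0 ?_ ?_ ?_
    · unfold Mv
      rw [mul_smul, hκe]
      exact h1
    · unfold Mv
      rw [mul_smul, A14_inv hgeo hz hG hF hT y (g • y) κ hκ]
      exact h2
    · intro c v hv
      by_contra hlt
      push Not at hlt
      exact hc c (A14_fix hgeo hiso hfc hG hF hT c v g hlt (hmm hGeo hIso hHyp g x y v P.Λ h1 h2 hv))

/-- from the cone-off to the space -/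
private theorem A14_base (hcg : S.cone_geo) (hci : S.cone_isom) (hsb : S.smul_bs)
    (hcf : S.cone_fix) (htb : S.to_base) (hbd : S.bs_dist) (hG : P.St G d M)
    (x : Cone F P.D) (g : G) (κ : G) (hκ : κ ∈ Ker F)
    (hfb : ∀ c, ¬ FixB F g c) (h1 : Mv (cd F P.D d P.s) (κ * g) x P.Λ) :
    cd F P.D d P.s x (bs F P.D (sh F P.D x)) ≤ P.Λ ∧
      Mv d (κ * g) (sh F P.D x) (P.s * Ex (3 * P.Λ)) := by
  obtain ⟨n1, n2, n3, n4, n5⟩ := A14_num P
  have m1 := P.hA0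
  have m2 := P.hD
  have m3 := P.hA
  have m4 := P.hs
  have hs : 1 ≤ P.s := by omega
  have hD : 1 ≤ P.D := by omega
  have hGeo := hcg (F := F) hG.geo hG.isom hs hD
  have hIso := hci (F := F) hG.geo hG.isom hs hD
  have hlev : ∀ c, lev F P.D c x ≤ P.Λ := by
    intro c
    by_contra hlt
    push Not at hlt
    exact hfb c ⟨κ, hκ, hcf hG.geo hG.isom hs hD c x (κ * g) P.Λ hlt h1⟩
  have hb : cd F P.D d P.s x (bs F P.D (sh F P.D x)) ≤ P.Λ :=
    htb hG.geo hG.isom hs hD x P.Λ (by omega) hlev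
  refine ⟨hb, ?_⟩
  unfold Mv at h1 ⊢
  refine hbd (F := F) hG.geo hG.isom hs hD (sh F P.D x) ((κ * g) • sh F P.D x) (3 * P.Λ) ?_
    (by omega)
  rw [← hsb (F := F) hG.geo hG.isom hs hD]
  have e1 := hGeo.tri (bs F P.D (sh F P.D x)) x ((κ * g) • bs F P.D (sh F P.D x))
  have e2 := hGeo.tri x ((κ * g) • x) ((κ * g) • bs F P.D (sh F P.D x))
  have e3 := hIso (κ * g) x (bs F P.D (sh F P.D x))
  rw [hGeo.symm (bs F P.D (sh F P.D x)) x] at e1
  omega

end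

theorem qT3c (hrot : S.rot) (hgeo : S.qd_geo) (hiso : S.qd_isom) (hhyp : S.qd_hyp)
    (hz : S.qd_zero) (hatt : S.qd_att) (hfc : S.fixB_of_close) (hnor : S.ker_normal)
    (hmm : S.middle_move) (hnl : S.narrow_lift) (hcg : S.cone_geo) (hci : S.cone_isom)
    (hsb : S.smul_bs) (hcf : S.cone_fix) (htb : S.to_base) (hbd : S.bs_dist)
    (hcb : S.cd_bs) (hfar : S.far_comm) : S.qT3c := by
  intro G X _ _ d P F T M hG hF hT g h x y hxy h1 h2 h3 h4
  have hρ := A14_rho P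
  have hGeo := hgeo hG hF hT
  have hIso := hiso hG hF hT
  have hN := hnor hG hF hT
  obtain ⟨n1, n2, n3, n4, n5⟩ := A14_num P
  have m1 := P.hA0
  have m2 := P.hD
  have m3 := P.hA
  have m4 := P.hs
  have hs : 1 ≤ P.s := by omega
  have hD : 1 ≤ P.D := by omega
  by_cases hgK : g ∈ Ker F
  · have h5 : h * g⁻¹ * h⁻¹ ∈ Ker F := hN.conj_mem _ ((Ker F).inv_mem hgK) h
    have h6 := (Ker F).mul_mem hgK h5
    simpa [mul_assoc] using h6
  by_cases hhK : h ∈ Ker F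
  · have h5 : g * h * g⁻¹ ∈ Ker F := hN.conj_mem _ hhK g
    exact (Ker F).mul_mem h5 ((Ker F).inv_mem hhK)
  have nofix : ∀ u : G, u ∉ Ker F → Mv (qd (Ker F) (cd F P.D d P.s)) u x P.Λ →
      Mv (qd (Ker F) (cd F P.D d P.s)) u y P.Λ → ∀ c, ¬ FixB F u c := by
    intro u huK hux huy c hc
    have r1 := hrot hG hF hT c u hc huK x P.Λ hρ hux
    have r2 := hrot hG hF hT c u hc huK y P.Λ hρ huy
    have r3 := hGeo.tri x (ap F P.D c) y
    rw [hGeo.symm (ap F P.D c) y] at r3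
    omega
  have hgc := nofix g hgK h1 h2
  have hhc := nofix h hhK h3 h4
  -- the lift of `y`
  obtain ⟨κ, hκ, hκe⟩ := hatt hG hF hT x y
  obtain ⟨y', rfl⟩ : ∃ y', y = κ⁻¹ • y' := ⟨κ • y, by rw [inv_smul_smul]⟩
  rw [smul_inv_smul] at hκe
  have hκ' : κ⁻¹ ∈ Ker F := (Ker F).inv_mem hκ
  have hmv : ∀ u : G, Mv (qd (Ker F) (cd F P.D d P.s)) u (κ⁻¹ • y') P.Λ →
      Mv (qd (Ker F) (cd F P.D d P.s)) u y' P.Λ := by
    intro u hu
    unfold Mv at hu ⊢
    have e1 : u • κ⁻¹ • y' = (u * κ⁻¹ * u⁻¹) • u • y' := by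
      rw [← mul_smul, ← mul_smul]
      congr 1
      group
    rw [e1, A14_inv hgeo hz hG hF hT _ _ _ (hN.conj_mem _ hκ' u), hGeo.symm,
      A14_inv hgeo hz hG hF hT _ _ _ hκ', hGeo.symm] at hu
    exact hu
  rw [A14_inv hgeo hz hG hF hT _ _ _ hκ'] at hxy hκe
  have h2' := hmv g h2
  have h4' := hmv h h4
  have hx : NA x := by
    rintro c rfl
    apply hgc c
    apply hfc hG hF hT c g
    unfold Mv at h1
    omega
  have hy : NA y' := by
    rintro c rfl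
    apply hgc c
    apply hfc hG hF hT c g
    unfold Mv at h2'
    omega
  obtain ⟨κg, hκg, g1, g2⟩ := A14_lift hgeo hiso hhyp hz hatt hfc hnor hmm hnl hG hF hT x y' hx hy
    hκe g hgc h1 h2'
  obtain ⟨κh, hκh, g3, g4⟩ := A14_lift hgeo hiso hhyp hz hatt hfc hnor hmm hnl hG hF hT x y' hx hy
    hκe h hhc h3 h4'
  obtain ⟨b1, f1⟩ := A14_base hcg hci hsb hcf htb hbd hG x g κg hκg hgc g1
  obtain ⟨b2, f2⟩ := A14_base hcg hci hsb hcf htb hbd hG y' g κg hκg hgc g2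
  obtain ⟨_, f3⟩ := A14_base hcg hci hsb hcf htb hbd hG x h κh hκh hhc g3
  obtain ⟨_, f4⟩ := A14_base hcg hci hsb hcf htb hbd hG y' h κh hκh hhc g4
  have hCG := hcg (F := F) hG.geo hG.isom hs hD
  have c1 := hcb (F := F) hG.geo hG.isom hs hD (sh F P.D x) (sh F P.D y')
  have c2 := hCG.tri x (bs F P.D (sh F P.D x)) y'
  have c3 := hCG.tri (bs F P.D (sh F P.D x)) (bs F P.D (sh F P.D y')) y'
  rw [hCG.symm (bs F P.D (sh F P.D y')) y'] at c3
  have c4 : P.A ≤ 2 * P.Λ + 1 + d (sh F P.D x) (sh F P.D y') / P.s := by omega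
  have hEx : Ex (3 * P.Λ) ≤ Ex (1000 * P.Λ) := A14_Ex_mono (by omega)
  have c5 : 20 * Ex (3 * P.Λ) + 1 ≤ d (sh F P.D x) (sh F P.D y') / P.s := by omega
  have c6 : 20 * (P.s * Ex (3 * P.Λ)) + 10 * P.A ≤ d (sh F P.D x) (sh F P.D y') := by
    have c7 : (20 * Ex (3 * P.Λ) + 1) * P.s ≤ d (sh F P.D x) (sh F P.D y') :=
      (Nat.mul_le_mul_right _ c5).trans (Nat.div_mul_le_self _ _)
    have c8 : 10 * P.A ≤ P.s := by omega
    calc 20 * (P.s * Ex (3 * P.Λ)) + 10 * P.A ≤ 20 * (P.s * Ex (3 * P.Λ)) + P.s := by omega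
      _ = (20 * Ex (3 * P.Λ) + 1) * P.s := by ring
      _ ≤ _ := c7
  have hcomm := hfar P hG c6 f1 f2 f3 f4
  -- conclusion in the quotient group
  have q1 : ∀ k ∈ Ker F, (QuotientGroup.mk k : G ⧸ Ker F) = 1 := fun k hk =>
    (QuotientGroup.eq_one_iff k).2 hk
  have q2 := congrArg (QuotientGroup.mk (s := Ker F)) hcomm
  simp only [QuotientGroup.mk_mul, q1 _ hκg, q1 _ hκh, one_mul] at q2
  rw [← QuotientGroup.eq_one_iff]
  simp only [QuotientGroup.mk_mul, QuotientGroup.mk_inv]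
  rw [q2]
  group

end Mon
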