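import Pool.Agent.Work.MP_6f5fa7_al.Mon.StTool
import Pool.Agent.Work.MP_6f5fa7_al.Mon.StCyc
import Pool.Agent.Work.MP_6f5fa7_al.Mon.StCone
import Pool.Agent.Work.MP_6f5fa7_al.Mon.StHyp
import Pool.Agent.Work.MP_6f5fa7_al.Mon.StAct

/-! Mon, item A15: T3b for the quotient. -/
set_option autoImplicit false

namespace Mon

private theorem qT3b_ex_mono {a b : ℕ} (h : a ≤ b) : Ex a ≤ Ex b := by
  unfold Ex
  exact Nat.mul_le_mul h (Nat.pow_le_pow_right (by norm_num) h)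

private theorem qT3b_ex_ge (a : ℕ) : a ≤ Ex a := by
  unfold Ex
  exact Nat.le_mul_of_pos_right _ (by positivity)

/-- discrete intermediate values -/
private theorem qT3b_ivt (f : ℕ → ℕ) (R C : ℕ) (h0 : f 0 = 0) (h1 : ∀ j, f (j + 1) ≤ f j + R) :
    ∀ m t, t ≤ f m + C → ∃ j, j ≤ m ∧ f j ≤ t + R ∧ t ≤ f j + (R + C) := by
  intro m
  induction m with
  | zero =>
    intro t ht
    exact ⟨0, le_refl _, by omega, by omega⟩
  | succ m ih =>
    intro t ht
    by_cases hc : t ≤ f m + C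
    · obtain ⟨j, hj, h2, h3⟩ := ih t hc
      exact ⟨j, by omega, h2, h3⟩
    · have := h1 m
      exact ⟨m + 1, le_refl _, by omega, by omega⟩

/-- points between `z` and `g ^ m • z` are near the orbit of `z`, hence moved a little -/
private theorem qT3b_orbit (hclose : S.btw_close) {G X : Type} [Group G] [MulAction G X]
    {d : X → X → ℕ} {δ : ℕ} (hg : Geo d) (hi : Isom G d) (hh : Hyp δ d) (g : G) (z y : X)
    (R κ m : ℕ) (hT : Thick d g z κ) (hR : d z (g • z) ≤ R) (hy : Btw d z y (g ^ m • z) κ) :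
    d y (g • y) ≤ 3 * R + 4 * κ + 2 * δ := by
  have hstep : ∀ j, d z (g ^ (j + 1) • z) ≤ d z (g ^ j • z) + R := by
    intro j
    have e1 := hg.tri z (g ^ j • z) (g ^ (j + 1) • z)
    have e2 : d (g ^ j • z) (g ^ (j + 1) • z) = d z (g • z) := by
      rw [pow_succ, mul_smul]
      exact hi _ _ _
    omega
  have h0 : d z (g ^ 0 • z) = 0 := by
    rw [pow_zero, one_smul]
    exact hg.self z
  have ht : d z y ≤ d z (g ^ m • z) + κ := by
    unfold Btw at hy
    omega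
  obtain ⟨j, hj, h2, h3⟩ := qT3b_ivt (fun j => d z (g ^ j • z)) R κ h0 hstep m (d z y) ht
  have hb : Btw d z (g ^ j • z) (g ^ m • z) κ := by
    have e1 := hT j (m - j)
    have e2 : j + (m - j) = m := by omega
    rw [e2] at e1
    have e3 : d (g ^ j • z) (g ^ m • z) = d z (g ^ (m - j) • z) := by
      have e4 : g ^ m = g ^ j * g ^ (m - j) := by rw [← pow_add, e2]
      rw [e4, mul_smul]
      exact hi _ _ _
    unfold Btw
    rw [e3]
    exact e1
  have hc : d y (g ^ j • z) ≤ (R + κ) + κ + δ :=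
    hclose hg hh hy hb (by omega) (by omega)
  have e1 := hg.tri y (g ^ j • z) (g • y)
  have e2 := hg.tri (g ^ j • z) (g • (g ^ j • z)) (g • y)
  have e3 : d (g • (g ^ j • z)) (g • y) = d (g ^ j • z) y := hi _ _ _
  have e4 : d (g ^ j • z) (g • (g ^ j • z)) = d z (g • z) := by
    rw [← mul_smul, ← pow_succ', pow_succ, mul_smul]
    exact hi _ _ _
  have e5 := hg.symm (g ^ j • z) y
  omega

/-- points of `Y c` moved a little by `g` with `g • c ≠ c` are not far apart -/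
private theorem qT3b_ov (hquad : S.btw_quad) (hproj : S.btw_proj) {G X : Type} [Group G]
    [MulAction G X] {d : X → X → ℕ} {P : Par} {F : Fam G X} {T M : ℕ} (hG : P.St G d M)
    (hF : FamOK P d F T) (c : F.C) (g : G) (y1 y2 : X) (h1 : y1 ∈ F.Y c) (h2 : y2 ∈ F.Y c)
    (hc : g • c ≠ c) (R : ℕ) (hR : P.s ≤ R) (m1 : d y1 (g • y1) ≤ R) (m2 : d y2 (g • y2) ≤ R)
    (hA : P.δ ≤ P.A) (hA1 : 1 ≤ P.A) : d y1 y2 ≤ 5 * R := by
  by_contra hcon
  push Not at hcon
  have hs := P.hs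
  have hg := hG.geo
  have key : ∀ a0, d y1 a0 + d a0 y2 = d y1 y2 → 2 * R ≤ d y1 a0 → 2 * R ≤ d a0 y2 →
      ∃ a a', a ∈ F.Y c ∧ a' ∈ F.Y (g • c) ∧ d a0 a ≤ P.A ∧ d a a' ≤ 100 * P.A := by
    intro a0 e0 e1 e2
    have b0 : Btw d y1 a0 y2 0 := by
      unfold Btw
      omega
    obtain ⟨a, ha, ha'⟩ := hF.qc c y1 y2 a0 h1 h2 b0
    have e3 := hg.symm a0 y1
    have e4 := hg.symm (g • y1) y1
    have e5 := hg.symm (g • y2) y2
    have b1 : Btw d (g • y1) a0 (g • y2) (0 + 2 * P.δ) :=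
      hquad hg hG.hyp (R := R) b0 (by omega) (by omega) (by omega) (by omega)
    obtain ⟨m, hm, hm'⟩ := hproj hg hG.hyp b1
    obtain ⟨a', ha1, ha2⟩ := hF.qc (g • c) (g • y1) (g • y2) m (F.Y_smul g c y1 h1)
      (F.Y_smul g c y2 h2) hm
    refine ⟨a, a', ha, ha1, ha', ?_⟩
    have e6 := hg.tri a a0 a'
    have e7 := hg.tri a0 m a'
    have e8 := hg.symm a a0
    omega
  obtain ⟨a0, p1, p2⟩ := hg.geo y1 y2 (2 * R) (by omega)
  obtain ⟨b0, q1, q2⟩ := hg.geo y1 y2 (d y1 y2 - 2 * R) (by omega)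
  obtain ⟨a, a', ha, ha', u1, u2⟩ := key a0 (by omega) (by omega) (by omega)
  obtain ⟨b, b', hb, hb', v1, v2⟩ := key b0 (by omega) (by omega) (by omega)
  have w := hF.ov c (g • c) a b a' b' (Ne.symm hc) ha hb ha' hb' u2 v2
  have e1 := hg.tri y1 a0 b0
  have e2 := hg.tri a0 a b0
  have e3 := hg.tri a b b0
  have e4 := hg.symm b b0
  omega

section

variable {G X : Type} [Group G] [MulAction G X]

private theorem qT3b_nofix {d : X → X → ℕ} {P : Par} {F : Fam G X} {T : ℕ}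
    (hF : FamOK P d F T) (hK : (Ker F).Normal) {g : G} (hg : g ^ P.n ∉ Ker F) (c : F.C) :
    ¬ FixB F g c := by
  rintro ⟨κ, hκ, h⟩
  apply hg
  have h1 : (κ * g) ^ P.n ∈ Ker F := Subgroup.subset_closure ⟨c, hF.pow c _ h⟩
  have := hK
  have h2 : ((κ * g : G) : G ⧸ Ker F) = (g : G ⧸ Ker F) := by
    rw [QuotientGroup.mk_mul, (QuotientGroup.eq_one_iff κ).mpr hκ, one_mul]
  rw [← QuotientGroup.eq_one_iff, QuotientGroup.mk_pow] at h1 ⊢
  rw [h2] at h1
  exact h1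

private theorem qT3b_pow {F : Fam G X} (hK : (Ker F).Normal) (g κ : G) (hκ : κ ∈ Ker F) (m : ℕ) :
    ∃ κ' ∈ Ker F, g ^ m = κ' * (κ * g) ^ m := by
  have := hK
  refine ⟨g ^ m * ((κ * g) ^ m)⁻¹, ?_, by group⟩
  have h2 : ((κ * g : G) : G ⧸ Ker F) = (g : G ⧸ Ker F) := by
    rw [QuotientGroup.mk_mul, (QuotientGroup.eq_one_iff κ).mpr hκ, one_mul]
  rw [← QuotientGroup.eq_one_iff, QuotientGroup.mk_mul, QuotientGroup.mk_inv,
    QuotientGroup.mk_pow, QuotientGroup.mk_pow, h2, mul_inv_cancel]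

end

/-- T3b for the quotient -/
theorem qT3b (hclose : S.btw_close) (hquad : S.btw_quad) (hproj : S.btw_proj)
    (hax : S.axis_near) (hcg : S.cone_geo) (hci : S.cone_isom) (hsb : S.smul_bs)
    (hcb : S.cd_bs) (hbd : S.bs_dist) (hfix : S.cone_fix) (htb : S.to_base)
    (hpr : S.pr_btw2) (hep : S.exit_proj) (hct : S.cone_thick) (hkn : S.ker_normal)
    (hst : S.small_turns) (hatt : S.qd_att) (hle : S.qd_le) (hqg : S.qd_geo)
    (hqi : S.qd_isom) : S.qT3b := by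
  intro G X _ _ d P F T M hG hF hT g x hg h1
  -- numbers
  have n1 := P.h1
  have n2 := P.hδ
  have n3 := P.hΛs
  have n4 := P.hΛ
  have n5 := P.hA0
  have n6 := P.hD
  have n7 := P.hA
  have n8 := P.hs
  have n9 := P.hTT2
  have n10 := qT3b_ex_ge (1000 * P.Λ)
  have n11 : Ex (3 * P.Λ) ≤ Ex (1000 * P.Λ) := qT3b_ex_mono (by omega)
  have n12 := qT3b_ex_ge (3 * P.Λ)
  generalize hE3 : Ex (3 * P.Λ) = E at *
  generalize Ex (1000 * P.Λ) = E' at *
  have hs1 : 1 ≤ P.s := by omega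
  have hD1 : 1 ≤ P.D := by omega
  have hK := hkn hG hF hT
  have hCG : Geo (cd F P.D d P.s) := hcg hG.geo hG.isom hs1 hD1
  have hCI : Isom G (cd F P.D d P.s) := hci hG.geo hG.isom hs1 hD1
  have hQG := hqg hG hF hT
  have hQI := hqi hG hF hT
  -- the lift
  obtain ⟨κ, hκ, hκ1⟩ := hatt hG hF hT x (g • x)
  have hm1 : cd F P.D d P.s x ((κ * g) • x) ≤ P.Λ := by
    rw [mul_smul, hκ1]
    exact h1
  obtain ⟨g1, hg1⟩ : ∃ g1, g1 = κ * g := ⟨_, rfl⟩
  rw [← hg1] at hm1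
  have hnf : ∀ c, g1 • c ≠ c := fun c h =>
    qT3b_nofix hF hK hg c ⟨κ, hκ, by rw [← hg1]; exact h⟩
  have hlev : ∀ c, lev F P.D c x ≤ P.Λ := by
    intro c
    by_contra hc
    push Not at hc
    exact hnf c (hfix hG.geo hG.isom hs1 hD1 c x g1 P.Λ hc hm1)
  have hxu := htb hG.geo hG.isom hs1 hD1 x P.Λ (by omega) hlev
  obtain ⟨u, hu⟩ : ∃ u, u = sh F P.D x := ⟨_, rfl⟩
  rw [← hu] at hxu
  have hu1 : d u (g1 • u) ≤ P.s * E := by
    rw [← hE3]
    refine hbd (F := F) (D := P.D) hG.geo hG.isom hs1 hD1 u (g1 • u) (3 * P.Λ) ?_ (by omega)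
    rw [← hsb hG.geo hG.isom hs1 hD1]
    have e1 := hCG.tri (bs F P.D u) x (g1 • bs F P.D u)
    have e2 := hCG.tri x (g1 • x) (g1 • bs F P.D u)
    have e3 := hCI g1 x (bs F P.D u)
    have e4 := hCG.symm (bs F P.D u) x
    omega
  have hg1n : g1 ^ P.n ≠ 1 := by
    intro h
    obtain ⟨κ', hκ', h'⟩ := qT3b_pow hK g κ hκ P.n
    apply hg
    rw [h', ← hg1, h, mul_one]
    exact hκ'
  obtain ⟨z, hz1, hz2, -⟩ := hax P hG hg1n hu1
  have hR1 : P.s ≤ P.s * E := Nat.le_mul_of_pos_right _ (by omega)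
  obtain ⟨R, hR⟩ : ∃ R, R = P.s * E := ⟨_, rfl⟩
  rw [← hR] at hz1 hu1 hR1
  have hz3 : d z (g1 • z) ≤ 13 * R + 2 * P.A := by
    have e1 := hG.geo.tri z u (g1 • z)
    have e2 := hG.geo.tri u (g1 • u) (g1 • z)
    have e3 := hG.isom g1 u z
    have e4 := hG.geo.symm z u
    omega
  -- projections
  have hprj : ∀ (c : F.C) (m : ℕ),
      d (pr F d c z).1 (pr F d c (g1 ^ m • z)).1 ≤ (200 * E) * P.s := by
    intro c m
    have e0 : (200 * E) * P.s = 5 * (40 * R) := by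
      rw [hR]
      ring
    rw [e0]
    by_cases hc : 4 * P.A ≤ d (pr F d c z).1 (pr F d c (g1 ^ m • z)).1
    · have e1 := hpr hG hF c z (g1 ^ m • z) hc
      have hT' : Thick d g1 z (7 * P.A) := by
        intro i j
        have := hz2 i j
        omega
      have t1 := hG.geo.tri (pr F d c z).1 (pr F d c (g1 ^ m • z)).1 (g1 ^ m • z)
      have t2 := hG.geo.tri z (pr F d c z).1 (pr F d c (g1 ^ m • z)).1
      have k1 := qT3b_orbit hclose hG.geo hG.isom hG.hyp g1 z (pr F d c z).1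
        (13 * R + 2 * P.A) (7 * P.A) m hT' hz3 (by unfold Btw; omega)
      have k2 := qT3b_orbit hclose hG.geo hG.isom hG.hyp g1 z (pr F d c (g1 ^ m • z)).1
        (13 * R + 2 * P.A) (7 * P.A) m hT' hz3 (by unfold Btw; omega)
      exact qT3b_ov hquad hproj hG hF c g1 _ _ (pr F d c z).2 (pr F d c (g1 ^ m • z)).2
        (hnf c) (40 * R) (by omega) (by omega) (by omega) (by omega) (by omega)
    · omega
  -- the distance in the quotient
  have hqc : ∀ m : ℕ, qd (Ker F) (cd F P.D d P.s) (bs F P.D z) (g ^ m • bs F P.D z) =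
      cd F P.D d P.s (bs F P.D z) (bs F P.D (g1 ^ m • z)) := by
    intro m
    have hna : ∀ y : X, NA (F := F) (bs F P.D y) := by
      intro y c h
      have := congrArg Subtype.val h
      simp [bs, ap] at this
    have hang : ∀ c, ¬ Ang F P.D d (cd F P.D d P.s) c (bs F P.D z) (bs F P.D (g1 ^ m • z))
        (T / 2) := by
      rintro c ⟨y, hy, y', hy', ht⟩
      have e1 := hep hG hF c z y hy
      have e2 := hep hG hF c (g1 ^ m • z) y' hy'
      have e3 := hprj c m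
      have e4 := hG.geo.tri y (pr F d c z).1 y'
      have e5 := hG.geo.tri (pr F d c z).1 (pr F d c (g1 ^ m • z)).1 y'
      have e6 := hG.geo.symm (pr F d c (g1 ^ m • z)).1 y'
      have e7 : (200 * E) * P.s ≤ P.δ1 * (P.s * 2 ^ P.D) := by
        have f1 : 200 * E ≤ 2 ^ P.D := le_trans (by omega) (Nat.lt_two_pow_self).le
        calc (200 * E) * P.s ≤ 2 ^ P.D * P.s := Nat.mul_le_mul_right _ f1
          _ = 1 * (P.s * 2 ^ P.D) := by ring
          _ ≤ P.δ1 * (P.s * 2 ^ P.D) := Nat.mul_le_mul_right _ n1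
      have e8 : P.δ1 * P.s * 2 ^ P.D = P.δ1 * (P.s * 2 ^ P.D) := by ring
      have e9 : 0 < P.δ1 * (P.s * 2 ^ P.D) := by positivity
      rw [e8] at n9
      generalize P.δ1 * (P.s * 2 ^ P.D) = W at *
      omega
    obtain ⟨κ', hκ', h'⟩ := qT3b_pow hK g κ hκ m
    rw [← hg1] at h'
    have e1 : g ^ m • bs F P.D z = κ' • bs F P.D (g1 ^ m • z) := by
      rw [h', mul_smul, hsb hG.geo hG.isom hs1 hD1]
    apply le_antisymm
    · have e2 := hle hG hF hT (bs F P.D z) (g ^ m • bs F P.D z) κ'⁻¹ (inv_mem hκ')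
      rw [e1, inv_smul_smul] at e2
      rw [e1]
      exact e2
    · obtain ⟨κ2, hκ2, h2⟩ := hatt hG hF hT (bs F P.D z) (g ^ m • bs F P.D z)
      rw [← h2, e1, ← mul_smul]
      exact hst hG hF hT _ _ (hna _) (hna _) hang _ (mul_mem hκ2 hκ')
  have hthick : Thick (qd (Ker F) (cd F P.D d P.s)) g (bs F P.D z)
      (2 * (200 * E + P.δ1 + 100)) := by
    intro i j
    rw [hqc, hqc, hqc]
    have hb : Btw d z (g1 ^ i • z) (g1 ^ (i + j) • z) P.s := by
      have e1 := hz2 i j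
      have e2 : d (g1 ^ i • z) (g1 ^ (i + j) • z) = d z (g1 ^ j • z) := by
        rw [pow_add, mul_smul]
        exact hG.isom _ _ _
      unfold Btw
      omega
    have e1 := hct hG hF z (g1 ^ (i + j) • z) (g1 ^ i • z) (200 * E) hb
      (fun c => hprj c (i + j))
    have e2 : cd F P.D d P.s (bs F P.D (g1 ^ i • z)) (bs F P.D (g1 ^ (i + j) • z)) =
        cd F P.D d P.s (bs F P.D z) (bs F P.D (g1 ^ j • z)) := by
      rw [pow_add, mul_smul, ← hsb hG.geo hG.isom hs1 hD1 (g1 ^ i) z,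
        ← hsb hG.geo hG.isom hs1 hD1 (g1 ^ i) (g1 ^ j • z)]
      exact hCI _ _ _
    unfold Btw at e1
    rw [e2] at e1
    exact e1
  -- from `z` to `x`
  have hxz : qd (Ker F) (cd F P.D d P.s) x (bs F P.D z) ≤ P.Λ + 6 * E + 2 := by
    have e1 := hle hG hF hT x (bs F P.D z) 1 (one_mem _)
    rw [one_smul] at e1
    have e2 := hCG.tri x (bs F P.D u) (bs F P.D z)
    have e3 := hcb (F := F) (D := P.D) hG.geo hG.isom hs1 hD1 u z
    have e4 : d u z / P.s ≤ 6 * E + 1 := by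
      rw [Nat.div_le_iff_le_mul_add_pred hs1]
      have e5 : P.s * (6 * E + 1) = 6 * R + P.s := by
        rw [hR]
        ring
      rw [e5]
      omega
    omega
  intro i j
  have tr : ∀ m : ℕ, qd (Ker F) (cd F P.D d P.s) x (g ^ m • x) ≤
      qd (Ker F) (cd F P.D d P.s) (bs F P.D z) (g ^ m • bs F P.D z) + 2 * (P.Λ + 6 * E + 2) ∧
      qd (Ker F) (cd F P.D d P.s) (bs F P.D z) (g ^ m • bs F P.D z) ≤
      qd (Ker F) (cd F P.D d P.s) x (g ^ m • x) + 2 * (P.Λ + 6 * E + 2) := by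
    intro m
    have e1 := hQG.tri x (bs F P.D z) (g ^ m • x)
    have e2 := hQG.tri (bs F P.D z) (g ^ m • bs F P.D z) (g ^ m • x)
    have e3 := hQG.tri (bs F P.D z) x (g ^ m • bs F P.D z)
    have e4 := hQG.tri x (g ^ m • x) (g ^ m • bs F P.D z)
    have e5 := hQI (g ^ m) x (bs F P.D z)
    have e6 := hQI (g ^ m) (bs F P.D z) x
    have e7 := hQG.symm x (bs F P.D z)
    omega
  have t1 := tr i
  have t2 := tr j
  have t3 := tr (i + j)
  have t4 := hthick i j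
  omega

end Mon
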