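import Pool.Agent.Work.MP_6f5fa7_al.Mon.StAct
import Pool.Agent.Work.MP_6f5fa7_al.Mon.StCone

/-! Mon, item A16: exits and angles in the quotient (helper51). -/
set_option autoImplicit false

namespace Mon

private theorem a16_D (P : Par) : 1 ≤ P.D := by
  have h1 := P.h1
  have h2 := P.hδ
  have h3 := P.hΛs
  have h4 := P.hΛ
  have h5 := P.hA0
  have h6 := P.hD
  have h7 : 1 ≤ Ex (1000 * P.Λ) := by
    unfold Ex
    have : 1 ≤ 1000 * P.Λ := by omega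
    have h8 : 1 ≤ 2 ^ (1000 * P.Λ) := Nat.one_le_two_pow
    calc 1 = 1 * 1 := rfl
      _ ≤ _ := Nat.mul_le_mul this h8
  omega

private theorem a16_s (P : Par) : 1 ≤ P.s := by
  have h0 := a16_D P
  have h1 := P.hA
  have h2 := P.hs
  omega

section
variable {G X : Type} [Group G] [MulAction G X] {d : X → X → ℕ} {P : Par} {F : Fam G X} {T M : ℕ}

/-- closed polygons in the quotient lift to closed polygons -/
private theorem a16_poly (H1 : S.poly_lift) (H2 : S.qd_att) (H3 : S.cone_isom)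
    (hG : P.St G d M) (hF : FamOK P d F T) (hT : P.TT2 ≤ T)
    (m : ℕ) (hm : m ≤ 20) (x : ℕ → Cone F P.D) (h0 : NA (x 0)) (h1 : x m = x 0) :
    ∃ x' : ℕ → Cone F P.D, x' 0 = x 0 ∧ x' m = x 0 ∧
      (∀ i, i ≤ m → ∃ κ ∈ Ker F, x' i = κ • x i) ∧
      ∀ i, i < m → cd F P.D d P.s (x' i) (x' (i + 1)) ≤
        qd (Ker F) (cd F P.D d P.s) (x i) (x (i + 1)) := by
  have hatt := fun p q => H2 hG hF hT p q
  have hci : Isom G (cd F P.D d P.s) := H3 hG.geo hG.isom (a16_s P) (a16_D P)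
  choose k hk hk2 using hatt
  let κ : ℕ → G := fun i => Nat.rec (1 : G) (fun j r => r * k (x j) (x (j + 1))) i
  have hκ0 : κ 0 = 1 := rfl
  have hκs : ∀ i, κ (i + 1) = κ i * k (x i) (x (i + 1)) := fun i => rfl
  have hκm : ∀ i, κ i ∈ Ker F := by
    intro i
    induction i with
    | zero => rw [hκ0]; exact Subgroup.one_mem _
    | succ i ih => rw [hκs]; exact Subgroup.mul_mem _ ih (hk _ _)
  obtain ⟨p', hp0, hpm, hpk, hpd⟩ := H1 hG hF hT m hm (fun i => κ i • x i) (κ m) (hκm m)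
    (by simpa only [hκ0, one_smul] using h0)
    (by simp only [hκ0, one_smul, h1])
  refine ⟨p', ?_, ?_, ?_, ?_⟩
  · simpa only [hκ0, one_smul] using hp0
  · simpa only [hκ0, one_smul] using hpm
  · intro i hi
    obtain ⟨a, ha, hb⟩ := hpk i hi
    exact ⟨a * κ i, Subgroup.mul_mem _ ha (hκm i), by rw [hb, mul_smul]⟩
  · intro i hi
    refine (hpd i hi).trans ?_
    rw [hκs, mul_smul, hci]
    exact (hk2 _ _).le

private theorem a16_na (H1 : S.cd_vt_ap) (H2 : S.ap_ap) (H3 : S.cone_geo)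
    (hG : P.St G d M) (c : F.C) (y : F.Y c) : NA (vt F P.D c y P.D) := by
  intro c' h
  have hs := a16_s P
  have hD := a16_D P
  have h1 := H1 (F := F) hG.geo hG.isom hs hD c y P.D (by omega)
  rw [h] at h1
  by_cases hc : c' = c
  · subst hc
    rw [(H3 hG.geo hG.isom hs hD).self] at h1
    omega
  · have := H2 (F := F) hG.geo hG.isom hs hD c' c hc
    omega


private theorem a16_vt {D k : ℕ} {c c' : F.C} (hc : c = c') (y : F.Y c) (y' : F.Y c')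
    (h : y.1 = y'.1) : vt F D c y k = vt F D c' y' k := by
  subst hc
  rw [Subtype.ext h]

/-- `qd` of the top vertex and the apex is at most one -/
private theorem a16_one (H1 : S.cd_vt_ap) (H2 : S.qd_le)
    (hG : P.St G d M) (hF : FamOK P d F T) (hT : P.TT2 ≤ T) (c : F.C) (y : F.Y c) :
    cd F P.D d P.s (vt F P.D c y P.D) (ap F P.D c) = 1 ∧
    qd (Ker F) (cd F P.D d P.s) (vt F P.D c y P.D) (ap F P.D c) ≤ 1 := by
  have hs := a16_s P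
  have hD := a16_D P
  have h1 := H1 (F := F) hG.geo hG.isom hs hD c y P.D (by omega)
  have h2 := H2 hG hF hT (vt F P.D c y P.D) (ap F P.D c) 1 (Subgroup.one_mem _)
  rw [one_smul] at h2
  constructor <;> omega

private theorem a16_le (H2 : S.qd_le)
    (hG : P.St G d M) (hF : FamOK P d F T) (hT : P.TT2 ≤ T) (p q : Cone F P.D) :
    qd (Ker F) (cd F P.D d P.s) p q ≤ cd F P.D d P.s p q := by
  have h2 := H2 hG hF hT p q 1 (Subgroup.one_mem _)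
  rwa [one_smul] at h2

/-- replacing points by translates does not change `qd` -/
private theorem a16_l (Hg : S.qd_geo) (Hz : S.qd_zero)
    (hG : P.St G d M) (hF : FamOK P d F T) (hT : P.TT2 ≤ T) (κ : G) (hκ : κ ∈ Ker F)
    (p q : Cone F P.D) :
    qd (Ker F) (cd F P.D d P.s) (κ • p) q = qd (Ker F) (cd F P.D d P.s) p q := by
  have g := Hg hG hF hT
  have h1 := g.tri (κ • p) p q
  have h2 := g.tri p (κ • p) q
  have h3 := Hz hG hF hT κ hκ p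
  have h4 := g.symm p (κ • p)
  omega

/-- the common lifting lemma: a chain `p, z, q` and exits `y` of `p`, `y'` of `q` -/
private theorem a16_quad (H1 : S.poly_lift) (H2 : S.qd_att) (H3 : S.cone_isom) (H4 : S.cone_geo)
    (H5 : S.cd_vt_ap) (H6 : S.ap_ap) (H7 : S.qd_le) (H8 : S.smul_vt) (H9 : S.smul_ap)
    (H10 : S.ker_stab) (Hg : S.qd_geo) (Hz : S.qd_zero)
    (hG : P.St G d M) (hF : FamOK P d F T) (hT : P.TT2 ≤ T)
    (c : F.C) (p z q : Cone F P.D) (y y' : X)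
    (h : y ∈ Exi F P.D (qd (Ker F) (cd F P.D d P.s)) c p)
    (h' : y' ∈ Exi F P.D (qd (Ker F) (cd F P.D d P.s)) c q) :
    ∃ r ∈ F.R c, ∃ κ1 ∈ Ker F, ∃ κ2 ∈ Ker F, ∃ κ3 ∈ Ker F,
      y ∈ Exi F P.D (cd F P.D d P.s) c (κ1 • p) ∧
      r • y' ∈ Exi F P.D (cd F P.D d P.s) c (κ3 • q) ∧
      cd F P.D d P.s (κ1 • p) (κ2 • z) ≤ qd (Ker F) (cd F P.D d P.s) p z ∧
      cd F P.D d P.s (κ2 • z) (κ3 • q) ≤ qd (Ker F) (cd F P.D d P.s) z q := by
  have hs := a16_s P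
  have hD := a16_D P
  have hci : Isom G (cd F P.D d P.s) := H3 hG.geo hG.isom hs hD
  have cg : Geo (cd F P.D d P.s) := H4 hG.geo hG.isom hs hD
  have g := Hg hG hF hT
  obtain ⟨y0, rfl, hy⟩ := h
  obtain ⟨y0', rfl, hy'⟩ := h'
  have o1 := a16_one H5 H7 hG hF hT c y0
  have o2 := a16_one H5 H7 hG hF hT c y0'
  obtain ⟨x', hx0, hx6, hxk, hxd⟩ := a16_poly H1 H2 H3 hG hF hT 6 (by norm_num)
    (fun i => match i with
      | 0 => vt F P.D c y0 P.D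
      | 1 => p
      | 2 => z
      | 3 => q
      | 4 => vt F P.D c y0' P.D
      | 5 => ap F P.D c
      | _ => vt F P.D c y0 P.D) (a16_na H5 H6 H4 hG c y0) rfl
  have d0 := hxd 0 (by norm_num)
  have d1 := hxd 1 (by norm_num)
  have d2 := hxd 2 (by norm_num)
  have d3 := hxd 3 (by norm_num)
  have d4 := hxd 4 (by norm_num)
  have d5 := hxd 5 (by norm_num)
  obtain ⟨κ1, k1, e1⟩ := hxk 1 (by norm_num)
  obtain ⟨κ2, k2, e2⟩ := hxk 2 (by norm_num)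
  obtain ⟨κ3, k3, e3⟩ := hxk 3 (by norm_num)
  obtain ⟨κ4, k4, e4⟩ := hxk 4 (by norm_num)
  obtain ⟨κ5, k5, e5⟩ := hxk 5 (by norm_num)
  simp only [Nat.reduceAdd, zero_add] at d0 d1 d2 d3 d4 d5 hx0 hx6 e1 e2 e3 e4 e5
  rw [hx0, e1] at d0
  rw [e1, e2] at d1
  rw [e2, e3] at d2
  rw [e3, e4] at d3
  rw [e4, e5] at d4
  rw [e5, hx6] at d5
  -- the lift of the apex is the apex
  have s5 : κ5 • ap F P.D c = ap F P.D (κ5 • c) := H9 hG.geo hG.isom hs hD κ5 c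
  have c5 : κ5 • c = c := by
    by_contra hne
    have t1 := H6 (F := F) hG.geo hG.isom hs hD (κ5 • c) c hne
    have t2 := cg.tri (ap F P.D (κ5 • c)) (vt F P.D c y0 P.D) (ap F P.D c)
    rw [s5] at d5
    have t3 := g.symm (ap F P.D c) (vt F P.D c y0 P.D)
    omega
  rw [c5] at s5
  rw [s5] at d4 d5
  have s4 : κ4 • vt F P.D c y0' P.D = vt F P.D (κ4 • c) ⟨κ4 • y0'.1, F.Y_smul κ4 c y0'.1 y0'.2⟩ P.D :=
    H8 hG.geo hG.isom hs hD κ4 c y0' P.D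
  have s4a : κ4 • ap F P.D c = ap F P.D (κ4 • c) := H9 hG.geo hG.isom hs hD κ4 c
  have c4 : κ4 • c = c := by
    by_contra hne
    have t1 := H6 (F := F) hG.geo hG.isom hs hD (κ4 • c) c hne
    have t2 := cg.tri (ap F P.D (κ4 • c)) (κ4 • vt F P.D c y0' P.D) (ap F P.D c)
    have t3 := hci κ4 (ap F P.D c) (vt F P.D c y0' P.D)
    rw [s4a] at t3
    have t4 := cg.symm (ap F P.D c) (vt F P.D c y0' P.D)
    omega
  have hr : κ4 ∈ F.R c := H10 hG hF hT c κ4 k4 c4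
  have hYr : κ4 • y0'.1 ∈ F.Y c := by
    have := F.Y_smul κ4 c y0'.1 y0'.2
    rwa [c4] at this
  have s4' : κ4 • vt F P.D c y0' P.D = vt F P.D c ⟨κ4 • y0'.1, hYr⟩ P.D := by
    rw [s4]
    exact a16_vt c4 _ _ rfl
  refine ⟨κ4, hr, κ1, k1, κ2, k2, κ3, k3, ?_, ?_, d1, d2⟩
  · refine ⟨y0, rfl, ?_⟩
    have t1 := a16_le H7 hG hF hT (κ1 • p) (ap F P.D c)
    rw [a16_l Hg Hz hG hF hT κ1 k1] at t1
    have t2 := cg.tri (κ1 • p) (vt F P.D c y0 P.D) (ap F P.D c)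
    have t3 := cg.symm (vt F P.D c y0 P.D) (κ1 • p)
    have t4 := g.symm (vt F P.D c y0 P.D) p
    omega
  · refine ⟨⟨κ4 • y0'.1, hYr⟩, rfl, ?_⟩
    rw [← s4']
    have t1 := a16_le H7 hG hF hT (κ3 • q) (ap F P.D c)
    rw [a16_l Hg Hz hG hF hT κ3 k3] at t1
    have t2 := cg.tri (κ3 • q) (κ4 • vt F P.D c y0' P.D) (ap F P.D c)
    have t5 := hci κ4 (vt F P.D c y0' P.D) (ap F P.D c)
    rw [s4a, c4] at t5
    omega

end

theorem exitQ_smul (Hi : S.qd_isom) (H8 : S.smul_vt) (H9 : S.smul_ap) : S.exitQ_smul := by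
  intro G X _ _ d P F T M hG hF hT g c p y h
  obtain ⟨y0, rfl, hy⟩ := h
  have hs := a16_s P
  have hD := a16_D P
  have hi := Hi hG hF hT
  refine ⟨⟨g • y0.1, F.Y_smul g c y0.1 y0.2⟩, rfl, ?_⟩
  have s4 : g • vt F P.D c y0 P.D = vt F P.D (g • c) ⟨g • y0.1, F.Y_smul g c y0.1 y0.2⟩ P.D :=
    H8 hG.geo hG.isom hs hD g c y0 P.D
  have s4a : g • ap F P.D c = ap F P.D (g • c) := H9 hG.geo hG.isom hs hD g c
  rw [← s4, ← s4a, hi, hi]
  exact hy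

theorem exitQ_ker (Hg : S.qd_geo) (Hz : S.qd_zero) : S.exitQ_ker := by
  intro G X _ _ d P F T M hG hF hT κ hκ c p y h
  obtain ⟨y0, rfl, hy⟩ := h
  refine ⟨y0, rfl, ?_⟩
  rw [a16_l Hg Hz hG hF hT κ hκ, a16_l Hg Hz hG hF hT κ hκ]
  exact hy

theorem exitQ_ne (H1 : S.exit_ne) (H2 : S.qd_att) (H3 : S.cone_isom) (H5 : S.cd_vt_ap)
    (H7 : S.qd_le) (H8 : S.smul_vt) (H9 : S.smul_ap) (Hg : S.qd_geo) : S.exitQ_ne := by
  intro G X _ _ d P F T M hG hF hT c p h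
  have hs := a16_s P
  have hD := a16_D P
  have hci : Isom G (cd F P.D d P.s) := H3 hG.geo hG.isom hs hD
  have g := Hg hG hF hT
  obtain ⟨κ, hκ, h1⟩ := H2 hG hF hT p (ap F P.D c)
  have s4a : κ • ap F P.D c = ap F P.D (κ • c) := H9 hG.geo hG.isom hs hD κ c
  rw [s4a] at h1
  obtain ⟨x, y, rfl, hy⟩ := H1 hG hF hT (κ • c) p (by rw [← s4a]; exact h κ hκ)
  have hY : κ⁻¹ • y.1 ∈ F.Y c := by
    have := F.Y_smul κ⁻¹ (κ • c) y.1 y.2
    rwa [inv_smul_smul] at this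
  have s4 : κ⁻¹ • vt F P.D (κ • c) y P.D = vt F P.D (κ⁻¹ • κ • c)
      ⟨κ⁻¹ • y.1, F.Y_smul κ⁻¹ (κ • c) y.1 y.2⟩ P.D :=
    H8 hG.geo hG.isom hs hD κ⁻¹ (κ • c) y P.D
  have s5 : κ⁻¹ • vt F P.D (κ • c) y P.D = vt F P.D c ⟨κ⁻¹ • y.1, hY⟩ P.D := by
    rw [s4]
    exact a16_vt (inv_smul_smul κ c) _ _ rfl
  refine ⟨κ⁻¹ • y.1, ⟨κ⁻¹ • y.1, hY⟩, rfl, ?_⟩
  have t1 := H7 hG hF hT p (vt F P.D c ⟨κ⁻¹ • y.1, hY⟩ P.D) κ hκ
  have s6 : κ • vt F P.D c ⟨κ⁻¹ • y.1, hY⟩ P.D = vt F P.D (κ • c) y P.D := by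
    rw [← s5, smul_inv_smul]
  rw [s6] at t1
  have t2 := g.tri p (vt F P.D c ⟨κ⁻¹ • y.1, hY⟩ P.D) (ap F P.D c)
  have t3 := a16_one H5 H7 hG hF hT c ⟨κ⁻¹ • y.1, hY⟩
  omega

theorem exitQ_small (H1 : S.poly_lift) (H2 : S.qd_att) (H3 : S.cone_isom) (H4 : S.cone_geo)
    (H5 : S.cd_vt_ap) (H6 : S.ap_ap) (H7 : S.qd_le) (H8 : S.smul_vt) (H9 : S.smul_ap)
    (H10 : S.ker_stab) (Hg : S.qd_geo) (Hz : S.qd_zero) (He : S.exit_small) :
    S.exitQ_small := by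
  intro G X _ _ d P F T M hG hF hT c p y y' h h'
  have hs := a16_s P
  have hD := a16_D P
  have cg : Geo (cd F P.D d P.s) := H4 hG.geo hG.isom hs hD
  have g := Hg hG hF hT
  obtain ⟨r, hr, κ1, k1, κ2, k2, κ3, k3, a1, a2, a3, a4⟩ :=
    a16_quad H1 H2 H3 H4 H5 H6 H7 H8 H9 H10 Hg Hz hG hF hT c p p p y y' h h'
  rw [g.self] at a3 a4
  have a5 : cd F P.D d P.s (κ1 • p) (κ3 • p) = 0 := by
    have := cg.tri (κ1 • p) (κ2 • p) (κ3 • p)
    omega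
  refine ⟨r, hr, ?_⟩
  have key : ∀ v, cd F P.D d P.s (κ1 • p) v = cd F P.D d P.s (κ3 • p) v := by
    intro v
    have b1 := cg.tri (κ1 • p) (κ3 • p) v
    have b2 := cg.tri (κ3 • p) (κ1 • p) v
    have b3 := cg.symm (κ1 • p) (κ3 • p)
    omega
  have a6 : r • y' ∈ Exi F P.D (cd F P.D d P.s) c (κ1 • p) := by
    obtain ⟨y0, hy0, hy1⟩ := a2
    exact ⟨y0, hy0, by rw [key, key]; exact hy1⟩
  refine (He hG hF hT c (κ1 • p) y (r • y') a1 a6).trans ?_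
  unfold Par.θ
  have e : P.δ1 * (P.s * 2 ^ P.D) ≤ (2 * (12 * P.δ1 + 6)) * (P.s * 2 ^ P.D) :=
    Nat.mul_le_mul_right _ (by omega)
  rw [mul_assoc 2] at e
  exact e

theorem angQ_thru (H1 : S.poly_lift) (H2 : S.qd_att) (H3 : S.cone_isom) (H4 : S.cone_geo)
    (H5 : S.cd_vt_ap) (H6 : S.ap_ap) (H7 : S.qd_le) (H8 : S.smul_vt) (H9 : S.smul_ap)
    (H10 : S.ker_stab) (Hg : S.qd_geo) (Hz : S.qd_zero) (Ht : S.ang_thru) :
    S.angQ_thru := by
  intro G X _ _ d P F T M hG hF hT c p q t ht h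
  have hs := a16_s P
  have hD := a16_D P
  have cg : Geo (cd F P.D d P.s) := H4 hG.geo hG.isom hs hD
  have g := Hg hG hF hT
  obtain ⟨y, hy, y', hy', hyy⟩ := h
  have key : ∀ z, Btw (qd (Ker F) (cd F P.D d P.s)) p z q 0 →
      qd (Ker F) (cd F P.D d P.s) p q = qd (Ker F) (cd F P.D d P.s) p (ap F P.D c) +
        qd (Ker F) (cd F P.D d P.s) (ap F P.D c) q ∧
      (Btw (qd (Ker F) (cd F P.D d P.s)) p z (ap F P.D c) 0 ∨
        Btw (qd (Ker F) (cd F P.D d P.s)) (ap F P.D c) z q 0) := by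
    intro z hz
    obtain ⟨r, hr, κ1, k1, κ2, k2, κ3, k3, a1, a2, a3, a4⟩ :=
      a16_quad H1 H2 H3 H4 H5 H6 H7 H8 H9 H10 Hg Hz hG hF hT c p z q y y' hy hy'
    have hth := Ht hG hF hT c (κ1 • p) (κ3 • q) t ht ⟨y, a1, r • y', a2, hyy r hr⟩
    obtain ⟨b1, b2⟩ := hth
    have c1 := a16_le H7 hG hF hT (κ1 • p) (ap F P.D c)
    rw [a16_l Hg Hz hG hF hT κ1 k1] at c1
    have c2 := a16_le H7 hG hF hT (κ3 • q) (ap F P.D c)
    rw [a16_l Hg Hz hG hF hT κ3 k3] at c2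
    have c3 := cg.tri (κ1 • p) (κ2 • z) (κ3 • q)
    have c4 := cg.symm (κ3 • q) (ap F P.D c)
    have c5 := g.symm q (ap F P.D c)
    have c6 := g.tri p (ap F P.D c) q
    have c7 := b2 (κ2 • z)
    have c8 := a16_le H7 hG hF hT (κ2 • z) (ap F P.D c)
    rw [a16_l Hg Hz hG hF hT κ2 k2] at c8
    have c9 := cg.symm (κ2 • z) (ap F P.D c)
    have c10 := g.symm z (ap F P.D c)
    have c11 := g.tri p z q
    unfold Btw at hz c7 ⊢
    refine ⟨by omega, ?_⟩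
    rcases c7 (by omega) with c7 | c7
    · left; omega
    · right; omega
  refine ⟨(key p ?_).1, fun z hz => (key z hz).2⟩
  unfold Btw
  rw [g.self]
  omega

theorem exitQ_btw (H5 : S.cd_vt_ap) (H7 : S.qd_le) (Hg : S.qd_geo) : S.exitQ_btw := by
  intro G X _ _ d P F T M hG hF hT c c' p hc h y hy
  have g := Hg hG hF hT
  obtain ⟨y0, rfl, hy⟩ := hy
  refine ⟨y0, rfl, ?_⟩
  have o1 := a16_one H5 H7 hG hF hT c y0
  have t1 := g.tri p (ap F P.D c') (vt F P.D c y0 P.D)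
  have t2 := g.tri p (vt F P.D c y0 P.D) (ap F P.D c)
  unfold Btw at h
  omega

theorem exitQ_thru (H5 : S.cd_vt_ap) (H7 : S.qd_le) (Hg : S.qd_geo) (Ha : S.qd_ap) :
    S.exitQ_thru := by
  intro G X _ _ d P F T M hG hF hT c c' p hc h y hy
  have g := Hg hG hF hT
  obtain ⟨y0, rfl, hy⟩ := hy
  refine ⟨y0, rfl, ?_⟩
  have o1 := a16_one H5 H7 hG hF hT c y0
  obtain ⟨h1, h2⟩ := h
  have h3 := Ha hG hF hT c' c (fun κ hκ => hc κ hκ)
  have t1 := g.tri (ap F P.D c') (vt F P.D c y0 P.D) (ap F P.D c)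
  have t2 := g.tri p (vt F P.D c y0 P.D) (ap F P.D c)
  have t3 := h2 (vt F P.D c y0 P.D)
  unfold Btw at t3
  rcases t3 (by omega) with t3 | t3
  · omega
  · omega

theorem angQ_tri (H1 : S.exitQ_ne) : S.angQ_tri := by
  intro G X _ _ d P F T M hG hF hT c p q r t t1 t2 h h1 ht
  obtain ⟨y, hy, y', hy', hyy⟩ := h1
  obtain ⟨z, hz⟩ := H1 hG hF hT c q h
  by_cases ha : ∀ ρ ∈ F.R c, t1 ≤ d y (ρ • z)
  · exact Or.inl ⟨y, hy, z, hz, ha⟩
  by_cases hb : ∀ ρ ∈ F.R c, t2 ≤ d z (ρ • y')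
  · exact Or.inr ⟨z, hz, y', hy', hb⟩
  exfalso
  push Not at ha hb
  obtain ⟨ρ1, k1, a1⟩ := ha
  obtain ⟨ρ2, k2, a2⟩ := hb
  have b1 := hG.geo.tri y (ρ1 • z) ((ρ1 * ρ2) • y')
  have b2 := hG.isom ρ1 z (ρ2 • y')
  rw [← mul_smul] at b2
  have b3 := hyy (ρ1 * ρ2) (Subgroup.mul_mem _ k1 k2)
  omega

theorem angQ_smul (H1 : S.exitQ_smul) : S.angQ_smul := by
  intro G X _ _ d P F T M hG hF hT g c p q t h
  obtain ⟨y, hy, y', hy', hyy⟩ := h
  refine ⟨g • y, H1 hG hF hT g c p y hy, g • y', H1 hG hF hT g c q y' hy', ?_⟩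
  intro r hr
  have h1 := F.R_smul g⁻¹ (g • c) r hr
  rw [inv_smul_smul, inv_inv] at h1
  have h2 := hyy _ h1
  have h3 := hG.isom g y ((g⁻¹ * r * g) • y')
  rw [← mul_smul] at h3
  have e : g * (g⁻¹ * r * g) = r * g := by group
  rw [e, mul_smul] at h3
  omega

end Mon
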