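import Pool.Agent.Work.MP_6f5fa7_al.Mon.ConeDefs
import Pool.Agent.Work.MP_6f5fa7_al.Mon.StTool
import Pool.Agent.Work.MP_6f5fa7_al.Mon.StCone
import Pool.Agent.Work.MP_6f5fa7_al.Mon.StHyp
import Pool.Agent.Work.MP_6f5fa7_al.Mon.StAct

/-! Mon, item A2: large angles force geodesics through the apex (helper95). -/
set_option autoImplicit false

namespace Mon

/-- a geodesic path between two points -/
private theorem ang_thru_path {V : Type} {e : V → V → ℕ} (hg : Geo e) :
    ∀ (n : ℕ) (x y : V), e x y = n → ∃ γ : ℕ → V, γ 0 = x ∧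
      (∀ i, i ≤ n → e (γ i) y = n - i) ∧ ∀ i, i < n → e (γ i) (γ (i + 1)) ≤ 1 := by
  intro n
  induction n with
  | zero =>
    intro x y h
    refine ⟨fun _ => x, rfl, ?_, ?_⟩
    · intro i hi
      have h0 : i = 0 := by omega
      subst h0
      simpa using h
    · intro i hi
      omega
  | succ n ih =>
    intro x y h
    obtain ⟨u, hu1, hu2⟩ := hg.geo x y 1 (by omega)
    obtain ⟨γ, h0, h1, h2⟩ := ih u y (by omega)
    refine ⟨fun i => if i = 0 then x else γ (i - 1), by simp, ?_, ?_⟩
    · intro i hi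
      rcases Nat.eq_zero_or_pos i with h0 | h0
      · subst h0
        simpa using h
      · have h3 : i ≠ 0 := by omega
        simp only [h3, if_false]
        rw [h1 (i - 1) (by omega)]
        omega
    · intro i hi
      rcases Nat.eq_zero_or_pos i with h3 | h3
      · subst h3
        simp only [if_true, Nat.zero_add, one_ne_zero, if_false, Nat.sub_self]
        rw [h0]
        omega
      · have h4 : i ≠ 0 := by omega
        have h5 : i + 1 ≠ 0 := by omega
        simp only [h4, h5, if_false]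
        have h6 : i + 1 - 1 = (i - 1) + 1 := by omega
        rw [h6]
        exact h2 (i - 1) (by omega)

/-- a geodesic path from `p` to `q` through a given point `z` between them -/
private theorem ang_thru_geod {V : Type} {e : V → V → ℕ} (hg : Geo e) (p z q : V)
    (h : Btw e p z q 0) :
    ∃ γ : ℕ → V, (∀ i, i ≤ e p q → e p (γ i) = i ∧ e (γ i) q = e p q - i) ∧
      (∀ i, i < e p q → e (γ i) (γ (i + 1)) ≤ 1) ∧
      (∀ k i, i + k ≤ e p q → e (γ i) (γ (i + k)) ≤ k) ∧ γ (e p z) = z := by
  have hL : e p z + e z q = e p q := by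
    have h1 := hg.tri p z q
    unfold Btw at h
    omega
  obtain ⟨γ1, a0, a1, a2⟩ := ang_thru_path hg (e p z) p z rfl
  obtain ⟨γ2, b0, b1, b2⟩ := ang_thru_path hg (e z q) z q rfl
  have hstep : ∀ i, i < e p q →
      e (if i < e p z then γ1 i else γ2 (i - e p z))
        (if i + 1 < e p z then γ1 (i + 1) else γ2 (i + 1 - e p z)) ≤ 1 := by
    intro i hi
    by_cases h1 : i + 1 < e p z
    · have h2 : i < e p z := by omega
      simp only [h1, h2, if_true]
      exact a2 i h2
    · by_cases h2 : i < e p z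
      · simp only [h1, h2, if_true, if_false]
        have h3 : i + 1 - e p z = 0 := by omega
        rw [h3, b0, a1 i (by omega)]
        omega
      · simp only [h1, h2, if_false]
        have h3 : i + 1 - e p z = (i - e p z) + 1 := by omega
        rw [h3]
        exact b2 _ (by omega)
  have hz : (if e p z < e p z then γ1 (e p z) else γ2 (e p z - e p z)) = z := by
    simp [b0]
  obtain ⟨γ, hγ⟩ : ∃ γ : ℕ → V, γ = fun i => if i < e p z then γ1 i else γ2 (i - e p z) :=
    ⟨_, rfl⟩
  have hs' : ∀ i, i < e p q → e (γ i) (γ (i + 1)) ≤ 1 := by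
    intro i hi
    rw [hγ]
    exact hstep i hi
  have hz' : γ (e p z) = z := by
    rw [hγ]
    exact hz
  have hk : ∀ k i, i + k ≤ e p q → e (γ i) (γ (i + k)) ≤ k := by
    intro k
    induction k with
    | zero =>
      intro i _
      rw [Nat.add_zero, hg.self]
    | succ k ih =>
      intro i hi
      have h1 := ih i (by omega)
      have h2 := hs' (i + k) (by omega)
      have h3 := hg.tri (γ i) (γ (i + k)) (γ (i + k + 1))
      have h4 : i + (k + 1) = i + k + 1 := by omega
      rw [h4]
      omega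
  have hp0 : e p (γ 0) = 0 := by
    rw [hγ]
    by_cases h1 : 0 < e p z
    · simp only [h1, if_true]
      rw [a0, hg.self]
    · have h2 : e p z = 0 := by omega
      simp [h2, b0]
  have hq0 : e (γ (e p q)) q = 0 := by
    have h1 : ¬ e p q < e p z := by omega
    have h2 : e p q - e p z = e z q := by omega
    rw [hγ]
    simp only [h1, if_false]
    rw [h2, b1 _ le_rfl]
    omega
  refine ⟨γ, ?_, hs', hk, hz'⟩
  intro i hi
  have h1 := hk i 0 (by omega)
  have h2 := hk (e p q - i) i (by omega)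
  have h3 : i + (e p q - i) = e p q := by omega
  rw [Nat.zero_add] at h1
  rw [h3] at h2
  have h4 := hg.tri p (γ 0) (γ i)
  have h5 := hg.tri (γ i) (γ (e p q)) q
  have h6 := hg.tri p (γ i) q
  constructor <;> omega

/-- numerical consequences of the inequalities between the parameters -/
private theorem ang_thru_num (P : Par) : 1 ≤ P.s ∧ 100 * P.δ1 + 100 ≤ P.D := by
  have h1 := P.h1
  have h2 := P.hδ
  have h3 := P.hΛs
  have h4 := P.hΛ
  have h5 := P.hA0
  have h6 := P.hD
  have h7 := P.hA
  have h8 := P.hs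
  have h9 : 1000 * P.Λ ≤ Ex (1000 * P.Λ) := by
    unfold Ex
    exact Nat.le_mul_of_pos_right _ (Nat.two_pow_pos _)
  constructor <;> omega

section
variable {G X : Type} [Group G] [MulAction G X] {d : X → X → ℕ} {s D : ℕ} {F : Fam G X}

private theorem ang_thru_sh (c : F.C) (y : F.Y c) (k : ℕ) (h1 : 1 ≤ k) (h2 : k ≤ D) :
    sh F D (vt F D c y k) = y.1 := by
  have h0 : k ≠ 0 := by omega
  simp [sh, vt, h0, h2, shr]

private theorem ang_thru_vt1 (c : F.C) (y : F.Y c) (k : ℕ) (h1 : 1 ≤ k) (h2 : k ≤ D) :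
    (vt F D c y k).1 = CV.cone c y.1 k := by
  have h0 : k ≠ 0 := by omega
  simp [vt, h0, h2]

/-- a neighbour of `vt c y k` of smaller level is `vt c y (k-1)` -/
private theorem ang_thru_nbr (c : F.C) (y : F.Y c) (k : ℕ) (h1 : 1 ≤ k) (h2 : k ≤ D)
    (u : Cone F D) (hu : cd F D d s u (vt F D c y k) = 1) (hl : lev F D c u < k) :
    u = vt F D c y (k - 1) := by
  have hne : {n | Chain (cadj F D d s) n u (vt F D c y k)}.Nonempty := by
    apply Nat.nonempty_of_pos_sInf
    unfold cd rdist at hu
    omega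
  have hmem := Nat.sInf_mem hne
  have hc : Chain (cadj F D d s) 1 u (vt F D c y k) := by
    have h3 : sInf {n | Chain (cadj F D d s) n u (vt F D c y k)} = 1 := hu
    rw [h3] at hmem
    exact hmem
  obtain ⟨w, hw1, hw2⟩ := hc
  change w = _ at hw2
  subst hw2
  unfold cadj at hw1
  rw [ang_thru_vt1 c y k h1 h2] at hw1
  apply Subtype.ext
  obtain ⟨u, huv⟩ := u
  simp only at hw1
  unfold lev at hl
  simp only at hl
  have hgoal : (u = CV.base y.1 ∧ k = 1) ∨ (2 ≤ k ∧ u = CV.cone c y.1 (k - 1)) := by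
    rcases hw1 with hw1 | hw1
    · cases hw1 with
      | hor _ y1 _ _ h => simp [levr] at hl
      | up0 => exact Or.inl ⟨rfl, rfl⟩
      | up _ _ k' =>
        have h3 : 1 ≤ k' := huv.2.1
        exact Or.inr ⟨by omega, rfl⟩
    · cases hw1 with
      | hor _ y1 _ _ h => simp [levr] at hl
      | up _ _ k' => simp [levr] at hl
      | top => simp [levr] at hl
  rcases hgoal with ⟨h3, h4⟩ | ⟨h3, h4⟩
  · subst h4
    simp [h3, vt, bs]
  · rw [ang_thru_vt1 c y (k - 1) (by omega) (by omega)]
    exact h4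

/-- vertical points over an exit are on geodesics towards the apex -/
private theorem ang_thru_vert (cone_geo : S.cone_geo) (lev_lip : S.lev_lip) (lev_vt : S.lev_vt)
    (cd_vt_ap : S.cd_vt_ap) (eq_vt_of_lev : S.eq_vt_of_lev)
    (hg : Geo d) (hi : Isom G d) (hs : 1 ≤ s) (hD : 1 ≤ D) (c : F.C) (p : Cone F D) (y : F.Y c)
    (hy : cd F D d s p (vt F D c y D) + 1 = cd F D d s p (ap F D c)) :
    ∀ m k, k + m = D → lev F D c p ≤ k →
      cd F D d s p (vt F D c y k) + (D + 1 - k) = cd F D d s p (ap F D c) := by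
  have he : Geo (cd F D d s) := cone_geo (F := F) hg hi hs hD
  intro m
  induction m with
  | zero =>
    intro k hk hl
    have h1 : k = D := by omega
    subst h1
    omega
  | succ m ih =>
    intro k hk hl
    have h1 := ih (k + 1) (by omega) (by omega)
    have h2 := lev_lip (F := F) hg hi hs hD c (vt F D c y (k + 1)) p
    have h3 := lev_vt (F := F) hg hi hs hD c y (k + 1)
    have h4 := he.symm (vt F D c y (k + 1)) p
    obtain ⟨u, hu1, hu2⟩ := he.geo p (vt F D c y (k + 1))
      (cd F D d s p (vt F D c y (k + 1)) - 1) (by omega)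
    have h5 : cd F D d s u (vt F D c y (k + 1)) = 1 := by omega
    have h6 := he.tri p u (ap F D c)
    have h7 : lev F D c u < k + 1 := by
      by_contra hcon
      obtain ⟨y2, hy2, _⟩ := eq_vt_of_lev (F := F) hg hi hs hD c u (by omega)
      have h8 : lev F D c u ≤ D + 1 := by
        have h9 := lev_vt (F := F) hg hi hs hD c y2 (lev F D c u)
        rw [← hy2] at h9
        omega
      have h9 := cd_vt_ap (F := F) hg hi hs hD c y2 (lev F D c u) h8
      rw [← hy2] at h9
      omega
    have h8 := ang_thru_nbr c y (k + 1) (by omega) (by omega) u h5 h7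
    have h9 : k + 1 - 1 = k := by omega
    rw [h9] at h8
    rw [← h8, hu1]
    omega

/-- one side of the picture -/
private theorem ang_thru_side (cone_geo : S.cone_geo) (lev_lip : S.lev_lip) (lev_vt : S.lev_vt)
    (lev_ap : S.lev_ap) (cd_vt_ap : S.cd_vt_ap) (eq_vt_of_lev : S.eq_vt_of_lev) (stay : S.stay)
    (btw_split : S.btw_split) (btw_close : S.btw_close)
    (hg : Geo d) (hi : Isom G d) (hs : 1 ≤ s) (hD : 1 ≤ D) {δ1 : ℕ}
    (hh : Hyp δ1 (cd F D d s)) (hD1 : 100 * δ1 + 100 ≤ D) (c : F.C) (p : Cone F D) (y : F.Y c)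
    (hy : cd F D d s p (vt F D c y D) + 1 = cd F D d s p (ap F D c)) (g0 w : Cone F D)
    (h1 : cd F D d s g0 (ap F D c) ≤ 3 * δ1 + 1)
    (hw : cd F D d s p w = cd F D d s p (ap F D c) - (4 * δ1 + 3))
    (h2 : Btw (cd F D d s) p w g0 0) :
    d y.1 (sh F D w) ≤ 2 * δ1 * (s * 2 ^ D) := by
  have he : Geo (cd F D d s) := cone_geo (F := F) hg hi hs hD
  have hvert := ang_thru_vert cone_geo lev_lip lev_vt cd_vt_ap eq_vt_of_lev hg hi hs hD c p y hy
  have hla := lev_ap (F := F) hg hi hs hD c
  have hl1 := lev_lip (F := F) hg hi hs hD c (ap F D c) p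
  rw [he.symm (ap F D c) p, hla] at hl1
  have hlp : 1 ≤ lev F D c p → cd F D d s p (ap F D c) = D + 1 - lev F D c p ∧
      lev F D c p ≤ D + 1 := by
    intro h3
    obtain ⟨y2, hy2, _⟩ := eq_vt_of_lev (F := F) hg hi hs hD c p h3
    have h8 : lev F D c p ≤ D + 1 := by
      have h9 := lev_vt (F := F) hg hi hs hD c y2 (lev F D c p)
      rw [← hy2] at h9
      omega
    have h9 := cd_vt_ap (F := F) hg hi hs hD c y2 (lev F D c p) h8
    rw [← hy2] at h9
    exact ⟨h9, h8⟩
  by_cases ha : 4 * δ1 + 3 ≤ cd F D d s p (ap F D c)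
  · -- the vertical point at distance `4δ1+3` from the apex
    have hk : lev F D c p ≤ D + 1 - (4 * δ1 + 3) := by
      rcases Nat.eq_zero_or_pos (lev F D c p) with h3 | h3
      · omega
      · have h4 := hlp h3
        omega
    have h3 := hvert (4 * δ1 + 2) (D + 1 - (4 * δ1 + 3)) (by omega) hk
    have h4 := cd_vt_ap (F := F) hg hi hs hD c y (D + 1 - (4 * δ1 + 3)) (by omega)
    have h5 := lev_vt (F := F) hg hi hs hD c y (D + 1 - (4 * δ1 + 3))
    obtain ⟨v, hv⟩ : ∃ v, v = vt F D c y (D + 1 - (4 * δ1 + 3)) := ⟨_, rfl⟩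
    have hsv : sh F D v = y.1 := by
      rw [hv]
      exact ang_thru_sh c y _ (by omega) (by omega)
    rw [← hv] at h3 h4 h5
    have h6 : Btw (cd F D d s) p v (ap F D c) 0 := by
      unfold Btw
      omega
    have h7 := btw_split he hh h6 g0
    have h8 : Btw (cd F D d s) p v g0 (0 + δ1) := by
      rcases h7 with h7 | h7
      · exact h7
      · exfalso
        unfold Btw at h7
        omega
    have h9 : Btw (cd F D d s) p w g0 (0 + δ1) := by
      unfold Btw at h2 ⊢
      omega
    have h10 := btw_close he hh h8 h9 (j := 0) (by omega) (by omega)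
    have h11 := stay (F := F) hg hi hs hD c v w (2 * δ1) (by omega) (by omega) (by omega)
    rw [hsv] at h11
    refine le_trans h11 ?_
    apply Nat.mul_le_mul_left
    apply Nat.mul_le_mul_left
    apply Nat.pow_le_pow_right (by norm_num)
    omega
  · -- `p` itself is close to the apex
    have h3 : 1 ≤ lev F D c p := by omega
    have h4 := hlp h3
    have h5 := hvert (D - lev F D c p) (lev F D c p) (by omega) le_rfl
    have h6 := lev_vt (F := F) hg hi hs hD c y (lev F D c p)
    obtain ⟨v, hv⟩ : ∃ v, v = vt F D c y (lev F D c p) := ⟨_, rfl⟩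
    have hsv : sh F D v = y.1 := by
      rw [hv]
      exact ang_thru_sh c y _ (by omega) (by omega)
    rw [← hv] at h5 h6
    have h7 := he.tri v p w
    rw [he.symm v p] at h7
    have h8 := stay (F := F) hg hi hs hD c v w 0 (by omega) (by omega) (by omega)
    rw [hsv] at h8
    omega

end

/-- (P) large angles force every geodesic through the apex -/
theorem ang_thru (cone_geo : S.cone_geo) (lev_lip : S.lev_lip) (lev_vt : S.lev_vt)
    (lev_ap : S.lev_ap) (cd_vt_ap : S.cd_vt_ap) (eq_vt_of_lev : S.eq_vt_of_lev) (stay : S.stay)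
    (stay_path : S.stay_path) (btw_split : S.btw_split) (btw_close : S.btw_close)
    (fellow : S.fellow) (cone_hyp : S.cone_hyp) : S.ang_thru := by
  intro G X _ _ d P F T M hG hF hT c p q t ht h
  obtain ⟨hs, hD1⟩ := ang_thru_num P
  have hD : 1 ≤ P.D := by omega
  have hg : Geo d := hG.geo
  have hi : Isom G d := hG.isom
  have he : Geo (cd F P.D d P.s) := cone_geo (F := F) hg hi hs hD
  have hh : Hyp P.δ1 (cd F P.D d P.s) := cone_hyp hG hF
  obtain ⟨x, ⟨y, hyx, hy⟩, x', ⟨y', hyx', hy'⟩, hxx⟩ := h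
  subst hyx
  subst hyx'
  obtain ⟨o, ho⟩ : ∃ o, o = ap F P.D c := ⟨_, rfl⟩
  have hla : lev F P.D c o = P.D + 1 := by
    rw [ho]
    exact lev_ap (F := F) hg hi hs hD c
  have hθ : P.θ = 4 * P.δ1 * (P.s * 2 ^ P.D) + (8 * P.δ1 + 6) * (P.s * 2 ^ P.D) := by
    unfold Par.θ
    ring
  -- vertical points
  have hvp := ang_thru_vert cone_geo lev_lip lev_vt cd_vt_ap eq_vt_of_lev hg hi hs hD c p y hy
  have hvq := ang_thru_vert cone_geo lev_lip lev_vt cd_vt_ap eq_vt_of_lev hg hi hs hD c q y' hy'
  have hsp := ang_thru_side cone_geo lev_lip lev_vt lev_ap cd_vt_ap eq_vt_of_lev stay btw_split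
    btw_close hg hi hs hD hh hD1 c p y hy
  have hsq := ang_thru_side cone_geo lev_lip lev_vt lev_ap cd_vt_ap eq_vt_of_lev stay btw_split
    btw_close hg hi hs hD hh hD1 c q y' hy'
  have hlp : ∀ r : Cone F P.D, 1 ≤ lev F P.D c r →
      cd F P.D d P.s r (ap F P.D c) = P.D + 1 - lev F P.D c r ∧ lev F P.D c r ≤ P.D + 1 := by
    intro r h3
    obtain ⟨y2, hy2, _⟩ := eq_vt_of_lev (F := F) hg hi hs hD c r h3
    have h8 : lev F P.D c r ≤ P.D + 1 := by
      have h9 := lev_vt (F := F) hg hi hs hD c y2 (lev F P.D c r)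
      rw [← hy2] at h9
      omega
    have h9 := cd_vt_ap (F := F) hg hi hs hD c y2 (lev F P.D c r) h8
    rw [← hy2] at h9
    exact ⟨h9, h8⟩
  have t1 := he.tri p o q
  have t2 := he.tri p q o
  have t3 := he.tri q p o
  rw [he.symm o q] at t1
  rw [he.symm q p] at t3
  rw [ho] at t1 t2 t3
  -- (1) the Gromov product is small
  have step1 : cd F P.D d P.s p (ap F P.D c) + cd F P.D d P.s q (ap F P.D c) ≤
      cd F P.D d P.s p q + 4 * P.δ1 + 1 := by
    by_contra hcon
    have hkp : lev F P.D c p ≤ P.D - 2 * P.δ1 := by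
      rcases Nat.eq_zero_or_pos (lev F P.D c p) with h3 | h3
      · omega
      · have h4 := hlp p h3
        omega
    have hkq : lev F P.D c q ≤ P.D - 2 * P.δ1 := by
      rcases Nat.eq_zero_or_pos (lev F P.D c q) with h3 | h3
      · omega
      · have h4 := hlp q h3
        omega
    have h3 := hvp (2 * P.δ1) (P.D - 2 * P.δ1) (by omega) hkp
    have h4 := hvq (2 * P.δ1) (P.D - 2 * P.δ1) (by omega) hkq
    have h5 := cd_vt_ap (F := F) hg hi hs hD c y (P.D - 2 * P.δ1) (by omega)
    have h6 := cd_vt_ap (F := F) hg hi hs hD c y' (P.D - 2 * P.δ1) (by omega)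
    have h7 := lev_vt (F := F) hg hi hs hD c y (P.D - 2 * P.δ1)
    have h8 : sh F P.D (vt F P.D c y (P.D - 2 * P.δ1)) = y.1 :=
      ang_thru_sh c y _ (by omega) (by omega)
    have h9 : sh F P.D (vt F P.D c y' (P.D - 2 * P.δ1)) = y'.1 :=
      ang_thru_sh c y' _ (by omega) (by omega)
    obtain ⟨v, hv⟩ : ∃ v, v = vt F P.D c y (P.D - 2 * P.δ1) := ⟨_, rfl⟩
    obtain ⟨v', hv'⟩ : ∃ v, v = vt F P.D c y' (P.D - 2 * P.δ1) := ⟨_, rfl⟩
    rw [← hv] at h3 h5 h7 h8
    rw [← hv'] at h4 h6 h9
    have b1 : Btw (cd F P.D d P.s) (ap F P.D c) v p 0 := by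
      unfold Btw
      rw [he.symm (ap F P.D c) v, he.symm v p, he.symm (ap F P.D c) p]
      omega
    have b2 : Btw (cd F P.D d P.s) (ap F P.D c) v' q 0 := by
      unfold Btw
      rw [he.symm (ap F P.D c) v', he.symm v' q, he.symm (ap F P.D c) q]
      omega
    have b3 : cd F P.D d P.s (ap F P.D c) v = cd F P.D d P.s (ap F P.D c) v' := by
      rw [he.symm (ap F P.D c) v, he.symm (ap F P.D c) v']
      omega
    have b4 : 2 * cd F P.D d P.s (ap F P.D c) v + cd F P.D d P.s p q ≤
        cd F P.D d P.s (ap F P.D c) p + cd F P.D d P.s (ap F P.D c) q := by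
      rw [he.symm (ap F P.D c) v, he.symm (ap F P.D c) p, he.symm (ap F P.D c) q]
      omega
    have b5 := fellow he hh b1 b2 b3 b4
    have b6 := stay (F := F) hg hi hs hD c v v' (2 * P.δ1) b5 (by omega) (by omega)
    rw [h8, h9] at b6
    have b7 : P.s * 2 ^ (lev F P.D c v + 2 * P.δ1) ≤ P.s * 2 ^ P.D := by
      apply Nat.mul_le_mul_left
      apply Nat.pow_le_pow_right (by norm_num)
      omega
    have b8 := Nat.mul_le_mul_left (2 * P.δ1) b7
    have b9 : 2 * P.δ1 * (P.s * 2 ^ P.D) ≤ 4 * P.δ1 * (P.s * 2 ^ P.D) :=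
      Nat.mul_le_mul_right _ (by omega)
    omega
  -- (2) the apex is on every geodesic
  have key : ∀ z, Btw (cd F P.D d P.s) p z q 0 →
      (cd F P.D d P.s p q = cd F P.D d P.s p (ap F P.D c) + cd F P.D d P.s (ap F P.D c) q) ∧
      (Btw (cd F P.D d P.s) p z (ap F P.D c) 0 ∨ Btw (cd F P.D d P.s) (ap F P.D c) z q 0) := by
    intro z hz
    obtain ⟨γ, hγ, hst, hlen, hγz⟩ := ang_thru_geod he p z q hz
    rw [← ho] at hy hy' step1 hsp hsq hlp t1 t2 t3 ⊢
    obtain ⟨j, hj⟩ : ∃ j, j = (cd F P.D d P.s p q + cd F P.D d P.s p o -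
        cd F P.D d P.s q o) / 2 := ⟨_, rfl⟩
    have hjL : j ≤ cd F P.D d P.s p q := by omega
    obtain ⟨hj1, hj2⟩ := hγ j hjL
    have hcen : cd F P.D d P.s (γ j) o ≤ 3 * P.δ1 + 1 := by
      have h3 := hh (γ j) o p q
      rw [he.symm (γ j) p, he.symm o q, he.symm o p, hj1, hj2] at h3
      omega
    by_cases hmain : ∃ l, l ≤ cd F P.D d P.s p q ∧ cd F P.D d P.s (γ l) o = 0
    · obtain ⟨l, hl, hlo⟩ := hmain
      obtain ⟨hl1, hl2⟩ := hγ l hl
      have h3 := he.tri p (γ l) o
      have h4 := he.tri p o (γ l)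
      have h5 := he.tri (γ l) o q
      have h6 := he.tri o (γ l) q
      rw [he.symm o (γ l)] at h4 h6
      have h7 := he.tri p z q
      have h8 : cd F P.D d P.s p z + cd F P.D d P.s z q = cd F P.D d P.s p q := by
        unfold Btw at hz
        omega
      refine ⟨by omega, ?_⟩
      rcases Nat.le_total (cd F P.D d P.s p z) l with h9 | h9
      · left
        have h10 := hlen (l - cd F P.D d P.s p z) (cd F P.D d P.s p z) (by omega)
        have h11 : cd F P.D d P.s p z + (l - cd F P.D d P.s p z) = l := by omega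
        rw [h11, hγz] at h10
        have h12 := he.tri z (γ l) o
        unfold Btw
        omega
      · right
        have h10 := hlen (cd F P.D d P.s p z - l) l (by omega)
        have h11 : l + (cd F P.D d P.s p z - l) = cd F P.D d P.s p z := by omega
        rw [h11, hγz] at h10
        have h12 := he.tri o (γ l) z
        rw [he.symm o (γ l)] at h12
        unfold Btw
        omega
    · exfalso
      push Not at hmain
      obtain ⟨lo, hlo⟩ : ∃ lo, lo = cd F P.D d P.s p o - (4 * P.δ1 + 3) := ⟨_, rfl⟩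
      obtain ⟨bq, hbq⟩ : ∃ bq, bq = cd F P.D d P.s q o - (4 * P.δ1 + 3) := ⟨_, rfl⟩
      have u1 := he.tri p (γ j) o
      have u2 := he.tri q (γ j) o
      rw [he.symm q (γ j)] at u2
      obtain ⟨hi', hhi'⟩ : ∃ hi', hi' = cd F P.D d P.s p q - bq := ⟨_, rfl⟩
      have v1 : lo ≤ j := by omega
      have v2 : j ≤ hi' := by omega
      have v3 : hi' ≤ cd F P.D d P.s p q := by omega
      have v4 : hi' - lo ≤ 8 * P.δ1 + 6 := by omega
      obtain ⟨hlo1, hlo2⟩ := hγ lo (by omega)
      obtain ⟨hhi1, hhi2⟩ := hγ hi' v3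
      -- the left end
      have w1 : d y.1 (sh F P.D (γ lo)) ≤ 2 * P.δ1 * (P.s * 2 ^ P.D) := by
        apply hsp (γ j) (γ lo) hcen
        · rw [hlo1]
          exact hlo
        · have h3 := hlen (j - lo) lo (by omega)
          have h4 : lo + (j - lo) = j := by omega
          rw [h4] at h3
          unfold Btw
          omega
      -- the right end
      have w2 : d y'.1 (sh F P.D (γ hi')) ≤ 2 * P.δ1 * (P.s * 2 ^ P.D) := by
        apply hsq (γ j) (γ hi') hcen
        · rw [he.symm q, hhi2]
          omega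
        · have h3 := hlen (hi' - j) j (by omega)
          have h4 : j + (hi' - j) = hi' := by omega
          rw [h4] at h3
          unfold Btw
          rw [he.symm q (γ hi'), he.symm (γ hi') (γ j), he.symm q (γ j)]
          omega
      -- the middle piece
      have w3 := stay_path (F := F) hg hi hs hD c (fun n => γ (lo + n)) (hi' - lo)
        (by
          intro n hn
          exact hst (lo + n) (by omega))
        (by
          intro n hn
          have h3 : cd F P.D d P.s (γ (lo + n)) (γ j) ≤ 8 * P.δ1 + 6 := by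
            rcases Nat.le_total (lo + n) j with h4 | h4
            · have h5 := hlen (j - (lo + n)) (lo + n) (by omega)
              have h6 : lo + n + (j - (lo + n)) = j := by omega
              rw [h6] at h5
              omega
            · have h5 := hlen (lo + n - j) j (by omega)
              have h6 : j + (lo + n - j) = lo + n := by omega
              rw [h6, he.symm] at h5
              omega
          have h4 := he.tri (γ (lo + n)) (γ j) o
          have h5 := lev_lip (F := F) hg hi hs hD c o (γ (lo + n))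
          rw [he.symm o, hla] at h5
          have h6 : 1 ≤ lev F P.D c (γ (lo + n)) := by omega
          have h7 := hlp (γ (lo + n)) h6
          have h8 := hmain (lo + n) (by omega)
          constructor <;> omega)
      simp only [Nat.add_zero] at w3
      have h5 : lo + (hi' - lo) = hi' := by omega
      rw [h5] at w3
      have w4 : (hi' - lo) * (P.s * 2 ^ P.D) ≤ (8 * P.δ1 + 6) * (P.s * 2 ^ P.D) :=
        Nat.mul_le_mul_right _ v4
      have h6 := hg.tri y.1 (sh F P.D (γ lo)) y'.1
      have h7 := hg.tri (sh F P.D (γ lo)) (sh F P.D (γ hi')) y'.1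
      rw [hg.symm (sh F P.D (γ hi')) y'.1] at h7
      have h8 : 4 * P.δ1 * (P.s * 2 ^ P.D) =
          2 * P.δ1 * (P.s * 2 ^ P.D) + 2 * P.δ1 * (P.s * 2 ^ P.D) := by ring
      omega
  have hp := key p (by unfold Btw; rw [he.self]; omega)
  exact ⟨hp.1, fun z hz => (key z hz).2⟩

end Mon
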