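import Pool.Agent.Work.MP_6f5fa7_al.Mon.StAct
import Pool.Agent.Work.MP_6f5fa7_al.Mon.StHyp
import Pool.Agent.Work.MP_6f5fa7_al.Mon.StCone
import Pool.Agent.Work.MP_6f5fa7_al.Mon.StTool

/-! Mon: item A3 (the windmill). -/
set_option autoImplicit false

namespace Mon

/-- abstract data for the windmill -/
structure A3S {G X V C : Type} [Group G] [MulAction G X] [MulAction G V] [MulAction G C]
    (d : X → X → ℕ) (e : V → V → ℕ) (ap : C → V) (R : C → Subgroup G) (E : C → V → Set X)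
    (δ1 D θ T : ℕ) (p : V) (PP : G → Prop) : Prop where
  dg : Geo d
  di : Isom G d
  eg : Geo e
  ei : Isom G e
  split : ∀ {x w y : V} {κ : ℕ} (_ : Btw e x w y κ) (z : V), Btw e x w z (κ + δ1) ∨ Btw e z w y (κ + δ1)
  proj : ∀ {x w y : V} {κ : ℕ} (_ : Btw e x w y κ), ∃ m, Btw e x m y 0 ∧ e w m ≤ 2 * κ + δ1
  apap : ∀ c c', c ≠ c' → 2 * D + 2 ≤ e (ap c) (ap c')
  sap : ∀ (g : G) c, g • ap c = ap (g • c)
  Rs : ∀ (g : G) c r, r ∈ R c → g * r * g⁻¹ ∈ R (g • c)
  Rf : ∀ c r, r ∈ R c → r • c = c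
  ene : ∀ c q, q ≠ ap c → (E c q).Nonempty
  esm : ∀ c q y y', y ∈ E c q → y' ∈ E c q → d y y' ≤ θ
  ems : ∀ (g : G) c q y, y ∈ E c q → g • y ∈ E (g • c) (g • q)
  eth : ∀ c c' q, c' ≠ c → Thru e (ap c') q (ap c) → E c q ⊆ E c (ap c')
  th : ∀ c q q' y y', y ∈ E c q → y' ∈ E c q' → θ < d y y' → Thru e (ap c) q q'
  big : ∀ c r q y, r ∈ R c → r ≠ 1 → y ∈ E c q → T ≤ d y (r • y)
  pna : ∀ c, p ≠ ap c
  pos : ∀ c, 0 < e p (ap c)
  c1 : 1 ≤ δ1
  c2 : 10 * δ1 < 2 * D + 2
  c3 : 6 * θ < T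
  pp1 : PP 1
  pps : ∀ k r c y y', r ∈ R c → y ∈ E c p → y' ∈ E c (k • p) → T ≤ d y y' + 6 * θ →
    PP (r * k) → PP k

/-- the subgroup generated by the `R a` with `a` near `p` -/
def A3K {G V C : Type} [Group G] (e : V → V → ℕ) (ap : C → V) (R : C → Subgroup G) (p : V)
    (n : ℕ) : Subgroup G := Subgroup.closure {r | ∃ a, e p (ap a) < n ∧ r ∈ R a}

/-- `b` is far from the orbit of `p` -/
def A3N {G V C : Type} [Group G] [MulAction G V] (e : V → V → ℕ) (ap : C → V)
    (R : C → Subgroup G) (p : V) (n : ℕ) (b : C) : Prop :=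
  ∀ k ∈ A3K e ap R p n, n ≤ e (k • p) (ap b)

/-- the induction claims -/
def A3St {G V C : Type} [Group G] [MulAction G V] (e : V → V → ℕ) (ap : C → V)
    (R : C → Subgroup G) (δ1 : ℕ) (p : V) (PP : G → Prop) (n : ℕ) : Prop :=
  (∀ k ∈ A3K e ap R p n, PP k) ∧
  (∀ k ∈ A3K e ap R p n, ∀ b, A3N e ap R p n b → ¬ Btw e p (ap b) (k • p) 0) ∧
  (∀ k ∈ A3K e ap R p n, ∀ z, Btw e p z (k • p) 0 →
    ∃ k' ∈ A3K e ap R p n, e (k' • p) z ≤ n + 2 * δ1)

/-- reduced words -/
inductive A3W {G C : Type} [Group G] [MulAction G C] (K : Subgroup G) (R : C → Subgroup G)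
    (Cn : Set C) : G → Option C → Prop
  | base (k : G) : k ∈ K → A3W K R Cn k none
  | step (w : G) (B : Option C) (b : C) (r k : G) : A3W K R Cn w B → b ∈ Cn → B ≠ some (w • b) →
      r ∈ R b → r ≠ 1 → k ∈ K → A3W K R Cn (w * r * k) (some (w • b))

section

variable {G X V C : Type} [Group G] [MulAction G X] [MulAction G V] [MulAction G C]
variable {d : X → X → ℕ} {e : V → V → ℕ} {ap : C → V} {R : C → Subgroup G} {E : C → V → Set X}
variable {δ1 D θ T : ℕ} {p : V} {PP : G → Prop}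

private lemma A3_einv (H : A3S d e ap R E δ1 D θ T p PP) (g : G) (x y : V) :
    e (g⁻¹ • x) y = e x (g • y) := by
  have := H.ei g (g⁻¹ • x) y
  rw [smul_inv_smul] at this
  exact this.symm

private lemma A3_apinj (H : A3S d e ap R E δ1 D θ T p PP) {c c' : C} (h : ap c = ap c') :
    c = c' := by
  by_contra hne
  have := H.apap c c' hne
  rw [h, H.eg.self] at this
  omega

private lemma A3_pna (H : A3S d e ap R E δ1 D θ T p PP) (g : G) (c : C) : g • p ≠ ap c := by
  intro h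
  apply H.pna (g⁻¹ • c)
  rw [← H.sap, ← h, inv_smul_smul]

private lemma A3_mono {n m : ℕ} (h : n ≤ m) : A3K e ap R p n ≤ A3K e ap R p m := by
  apply Subgroup.closure_mono
  rintro r ⟨a, ha, hr⟩
  exact ⟨a, by omega, hr⟩

private lemma A3_mem {n : ℕ} {a : C} {r : G} (ha : e p (ap a) < n) (hr : r ∈ R a) :
    r ∈ A3K e ap R p n := Subgroup.subset_closure ⟨a, ha, hr⟩

/-- the possible end points -/
private def A3T (p : V) (ap : C → V) (S : Set C) : Set V := {x | x = p ∨ ∃ b ∈ S, x = ap b}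

/-- (KL) -/
private lemma A3_KL (H : A3S d e ap R E δ1 D θ T p PP) {n : ℕ} (hst : A3St e ap R δ1 p PP n)
    {b : C} (hb : A3N e ap R p n b) {k : G} (hk : k ∈ A3K e ap R p n) {x : V}
    (hx : x ∈ A3T p ap {a | e p (ap a) < n + 10 * δ1}) (hne : k • x ≠ ap b) {y y' : X}
    (hy : y ∈ E b p) (hy' : y' ∈ E b (k • x)) : d y y' ≤ 2 * θ := by
  by_contra hcon
  obtain ⟨z, hz⟩ := H.ene b (k • p) (A3_pna H k b)
  have htri := H.dg.tri y z y'
  by_cases h1 : θ < d y z
  · have h2 := H.th b p (k • p) y z hy hz h1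
    refine hst.2.1 k hk b hb ?_
    have h3 := h2.1
    unfold Btw
    omega
  · have h1' : θ < d z y' := by omega
    rcases hx with rfl | ⟨a, ha, rfl⟩
    · have := H.esm b _ z y' hz hy'
      omega
    · have h2 := (H.th b (k • p) (k • ap a) z y' hz hy' h1').1
      rw [H.ei k p (ap a)] at h2
      have h3 := hb k hk
      have h4 : e p (ap a) < n + 10 * δ1 := ha
      have h5 : b ≠ k • a := by
        rintro rfl
        exact hne (H.sap k a)
      have h6 := H.apap b (k • a) h5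
      rw [← H.sap k a] at h6
      have h7 := H.c2
      omega

private lemma A3_Wmul {K : Subgroup G} {Cn : Set C} {w : G} {B : Option C}
    (h : A3W K R Cn w B) {k : G} (hk : k ∈ K) : A3W K R Cn (w * k) B := by
  cases h with
  | base k0 h0 => exact A3W.base _ (K.mul_mem h0 hk)
  | step w0 B0 b r k0 h1 h2 h3 h4 h5 h6 =>
    rw [mul_assoc]
    exact A3W.step w0 B0 b r _ h1 h2 h3 h4 h5 (K.mul_mem h6 hk)

private lemma A3_Wmem {K K' : Subgroup G} {Cn : Set C} (hK : K ≤ K')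
    (hC : ∀ b ∈ Cn, R b ≤ K') {w : G} {B : Option C}
    (h : A3W K R Cn w B) : w ∈ K' := by
  induction h with
  | base k0 h0 => exact hK h0
  | step w0 B0 b r k0 _ h2 _ h4 _ h6 ih =>
    exact K'.mul_mem (K'.mul_mem ih (hC b h2 h4)) (hK h6)

private lemma A3_Winv {K : Subgroup G} {Cn : Set C} (Rf : ∀ c r, r ∈ R c → r • c = c)
    {w : G} {B : Option C} {B' : C}
    (h : A3W K R Cn w B) (hB : B = some B') : ∃ k ∈ K, ∃ b ∈ Cn, w⁻¹ • B' = k • b := by
  cases h with
  | base k0 h0 => exact absurd hB (by simp)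
  | step w0 B0 b r k0 h1 h2 h3 h4 h5 h6 =>
    refine ⟨k0⁻¹, K.inv_mem h6, b, h2, ?_⟩
    have hB' : B' = w0 • b := (Option.some.inj hB).symm
    rw [hB', mul_inv_rev, mul_inv_rev, mul_smul, mul_smul, inv_smul_smul,
      Rf b r⁻¹ ((R b).inv_mem h4)]

/-- the claim for reduced words -/
private lemma A3_claim (H : A3S d e ap R E δ1 D θ T p PP) {n : ℕ}
    (hst : A3St e ap R δ1 p PP n) {w : G} {B : Option C}
    (h : A3W (A3K e ap R p n) R {a | e p (ap a) < n + 10 * δ1 ∧ A3N e ap R p n a} w B) :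
    ∀ B' x, B = some B' →
      x ∈ A3T p ap {a | e p (ap a) < n + 10 * δ1 ∧ A3N e ap R p n a} → w • x ≠ ap B' →
      ∀ y ∈ E B' p, ∀ y' ∈ E B' (w • x), T ≤ d y y' + 4 * θ := by
  have hsub : A3T p ap {a | e p (ap a) < n + 10 * δ1 ∧ A3N e ap R p n a} ⊆
      A3T p ap {a | e p (ap a) < n + 10 * δ1} := by
    rintro x (rfl | ⟨a, ha, rfl⟩)
    · exact Or.inl rfl
    · exact Or.inr ⟨a, ha.1, rfl⟩
  induction h with
  | base k0 h0 =>
    intro B' x hB
    exact absurd hB (by simp)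
  | step w0 B0 b r k h1 h2 h3 h4 h5 h6 ih =>
    intro B' x hB hx hne y hy y' hy'
    have hB' : B' = w0 • b := (Option.some.inj hB).symm
    subst hB'
    obtain ⟨e0, he0⟩ := H.ene b p (H.pna b)
    -- (α)
    have hα : d (w0⁻¹ • y) e0 ≤ 2 * θ := by
      rw [H.dg.symm]
      cases hB0 : B0 with
      | none =>
        rw [hB0] at h1
        have hw0 : w0 ∈ A3K e ap R p n := by
          cases h1 with
          | base _ h0 => exact h0
        have h7 := H.ems w0⁻¹ _ _ _ hy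
        rw [inv_smul_smul] at h7
        exact A3_KL H hst h2.2 ((A3K e ap R p n).inv_mem hw0) (Or.inl rfl) (A3_pna H _ _) he0 h7
      | some B1 =>
        have hne1 : w0 • ap b ≠ ap B1 := by
          intro hcon
          rw [H.sap] at hcon
          exact h3 (by rw [hB0, A3_apinj H hcon])
        have hB1 : B1 ≠ w0 • b := by
          rintro rfl
          exact h3 hB0
        obtain ⟨y1, hy1⟩ := H.ene B1 p (H.pna B1)
        obtain ⟨y2, hy2⟩ := H.ene B1 (w0 • ap b) hne1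
        have h7 := ih B1 (ap b) hB0 (Or.inr ⟨b, h2, rfl⟩) hne1 y1 hy1 y2 hy2
        have h8 := H.th B1 p (w0 • ap b) y1 y2 hy1 hy2 (by have := H.c3; omega)
        rw [H.sap] at h8
        have h9 := H.eth (w0 • b) B1 p hB1 h8 hy
        have h10 := H.ems w0⁻¹ _ _ _ h9
        rw [inv_smul_smul, H.sap] at h10
        obtain ⟨k1, hk1, b1, hb1, hkb⟩ := A3_Winv H.Rf h1 hB0
        rw [hkb, ← H.sap] at h10
        refine A3_KL H hst h2.2 hk1 (Or.inr ⟨b1, hb1.1, rfl⟩) ?_ he0 h10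
        rw [H.sap, ← hkb]
        intro hcon
        have := A3_apinj H hcon
        rw [inv_smul_eq_iff] at this
        exact hB1 this
    -- (β)
    have hβ : d (r⁻¹ • w0⁻¹ • y') e0 ≤ 2 * θ := by
      rw [H.dg.symm]
      have h7 := H.ems r⁻¹ _ _ _ (H.ems w0⁻¹ _ _ _ hy')
      rw [inv_smul_smul, H.Rf b r⁻¹ ((R b).inv_mem h4)] at h7
      have h8 : r⁻¹ • w0⁻¹ • (w0 * r * k) • x = k • x := by
        rw [smul_smul, smul_smul]
        congr 1
        group
      rw [h8] at h7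
      refine A3_KL H hst h2.2 h6 (hsub hx) ?_ he0 h7
      intro hcon
      apply hne
      have h9 : r • b = b := H.Rf b r h4
      rw [mul_smul, mul_smul, hcon, H.sap, h9, H.sap]
    have h10 : d (w0⁻¹ • y') (r • e0) ≤ 2 * θ := by
      have := H.di r (r⁻¹ • w0⁻¹ • y') e0
      rw [smul_inv_smul] at this
      omega
    have h11 := H.big b r p e0 h4 h5 he0
    have h12 := H.dg.tri e0 (w0⁻¹ • y) (r • e0)
    have h13 := H.dg.tri (w0⁻¹ • y) (w0⁻¹ • y') (r • e0)
    have h14 := H.di w0⁻¹ y y'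
    have h15 := H.dg.symm e0 (w0⁻¹ • y)
    omega

private lemma A3_step (H : A3S d e ap R E δ1 D θ T p PP) {n : ℕ} {w : G} {B : Option C}
    (h : A3W (A3K e ap R p n) R {a | e p (ap a) < n + 10 * δ1 ∧ A3N e ap R p n a} w B)
    {a : C} {r : G} (ha : e p (ap a) < n + 10 * δ1) (hr : r ∈ R a) :
    ∃ B', A3W (A3K e ap R p n) R {a | e p (ap a) < n + 10 * δ1 ∧ A3N e ap R p n a} (w * r) B' := by
  by_cases hN : A3N e ap R p n a
  · by_cases hr1 : r = 1
    · rw [hr1, mul_one]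
      exact ⟨B, h⟩
    have h' := h
    cases h with
    | base _ h0 =>
      refine ⟨some (w • a), ?_⟩
      have := A3W.step w none a r 1 h' ⟨ha, hN⟩ (by simp) hr hr1 (one_mem _)
      rwa [mul_one] at this
    | step w0 B0 b r' k h1 h2 h3 h4 h5 h6 =>
      by_cases hEq : (w0 * r' * k) • a = w0 • b
      · have hka : k • a = b := by
          rw [mul_smul, mul_smul] at hEq
          have h7 : r' • k • a = b := smul_left_cancel w0 hEq
          have h8 : k • a = r'⁻¹ • b := by rw [← h7, inv_smul_smul]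
          rw [h8, H.Rf b r'⁻¹ ((R b).inv_mem h4)]
        have h7 : k * r * k⁻¹ ∈ R b := by
          have := H.Rs k a r hr
          rwa [hka] at this
        by_cases h8 : r' * (k * r * k⁻¹) = 1
        · refine ⟨B0, ?_⟩
          have h9 : w0 * r' * k * r = w0 * k := by
            have : w0 * r' * k * r = w0 * (r' * (k * r * k⁻¹)) * k := by group
            rw [this, h8, mul_one]
          rw [h9]
          exact A3_Wmul h1 h6
        · refine ⟨some (w0 • b), ?_⟩
          have h9 : w0 * r' * k * r = w0 * (r' * (k * r * k⁻¹)) * k := by group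
          rw [h9]
          exact A3W.step w0 B0 b _ k h1 h2 h3 ((R b).mul_mem h4 h7) h8 h6
      · refine ⟨some ((w0 * r' * k) • a), ?_⟩
        have := A3W.step (w0 * r' * k) (some (w0 • b)) a r 1 h' ⟨ha, hN⟩
          (fun hc => hEq (Option.some.inj hc).symm) hr hr1 (one_mem _)
        rwa [mul_one] at this
  · unfold A3N at hN
    push Not at hN
    obtain ⟨k, hk, hk2⟩ := hN
    have h1 : k⁻¹ * r * k ∈ R (k⁻¹ • a) := by
      have := H.Rs k⁻¹ a r hr
      rwa [inv_inv] at this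
    have h2 : e p (ap (k⁻¹ • a)) < n := by
      rw [← H.sap, ← A3_einv H, inv_inv]
      exact hk2
    have h3 := A3_mem (e := e) (ap := ap) (R := R) (p := p) h2 h1
    have h4 : r ∈ A3K e ap R p n := by
      have h5 : r = k * (k⁻¹ * r * k) * k⁻¹ := by group
      rw [h5]
      exact mul_mem (mul_mem hk h3) (inv_mem hk)
    exact ⟨B, A3_Wmul h h4⟩

private lemma A3_exists (H : A3S d e ap R E δ1 D θ T p PP) {n : ℕ} {w : G}
    (hw : w ∈ A3K e ap R p (n + 10 * δ1)) :
    ∃ B, A3W (A3K e ap R p n) R {a | e p (ap a) < n + 10 * δ1 ∧ A3N e ap R p n a} w B := by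
  unfold A3K at hw
  induction hw using Subgroup.closure_induction_right with
  | one => exact ⟨none, A3W.base 1 (one_mem _)⟩
  | mul_right x hx y hy ih =>
    obtain ⟨a, ha, hr⟩ := hy
    obtain ⟨B, hB⟩ := ih
    exact A3_step H hB ha hr
  | mul_inv_cancel x hx y hy ih =>
    obtain ⟨a, ha, hr⟩ := hy
    obtain ⟨B, hB⟩ := ih
    exact A3_step H hB ha ((R a).inv_mem hr)

/-- (i) -/
private lemma A3_PP (H : A3S d e ap R E δ1 D θ T p PP) {n : ℕ}
    (hst : A3St e ap R δ1 p PP n) {w : G} {B : Option C}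
    (h : A3W (A3K e ap R p n) R {a | e p (ap a) < n + 10 * δ1 ∧ A3N e ap R p n a} w B) :
    ∀ k ∈ A3K e ap R p n, PP (w * k) := by
  induction h with
  | base k0 h0 => exact fun k hk => hst.1 _ (mul_mem h0 hk)
  | step w0 B0 b r k0 h1 h2 h3 h4 h5 h6 ih =>
    intro k hk
    have hW := A3W.step w0 B0 b r (k0 * k) h1 h2 h3 h4 h5 (mul_mem h6 hk)
    have hne : (w0 * r * (k0 * k)) • p ≠ ap (w0 • b) := A3_pna H _ _
    obtain ⟨y, hy⟩ := H.ene (w0 • b) p (H.pna _)
    obtain ⟨y', hy'⟩ := H.ene (w0 • b) _ hne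
    have h7 := A3_claim H hst hW _ p rfl (Or.inl rfl) hne y hy y' hy'
    rw [mul_assoc (w0 * r) k0 k]
    refine H.pps (w0 * r * (k0 * k)) (w0 * r⁻¹ * w0⁻¹) (w0 • b) y y'
      (H.Rs w0 b _ ((R b).inv_mem h4)) hy hy' (by omega) ?_
    have h8 : w0 * r⁻¹ * w0⁻¹ * (w0 * r * (k0 * k)) = w0 * (k0 * k) := by group
    rw [h8]
    exact ih (k0 * k) (mul_mem h6 hk)

private lemma A3_btw (H : A3S d e ap R E δ1 D θ T p PP) (g : G) {x z y : V} {κ : ℕ}
    (h : Btw e (g • x) z (g • y) κ) : Btw e x (g⁻¹ • z) y κ := by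
  unfold Btw at h ⊢
  have h1 := H.ei g x (g⁻¹ • z)
  have h2 := H.ei g (g⁻¹ • z) y
  have h3 := H.ei g x y
  rw [smul_inv_smul] at h1 h2
  omega

/-- decomposition of geodesics -/
private lemma A3_dec (H : A3S d e ap R E δ1 D θ T p PP) {n : ℕ}
    (hst : A3St e ap R δ1 p PP n) {w : G} {B : Option C}
    (h : A3W (A3K e ap R p n) R {a | e p (ap a) < n + 10 * δ1 ∧ A3N e ap R p n a} w B) :
    ∀ x ∈ A3T p ap {a | e p (ap a) < n + 10 * δ1 ∧ A3N e ap R p n a},
      (∀ B', B = some B' → w • x ≠ ap B') → ∀ z, Btw e p z (w • x) 0 →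
      ∃ g ∈ A3K e ap R p (n + 10 * δ1), ∃ x1 ∈ A3T p ap {a | e p (ap a) < n + 10 * δ1},
        ∃ k1 ∈ A3K e ap R p n, ∃ x2 ∈ A3T p ap {a | e p (ap a) < n + 10 * δ1},
          Btw e x1 (g⁻¹ • z) (k1 • x2) 0 := by
  have hsub : A3T p ap {a | e p (ap a) < n + 10 * δ1 ∧ A3N e ap R p n a} ⊆
      A3T p ap {a | e p (ap a) < n + 10 * δ1} := by
    rintro x (rfl | ⟨a, ha, rfl⟩)
    · exact Or.inl rfl
    · exact Or.inr ⟨a, ha.1, rfl⟩
  induction h with
  | base k0 h0 =>
    intro x hx _ z hz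
    refine ⟨1, one_mem _, p, Or.inl rfl, k0, h0, x, hsub hx, ?_⟩
    rw [inv_one, one_smul]
    exact hz
  | step w0 B0 b r k h1 h2 h3 h4 h5 h6 ih =>
    intro x hx hne z hz
    have hne' := hne _ rfl
    have hW := A3W.step w0 B0 b r k h1 h2 h3 h4 h5 h6
    obtain ⟨y, hy⟩ := H.ene (w0 • b) p (H.pna _)
    obtain ⟨y', hy'⟩ := H.ene (w0 • b) _ hne'
    have h7 := A3_claim H hst hW _ x rfl hx hne' y hy y' hy'
    have h8 := H.th _ _ _ y y' hy hy' (by have := H.c3; omega)
    rcases h8.2 z hz with h9 | h9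
    · rw [← H.sap] at h9
      refine ih (ap b) (Or.inr ⟨b, h2, rfl⟩) (fun B' hB' hcon => ?_) z h9
      rw [H.sap] at hcon
      exact h3 (by rw [hB', A3_apinj H hcon])
    · refine ⟨w0 * r, mul_mem (A3_Wmem (A3_mono (by omega)) (fun c hc r hr => A3_mem hc.1 hr) h1)
        (A3_mem h2.1 h4), ap b, Or.inr ⟨b, h2.1, rfl⟩, k, h6, x, hsub hx, ?_⟩
      apply A3_btw H
      rw [H.sap, mul_smul w0 r b, H.Rf b r h4, ← mul_smul]
      exact h9

private lemma A3_T_le (H : A3S d e ap R E δ1 D θ T p PP) {m : ℕ} {x : V}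
    (hx : x ∈ A3T p ap {a | e p (ap a) < m}) : e p x ≤ m := by
  rcases hx with rfl | ⟨a, ha, rfl⟩
  · rw [H.eg.self]; omega
  · have : e p (ap a) < m := ha
    omega

private lemma A3_next (H : A3S d e ap R E δ1 D θ T p PP) {n : ℕ}
    (hst : A3St e ap R δ1 p PP n) : A3St e ap R δ1 p PP (n + 10 * δ1) := by
  have key : ∀ k ∈ A3K e ap R p (n + 10 * δ1), ∀ z, Btw e p z (k • p) 0 →
      ∃ g ∈ A3K e ap R p (n + 10 * δ1), ∃ x1 ∈ A3T p ap {a | e p (ap a) < n + 10 * δ1},
        ∃ k1 ∈ A3K e ap R p n, ∃ x2 ∈ A3T p ap {a | e p (ap a) < n + 10 * δ1},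
          Btw e x1 (g⁻¹ • z) p δ1 ∨ (∃ k'' ∈ A3K e ap R p n, e (k'' • p) (g⁻¹ • z) ≤ n + 7 * δ1) ∨
            Btw e (k1 • p) (g⁻¹ • z) (k1 • x2) (2 * δ1) := by
    intro k hk z hz
    obtain ⟨B, hB⟩ := A3_exists H hk
    obtain ⟨g, hg, x1, hx1, k1, hk1, x2, hx2, h1⟩ := A3_dec H hst hB p (Or.inl rfl)
      (fun B' _ => A3_pna H _ _) z hz
    refine ⟨g, hg, x1, hx1, k1, hk1, x2, hx2, ?_⟩
    rcases H.split h1 p with h2 | h2
    · left
      rwa [zero_add] at h2
    · right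
      rcases H.split h2 (k1 • p) with h3 | h3
      · left
        obtain ⟨m, hm, hm2⟩ := H.proj h3
        obtain ⟨k'', hk'', h4⟩ := hst.2.2 k1 hk1 m hm
        refine ⟨k'', hk'', ?_⟩
        have h5 := H.eg.tri (k'' • p) m (g⁻¹ • z)
        have h6 := H.eg.symm (g⁻¹ • z) m
        omega
      · right
        have : 0 + δ1 + δ1 = 2 * δ1 := by omega
        rwa [this] at h3
  have hle : A3K e ap R p n ≤ A3K e ap R p (n + 10 * δ1) := A3_mono (by omega)
  have hc1 := H.c1
  refine ⟨fun k hk => ?_, fun k hk b hb hcon => ?_, fun k hk z hz => ?_⟩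
  · obtain ⟨B, hB⟩ := A3_exists H hk
    have := A3_PP H hst hB 1 (one_mem _)
    rwa [mul_one] at this
  · obtain ⟨g, hg, x1, hx1, k1, hk1, x2, hx2, h1⟩ := key k hk _ hcon
    have hfar : ∀ k' ∈ A3K e ap R p (n + 10 * δ1), n + 10 * δ1 ≤ e (k' • p) (g⁻¹ • ap b) := by
      intro k' hk'
      have h2 := hb (g * k') (mul_mem hg hk')
      have h3 := H.ei g (k' • p) (g⁻¹ • ap b)
      rw [smul_inv_smul, ← mul_smul] at h3
      omega
    rcases h1 with h1 | ⟨k'', hk'', h1⟩ | h1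
    · have h2 := hfar 1 (one_mem _)
      rw [one_smul] at h2
      unfold Btw at h1
      have h3 := H.eg.symm (g⁻¹ • ap b) p
      rcases hx1 with rfl | ⟨a, ha, rfl⟩
      · rw [H.eg.self] at h1
        omega
      · have h4 : e p (ap a) < n + 10 * δ1 := ha
        have h5 := H.eg.symm p (ap a)
        by_cases h6 : a = g⁻¹ • b
        · rw [h6, ← H.sap] at h4
          omega
        · have h7 := H.apap a (g⁻¹ • b) h6
          rw [← H.sap] at h7
          have := H.c2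
          omega
    · have h2 := hfar k'' (hle hk'')
      omega
    · have h2 := hfar k1 (hle hk1)
      unfold Btw at h1
      rw [H.ei k1 p x2] at h1
      rcases hx2 with rfl | ⟨a, ha, rfl⟩
      · rw [H.eg.self] at h1
        omega
      · have h4 : e p (ap a) < n + 10 * δ1 := ha
        by_cases h6 : g⁻¹ • b = k1 • a
        · rw [H.sap, h6, ← H.sap, H.ei] at h2
          omega
        · have h7 := H.apap (g⁻¹ • b) (k1 • a) h6
          rw [← H.sap, ← H.sap] at h7
          have := H.c2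
          omega
  · obtain ⟨g, hg, x1, hx1, k1, hk1, x2, hx2, h1⟩ := key k hk z hz
    have hinv : ∀ k' : G, e ((g * k') • p) z = e (k' • p) (g⁻¹ • z) := by
      intro k'
      have h3 := H.ei g (k' • p) (g⁻¹ • z)
      rw [smul_inv_smul, ← mul_smul] at h3
      exact h3
    rcases h1 with h1 | ⟨k'', hk'', h1⟩ | h1
    · refine ⟨g, hg, ?_⟩
      have h2 := hinv 1
      rw [mul_one, one_smul] at h2
      have h3 := A3_T_le H hx1
      unfold Btw at h1
      have h4 := H.eg.symm p x1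
      have h5 := H.eg.symm (g⁻¹ • z) p
      omega
    · refine ⟨g * k'', mul_mem hg (hle hk''), ?_⟩
      rw [hinv]
      omega
    · refine ⟨g * k1, mul_mem hg (hle hk1), ?_⟩
      rw [hinv]
      unfold Btw at h1
      rw [H.ei k1 p x2] at h1
      have h3 := A3_T_le H hx2
      omega

private lemma A3_all (H : A3S d e ap R E δ1 D θ T p PP) (j : ℕ) :
    A3St e ap R δ1 p PP (j * (10 * δ1)) := by
  induction j with
  | zero =>
    have hK : ∀ k ∈ A3K e ap R p 0, k = 1 := by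
      intro k hk
      unfold A3K at hk
      have : {r : G | ∃ a, e p (ap a) < 0 ∧ r ∈ R a} = ∅ := by
        ext r
        simp
      rw [this, Subgroup.closure_empty] at hk
      exact hk
    rw [zero_mul]
    refine ⟨fun k hk => ?_, fun k hk b _ hcon => ?_, fun k hk z hz => ⟨k, hk, ?_⟩⟩
    · rw [hK k hk]; exact H.pp1
    · rw [hK k hk, one_smul] at hcon
      unfold Btw at hcon
      rw [H.eg.self] at hcon
      have := H.pos b
      omega
    · rw [hK k hk, one_smul] at hz ⊢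
      unfold Btw at hz
      rw [H.eg.self] at hz
      omega
  | succ j ih =>
    have := A3_next H ih
    rwa [show (j + 1) * (10 * δ1) = j * (10 * δ1) + 10 * δ1 by ring]

/-- abstract windmill -/
private lemma A3_abs (H : A3S d e ap R E δ1 D θ T p PP) (k : G)
    (hk : k ∈ Subgroup.closure {r : G | ∃ c, r ∈ R c}) : PP k := by
  have key : ∃ j, k ∈ A3K e ap R p (j * (10 * δ1)) := by
    have hc1 := H.c1
    induction hk using Subgroup.closure_induction with
    | mem x hx =>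
      obtain ⟨c, hc⟩ := hx
      refine ⟨e p (ap c) + 1, A3_mem ?_ hc⟩
      nlinarith
    | one => exact ⟨0, one_mem _⟩
    | mul x y _ _ hx hy =>
      obtain ⟨i, hi⟩ := hx
      obtain ⟨j, hj⟩ := hy
      refine ⟨max i j, mul_mem (A3_mono ?_ hi) (A3_mono ?_ hj)⟩
      · exact Nat.mul_le_mul_right _ (le_max_left i j)
      · exact Nat.mul_le_mul_right _ (le_max_right i j)
    | inv x _ hx =>
      obtain ⟨i, hi⟩ := hx
      exact ⟨i, inv_mem hi⟩
  obtain ⟨j, hj⟩ := key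
  exact (A3_all H j).1 k hj

end

/-- the windmill -/
theorem windmill (h1 : S.btw_split) (h2 : S.btw_proj) (h3 : S.cone_geo) (h4 : S.cone_isom)
    (h5 : S.cone_hyp) (h6 : S.ap_ap) (h7 : S.smul_ap) (h8 : S.exit_ne) (h9 : S.exit_small)
    (h10 : S.exit_smul) (h11 : S.exit_thru) (h12 : S.ang_thru) : S.windmill := by
  intro G X _ _ d P F T M hG hF hT p hp k hk
  have e1 := P.h1
  have e2 := P.hδ
  have e3 := P.hΛs
  have e4 := P.hΛ
  have e5 := P.hA0
  have e6 := P.hD
  have e7 := P.hA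
  have e8 := P.hs
  have e9 : 1000 * P.Λ ≤ Ex (1000 * P.Λ) := Nat.le_mul_of_pos_right _ (by positivity)
  have hs : 1 ≤ P.s := by omega
  have hD : 1 ≤ P.D := by omega
  have hD2 : 10 * P.δ1 < 2 * P.D + 2 := by omega
  have hgeo : Geo (cd F P.D d P.s) := h3 hG.geo hG.isom hs hD
  have hhyp : Hyp P.δ1 (cd F P.D d P.s) := h5 hG hF
  have hθ : 6 * P.θ < T := by
    have f1 := P.hTT2
    have f2 : 1 ≤ P.s * 2 ^ P.D := Nat.mul_pos hs (by positivity)
    unfold Par.θ
    rw [mul_assoc P.δ1 P.s] at f1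
    generalize P.s * 2 ^ P.D = u at f1 f2 ⊢
    nlinarith [Nat.mul_le_mul e1 f2]
  have hθ2 : P.δ1 * (P.s * 2 ^ P.D) ≤ P.θ := by
    unfold Par.θ
    exact Nat.mul_le_mul_right _ (by omega)
  refine A3_abs (d := d) (e := cd F P.D d P.s) (ap := ap F P.D) (R := F.R)
    (E := fun c q => Exi F P.D (cd F P.D d P.s) c q) (δ1 := P.δ1) (D := P.D) (θ := P.θ) (T := T)
    (p := p) (PP := Peel F P.D d (cd F P.D d P.s) (T - 6 * P.θ) p) ?_ k hk
  exact
    { dg := hG.geo
      di := hG.isom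
      eg := hgeo
      ei := h4 hG.geo hG.isom hs hD
      split := fun h z => h1 hgeo hhyp h z
      proj := fun h => h2 hgeo hhyp h
      apap := fun c c' h => h6 hG.geo hG.isom hs hD c c' h
      sap := fun g c => h7 hG.geo hG.isom hs hD g c
      Rs := fun g c r hr => F.R_smul g c r hr
      Rf := fun c r hr => F.R_fix c r hr
      ene := fun c q h => h8 hG hF hT c q h
      esm := fun c q y y' hy hy' => (h9 hG hF hT c q y y' hy hy').trans hθ2
      ems := fun g c q y hy => h10 hG hF hT g c q y hy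
      eth := fun c c' q hc h => h11 hG hF hT c c' q hc h
      th := fun c q q' y y' hy hy' h =>
        h12 hG hF hT c q q' (P.θ + 1) (by omega) ⟨y, hy, y', hy', by omega⟩
      big := fun c r q y hr hr1 hy => by
        obtain ⟨y0, hy0, _⟩ := hy
        rw [← hy0]
        exact hF.big c r y0.1 hr hr1 y0.2
      pna := hp
      pos := fun c => by
        obtain ⟨y, y0, _, hy0⟩ := h8 hG hF hT c p (hp c)
        omega
      c1 := e1
      c2 := hD2
      c3 := hθ
      pp1 := Peel.one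
      pps := fun k r c y y' hr hy hy' hd hk =>
        Peel.step k r c hr ⟨y, hy, y', hy', by omega⟩ hk }

end Mon
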