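import Pool.Agent.Work.MP_6f5fa7_al.Mon.StAct
import Pool.Agent.Work.MP_6f5fa7_al.Mon.StCone

/-! Mon, item A4: the kernel is normal, lifting of polygons (blueprint M8). -/
set_option autoImplicit false

namespace Mon

theorem A4_normal {G X : Type} [Group G] [MulAction G X] (F : Fam G X) : (Ker F).Normal := by
  constructor
  intro k hk g
  refine Subgroup.closure_induction (p := fun k _ => g * k * g⁻¹ ∈ Ker F) ?_ ?_ ?_ ?_ hk
  · rintro x ⟨c, hc⟩
    exact Subgroup.subset_closure ⟨g • c, F.R_smul g c x hc⟩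
  · have : g * 1 * g⁻¹ = 1 := by group
    rw [this]
    exact (Ker F).one_mem
  · intro x y _ _ hx hy
    have : g * (x * y) * g⁻¹ = (g * x * g⁻¹) * (g * y * g⁻¹) := by group
    rw [this]
    exact (Ker F).mul_mem hx hy
  · intro x _ hx
    have : g * x⁻¹ * g⁻¹ = (g * x * g⁻¹)⁻¹ := by group
    rw [this]
    exact (Ker F).inv_mem hx

theorem ker_normal : S.ker_normal := by
  intro G X _ _ d P F T M hG hF hT
  exact A4_normal F

theorem A4_D (P : Par) : 1 ≤ P.D := by
  have h1 := P.h1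
  have h2 := P.hδ
  have h3 := P.hΛs
  have h4 := P.hΛ
  have h5 := P.hA0
  have h6 := P.hD
  have h7 : 1 ≤ Ex (1000 * P.Λ) := by
    unfold Ex
    exact Nat.mul_pos (by omega) (by positivity)
  omega

theorem A4_s (P : Par) : 1 ≤ P.s := by
  have h1 := A4_D P
  have h2 := P.hA
  have h3 := P.hs
  omega

theorem A4_θ (P : Par) : 5000 * P.θ ≤ P.TT2 ∧ 1 ≤ P.θ := by
  have h1 := P.h1
  have h2 := P.hTT2
  have hW : 1 ≤ P.s * 2 ^ P.D := Nat.mul_pos (A4_s P) (by positivity)
  have h3 : P.δ1 * P.s * 2 ^ P.D = P.δ1 * (P.s * 2 ^ P.D) := mul_assoc _ _ _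
  unfold Par.θ
  rw [h3] at h2
  generalize P.s * 2 ^ P.D = W at *
  have h4 : W ≤ P.δ1 * W := Nat.le_mul_of_pos_left _ h1
  have h5 : (12 * P.δ1 + 6) * W = 12 * (P.δ1 * W) + 6 * W := by ring
  rw [h5]
  omega

/-- there is a side over which the pivot can be turned -/
theorem A4_find (htri : S.ang_tri) (hthru : S.ang_thru) (hcg : S.cone_geo)
    {G X : Type} [Group G] [MulAction G X] {d : X → X → ℕ} {P : Par} {F : Fam G X} {T M : ℕ}
    (hG : P.St G d M) (hF : FamOK P d F T) (hT : P.TT2 ≤ T) (c : F.C) (p : ℕ → Cone F P.D)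
    (m : ℕ) (hm : m ≤ 20) (hm0 : 0 < m)
    (ha : Ang F P.D d (cd F P.D d P.s) c (p 0) (p m) (T - 6 * P.θ)) :
    ∃ i, i < m ∧ cd F P.D d P.s (p i) (p (i + 1)) =
      cd F P.D d P.s (p i) (ap F P.D c) + cd F P.D d P.s (ap F P.D c) (p (i + 1)) := by
  obtain ⟨hθ, hθ1⟩ := A4_θ P
  have hgeo : Geo (cd F P.D d P.s) := hcg hG.geo hG.isom (A4_s P) (A4_D P)
  have key : ∀ j, j < m → (∃ i, i < m ∧ cd F P.D d P.s (p i) (p (i + 1)) =
      cd F P.D d P.s (p i) (ap F P.D c) + cd F P.D d P.s (ap F P.D c) (p (i + 1))) ∨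
      Ang F P.D d (cd F P.D d P.s) c (p j) (p m) (T - 6 * P.θ - j * P.θ) := by
    intro j
    induction j with
    | zero =>
      intro _
      right
      rw [Nat.zero_mul, Nat.sub_zero]
      exact ha
    | succ j ih =>
      intro hj
      rcases ih (by omega) with h | h
      · exact Or.inl h
      · by_cases hp : p (j + 1) = ap F P.D c
        · left
          refine ⟨j + 1, hj, ?_⟩
          rw [hp, hgeo.self, Nat.zero_add]
        · have hjt : j * P.θ ≤ 20 * P.θ := Nat.mul_le_mul_right _ (by omega)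
          have hs : (j + 1) * P.θ = j * P.θ + P.θ := by ring
          rcases htri hG hF hT c (p j) (p (j + 1)) (p m) (T - 6 * P.θ - j * P.θ) (P.θ + 1)
            (T - 6 * P.θ - (j + 1) * P.θ) hp h (by rw [hs]; omega) with h' | h'
          · left
            exact ⟨j, by omega, (hthru hG hF hT c _ _ _ (Nat.lt_succ_self _) h').1⟩
          · exact Or.inr h'
  rcases key (m - 1) (by omega) with h | h
  · exact h
  · have hjt : (m - 1) * P.θ ≤ 20 * P.θ := Nat.mul_le_mul_right _ (by omega)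
    have h1 := (hthru hG hF hT c _ _ _ (by omega) h).1
    refine ⟨m - 1, by omega, ?_⟩
    have h2 : m - 1 + 1 = m := by omega
    rw [h2]
    exact h1

theorem A4_lift (htri : S.ang_tri) (hthru : S.ang_thru) (hcg : S.cone_geo) (hci : S.cone_isom)
    {G X : Type} [Group G] [MulAction G X] {d : X → X → ℕ} {P : Par} {F : Fam G X} {T M : ℕ}
    (hG : P.St G d M) (hF : FamOK P d F T) (hT : P.TT2 ≤ T) (m : ℕ) (hm : m ≤ 20)
    (x : Cone F P.D) (k : G) (hk : Peel F P.D d (cd F P.D d P.s) (T - 6 * P.θ) x k) :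
    ∀ p : ℕ → Cone F P.D, p 0 = x → p m = k • p 0 →
    ∃ p' : ℕ → Cone F P.D, p' 0 = p 0 ∧ p' m = p 0 ∧
      (∀ i, i ≤ m → ∃ κ ∈ Ker F, p' i = κ • p i) ∧
      ∀ i, i < m → cd F P.D d P.s (p' i) (p' (i + 1)) ≤ cd F P.D d P.s (p i) (p (i + 1)) := by
  have hgeo : Geo (cd F P.D d P.s) := hcg hG.geo hG.isom (A4_s P) (A4_D P)
  have hiso : Isom G (cd F P.D d P.s) := hci hG.geo hG.isom (A4_s P) (A4_D P)
  induction hk with
  | one =>
    intro p _ hpm
    exact ⟨p, rfl, by rw [hpm, one_smul], fun i _ => ⟨1, (Ker F).one_mem, (one_smul _ _).symm⟩,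
      fun i _ => le_rfl⟩
  | step k r c hr ha _ ih =>
    intro p hp0 hpm
    by_cases hm0 : m = 0
    · subst hm0
      exact ⟨p, rfl, rfl, fun i _ => ⟨1, (Ker F).one_mem, (one_smul _ _).symm⟩, fun i _ => le_rfl⟩
    · rw [← hp0, ← hpm] at ha
      obtain ⟨i, him, hgood⟩ := A4_find htri hthru hcg hG hF hT c p m hm (by omega) ha
      have hq0 : (fun j => if j ≤ i then p j else r • p j) 0 = p 0 := if_pos (Nat.zero_le _)
      have hqm : (fun j => if j ≤ i then p j else r • p j) m = r • p m := if_neg (by omega)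
      obtain ⟨p', h1, h2, h3, h4⟩ := ih (fun j => if j ≤ i then p j else r • p j)
        (hq0.trans hp0) (by
          refine hqm.trans ?_
          rw [hpm, ← mul_smul]
          exact congrArg (fun z => (r * k) • z) hq0.symm)
      have hrc : r • ap F P.D c = ap F P.D c := by
        have : r • ap F P.D c = ap F P.D (r • c) := rfl
        rw [this, F.R_fix c r hr]
      refine ⟨p', h1.trans hq0, h2.trans hq0, fun j hj => ?_, fun j hj => ?_⟩
      · obtain ⟨κ, hκ, e⟩ := h3 j hj
        by_cases hji : j ≤ i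
        · exact ⟨κ, hκ, by rw [e]; simp only [if_pos hji]⟩
        · exact ⟨κ * r, (Ker F).mul_mem hκ (Subgroup.subset_closure ⟨c, hr⟩),
            by rw [e, mul_smul]; simp only [if_neg hji]⟩
      · refine (h4 j hj).trans ?_
        rcases lt_trichotomy j i with hji | hji | hji
        · simp only [if_pos hji.le, if_pos (show j + 1 ≤ i by omega)]
          exact le_rfl
        · subst hji
          simp only [if_pos (le_refl j), if_neg (show ¬ j + 1 ≤ j by omega)]
          refine (hgeo.tri _ (ap F P.D c) _).trans ?_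
          rw [hgood]
          have h5 := hiso r (ap F P.D c) (p (j + 1))
          rw [hrc] at h5
          rw [h5]
        · simp only [if_neg (show ¬ j ≤ i by omega), if_neg (show ¬ j + 1 ≤ i by omega)]
          exact (hiso r _ _).le

theorem poly_lift (hwm : S.windmill) (htri : S.ang_tri) (hthru : S.ang_thru) (hcg : S.cone_geo)
    (hci : S.cone_isom) : S.poly_lift := by
  intro G X _ _ d P F T M hG hF hT m hm p k hk h0 h1
  exact A4_lift htri hthru hcg hci hG hF hT m hm (p 0) k (hwm hG hF hT (p 0) h0 k hk) p rfl h1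

theorem poly_lift' (hwm : S.windmill) (htri : S.ang_tri) (hthru : S.ang_thru) (hcg : S.cone_geo)
    (hci : S.cone_isom) (hva : S.cd_vt_ap) (haa : S.ap_ap) : S.poly_lift' := by
  intro G X _ _ d P F T M hG hF hT m hm p k hk h1
  by_cases h0 : NA (p 0)
  · exact poly_lift hwm htri hthru hcg hci hG hF hT m (by omega) p k hk h0 h1
  · obtain ⟨c, hc⟩ : ∃ c, p 0 = ap F P.D c := by
      by_contra hcon
      exact h0 fun c hc => hcon ⟨c, hc⟩
    have hD := A4_D P
    have hgeo : Geo (cd F P.D d P.s) := hcg hG.geo hG.isom (A4_s P) hD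
    have hiso : Isom G (cd F P.D d P.s) := hci hG.geo hG.isom (A4_s P) hD
    obtain ⟨y, hy⟩ := F.Y_ne c
    have hva1 : cd F P.D d P.s (vt F P.D c ⟨y, hy⟩ P.D) (ap F P.D c) = 1 := by
      rw [hva hG.geo hG.isom (A4_s P) hD c ⟨y, hy⟩ P.D (by omega)]
      omega
    generalize vt F P.D c ⟨y, hy⟩ P.D = v at hva1
    have huniq : ∀ c', cd F P.D d P.s v (ap F P.D c') ≤ 1 → c' = c := by
      intro c' h
      by_contra hne
      have h2 := haa hG.geo hG.isom (A4_s P) hD c' c hne
      have h3 := hgeo.tri (ap F P.D c') v (ap F P.D c)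
      rw [hgeo.symm _ v] at h3
      omega
    have hNA : NA v := by
      intro c' h
      have h2 : c' = c := huniq c' (by rw [h, hgeo.self]; omega)
      rw [h, h2, hgeo.self] at hva1
      omega
    have e0 : (fun j => if j = 0 then v else if j ≤ m + 1 then p (j - 1) else k • v) 0 = v :=
      if_pos rfl
    have e1 : ∀ j, j ≤ m →
        (fun j => if j = 0 then v else if j ≤ m + 1 then p (j - 1) else k • v) (j + 1) = p j := by
      intro j hj
      have h2 : j + 1 ≤ m + 1 := by omega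
      simp only [if_neg (Nat.succ_ne_zero j), if_pos h2, Nat.add_sub_cancel]
    have e2 : (fun j => if j = 0 then v else if j ≤ m + 1 then p (j - 1) else k • v) (m + 2) =
        k • v := by
      have h2 : ¬ m + 2 ≤ m + 1 := by omega
      simp only [if_neg (Nat.succ_ne_zero (m + 1)), if_neg h2]
    generalize (fun j => if j = 0 then v else if j ≤ m + 1 then p (j - 1) else k • v) = p2
      at e0 e1 e2
    obtain ⟨p1, f0, f1, f2, f3⟩ := poly_lift hwm htri hthru hcg hci hG hF hT (m + 2) (by omega)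
      p2 k hk (by rw [e0]; exact hNA) (by rw [e2, e0])
    have hsm : ∀ (g : G) (c : F.C), g • ap F P.D c = ap F P.D (g • c) := fun _ _ => rfl
    refine ⟨fun j => p1 (j + 1), ?_, ?_, fun i hi => ?_, fun i hi => ?_⟩
    · obtain ⟨κ, _, hκ⟩ := f2 1 (by omega)
      have h2 := f3 0 (by omega)
      have h3 : p2 (0 + 1) = p 0 := e1 0 (by omega)
      rw [f0, e0, h3, hc, hva1] at h2
      have h4 : p1 (0 + 1) = ap F P.D (κ • c) := by
        rw [← hsm, ← hc, ← h3]
        exact hκ
      rw [h4] at h2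
      show p1 (0 + 1) = p 0
      rw [h4, huniq _ h2, hc]
    · obtain ⟨κ, _, hκ⟩ := f2 (m + 1) (by omega)
      have h2 := f3 (m + 1) (by omega)
      have h5 : m + 1 + 1 = m + 2 := rfl
      rw [h5, f1, e0, e2, e1 m le_rfl, h1, hiso, hc, hgeo.symm _ v, hgeo.symm _ v, hva1] at h2
      have h4 : p1 (m + 1) = ap F P.D ((κ * k) • c) := by
        rw [hκ, e1 m le_rfl, h1, hc, ← hsm, mul_smul]
      rw [h4] at h2
      show p1 (m + 1) = p 0
      rw [h4, huniq _ h2, hc]
    · obtain ⟨κ, hκ, hh⟩ := f2 (i + 1) (by omega)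
      refine ⟨κ, hκ, ?_⟩
      show p1 (i + 1) = κ • p i
      rw [hh, e1 i hi]
    · have h2 := f3 (i + 1) (by omega)
      rw [e1 i hi.le, e1 (i + 1) hi] at h2
      exact h2

end Mon
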