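import Pool.Agent.Work.MP_6f5fa7_al.Mon.StAct
import Pool.Agent.Work.MP_6f5fa7_al.Mon.StCone
import Pool.Agent.Work.MP_6f5fa7_al.Mon.StHyp

/-! Mon: M8, the consequences `ker_far`, `loc_iso`, `small_turns`, `ker_big` of the windmill
(item A5). -/
set_option autoImplicit false

namespace Mon

private theorem A5_le_Ex (ρ : ℕ) : ρ ≤ Ex ρ := by
  unfold Ex
  exact Nat.le_mul_of_pos_right ρ (by positivity)

private theorem A5_one_le_D (P : Par) : 1 ≤ P.D := by
  have h1 := P.h1
  have h2 := P.hδ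
  have h3 := P.hΛs
  have h4 := P.hΛ
  have h5 := P.hA0
  have h6 := A5_le_Ex (1000 * P.Λ)
  have h7 := P.hD
  omega

private theorem A5_one_le_s (P : Par) : 1 ≤ P.s := by
  have h1 := A5_one_le_D P
  have h2 := P.hA
  have h3 := P.hs
  omega

/-- the numerical facts used below, with `B = δ1 s 2^D` -/
private theorem A5_num (P : Par) :
    1 ≤ P.δ1 * (P.s * 2 ^ P.D) ∧ P.s ≤ P.δ1 * (P.s * 2 ^ P.D) ∧
      12 * (P.δ1 * (P.s * 2 ^ P.D)) ≤ P.θ ∧ P.θ ≤ 18 * (P.δ1 * (P.s * 2 ^ P.D)) ∧
      100000 * (P.δ1 * (P.s * 2 ^ P.D)) ≤ P.TT2 := by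
  have h1 := P.h1
  have hs := A5_one_le_s P
  have h2 : 1 ≤ 2 ^ P.D := Nat.one_le_two_pow
  have hW : P.s ≤ P.s * 2 ^ P.D := Nat.le_mul_of_pos_right _ (by omega)
  have hB : P.s * 2 ^ P.D ≤ P.δ1 * (P.s * 2 ^ P.D) := Nat.le_mul_of_pos_left _ (by omega)
  have hθ : P.θ = 12 * (P.δ1 * (P.s * 2 ^ P.D)) + 6 * (P.s * 2 ^ P.D) := by
    unfold Par.θ; ring
  have hTT := P.hTT2
  have hTT' : P.δ1 * P.s * 2 ^ P.D = P.δ1 * (P.s * 2 ^ P.D) := by ring
  rw [hTT'] at hTT
  refine ⟨by omega, by omega, by omega, by omega, hTT⟩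

section
variable {G X : Type} [Group G] [MulAction G X] {F : Fam G X} {D : ℕ}

private theorem A5_smul_ap (g : G) (c : F.C) : g • ap F D c = ap F D (g • c) := rfl

private theorem A5_smul_bs (g : G) (x : X) : g • bs F D x = bs F D (g • x) := rfl

private theorem A5_na_smul {p : Cone F D} (hp : NA p) (g : G) : NA (g • p) := by
  intro c h
  apply hp (g⁻¹ • c)
  rw [← A5_smul_ap, ← h, inv_smul_smul]

private theorem A5_na_bs (x : X) : NA (bs F D x) := by
  intro c h
  have := congrArg Subtype.val h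
  simp [bs, ap] at this

/-- rotating around an apex does not change the distance to the apex -/
private theorem A5_rot {e : Cone F D → Cone F D → ℕ} (hi : Isom G e) (c : F.C) (r : G)
    (hr : r ∈ F.R c) (v : Cone F D) : e (ap F D c) (r • v) = e (ap F D c) v := by
  have h := hi r (ap F D c) v
  rwa [A5_smul_ap, F.R_fix c r hr] at h

private theorem A5_ang_symm {d : X → X → ℕ} (hd : Geo d) {e : Cone F D → Cone F D → ℕ}
    {c : F.C} {p q : Cone F D} {t : ℕ} (h : Ang F D d e c p q t) : Ang F D d e c q p t := by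
  obtain ⟨y, hy, y', hy', h⟩ := h
  exact ⟨y', hy', y, hy, by rw [hd.symm]; exact h⟩

end

theorem ker_far (hw : S.windmill) (hat : S.ang_thru) (hcg : S.cone_geo) (hci : S.cone_isom) :
    S.ker_far := by
  intro G X _ _ d P F T M hG hF hT p hp k hk h1
  obtain ⟨n1, n2, n3, n4, n5⟩ := A5_num P
  have hD := A5_one_le_D P
  have hs := A5_one_le_s P
  have hg : Geo (cd F P.D d P.s) := hcg hG.geo hG.isom hs hD
  have hi : Isom G (cd F P.D d P.s) := hci hG.geo hG.isom hs hD
  cases hw hG hF hT p hp k hk with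
  | one => exact absurd rfl h1
  | step _ r c hr hang hpeel =>
    have hthru := hat hG hF hT c p (k • p) (T - 6 * P.θ) (by omega) hang
    have h2 := hthru.1
    by_cases h3 : cd F P.D d P.s p (ap F P.D c) ≤ cd F P.D d P.s (ap F P.D c) (k • p)
    · exact ⟨c, by omega⟩
    · refine ⟨k⁻¹ • c, ?_⟩
      have h4 : cd F P.D d P.s p (ap F P.D (k⁻¹ • c)) =
          cd F P.D d P.s (ap F P.D c) (k • p) := by
        have := hi k p (ap F P.D (k⁻¹ • c))
        rw [A5_smul_ap, smul_inv_smul] at this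
        rw [← this, hg.symm]
      omega

theorem loc_iso (hw : S.windmill) (hat : S.ang_thru) (htri : S.ang_tri) (hcg : S.cone_geo)
    (hci : S.cone_isom) : S.loc_iso := by
  intro G X _ _ d P F T M hG hF hT p q hp hq h k hk
  obtain ⟨n1, n2, n3, n4, n5⟩ := A5_num P
  have hD := A5_one_le_D P
  have hs := A5_one_le_s P
  have hg : Geo (cd F P.D d P.s) := hcg hG.geo hG.isom hs hD
  have hi : Isom G (cd F P.D d P.s) := hci hG.geo hG.isom hs hD
  cases hw hG hF hT p hp k hk with
  | one => rw [one_smul]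
  | step _ r c hr hang hpeel =>
    rcases htri hG hF hT c p (k • q) (k • p) (T - 6 * P.θ) (P.θ + 1) (P.θ + 1)
      (A5_na_smul hq k c) hang (by omega) with h1 | h1
    · have h2 := (hat hG hF hT c p (k • q) _ (by omega) h1).1
      have h3 := h c
      omega
    · exfalso
      have h2 := (hat hG hF hT c (k • q) (k • p) _ (by omega) h1).1
      have h3 := h (k⁻¹ • c)
      have h4 : cd F P.D d P.s p (ap F P.D (k⁻¹ • c)) =
          cd F P.D d P.s (ap F P.D c) (k • p) := by
        have := hi k p (ap F P.D (k⁻¹ • c))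
        rw [A5_smul_ap, smul_inv_smul] at this
        rw [← this, hg.symm]
      have h5 : cd F P.D d P.s (k • q) (k • p) = cd F P.D d P.s p q := by
        rw [hi k q p, hg.symm]
      omega

theorem small_turns (hw : S.windmill) (hat : S.ang_thru) (htri : S.ang_tri) (hcg : S.cone_geo)
    (hci : S.cone_isom) : S.small_turns := by
  intro G X _ _ d P F T M hG hF hT p q hp hq h k hk
  obtain ⟨n1, n2, n3, n4, n5⟩ := A5_num P
  have hD := A5_one_le_D P
  have hs := A5_one_le_s P
  have hg : Geo (cd F P.D d P.s) := hcg hG.geo hG.isom hs hD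
  have hi : Isom G (cd F P.D d P.s) := hci hG.geo hG.isom hs hD
  have hpeel := hw hG hF hT q hq k hk
  clear hk
  induction hpeel with
  | one => rw [one_smul]
  | step k r c hr hang _ ih =>
    rcases htri hG hF hT c q p (k • q) (T - 6 * P.θ) (T / 2) (T - 6 * P.θ + 1 - T / 2)
      (hp c) hang (by omega) with h1 | h1
    · exact absurd (A5_ang_symm hG.geo h1) (h c)
    · have h2 := (hat hG hF hT c p (k • q) _ (by omega) h1).1
      have h3 := hg.tri p (ap F P.D c) ((r * k) • q)
      rw [mul_smul, A5_rot hi c r hr] at h3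
      rw [mul_smul] at ih
      omega

theorem ker_big (hw : S.windmill) (hep : S.exit_proj) (hpl : S.pr_lip) : S.ker_big := by
  intro G X _ _ d P F T M hG hF hT k hk h1 x
  obtain ⟨n1, n2, n3, n4, n5⟩ := A5_num P
  have hsA := P.hs
  cases hw hG hF hT (bs F P.D x) (A5_na_bs x) k hk with
  | one => exact absurd rfl h1
  | step _ r c hr hang hpeel =>
    obtain ⟨y, hy, y', hy', h2⟩ := hang
    rw [A5_smul_bs] at hy'
    have h3 := hep hG hF c x y hy
    have h4 := hep hG hF c (k • x) y' hy'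
    have h5 := hpl hG hF c x (k • x)
    have h6 := hG.geo.tri y (pr F d c x).1 y'
    have h7 := hG.geo.tri (pr F d c x).1 (pr F d c (k • x)).1 y'
    have h8 := hG.geo.symm y' (pr F d c (k • x)).1
    omega

end Mon
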