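import Pool.Agent.Work.MP_6f5fa7_al.Mon.StAct
import Pool.Agent.Work.MP_6f5fa7_al.Mon.StCone
import Pool.Agent.Work.MP_6f5fa7_al.Mon.StHyp

/-! Mon: M8, the consequences `near_unique`, `ker_stab` of the windmill (item A6). -/
set_option autoImplicit false

namespace Mon

private theorem A6_le_Ex (ρ : ℕ) : ρ ≤ Ex ρ := by
  unfold Ex
  exact Nat.le_mul_of_pos_right ρ (by positivity)

private theorem A6_one_le_D (P : Par) : 1 ≤ P.D := by
  have h1 := P.h1
  have h2 := P.hδ
  have h3 := P.hΛs
  have h4 := P.hΛ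
  have h5 := P.hA0
  have h6 := A6_le_Ex (1000 * P.Λ)
  have h7 := P.hD
  omega

private theorem A6_one_le_s (P : Par) : 1 ≤ P.s := by
  have h1 := A6_one_le_D P
  have h2 := P.hA
  have h3 := P.hs
  omega

private theorem A6_num (P : Par) : 1 ≤ P.θ ∧ 20 * P.θ ≤ P.TT2 := by
  have h1 := P.h1
  have hs := A6_one_le_s P
  have h2 : 1 ≤ 2 ^ P.D := Nat.one_le_two_pow
  have hW : P.s ≤ P.s * 2 ^ P.D := Nat.le_mul_of_pos_right _ (by omega)
  have hB : P.s * 2 ^ P.D ≤ P.δ1 * (P.s * 2 ^ P.D) := Nat.le_mul_of_pos_left _ (by omega)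
  have hθ : P.θ = 12 * (P.δ1 * (P.s * 2 ^ P.D)) + 6 * (P.s * 2 ^ P.D) := by
    unfold Par.θ; ring
  have hTT := P.hTT2
  have hTT' : P.δ1 * P.s * 2 ^ P.D = P.δ1 * (P.s * 2 ^ P.D) := by ring
  rw [hTT'] at hTT
  constructor <;> omega

section
variable {G X : Type} [Group G] [MulAction G X] {F : Fam G X} {D : ℕ}

private theorem A6_smul_ap (g : G) (c : F.C) : g • ap F D c = ap F D (g • c) := rfl

private theorem A6_na_smul {p : Cone F D} (hp : NA p) (g : G) : NA (g • p) := by
  intro c h
  apply hp (g⁻¹ • c)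
  rw [← A6_smul_ap, ← h, inv_smul_smul]

private theorem A6_na_vt (hD : 1 ≤ D) (c : F.C) (y : F.Y c) : NA (vt F D c y D) := by
  intro c' h
  have hD0 : D ≠ 0 := by omega
  have hv : vt F D c y D = ⟨.cone c y.1 D, ⟨y.2, hD, le_rfl⟩⟩ := by
    unfold vt
    rw [dif_neg hD0]
    exact dif_pos le_rfl
  rw [hv] at h
  have := congrArg Subtype.val h
  cases this

private theorem A6_vt_top (c : F.C) (y : F.Y c) (k : ℕ) (hk : D + 1 ≤ k) :
    vt F D c y k = ap F D c := by
  have h0 : k ≠ 0 := by omega
  have h1 : ¬ k ≤ D := by omega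
  unfold vt
  rw [dif_neg h0]
  exact dif_neg h1

end

/-- a vertex which is not an apex has positive distance from every apex -/
private theorem A6_pos (hlip : S.lev_lip) (hlap : S.lev_ap) (heq : S.eq_vt_of_lev)
    {G X : Type} [Group G] [MulAction G X] {d : X → X → ℕ} {s D : ℕ} {F : Fam G X} (hg : Geo d)
    (hi : Isom G d) (hs : 1 ≤ s) (hD : 1 ≤ D) (hsy : ∀ v w, cd F D d s v w = cd F D d s w v)
    {p : Cone F D} (hp : NA p) (c : F.C) : 1 ≤ cd F D d s p (ap F D c) := by
  by_contra hlt
  have h0 : cd F D d s (ap F D c) p = 0 := by rw [hsy]; omega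
  have h1 := hlip (F := F) hg hi hs hD c (ap F D c) p
  rw [hlap (F := F) hg hi hs hD c, h0] at h1
  obtain ⟨y, hy, -⟩ := heq (F := F) hg hi hs hD c p (by omega)
  rw [A6_vt_top c y _ (by omega)] at hy
  exact hp c hy

theorem near_unique (hgeo : S.cone_geo) (hisom : S.cone_isom) (hlip : S.lev_lip)
    (hlap : S.lev_ap) (heq : S.eq_vt_of_lev) (hapap : S.ap_ap) (htri : S.ang_tri)
    (hthru : S.ang_thru) (hwind : S.windmill) : S.near_unique := by
  intro G X _ _ d P F T M hG hF hT p hp c κ hκ h1 h2
  have hs := A6_one_le_s P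
  have hD := A6_one_le_D P
  obtain ⟨hθ1, hθ2⟩ := A6_num P
  have g := hgeo (F := F) hG.geo hG.isom hs hD
  have gi := hisom (F := F) hG.geo hG.isom hs hD
  have hpos : ∀ (v : Cone F P.D), NA v → ∀ b, 1 ≤ cd F P.D d P.s v (ap F P.D b) :=
    fun v hv b => A6_pos hlip hlap heq hG.geo hG.isom hs hD g.symm hv b
  have key : ∀ k : G, Peel F P.D d (cd F P.D d P.s) (T - 6 * P.θ) p k →
      cd F P.D d P.s p (ap F P.D (k • c)) ≤ 2 * P.D + 2 → k • c = c := by
    intro k hk
    induction hk with
    | one => intro _; exact one_smul _ _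
    | step k r b hr hang _ ih =>
      intro hk2
      have hb : b = k • c := by
        by_contra hne
        have hne' : ap F P.D (k • c) ≠ ap F P.D b := by
          intro h
          have := congrArg Subtype.val h
          simp only [ap] at this
          injection this with this
          exact hne this.symm
        have hd : 2 * P.D + 2 ≤ cd F P.D d P.s (ap F P.D b) (ap F P.D (k • c)) :=
          hapap (F := F) hG.geo hG.isom hs hD b (k • c) hne
        rcases htri hG hF hT b p (ap F P.D (k • c)) (k • p) (T - 6 * P.θ) (P.θ + 1) (P.θ + 1)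
          hne' hang (by omega) with h | h
        · have ht := (hthru hG hF hT b p (ap F P.D (k • c)) (P.θ + 1) (by omega) h).1
          have := hpos p hp b
          omega
        · have ht := (hthru hG hF hT b (ap F P.D (k • c)) (k • p) (P.θ + 1) (by omega) h).1
          have h3 := hpos (k • p) (A6_na_smul hp k) b
          rw [g.symm] at h3
          have h4 : cd F P.D d P.s (ap F P.D (k • c)) (k • p) = cd F P.D d P.s p (ap F P.D c) := by
            rw [← A6_smul_ap, gi, g.symm]
          rw [h4, g.symm (ap F P.D (k • c)) (ap F P.D b)] at ht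
          omega
      have hrk : (r * k) • c = k • c := by
        rw [mul_smul, ← hb]
        exact F.R_fix b r hr
      rw [← hrk]
      exact ih (by rw [hrk]; exact hk2)
  exact key κ (hwind hG hF hT p hp κ hκ) h2

theorem ker_stab (hgeo : S.cone_geo) (hisom : S.cone_isom) (hcd : S.cd_vt_ap) (hapap : S.ap_ap)
    (hthru : S.ang_thru) (hwind : S.windmill) : S.ker_stab := by
  intro G X _ _ d P F T M hG hF hT c κ hκ hc
  have hs := A6_one_le_s P
  have hD := A6_one_le_D P
  obtain ⟨hθ1, hθ2⟩ := A6_num P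
  have g := hgeo (F := F) hG.geo hG.isom hs hD
  have gi := hisom (F := F) hG.geo hG.isom hs hD
  obtain ⟨y0, hy0⟩ := F.Y_ne c
  let p : Cone F P.D := vt F P.D c ⟨y0, hy0⟩ P.D
  have hp : NA p := A6_na_vt hD c _
  have hpc : cd F P.D d P.s p (ap F P.D c) = 1 := by
    have := hcd (F := F) hG.geo hG.isom hs hD c ⟨y0, hy0⟩ P.D (by omega)
    show cd F P.D d P.s (vt F P.D c ⟨y0, hy0⟩ P.D) (ap F P.D c) = 1
    omega
  have key : ∀ k : G, Peel F P.D d (cd F P.D d P.s) (T - 6 * P.θ) p k → k • c = c →
      k ∈ F.R c := by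
    intro k hk
    induction hk with
    | one => intro _; exact one_mem _
    | step k r b hr hang _ ih =>
      intro hkc
      have hb : b = c := by
        by_contra hne
        have hd : 2 * P.D + 2 ≤ cd F P.D d P.s (ap F P.D b) (ap F P.D c) :=
          hapap (F := F) hG.geo hG.isom hs hD b c hne
        have ht := (hthru hG hF hT b p (k • p) (T - 6 * P.θ) (by omega) hang).1
        have h3 : cd F P.D d P.s (ap F P.D c) (k • p) = 1 := by
          rw [g.symm, ← hpc]
          conv_lhs => rw [← hkc, ← A6_smul_ap, gi]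
        have h4 := g.tri p (ap F P.D c) (k • p)
        have h5 := g.tri (ap F P.D b) p (ap F P.D c)
        rw [g.symm (ap F P.D b) p] at h5
        omega
      subst hb
      have hrk : (r * k) • b = b := by
        rw [mul_smul, hkc]
        exact F.R_fix b r hr
      have := ih hrk
      have h2 : r⁻¹ * (r * k) ∈ F.R b := mul_mem (inv_mem hr) this
      rwa [inv_mul_cancel_left] at h2
  exact key κ (hwind hG hF hT p hp κ hκ) hc

end Mon
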