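import Pool.Agent.Work.MP_6f5fa7_al.Mon.StAct
import Pool.Agent.Work.MP_6f5fa7_al.Mon.StCone

/-! Mon, item A7: the quotient pseudo-distance. -/
set_option autoImplicit false

namespace Mon

private theorem a7_pos (P : Par) : 1 ≤ P.s ∧ 1 ≤ P.D := by
  have h1 := P.h1
  have h2 := P.hδ
  have h3 := P.hΛs
  have h4 := P.hΛ
  have h5 := P.hA0
  have h6 := P.hD
  have h7 := P.hA
  have h8 := P.hs
  have h9 : 1000 * P.Λ ≤ Ex (1000 * P.Λ) := by
    unfold Ex
    exact Nat.le_mul_of_pos_right _ (by positivity)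
  omega

section
variable {G V : Type} [Group G] [MulAction G V] (K : Subgroup G) {e : V → V → ℕ}

private theorem a7_att (p q : V) : ∃ κ ∈ K, e p (κ • q) = qd K e p q := by
  have h : (sInf {m | ∃ k ∈ K, e p (k • q) = m}) ∈ {m | ∃ k ∈ K, e p (k • q) = m} :=
    Nat.sInf_mem ⟨_, 1, K.one_mem, rfl⟩
  exact h

private theorem a7_le (p q : V) {κ : G} (hκ : κ ∈ K) : qd K e p q ≤ e p (κ • q) :=
  Nat.sInf_le ⟨κ, hκ, rfl⟩

private theorem a7_geo (hg : Geo e) (hi : Isom G e) : Geo (qd K e) := by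
  have hself : ∀ x, qd K e x x = 0 := by
    intro x
    have h := a7_le (e := e) K x x K.one_mem
    rw [one_smul, hg.self] at h
    omega
  have hsym : ∀ x y, qd K e y x ≤ qd K e x y := by
    intro x y
    obtain ⟨κ, hκ, h⟩ := a7_att (e := e) K x y
    have h1 := a7_le (e := e) K y x (K.inv_mem hκ)
    have h2 : e y (κ⁻¹ • x) = e x (κ • y) := by
      rw [← hi κ y (κ⁻¹ • x), smul_inv_smul, hg.symm]
    omega
  have htri : ∀ x y z, qd K e x z ≤ qd K e x y + qd K e y z := by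
    intro x y z
    obtain ⟨κ, hκ, h⟩ := a7_att (e := e) K x y
    obtain ⟨μ, hμ, h'⟩ := a7_att (e := e) K y z
    have h1 := a7_le (e := e) K x z (K.mul_mem hκ hμ)
    have h2 := hg.tri x (κ • y) ((κ * μ) • z)
    have h3 : e (κ • y) ((κ * μ) • z) = e y (μ • z) := by
      rw [mul_smul, hi]
    omega
  refine ⟨hself, fun x y => le_antisymm (hsym y x) (hsym x y), htri, ?_⟩
  intro x y i hi'
  obtain ⟨κ, hκ, h⟩ := a7_att (e := e) K x y
  obtain ⟨z, hz1, hz2⟩ := hg.geo x (κ • y) i (by omega)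
  refine ⟨z, ?_⟩
  have h1 := a7_le (e := e) K x z K.one_mem
  rw [one_smul] at h1
  have h2 := a7_le (e := e) K z y hκ
  have h3 := htri x z y
  omega

private theorem a7_isom (hi : Isom G e) (hn : K.Normal) : Isom G (qd K e) := by
  have key : ∀ (g : G) (x y : V), qd K e (g • x) (g • y) ≤ qd K e x y := by
    intro g x y
    obtain ⟨κ, hκ, h⟩ := a7_att (e := e) K x y
    have h1 := a7_le (e := e) K (g • x) (g • y) (hn.conj_mem κ hκ g)
    have h2 : (g * κ * g⁻¹) • g • y = g • κ • y := by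
      rw [← mul_smul, ← mul_smul]
      congr 1
      group
    rw [h2, hi] at h1
    omega
  intro g x y
  apply le_antisymm (key g x y)
  have h := key g⁻¹ (g • x) (g • y)
  rwa [inv_smul_smul, inv_smul_smul] at h

end

theorem qd_att : S.qd_att := by
  intro G X _ _ d P F T M hG hF hT p q
  exact a7_att _ p q

theorem qd_le : S.qd_le := by
  intro G X _ _ d P F T M hG hF hT p q κ hκ
  exact a7_le _ p q hκ

theorem qd_geo (h1 : S.cone_geo) (h2 : S.cone_isom) : S.qd_geo := by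
  intro G X _ _ d P F T M hG hF hT
  exact a7_geo _ (h1 hG.geo hG.isom (a7_pos P).1 (a7_pos P).2)
    (h2 hG.geo hG.isom (a7_pos P).1 (a7_pos P).2)

theorem qd_isom (h1 : S.cone_isom) (h2 : S.ker_normal) : S.qd_isom := by
  intro G X _ _ d P F T M hG hF hT
  exact a7_isom _ (h1 hG.geo hG.isom (a7_pos P).1 (a7_pos P).2) (h2 hG hF hT)

theorem qd_zero (h1 : S.cone_geo) : S.qd_zero := by
  intro G X _ _ d P F T M hG hF hT κ hκ p
  have h := a7_le (e := cd F P.D d P.s) (Ker F) p (κ • p) ((Ker F).inv_mem hκ)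
  rw [inv_smul_smul, (h1 hG.geo hG.isom (a7_pos P).1 (a7_pos P).2).self] at h
  exact Nat.le_zero.1 h

theorem qd_ap (h1 : S.smul_ap) (h2 : S.ap_ap) : S.qd_ap := by
  intro G X _ _ d P F T M hG hF hT c c' h
  obtain ⟨κ, hκ, h'⟩ := a7_att (e := cd F P.D d P.s) (Ker F) (ap F P.D c) (ap F P.D c')
  rw [← h', h1 hG.geo hG.isom (a7_pos P).1 (a7_pos P).2]
  apply h2 hG.geo hG.isom (a7_pos P).1 (a7_pos P).2
  intro hc
  apply h κ⁻¹ ((Ker F).inv_mem hκ)
  rw [hc, inv_smul_smul]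

theorem fixB_of_close (h1 : S.smul_ap) (h2 : S.ap_ap) : S.fixB_of_close := by
  intro G X _ _ d P F T M hG hF hT c u h
  by_contra hcon
  have h3 := qd_ap h1 h2 hG hF hT c (u • c) (by
    intro κ hκ hc
    apply hcon
    refine ⟨κ⁻¹, (Ker F).inv_mem hκ, ?_⟩
    rw [mul_smul, ← hc, inv_smul_smul])
  rw [h1 hG.geo hG.isom (a7_pos P).1 (a7_pos P).2] at h
  omega

end Mon
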