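import Pool.Agent.Work.MP_6f5fa7_al.Mon.StAct
import Pool.Agent.Work.MP_6f5fa7_al.Mon.StCone
import Pool.Agent.Work.MP_6f5fa7_al.Mon.StHyp
import Pool.Agent.Work.MP_6f5fa7_al.Mon.StTool

/-! Mon, item A8: the quotient is hyperbolic (helper9). -/
set_option autoImplicit false

namespace Mon

private theorem a8_pos (P : Par) : 1 ≤ P.s ∧ 1 ≤ P.D := by
  have h1 := P.h1
  have h2 := P.hδ
  have h3 := P.hΛs
  have h4 := P.hΛ
  have h5 := P.hA0
  have h6 := P.hD
  have h7 := P.hA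
  have h8 := P.hs
  have h9 : 1000 * P.Λ ≤ Ex (1000 * P.Λ) := by
    unfold Ex
    exact Nat.le_mul_of_pos_right _ (by positivity)
  omega

section
variable {G X : Type} [Group G] [MulAction G X] {d : X → X → ℕ} {P : Par} {F : Fam G X} {T M : ℕ}

/-- closed polygons in the quotient lift to closed polygons -/
private theorem a8_poly (H1 : S.poly_lift') (H2 : S.qd_att) (H3 : S.cone_isom)
    (hG : P.St G d M) (hF : FamOK P d F T) (hT : P.TT2 ≤ T)
    (m : ℕ) (hm : m ≤ 10) (x : ℕ → Cone F P.D) (h1 : x m = x 0) :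
    ∃ x' : ℕ → Cone F P.D, x' 0 = x 0 ∧ x' m = x 0 ∧
      (∀ i, i ≤ m → ∃ κ ∈ Ker F, x' i = κ • x i) ∧
      ∀ i, i < m → cd F P.D d P.s (x' i) (x' (i + 1)) ≤
        qd (Ker F) (cd F P.D d P.s) (x i) (x (i + 1)) := by
  have hatt := fun p q => H2 hG hF hT p q
  have hci : Isom G (cd F P.D d P.s) := H3 hG.geo hG.isom (a8_pos P).1 (a8_pos P).2
  choose k hk hk2 using hatt
  let κ : ℕ → G := fun i => Nat.rec (1 : G) (fun j r => r * k (x j) (x (j + 1))) i
  have hκ0 : κ 0 = 1 := rfl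
  have hκs : ∀ i, κ (i + 1) = κ i * k (x i) (x (i + 1)) := fun i => rfl
  have hκm : ∀ i, κ i ∈ Ker F := by
    intro i
    induction i with
    | zero => rw [hκ0]; exact Subgroup.one_mem _
    | succ i ih => rw [hκs]; exact Subgroup.mul_mem _ ih (hk _ _)
  obtain ⟨p', hp0, hpm, hpk, hpd⟩ := H1 hG hF hT m hm (fun i => κ i • x i) (κ m) (hκm m)
    (by simp only [hκ0, one_smul, h1])
  refine ⟨p', ?_, ?_, ?_, ?_⟩
  · simpa only [hκ0, one_smul] using hp0
  · simpa only [hκ0, one_smul] using hpm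
  · intro i hi
    obtain ⟨a, ha, hb⟩ := hpk i hi
    exact ⟨a * κ i, Subgroup.mul_mem _ ha (hκm i), by rw [hb, mul_smul]⟩
  · intro i hi
    refine (hpd i hi).trans ?_
    rw [hκs, mul_smul, hci]
    exact (hk2 _ _).le

/-- replacing points by translates does not change `qd` -/
private theorem a8_l (Hg : S.qd_geo) (Hz : S.qd_zero)
    (hG : P.St G d M) (hF : FamOK P d F T) (hT : P.TT2 ≤ T) (κ : G) (hκ : κ ∈ Ker F)
    (p q : Cone F P.D) :
    qd (Ker F) (cd F P.D d P.s) p q ≤ qd (Ker F) (cd F P.D d P.s) (κ • p) q := by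
  have g := Hg hG hF hT
  have h1 := g.tri p (κ • p) q
  have h3 := Hz hG hF hT κ hκ p
  omega

private theorem a8_le (H2 : S.qd_le)
    (hG : P.St G d M) (hF : FamOK P d F T) (hT : P.TT2 ≤ T) (p q : Cone F P.D) :
    qd (Ker F) (cd F P.D d P.s) p q ≤ cd F P.D d P.s p q := by
  have h2 := H2 hG hF hT p q 1 (Subgroup.one_mem _)
  rwa [one_smul] at h2

end

/-- the quotient is `δ`-hyperbolic -/
theorem qd_hyp (h1 : S.poly_lift') (h2 : S.qd_att) (h3 : S.cone_isom) (h4 : S.cone_geo)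
    (h5 : S.cone_hyp) (h6 : S.qd_le) (h7 : S.qd_geo) (h8 : S.qd_zero) (h9 : S.btw_split)
    (h10 : S.btw_proj) (h11 : S.slim_hyp) : S.qd_hyp := by
  intro G X _ _ d P F T M hG hF hT
  have hs := (a8_pos P).1
  have hD := (a8_pos P).2
  have cg : Geo (cd F P.D d P.s) := h4 hG.geo hG.isom hs hD
  have ch : Hyp P.δ1 (cd F P.D d P.s) := h5 hG hF
  have g := h7 hG hF hT
  have key : ∀ p q r w, Btw (qd (Ker F) (cd F P.D d P.s)) p w q 0 →
      ∃ u, (Btw (qd (Ker F) (cd F P.D d P.s)) p u r 0 ∨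
        Btw (qd (Ker F) (cd F P.D d P.s)) r u q 0) ∧
        qd (Ker F) (cd F P.D d P.s) w u ≤ 3 * P.δ1 := by
    intro p q r w hw
    obtain ⟨x', hx0, hx4, hxk, hxd⟩ := a8_poly h1 h2 h3 hG hF hT 4 (by norm_num)
      (fun i => match i with
        | 0 => p
        | 1 => w
        | 2 => q
        | 3 => r
        | _ => p) rfl
    have d0 := hxd 0 (by norm_num)
    have d1 := hxd 1 (by norm_num)
    have d2 := hxd 2 (by norm_num)
    have d3 := hxd 3 (by norm_num)
    obtain ⟨k1, hk1, e1⟩ := hxk 1 (by norm_num)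
    obtain ⟨k2, hk2, e2⟩ := hxk 2 (by norm_num)
    obtain ⟨k3, hk3, e3⟩ := hxk 3 (by norm_num)
    simp only [Nat.zero_add, Nat.reduceAdd] at d0 d1 d2 d3 hx0 hx4 e1 e2 e3
    rw [hx0, e1] at d0
    rw [e1, e2] at d1
    rw [e2, e3] at d2
    rw [e3, hx4] at d3
    have q1 := h6 hG hF hT p q k2 hk2
    have b1 : Btw (cd F P.D d P.s) p (k1 • w) (k2 • q) 0 := by
      unfold Btw at hw ⊢
      omega
    rcases h9 cg ch b1 (k3 • r) with b2 | b2
    · obtain ⟨m, hm, hm'⟩ := h10 cg ch b2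
      refine ⟨m, Or.inl ?_, ?_⟩
      · unfold Btw at hm ⊢
        have c1 := a8_le h6 hG hF hT p m
        have c2 := a8_le h6 hG hF hT m (k3 • r)
        have c3 := a8_l h7 h8 hG hF hT k3 hk3 r m
        have c4 := g.symm r m
        have c5 := g.symm (k3 • r) m
        have c6 := cg.symm (k3 • r) p
        have c7 := g.symm r p
        omega
      · have c1 := a8_le h6 hG hF hT (k1 • w) m
        have c2 := a8_l h7 h8 hG hF hT k1 hk1 w m
        omega
    · obtain ⟨m, hm, hm'⟩ := h10 cg ch b2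
      refine ⟨m, Or.inr ?_, ?_⟩
      · unfold Btw at hm ⊢
        have c1 := a8_le h6 hG hF hT (k3 • r) m
        have c2 := a8_le h6 hG hF hT m (k2 • q)
        have c3 := a8_l h7 h8 hG hF hT k3 hk3 r m
        have c4 := a8_l h7 h8 hG hF hT k2 hk2 q m
        have c5 := g.symm q m
        have c6 := g.symm (k2 • q) m
        have c7 := cg.symm (k3 • r) (k2 • q)
        have c8 := g.symm q r
        omega
      · have c1 := a8_le h6 hG hF hT (k1 • w) m
        have c2 := a8_l h7 h8 hG hF hT k1 hk1 w m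
        omega
  have hh := h11 g key
  intro x y z t
  have hq := hh x y z t
  have p1 := P.h1
  have p2 := P.hδ
  omega

end Mon
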