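import Pool.Agent.Work.MP_6f5fa7_al.Mon.StCyc
import Pool.Agent.Work.MP_6f5fa7_al.Mon.StTool

/-! Mon C1: consequences of T2. -/
set_option autoImplicit false

namespace Mon

private theorem C1_pos (P : Par) : 1 ≤ P.δ := by
  have := P.hδ
  have := P.h1
  omega

private theorem C1_orb {X : Type} {d : X → X → ℕ} {G : Type} [Group G] [MulAction G X]
    (hg : Geo d) (hi : Isom G d) (g : G) (x : X) (m : ℕ) :
    d x (g ^ m • x) ≤ m * d x (g • x) := by
  induction m with
  | zero => simp [hg.self]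
  | succ m ih =>
    have h1 : d x (g ^ (m + 1) • x) ≤ d x (g ^ m • x) + d (g ^ m • x) (g ^ (m + 1) • x) :=
      hg.tri _ _ _
    have h2 : d (g ^ m • x) (g ^ (m + 1) • x) = d x (g • x) := by
      rw [pow_succ, mul_smul, hi]
    rw [Nat.succ_mul]
    omega

theorem t2_growth (h : S.disp_growth) : S.t2_growth := by
  intro G X _ _ d P M hG g hg x j
  have hδ := C1_pos P
  have h20 : ∀ x : X, 20 * P.δ ≤ d x (g ^ M • x) := by
    rcases hG.T2 g with h1 | h1
    · exact absurd (Subgroup.mem_bot.mp h1) hg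
    · exact h1
  have h3 := h hG.geo hG.isom hG.hyp hδ (g ^ M) (20 * P.δ) h20 (by omega) x j
  rw [← pow_mul] at h3
  have h4 : 20 * P.δ - 4 * P.δ = 16 * P.δ := by omega
  rwa [h4] at h3

theorem t2_growth' (h : S.disp_growth) : S.t2_growth' := by
  intro G X _ _ d P M hG g hg x f
  have h1 := t2_growth h P hG hg x f
  have h2 := C1_orb hG.geo hG.isom (g ^ f) x M
  rw [← pow_mul, Nat.mul_comm f M] at h2
  omega

theorem t2_unbdd (h : S.disp_growth) : S.t2_unbdd := by
  intro G X _ _ d P M hG g hg x B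
  refine ⟨M * (B + 1), ?_⟩
  have h1 := t2_growth h P hG hg x (B + 1)
  have hδ := C1_pos P
  have h2 : (B + 1) * 1 ≤ (B + 1) * (16 * P.δ) := Nat.mul_le_mul_left _ (by omega)
  omega

theorem inf_pow (h : S.disp_growth) : S.inf_pow := by
  intro G X _ _ d P M hG g hg x i hi h1
  have h2 := t2_growth' h P hG hg x i
  rw [h1, one_smul, hG.geo.self, Nat.mul_zero] at h2
  have hδ := C1_pos P
  have h3 : 1 * 1 ≤ i * (16 * P.δ) := Nat.mul_le_mul hi (by omega)
  omega

theorem tors_of_bdd (h : S.disp_growth) : S.tors_of_bdd := by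
  intro G X _ _ d P M hG g x B hb
  by_contra hg
  obtain ⟨i, hi, hd⟩ := hb (M * B + 1)
  have h2 := t2_growth' h P hG hg x i
  have h3 : M * d x (g ^ i • x) ≤ M * B := Nat.mul_le_mul_left _ hd
  have hδ := C1_pos P
  have h4 : i * 1 ≤ i * (16 * P.δ) := Nat.mul_le_mul_left _ (by omega)
  omega

end Mon
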