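import Pool.Agent.Work.MP_6f5fa7_al.Mon.StTool
import Pool.Agent.Work.MP_6f5fa7_al.Mon.StCyc

/-! Mon: item C2, `inf_of_far` and `axis_near`. -/
set_option autoImplicit false

namespace Mon

private theorem c2_le_ex (ρ : ℕ) : ρ ≤ Ex ρ := Nat.le_mul_of_pos_right ρ (Nat.two_pow_pos ρ)

private theorem c2_par (P : Par) : 1 ≤ P.δ ∧ 1000 * P.δ ≤ P.Λ ∧ 1000 * P.Λ ≤ P.A0 ∧
    1000 * P.A0 ≤ P.A := by
  have h1 := P.h1
  have h2 := P.hδ
  have h3 := P.hΛs
  have h4 := P.hΛ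
  have h5 := P.hA0
  have h6 := P.hD
  have h7 := P.hA
  have h8 := c2_le_ex (1000 * P.Λ)
  refine ⟨by omega, by omega, by omega, by omega⟩

private theorem c2_n (P : Par) : 1 ≤ P.n := P.hprime.one_lt.le

theorem inf_of_far (hdi : S.dichotomy) : S.inf_of_far := by
  intro G X _ _ d P M hG g hg x y R h h1 h2 hgn
  obtain ⟨p1, p2, p3, p4⟩ := c2_par P
  have pn := c2_n P
  have hnb : ∀ m : X, ¬ (∀ i : ℕ, i ≤ d m (g ^ i • m)) := by
    intro m hm
    have h3 := hm P.n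
    rw [hgn, one_smul, hG.geo.self] at h3
    omega
  obtain ⟨m1, a1, b1⟩ := hG.geo.geo x y (5 * R + 40 * P.δ) (by omega)
  obtain ⟨m2, a2, b2⟩ := hG.geo.geo x y (d x y - (5 * R + 40 * P.δ)) (by omega)
  have c1 : Btw d x m1 y 0 := by unfold Btw; omega
  have c2 : Btw d x m2 y 0 := by unfold Btw; omega
  have e1 : Mv d g m1 (25 * P.δ) := by
    rcases hdi hG.geo hG.isom hG.hyp p1 g x y m1 R h1 h2 c1 (by omega) (by omega) with h3 | h3
    · exact h3
    · exact absurd h3.2 (hnb m1)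
  have e2 : Mv d g m2 (25 * P.δ) := by
    rcases hdi hG.geo hG.isom hG.hyp p1 g x y m2 R h1 h2 c2 (by omega) (by omega) with h3 | h3
    · exact h3
    · exact absurd h3.2 (hnb m2)
  have t1 := hG.geo.tri x m1 y
  have t2 := hG.geo.tri m1 m2 y
  refine hG.T3a g m1 m2 (by rwa [Subgroup.mem_bot]) (by omega) ?_ ?_
    (by rw [hgn]; exact Subgroup.one_mem _)
  · unfold Mv at e1 ⊢; omega
  · unfold Mv at e2 ⊢; omega

theorem axis_near (hdi : S.dichotomy) (hun : S.t2_unbdd) : S.axis_near := by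
  intro G X _ _ d P M hG g hg x R h1
  obtain ⟨p1, p2, p3, p4⟩ := c2_par P
  obtain ⟨i, hi⟩ := hun P hG hg x (10 * R + 80 * P.δ)
  have h2 : Mv d g (g ^ i • x) R := by
    unfold Mv at h1 ⊢
    have h3 : g • g ^ i • x = g ^ i • g • x := by
      rw [smul_smul, smul_smul, ← pow_succ', ← pow_succ]
    rw [h3, hG.isom]
    exact h1
  obtain ⟨m, a1, b1⟩ := hG.geo.geo x (g ^ i • x) (5 * R + 40 * P.δ) (by omega)
  have c1 : Btw d x m (g ^ i • x) 0 := by unfold Btw; omega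
  refine ⟨m, by omega, ?_⟩
  rcases hdi hG.geo hG.isom hG.hyp p1 g x (g ^ i • x) m R h1 h2 c1 (by omega) (by omega)
    with h3 | h3
  · refine ⟨hG.T3b g m (by rwa [Subgroup.mem_bot]) ?_, Or.inl h3⟩
    unfold Mv at h3 ⊢; omega
  · refine ⟨fun a b => ?_, Or.inr h3.1⟩
    have h4 := h3.1 a b
    omega

end Mon
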