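import Pool.Agent.Work.MP_6f5fa7_al.Mon.StTool
import Pool.Agent.Work.MP_6f5fa7_al.Mon.StCyc

/-! Mon: item C3, centralisers of short elements of infinite order are abelian. -/
set_option autoImplicit false

namespace Mon

namespace C3

variable {G X : Type} [Group G] [MulAction G X] {d : X → X → ℕ}

/-- Displacement is constant along translates by commuting elements. -/
theorem comm_move (hi : Isom G d) {a b : G} (hab : Commute a b) (x : X) :
    d (b • x) (a • (b • x)) = d x (a • x) := by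
  have h1 : a • (b • x) = b • (a • x) := by
    rw [← mul_smul, ← mul_smul, hab.eq]
  rw [h1, hi]

theorem inv_move (hg : Geo d) (hi : Isom G d) (a : G) (x : X) :
    d x (a⁻¹ • x) = d x (a • x) := by
  have h1 := hi a x (a⁻¹ • x)
  rw [smul_inv_smul] at h1
  rw [← h1, hg.symm]

/-- Thickness is constant along translates by commuting elements. -/
theorem thick_comm (hi : Isom G d) {g b : G} (hab : Commute g b) {x : X} {κ : ℕ}
    (h : Thick d g x κ) : Thick d g (b • x) κ := by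
  intro i j
  rw [comm_move hi (hab.pow_left i) x, comm_move hi (hab.pow_left j) x,
    comm_move hi (hab.pow_left (i + j)) x]
  exact h i j

/-- Two middle points of `[x, y]`. -/
theorem two_points (hg : Geo d) {x y : X} {L A : ℕ} (h : 2 * L + A ≤ d x y) :
    ∃ m₁ m₂, Btw d x m₁ y 0 ∧ Btw d x m₂ y 0 ∧ L ≤ d x m₁ ∧ L ≤ d m₁ y ∧ L ≤ d x m₂ ∧
      L ≤ d m₂ y ∧ A ≤ d m₁ m₂ := by
  obtain ⟨m₁, h1, h2⟩ := hg.geo x y L (by omega)
  obtain ⟨m₂, h3, h4⟩ := hg.geo x y (d x y - L) (by omega)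
  refine ⟨m₁, m₂, by unfold Btw; omega, by unfold Btw; omega, by omega, by omega, by omega,
    by omega, ?_⟩
  have h5 := hg.tri x m₁ m₂
  omega

/-- If `g` commutes with `w = [g, g']` then `[g ^ i, g'] = w ^ i`. -/
theorem comm_pow {g g' w : G} (hw : w = g * g' * g⁻¹ * g'⁻¹) (hc : Commute g w) (i : ℕ) :
    g ^ i * g' * (g ^ i)⁻¹ * g'⁻¹ = w ^ i := by
  induction i with
  | zero => simp
  | succ i ih =>
    have e1 : g ^ (i + 1) * g' * (g ^ (i + 1))⁻¹ * g'⁻¹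
        = g * (g ^ i * g' * (g ^ i)⁻¹ * g'⁻¹) * (g' * g⁻¹ * g'⁻¹) := by
      rw [pow_succ']
      group
    rw [e1, ih, (hc.pow_right i).eq, pow_succ, mul_assoc]
    congr 1
    rw [hw]
    group

end C3

open C3 in
theorem cyc_abelian (i1 : S.btw_quad) (i2 : S.btw_proj) (i3 : S.btw_close) (i4 : S.ax_near)
    (i5 : S.t2_unbdd) (i6 : S.tors_of_bdd) (i7 : S.comm_middle) : S.cyc_abelian := by
  intro G X _ _ d P M hG h hh g g' h1 h2
  have hgeo := hG.geo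
  have hi := hG.isom
  have hhyp := hG.hyp
  obtain ⟨hhn, x₀, hx₀⟩ := hh
  have cgh : Commute g h := h1
  have cgh' : Commute g' h := h2
  have hΛs := P.hΛs
  have hΛ := P.hΛ
  have hδ0 : 0 < P.δ := by have := P.h1; have := P.hδ; omega
  by_contra hne
  obtain ⟨w, hw⟩ : ∃ w : G, w = g * g' * g⁻¹ * g'⁻¹ := ⟨_, rfl⟩
  have hw1 : w ≠ 1 := by
    intro e
    apply hne
    rw [hw] at e
    have := congrArg (fun z => z * g' * g) e
    simpa [mul_assoc] using this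
  have cwh : Commute w h := by
    rw [hw]
    exact ((cgh.mul_left cgh').mul_left cgh.inv_left).mul_left cgh'.inv_left
  obtain ⟨R, hR⟩ : ∃ R : ℕ, R = d x₀ (g • x₀) + d x₀ (g' • x₀) := ⟨_, rfl⟩
  -- a far point
  obtain ⟨i, hfar⟩ := i5 P hG hhn x₀ (2 * (6 * R + 60 * P.δ) + P.A)
  have gx : Mv d g x₀ R := by unfold Mv; omega
  have gx' : Mv d g' x₀ R := by unfold Mv; omega
  have gy : Mv d g (h ^ i • x₀) R := by
    unfold Mv
    rw [comm_move hi (cgh.pow_right i) x₀]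
    exact gx
  have gy' : Mv d g' (h ^ i • x₀) R := by
    unfold Mv
    rw [comm_move hi (cgh'.pow_right i) x₀]
    exact gx'
  -- the commutator at middle points
  have hwm : ∀ m : X, Btw d x₀ m (h ^ i • x₀) 0 → 5 * R + 40 * P.δ ≤ d x₀ m →
      5 * R + 40 * P.δ ≤ d m (h ^ i • x₀) → Mv d w m (20 * P.δ) := by
    intro m hb c1 c2
    rw [hw]
    exact i7 hgeo hi hhyp g g' x₀ (h ^ i • x₀) m R gx gy gx' gy' hb c1 c2
  obtain ⟨u, hu⟩ : ∃ u : G, u = g * w * g⁻¹ := ⟨_, rfl⟩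
  have hum : ∀ m : X, Btw d x₀ m (h ^ i • x₀) 0 → 6 * R + 60 * P.δ ≤ d x₀ m →
      6 * R + 60 * P.δ ≤ d m (h ^ i • x₀) → Mv d u m (30 * P.δ) := by
    intro m hb c1 c2
    have ivx : d x₀ (g⁻¹ • x₀) ≤ R := by rw [inv_move hgeo hi]; exact gx
    have ivy : d (h ^ i • x₀) (g⁻¹ • (h ^ i • x₀)) ≤ R := by
      rw [inv_move hgeo hi]; exact gy
    have hb' : Btw d (g⁻¹ • x₀) (g⁻¹ • m) (g⁻¹ • (h ^ i • x₀)) 0 := by
      unfold Btw at hb ⊢
      rw [hi, hi, hi]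
      exact hb
    have e1 : d (g⁻¹ • m) (g⁻¹ • x₀) = d x₀ m := by rw [hi, hgeo.symm]
    have e2 : d (g⁻¹ • m) (g⁻¹ • (h ^ i • x₀)) = d m (h ^ i • x₀) := by rw [hi]
    have q1 := i1 hgeo hhyp (x := x₀) (y := h ^ i • x₀) (x' := g⁻¹ • x₀)
      (y' := g⁻¹ • (h ^ i • x₀)) (w := g⁻¹ • m) (κ := 0) (R := R) hb' ivx ivy
      (by omega) (by omega)
    obtain ⟨m', q2, q3⟩ := i2 hgeo hhyp q1
    have q4 := hgeo.symm (g⁻¹ • m) m'
    have q5 := hgeo.tri (g⁻¹ • m) m' (g⁻¹ • x₀)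
    have q6 := hgeo.tri m' x₀ (g⁻¹ • x₀)
    have q7 := hgeo.tri (g⁻¹ • m) m' (g⁻¹ • (h ^ i • x₀))
    have q8 := hgeo.tri m' (h ^ i • x₀) (g⁻¹ • (h ^ i • x₀))
    have q9 := hgeo.symm m' x₀
    have q10 := hwm m' q2 (by omega) (by omega)
    unfold Mv at q10 ⊢
    have r1 : d m (u • m) = d (g⁻¹ • m) (w • (g⁻¹ • m)) := by
      rw [← hi g (g⁻¹ • m) (w • (g⁻¹ • m)), smul_inv_smul, hu, mul_smul, mul_smul]
    have r2 := hgeo.tri (g⁻¹ • m) m' (w • (g⁻¹ • m))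
    have r3 := hgeo.tri m' (w • m') (w • (g⁻¹ • m))
    have r4 := hi w m' (g⁻¹ • m)
    omega
  obtain ⟨m₁, m₂, b1, b2, l1, l2, l3, l4, hA⟩ := two_points hgeo (x := x₀) (y := h ^ i • x₀)
    (L := 6 * R + 60 * P.δ) (A := P.A) (by omega)
  have wm1 := hwm m₁ b1 (by omega) (by omega)
  have wm2 := hwm m₂ b2 (by omega) (by omega)
  have um1 := hum m₁ b1 l1 l2
  have um2 := hum m₂ b2 l3 l4
  have mono : ∀ {a : G} {m : X} {R : ℕ}, Mv d a m R → R ≤ P.Λ → Mv d a m P.Λ :=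
    fun ha hR => le_trans ha hR
  -- `w` has infinite order
  have hwn : w ^ P.n ≠ 1 := by
    have := hG.T3a w m₁ m₂ (by rwa [Subgroup.mem_bot]) hA (mono wm1 (by omega))
      (mono wm2 (by omega))
    rwa [Subgroup.mem_bot] at this
  -- `u` commutes with `w`
  have huw : u * w * u⁻¹ * w⁻¹ ∈ (⊥ : Subgroup G) :=
    hG.T3c u w m₁ m₂ hA (mono um1 (by omega)) (mono um2 (by omega)) (mono wm1 (by omega))
      (mono wm2 (by omega))
  rw [Subgroup.mem_bot] at huw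
  have cuw : Commute u w := by
    have e : u * w = w * u := by
      have := congrArg (fun z => z * w * u) huw
      simpa [mul_assoc] using this
    exact e
  -- thickness of `h`
  have hth : Thick d h x₀ P.A0 := hG.T3b h x₀ (by rwa [Subgroup.mem_bot])
    (mono hx₀ (by omega))
  have hub : ∀ B : ℕ, ∃ i : ℕ, B < d x₀ (h ^ i • x₀) := fun B => i5 P hG hhn x₀ B
  -- bounded orbits of `u w⁻¹`
  have hbd : ∀ j : ℕ, d x₀ ((u * w⁻¹) ^ j • x₀) ≤
      2 * R + 2 * (2 * (P.A0 + P.A0 + P.Λs + 5 * P.δ)) := by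
    intro j
    obtain ⟨y, hy⟩ : ∃ y : X, y = (w⁻¹) ^ j • x₀ := ⟨_, rfl⟩
    have hty : Thick d h y P.A0 := by
      rw [hy]
      exact thick_comm hi (cwh.symm.inv_right.pow_right j) hth
    obtain ⟨l, hl⟩ := i4 hgeo hi hhyp h x₀ y P.A0 P.A0 P.Λs hub hty hth hx₀
    have e1 : d (h ^ l • x₀) (g⁻¹ • (h ^ l • x₀)) ≤ R := by
      rw [comm_move hi ((cgh.inv_left).zpow_right l) x₀, inv_move hgeo hi]
      exact gx
    have e2 : d y (g⁻¹ • y) ≤ 2 * (2 * (P.A0 + P.A0 + P.Λs + 5 * P.δ)) + R := by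
      have f1 := hgeo.tri y (h ^ l • x₀) (g⁻¹ • y)
      have f2 := hgeo.tri (h ^ l • x₀) (g⁻¹ • (h ^ l • x₀)) (g⁻¹ • y)
      have f3 := hi g⁻¹ (h ^ l • x₀) y
      have f4 := hgeo.symm y (h ^ l • x₀)
      omega
    have e3 : (u * w⁻¹) ^ j = g * w ^ j * g⁻¹ * (w⁻¹) ^ j := by
      rw [(cuw.inv_right).mul_pow, hu, conj_pow]
    have e4 : (u * w⁻¹) ^ j • x₀ = g • (w ^ j • (g⁻¹ • y)) := by
      rw [e3, hy, ← mul_smul, ← mul_smul, ← mul_smul]
    have e5 : d (g⁻¹ • x₀) (w ^ j • (g⁻¹ • y)) = d x₀ ((u * w⁻¹) ^ j • x₀) := by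
      rw [e4, ← hi g (g⁻¹ • x₀), smul_inv_smul]
    have e6 : d x₀ (w ^ j • (g⁻¹ • y)) = d y (g⁻¹ • y) := by
      rw [← hi (w ^ j) y (g⁻¹ • y)]
      congr 1
      rw [hy, ← mul_smul, inv_pow, mul_inv_cancel, one_smul]
    have e7 := hgeo.tri (g⁻¹ • x₀) x₀ (w ^ j • (g⁻¹ • y))
    have e8 : d (g⁻¹ • x₀) x₀ ≤ R := by
      rw [hgeo.symm, inv_move hgeo hi]
      exact gx
    omega
  have htors : (u * w⁻¹) ^ P.n = 1 :=
    i6 P hG x₀ (2 * R + 2 * (2 * (P.A0 + P.A0 + P.Λs + 5 * P.δ))) (fun j => ⟨j, le_rfl, hbd j⟩)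
  have hmove : ∀ m : X, Mv d w m (20 * P.δ) → Mv d u m (30 * P.δ) →
      Mv d (u * w⁻¹) m P.Λ := by
    intro m c1 c2
    unfold Mv at c1 c2 ⊢
    have f1 := hgeo.tri m (u • m) ((u * w⁻¹) • m)
    have f2 : d (u • m) ((u * w⁻¹) • m) = d m (w⁻¹ • m) := by
      rw [mul_smul, hi]
    have f3 := inv_move hgeo hi w m
    omega
  have hone : u * w⁻¹ = 1 := by
    by_contra hne'
    have := hG.T3a (u * w⁻¹) m₁ m₂ (by rwa [Subgroup.mem_bot]) hA (hmove m₁ wm1 um1)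
      (hmove m₂ wm2 um2)
    exact this (by rw [Subgroup.mem_bot]; exact htors)
  have cgw : Commute g w := by
    have e : u = w := by rwa [mul_inv_eq_one] at hone
    rw [hu, mul_inv_eq_iff_eq_mul] at e
    exact e
  -- all powers of `w` are commutators, and move `x₀` by a bounded amount
  have hfin : ∀ j : ℕ, d x₀ (w ^ j • x₀) ≤ 20 * P.δ + 2 * (P.A0 + P.δ) := by
    intro j
    obtain ⟨R', hR'⟩ : ∃ R' : ℕ, R' = d x₀ (g ^ j • x₀) + d x₀ (g' • x₀) := ⟨_, rfl⟩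
    obtain ⟨J, hJ⟩ := i5 P hG hhn x₀ (5 * R' + 40 * P.δ + P.A0)
    obtain ⟨p, hp⟩ : ∃ p : X, p = (h ^ J)⁻¹ • x₀ := ⟨_, rfl⟩
    obtain ⟨q, hq⟩ : ∃ q : X, q = h ^ J • x₀ := ⟨_, rfl⟩
    have gp : Mv d (g ^ j) p R' := by
      unfold Mv
      rw [hp, comm_move hi ((cgh.pow_pow j J).inv_right) x₀]
      omega
    have gq : Mv d (g ^ j) q R' := by
      unfold Mv
      rw [hq, comm_move hi (cgh.pow_pow j J) x₀]
      omega
    have gp' : Mv d g' p R' := by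
      unfold Mv
      rw [hp, comm_move hi ((cgh'.pow_right J).inv_right) x₀]
      omega
    have gq' : Mv d g' q R' := by
      unfold Mv
      rw [hq, comm_move hi (cgh'.pow_right J) x₀]
      omega
    have t1 := hth J J
    have t2 : d p x₀ = d x₀ (h ^ J • x₀) := by
      rw [hp, ← hi (h ^ J) ((h ^ J)⁻¹ • x₀) x₀, smul_inv_smul]
    have t3 : d p q = d x₀ (h ^ (J + J) • x₀) := by
      rw [hp, hq, ← hi (h ^ J) ((h ^ J)⁻¹ • x₀) (h ^ J • x₀), smul_inv_smul, ← mul_smul,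
        ← pow_add]
    have t4 : d x₀ q = d x₀ (h ^ J • x₀) := by rw [hq]
    obtain ⟨m, n1, n2⟩ := hgeo.geo p q (d p x₀) (by omega)
    have hx : Btw d p x₀ q P.A0 := by unfold Btw; omega
    have hm0 : Btw d p m q 0 := by unfold Btw; omega
    have hm1 : Btw d p m q P.A0 := by unfold Btw; omega
    have cl := i3 hgeo hhyp (j := 0) hx hm1 (by omega) (by omega)
    have cm := i7 hgeo hi hhyp (g ^ j) g' p q m R' gp gq gp' gq' hm0 (by omega) (by omega)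
    rw [comm_pow hw cgw j] at cm
    unfold Mv at cm
    have f1 := hgeo.tri x₀ m (w ^ j • x₀)
    have f2 := hgeo.tri m (w ^ j • m) (w ^ j • x₀)
    have f3 := hi (w ^ j) m x₀
    have f4 := hgeo.symm m x₀
    omega
  exact hwn (i6 P hG x₀ _ (fun j => ⟨j, le_rfl, hfin j⟩))

end Mon
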