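import Pool.Agent.Work.MP_6f5fa7_al.Mon.StTool
import Pool.Agent.Work.MP_6f5fa7_al.Mon.StCyc

/-! Mon: item C4, elements of the centraliser of a short element are torsion free; elements moving
two far apart points a little commute. -/
set_option autoImplicit false

namespace Mon

theorem cyc_tf (hfar : S.inf_of_far) (hub : S.t2_unbdd) : S.cyc_tf := by
  intro G X _ _ d P M hG h hh g h1 hg
  obtain ⟨hn, x, _⟩ := hh
  obtain ⟨i, hi⟩ := hub P hG hn x (12 * d x (g • x) + 3 * P.A)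
  refine hfar P hG hg (x := x) (y := h ^ i • x) (R := d x (g • x)) hi.le le_rfl ?_
  have hc : g * h ^ i = h ^ i * g := (Commute.pow_right (show Commute g h from h1) i).eq
  show d (h ^ i • x) (g • h ^ i • x) ≤ d x (g • x)
  rw [← mul_smul, hc, mul_smul, hG.isom]

private lemma C4_conj {G X : Type} [Group G] [MulAction G X] {d : X → X → ℕ} {δ R : ℕ}
    (hquad : S.btw_quad) (hproj : S.btw_proj)
    (hg : Geo d) (hi : Isom G d) (hh : Hyp δ d) {x y : X} (k c : G)
    (k1 : Mv d k x R) (k2 : Mv d k y R)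
    (hc : ∀ m, Btw d x m y 0 → 5 * R + 40 * δ ≤ d x m → 5 * R + 40 * δ ≤ d m y →
      Mv d c m (20 * δ))
    {m : X} (hm : Btw d x m y 0) (m1 : 7 * R + 60 * δ < d x m) (m2 : 7 * R + 60 * δ < d m y) :
    Mv d (k * c * k⁻¹) m (30 * δ) := by
  have e1 : d x (k⁻¹ • x) = d (k • x) x := by
    rw [← hi k x (k⁻¹ • x), smul_inv_smul]
  have e2 : d y (k⁻¹ • y) = d (k • y) y := by
    rw [← hi k y (k⁻¹ • y), smul_inv_smul]
  have s1 := hg.symm (k • x) x
  have s2 := hg.symm (k • y) y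
  have f1 : d (k⁻¹ • x) (k⁻¹ • m) = d x m := hi _ _ _
  have f2 : d (k⁻¹ • m) (k⁻¹ • y) = d m y := hi _ _ _
  have f3 : d (k⁻¹ • x) (k⁻¹ • y) = d x y := hi _ _ _
  have s3 := hg.symm (k⁻¹ • m) (k⁻¹ • x)
  unfold Mv at k1 k2
  have hb : Btw d (k⁻¹ • x) (k⁻¹ • m) (k⁻¹ • y) 0 := by
    unfold Btw at hm ⊢; omega
  have hq := hquad hg hh hb (x := x) (y := y) (R := R) (by omega) (by omega) (by omega) (by omega)
  obtain ⟨z, hz1, hz2⟩ := hproj hg hh hq
  have t1 := hg.tri (k⁻¹ • x) x (k⁻¹ • m)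
  have t2 := hg.tri x z (k⁻¹ • m)
  have t3 := hg.tri (k⁻¹ • m) y (k⁻¹ • y)
  have t4 := hg.tri (k⁻¹ • m) z y
  have s4 := hg.symm (k⁻¹ • x) x
  have s5 := hg.symm z (k⁻¹ • m)
  have hzc := hc z hz1 (by omega) (by omega)
  unfold Mv at hzc ⊢
  have e3 : d m ((k * c * k⁻¹) • m) = d (k⁻¹ • m) (c • k⁻¹ • m) := by
    rw [← hi k⁻¹ m, mul_smul, mul_smul, inv_smul_smul]
  have t5 := hg.tri (k⁻¹ • m) z (c • k⁻¹ • m)
  have t6 := hg.tri z (c • z) (c • k⁻¹ • m)
  have e4 : d (c • z) (c • k⁻¹ • m) = d z (k⁻¹ • m) := hi _ _ _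
  omega

theorem far_comm (hcm : S.comm_middle) (hquad : S.btw_quad) (hproj : S.btw_proj)
    (hnorm : S.cyc_norm) (hab : S.cyc_abelian) : S.far_comm := by
  intro G X _ _ d P M hG g h x y R hxy g1 g2 h1 h2
  by_contra hne
  have p1 := P.h1
  have p2 := P.hδ
  have p3 := P.hΛs
  have p4 := P.hΛ
  have p5 := P.hA0
  have p6 := P.hD
  have p7 := P.hA
  have p8 : P.Λ ≤ P.A0 := by
    have : 1000 * P.Λ ≤ Ex (1000 * P.Λ) := Nat.le_mul_of_pos_right _ (by positivity)
    omega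
  set c := g * h * g⁻¹ * h⁻¹ with hcdef
  have hcne : c ≠ 1 := by
    intro h0
    apply hne
    have : g * h * g⁻¹ * h⁻¹ * (h * g) = g * h := by group
    rw [← hcdef, h0, one_mul] at this
    exact this.symm
  have hmid : ∀ m, Btw d x m y 0 → 5 * R + 40 * P.δ ≤ d x m → 5 * R + 40 * P.δ ≤ d m y →
      Mv d c m (20 * P.δ) := fun m hm m1 m2 =>
    hcm hG.geo hG.isom hG.hyp g h x y m R g1 g2 h1 h2 hm m1 m2
  obtain ⟨m, a1, a2⟩ := hG.geo.geo x y (7 * R + 60 * P.δ + 1) (by omega)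
  obtain ⟨m', b1, b2⟩ := hG.geo.geo x y (d x y - (7 * R + 60 * P.δ + 1)) (by omega)
  have hm : Btw d x m y 0 := by unfold Btw; omega
  have hm' : Btw d x m' y 0 := by unfold Btw; omega
  have t := hG.geo.tri x m m'
  have hfar : P.A ≤ d m m' := by omega
  have c1 := hmid m hm (by omega) (by omega)
  have c2 := hmid m' hm' (by omega) (by omega)
  have wk : ∀ {k : G} {z : X} {a b : ℕ}, Mv d k z a → a ≤ b → Mv d k z b := fun h1 h2 => h1.trans h2
  have hcn : c ^ P.n ≠ 1 := by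
    have := hG.T3a c m m' (by simpa using hcne) hfar (wk c1 (by omega)) (wk c2 (by omega))
    simpa using this
  have hshort : P.Short d c := ⟨hcn, m, wk c1 (by omega)⟩
  have key : ∀ k : G, Mv d k x R → Mv d k y R → k * c = c * k := by
    intro k k1 k2
    apply hnorm P hG hshort
    have q1 := C4_conj hquad hproj hG.geo hG.isom hG.hyp k c k1 k2 hmid hm (by omega) (by omega)
    have q2 := C4_conj hquad hproj hG.geo hG.isom hG.hyp k c k1 k2 hmid hm' (by omega) (by omega)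
    have := hG.T3c (k * c * k⁻¹) c m m' hfar (wk q1 (by omega)) (wk q2 (by omega))
      (wk c1 (by omega)) (wk c2 (by omega))
    rw [Subgroup.mem_bot, mul_inv_eq_one, mul_inv_eq_iff_eq_mul] at this
    exact this
  exact hne (hab P hG hshort (key g g1 g2) (key h h1 h2))

end Mon
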