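import Pool.Agent.Work.MP_6f5fa7_al.Mon.StTool
import Pool.Agent.Work.MP_6f5fa7_al.Mon.StCyc

/-! Mon: item C5, centralisers of elements of the centraliser of a short element. -/
set_option autoImplicit false

namespace Mon

namespace C5

variable {G X : Type} [Group G] [MulAction G X] {d : X → X → ℕ}

/-- Displacement is constant along translates by commuting elements. -/
theorem comm_move (hi : Isom G d) {a b : G} (hab : Commute a b) (x : X) :
    d (b • x) (a • (b • x)) = d x (a • x) := by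
  have h1 : a • (b • x) = b • (a • x) := by
    rw [← mul_smul, ← mul_smul, hab.eq]
  rw [h1, hi]

theorem inv_move (hg : Geo d) (hi : Isom G d) (a : G) (x : X) :
    d x (a⁻¹ • x) = d x (a • x) := by
  have h1 := hi a x (a⁻¹ • x)
  rw [smul_inv_smul] at h1
  rw [← h1, hg.symm]

/-- `Thick` at a nearby point. -/
theorem thick_near (hg : Geo d) (hi : Isom G d) {g : G} {x z : X} {κ : ℕ}
    (h : Thick d g z κ) : Thick d g x (κ + 6 * d x z) := by
  intro i j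
  have h1 : ∀ k : ℕ, d x (g ^ k • x) ≤ d z (g ^ k • z) + 2 * d x z := by
    intro k
    have e1 := hg.tri x z (g ^ k • x)
    have e2 := hg.tri z (g ^ k • z) (g ^ k • x)
    have e3 := hi (g ^ k) z x
    have e4 := hg.symm z x
    omega
  have h2 : ∀ k : ℕ, d z (g ^ k • z) ≤ d x (g ^ k • x) + 2 * d x z := by
    intro k
    have e1 := hg.tri z x (g ^ k • z)
    have e2 := hg.tri x (g ^ k • x) (g ^ k • z)
    have e3 := hi (g ^ k) x z
    have e4 := hg.symm z x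
    omega
  have e1 := h1 i
  have e2 := h1 j
  have e3 := h2 (i + j)
  have e4 := h i j
  omega

/-- Thickness is constant along translates by commuting elements. -/
theorem thick_comm (hi : Isom G d) {g b : G} (hab : Commute g b) {x : X} {κ : ℕ}
    (h : Thick d g x κ) : Thick d g (b • x) κ := by
  intro i j
  rw [comm_move hi (hab.pow_left i) x, comm_move hi (hab.pow_left j) x,
    comm_move hi (hab.pow_left (i + j)) x]
  exact h i j

/-- Two middle points of `[x, y]`. -/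
theorem two_points (hg : Geo d) {x y : X} {L A : ℕ} (h : 2 * L + A ≤ d x y) :
    ∃ m₁ m₂, Btw d x m₁ y 0 ∧ Btw d x m₂ y 0 ∧ L ≤ d x m₁ ∧ L ≤ d m₁ y ∧ L ≤ d x m₂ ∧
      L ≤ d m₂ y ∧ A ≤ d m₁ m₂ := by
  obtain ⟨m₁, h1, h2⟩ := hg.geo x y L (by omega)
  obtain ⟨m₂, h3, h4⟩ := hg.geo x y (d x y - L) (by omega)
  refine ⟨m₁, m₂, by unfold Btw; omega, by unfold Btw; omega, by omega, by omega, by omega,
    by omega, ?_⟩
  have h5 := hg.tri x m₁ m₂
  omega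

end C5

open C5 in
theorem cyc_cent (i1 : S.btw_quad) (i2 : S.btw_proj) (i3 : S.middle_move') (i4 : S.ax_near)
    (i5 : S.t2_unbdd) (i6 : S.tors_of_bdd) (i7 : S.axis_near) (i8 : S.cyc_tf) : S.cyc_cent := by
  intro G X _ _ d P M hG h hh g g' h1 hg h2
  have hgeo := hG.geo
  have hi := hG.isom
  have hhyp := hG.hyp
  obtain ⟨hhn, x₀, hx₀⟩ := hh
  have hgn : g ^ P.n ≠ 1 := i8 P hG ⟨hhn, x₀, hx₀⟩ h1 hg
  have cgh : Commute g h := h1
  have cgg' : Commute g' g := h2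
  -- the conjugate
  obtain ⟨k, hk⟩ : ∃ k : G, k = g' * h * g'⁻¹ := ⟨_, rfl⟩
  have cgk : Commute g k := by
    rw [hk]
    exact (cgg'.symm.mul_right cgh).mul_right cgg'.symm.inv_right
  have hΛs := P.hΛs
  have hΛ := P.hΛ
  have hmvh : Mv d h x₀ P.Λs := hx₀
  have hmvk : Mv d k (g' • x₀) P.Λs := by
    unfold Mv
    have e : k • (g' • x₀) = g' • (h • x₀) := by
      rw [hk, ← mul_smul, ← mul_smul]
      congr 1
      group
    rw [e, hi]
    exact hx₀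
  obtain ⟨r, hr⟩ : ∃ r : ℕ, r = d x₀ (g' • x₀) := ⟨_, rfl⟩
  -- a far point
  obtain ⟨i, hfar⟩ := i5 P hG hgn x₀ (2 * (r + 2 * P.Λs + 100 * P.δ) + P.A)
  have hmvh' : Mv d h (g ^ i • x₀) P.Λs := by
    unfold Mv
    rw [comm_move hi (cgh.symm.pow_right i) x₀]
    exact hx₀
  have hmvk' : Mv d k (g ^ i • (g' • x₀)) P.Λs := by
    unfold Mv
    rw [comm_move hi (cgk.symm.pow_right i) (g' • x₀)]
    exact hmvk
  have hr' : d (g ^ i • (g' • x₀)) (g ^ i • x₀) ≤ r := by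
    rw [hi, hgeo.symm, hr]
  have hr'' : d (g' • x₀) x₀ ≤ r := by
    rw [hgeo.symm, hr]
  obtain ⟨m₁, m₂, b1, b2, l1, l2, l3, l4, hA⟩ := two_points hgeo (x := x₀) (y := g ^ i • x₀)
    (L := r + 2 * P.Λs + 100 * P.δ) (A := P.A) (by omega)
  -- displacements of the middle points
  have hmid : ∀ m : X, Btw d x₀ m (g ^ i • x₀) 0 → r + 2 * P.Λs + 100 * P.δ ≤ d x₀ m →
      r + 2 * P.Λs + 100 * P.δ ≤ d m (g ^ i • x₀) →
      Mv d h m (P.Λs + 3 * P.δ) ∧ Mv d k m (P.Λs + 13 * P.δ) := by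
    intro m hb c1 c2
    refine ⟨i3 hgeo hi hhyp h x₀ (g ^ i • x₀) m P.Λs hmvh hmvh' hb (by have := P.h1; have := P.hδ; omega)
      (by have := P.h1; have := P.hδ; omega), ?_⟩
    have hδ0 : 0 < P.δ := by have := P.h1; have := P.hδ; omega
    have q1 := i1 hgeo hhyp (x := g' • x₀) (y := g ^ i • (g' • x₀)) (x' := x₀)
      (y' := g ^ i • x₀) (w := m) (κ := 0) (R := r) hb hr'' hr'
      (by have := hgeo.symm m x₀; omega) (by omega)
    obtain ⟨m', q2, q3⟩ := i2 hgeo hhyp q1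
    have q4 := hgeo.symm m m'
    have q5 := hgeo.tri x₀ m' m
    have q6 := hgeo.tri x₀ (g' • x₀) m'
    have q7 := hgeo.tri m m' (g ^ i • x₀)
    have q8 := hgeo.tri m' (g ^ i • (g' • x₀)) (g ^ i • x₀)
    have q9 := i3 hgeo hi hhyp k (g' • x₀) (g ^ i • (g' • x₀)) m' P.Λs hmvk hmvk' q2
      (by omega) (by omega)
    unfold Mv at q9 ⊢
    have q10 := hgeo.tri m m' (k • m)
    have q11 := hgeo.tri m' (k • m') (k • m)
    have q12 := hi k m' m
    omega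
  obtain ⟨hm1, km1⟩ := hmid m₁ b1 l1 l2
  obtain ⟨hm2, km2⟩ := hmid m₂ b2 l3 l4
  have mono : ∀ {a : G} {m : X} {R : ℕ}, Mv d a m R → R ≤ P.Λ → Mv d a m P.Λ :=
    fun ha hR => le_trans ha hR
  -- the conjugate commutes with `h`
  have hcomm : h * k * h⁻¹ * k⁻¹ ∈ (⊥ : Subgroup G) :=
    hG.T3c h k m₁ m₂ hA (mono hm1 (by omega)) (mono hm2 (by omega)) (mono km1 (by omega))
      (mono km2 (by omega))
  rw [Subgroup.mem_bot] at hcomm
  have chk : Commute h k := by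
    have e : h * k = k * h := by
      have := congrArg (fun z => z * k * h) hcomm
      simpa [mul_assoc] using this
    exact e
  -- bounded orbits of `k h⁻¹`
  obtain ⟨z, hz1, hz2, _⟩ := i7 P hG hgn (x := x₀) (R := d x₀ (g • x₀)) le_rfl
  have ht0 : Thick d g x₀ (P.A0 + 6 * d x₀ z) := thick_near hgeo hi hz2
  have hub : ∀ B : ℕ, ∃ i : ℕ, B < d x₀ (g ^ i • x₀) := fun B => i5 P hG hgn x₀ B
  obtain ⟨κ, hκ⟩ : ∃ κ : ℕ, κ = P.A0 + 6 * d x₀ z := ⟨_, rfl⟩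
  rw [← hκ] at ht0
  have hbd : ∀ j : ℕ, d x₀ ((k * h⁻¹) ^ j • x₀) ≤
      2 * r + 2 * (2 * (κ + κ + d x₀ (g • x₀) + 5 * P.δ)) := by
    intro j
    obtain ⟨y, hy⟩ : ∃ y : X, y = (h⁻¹) ^ j • x₀ := ⟨_, rfl⟩
    have hty : Thick d g y κ := by
      rw [hy]
      exact thick_comm hi (cgh.inv_right.pow_right j) ht0
    obtain ⟨l, hl⟩ := i4 hgeo hi hhyp g x₀ y κ κ (d x₀ (g • x₀)) hub hty ht0 le_rfl
    -- displacement of `y` by the inverse of `g'`
    have e1 : d (g ^ l • x₀) (g'⁻¹ • (g ^ l • x₀)) = r := by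
      rw [comm_move hi ((cgg'.inv_left).zpow_right l) x₀, inv_move hgeo hi, hr]
    have e2 : d y (g'⁻¹ • y) ≤ 2 * (2 * (κ + κ + d x₀ (g • x₀) + 5 * P.δ)) + r := by
      have f1 := hgeo.tri y (g ^ l • x₀) (g'⁻¹ • y)
      have f2 := hgeo.tri (g ^ l • x₀) (g'⁻¹ • (g ^ l • x₀)) (g'⁻¹ • y)
      have f3 := hi g'⁻¹ (g ^ l • x₀) y
      have f4 := hgeo.symm y (g ^ l • x₀)
      omega
    have e3 : (k * h⁻¹) ^ j = g' * h ^ j * g'⁻¹ * (h⁻¹) ^ j := by
      rw [(chk.symm.inv_right).mul_pow, hk, conj_pow]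
    have e4 : (k * h⁻¹) ^ j • x₀ = g' • (h ^ j • (g'⁻¹ • y)) := by
      rw [e3, hy, ← mul_smul, ← mul_smul, ← mul_smul]
    have e5 : d (g'⁻¹ • x₀) (h ^ j • (g'⁻¹ • y)) = d x₀ ((k * h⁻¹) ^ j • x₀) := by
      rw [e4, ← hi g' (g'⁻¹ • x₀), smul_inv_smul]
    have e6 : d x₀ (h ^ j • (g'⁻¹ • y)) = d y (g'⁻¹ • y) := by
      rw [← hi (h ^ j) y (g'⁻¹ • y)]
      congr 1
      rw [hy, ← mul_smul, inv_pow, mul_inv_cancel, one_smul]
    have e7 := hgeo.tri (g'⁻¹ • x₀) x₀ (h ^ j • (g'⁻¹ • y))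
    have e8 : d (g'⁻¹ • x₀) x₀ = r := by
      rw [hgeo.symm, inv_move hgeo hi, hr]
    omega
  have htors : (k * h⁻¹) ^ P.n = 1 :=
    i6 P hG x₀ (2 * r + 2 * (2 * (κ + κ + d x₀ (g • x₀) + 5 * P.δ)))
      (fun j => ⟨j, le_rfl, hbd j⟩)
  -- conclusion
  have hmove : ∀ m : X, Mv d h m (P.Λs + 3 * P.δ) → Mv d k m (P.Λs + 13 * P.δ) →
      Mv d (k * h⁻¹) m P.Λ := by
    intro m c1 c2
    unfold Mv at c1 c2 ⊢
    have f1 := hgeo.tri m (k • m) ((k * h⁻¹) • m)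
    have f2 : d (k • m) ((k * h⁻¹) • m) = d m (h⁻¹ • m) := by
      rw [mul_smul, hi]
    have f3 := inv_move hgeo hi h m
    omega
  have hone : k * h⁻¹ = 1 := by
    by_contra hne
    have := hG.T3a (k * h⁻¹) m₁ m₂ (by rwa [Subgroup.mem_bot]) hA (hmove m₁ hm1 km1)
      (hmove m₂ hm2 km2)
    exact this (by rw [Subgroup.mem_bot]; exact htors)
  have hkh : k = h := by
    rwa [mul_inv_eq_one] at hone
  rw [hk, mul_inv_eq_iff_eq_mul] at hkh
  exact hkh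

end Mon
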