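import Pool.Agent.Work.MP_6f5fa7_al.Mon.StTool
import Pool.Agent.Work.MP_6f5fa7_al.Mon.StCyc

/-!
[MON C7] (helper66): points moved at most `R` by a nontrivial element of the centraliser of a
short element are near the set `Y`.
-/
set_option autoImplicit false

namespace Mon

/-- an element commuting with `c` moves `c • x` as much as `x` -/
private theorem near_Y_mv {G X : Type} [Group G] [MulAction G X] {d : X → X → ℕ}
    (hi : Isom G d) {g c : G} (hc : g * c = c * g) (x : X) :
    d (c • x) (g • c • x) = d x (g • x) := by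
  rw [← mul_smul, hc, mul_smul, hi]

private theorem near_Y_par (P : Par) :
    1 ≤ P.δ ∧ 25 * P.δ ≤ P.Λs ∧ P.Λs ≤ P.Λ ∧
      87 * P.δ + 2 * P.A0 + 2 * P.Λs ≤ 3 * P.A := by
  have e : 1000 * P.Λ ≤ Ex (1000 * P.Λ) := by
    unfold Ex
    exact Nat.le_mul_of_pos_right _ (by positivity)
  have h1 := P.h1
  have h2 := P.hδ
  have h3 := P.hΛs
  have h4 := P.hΛ
  have h5 := P.hA0
  have h6 := P.hD
  have h7 := P.hA
  refine ⟨by omega, by omega, by omega, by omega⟩

theorem near_Y (hcyc : S.cyc_tf) (hunb : S.t2_unbdd) (hdich : S.dichotomy)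
    (hproj : S.btw_proj) (hax : S.ax_near) : S.near_Y := by
  intro G X _ _ d P M hG h hh g h1 hg x R hx
  obtain ⟨p1, p2, p3, p4⟩ := near_Y_par P
  have hgeo := hG.geo
  have hisom := hG.isom
  have hhyp := hG.hyp
  have hgn : g ^ P.n ≠ 1 := hcyc P hG hh h1 hg
  obtain ⟨hhn, x0, hx0⟩ := hh
  have hh1 : h ≠ 1 := by
    rintro rfl
    exact hhn (one_pow _)
  have hgC : g ∈ Subgroup.centralizer {h} := by
    rw [Subgroup.mem_centralizer_iff]
    intro k hk
    rw [Set.mem_singleton_iff] at hk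
    rw [hk]
    exact h1.symm
  have hhC : h ∈ Subgroup.centralizer {h} := by
    rw [Subgroup.mem_centralizer_iff]
    intro k hk
    rw [Set.mem_singleton_iff] at hk
    rw [hk]
  -- a point far away, moved at most `R` by `g`
  obtain ⟨i, hi⟩ := hunb P hG hgn x (2 * (5 * R + 40 * P.δ))
  have hgy : Mv d g (g ^ i • x) R := by
    unfold Mv
    rw [near_Y_mv hisom (pow_succ' g i ▸ pow_succ g i) x]
    exact hx
  obtain ⟨m, hm1, hm2⟩ := hgeo.geo x (g ^ i • x) (5 * R + 40 * P.δ) (by omega)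
  have hmB : Btw d x m (g ^ i • x) 0 := by
    unfold Btw
    omega
  rcases hdich hgeo hisom hhyp p1 g x (g ^ i • x) m R hx hgy hmB (by omega) (by omega) with
    hA | ⟨hA, -⟩
  · refine ⟨m, ⟨g, hgC, hg, ?_⟩, by omega⟩
    unfold Mv at hA ⊢
    omega
  · -- `m` is on a quasi axis of `g`
    obtain ⟨J, hJ⟩ := hunb P hG hgn m (5 * d m (h • m) + 59 * P.δ)
    have e1 : d ((g ^ J)⁻¹ • m) m = d m (g ^ J • m) := by
      have := hisom (g ^ J) ((g ^ J)⁻¹ • m) m
      rw [smul_inv_smul] at this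
      exact this.symm
    have e2 : d ((g ^ J)⁻¹ • m) (g ^ J • m) = d m (g ^ (J + J) • m) := by
      have := hisom (g ^ J) ((g ^ J)⁻¹ • m) (g ^ J • m)
      rw [smul_inv_smul, ← mul_smul, ← pow_add] at this
      exact this.symm
    have hthick := hA J J
    have hB : Btw d ((g ^ J)⁻¹ • m) m (g ^ J • m) (9 * P.δ) := by
      unfold Btw
      omega
    obtain ⟨m', hm', hmm'⟩ := hproj hgeo hhyp hB
    have c1 : h * g ^ J = g ^ J * h := ((show Commute g h from h1).pow_left J).symm.eq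
    have c2 : h * (g ^ J)⁻¹ = (g ^ J)⁻¹ * h :=
      (((show Commute g h from h1).pow_left J).symm.inv_right).eq
    have ha : Mv d h ((g ^ J)⁻¹ • m) (d m (h • m)) := by
      unfold Mv
      rw [near_Y_mv hisom c2 m]
    have hb : Mv d h (g ^ J • m) (d m (h • m)) := by
      unfold Mv
      rw [near_Y_mv hisom c1 m]
    have t1 := hgeo.tri ((g ^ J)⁻¹ • m) m' m
    have t2 := hgeo.tri m m' (g ^ J • m)
    have t3 := hgeo.symm m m'
    have t4 := hgeo.tri x m m'
    rcases hdich hgeo hisom hhyp p1 h ((g ^ J)⁻¹ • m) (g ^ J • m) m' (d m (h • m)) ha hb hm'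
      (by omega) (by omega) with hC | ⟨hC, -⟩
    · refine ⟨m', ⟨h, hhC, hh1, ?_⟩, by omega⟩
      unfold Mv at hC ⊢
      omega
    · have hx0' : Mv d h x0 P.Λ := by
        unfold Mv at hx0 ⊢
        omega
      have hT : Thick d h x0 P.A0 := by
        refine hG.T3b h x0 ?_ hx0'
        rw [Subgroup.mem_bot]
        exact hhn
      obtain ⟨j, hj⟩ := hax hgeo hisom hhyp h x0 m' (9 * P.δ) P.A0 P.Λs
        (fun B => hunb P hG hhn x0 B) hC hT hx0
      refine ⟨h ^ j • x0, ⟨h, hhC, hh1, ?_⟩, ?_⟩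
      · unfold Mv
        rw [near_Y_mv hisom (by rw [← zpow_one_add, ← zpow_add_one, add_comm]) x0]
        exact hx0
      · have t5 := hgeo.tri x m' (h ^ j • x0)
        omega

end Mon
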