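import Pool.Agent.Work.MP_6f5fa7_al.Mon.StDesc
import Pool.Agent.Work.MP_6f5fa7_al.Mon.StAct

/-! Mon, item D1: `fix_two`, `pow_coprime`, `pow_fix`. -/
set_option autoImplicit false

namespace Mon

private theorem D1_Ex_mono {a b : ℕ} (h : a ≤ b) : Ex a ≤ Ex b := by
  unfold Ex
  exact Nat.mul_le_mul h (Nat.pow_le_pow_right (by norm_num) h)

private theorem D1_num (P : Par) : 1000 * Ex (100 * (0 + P.δ)) ≤ P.A0 ∧
    P.D + 100 * Ex (100 * (0 + P.δ)) < 2 * P.D + 2 := by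
  have h1 := P.hΛs
  have h2 := P.hΛ
  have h3 := P.hA0
  have h4 := P.hD
  have h5 : Ex (100 * (0 + P.δ)) ≤ Ex (1000 * P.Λ) := D1_Ex_mono (by omega)
  constructor <;> omega

theorem pow_coprime : S.pow_coprime := by
  intro G X _ _ d P F T M _ _ _ N x i hx hi h
  have hc : Nat.gcd P.n i = 1 := (Nat.Prime.coprime_iff_not_dvd P.hprime).2 hi
  have hb := Nat.gcd_eq_gcd_ab P.n i
  rw [hc] at hb
  have e : x = (x ^ P.n) ^ (Nat.gcdA P.n i) * (x ^ i) ^ (Nat.gcdB P.n i) := by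
    rw [← zpow_natCast x P.n, ← zpow_natCast x i, ← zpow_mul, ← zpow_mul, ← zpow_add, ← hb]
    simp
  rw [e]
  exact N.mul_mem (N.zpow_mem hx _) (N.zpow_mem h _)

private theorem D1_fix_iff {G X : Type} [Group G] [MulAction G X] (F : Fam G X) (g : G)
    (c : F.C) : FixB F g c ↔ g ∈ Ker F ⊔ MulAction.stabilizer G c := by
  rw [← SetLike.mem_coe, Subgroup.normal_mul, Set.mem_mul]
  constructor
  · rintro ⟨κ, hκ, h⟩
    exact ⟨κ⁻¹, (Ker F).inv_mem hκ, κ * g, h, by group⟩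
  · rintro ⟨a, ha, b, hb, rfl⟩
    refine ⟨a⁻¹, (Ker F).inv_mem ha, ?_⟩
    have hb' : b • c = c := hb
    rw [inv_mul_cancel_left, hb']

theorem pow_fix : S.pow_fix := by
  intro G X _ _ d P F T M hG hF hT x i hx hi c h
  rw [D1_fix_iff] at h ⊢
  exact pow_coprime hG hF hT (Ker F ⊔ MulAction.stabilizer G c) x i
    (Subgroup.mem_sup_left hx) hi h

private theorem D1_cd_self {G X : Type} [Group G] [MulAction G X] (F : Fam G X) (D : ℕ)
    (d : X → X → ℕ) (s : ℕ) (p : Cone F D) : cd F D d s p p = 0 := by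
  apply Nat.le_zero.mp
  unfold cd rdist
  exact Nat.sInf_le rfl

theorem fix_two (q1 : S.rot) (q2 : S.qd_ap) : S.fix_two := by
  intro G X _ _ d P F T M hG hF hT u c c' h h' hne
  by_contra hu
  obtain ⟨n1, n2⟩ := D1_num P
  obtain ⟨κ, hκ, hκc⟩ := h'
  have hmv : Mv (qd (Ker F) (cd F P.D d P.s)) u (ap F P.D c') 0 := by
    unfold Mv qd
    apply Nat.sInf_le
    refine ⟨κ, hκ, ?_⟩
    have e : κ • u • ap F P.D c' = ap F P.D c' := by
      have e1 : κ • u • ap F P.D c' = ap F P.D ((κ * u) • c') := by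
        rw [mul_smul]; rfl
      rw [e1, hκc]
    rw [e]
    exact D1_cd_self F P.D d P.s _
  have h1 := q1 hG hF hT c u h hu (ap F P.D c') 0 n1 hmv
  have h2 := q2 hG hF hT c' c (fun κ hκ e => hne κ⁻¹ ((Ker F).inv_mem hκ)
    (by rw [← e, inv_smul_smul]))
  omega

end Mon
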