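import Pool.Agent.Work.MP_6f5fa7_al.Mon.StDesc
import Pool.Agent.Work.MP_6f5fa7_al.Mon.StAct
import Pool.Agent.Work.MP_6f5fa7_al.Mon.StTool

/-! Mon: item D2, `old_turn`. -/
set_option autoImplicit false

namespace Mon

private theorem D2_ex_mono {a b : ℕ} (h : a ≤ b) : Ex a ≤ Ex b :=
  Nat.mul_le_mul h (Nat.pow_le_pow_right (by norm_num) h)

/-- the metric part of `old_turn` -/
private theorem D2_turn (sfel : S.fellow) (sbc : S.btw_close) {G V : Type} [Group G]
    [MulAction G V] {q : V → V → ℕ} {δ : ℕ} (hg : Geo q) (hi : Isom G q) (hh : Hyp δ q)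
    (u : G) (z w : V) (h : Mv q u z (3 * δ)) :
    ∃ v : V, 2 * q z v ≤ q w z + q z (u • w) - q w (u • w) ∧
      q w z + q z (u • w) - q w (u • w) ≤ 2 * q z v + 1 ∧ Mv q u v (12 * δ) := by
  unfold Mv at h ⊢
  have t1 := hg.tri w z (u • w)
  have t2 := hg.tri z (u • w) w
  have t3 := hg.tri z w (u • w)
  have s1 := hg.symm z w
  have s2 := hg.symm (u • w) w
  obtain ⟨j, hj⟩ : ∃ j, j = (q w z + q z (u • w) - q w (u • w)) / 2 := ⟨_, rfl⟩
  obtain ⟨v, hv1, hv2⟩ := hg.geo z w j (by omega)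
  obtain ⟨v', hv1', hv2'⟩ := hg.geo z (u • w) j (by omega)
  refine ⟨v, by omega, by omega, ?_⟩
  have f1 : q v v' ≤ 2 * δ := by
    refine sfel hg hh (c := z) (p := w) (q := u • w) ?_ ?_ ?_ ?_
    · unfold Btw; omega
    · unfold Btw; omega
    · omega
    · omega
  -- the point `u v`
  have i1 : q (u • z) (u • v) = q z v := hi u z v
  have i2 : q (u • v) (u • w) = q v w := hi u v w
  have i3 : q (u • z) (u • w) = q z w := hi u z w
  have t4 := hg.tri z (u • z) (u • v)
  have t5 := hg.tri (u • z) z (u • v)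
  have t6 := hg.tri (u • z) z (u • w)
  have s3 := hg.symm (u • z) z
  have f2 : q (u • v) v' ≤ 3 * δ + 6 * δ + δ := by
    refine sbc hg hh (x := z) (y := u • w) ?_ ?_ ?_ ?_
    · unfold Btw; omega
    · unfold Btw; omega
    · omega
    · omega
  have t7 := hg.tri v v' (u • v)
  have s4 := hg.symm v' (u • v)
  omega

theorem old_turn (sold : S.old_small) (sfel : S.fellow) (sbc : S.btw_close) (sgeo : S.qd_geo)
    (siso : S.qd_isom) (shyp : S.qd_hyp) : S.old_turn := by
  intro G X _ _ d P F T M hG hF hT u hu hun hc z w h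
  have hg := sgeo hG hF hT
  have hi := siso hG hF hT
  have hh := shyp hG hF hT
  obtain ⟨v, hv1, hv2, hv3⟩ := D2_turn sfel sbc hg hi hh u z w h
  have hρ : 1000 * Ex (100 * (12 * P.δ + P.δ)) ≤ P.A0 := by
    have h1 := P.hΛs
    have h2 := P.hΛ
    have h3 : Ex (100 * (12 * P.δ + P.δ)) ≤ Ex (1000 * P.Λ) := D2_ex_mono (by omega)
    have h4 := P.hA0
    omega
  have hz : Mv (qd (Ker F) (cd F P.D d P.s)) u z (12 * P.δ) := by
    unfold Mv at h ⊢
    omega
  have h5 := sold hG hF hT u hu hun hc z v (12 * P.δ) hρ hz hv3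
  have e : 100 * (12 * P.δ + P.δ) = 1300 * P.δ := by ring
  rw [e] at h5
  have h6 := P.h1
  have h7 := P.hδ
  have t1 := hg.tri w z (u • w)
  omega

end Mon
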