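import Pool.Agent.Work.MP_6f5fa7_al.Mon.Defs2

/-! Mon: M11, the descent of the property `S`. -/
set_option autoImplicit false

namespace Mon

-- variable {G X : Type} [Group G] [MulAction G X] {d : X → X → ℕ} {P : Par} {F : Fam G X} {T M : ℕ}   (hG : P.St G d M) (hF : FamOK P d F T) (hT : P.TT2 ≤ T)

/-- (Q1) only the identity fixes two apices of the quotient -/
def S.fix_two : Prop :=
  ∀ {G X : Type} [Group G] [MulAction G X] {d : X → X → ℕ} {P : Par} {F : Fam G X} {T M : ℕ}   (hG : P.St G d M) (hF : FamOK P d F T) (hT : P.TT2 ≤ T)  (u : G) (c c' : F.C) (h : FixB F u c) (h' : FixB F u c')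
    (hne : ∀ κ ∈ Ker F, κ • c ≠ c'),
    u ∈ Ker F

/-- powers prime to `n` -/
def S.pow_coprime : Prop :=
  ∀ {G X : Type} [Group G] [MulAction G X] {d : X → X → ℕ} {P : Par} {F : Fam G X} {T M : ℕ}   (hG : P.St G d M) (hF : FamOK P d F T) (hT : P.TT2 ≤ T)  (N : Subgroup G) (x : G) (i : ℕ) (hx : x ^ P.n ∈ N)
    (hi : ¬ P.n ∣ i) (h : x ^ i ∈ N),
    x ∈ N

/-- if a power prime to `n` fixes an apex class then so does `x` -/
def S.pow_fix : Prop :=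
  ∀ {G X : Type} [Group G] [MulAction G X] {d : X → X → ℕ} {P : Par} {F : Fam G X} {T M : ℕ}   (hG : P.St G d M) (hF : FamOK P d F T) (hT : P.TT2 ≤ T)  (x : G) (i : ℕ) (hx : x ^ P.n ∈ Ker F) (hi : ¬ P.n ∣ i) (c : F.C)
    (h : FixB F (x ^ i) c),
    FixB F x c

/-- old elements turn geodesics -/
def S.old_turn : Prop :=
  ∀ {G X : Type} [Group G] [MulAction G X] {d : X → X → ℕ} {P : Par} {F : Fam G X} {T M : ℕ}   (hG : P.St G d M) (hF : FamOK P d F T) (hT : P.TT2 ≤ T)  (u : G) (hu : u ∉ Ker F) (hun : u ^ P.n ∈ Ker F) (hc : ∀ c, ¬ FixB F u c)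
    (z w : Cone F P.D) (h : Mv (qd (Ker F) (cd F P.D d P.s)) u z (3 * P.δ)),
    qd (Ker F) (cd F P.D d P.s) w z + qd (Ker F) (cd F P.D d P.s) z (u • w) ≤
      qd (Ker F) (cd F P.D d P.s) w (u • w) + (200 * Ex (1300 * P.δ) + 20 * P.δ)

/-- the centres of `x` and `y x y⁻¹` are close if `U(x,y)` is torsion -/
def S.old_close : Prop :=
  ∀ {G X : Type} [Group G] [MulAction G X] {d : X → X → ℕ} {P : Par} {F : Fam G X} {T M : ℕ}   (hG : P.St G d M) (hF : FamOK P d F T) (hT : P.TT2 ≤ T)  (x y : G) (hx0 : x ∉ Ker F) (hx : x ^ P.n ∈ Ker F) (hc : ∀ c, ¬ FixB F x c)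
    (hU : (Uw P.Q x y) ^ P.n ∈ Ker F) (z : Cone F P.D)
    (hz : ∀ i : ℤ, Mv (qd (Ker F) (cd F P.D d P.s)) (x ^ i) z (2 * P.δ + 1)),
    Mv (qd (Ker F) (cd F P.D d P.s)) y z (1000 * Ex (1300 * P.δ))

/-- case (B): `x` fixes no apex class -/
def S.desc_old : Prop :=
  ∀ {G X : Type} [Group G] [MulAction G X] {d : X → X → ℕ} {P : Par} {F : Fam G X} {T M : ℕ}   (hG : P.St G d M) (hF : FamOK P d F T) (hT : P.TT2 ≤ T)  (x y : G) (hx0 : x ∉ Ker F) (hx : x ^ P.n ∈ Ker F) (hc : ∀ c, ¬ FixB F x c)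
    (hU : (Uw P.Q x y) ^ P.n ∈ Ker F),
    ∃ x' y' : G, (∃ κ ∈ Ker F, x' = κ * x) ∧ (∃ κ ∈ Ker F, y' = κ * y) ∧ x' ^ P.n = 1 ∧
      ((Uw P.Q x' y') ^ P.n = 1 ∨ ∃ c, Rel1 P d F (Uw P.Q x' y') x' c)

/-- canoes: sequences of apices with large angles -/
def S.canoeQ : Prop :=
  ∀ {G X : Type} [Group G] [MulAction G X] {d : X → X → ℕ} {P : Par} {F : Fam G X} {T M : ℕ}   (hG : P.St G d M) (hF : FamOK P d F T) (hT : P.TT2 ≤ T)  (v : ℤ → F.C) (t : ℕ) (ht : 10 * P.θ ≤ t)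
    (hne : ∀ i, ∀ κ ∈ Ker F, κ • v i ≠ v (i + 1))
    (hang : ∀ i, AngQ F P.D d (qd (Ker F) (cd F P.D d P.s)) (v i) (ap F P.D (v (i - 1)))
      (ap F P.D (v (i + 1))) t) (i j l : ℤ) (hij : i < j) (hjl : j < l),
    AngQ F P.D d (qd (Ker F) (cd F P.D d P.s)) (v j) (ap F P.D (v i)) (ap F P.D (v l))
      (t - 4 * P.θ)

def S.canoe_len : Prop :=
  ∀ {G X : Type} [Group G] [MulAction G X] {d : X → X → ℕ} {P : Par} {F : Fam G X} {T M : ℕ}   (hG : P.St G d M) (hF : FamOK P d F T) (hT : P.TT2 ≤ T)  (v : ℤ → F.C) (t : ℕ) (ht : 10 * P.θ ≤ t)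
    (hne : ∀ i, ∀ κ ∈ Ker F, κ • v i ≠ v (i + 1))
    (hang : ∀ i, AngQ F P.D d (qd (Ker F) (cd F P.D d P.s)) (v i) (ap F P.D (v (i - 1)))
      (ap F P.D (v (i + 1))) t) (i : ℤ) (m : ℕ),
    m ≤ qd (Ker F) (cd F P.D d P.s) (ap F P.D (v i)) (ap F P.D (v (i + m)))

/-- in a type 1 family at most one of the powers `x^(Q^i)` is small modulo `R c` -/
def S.size_small : Prop :=
  ∀ {G X : Type} [Group G] [MulAction G X] {d : X → X → ℕ} {P : Par} {F : Fam G X} {T M : ℕ}   (hG : P.St G d M) (hF : FamOK P d F T) (hT : P.TT2 ≤ T)  (hF1 : Fam1 P d F) (c : F.C) (x : G) (hx : x • c = c) (hxR : x ∉ F.R c)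
    (i j : ℕ) (hij : i < j) (hj : j ≤ 10 * P.N) (y y' : X) (hy : y ∈ F.Y c) (hy' : y' ∈ F.Y c)
    (r r' : G) (hr : r ∈ F.R c) (hr' : r' ∈ F.R c)
    (h1 : d y ((r * x ^ (P.Q ^ i)) • y) ≤ 100 * P.θ)
    (h2 : d y' ((r' * x ^ (P.Q ^ j)) • y') ≤ 100 * P.θ),
    False

/-- case (A): `x` fixes an apex class -/
def S.desc_fix : Prop :=
  ∀ {G X : Type} [Group G] [MulAction G X] {d : X → X → ℕ} {P : Par} {F : Fam G X} {T M : ℕ}   (hG : P.St G d M) (hF : FamOK P d F T) (hT : P.TT2 ≤ T)  (hF1 : Fam1 P d F) (x y : G) (hx0 : x ∉ Ker F) (hx : x ^ P.n ∈ Ker F) (c : F.C)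
    (hc : x • c = c) (hU : (Uw P.Q x y) ^ P.n ∈ Ker F),
    x * y * x⁻¹ * y⁻¹ ∈ Ker F

/-- the descent for the type 1 step -/
def S.desc1 : Prop :=
  ∀ {G X : Type} [Group G] [MulAction G X] {d : X → X → ℕ} {P : Par} {F : Fam G X} {T M : ℕ}   (hG : P.St G d M) (hF : FamOK P d F T) (hT : P.TT2 ≤ T)  (hF1 : Fam1 P d F) (hS : SProp P G) (x y : G) (hx : x ^ P.n ∈ Ker F)
    (hU : (Uw P.Q x y) ^ P.n ∈ Ker F),
    x * y * x⁻¹ * y⁻¹ ∈ Ker F ∨ Ew P.Q P.N x y ∈ Ker F ∨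
      ∃ (V x' : G) (c : F.C), Rel1 P d F V x' c ∧ ∃ κ ∈ Ker F,
        Ew P.Q P.N x y = κ * Ww P.Q P.N V x'

/-- the descent for the type 2 step -/
def S.desc2 : Prop :=
  ∀ {G X : Type} [Group G] [MulAction G X] {d : X → X → ℕ} {P : Par} {F : Fam G X} {T M : ℕ}   (hG : P.St G d M) (hF : FamOK P d F T) (hT : P.TT2 ≤ T)  (hst : ∀ (c : F.C) (g : G), g • c = c → g ∈ F.R c)
    (hS : ∀ x y : G, x ^ P.n = 1 → (Uw P.Q x y) ^ P.n = 1 → x * y = y * x ∨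
      Ew P.Q P.N x y = 1 ∨ ∃ c, Ew P.Q P.N x y ∈ F.R c) (x y : G) (hx : x ^ P.n ∈ Ker F)
    (hU : (Uw P.Q x y) ^ P.n ∈ Ker F),
    x * y * x⁻¹ * y⁻¹ ∈ Ker F ∨ Ew P.Q P.N x y ∈ Ker F

end Mon

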