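import Pool.Agent.Work.MP_6f5fa7_al.Mon.StTool
import Pool.Agent.Work.MP_6f5fa7_al.Mon.StAct
import Pool.Agent.Work.MP_6f5fa7_al.Mon.StDesc

/-! Mon, item D3: old_close. -/
set_option autoImplicit false

namespace Mon

/-- alternating `y`, `y⁻¹` -/
private def D3y {G : Type} [Group G] (y : G) (i : ℕ) : G := if i % 2 = 0 then y else y⁻¹

private theorem D3y_succ {G : Type} [Group G] (y : G) (i : ℕ) : D3y y (i + 1) = (D3y y i)⁻¹ := by
  unfold D3y
  rcases Nat.mod_two_eq_zero_or_one i with h | h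
  · rw [if_neg (by omega), if_pos h]
  · rw [if_pos (by omega), if_neg (by omega), inv_inv]

/-- prefixes of the powers of `U` -/
private def D3h {G : Type} [Group G] (Q : ℕ) (x y : G) : ℕ → G
  | 0 => 1
  | i + 1 => D3h Q x y i * (x ^ (Q ^ (i % 4 + 1)) * D3y y i)

private theorem D3h_four {G : Type} [Group G] (Q : ℕ) (x y : G) (m : ℕ) :
    D3h Q x y (4 * m) = Uw Q x y ^ m := by
  induction m with
  | zero =>
    show (1 : G) = Uw Q x y ^ 0
    rw [pow_zero]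
  | succ m ih =>
    have h1 : 4 * (m + 1) = 4 * m + 1 + 1 + 1 + 1 := by ring
    have e0 : (4 * m) % 4 + 1 = 1 := by omega
    have e1 : (4 * m + 1) % 4 + 1 = 2 := by omega
    have e2 : (4 * m + 1 + 1) % 4 + 1 = 3 := by omega
    have e3 : (4 * m + 1 + 1 + 1) % 4 + 1 = 4 := by omega
    have y0 : D3y y (4 * m) = y := by unfold D3y; rw [if_pos (by omega)]
    have y1 : D3y y (4 * m + 1) = y⁻¹ := by rw [D3y_succ, y0]
    have y2 : D3y y (4 * m + 1 + 1) = y := by rw [D3y_succ, y1, inv_inv]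
    have y3 : D3y y (4 * m + 1 + 1 + 1) = y⁻¹ := by rw [D3y_succ, y2]
    rw [h1]
    simp only [D3h]
    rw [ih, e0, e1, e2, e3, y0, y1, y2, y3, pow_one, pow_succ (Uw Q x y) m]
    have hU : Uw Q x y = (x ^ Q * y) * (x ^ Q ^ 2 * y⁻¹) * (x ^ Q ^ 3 * y) * (x ^ Q ^ 4 * y⁻¹) := by
      unfold Uw
      rw [conj_pow, conj_pow]
      simp only [mul_assoc]
    rw [hU]
    simp only [mul_assoc]

/-- the abstract form of the argument -/
private theorem D3_main (hbr : S.broken) {G V : Type} [Group G] [MulAction G V] {q : V → V → ℕ}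
    {δ : ℕ} (hg : Geo q) (hh : Hyp δ q) (hi : Isom G q) (Q B e : ℕ) (x y : G) (z : V)
    (hz : ∀ i : ℤ, q z (x ^ i • z) ≤ e)
    (turn : ∀ (k : ℕ) (w : V),
      q w z + q z (x ^ (Q ^ (k % 4 + 1)) • w) ≤ q w (x ^ (Q ^ (k % 4 + 1)) • w) + B)
    (hL : 2 * (B + 2 * e) + 10 * δ + 2 + e ≤ q z (y • z)) (m : ℕ) :
    4 * m ≤ q z (Uw Q x y ^ m • z) := by
  have hyy : ∀ i, q z (D3y y i • z) = q z (y • z) := by
    intro i
    unfold D3y
    split_ifs
    · rfl
    · rw [← hi y z, smul_inv_smul, hg.symm]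
  have hzn : ∀ i : ℕ, q ((x ^ i)⁻¹ • z) z ≤ e := by
    intro i
    have h1 := hz (i : ℤ)
    rw [zpow_natCast] at h1
    rw [← hi (x ^ i), smul_inv_smul]
    exact h1
  -- one step
  have hstep : ∀ i, q (D3h Q x y i • z) (D3h Q x y (i + 1) • z) =
      q ((x ^ (Q ^ (i % 4 + 1)))⁻¹ • z) (D3y y i • z) := by
    intro i
    rw [D3h, mul_smul, hi, ← hi ((x ^ (Q ^ (i % 4 + 1)))⁻¹), ← mul_smul, inv_mul_cancel_left]
  have hst : ∀ i, q z (y • z) - e ≤ q (D3h Q x y i • z) (D3h Q x y (i + 1) • z) := by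
    intro i
    rw [hstep]
    have h1 := hyy i
    have h2 := hzn (Q ^ (i % 4 + 1))
    have h3 := hg.tri z ((x ^ (Q ^ (i % 4 + 1)))⁻¹ • z) (D3y y i • z)
    have h4 := hg.symm z ((x ^ (Q ^ (i % 4 + 1)))⁻¹ • z)
    omega
  have htr : ∀ i, q (D3h Q x y i • z) (D3h Q x y (i + 1) • z) +
      q (D3h Q x y (i + 1) • z) (D3h Q x y (i + 1 + 1) • z) ≤
      q (D3h Q x y i • z) (D3h Q x y (i + 1 + 1) • z) + (B + 2 * e) := by
    intro i
    set w' : V := ((D3y y i)⁻¹ * (x ^ (Q ^ (i % 4 + 1)))⁻¹) • z with hw'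
    set w : V := (D3y y i)⁻¹ • z with hw
    have e1 : D3h Q x y i • z = D3h Q x y (i + 1) • w' := by
      rw [hw', ← mul_smul, D3h]
      congr 1
      group
    have e2 : D3h Q x y (i + 1 + 1) • z =
        D3h Q x y (i + 1) • (x ^ (Q ^ ((i + 1) % 4 + 1)) • w) := by
      rw [hw, ← mul_smul, ← mul_smul]
      conv_lhs => rw [D3h]
      rw [D3y_succ, mul_assoc]
    rw [e1, e2, hi, hi, hi]
    have h1 := turn (i + 1) w
    have h2 : q w' w ≤ e := by
      rw [hw', hw, mul_smul, hi]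
      exact hzn _
    have h3 := hg.tri w' w z
    have h4 := hg.tri w w' (x ^ (Q ^ ((i + 1) % 4 + 1)) • w)
    have h5 := hg.symm w w'
    omega
  have h1 := hbr (G := G) hg hh (fun i => D3h Q x y i • z) (B + 2 * e) (q z (y • z) - e)
    hst htr (by omega) (4 * m)
  have h2 : D3h Q x y 0 • z = z := by
    show (1 : G) • z = z
    rw [one_smul]
  simp only [h2, D3h_four] at h1
  exact h1

private theorem D3_par (P : Par) : 1000 ≤ P.δ ∧ 1 ≤ P.Q ∧ P.Q < P.n ∧
    1300 * P.δ ≤ Ex (1300 * P.δ) := by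
  have h1 := P.h1
  have h2 := P.hδ
  have h3 := P.hΛs
  have h4 := P.hΛ
  have h5 := P.hA0
  have h6 := P.hD
  have h7 := P.hA
  have h8 := P.hs
  have h9 : 1000 * P.Λ ≤ Ex (1000 * P.Λ) := Nat.le_mul_of_pos_right _ (by positivity)
  have hs1 : 1 ≤ P.s := by omega
  have hM1 : 1 ≤ P.M := by have := P.hM; omega
  have hT1 : 1 ≤ P.TT2 := by
    have h10 := P.hTT2
    have h11 : 1 ≤ P.δ1 * P.s * 2 ^ P.D :=
      Nat.mul_pos (Nat.mul_pos h1 hs1) (by positivity)
    omega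
  have hQ1 : 1 ≤ P.Q := by
    have h10 := P.hQ
    have h11 : 1 ≤ P.M * P.TT2 := Nat.mul_pos hM1 hT1
    have h12 : 1000 * P.M * P.TT2 = 1000 * (P.M * P.TT2) := by ring
    omega
  have hQT : P.Q ≤ P.TT1 := by
    have h10 := P.hTT1
    have h11 : P.Q ^ 1 ≤ P.Q ^ (10 * P.N + 100) := Nat.pow_le_pow_right hQ1 (by omega)
    rw [pow_one] at h11
    calc P.Q ≤ P.Q ^ (10 * P.N + 100) := h11
      _ ≤ 1000 * P.TT2 * P.Q ^ (10 * P.N + 100) := Nat.le_mul_of_pos_left _ (by omega)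
      _ ≤ P.TT1 := h10
  have hQn : P.Q < P.n := by
    have h10 := P.hn
    have h11 : P.TT1 ≤ P.M * P.TT1 := Nat.le_mul_of_pos_left _ hM1
    have h12 : 1000 * P.M * P.TT1 = 1000 * (P.M * P.TT1) := by ring
    omega
  exact ⟨by omega, hQ1, hQn, Nat.le_mul_of_pos_right _ (by positivity)⟩

theorem old_close (hbr : S.broken) (hgeo : S.qd_geo) (hiso : S.qd_isom) (hhyp : S.qd_hyp)
    (hzero : S.qd_zero) (hturn : S.old_turn) (hcop : S.pow_coprime) (hpf : S.pow_fix) :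
    S.old_close := by
  intro G X _ _ d P F T M hG hF hT x y hx0 hx hc hU z hz
  obtain ⟨p1, p2, p3, p4⟩ := D3_par P
  by_contra hcon
  have hL : 1000 * Ex (1300 * P.δ) < qd (Ker F) (cd F P.D d P.s) z (y • z) := not_le.mp hcon
  have hnd : ∀ k : ℕ, ¬ P.n ∣ P.Q ^ k := by
    intro k h
    have h1 := P.hprime.dvd_of_dvd_pow h
    have h2 := Nat.le_of_dvd (by omega) h1
    omega
  have hq := D3_main (G := G) (V := Cone F P.D) @hbr (hgeo (G := G) (X := X) hG hF hT)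
    (hhyp (G := G) (X := X) hG hF hT) (hiso (G := G) (X := X) hG hF hT) P.Q
    (200 * Ex (1300 * P.δ) + 20 * P.δ) (2 * P.δ + 1) x y z hz (by
      intro k w
      refine hturn (G := G) (X := X) hG hF hT (x ^ (P.Q ^ (k % 4 + 1))) ?_ ?_ ?_ z w ?_
      · intro h
        exact hx0 (hcop (G := G) (X := X) hG hF hT (Ker F) x _ hx (hnd _) h)
      · rw [← pow_mul, mul_comm, pow_mul]
        exact (Ker F).pow_mem hx _
      · intro c h
        exact hc c (hpf (G := G) (X := X) hG hF hT x _ hx (hnd _) c h)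
      · have h1 := hz ((P.Q ^ (k % 4 + 1) : ℕ) : ℤ)
        rw [zpow_natCast] at h1
        unfold Mv at h1 ⊢
        omega) (by omega) P.n
  have h0 : qd (Ker F) (cd F P.D d P.s) z (Uw P.Q x y ^ P.n • z) = 0 :=
    hzero (G := G) (X := X) hG hF hT _ hU z
  omega

end Mon
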