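import Pool.Agent.Work.MP_6f5fa7_al.Mon.StTool
import Pool.Agent.Work.MP_6f5fa7_al.Mon.StCone
import Pool.Agent.Work.MP_6f5fa7_al.Mon.StAct
import Pool.Agent.Work.MP_6f5fa7_al.Mon.StDesc

/-! Mon, item D4: desc_old. -/
set_option autoImplicit false

namespace Mon

private theorem D4_Ex_mono {a b : ℕ} (h : a ≤ b) : Ex a ≤ Ex b :=
  Nat.mul_le_mul h (Nat.pow_le_pow_right (by norm_num) h)

private theorem D4_le_Ex (a : ℕ) : a ≤ Ex a :=
  Nat.le_mul_of_pos_right a (by positivity)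

/-- numerical facts -/
private theorem D4_num (P : Par) :
    1 ≤ P.δ ∧ 1000 * Ex (100 * (3 * P.δ + P.δ)) ≤ P.A0 ∧
    1000 * Ex (100 * (4 * (1000 * Ex (1300 * P.δ)) + 12 * P.δ + P.δ)) ≤ P.A0 ∧
    4 * (1000 * Ex (1300 * P.δ)) + 12 * P.δ < P.D ∧
    2 * (4 * P.δ + 2) < P.D ∧ 1 ≤ P.s ∧ 1 ≤ P.D := by
  have h1 := P.h1
  have h2 := P.hδ
  have h3 := P.hΛs
  have h4 := P.hΛ
  have h5 := P.hA0
  have h6 := P.hA0'
  have h7 := P.hD
  have h8 := P.hA
  have h9 := P.hs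
  have hδ : 1000 ≤ P.δ := by omega
  have hΛ : 1000 * P.δ ≤ P.Λ := by omega
  have e1 : Ex (1300 * P.δ) ≤ Ex (1000 * P.Λ) := D4_Ex_mono (by omega)
  have e2 : Ex (100 * (3 * P.δ + P.δ)) ≤ Ex (1000 * P.Λ) := D4_Ex_mono (by omega)
  have e3 : 1300 * P.δ ≤ Ex (1300 * P.δ) := D4_le_Ex _
  have e4 : Ex (100 * (4 * (1000 * Ex (1300 * P.δ)) + 12 * P.δ + P.δ)) ≤
      Ex (1000 * (1000000 * Ex (1000 * P.Λ))) := D4_Ex_mono (by omega)
  have e5 : 1000 * (1000000 * Ex (1000 * P.Λ)) ≤ Ex (1000 * (1000000 * Ex (1000 * P.Λ))) :=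
    D4_le_Ex _
  refine ⟨by omega, by omega, by omega, by omega, by omega, by omega, by omega⟩

/-- congruence modulo a normal subgroup -/
private theorem D4_mem {G : Type} [Group G] (K : Subgroup G) [K.Normal] (g : G) :
    g ∈ K ↔ (QuotientGroup.mk' K) g = 1 :=
  (QuotientGroup.eq_one_iff (N := K) g).symm

private theorem D4_eq {G : Type} [Group G] (K : Subgroup G) [K.Normal] {x x' : G}
    (h : ∃ κ ∈ K, x' = κ * x) : (QuotientGroup.mk' K) x' = (QuotientGroup.mk' K) x := by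
  obtain ⟨κ, hκ, rfl⟩ := h
  rw [map_mul, (D4_mem K κ).mp hκ, one_mul]

private theorem D4_lift {G : Type} [Group G] (K : Subgroup G) [K.Normal] {x x' : G}
    (h : (QuotientGroup.mk' K) x' = (QuotientGroup.mk' K) x) : ∃ κ ∈ K, x' = κ * x := by
  refine ⟨x' * x⁻¹, ?_, by group⟩
  rw [D4_mem, map_mul, map_inv, h, mul_inv_cancel]

private theorem D4_mapU {G H : Type} [Group G] [Group H] (π : G →* H) (Q : ℕ) (x y : G) :
    π (Uw Q x y) = Uw Q (π x) (π y) := by
  simp only [Uw, map_mul, map_pow, map_inv]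

/-- displacement of `U` -/
private theorem D4_moveU {G V : Type} [Group G] [MulAction G V] {e : V → V → ℕ} (hg : Geo e)
    (hi : Isom G e) (x y : G) (z : V) (a b : ℕ) (hx : ∀ i : ℕ, e z (x ^ i • z) ≤ a)
    (hy : e z (y • z) ≤ b) (Q : ℕ) : e z (Uw Q x y • z) ≤ 4 * a + 4 * b := by
  have hmul : ∀ (g h : G) (r t : ℕ), e z (g • z) ≤ r → e z (h • z) ≤ t →
      e z ((g * h) • z) ≤ r + t := by
    intro g h r t h1 h2
    calc e z ((g * h) • z) ≤ e z (g • z) + e (g • z) ((g * h) • z) := hg.tri _ _ _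
      _ = e z (g • z) + e z (h • z) := by rw [mul_smul, hi]
      _ ≤ r + t := Nat.add_le_add h1 h2
  have hinv : e z (y⁻¹ • z) ≤ b := by
    have : e z (y⁻¹ • z) = e (y • z) z := by
      rw [← hi y z (y⁻¹ • z), smul_inv_smul]
    rw [this, hg.symm]
    exact hy
  have hc : ∀ i : ℕ, e z ((y * x * y⁻¹) ^ i • z) ≤ b + a + b := by
    intro i
    rw [conj_pow]
    exact hmul _ _ _ _ (hmul _ _ _ _ hy (hx i)) hinv
  have h1 := hmul _ _ _ _ (hmul _ _ _ _ (hmul _ _ _ _ (hx Q) (hc (Q ^ 2))) (hx (Q ^ 3)))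
    (hc (Q ^ 4))
  unfold Uw
  omega

theorem desc_old (h_qct : S.quasi_centre_tors) (h_qgeo : S.qd_geo) (h_qisom : S.qd_isom)
    (h_qhyp : S.qd_hyp) (h_qz : S.qd_zero) (h_fix : S.fixB_of_close) (h_oc : S.old_close)
    (h_att : S.qd_att) (h_le : S.qd_le) (h_li : S.loc_iso) (h_tl : S.tor_lift)
    (h_en : S.exit_ne) (h_es : S.exit_smul) (h_at : S.ang_thru) (h_cg : S.cone_geo)
    (h_ci : S.cone_isom) : S.desc_old := by
  intro G X _ _ d P F T M hG hF hT x y hx0 hx hc hU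
  -- the case of an empty space
  by_cases hemp : Nonempty X
  swap
  · have hKer : Ker F = ⊥ := by
      rw [eq_bot_iff]
      refine (Subgroup.closure_le _).mpr ?_
      rintro r ⟨c, _⟩
      obtain ⟨y0, _⟩ := F.Y_ne c
      exact absurd ⟨y0⟩ hemp
    rw [hKer, Subgroup.mem_bot] at hx hU
    exact ⟨x, y, ⟨1, (Ker F).one_mem, (one_mul x).symm⟩, ⟨1, (Ker F).one_mem, (one_mul y).symm⟩,
      hx, Or.inl hU⟩
  obtain ⟨x₀⟩ := hemp
  obtain ⟨nδ, nρ1, nρ2, nC, nδ2, ns, nD⟩ := D4_num P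
  have cg : Geo (cd F P.D d P.s) := h_cg hG.geo hG.isom ns nD
  have ci : Isom G (cd F P.D d P.s) := h_ci hG.geo hG.isom ns nD
  have qg := h_qgeo hG hF hT
  have qi := h_qisom hG hF hT
  have qh := h_qhyp hG hF hT
  set q := qd (Ker F) (cd F P.D d P.s) with hq
  set e := cd F P.D d P.s with he
  have hqe : ∀ u v, q u v ≤ e u v := by
    intro u v
    have := h_le hG hF hT u v 1 (Ker F).one_mem
    rwa [one_smul] at this
  have hn1 : 1 ≤ P.n := P.hprime.one_lt.le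
  -- the quasi centre of `x` in the quotient
  obtain ⟨z, hz⟩ := h_qct qg qi qh x (bs F P.D x₀) P.n hn1
    (fun v => h_qz hG hF hT (x ^ P.n) hx v)
  have hfar : ∀ c, P.D ≤ 2 * q z (ap F P.D c) := by
    intro c
    by_contra hlt
    refine hc c (h_fix hG hF hT c x ?_)
    have h1 : q (ap F P.D c) (x • ap F P.D c) ≤
        q (ap F P.D c) z + q z (x • z) + q (x • z) (x • ap F P.D c) :=
      (qg.tri _ (x • z) _).trans (Nat.add_le_add_right (qg.tri _ z _) _)
    have h2 : q (x • z) (x • ap F P.D c) = q z (ap F P.D c) := qi x _ _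
    have h3 : q (ap F P.D c) z = q z (ap F P.D c) := qg.symm _ _
    have h4 : q z (x • z) ≤ 2 * P.δ + 1 := by
      have := hz 1
      rwa [zpow_one] at this
    show q (ap F P.D c) (x • ap F P.D c) < 2 * P.D + 2
    omega
  have hNA : NA z := by
    intro c hzc
    have h1 := hfar c
    rw [hzc, qg.self] at h1
    omega
  have hfar' : ∀ c, P.D ≤ 2 * e z (ap F P.D c) := fun c =>
    (hfar c).trans (Nat.mul_le_mul_left 2 (hqe _ _))
  -- `y` moves `z` a bounded amount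
  have hyz : q z (y • z) ≤ 1000 * Ex (1300 * P.δ) :=
    h_oc hG hF hT x y hx0 hx hc hU z fun i => hz i
  -- the lifts
  obtain ⟨κ, hκ, hκx⟩ := h_att hG hF hT z (x • z)
  obtain ⟨κ', hκ', hκy⟩ := h_att hG hF hT z (y • z)
  set x' := κ * x with hx'
  set y' := κ' * y with hy'
  have hxx : ∃ κ ∈ Ker F, x' = κ * x := ⟨κ, hκ, rfl⟩
  have hyy : ∃ κ ∈ Ker F, y' = κ * y := ⟨κ', hκ', rfl⟩
  have mx := D4_eq (Ker F) hxx
  have my := D4_eq (Ker F) hyy
  have hx'1 : e z (x' • z) ≤ 2 * P.δ + 1 := by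
    have h1 : e z (x' • z) = q z (x • z) := by rw [hx', mul_smul]; exact hκx
    have h2 := hz 1
    rw [zpow_one] at h2
    omega
  have hy'1 : e z (y' • z) ≤ 1000 * Ex (1300 * P.δ) := by
    have h1 : e z (y' • z) = q z (y • z) := by rw [hy', mul_smul]; exact hκy
    omega
  have hx'i : ∀ i : ℕ, e z (x' ^ i • z) ≤ 2 * P.δ + 1 := by
    intro i
    induction i with
    | zero => rw [pow_zero, one_smul, cg.self]; omega
    | succ i ih =>
      have h1 : e z (x' ^ (i + 1) • z) ≤ 4 * P.δ + 2 := by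
        have h2 : e z (x' ^ (i + 1) • z) ≤ e z (x' ^ i • z) + e (x' ^ i • z) (x' ^ (i + 1) • z) :=
          cg.tri _ _ _
        have h3 : e (x' ^ i • z) (x' ^ (i + 1) • z) = e z (x' • z) := by
          rw [pow_succ, mul_smul, ci]
        omega
      have hNA' : NA (x' ^ (i + 1) • z) := by
        intro c hzc
        refine hNA ((x' ^ (i + 1))⁻¹ • c) ?_
        have h2 : (x' ^ (i + 1))⁻¹ • (x' ^ (i + 1) • z) =
            (x' ^ (i + 1))⁻¹ • ap F P.D c := by rw [hzc]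
        rw [inv_smul_smul] at h2
        exact h2
      have h4 := h_li hG hF hT z (x' ^ (i + 1) • z) hNA hNA' fun c => by
        have h5 := hfar' c
        show e z (x' ^ (i + 1) • z) < e z (ap F P.D c)
        omega
      obtain ⟨κ1, hκ1, h6⟩ := h_att hG hF hT z (x' ^ (i + 1) • z)
      have h7 := h4 κ1 hκ1
      have h8 : q z (x' ^ (i + 1) • z) ≤ 2 * P.δ + 1 := by
        obtain ⟨κ2, hκ2, h9⟩ := D4_lift (Ker F) (x := x ^ (i + 1)) (x' := x' ^ (i + 1))
          (by rw [map_pow, map_pow, mx])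
        have h10 : q z (x' ^ (i + 1) • z) ≤ q z (x ^ (i + 1) • z) +
            q (x ^ (i + 1) • z) (x' ^ (i + 1) • z) := qg.tri _ _ _
        have h11 : q (x ^ (i + 1) • z) (x' ^ (i + 1) • z) = 0 := by
          rw [h9, mul_smul]
          exact h_qz hG hF hT κ2 hκ2 _
        have h12 := hz ((i + 1 : ℕ) : ℤ)
        rw [zpow_natCast] at h12
        omega
      have h9 : e z (κ1 • x' ^ (i + 1) • z) = q z (x' ^ (i + 1) • z) := h6
      have h10 : e z (x' ^ (i + 1) • z) ≤ e z (κ1 • x' ^ (i + 1) • z) := h7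
      omega
  set U := Uw P.Q x' y' with hUdef
  have hUz : e z (U • z) ≤ 4 * (1000 * Ex (1300 * P.δ)) + 12 * P.δ := by
    have h1 := D4_moveU cg ci x' y' z _ _ hx'i hy'1 P.Q
    rw [← hUdef] at h1
    omega
  have hx'n : x' ^ P.n ∈ Ker F := by
    rw [D4_mem, map_pow, mx, ← map_pow, ← D4_mem]
    exact hx
  have hUn : U ^ P.n ∈ Ker F := by
    rw [D4_mem, map_pow, hUdef, D4_mapU, mx, my, ← D4_mapU, ← map_pow, ← D4_mem]
    exact hU
  have hnofix : ∀ c, ¬ FixB F x' c := by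
    rintro c ⟨κ1, hκ1, h1⟩
    refine hc c ⟨κ1 * κ, (Ker F).mul_mem hκ1 hκ, ?_⟩
    rw [mul_assoc]
    exact h1
  -- `x'` is torsion
  have hx'tor : x' ^ P.n = 1 := by
    rcases h_tl hG hF hT z hNA x' (3 * P.δ) nρ1
      (show e z (x' • z) ≤ 3 * P.δ by omega) hx'n hfar with h1 | ⟨c, h1, _, _⟩
    · exact h1
    · refine absurd ⟨1, (Ker F).one_mem, ?_⟩ (hnofix c)
      rw [one_mul]
      exact h1
  refine ⟨x', y', hxx, hyy, hx'tor, ?_⟩
  rcases h_tl hG hF hT z hNA U (4 * (1000 * Ex (1300 * P.δ)) + 12 * P.δ) nρ2 hUz hUn hfar with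
    h1 | ⟨c, h1, h2, h3⟩
  · exact Or.inl h1
  · refine Or.inr ⟨c, h1, h2, ?_, hx'tor, hnofix, z, ?_, ?_⟩
    · -- small angle
      obtain ⟨y0, hy0⟩ := h_en hG hF hT c z (hNA c)
      have hy0' := h_es hG hF hT U c z y0 hy0
      rw [h1] at hy0'
      refine ⟨y0, ?_, ?_⟩
      · obtain ⟨y1, h4, _⟩ := hy0
        rw [← h4]
        exact y1.2
      · by_contra hlt
        have hlt' : P.θ < d y0 (U • y0) := not_le.mp hlt
        have h4 := h_at hG hF hT c z (U • z) (d y0 (U • y0)) hlt' ⟨y0, hy0, U • y0, hy0', le_rfl⟩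
        have h5 : e z (U • z) = e z (ap F P.D c) + e (ap F P.D c) (U • z) := h4.1
        have h6 : e (ap F P.D c) (U • z) = e (ap F P.D c) z := by
          have h7 : U • ap F P.D c = ap F P.D c := by
            show ap F P.D (U • c) = ap F P.D c
            rw [h1]
          calc e (ap F P.D c) (U • z) = e (U • ap F P.D c) (U • z) := by rw [h7]
            _ = e (ap F P.D c) z := ci _ _ _
        have h7 : e (ap F P.D c) z = e z (ap F P.D c) := cg.symm _ _
        have h8 := hfar' c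
        omega
    · show e z (x' • z) ≤ 3 * P.δ
      omega
    · have h4 : 100 * Ex (100 * (4 * (1000 * Ex (1300 * P.δ)) + 12 * P.δ + P.δ)) ≤ P.A0 := by
        omega
      exact h3.trans (Nat.add_le_add_left h4 _)

end Mon
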