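import Pool.Agent.Work.MP_6f5fa7_al.Mon.StDesc

/-! Mon, item D6: size_small. -/
set_option autoImplicit false

namespace Mon

private theorem D6.pow_move {G X : Type} [Group G] [MulAction G X] {d : X → X → ℕ}
    (hg : Geo d) (hi : Isom G d) (a : G) (y : X) (m : ℕ) :
    d y (a ^ m • y) ≤ m * d y (a • y) := by
  induction m with
  | zero => simp [hg.self]
  | succ m ih =>
    have t := hg.tri y (a ^ m • y) (a ^ (m + 1) • y)
    have h1 : d (a ^ m • y) (a ^ (m + 1) • y) = d y (a • y) := by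
      rw [pow_succ, mul_smul, hi]
    rw [Nat.succ_mul]
    omega

theorem size_small (hcop : S.pow_coprime) : S.size_small := by
  intro G X _ _ d P F T M hG hF hT hF1 c x hx hxR i j hij hj y y' hy hy' r r' hr hr' h1 h2
  have hgeo := hG.geo
  have hiso := hG.isom
  -- the parameters
  have p1 := P.h1
  have p2 := P.hδ
  have p3 := P.hΛs
  have p4 := P.hΛ
  have p5 : P.Λ ≤ P.A0 := by
    have h3 : 1000 * P.Λ ≤ Ex (1000 * P.Λ) := by
      unfold Ex
      exact Nat.le_mul_of_pos_right _ (Nat.pos_of_ne_zero (by positivity))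
    have h4 := P.hA0
    omega
  have p6 := P.hD
  have p7 := P.hA
  have p8 := P.hs
  have p9 := P.hTT2
  have hMpos : 10 ≤ P.M := by have := P.hM; omega
  set S0 : ℕ := P.s * 2 ^ P.D with hS0
  have hS0s : P.s ≤ S0 := Nat.le_mul_of_pos_right _ (Nat.pos_of_ne_zero (by positivity))
  have hS0pos : 1 ≤ S0 := by omega
  have hθ : P.θ ≤ 18 * (P.δ1 * S0) := by
    have : P.θ = (12 * P.δ1 + 6) * S0 := rfl
    rw [this]
    nlinarith
  have hTT2 : 100000 * (P.δ1 * S0) ≤ P.TT2 := by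
    have : P.δ1 * S0 = P.δ1 * P.s * 2 ^ P.D := by rw [hS0]; ring
    rw [this]; exact p9
  have hδS : S0 ≤ P.δ1 * S0 := Nat.le_mul_of_pos_left _ (by omega)
  have hTT2θ : 100 * P.θ ≤ P.TT2 := by omega
  have hTT2A : P.A ≤ P.TT2 := by omega
  have hTT2pos : 1 ≤ P.TT2 := by omega
  have hQ := P.hQ
  have hQpos : 1 ≤ P.Q := by nlinarith
  have hTT1 := P.hTT1
  have hn := P.hn
  -- powers of Q
  have hqle : P.Q ^ (j - i) ≤ P.Q ^ (10 * P.N) := Nat.pow_le_pow_right hQpos (by omega)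
  have hqle2 : P.Q ^ (10 * P.N) ≤ P.Q ^ (10 * P.N + 100) := Nat.pow_le_pow_right hQpos (by omega)
  have hqge : P.Q ≤ P.Q ^ (j - i) := by
    calc P.Q = P.Q ^ 1 := (pow_one _).symm
      _ ≤ P.Q ^ (j - i) := Nat.pow_le_pow_right hQpos (by omega)
  have hqpos : 1 ≤ P.Q ^ (10 * P.N) := Nat.one_le_pow _ _ hQpos
  set q : ℕ := P.Q ^ (j - i) with hq
  set W : ℕ := P.Q ^ (10 * P.N) with hW
  have hbound : q * (100 * P.θ) + (100 * P.θ + P.A) < P.TT1 := by
    have g1 : q * (100 * P.θ) ≤ W * P.TT2 := Nat.mul_le_mul hqle hTT2θ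
    have g2 : P.TT2 ≤ W * P.TT2 := Nat.le_mul_of_pos_left _ (by omega)
    have g3 : 1000 * (W * P.TT2) ≤ 1000 * P.TT2 * P.Q ^ (10 * P.N + 100) := by
      calc 1000 * (W * P.TT2) = 1000 * P.TT2 * W := by ring
        _ ≤ 1000 * P.TT2 * P.Q ^ (10 * P.N + 100) := Nat.mul_le_mul_left _ hqle2
    omega
  -- the elements
  set a : G := r * x ^ (P.Q ^ i) with ha
  set b : G := r' * x ^ (P.Q ^ j) with hb
  have hrc : r • c = c := F.R_fix c r hr
  have hr'c : r' • c = c := F.R_fix c r' hr'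
  have hxpow : ∀ m : ℕ, (x ^ m) • c = c := by
    intro m
    induction m with
    | zero => simp
    | succ m ih => rw [pow_succ, mul_smul, hx, ih]
  have hac : a • c = c := by rw [ha, mul_smul, hxpow, hrc]
  have hbc : b • c = c := by rw [hb, mul_smul, hxpow, hr'c]
  have hcomm : r * x ^ (P.Q ^ i) = x ^ (P.Q ^ i) * r := hF1.ab c _ _ hrc (hxpow _)
  have hQij : P.Q ^ i * q = P.Q ^ j := by
    rw [hq, ← pow_add]
    congr 1
    omega
  have haq : a ^ q = r ^ q * x ^ (P.Q ^ j) := by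
    have hc : Commute r (x ^ (P.Q ^ i)) := hcomm
    rw [ha, hc.mul_pow, ← pow_mul, hQij]
  have hquot : a ^ q * b⁻¹ = r ^ q * r'⁻¹ := by
    rw [haq, hb]
    group
  have hmem : a ^ q * b⁻¹ ∈ F.R c := by
    rw [hquot]
    exact (F.R c).mul_mem ((F.R c).pow_mem hr q) ((F.R c).inv_mem hr')
  have haqc : a ^ q • c = c := by
    have : ∀ m : ℕ, a ^ m • c = c := by
      intro m
      induction m with
      | zero => simp
      | succ m ih => rw [pow_succ, mul_smul, hac, ih]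
    exact this q
  have hab : a ^ q * b⁻¹ = b⁻¹ * a ^ q := by
    have h5 : a ^ q * b = b * a ^ q := hF1.ab c _ _ haqc hbc
    have h6 : Commute (a ^ q) b := h5
    exact h6.inv_right.eq
  have hmove : d y ((a ^ q * b⁻¹) • y) ≤ q * (100 * P.θ) + (100 * P.θ + P.A) := by
    have e1 : d y ((a ^ q * b⁻¹) • y) = d (b • y) (a ^ q • y) := by
      rw [hab, mul_smul, ← hiso b y, smul_smul, mul_inv_cancel, one_smul]
    have t1 := hgeo.tri (b • y) y (a ^ q • y)
    have t2 := D6.pow_move hgeo hiso a y q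
    have t3 : q * d y (a • y) ≤ q * (100 * P.θ) := Nat.mul_le_mul_left _ h1
    have t4 := hF1.disp c b y y' hbc hy hy'
    have t5 := hgeo.symm (b • y) y
    omega
  have hone : a ^ q * b⁻¹ = 1 := by
    by_contra hne
    have := hF1.ok.big c _ y hmem hne hy
    omega
  have haqb : a ^ q = b := by
    rwa [mul_inv_eq_one] at hone
  have hndvd : ¬ P.n ∣ P.Q ^ i := by
    intro hd
    have h7 : P.n ∣ P.Q := P.hprime.dvd_of_dvd_pow hd
    have h8 : P.n ≤ P.Q := Nat.le_of_dvd hQpos h7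
    have h9 : P.Q ≤ P.Q ^ (10 * P.N + 100) := by
      calc P.Q = P.Q ^ 1 := (pow_one _).symm
        _ ≤ _ := Nat.pow_le_pow_right hQpos (by omega)
    have h10 : P.Q ^ (10 * P.N + 100) ≤ 1000 * P.TT2 * P.Q ^ (10 * P.N + 100) :=
      Nat.le_mul_of_pos_left _ (by omega)
    have h11 : P.TT1 < P.n := by
      have : P.TT1 < 1000 * P.M * P.TT1 := by nlinarith
      omega
    omega
  have hane : a ≠ 1 := by
    intro h0
    apply hxR
    have h7 : x ^ (P.Q ^ i) = r⁻¹ := by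
      rw [ha] at h0
      exact (eq_inv_of_mul_eq_one_right h0)
    exact hcop hG hF hT (F.R c) x (P.Q ^ i) (hF.pow c x hx) hndvd
      (by rw [h7]; exact (F.R c).inv_mem hr)
  have hgr := hF1.gr c a y' q hac hane
  rw [haqb] at hgr
  have k1 : P.M * d y' (b • y') ≤ P.M * (100 * P.θ) := Nat.mul_le_mul_left _ h2
  have k2 : P.M * (100 * P.θ) ≤ P.M * P.TT2 := Nat.mul_le_mul_left _ hTT2θ
  have k3 : 1000 * (P.M * P.TT2) ≤ q := by
    calc 1000 * (P.M * P.TT2) = 1000 * P.M * P.TT2 := by ring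
      _ ≤ P.Q := hQ
      _ ≤ q := hqge
  have k4 : q ≤ q * (16 * P.δ) := Nat.le_mul_of_pos_right _ (by omega)
  have k5 : 1 ≤ P.M * P.TT2 := by nlinarith
  omega

end Mon
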