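import Pool.Agent.Work.MP_6f5fa7_al.Mon.StDesc
import Pool.Agent.Work.MP_6f5fa7_al.Mon.StAct

/-! Mon: item D7 (M11: the case where `x` fixes an apex class). -/
set_option autoImplicit false

namespace Mon

/-- item D7: consequences of the inequalities between the parameters -/
theorem D7_par (P : Par) : 1 ≤ P.θ ∧ 4 ≤ 10 * P.N ∧ 1 ≤ P.n ∧ ∀ i, ¬ P.n ∣ P.Q ^ i := by
  have h1 := P.h1
  have hδ := P.hδ
  have hΛs := P.hΛs
  have hΛ := P.hΛ
  have hA0 := P.hA0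
  have hD := P.hD
  have hA := P.hA
  have hs := P.hs
  have hE : 1000 * P.Λ ≤ Ex (1000 * P.Λ) := Nat.le_mul_of_pos_right _ (by positivity)
  have hs1 : 1 ≤ P.s := by omega
  have h2D : 1 ≤ 2 ^ P.D := Nat.one_le_two_pow
  have hsD : 1 ≤ P.s * 2 ^ P.D := Nat.mul_pos hs1 h2D
  have hN10 := P.hN10
  have hTT2 : 1 ≤ P.TT2 := by
    have h2 : 1 ≤ P.δ1 * P.s * 2 ^ P.D := Nat.mul_pos (Nat.mul_pos h1 hs1) h2D
    have := P.hTT2
    omega
  have hM : 1 ≤ P.M := by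
    have := P.hM
    omega
  have hQ : 1 ≤ P.Q := by
    have h2 : 1 ≤ P.M * P.TT2 := Nat.mul_pos hM hTT2
    have h3 : 1000 * P.M * P.TT2 = 1000 * (P.M * P.TT2) := by ring
    have := P.hQ
    omega
  have hQp : P.Q ≤ P.Q ^ (10 * P.N + 100) := Nat.le_self_pow (by omega) _
  have hTT1 : P.Q * 1000 ≤ P.TT1 := by
    calc P.Q * 1000 ≤ P.Q ^ (10 * P.N + 100) * 1000 := Nat.mul_le_mul_right _ hQp
      _ ≤ P.TT2 * (P.Q ^ (10 * P.N + 100) * 1000) := Nat.le_mul_of_pos_left _ hTT2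
      _ = 1000 * P.TT2 * P.Q ^ (10 * P.N + 100) := by ring
      _ ≤ P.TT1 := P.hTT1
  have hn : P.TT1 ≤ P.n := by
    calc P.TT1 ≤ P.M * P.TT1 := Nat.le_mul_of_pos_left _ hM
      _ ≤ 1000 * (P.M * P.TT1) := Nat.le_mul_of_pos_left _ (by norm_num)
      _ = 1000 * P.M * P.TT1 := by ring
      _ ≤ P.n := P.hn
  refine ⟨?_, by omega, by omega, fun i hi => ?_⟩
  · unfold Par.θ
    exact Nat.mul_pos (by omega) hsD
  · have h2 := P.hprime.dvd_of_dvd_pow hi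
    have h3 := Nat.le_of_dvd (by omega) h2
    omega

section
variable {G X : Type} [Group G] [MulAction G X] {d : X → X → ℕ} {P : Par} {F : Fam G X} {T M : ℕ}

theorem D7_mono {D : ℕ} {e : Cone F D → Cone F D → ℕ} {c : F.C} {p q : Cone F D} {t t' : ℕ}
    (h : t' ≤ t) (h1 : AngQ F D d e c p q t) : AngQ F D d e c p q t' := by
  obtain ⟨y, hy, y', hy', h2⟩ := h1
  exact ⟨y, hy, y', hy', fun r hr => h.trans (h2 r hr)⟩

theorem D7_symm {c c' : F.C} (h : ∀ κ ∈ Ker F, κ • c ≠ c') : ∀ κ ∈ Ker F, κ • c' ≠ c := by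
  intro κ hκ h1
  apply h κ⁻¹ (Subgroup.inv_mem _ hκ)
  rw [← h1, inv_smul_smul]

theorem D7_tr {c c' : F.C} (h : ∀ κ ∈ Ker F, κ • c ≠ c') (g : G) :
    ∀ κ ∈ Ker F, κ • (g • c) ≠ g • c' := by
  intro κ hκ h1
  apply h (g⁻¹ * κ * g) (by simpa using (ker_nrm F).conj_mem κ hκ g⁻¹)
  rw [mul_smul, mul_smul, h1, inv_smul_smul]

theorem D7_ap {D : ℕ} {c c' : F.C} (h : ∀ κ ∈ Ker F, κ • c ≠ c') :
    ∀ κ ∈ Ker F, ap F D c' ≠ κ • ap F D c := by
  intro κ hκ h1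
  have h2 : (ap F D c').1 = (ap F D (κ • c)).1 := congrArg Subtype.val h1
  have h3 : (CV.apex c' : CV X F.C) = CV.apex (κ • c) := h2
  injection h3 with h4
  exact h κ hκ h4.symm

/-- item D7: three large angles out of four give infinite order modulo the kernel -/
theorem D7_main (hfix : S.fix_two) (hcl : S.canoe_len) (hth : S.angQ_thru) (htr : S.angQ_tri)
    (hsm : S.angQ_smul) (hiso : S.qd_isom) (hsy : S.qd_geo) (hze : S.qd_zero) (hap : S.qd_ap)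
    (hG : P.St G d M) (hF : FamOK P d F T) (hT : P.TT2 ≤ T) (e e' : F.C)
    (hne : ∀ κ ∈ Ker F, κ • e ≠ e') (a b c g : G) (ha : a • e = e) (hb : b • e' = e')
    (hc : c • e = e) (hg : g • e' = e') (hgK : g ∉ Ker F)
    (hA : AngQ F P.D d (qd (Ker F) (cd F P.D d P.s)) e (ap F P.D e') (ap F P.D (a • e'))
      (50 * P.θ))
    (hB : AngQ F P.D d (qd (Ker F) (cd F P.D d P.s)) e' (ap F P.D e) (ap F P.D (b • e))
      (50 * P.θ))
    (hC : AngQ F P.D d (qd (Ker F) (cd F P.D d P.s)) e (ap F P.D e') (ap F P.D (c • e'))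
      (50 * P.θ))
    (m : ℕ) (hm : 1 ≤ m) : (a * b * c * g) ^ m ∉ Ker F := by
  intro hU
  obtain ⟨hθ, _⟩ := D7_par P
  obtain ⟨U, hUd⟩ : ∃ U : G, U = a * b * c * g := ⟨_, rfl⟩
  rw [← hUd] at hU
  -- distances between apices
  have hQ : ∀ (k : G) (z w : F.C), qd (Ker F) (cd F P.D d P.s) (ap F P.D (k • z))
      (ap F P.D (k • w)) = qd (Ker F) (cd F P.D d P.s) (ap F P.D z) (ap F P.D w) :=
    fun k z w => hiso hG hF hT k (ap F P.D z) (ap F P.D w)
  have hsym := (hsy hG hF hT).symm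
  -- translates of angles
  have hsm' : ∀ (k : G) (z w w' : F.C) (t : ℕ),
      AngQ F P.D d (qd (Ker F) (cd F P.D d P.s)) z (ap F P.D w) (ap F P.D w') t →
      AngQ F P.D d (qd (Ker F) (cd F P.D d P.s)) (k • z) (ap F P.D (k • w))
        (ap F P.D (k • w')) t :=
    fun k z w w' t h => hsm hG hF hT k z (ap F P.D w) (ap F P.D w') t h
  have hne' : ∀ κ ∈ Ker F, κ • e' ≠ e := D7_symm hne
  have hge : ∀ κ ∈ Ker F, κ • e ≠ g • e := by
    intro κ hκ h1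
    apply hgK
    refine hfix hG hF hT g e e' ⟨κ⁻¹, Subgroup.inv_mem _ hκ, ?_⟩ ⟨1, Subgroup.one_mem _, ?_⟩ hne
    · rw [mul_smul, ← h1, inv_smul_smul]
    · rw [one_mul, hg]
  have hge' : ∀ κ ∈ Ker F, κ • (g⁻¹ • e) ≠ e := by
    have := D7_tr hge g⁻¹
    rwa [inv_smul_smul] at this
  have hginv : g⁻¹ • e' = e' := by rw [inv_smul_eq_iff, hg]
  have habc : (a * b * c) • e = (a * b) • e := by rw [mul_smul (a * b) c, hc]
  have hab : (a * b) • e' = a • e' := by rw [mul_smul, hb]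
  have hUe : U • e = (a * b * c) • (g • e) := by rw [hUd, mul_smul]
  -- the vertices
  obtain ⟨bas, hbas⟩ : ∃ bas : ℤ → F.C, bas = fun j => if j = 0 then e else if j = 1 then a • e'
    else (a * b) • e := ⟨_, rfl⟩
  obtain ⟨v, hv⟩ : ∃ v : ℤ → F.C, v = fun j => U ^ (j / 3) • bas (j % 3) := ⟨_, rfl⟩
  have hper : ∀ j k : ℤ, v (j + 3 * k) = U ^ k • v j := by
    intro j k
    rw [hv]
    show U ^ ((j + 3 * k) / 3) • bas ((j + 3 * k) % 3) = U ^ k • (U ^ (j / 3) • bas (j % 3))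
    rw [Int.add_mul_ediv_left _ _ (by norm_num), Int.add_mul_emod_self_left, add_comm (j / 3),
      zpow_add, mul_smul]
  have hv0 : v 0 = e := by
    rw [hv, hbas]
    simp
  have hv1 : v 1 = a • e' := by
    rw [hv, hbas]
    norm_num
  have hv2 : v 2 = (a * b) • e := by
    rw [hv, hbas]
    norm_num
  have hv3 : v 3 = U • e := by
    have := hper 0 1
    rw [hv0] at this
    simpa using this
  have hvm : v (-1) = g⁻¹ • e := by
    have h1 := hper 2 (-1)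
    rw [hv2] at h1
    have h2 : v (-1) = U ^ (-1 : ℤ) • (a * b) • e := by
      rw [← h1]
      norm_num
    rw [h2, zpow_neg_one, inv_smul_eq_iff, hUd, mul_smul (a * b * c) g, smul_inv_smul, habc]
  -- consecutive vertices are not equivalent
  have hn0 : ∀ κ ∈ Ker F, κ • v 0 ≠ v 1 := by
    have := D7_tr hne a
    rw [ha] at this
    rwa [hv0, hv1]
  have hn1 : ∀ κ ∈ Ker F, κ • v 1 ≠ v 2 := by
    have := D7_tr hne' (a * b)
    rw [hab] at this
    rwa [hv1, hv2]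
  have hn2 : ∀ κ ∈ Ker F, κ • v 2 ≠ v 3 := by
    have := D7_tr hge (a * b * c)
    rw [habc, ← hUe] at this
    rwa [hv2, hv3]
  -- angles
  have hz : ∀ z w : F.C, (∀ κ ∈ Ker F, κ • z ≠ w) →
      qd (Ker F) (cd F P.D d P.s) (ap F P.D z) (ap F P.D w) ≠ 0 := by
    intro z w h h1
    have := hap hG hF hT z w h
    omega
  have ha1 : AngQ F P.D d (qd (Ker F) (cd F P.D d P.s)) (v 1) (ap F P.D (v 0)) (ap F P.D (v 2))
      (40 * P.θ) := by
    have := hsm' a e' e (b • e) _ hB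
    rw [ha, ← mul_smul] at this
    rw [hv0, hv1, hv2]
    exact D7_mono (by omega) this
  have ha2 : AngQ F P.D d (qd (Ker F) (cd F P.D d P.s)) (v 2) (ap F P.D (v 1)) (ap F P.D (v 3))
      (40 * P.θ) := by
    have h1 := hsm' (a * b) e e' (c • e') _ hC
    rw [hab, ← mul_smul] at h1
    rw [hv1, hv2, hv3]
    rcases htr hG hF hT ((a * b) • e) (ap F P.D (a • e')) (ap F P.D (U • e))
      (ap F P.D ((a * b * c) • e')) (50 * P.θ) (40 * P.θ) (5 * P.θ) (D7_ap (by rwa [hv2, hv3] at hn2))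
      h1 (by omega) with h2 | h2
    · exact h2
    · exfalso
      have h3 := (hth hG hF hT _ _ _ _ (by omega) h2).1
      rw [hUe, hQ] at h3
      have h4 : qd (Ker F) (cd F P.D d P.s) (ap F P.D (g • e)) (ap F P.D e') =
          qd (Ker F) (cd F P.D d P.s) (ap F P.D e) (ap F P.D e') := by
        have := hQ g e e'
        rwa [hg] at this
      have h5 : qd (Ker F) (cd F P.D d P.s) (ap F P.D ((a * b) • e))
          (ap F P.D ((a * b * c) • e')) =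
          qd (Ker F) (cd F P.D d P.s) (ap F P.D e) (ap F P.D e') := by
        rw [← habc, hQ]
      rw [h4, h5] at h3
      have h6 := hz _ _ hn2
      rw [hv2, hv3, hUe, hsym] at h6
      omega
  have ha0 : AngQ F P.D d (qd (Ker F) (cd F P.D d P.s)) (v 0) (ap F P.D (v (-1)))
      (ap F P.D (v 1)) (40 * P.θ) := by
    rw [hv0, hv1, hvm]
    rcases htr hG hF hT e (ap F P.D e') (ap F P.D (g⁻¹ • e)) (ap F P.D (a • e')) (50 * P.θ)
      (5 * P.θ) (40 * P.θ) (D7_ap (D7_symm hge')) hA (by omega) with h2 | h2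
    · exfalso
      have h3 := (hth hG hF hT _ _ _ _ (by omega) h2).1
      have h4 : qd (Ker F) (cd F P.D d P.s) (ap F P.D e') (ap F P.D (g⁻¹ • e)) =
          qd (Ker F) (cd F P.D d P.s) (ap F P.D e') (ap F P.D e) := by
        have := hQ g⁻¹ e' e
        rwa [hginv] at this
      have h6 := hz _ _ (D7_symm hge')
      omega
    · exact h2
  have hdec : ∀ i : ℤ, ∃ k : ℤ, i = 0 + 3 * k ∨ i = 1 + 3 * k ∨ i = 2 + 3 * k := by
    intro i
    refine ⟨i / 3, ?_⟩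
    omega
  have key := hcl hG hF hT v (40 * P.θ) (by omega) (by
      intro i
      obtain ⟨k, h | h | h⟩ := hdec i
      · have e1 : i + 1 = 1 + 3 * k := by omega
        rw [e1, h, hper, hper]
        exact D7_tr hn0 _
      · have e1 : i + 1 = 2 + 3 * k := by omega
        rw [e1, h, hper, hper]
        exact D7_tr hn1 _
      · have e1 : i + 1 = 3 + 3 * k := by omega
        rw [e1, h, hper, hper]
        exact D7_tr hn2 _) (by
      intro i
      obtain ⟨k, h | h | h⟩ := hdec i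
      · have e1 : i + 1 = 1 + 3 * k := by omega
        have e2 : i - 1 = -1 + 3 * k := by omega
        rw [e1, e2, h, hper, hper, hper]
        exact hsm' _ _ _ _ _ ha0
      · have e1 : i + 1 = 2 + 3 * k := by omega
        have e2 : i - 1 = 0 + 3 * k := by omega
        rw [e1, e2, h, hper, hper, hper]
        exact hsm' _ _ _ _ _ ha1
      · have e1 : i + 1 = 3 + 3 * k := by omega
        have e2 : i - 1 = 1 + 3 * k := by omega
        rw [e1, e2, h, hper, hper, hper]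
        exact hsm' _ _ _ _ _ ha2) 0 (3 * m)
  have e3 : (0 : ℤ) + ((3 * m : ℕ) : ℤ) = 0 + 3 * (m : ℤ) := by push_cast; ring
  rw [e3, hper, hv0, zpow_natCast] at key
  have h7 : qd (Ker F) (cd F P.D d P.s) (ap F P.D e) (ap F P.D (U ^ m • e)) = 0 :=
    hze hG hF hT (U ^ m) hU (ap F P.D e)
  omega

end

theorem desc_fix (hfix : S.fix_two) (hpc : S.pow_coprime) (hcl : S.canoe_len)
    (hsz : S.size_small) (hth : S.angQ_thru) (htr : S.angQ_tri) (hsm : S.angQ_smul)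
    (hen : S.exitQ_ne) (hes : S.exitQ_smul) (hiso : S.qd_isom) (hsy : S.qd_geo)
    (hze : S.qd_zero) (hap : S.qd_ap) : S.desc_fix := by
  intro G X _ _ d P F T M hG hF hT hF1 x y hx0 hx c hc hU
  obtain ⟨hθ, hN, hn1, hdv⟩ := D7_par P
  have hnorm : (Ker F).Normal := ker_nrm F
  by_contra hcon
  -- the two apices are not equivalent
  have hne : ∀ κ ∈ Ker F, κ • c ≠ y • c := by
    intro κ hκ h1
    apply hcon
    have h2 : (κ⁻¹ * y) • c = c := by rw [mul_smul, ← h1, inv_smul_smul]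
    have h3 : x * (κ⁻¹ * y) * x⁻¹ * (κ⁻¹ * y)⁻¹ ∈ Ker F :=
      Subgroup.subset_closure ⟨c, hF.comm c x (κ⁻¹ * y) hc h2⟩
    have h4 : x * y * x⁻¹ * y⁻¹ =
        (x * κ * x⁻¹) * (x * (κ⁻¹ * y) * x⁻¹ * (κ⁻¹ * y)⁻¹) * κ⁻¹ := by group
    rw [h4]
    exact (Ker F).mul_mem ((Ker F).mul_mem (hnorm.conj_mem κ hκ x) h3) ((Ker F).inv_mem hκ)
  have hne' : ∀ κ ∈ Ker F, κ • (y • c) ≠ c := D7_symm hne
  have hyc : ∀ κ ∈ Ker F, κ • c ≠ y⁻¹ • c := by
    have := D7_tr hne' y⁻¹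
    rwa [inv_smul_smul] at this
  have hxR : x ∉ F.R c := fun h => hx0 (Subgroup.subset_closure ⟨c, h⟩)
  have hxp : ∀ i : ℕ, x ^ i • c = c := by
    intro i
    induction i with
    | zero => rw [pow_zero, one_smul]
    | succ i ih => rw [pow_succ, mul_smul, hc, ih]
  have hcp : ∀ i : ℕ, (y * x * y⁻¹) ^ i = y * x ^ i * y⁻¹ := fun i => conj_pow
  have hx1p : ∀ i : ℕ, (y * x * y⁻¹) ^ i • (y • c) = y • c := by
    intro i
    rw [hcp, mul_smul, inv_smul_smul, mul_smul, hxp]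
  have hK0 : ∀ i : ℕ, x ^ (P.Q ^ i) ∉ Ker F := fun i h =>
    hx0 (hpc hG hF hT (Ker F) x (P.Q ^ i) hx (hdv i) h)
  have hK1 : ∀ i : ℕ, (y * x * y⁻¹) ^ (P.Q ^ i) ∉ Ker F := by
    intro i h
    apply hK0 i
    rw [hcp] at h
    have := hnorm.conj_mem _ h y⁻¹
    simpa [mul_assoc] using this
  -- a letter which is not big is small
  have hsmall : ∀ (u : G) (c' : F.C), u • c = c → (∀ κ ∈ Ker F, κ • c ≠ c') →
      ¬ AngQ F P.D d (qd (Ker F) (cd F P.D d P.s)) c (ap F P.D c') (ap F P.D (u • c'))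
        (50 * P.θ) → ∃ z ∈ F.Y c, ∃ r ∈ F.R c, d z ((r * u) • z) ≤ 100 * P.θ := by
    intro u c' hu hcc' hang
    obtain ⟨z, hz⟩ := hen hG hF hT c (ap F P.D c') (D7_ap hcc')
    have hz2 := hes hG hF hT u c (ap F P.D c') z hz
    rw [hu] at hz2
    have hzY : z ∈ F.Y c := by
      obtain ⟨y', hy', _⟩ := hz
      rw [← hy']
      exact y'.2
    by_contra hc2
    push Not at hc2
    apply hang
    refine ⟨z, hz, u • z, hz2, fun r hr => ?_⟩
    have := hc2 z hzY r hr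
    rw [mul_smul] at this
    omega
  have hs0 : ∀ i : ℕ, ¬ AngQ F P.D d (qd (Ker F) (cd F P.D d P.s)) c (ap F P.D (y • c))
      (ap F P.D (x ^ (P.Q ^ i) • (y • c))) (50 * P.θ) →
      ∃ z ∈ F.Y c, ∃ r ∈ F.R c, d z ((r * x ^ (P.Q ^ i)) • z) ≤ 100 * P.θ :=
    fun i h => hsmall _ _ (hxp _) hne h
  have hs1 : ∀ i : ℕ, ¬ AngQ F P.D d (qd (Ker F) (cd F P.D d P.s)) (y • c) (ap F P.D c)
      (ap F P.D ((y * x * y⁻¹) ^ (P.Q ^ i) • c)) (50 * P.θ) →
      ∃ z ∈ F.Y c, ∃ r ∈ F.R c, d z ((r * x ^ (P.Q ^ i)) • z) ≤ 100 * P.θ := by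
    intro i h
    refine hsmall _ _ (hxp _) hyc (fun h1 => h ?_)
    have h2 := hsm hG hF hT y c (ap F P.D (y⁻¹ • c))
      (ap F P.D (x ^ (P.Q ^ i) • y⁻¹ • c)) _ h1
    have h3 : y • ap F P.D (y⁻¹ • c) = ap F P.D c := by
      show ap F P.D (y • y⁻¹ • c) = ap F P.D c
      rw [smul_inv_smul]
    have h4 : y • ap F P.D (x ^ (P.Q ^ i) • y⁻¹ • c) =
        ap F P.D ((y * x * y⁻¹) ^ (P.Q ^ i) • c) := by
      show ap F P.D (y • x ^ (P.Q ^ i) • y⁻¹ • c) = _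
      rw [hcp, mul_smul, mul_smul]
    rwa [h3, h4] at h2
  have htwo : ∀ i j : ℕ, i < j → j ≤ 4 →
      (∃ z ∈ F.Y c, ∃ r ∈ F.R c, d z ((r * x ^ (P.Q ^ i)) • z) ≤ 100 * P.θ) →
      (∃ z ∈ F.Y c, ∃ r ∈ F.R c, d z ((r * x ^ (P.Q ^ j)) • z) ≤ 100 * P.θ) → False := by
    rintro i j hij hj ⟨z, hz, r, hr, h1⟩ ⟨z', hz', r', hr', h2⟩
    exact hsz hG hF hT hF1 c x hc hxR i j hij (by omega) z z' hz hz' r r' hr hr' h1 h2
  -- rotations of the word
  have hrot : ∀ g : G, ∀ w : G, w = g⁻¹ * Uw P.Q x y * g → w ^ P.n ∈ Ker F := by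
    rintro g w rfl
    have h1 : (g⁻¹ * Uw P.Q x y * g) ^ P.n = g⁻¹ * (Uw P.Q x y) ^ P.n * g := by
      have := conj_pow (a := g⁻¹) (b := Uw P.Q x y) (i := P.n)
      rwa [inv_inv] at this
    rw [h1]
    simpa using hnorm.conj_mem _ hU g⁻¹
  by_cases hb1 : AngQ F P.D d (qd (Ker F) (cd F P.D d P.s)) c (ap F P.D (y • c))
      (ap F P.D (x ^ (P.Q ^ 1) • (y • c))) (50 * P.θ)
  · by_cases hb2 : AngQ F P.D d (qd (Ker F) (cd F P.D d P.s)) (y • c) (ap F P.D c)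
        (ap F P.D ((y * x * y⁻¹) ^ (P.Q ^ 2) • c)) (50 * P.θ)
    · by_cases hb3 : AngQ F P.D d (qd (Ker F) (cd F P.D d P.s)) c (ap F P.D (y • c))
          (ap F P.D (x ^ (P.Q ^ 3) • (y • c))) (50 * P.θ)
      · refine D7_main hfix hcl hth htr hsm hiso hsy hze hap hG hF hT c (y • c) hne
          (x ^ (P.Q ^ 1)) ((y * x * y⁻¹) ^ (P.Q ^ 2)) (x ^ (P.Q ^ 3))
          ((y * x * y⁻¹) ^ (P.Q ^ 4)) (hxp _) (hx1p _) (hxp _) (hx1p _) (hK1 4) hb1 hb2 hb3
          P.n hn1 (hrot 1 _ ?_)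
        unfold Uw
        rw [pow_one]
        group
      · have hb4 : AngQ F P.D d (qd (Ker F) (cd F P.D d P.s)) (y • c) (ap F P.D c)
            (ap F P.D ((y * x * y⁻¹) ^ (P.Q ^ 4) • c)) (50 * P.θ) := by
          by_contra h
          exact htwo 3 4 (by norm_num) le_rfl (hs0 3 hb3) (hs1 4 h)
        refine D7_main hfix hcl hth htr hsm hiso hsy hze hap hG hF hT (y • c) c hne'
          ((y * x * y⁻¹) ^ (P.Q ^ 4)) (x ^ (P.Q ^ 1)) ((y * x * y⁻¹) ^ (P.Q ^ 2))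
          (x ^ (P.Q ^ 3)) (hx1p _) (hxp _) (hx1p _) (hxp _) (hK0 3) hb4 hb1 hb2
          P.n hn1 (hrot (x ^ P.Q * (y * x * y⁻¹) ^ (P.Q ^ 2) * x ^ (P.Q ^ 3)) _ ?_)
        unfold Uw
        rw [pow_one]
        group
    · have hb3 : AngQ F P.D d (qd (Ker F) (cd F P.D d P.s)) c (ap F P.D (y • c))
          (ap F P.D (x ^ (P.Q ^ 3) • (y • c))) (50 * P.θ) := by
        by_contra h
        exact htwo 2 3 (by norm_num) (by norm_num) (hs1 2 hb2) (hs0 3 h)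
      have hb4 : AngQ F P.D d (qd (Ker F) (cd F P.D d P.s)) (y • c) (ap F P.D c)
          (ap F P.D ((y * x * y⁻¹) ^ (P.Q ^ 4) • c)) (50 * P.θ) := by
        by_contra h
        exact htwo 2 4 (by norm_num) le_rfl (hs1 2 hb2) (hs1 4 h)
      refine D7_main hfix hcl hth htr hsm hiso hsy hze hap hG hF hT c (y • c) hne
        (x ^ (P.Q ^ 3)) ((y * x * y⁻¹) ^ (P.Q ^ 4)) (x ^ (P.Q ^ 1))
        ((y * x * y⁻¹) ^ (P.Q ^ 2)) (hxp _) (hx1p _) (hxp _) (hx1p _) (hK1 2) hb3 hb4 hb1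
        P.n hn1 (hrot (x ^ P.Q * (y * x * y⁻¹) ^ (P.Q ^ 2)) _ ?_)
      unfold Uw
      rw [pow_one]
      group
  · have hb2 : AngQ F P.D d (qd (Ker F) (cd F P.D d P.s)) (y • c) (ap F P.D c)
        (ap F P.D ((y * x * y⁻¹) ^ (P.Q ^ 2) • c)) (50 * P.θ) := by
      by_contra h
      exact htwo 1 2 (by norm_num) (by norm_num) (hs0 1 hb1) (hs1 2 h)
    have hb3 : AngQ F P.D d (qd (Ker F) (cd F P.D d P.s)) c (ap F P.D (y • c))
        (ap F P.D (x ^ (P.Q ^ 3) • (y • c))) (50 * P.θ) := by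
      by_contra h
      exact htwo 1 3 (by norm_num) (by norm_num) (hs0 1 hb1) (hs0 3 h)
    have hb4 : AngQ F P.D d (qd (Ker F) (cd F P.D d P.s)) (y • c) (ap F P.D c)
        (ap F P.D ((y * x * y⁻¹) ^ (P.Q ^ 4) • c)) (50 * P.θ) := by
      by_contra h
      exact htwo 1 4 (by norm_num) le_rfl (hs0 1 hb1) (hs1 4 h)
    refine D7_main hfix hcl hth htr hsm hiso hsy hze hap hG hF hT (y • c) c hne'
      ((y * x * y⁻¹) ^ (P.Q ^ 2)) (x ^ (P.Q ^ 3)) ((y * x * y⁻¹) ^ (P.Q ^ 4))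
      (x ^ (P.Q ^ 1)) (hx1p _) (hxp _) (hx1p _) (hxp _) (hK0 1) hb2 hb3 hb4
      P.n hn1 (hrot (x ^ P.Q) _ ?_)
    unfold Uw
    rw [pow_one]
    group

end Mon
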