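import Pool.Agent.Work.MP_6f5fa7_al.Mon.StDesc

/-! Mon, item D8: the descent for the two types of steps (blueprint M11). -/
set_option autoImplicit false

namespace Mon

theorem D8_mapU {G H : Type} [Group G] [Group H] (π : G →* H) (Q : ℕ) (x y : G) :
    π (Uw Q x y) = Uw Q (π x) (π y) := by
  simp only [Uw, map_mul, map_pow, map_inv]

theorem D8_mapW {G H : Type} [Group G] [Group H] (π : G →* H) (Q N : ℕ) (V x : G) :
    π (Ww Q N V x) = Ww Q N (π V) (π x) := by
  unfold Ww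
  rw [map_list_prod, List.map_map]
  congr 1
  refine List.map_congr_left fun j _ => ?_
  simp only [Function.comp_apply, map_mul, map_pow]

theorem D8_mapE {G H : Type} [Group G] [Group H] (π : G →* H) (Q N : ℕ) (x y : G) :
    π (Ew Q N x y) = Ew Q N (π x) (π y) := by
  unfold Ew
  rw [D8_mapW, D8_mapU]

theorem D8_mem {G : Type} [Group G] (K : Subgroup G) [K.Normal] (g : G) :
    g ∈ K ↔ QuotientGroup.mk' K g = 1 := (QuotientGroup.eq_one_iff g).symm

theorem D8_eq {G : Type} [Group G] (K : Subgroup G) [K.Normal] {x x' : G}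
    (h : ∃ κ ∈ K, x' = κ * x) : QuotientGroup.mk' K x' = QuotientGroup.mk' K x := by
  obtain ⟨κ, hκ, rfl⟩ := h
  rw [map_mul, (D8_mem K κ).1 hκ, one_mul]

theorem D8_comm {G : Type} [Group G] (K : Subgroup G) [K.Normal] {x y x' y' : G}
    (hx : QuotientGroup.mk' K x' = QuotientGroup.mk' K x)
    (hy : QuotientGroup.mk' K y' = QuotientGroup.mk' K y)
    (h : x' * y' * x'⁻¹ * y'⁻¹ ∈ K) : x * y * x⁻¹ * y⁻¹ ∈ K := by
  rw [D8_mem] at h ⊢
  rw [map_mul, map_mul, map_mul, map_inv, map_inv] at h ⊢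
  rw [← hx, ← hy]
  exact h

theorem D8_triv {G : Type} [Group G] (K : Subgroup G) [K.Normal] {x y : G}
    (hx : x ∈ K) : x * y * x⁻¹ * y⁻¹ ∈ K := by
  rw [D8_mem] at hx ⊢
  rw [map_mul, map_mul, map_mul, map_inv, map_inv, hx]
  group

theorem D8_E {G : Type} [Group G] (K : Subgroup G) [K.Normal] (Q N : ℕ) {x y x' y' : G}
    (hx : QuotientGroup.mk' K x' = QuotientGroup.mk' K x)
    (hy : QuotientGroup.mk' K y' = QuotientGroup.mk' K y) :
    QuotientGroup.mk' K (Ew Q N x' y') = QuotientGroup.mk' K (Ew Q N x y) := by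
  rw [D8_mapE, D8_mapE, hx, hy]

theorem D8_R {G X : Type} [Group G] [MulAction G X] (F : Fam G X) {c : F.C} {r : G}
    (hr : r ∈ F.R c) : r ∈ Ker F := Subgroup.subset_closure ⟨c, hr⟩

theorem D8_pow {G : Type} [Group G] (K : Subgroup G) [K.Normal] {x x' : G} {n : ℕ}
    (hx : QuotientGroup.mk' K x' = QuotientGroup.mk' K x) (h : x ^ n ∈ K) : x' ^ n ∈ K := by
  rw [D8_mem, map_pow] at h ⊢
  rw [hx, h]

theorem desc1 (hfix : S.desc_fix) (hold : S.desc_old) : S.desc1 := by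
  intro G X _ _ d P F T M hG hF hT hF1 hS x y hx hU
  by_cases hx0 : x ∈ Ker F
  · exact Or.inl (D8_triv (Ker F) hx0)
  by_cases hc : ∃ c, FixB F x c
  · obtain ⟨c, κ, hκ, hκc⟩ := hc
    have e1 : QuotientGroup.mk' (Ker F) (κ * x) = QuotientGroup.mk' (Ker F) x :=
      D8_eq (Ker F) ⟨κ, hκ, rfl⟩
    left
    refine D8_comm (Ker F) e1 rfl (hfix hG hF hT hF1 (κ * x) y (fun h => hx0 ?_)
      (D8_pow (Ker F) e1 hx) c hκc ?_)
    · rw [D8_mem] at h ⊢
      rw [← e1, h]
    · refine D8_pow (Ker F) ?_ hU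
      rw [D8_mapU, D8_mapU, e1]
  · have hc' : ∀ c, ¬ FixB F x c := fun c h => hc ⟨c, h⟩
    obtain ⟨x', y', hx', hy', hn, hV⟩ := hold hG hF hT x y hx0 hx hc' hU
    have e1 := D8_eq (Ker F) hx'
    have e2 := D8_eq (Ker F) hy'
    have e3 := D8_E (Ker F) P.Q P.N e1 e2
    rcases hV with hV | ⟨c, hV⟩
    · rcases hS x' y' hn hV with h | h
      · left
        refine D8_comm (Ker F) e1 e2 ?_
        have : x' * y' * x'⁻¹ * y'⁻¹ = 1 := by
          rw [h]
          group
        rw [this]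
        exact (Ker F).one_mem
      · right; left
        rw [D8_mem, ← e3, h, map_one]
    · right; right
      refine ⟨Uw P.Q x' y', x', c, hV, Ew P.Q P.N x y * (Ew P.Q P.N x' y')⁻¹, ?_, ?_⟩
      · rw [D8_mem, map_mul, map_inv, e3, mul_inv_cancel]
      · show Ew P.Q P.N x y = Ew P.Q P.N x y * (Ew P.Q P.N x' y')⁻¹ * Ew P.Q P.N x' y'
        rw [inv_mul_cancel_right]

theorem desc2 (hold : S.desc_old) : S.desc2 := by
  intro G X _ _ d P F T M hG hF hT hst hS x y hx hU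
  by_cases hx0 : x ∈ Ker F
  · exact Or.inl (D8_triv (Ker F) hx0)
  by_cases hc : ∃ c, FixB F x c
  · obtain ⟨c, κ, hκ, hκc⟩ := hc
    exfalso
    have h1 : κ * x ∈ Ker F := D8_R F (hst c _ hκc)
    exact hx0 (((Ker F).mul_mem_cancel_left hκ).1 h1)
  · have hc' : ∀ c, ¬ FixB F x c := fun c h => hc ⟨c, h⟩
    obtain ⟨x', y', hx', hy', hn, hV⟩ := hold hG hF hT x y hx0 hx hc' hU
    have e1 := D8_eq (Ker F) hx'
    have e2 := D8_eq (Ker F) hy'
    have e3 := D8_E (Ker F) P.Q P.N e1 e2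
    rcases hV with hV | ⟨c, hV⟩
    · rcases hS x' y' hn hV with h | h | ⟨c, h⟩
      · left
        refine D8_comm (Ker F) e1 e2 ?_
        have : x' * y' * x'⁻¹ * y'⁻¹ = 1 := by
          rw [h]
          group
        rw [this]
        exact (Ker F).one_mem
      · right
        rw [D8_mem, ← e3, h, map_one]
      · right
        rw [D8_mem, ← e3]
        exact (D8_mem (Ker F) _).1 (D8_R F h)
    · exact (hV.ntr (hst c _ hV.fix)).elim

end Mon
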