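import Pool.Agent.Work.MP_6f5fa7_al.Mon.Defs2

/-! Mon: M12, the type 1 family. -/
set_option autoImplicit false

namespace Mon

-- variable {G X : Type} [Group G] [MulAction G X] {d : X → X → ℕ} (P : Par)

-- variable (hG : P.St G d P.M)

/-- (F1) the stabiliser of a centraliser is contained in it (cyc_norm) -/
def S.fam_stab : Prop :=
  ∀ {G X : Type} [Group G] [MulAction G X] {d : X → X → ℕ} (P : Par) (hG : P.St G d P.M)  (c : (cycFam P hG.isom).C) (g : G) (h : g • c = c),
    g ∈ c.1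

/-- (F2) elements of `R c` are `n`-th powers -/
def S.fam_R : Prop :=
  ∀ {G X : Type} [Group G] [MulAction G X] {d : X → X → ℕ} (P : Par) (hG : P.St G d P.M)  (c : (cycFam P hG.isom).C) (r : G) (h : r ∈ (cycFam P hG.isom).R c),
    ∃ g ∈ c.1, r = g ^ P.n

/-- (F3) `Y` is near the orbit of `⟨h⟩` -/
def S.fam_near : Prop :=
  ∀ {G X : Type} [Group G] [MulAction G X] {d : X → X → ℕ} (P : Par) (hG : P.St G d P.M)  (h : G) (x0 : X) (hh : h ^ P.n ≠ 1) (hx : Mv d h x0 P.Λs) (y : X)
    (hy : y ∈ P.Yset d (Subgroup.centralizer {h})),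
    ∃ j : ℤ, d y (h ^ j • x0) ≤ 10 * P.A0

/-- (F4) -/
def S.fam_disp : Prop :=
  ∀ {G X : Type} [Group G] [MulAction G X] {d : X → X → ℕ} (P : Par) (hG : P.St G d P.M)  (h : G) (hh : P.Short d h) (g : G) (hg : g ∈ Subgroup.centralizer {h}) (y y' : X)
    (hy : y ∈ P.Yset d (Subgroup.centralizer {h})) (hy' : y' ∈ P.Yset d (Subgroup.centralizer {h})),
    d y (g • y) ≤ d y' (g • y') + P.A

/-- (F5) quasiconvexity -/
def S.fam_qc : Prop :=
  ∀ {G X : Type} [Group G] [MulAction G X] {d : X → X → ℕ} (P : Par) (hG : P.St G d P.M)  (h : G) (hh : P.Short d h) (a b z : X)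
    (ha : a ∈ P.Yset d (Subgroup.centralizer {h})) (hb : b ∈ P.Yset d (Subgroup.centralizer {h}))
    (hz : Btw d a z b 0),
    ∃ y ∈ P.Yset d (Subgroup.centralizer {h}), d z y ≤ P.A

/-- (F6) overlaps -/
def S.fam_ov : Prop :=
  ∀ {G X : Type} [Group G] [MulAction G X] {d : X → X → ℕ} (P : Par) (hG : P.St G d P.M)  (h h' : G) (hh : P.Short d h) (hh' : P.Short d h')
    (hne : Subgroup.centralizer {h} ≠ Subgroup.centralizer {h'}) (a b a' b' : X)
    (ha : a ∈ P.Yset d (Subgroup.centralizer {h})) (hb : b ∈ P.Yset d (Subgroup.centralizer {h}))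
    (ha' : a' ∈ P.Yset d (Subgroup.centralizer {h'}))
    (hb' : b' ∈ P.Yset d (Subgroup.centralizer {h'}))
    (h1 : d a a' ≤ 100 * P.A) (h2 : d b b' ≤ 100 * P.A),
    50 * d a b ≤ P.s

/-- (F7) distinct centralisers of short elements intersect trivially -/
def S.fam_inter : Prop :=
  ∀ {G X : Type} [Group G] [MulAction G X] {d : X → X → ℕ} (P : Par) (hG : P.St G d P.M)  (h h' : G) (hh : P.Short d h) (hh' : P.Short d h')
    (hne : Subgroup.centralizer {h} ≠ Subgroup.centralizer {h'}) (g : G)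
    (h1 : g ∈ Subgroup.centralizer {h}) (h2 : g ∈ Subgroup.centralizer {h'}),
    g = 1

/-- (F8) the type 1 family has all required properties -/
def S.fam1 : Prop :=
  ∀ {G X : Type} [Group G] [MulAction G X] {d : X → X → ℕ} (P : Par) (hG : P.St G d P.M),
    Fam1 P d (cycFam P hG.isom)

end Mon

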