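import Pool.Agent.Work.MP_6f5fa7_al.Mon.Defs3

/-! Mon: M13, the type 2 family satisfies the hypotheses; the two steps. -/
set_option autoImplicit false

namespace Mon

-- variable {G X : Type} [Group G] [MulAction G X] {d : X → X → ℕ} {P : Par} {F : Fam G X}   (hG : P.St G d P.M) (hF : Fam1 P d F) (hci : Isom G (cd F P.D d P.s))

/-- points of `Y` lie between two consecutive apices -/
def S.fam2_Y : Prop :=
  ∀ {G X : Type} [Group G] [MulAction G X] {d : X → X → ℕ} {P : Par} {F : Fam G X}   (hG : P.St G d P.M) (hF : Fam1 P d F) (hci : Isom G (cd F P.D d P.s))  (S : (fam2 P d F hG.isom hci).C) (z : Vq (Ker F) (Cone F P.D))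
    (hz : z ∈ (fam2 P d F hG.isom hci).Y S) (V x : G) (c : F.C) (h : Rel1 P d F V x c)
    (hS : S.1 = Ax2 P F V x c),
    ∃ (v : Cone F P.D) (i : ℤ), mkq (Ker F) v = z ∧
      Btw (qd (Ker F) (cd F P.D d P.s)) (ap F P.D (axs P F V x c i)) v
        (ap F P.D (axs P F V x c (i + 1))) 0

def S.fam2_qc : Prop :=
  ∀ {G X : Type} [Group G] [MulAction G X] {d : X → X → ℕ} {P : Par} {F : Fam G X}   (hG : P.St G d P.M) (hF : Fam1 P d F) (hci : Isom G (cd F P.D d P.s))  (S : (fam2 P d F hG.isom hci).C) (a b z : Vq (Ker F) (Cone F P.D))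
    (ha : a ∈ (fam2 P d F hG.isom hci).Y S) (hb : b ∈ (fam2 P d F hG.isom hci).Y S)
    (hz : Btw (dq (Ker F) (cd F P.D d P.s)) a z b 0),
    ∃ y ∈ (fam2 P d F hG.isom hci).Y S, dq (Ker F) (cd F P.D d P.s) z y ≤ P.A

def S.fam2_ov : Prop :=
  ∀ {G X : Type} [Group G] [MulAction G X] {d : X → X → ℕ} {P : Par} {F : Fam G X}   (hG : P.St G d P.M) (hF : Fam1 P d F) (hci : Isom G (cd F P.D d P.s))  (S S' : (fam2 P d F hG.isom hci).C) (a b a' b' : Vq (Ker F) (Cone F P.D))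
    (hne : S ≠ S') (ha : a ∈ (fam2 P d F hG.isom hci).Y S)
    (hb : b ∈ (fam2 P d F hG.isom hci).Y S) (ha' : a' ∈ (fam2 P d F hG.isom hci).Y S')
    (hb' : b' ∈ (fam2 P d F hG.isom hci).Y S')
    (h1 : dq (Ker F) (cd F P.D d P.s) a a' ≤ 100 * P.A)
    (h2 : dq (Ker F) (cd F P.D d P.s) b b' ≤ 100 * P.A),
    50 * dq (Ker F) (cd F P.D d P.s) a b ≤ P.s

def S.fam2_big : Prop :=
  ∀ {G X : Type} [Group G] [MulAction G X] {d : X → X → ℕ} {P : Par} {F : Fam G X}   (hG : P.St G d P.M) (hF : Fam1 P d F) (hci : Isom G (cd F P.D d P.s))  (S : (fam2 P d F hG.isom hci).C) (r : G ⧸ Ker F)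
    (y : Vq (Ker F) (Cone F P.D)) (hr : r ∈ (fam2 P d F hG.isom hci).R S) (hr1 : r ≠ 1)
    (hy : y ∈ (fam2 P d F hG.isom hci).Y S),
    P.TT2 ≤ dq (Ker F) (cd F P.D d P.s) y (r • y)

def S.fam2_ok : Prop :=
  ∀ {G X : Type} [Group G] [MulAction G X] {d : X → X → ℕ} {P : Par} {F : Fam G X}   (hG : P.St G d P.M) (hF : Fam1 P d F) (hci : Isom G (cd F P.D d P.s)),
    FamOK P (dq (Ker F) (cd F P.D d P.s)) (fam2 P d F hG.isom hci) P.TT2

/-- the relators are in the subgroups of the type 2 family -/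
def S.rel_mem : Prop :=
  ∀ {G X : Type} [Group G] [MulAction G X] {d : X → X → ℕ} {P : Par} {F : Fam G X}   (hG : P.St G d P.M) (hF : Fam1 P d F) (hci : Isom G (cd F P.D d P.s))  (V x : G) (c : F.C) (h : Rel1 P d F V x c),
    (QuotientGroup.mk (Ww P.Q P.N V x) : G ⧸ Ker F) ∈
      (fam2 P d F hG.isom hci).R ⟨Ax2 P F V x c, ⟨V, x, c, h, rfl⟩⟩

/-- the property `S` of the double quotient -/
def S.desc_two : Prop :=
  ∀ {G X : Type} [Group G] [MulAction G X] {d : X → X → ℕ} {P : Par} {F : Fam G X}   (hG : P.St G d P.M) (hF : Fam1 P d F) (hci : Isom G (cd F P.D d P.s))  (hQ : P.St (G ⧸ Ker F) (dq (Ker F) (cd F P.D d P.s)) P.M1) (hS : SProp P G),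
    SProp P ((G ⧸ Ker F) ⧸ Ker (fam2 P d F hG.isom hci))

end Mon

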