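import Pool.Agent.Work.MP_6f5fa7_al.Mon.StEnd
import Pool.Agent.Work.MP_6f5fa7_al.Mon.StAct
import Pool.Agent.Work.MP_6f5fa7_al.Mon.StCone
import Pool.Agent.Work.MP_6f5fa7_al.Mon.StFam
import Pool.Agent.Work.MP_6f5fa7_al.Mon.StFam2
import Pool.Agent.Work.MP_6f5fa7_al.Mon.StDesc

/-! Mon: item E1 (the quotients are stages; the two steps). -/
set_option autoImplicit false

namespace Mon

private theorem E1_mk_mem_bot {G : Type} [Group G] (K : Subgroup G) [K.Normal] (g : G) :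
    (QuotientGroup.mk g : G ⧸ K) ∈ (⊥ : Subgroup (G ⧸ K)) ↔ g ∈ K := by
  rw [Subgroup.mem_bot]
  exact QuotientGroup.eq_one_iff g

private theorem E1_mv {G V : Type} [Group G] [MulAction G V] {e : V → V → ℕ} (K : Subgroup G)
    [K.Normal] (hi : Isom G e) (g : G) (x : V) (R : ℕ)
    (h : Mv (dq K e) (QuotientGroup.mk g : G ⧸ K) (mkq K x) R) : Mv (qd K e) g x R := by
  unfold Mv at h ⊢
  rw [qsmul_mk, dq_mk K hi] at h
  exact h

theorem good_q : S.good_q := by
  intro G V _ _ e K hK hi n δ Λ A A0 M h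
  refine
    { geo := ⟨?_, ?_, ?_, ?_⟩
      isom := dq_isom K hi
      hyp := ?_
      T2 := ?_
      T3a := ?_
      T3b := ?_
      T3c := ?_ }
  · intro a
    obtain ⟨v, rfl⟩ := mkq_surj K a
    rw [dq_mk K hi]
    exact h.geo.self v
  · intro a b
    obtain ⟨v, rfl⟩ := mkq_surj K a
    obtain ⟨w, rfl⟩ := mkq_surj K b
    rw [dq_mk K hi, dq_mk K hi]
    exact h.geo.symm v w
  · intro a b c
    obtain ⟨v, rfl⟩ := mkq_surj K a
    obtain ⟨w, rfl⟩ := mkq_surj K b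
    obtain ⟨z, rfl⟩ := mkq_surj K c
    rw [dq_mk K hi, dq_mk K hi, dq_mk K hi]
    exact h.geo.tri v w z
  · intro a b i hle
    obtain ⟨v, rfl⟩ := mkq_surj K a
    obtain ⟨w, rfl⟩ := mkq_surj K b
    rw [dq_mk K hi] at hle ⊢
    obtain ⟨z, hz1, hz2⟩ := h.geo.geo v w i hle
    refine ⟨mkq K z, ?_, ?_⟩
    · rw [dq_mk K hi]; exact hz1
    · rw [dq_mk K hi]; exact hz2
  · intro a b c t
    obtain ⟨v, rfl⟩ := mkq_surj K a
    obtain ⟨w, rfl⟩ := mkq_surj K b
    obtain ⟨z, rfl⟩ := mkq_surj K c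
    obtain ⟨u, rfl⟩ := mkq_surj K t
    simp only [dq_mk K hi]
    exact h.hyp v w z u
  · intro g
    obtain ⟨g, rfl⟩ := QuotientGroup.mk_surjective g
    rcases h.T2 g with h1 | h1
    · left
      rw [← QuotientGroup.mk_pow, E1_mk_mem_bot]
      exact h1
    · right
      intro a
      obtain ⟨v, rfl⟩ := mkq_surj K a
      rw [← QuotientGroup.mk_pow, qsmul_mk, dq_mk K hi]
      exact h1 v
  · intro g a b hg hA h1 h2
    obtain ⟨g, rfl⟩ := QuotientGroup.mk_surjective g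
    obtain ⟨v, rfl⟩ := mkq_surj K a
    obtain ⟨w, rfl⟩ := mkq_surj K b
    rw [← QuotientGroup.mk_pow, E1_mk_mem_bot]
    rw [E1_mk_mem_bot] at hg
    rw [dq_mk K hi] at hA
    exact h.T3a g v w hg hA (E1_mv K hi g v Λ h1) (E1_mv K hi g w Λ h2)
  · intro g a hg h1
    obtain ⟨g, rfl⟩ := QuotientGroup.mk_surjective g
    obtain ⟨v, rfl⟩ := mkq_surj K a
    rw [← QuotientGroup.mk_pow, E1_mk_mem_bot] at hg
    have h2 := h.T3b g v hg (E1_mv K hi g v Λ h1)
    intro i j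
    have h3 := h2 i j
    simp only [← QuotientGroup.mk_pow, qsmul_mk, dq_mk K hi]
    exact h3
  · intro g g' a b hA h1 h2 h3 h4
    obtain ⟨g, rfl⟩ := QuotientGroup.mk_surjective g
    obtain ⟨g', rfl⟩ := QuotientGroup.mk_surjective g'
    obtain ⟨v, rfl⟩ := mkq_surj K a
    obtain ⟨w, rfl⟩ := mkq_surj K b
    rw [dq_mk K hi] at hA
    have h5 := h.T3c g g' v w hA (E1_mv K hi g v Λ h1) (E1_mv K hi g w Λ h2)
      (E1_mv K hi g' v Λ h3) (E1_mv K hi g' w Λ h4)
    have h6 : (QuotientGroup.mk g : G ⧸ K) * QuotientGroup.mk g' * (QuotientGroup.mk g)⁻¹ *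
        (QuotientGroup.mk g')⁻¹ = QuotientGroup.mk (g * g' * g⁻¹ * g'⁻¹) := rfl
    rw [h6, E1_mk_mem_bot]
    exact h5

private theorem E1_one_le_s (P : Par) : 1 ≤ P.s ∧ 1 ≤ P.D := by
  have h1 := P.h1
  have h2 := P.hδ
  have h3 := P.hΛs
  have h4 := P.hΛ
  have h5 := P.hA0
  have h6 := P.hD
  have h7 := P.hA
  have h8 := P.hs
  have h9 : 1 ≤ Ex (1000 * P.Λ) := by
    unfold Ex
    exact Nat.one_le_iff_ne_zero.mpr (Nat.mul_ne_zero (by omega) (by positivity))
  omega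

private theorem E1_TT (P : Par) : P.TT2 ≤ P.TT1 := by
  have h1 := P.hTT1
  have h2 : 1 ≤ P.Q ^ (10 * P.N + 100) := by
    apply Nat.one_le_iff_ne_zero.mpr
    intro h0
    have hQ0 : P.Q = 0 := by
      by_contra hne
      exact (pow_ne_zero _ hne) h0
    have h3 := P.hQ
    rw [hQ0] at h3
    have hTT : P.TT2 = 0 ∨ P.M = 0 := by
      rcases Nat.eq_zero_or_pos P.TT2 with h | h
      · exact Or.inl h
      · right
        by_contra hM
        have : 0 < 1000 * P.M * P.TT2 := by positivity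
        omega
    have hM := P.hM
    have h4 := P.hTT2
    have h5 := P.h1
    have h6 := (E1_one_le_s P).1
    have h7 : 0 < 100000 * (P.δ1 * P.s * 2 ^ P.D) := by positivity
    omega
  calc P.TT2 = P.TT2 * 1 := (mul_one _).symm
    _ ≤ 1000 * P.TT2 * P.Q ^ (10 * P.N + 100) := by
        apply Nat.mul_le_mul (by omega) h2
    _ ≤ P.TT1 := h1

theorem st_one (qT2a : S.qT2a) (qT3a : S.qT3a) (qT3b : S.qT3b) (qT3c : S.qT3c)
    (qd_geo : S.qd_geo) (qd_isom : S.qd_isom) (qd_hyp : S.qd_hyp) (cone_isom : S.cone_isom) :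
    S.st_one := by
  intro G X _ _ d P F M hG hF hsh
  have hT := E1_TT P
  have hci : Isom G (cd F P.D d P.s) :=
    cone_isom hG.geo hG.isom (E1_one_le_s P).1 (E1_one_le_s P).2
  refine good_q G (Cone F P.D) (cd F P.D d P.s) (Ker F) hci P.n P.δ P.Λ P.A P.A0 P.M1 ?_
  exact
    { geo := qd_geo hG hF hT
      isom := qd_isom hG hF hT
      hyp := qd_hyp hG hF hT
      T2 := fun g => qT2a hG hF hT hsh g
      T3a := fun g x y hg h h1 h2 => qT3a hG hF hT g x y hg h h1 h2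
      T3b := fun g x hg h1 => qT3b hG hF hT g x hg h1
      T3c := fun g h x y hxy h1 h2 h3 h4 => qT3c hG hF hT g h x y hxy h1 h2 h3 h4 }

theorem st_two (qT2b : S.qT2b) (qT3a : S.qT3a) (qT3b : S.qT3b) (qT3c : S.qT3c)
    (qd_geo : S.qd_geo) (qd_isom : S.qd_isom) (qd_hyp : S.qd_hyp) (cone_isom : S.cone_isom) :
    S.st_two := by
  intro G X _ _ d P F hG hF
  have hT : P.TT2 ≤ P.TT2 := le_rfl
  have hci : Isom G (cd F P.D d P.s) :=
    cone_isom hG.geo hG.isom (E1_one_le_s P).1 (E1_one_le_s P).2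
  refine good_q G (Cone F P.D) (cd F P.D d P.s) (Ker F) hci P.n P.δ P.Λ P.A P.A0 P.M ?_
  exact
    { geo := qd_geo hG hF hT
      isom := qd_isom hG hF hT
      hyp := qd_hyp hG hF hT
      T2 := fun g => qT2b hG hF hT rfl g
      T3a := fun g x y hg h h1 h2 => qT3a hG hF hT g x y hg h h1 h2
      T3b := fun g x hg h1 => qT3b hG hF hT g x hg h1
      T3c := fun g h x y hxy h1 h2 h3 h4 => qT3c hG hF hT g h x y hxy h1 h2 h3 h4 }

theorem two_steps (st_one : S.st_one) (fam1 : S.fam1) (fam2_ok : S.fam2_ok)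
    (desc_two : S.desc_two) (cone_isom : S.cone_isom) : S.two_steps := by
  intro G X _ _ d P hG hS
  have hF : Fam1 P d (cycFam P hG.isom) := fam1 P hG
  have hci : Isom G (cd (cycFam P hG.isom) P.D d P.s) :=
    cone_isom hG.geo hG.isom (E1_one_le_s P).1 (E1_one_le_s P).2
  refine ⟨cycFam P hG.isom, hF.ok, hF.hsh, fam2 P d (cycFam P hG.isom) hG.isom hci,
    fam2_ok hG hF hci, ?_⟩
  exact desc_two hG hF hci (st_one hG hF.ok hF.hsh) hS

end Mon
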