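import Pool.Agent.Work.MP_6f5fa7_al.Mon.StFam
import Pool.Agent.Work.MP_6f5fa7_al.Mon.StCyc

/-! Mon, item F1: stabilisers and `n`-th powers in the type 1 family. -/
set_option autoImplicit false

namespace Mon

theorem fam_stab (hnorm : S.cyc_norm) : S.fam_stab := by
  intro G X _ _ d P hG c g h
  obtain ⟨u, hu, hS⟩ := c.2
  have hval : c.1.map (MulAut.conj g).toMonoidHom = c.1 := congrArg Subtype.val h
  have hu1 : u ∈ c.1 := by
    rw [hS]
    exact Subgroup.mem_centralizer_singleton_iff.mpr rfl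
  have hu2 : g * u * g⁻¹ ∈ c.1 := by
    rw [← hval]
    exact ⟨u, hu1, rfl⟩
  rw [hS] at hu2 ⊢
  exact Subgroup.mem_centralizer_singleton_iff.mpr
    (hnorm P hG hu (Subgroup.mem_centralizer_singleton_iff.mp hu2))

theorem fam_R (habel : S.cyc_abelian) : S.fam_R := by
  intro G X _ _ d P hG c r hr
  obtain ⟨u, hu, hS⟩ := c.2
  have hcomm : ∀ g ∈ c.1, ∀ g' ∈ c.1, g * g' = g' * g := by
    intro g hg g' hg'
    rw [hS] at hg hg'
    exact habel P hG hu (Subgroup.mem_centralizer_singleton_iff.mp hg)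
      (Subgroup.mem_centralizer_singleton_iff.mp hg')
  have hr' : r ∈ Subgroup.closure {r | ∃ g ∈ c.1, r = g ^ P.n} := hr
  induction hr' using Subgroup.closure_induction with
  | mem x hx => exact hx
  | one => exact ⟨1, c.1.one_mem, (one_pow _).symm⟩
  | mul x y hx hy ihx ihy =>
    obtain ⟨g, hg, rfl⟩ := ihx hx
    obtain ⟨g', hg', rfl⟩ := ihy hy
    exact ⟨g * g', c.1.mul_mem hg hg', ((show Commute g g' from hcomm g hg g' hg').mul_pow _).symm⟩
  | inv x hx ih =>
    obtain ⟨g, hg, rfl⟩ := ih hx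
    exact ⟨g⁻¹, c.1.inv_mem hg, by rw [inv_pow]⟩

theorem fam_inter (habel : S.cyc_abelian) (hcent : S.cyc_cent) : S.fam_inter := by
  intro G X _ _ d P hG h h' hh hh' hne g h1 h2
  by_contra hg
  have g1 := Subgroup.mem_centralizer_singleton_iff.mp h1
  have g2 := Subgroup.mem_centralizer_singleton_iff.mp h2
  apply hne
  ext u
  rw [Subgroup.mem_centralizer_singleton_iff, Subgroup.mem_centralizer_singleton_iff]
  constructor
  · intro hu
    exact hcent P hG hh' g2 hg (habel P hG hh hu g1)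
  · intro hu
    exact hcent P hG hh g1 hg (habel P hG hh' hu g2)

end Mon
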