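import Pool.Agent.Work.MP_6f5fa7_al.Mon.StFam
import Pool.Agent.Work.MP_6f5fa7_al.Mon.StTool
import Pool.Agent.Work.MP_6f5fa7_al.Mon.StCyc

/-! Mon, item F2: Y is near the orbit; displacement; quasiconvexity; overlaps. -/
set_option autoImplicit false

namespace Mon

private theorem F2.ex_ge (ρ : ℕ) : ρ ≤ Ex ρ := by
  unfold Ex
  exact Nat.le_mul_of_pos_right ρ (Nat.pos_of_ne_zero (by positivity))

private theorem F2.A0_big (P : Par) : 1000000000 * P.Λ ≤ P.A0 := by
  have h1 := F2.ex_ge (1000 * P.Λ)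
  have h2 := P.hA0
  omega

private theorem F2.move_zpow {G X : Type} [Group G] [MulAction G X] {d : X → X → ℕ}
    (hi : Isom G d) {g h : G} (hgh : g * h = h * g) (x : X) (j : ℤ) :
    d (h ^ j • x) (g • h ^ j • x) = d x (g • x) := by
  have h1 : g • h ^ j • x = h ^ j • g • x := by
    have hc : Commute g (h ^ j) := Commute.zpow_right hgh j
    rw [smul_smul, smul_smul, hc.eq]
  rw [h1, hi]

private theorem F2.thick_mono {G X : Type} [Group G] [MulAction G X] {d : X → X → ℕ} {g : G}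
    {x : X} {κ κ' : ℕ} (h : Thick d g x κ) (hk : κ ≤ κ') : Thick d g x κ' := by
  intro i j
  have := h i j
  omega

theorem fam_near (hproj : S.btw_proj) (hdich : S.dichotomy) (hax : S.ax_near)
    (htf : S.cyc_tf) (hunb : S.t2_unbdd) : S.fam_near := by
  intro G X _ _ d P hG h x0 hh hx y hy
  obtain ⟨g, hgS, hg1, hgy⟩ := hy
  have hgh : g * h = h * g := Subgroup.mem_centralizer_singleton_iff.mp hgS
  have hsh : P.Short d h := ⟨hh, x0, hx⟩
  have hgn : g ^ P.n ≠ 1 := htf P hG hsh hgh hg1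
  have hgeo := hG.geo
  have hiso := hG.isom
  have hhyp := hG.hyp
  have e1 := P.h1
  have e2 := P.hδ
  have e3 := P.hΛs
  have e4 := P.hΛ
  have e5 := F2.A0_big P
  have hTg : Thick d g y P.A0 := hG.T3b g y (by simpa using hgn) (by unfold Mv at *; omega)
  have hTh : Thick d h x0 P.A0 := hG.T3b h x0 (by simpa using hh) (by unfold Mv at *; omega)
  obtain ⟨J, hJ⟩ := hunb P hG hgn y (5 * d y (h • y) + 40 * P.δ + 2 * P.A0 + P.δ)
  -- the points
  have hinv : ∀ u v : X, d ((g ^ J)⁻¹ • u) v = d u (g ^ J • v) := by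
    intro u v
    rw [← hiso (g ^ J) ((g ^ J)⁻¹ • u) v, smul_smul, mul_inv_cancel, one_smul]
  have hb : Btw d ((g ^ J)⁻¹ • y) y (g ^ J • y) P.A0 := by
    have h2 := hTg J J
    unfold Btw
    rw [hinv, hinv, smul_smul, ← pow_add]
    exact h2
  obtain ⟨m, hm, hym⟩ := hproj hgeo hhyp hb
  have hmv1 : Mv d h ((g ^ J)⁻¹ • y) (d y (h • y)) := by
    have hc : h * g = g * h := hgh.symm
    have h3 := F2.move_zpow hiso hc y (-(J : ℤ))
    rw [zpow_neg, zpow_natCast] at h3
    exact h3.le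
  have hmv2 : Mv d h (g ^ J • y) (d y (h • y)) := by
    have hc : h * g = g * h := hgh.symm
    have h3 := F2.move_zpow hiso hc y (J : ℤ)
    rw [zpow_natCast] at h3
    exact h3.le
  have hd1 : d ((g ^ J)⁻¹ • y) y = d y (g ^ J • y) := hinv y y
  have t1 := hgeo.tri ((g ^ J)⁻¹ • y) m y
  have t2 := hgeo.tri y m (g ^ J • y)
  have s1 := hgeo.symm m y
  have hdc := hdich hgeo hiso hhyp (by omega) h _ _ m _ hmv1 hmv2 hm (by omega) (by omega)
  have hThm : Thick d h m P.A0 := by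
    rcases hdc with hd | ⟨hd, -⟩
    · exact hG.T3b h m (by simpa using hh) (by unfold Mv at *; omega)
    · exact F2.thick_mono hd (by omega)
  obtain ⟨j, hj⟩ := hax hgeo hiso hhyp h x0 m P.A0 P.A0 P.Λs (fun B => hunb P hG hh x0 B)
    hThm hTh hx
  refine ⟨j, ?_⟩
  have t3 := hgeo.tri y m (h ^ j • x0)
  omega

theorem fam_disp (hnear : S.fam_near) : S.fam_disp := by
  intro G X _ _ d P hG h hh g hg y y' hy hy'
  obtain ⟨hn, x0, hx0⟩ := hh
  have hgh : g * h = h * g := Subgroup.mem_centralizer_singleton_iff.mp hg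
  obtain ⟨i, hi⟩ := hnear P hG h x0 hn hx0 y hy
  obtain ⟨j, hj⟩ := hnear P hG h x0 hn hx0 y' hy'
  have hgeo := hG.geo
  have hiso := hG.isom
  have e6 := P.hD
  have e7 := P.hA
  have m1 := F2.move_zpow hiso hgh x0 i
  have m2 := F2.move_zpow hiso hgh x0 j
  have t1 := hgeo.tri y (h ^ i • x0) (g • y)
  have t2 := hgeo.tri (h ^ i • x0) (g • h ^ i • x0) (g • y)
  have i1 := hiso g (h ^ i • x0) y
  have s1 := hgeo.symm (h ^ i • x0) y
  have t3 := hgeo.tri (h ^ j • x0) y' (g • h ^ j • x0)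
  have t4 := hgeo.tri y' (g • y') (g • h ^ j • x0)
  have i2 := hiso g y' (h ^ j • x0)
  have s2 := hgeo.symm (h ^ j • x0) y'
  omega

private theorem F2.orbit_mem {G X : Type} [Group G] [MulAction G X] {d : X → X → ℕ} (P : Par)
    (hi : Isom G d) {h : G} (hn : h ^ P.n ≠ 1) {x0 : X} (hx : Mv d h x0 P.Λs) (j : ℤ) :
    h ^ j • x0 ∈ P.Yset d (Subgroup.centralizer {h}) := by
  refine ⟨h, Subgroup.mem_centralizer_singleton_iff.mpr rfl, fun h0 => hn (by rw [h0, one_pow]), ?_⟩
  unfold Mv at *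
  rw [F2.move_zpow hi rfl]
  exact hx

/-- points between two orbit points are near the orbit -/
private theorem F2.between (hclose : S.btw_close) {G X : Type} [Group G] [MulAction G X]
    {d : X → X → ℕ} (P : Par) (hG : P.St G d P.M) {h : G} (hn : h ^ P.n ≠ 1) {x0 : X}
    (hx : Mv d h x0 P.Λs) (i j : ℤ) (hij : i ≤ j) (z : X)
    (hz : Btw d (h ^ i • x0) z (h ^ j • x0) (2 * P.δ)) :
    ∃ m : ℤ, d z (h ^ m • x0) ≤ P.A := by
  have hgeo := hG.geo
  have hiso := hG.isom
  have hhyp := hG.hyp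
  have e1 := P.h1
  have e2 := P.hδ
  have e3 := P.hΛs
  have e4 := P.hΛ
  have e5 := F2.A0_big P
  have e6 := P.hD
  have e7 := P.hA
  have hTh : Thick d h x0 P.A0 := hG.T3b h x0 (by simpa using hn) (by unfold Mv at *; omega)
  obtain ⟨N, hN⟩ := Int.eq_ofNat_of_zero_le (sub_nonneg.mpr hij)
  set z' : X := (h ^ i)⁻¹ • z with hz'
  have hzz : z = h ^ i • z' := by rw [hz', smul_smul, mul_inv_cancel, one_smul]
  have hj : h ^ j • x0 = h ^ i • (h ^ N • x0) := by
    rw [smul_smul]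
    congr 1
    have : j = i + (N : ℤ) := by omega
    rw [this, zpow_add, zpow_natCast]
  have hz1 : d x0 z' + d z' (h ^ N • x0) ≤ d x0 (h ^ N • x0) + 2 * P.δ := by
    unfold Btw at hz
    rw [hj, hzz, hiso, hiso, hiso] at hz
    exact hz
  -- the function f m = d x0 (h ^ m x0)
  have hstep : ∀ m : ℕ, d x0 (h ^ (m + 1) • x0) ≤ d x0 (h ^ m • x0) + P.Λs := by
    intro m
    have t := hgeo.tri x0 (h ^ m • x0) (h ^ (m + 1) • x0)
    have hh : d (h ^ m • x0) (h ^ (m + 1) • x0) = d x0 (h • x0) := by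
      rw [pow_succ, mul_smul, hiso]
    unfold Mv at hx
    omega
  have h0 : d x0 (h ^ 0 • x0) = 0 := by rw [pow_zero, one_smul]; exact hgeo.self x0
  have hex : ∃ m : ℕ, m ≤ N ∧ d x0 z' ≤ d x0 (h ^ m • x0) + P.Λs ∧
      d x0 (h ^ m • x0) ≤ d x0 z' + P.Λs := by
    by_cases hc : d x0 z' ≤ d x0 (h ^ N • x0)
    · classical
      have hP : ∃ m : ℕ, d x0 z' ≤ d x0 (h ^ m • x0) := ⟨N, hc⟩
      have hs := Nat.find_spec hP
      have hmin := fun k (hk : k < Nat.find hP) => Nat.find_min hP hk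
      have hle : Nat.find hP ≤ N := Nat.find_min' hP hc
      refine ⟨Nat.find hP, hle, by omega, ?_⟩
      rcases Nat.eq_zero_or_pos (Nat.find hP) with hk | hk
      · rw [hk, h0]; omega
      · have h1 := hmin (Nat.find hP - 1) (by omega)
        have h2 := hstep (Nat.find hP - 1)
        have h3 : Nat.find hP - 1 + 1 = Nat.find hP := by omega
        rw [h3] at h2
        omega
    · exact ⟨N, le_rfl, by omega, by omega⟩
  obtain ⟨m, hmN, hm1, hm2⟩ := hex
  have hbm : Btw d x0 (h ^ m • x0) (h ^ N • x0) P.A0 := by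
    have h1 := hTh m (N - m)
    have h2 : m + (N - m) = N := by omega
    rw [h2] at h1
    have h3 : d (h ^ m • x0) (h ^ N • x0) = d x0 (h ^ (N - m) • x0) := by
      conv_lhs => rw [← h2, pow_add, mul_smul, hiso]
    unfold Btw
    rw [h3]
    exact h1
  have hbz : Btw d x0 z' (h ^ N • x0) P.A0 := by
    unfold Btw; omega
  have hcl := hclose hgeo hhyp hbz hbm hm1 hm2
  refine ⟨i + (m : ℤ), ?_⟩
  have he : h ^ (i + (m : ℤ)) • x0 = h ^ i • (h ^ m • x0) := by
    rw [zpow_add, zpow_natCast, mul_smul]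
  rw [he, hzz, hiso]
  omega

theorem fam_qc (hnear : S.fam_near) (hquad : S.btw_quad) (hclose : S.btw_close) : S.fam_qc := by
  intro G X _ _ d P hG h hh a b z ha hb hz
  obtain ⟨hn, x0, hx0⟩ := hh
  obtain ⟨i, hi⟩ := hnear P hG h x0 hn hx0 a ha
  obtain ⟨j, hj⟩ := hnear P hG h x0 hn hx0 b hb
  have hgeo := hG.geo
  have hiso := hG.isom
  have hhyp := hG.hyp
  have e1 := P.h1
  have e2 := P.hδ
  have e3 := P.hΛs
  have e4 := P.hΛ
  have e5 := F2.A0_big P
  have e6 := P.hD
  have e7 := P.hA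
  by_cases h1 : d z a ≤ 10 * P.A0 + 2 * P.δ
  · exact ⟨a, ha, by omega⟩
  by_cases h2 : d z b ≤ 10 * P.A0 + 2 * P.δ
  · exact ⟨b, hb, by omega⟩
  have s1 := hgeo.symm a (h ^ i • x0)
  have s2 := hgeo.symm b (h ^ j • x0)
  have hq : Btw d (h ^ i • x0) z (h ^ j • x0) (0 + 2 * P.δ) :=
    hquad hgeo hhyp (R := 10 * P.A0) hz (by omega) (by omega) (by omega) (by omega)
  rw [zero_add] at hq
  have hfin : ∃ m : ℤ, d z (h ^ m • x0) ≤ P.A := by
    rcases le_total i j with hij | hij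
    · exact F2.between hclose P hG hn hx0 i j hij z hq
    · refine F2.between hclose P hG hn hx0 j i hij z ?_
      unfold Btw at hq ⊢
      have s3 := hgeo.symm (h ^ i • x0) z
      have s4 := hgeo.symm z (h ^ j • x0)
      have s5 := hgeo.symm (h ^ i • x0) (h ^ j • x0)
      omega
  obtain ⟨m, hm⟩ := hfin
  exact ⟨_, F2.orbit_mem P hiso hn hx0 m, hm⟩

/-- a short element moves the points of its `Y` by at most `20 A0 + Λs` -/
private theorem F2.short_move (hnear : S.fam_near) {G X : Type} [Group G] [MulAction G X]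
    {d : X → X → ℕ} (P : Par) (hG : P.St G d P.M) {h : G} (hh : P.Short d h) {a : X}
    (ha : a ∈ P.Yset d (Subgroup.centralizer {h})) : d a (h • a) ≤ 20 * P.A0 + P.Λs := by
  obtain ⟨hn, x0, hx0⟩ := hh
  obtain ⟨i, hi⟩ := hnear P hG h x0 hn hx0 a ha
  have hgeo := hG.geo
  have hiso := hG.isom
  have m1 := F2.move_zpow hiso (g := h) (h := h) rfl x0 i
  have t1 := hgeo.tri a (h ^ i • x0) (h • a)
  have t2 := hgeo.tri (h ^ i • x0) (h • h ^ i • x0) (h • a)
  have i1 := hiso h (h ^ i • x0) a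
  have s1 := hgeo.symm (h ^ i • x0) a
  unfold Mv at hx0
  omega

theorem fam_ov (hnear : S.fam_near) (hfar : S.far_comm) (hcent : S.cyc_cent) : S.fam_ov := by
  intro G X _ _ d P hG h h' hh hh' hne a b a' b' ha hb ha' hb' h1 h2
  have hgeo := hG.geo
  have hiso := hG.isom
  have e1 := P.h1
  have e2 := P.hδ
  have e3 := P.hΛs
  have e4 := P.hΛ
  have e5 := F2.A0_big P
  have e6 := P.hD
  have e7 := P.hA
  have e8 := P.hs
  by_contra hcon
  have hab : 20 * (201 * P.A) + 10 * P.A ≤ d a b := by omega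
  have ma := F2.short_move hnear P hG hh ha
  have mb := F2.short_move hnear P hG hh hb
  have ma' := F2.short_move hnear P hG hh' ha'
  have mb' := F2.short_move hnear P hG hh' hb'
  have key : ∀ u v : X, d u v ≤ 100 * P.A → d v (h' • v) ≤ 20 * P.A0 + P.Λs →
      d u (h' • u) ≤ 201 * P.A := by
    intro u v huv hv
    have t1 := hgeo.tri u v (h' • u)
    have t2 := hgeo.tri v (h' • v) (h' • u)
    have i1 := hiso h' v u
    have s1 := hgeo.symm u v
    omega
  have hcomm : h * h' = h' * h := hfar P hG (R := 201 * P.A) hab (by unfold Mv; omega)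
    (by unfold Mv; omega) (key a a' h1 ma') (key b b' h2 mb')
  apply hne
  have h'1 : h' ≠ 1 := fun h0 => hh'.1 (by rw [h0, one_pow])
  have h11 : h ≠ 1 := fun h0 => hh.1 (by rw [h0, one_pow])
  apply le_antisymm
  · intro u hu
    have hu' : u * h = h * u := Subgroup.mem_centralizer_singleton_iff.mp hu
    exact Subgroup.mem_centralizer_singleton_iff.mpr (hcent P hG hh' hcomm h11 hu')
  · intro u hu
    have hu' : u * h' = h' * u := Subgroup.mem_centralizer_singleton_iff.mp hu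
    exact Subgroup.mem_centralizer_singleton_iff.mpr (hcent P hG hh hcomm.symm h'1 hu')

end Mon
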