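import Pool.Agent.Work.MP_6f5fa7_al.Mon.StFam
import Pool.Agent.Work.MP_6f5fa7_al.Mon.StCyc

/-! Mon: item F3 (M12: the type 1 family has all required properties). -/
set_option autoImplicit false

namespace Mon

/-- item F3: the parameters needed for the displacement of kernel elements -/
theorem F3_par (P : Par) {e : ℕ} (h : P.n * (16 * P.δ) ≤ P.M * e) : P.TT1 ≤ e := by
  have h1 := P.h1
  have h2 := P.hδ
  have hδ : 1 ≤ P.δ := by omega
  have hM : 1 ≤ P.M := by
    have := P.hM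
    omega
  have h3 := P.hn
  have h4 : P.M * P.TT1 ≤ P.M * e := by
    calc P.M * P.TT1 ≤ 1000 * P.M * P.TT1 := by nlinarith [Nat.zero_le (P.M * P.TT1)]
      _ ≤ P.n := h3
      _ ≤ P.n * (16 * P.δ) := Nat.le_mul_of_pos_right _ (by omega)
      _ ≤ P.M * e := h
  exact Nat.le_of_mul_le_mul_left h4 (by omega)

theorem fam1 (hst : S.fam_stab) (hR : S.fam_R) (hdp : S.fam_disp) (hqc : S.fam_qc)
    (hov : S.fam_ov) (hin : S.fam_inter) (hnr : S.near_Y) (htf : S.cyc_tf) (hgr : S.t2_growth')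
    (hab : S.cyc_abelian) : S.fam1 := by
  intro G X _ _ d P hG
  have hmem : ∀ (h g : G), g ∈ Subgroup.centralizer {h} → g * h = h * g :=
    fun h g hg => Subgroup.mem_centralizer_singleton_iff.mp hg
  have hAB : ∀ (c : (cycFam P hG.isom).C) (g h : G), g • c = c → h • c = c → g * h = h * g := by
    intro c g h hg hh
    have h1 := hst P hG c g hg
    have h2 := hst P hG c h hh
    obtain ⟨S, k, hk, rfl⟩ := c
    exact hab P hG hk (hmem _ _ h1) (hmem _ _ h2)
  have hTF : ∀ (c : (cycFam P hG.isom).C) (g : G), g ∈ c.1 → g ≠ 1 → g ^ P.n ≠ 1 := by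
    intro c g hg hg1
    obtain ⟨S, k, hk, rfl⟩ := c
    exact htf P hG hk (hmem _ _ hg) hg1
  refine ⟨⟨?_, ?_, ?_, ?_, ?_, ?_, ?_⟩, hAB, ?_, ?_, ?_⟩
  · intro c a b z ha hb hz
    obtain ⟨S, k, hk, rfl⟩ := c
    exact hqc P hG k hk a b z ha hb hz
  · intro c c' a b a' b' hne ha hb ha' hb' h1 h2
    obtain ⟨S, k, hk, rfl⟩ := c
    obtain ⟨S', k', hk', rfl⟩ := c'
    exact hov P hG k k' hk hk' (fun h => hne (Subtype.ext h)) a b a' b' ha hb ha' hb' h1 h2
  · intro c r y hr hr1 _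
    obtain ⟨g, hg, rfl⟩ := hR P hG c r hr
    have hg1 : g ≠ 1 := fun h => hr1 (by rw [h, one_pow])
    exact F3_par P (hgr P hG (hTF c g hg hg1) y P.n)
  · intro c g x ρ hg hgR hx
    have hgS := hst P hG c g hg
    have hg1 : g ≠ 1 := fun h => hgR (h ▸ Subgroup.one_mem _)
    obtain ⟨S, k, hk, rfl⟩ := c
    exact hnr P hG hk (hmem _ _ hgS) hg1 hx
  · intro c g hg
    exact Subgroup.subset_closure ⟨g, hst P hG c g hg, rfl⟩
  · intro c g h hg hh
    have h1 : g * h * g⁻¹ * h⁻¹ = 1 := by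
      rw [hAB c g h hg hh]
      group
    rw [h1]
    exact Subgroup.one_mem _
  · intro c c' g hne hg hg'
    have h1 := hst P hG c g hg
    have h2 := hst P hG c' g hg'
    have h3 : g = 1 := by
      obtain ⟨S, k, hk, rfl⟩ := c
      obtain ⟨S', k', hk', rfl⟩ := c'
      exact hin P hG k k' hk hk' (fun h => hne (Subtype.ext h)) g h1 h2
    rw [h3]
    exact Subgroup.one_mem _
  · intro c g x f hg hg1
    exact hgr P hG (hTF c g (hst P hG c g hg) hg1) x f
  · intro c g y y' hg hy hy'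
    have h1 := hst P hG c g hg
    obtain ⟨S, k, hk, rfl⟩ := c
    exact hdp P hG k hk g h1 y y' hy hy'
  · intro h hh
    refine ⟨⟨Subgroup.centralizer {h}, h, hh, rfl⟩, ?_⟩
    apply Subtype.ext
    show (Subgroup.centralizer {h}).map (MulAut.conj h).toMonoidHom = Subgroup.centralizer {h}
    rw [map_centralizer, mul_inv_cancel_right]

end Mon
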