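import Pool.Agent.Work.MP_6f5fa7_al.Mon.StHyp

/-! Mon, item H1: projections. -/
set_option autoImplicit false

namespace Mon

private theorem H1_small (P : Par) : 1 ≤ P.δ ∧ 1000 * P.δ ≤ P.A := by
  have h1 := P.h1
  have h2 := P.hδ
  have h3 := P.hΛs
  have h4 := P.hΛ
  have h5 := P.hA0
  have h6 := P.hD
  have h7 := P.hA
  have h8 : 1000 * P.Λ ≤ Ex (1000 * P.Λ) := Nat.le_mul_of_pos_right _ (by positivity)
  constructor <;> omega

private theorem H1_self {G X : Type} [Group G] [MulAction G X] {d : X → X → ℕ} {F : Fam G X}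
    (c : F.C) (x : X) (hx : x ∈ F.Y c) : (pr F d c x).1 = x := by
  unfold pr
  rw [dif_pos hx]

open Classical in
private theorem H1_min {G X : Type} [Group G] [MulAction G X] {d : X → X → ℕ} {F : Fam G X}
    (hd : Geo d) (c : F.C) (x y : X) (hy : y ∈ F.Y c) : d x (pr F d c x).1 ≤ d x y := by
  by_cases hx : x ∈ F.Y c
  · rw [H1_self c x hx, hd.self]; exact Nat.zero_le _
  · have hex : ∃ m, ∃ y : F.Y c, d x y.1 = m := ⟨_, ⟨_, (F.Y_ne c).choose_spec⟩, rfl⟩
    have h1 : d x (pr F d c x).1 = Nat.find hex := by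
      unfold pr
      rw [dif_neg hx]
      exact (Nat.find_spec hex).choose_spec
    rw [h1]
    exact Nat.find_min' hex ⟨⟨y, hy⟩, rfl⟩

private theorem H1_btw {G X : Type} [Group G] [MulAction G X] {d : X → X → ℕ} {P : Par}
    {F : Fam G X} {T M : ℕ} (hG : P.St G d M) (hF : FamOK P d F T) (c : F.C) (x y : X)
    (hy : y ∈ F.Y c) : d x (pr F d c x).1 + d (pr F d c x).1 y ≤ d x y + 3 * P.A := by
  obtain ⟨hs1, hs2⟩ := H1_small P
  have hd := hG.geo
  set p := (pr F d c x).1 with hp
  have hpY : p ∈ F.Y c := (pr F d c x).2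
  have e1 := hd.tri x y p
  have e2 := hd.symm x p
  have e3 := hd.symm y p
  have e4 := hd.tri p x y
  obtain ⟨m, hm1, hm2⟩ := hd.geo p y ((d p x + d p y - d x y) / 2) (by omega)
  have h4 := hG.hyp x m p y
  have e5 := hd.symm m p
  obtain ⟨y', hy', hy2⟩ := hF.qc c p y m hpY hy (by unfold Btw; omega)
  have h5 := H1_min hd c x y' hy'
  rw [← hp] at h5
  have h6 := hd.tri x m y'
  rcases le_total (d x p + d m y) (d x y + d m p) with h7 | h7
  · rw [max_eq_right h7] at h4
    omega
  · rw [max_eq_left h7] at h4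
    omega

private theorem H1_btw2 {G X : Type} [Group G] [MulAction G X] {d : X → X → ℕ} {P : Par}
    {F : Fam G X} {T M : ℕ} (hG : P.St G d M) (hF : FamOK P d F T) (c : F.C) (x y : X)
    (h : 4 * P.A ≤ d (pr F d c x).1 (pr F d c y).1) :
    d x (pr F d c x).1 + d (pr F d c x).1 (pr F d c y).1 + d (pr F d c y).1 y ≤
      d x y + 7 * P.A := by
  obtain ⟨hs1, hs2⟩ := H1_small P
  have hd := hG.geo
  have h1 := H1_btw hG hF c x _ (pr F d c y).2
  have h2 := H1_btw hG hF c y _ (pr F d c x).2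
  set p := (pr F d c x).1
  set q := (pr F d c y).1
  have e1 := hd.symm q p
  have e2 := hd.symm q y
  have e3 := hd.symm q x
  have e4 := hd.symm y x
  have e5 := hd.symm p y
  have h3 := hG.hyp x q y p
  rcases le_total (d x y + d q p) (d x p + d q y) with h7 | h7
  · rw [max_eq_right h7] at h3
    omega
  · rw [max_eq_left h7] at h3
    omega

theorem pr_min : S.pr_min := by
  intro G X _ _ d P F T M hG _ c x y hy
  exact H1_min hG.geo c x y hy

theorem pr_self : S.pr_self := by
  intro G X _ _ d P F T M _ _ c x hx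
  exact H1_self c x hx

theorem pr_btw : S.pr_btw := by
  intro G X _ _ d P F T M hG hF c x y hy
  exact H1_btw hG hF c x y hy

theorem pr_btw2 : S.pr_btw2 := by
  intro G X _ _ d P F T M hG hF c x y h
  exact H1_btw2 hG hF c x y h

theorem pr_lip : S.pr_lip := by
  intro G X _ _ d P F T M hG hF c x y
  by_cases h : 4 * P.A ≤ d (pr F d c x).1 (pr F d c y).1
  · have h1 := H1_btw2 hG hF c x y h
    omega
  · omega

theorem pr_mid : S.pr_mid := by
  intro G X _ _ d P F T M hG hF c x y w w' κ ρ h hw h1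
  have hd := hG.geo
  have h2 := H1_btw hG hF c x w' hw
  have h3 := H1_btw hG hF c y w' hw
  unfold Btw at h ⊢
  set p := (pr F d c x).1
  set q := (pr F d c y).1
  have e1 := hd.tri x w w'
  have e2 := hd.tri w' w y
  have e3 := hd.symm w' w
  have e4 := hd.symm w' y
  have e5 := hd.symm w' q
  have e6 := hd.symm y q
  have e7 := hd.tri x p y
  have e8 := hd.tri p q y
  omega

end Mon
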