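import Pool.Agent.Work.MP_6f5fa7_al.Mon.StHyp
import Pool.Agent.Work.MP_6f5fa7_al.Mon.StTool

/-! Mon: item H2 (M5: projections to other members of the family, self-improvement). -/
set_option autoImplicit false

namespace Mon

/-- item H2: inequalities between the parameters -/
theorem H2_par (P : Par) : 1000 * P.δ ≤ P.A ∧ 1 ≤ P.A ∧ 1000000 * P.A ≤ P.s := by
  have h1 := P.h1
  have h2 := P.hδ
  have h3 := P.hΛs
  have h4 := P.hΛ
  have h5 := P.hA0
  have h6 := P.hD
  have h7 := P.hA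
  have h8 : 1000 * P.Λ ≤ Ex (1000 * P.Λ) := Nat.le_mul_of_pos_right _ (by positivity)
  refine ⟨?_, ?_, P.hs⟩ <;> omega

theorem pr_other (hp : S.btw_proj) (hb : S.pr_btw2) : S.pr_other := by
  intro G X _ _ d P F T M hG hF c c' h x y hx hy
  obtain ⟨hδA, hA1, hs⟩ := H2_par P
  by_contra hcon
  push Not at hcon
  have hg := hG.geo
  have h1 := hb hG hF c' x y (by omega)
  have t1 := hg.tri (pr F d c' x).1 (pr F d c' y).1 y
  have t2 := hg.tri x (pr F d c' x).1 (pr F d c' y).1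
  obtain ⟨m1, hm1, hd1⟩ := hp hg hG.hyp (x := x) (y := y) (w := (pr F d c' x).1)
    (κ := 7 * P.A) (by unfold Btw; omega)
  obtain ⟨m2, hm2, hd2⟩ := hp hg hG.hyp (x := x) (y := y) (w := (pr F d c' y).1)
    (κ := 7 * P.A) (by unfold Btw; omega)
  obtain ⟨y1, hy1, he1⟩ := hF.qc c x y m1 hx hy hm1
  obtain ⟨y2, hy2, he2⟩ := hF.qc c x y m2 hx hy hm2
  have t3 := hg.tri (pr F d c' x).1 m1 y1
  have t4 := hg.tri (pr F d c' y).1 m2 y2
  have s1 := hg.symm y1 (pr F d c' x).1
  have s2 := hg.symm y2 (pr F d c' y).1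
  have h2 := hF.ov c c' y1 y2 (pr F d c' x).1 (pr F d c' y).1 h hy1 hy2 (pr F d c' x).2
    (pr F d c' y).2 (by omega) (by omega)
  have t5 := hg.tri (pr F d c' x).1 y1 (pr F d c' y).1
  have t6 := hg.tri y1 y2 (pr F d c' y).1
  omega

theorem pr_improve (hsp : S.btw_split) (hp : S.btw_proj) (hmin : S.pr_min) : S.pr_improve := by
  intro G X _ _ d P F T M hG hF c x y w w' h hw h1 h2 h3
  obtain ⟨hδA, hA1, hs⟩ := H2_par P
  have hg := hG.geo
  have m1 := hmin hG hF c x w' hw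
  have m2 := hmin hG hF c y w' hw
  have t1 := hg.tri x w w'
  have t2 := hg.tri y w w'
  have s2 := hg.symm y w
  have s3 := hg.symm y (pr F d c y).1
  have s4 := hg.symm w (pr F d c y).1
  have h4 : Btw d (pr F d c x).1 w y (10 * P.A + P.δ) := by
    rcases hsp hg hG.hyp h (pr F d c x).1 with h5 | h5
    · unfold Btw at h5
      omega
    · exact h5
  have h5 : Btw d (pr F d c x).1 w (pr F d c y).1 (10 * P.A + P.δ + P.δ) := by
    rcases hsp hg hG.hyp h4 (pr F d c y).1 with h6 | h6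
    · exact h6
    · unfold Btw at h6
      omega
  obtain ⟨m, hm, hd⟩ := hp hg hG.hyp h5
  obtain ⟨y', hy', he⟩ := hF.qc c (pr F d c x).1 (pr F d c y).1 m (pr F d c x).2 (pr F d c y).2 hm
  have t3 := hg.tri w m y'
  exact ⟨y', hy', by omega⟩

end Mon
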