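import Pool.Agent.Work.MP_6f5fa7_al.Mon.StTool
import Pool.Agent.Work.MP_6f5fa7_al.Mon.StCone
import Pool.Agent.Work.MP_6f5fa7_al.Mon.StHyp

/-! Mon: item H3 (`LL_short`: the guessed sets of adjacent vertices are small). -/
set_option autoImplicit false

namespace Mon

private theorem H3_trans {V : Type} {r : V → V → Prop} (n m : ℕ) :
    ∀ a b c : V, Chain r n a b → Chain r m b c → Chain r (n + m) a c := by
  induction n with
  | zero =>
    intro a b c h1 h2
    have h1 : a = b := h1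
    rw [h1, Nat.zero_add]; exact h2
  | succ n ih =>
    intro a b c h1 h2
    obtain ⟨u, hu, h1⟩ := h1
    rw [show n + 1 + m = (n + m) + 1 by omega]
    exact ⟨u, hu, ih u b c h1 h2⟩

private theorem H3_one {V : Type} {r : V → V → Prop} {a b : V} (h : r a b) : Chain r 1 a b :=
  ⟨b, h, rfl⟩

private theorem H3_symm {V : Type} {r : V → V → Prop} (hs : ∀ v w, r v w → r w v) (n : ℕ) :
    ∀ a b : V, Chain r n a b → Chain r n b a := by
  induction n with
  | zero => intro a b h; exact (show a = b from h).symm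
  | succ n ih =>
    intro a b h
    obtain ⟨u, hu, h⟩ := h
    exact H3_trans n 1 b u a (ih u b h) (H3_one (hs a u hu))

section
variable {G X : Type} [Group G] [MulAction G X] {d : X → X → ℕ} {s D : ℕ} {F : Fam G X}

private theorem H3_cadj_symm (v w : Cone F D) (h : cadj F D d s v w) : cadj F D d s w v :=
  h.symm

private theorem H3_base (hg : Geo d) (hs : 1 ≤ s) (m : ℕ) :
    ∀ x x' : X, d x x' ≤ m → ∃ n, Chain (cadj F D d s) n (bs F D x) (bs F D x') := by
  induction m with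
  | zero =>
    intro x x' h
    exact ⟨1, H3_one (Or.inl (CAdj.hor0 x x' (by omega)))⟩
  | succ m ih =>
    intro x x' h
    by_cases h1 : d x x' ≤ s
    · exact ⟨1, H3_one (Or.inl (CAdj.hor0 x x' h1))⟩
    · obtain ⟨z, hz1, hz2⟩ := hg.geo x x' s (by omega)
      obtain ⟨n, hn⟩ := ih z x' (by omega)
      exact ⟨1 + n, H3_trans 1 n _ _ _ (H3_one (Or.inl (CAdj.hor0 x z (by omega)))) hn⟩

private theorem H3_vert (c : F.C) (y : X) (k : ℕ) :
    ∀ h : CVal F D (.cone c y k), ∃ n, Chain (cadj F D d s) n ⟨.cone c y k, h⟩ (bs F D y) := by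
  induction k with
  | zero => intro h; exact absurd h.2.1 (by omega)
  | succ k ih =>
    intro h
    by_cases hk : k = 0
    · subst hk
      exact ⟨1, H3_one (Or.inr (CAdj.up0 c y))⟩
    · obtain ⟨n, hn⟩ := ih ⟨h.1, by omega, by have := h.2.2; omega⟩
      exact ⟨1 + n, H3_trans 1 n _ _ _ (H3_one (Or.inr (CAdj.up c y k))) hn⟩

private theorem H3_tobase (hD : 1 ≤ D) (v : Cone F D) :
    ∃ (x : X) (n : ℕ), Chain (cadj F D d s) n v (bs F D x) := by
  obtain ⟨v, hv⟩ := v
  cases v with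
  | base x => exact ⟨x, 0, rfl⟩
  | cone c y k =>
    obtain ⟨n, hn⟩ := H3_vert (d := d) (s := s) c y k hv
    exact ⟨y, n, hn⟩
  | apex c =>
    obtain ⟨y, hy⟩ := F.Y_ne c
    have hv' : CVal F D (.cone c y D) := ⟨hy, hD, le_rfl⟩
    obtain ⟨n, hn⟩ := H3_vert (d := d) (s := s) c y D hv'
    exact ⟨y, 1 + n, H3_trans 1 n _ _ _ (H3_one (Or.inr (CAdj.top c y))) hn⟩

private theorem H3_conn (hg : Geo d) (hs : 1 ≤ s) (hD : 1 ≤ D) (v w : Cone F D) :
    ∃ n, Chain (cadj F D d s) n v w := by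
  obtain ⟨x, n, hn⟩ := H3_tobase (d := d) (s := s) hD v
  obtain ⟨x', n', hn'⟩ := H3_tobase (d := d) (s := s) hD w
  obtain ⟨m, hm⟩ := H3_base (F := F) (D := D) hg hs _ x x' le_rfl
  exact ⟨n + m + n', H3_trans _ _ _ _ _ (H3_trans _ _ _ _ _ hn hm)
    (H3_symm H3_cadj_symm _ _ _ hn')⟩

private theorem H3_adj (hg : Geo d) (hs : 1 ≤ s) (hD : 1 ≤ D) (v w : Cone F D)
    (h : cd F D d s v w ≤ 1) : v = w ∨ cadj F D d s v w := by
  have hne : {n | Chain (cadj F D d s) n v w}.Nonempty := H3_conn hg hs hD v w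
  have h1 := Nat.sInf_mem hne
  have h2 : sInf {n | Chain (cadj F D d s) n v w} ≤ 1 := h
  rcases (show sInf {n | Chain (cadj F D d s) n v w} = 0 ∨
    sInf {n | Chain (cadj F D d s) n v w} = 1 by omega) with h3 | h3
  · rw [h3] at h1
    exact Or.inl h1
  · rw [h3] at h1
    obtain ⟨u, hu, h4⟩ := h1
    have h4 : u = w := h4
    exact Or.inr (h4 ▸ hu)

private theorem H3_vt0 (c : F.C) (y : F.Y c) : vt F D c y 0 = bs F D y.1 := dif_pos rfl

private theorem H3_vtk (c : F.C) (y : X) (k : ℕ) (hv : CVal F D (.cone c y k)) :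
    vt F D c ⟨y, hv.1⟩ k = ⟨.cone c y k, hv⟩ := by
  have h1 : k ≠ 0 := by have := hv.2.1; omega
  exact (dif_neg h1).trans (dif_pos hv.2.2)

private theorem H3_vtD (c : F.C) (y : F.Y c) : vt F D c y (D + 1) = ap F D c :=
  (dif_neg (by omega)).trans (dif_neg (by omega))

/-- the two kinds of adjacent pairs -/
private theorem H3_kinds (hg : Geo d) (hs : 1 ≤ s) (hD : 1 ≤ D) (v w : Cone F D)
    (h : cd F D d s v w ≤ 1) :
    (∃ x x', v = bs F D x ∧ w = bs F D x' ∧ d x x' ≤ s) ∨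
    ∃ (c : F.C) (y y' : F.Y c) (k k' : ℕ), v = vt F D c y k ∧ w = vt F D c y' k' ∧
      k ≤ D + 1 ∧ k' ≤ D + 1 ∧ (1 ≤ k ∨ 1 ≤ k') ∧ k ≤ k' + 1 ∧ k' ≤ k + 1 ∧
      (k ≤ D → sh F D v = y.1) ∧ (k' ≤ D → sh F D w = y'.1) ∧
      (k ≤ D → k' ≤ D → d y.1 y'.1 ≤ s * 2 ^ k ∧ d y.1 y'.1 ≤ s * 2 ^ k') ∧
      sh F D v ∈ F.Y c ∧ sh F D w ∈ F.Y c := by
  have pos : ∀ k, 1 ≤ s * 2 ^ k := fun k =>
    Nat.mul_pos (by omega) (Nat.pow_pos (by omega))
  have vt0 : ∀ (c : F.C) (y : F.Y c), vt F D c y 0 = bs F D y.1 := H3_vt0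
  have vtk : ∀ (c : F.C) (y : X) (k : ℕ) (hv : CVal F D (.cone c y k)),
      vt F D c ⟨y, hv.1⟩ k = ⟨.cone c y k, hv⟩ := H3_vtk
  have vtD : ∀ (c : F.C) (y : F.Y c), vt F D c y (D + 1) = ap F D c := H3_vtD
  -- symmetric form
  have main : ∀ v w : Cone F D, CAdj F D d s v.1 w.1 →
      (∃ x x', v = bs F D x ∧ w = bs F D x' ∧ d x x' ≤ s) ∨
      ∃ (c : F.C) (y y' : F.Y c) (k k' : ℕ), v = vt F D c y k ∧ w = vt F D c y' k' ∧
        k ≤ D + 1 ∧ k' ≤ D + 1 ∧ (1 ≤ k ∨ 1 ≤ k') ∧ k ≤ k' + 1 ∧ k' ≤ k + 1 ∧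
        (k ≤ D → sh F D v = y.1) ∧ (k' ≤ D → sh F D w = y'.1) ∧
        (k ≤ D → k' ≤ D → d y.1 y'.1 ≤ s * 2 ^ k ∧ d y.1 y'.1 ≤ s * 2 ^ k') ∧
        sh F D v ∈ F.Y c ∧ sh F D w ∈ F.Y c := by
    intro v w h
    obtain ⟨v, hv⟩ := v
    obtain ⟨w, hw⟩ := w
    have h : CAdj F D d s v w := h
    cases h with
    | hor0 x x' hh => exact Or.inl ⟨x, x', rfl, rfl, hh⟩
    | hor c y y' k hh =>
      refine Or.inr ⟨c, ⟨y, hv.1⟩, ⟨y', hw.1⟩, k, k, (vtk c y k hv).symm, (vtk c y' k hw).symm,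
        ?_, ?_, Or.inl hv.2.1, by omega, by omega, fun _ => rfl, fun _ => rfl,
        fun _ _ => ⟨hh, hh⟩, hv.1, hw.1⟩
      · have := hv.2.2; omega
      · have := hv.2.2; omega
    | up0 c y =>
      refine Or.inr ⟨c, ⟨y, hw.1⟩, ⟨y, hw.1⟩, 0, 1, (vt0 c ⟨y, hw.1⟩).symm,
        (vtk c y 1 hw).symm, by omega, by omega, Or.inr le_rfl, by omega, by omega,
        fun _ => rfl, fun _ => rfl, fun _ _ => ?_, hw.1, hw.1⟩
      show d y y ≤ _ ∧ d y y ≤ _
      rw [hg.self]
      exact ⟨Nat.zero_le _, Nat.zero_le _⟩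
    | up c y k =>
      refine Or.inr ⟨c, ⟨y, hv.1⟩, ⟨y, hw.1⟩, k, k + 1, (vtk c y k hv).symm,
        (vtk c y (k + 1) hw).symm, ?_, ?_, Or.inl hv.2.1, by omega, by omega,
        fun _ => rfl, fun _ => rfl, fun _ _ => ?_, hv.1, hw.1⟩
      · have := hv.2.2; omega
      · have := hv.2.2; omega
      · show d y y ≤ _ ∧ d y y ≤ _
        rw [hg.self]
        exact ⟨Nat.zero_le _, Nat.zero_le _⟩
    | top c y =>
      refine Or.inr ⟨c, ⟨y, hv.1⟩, ⟨y, hv.1⟩, D, D + 1, (vtk c y D hv).symm,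
        (vtD c _).symm, by omega, by omega, Or.inr (by omega), by omega, by omega,
        fun _ => rfl, fun h => absurd h (by omega), fun _ h => absurd h (by omega), hv.1,
        (F.Y_ne c).choose_spec⟩
  rcases H3_adj hg hs hD v w h with h1 | h1 | h1
  · subst h1
    obtain ⟨v, hv⟩ := v
    cases v with
    | base x => exact Or.inl ⟨x, x, rfl, rfl, by rw [hg.self]; exact Nat.zero_le _⟩
    | cone c y k =>
      refine Or.inr ⟨c, ⟨y, hv.1⟩, ⟨y, hv.1⟩, k, k, (vtk c y k hv).symm, (vtk c y k hv).symm,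
        ?_, ?_, Or.inl hv.2.1, by omega, by omega, fun _ => rfl, fun _ => rfl,
        fun _ _ => ?_, hv.1, hv.1⟩
      · have := hv.2.2; omega
      · have := hv.2.2; omega
      · show d y y ≤ _ ∧ d y y ≤ _
        rw [hg.self]
        exact ⟨Nat.zero_le _, Nat.zero_le _⟩
    | apex c =>
      have hy := (F.Y_ne c).choose_spec
      exact Or.inr ⟨c, ⟨_, hy⟩, ⟨_, hy⟩, D + 1, D + 1, (vtD c _).symm, (vtD c _).symm,
        le_rfl, le_rfl, Or.inl (by omega), by omega, by omega, fun _ => rfl, fun _ => rfl,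
        fun h => absurd h (by omega), hy, hy⟩
  · exact main v w h1
  · rcases main w v h1 with ⟨x, x', h2, h3, h4⟩ | ⟨c, y, y', k, k', h2, h3, h4, h5, h6, h7, h8,
      h9, h10, h11, h12, h13⟩
    · exact Or.inl ⟨x', x, h3, h2, by rw [hg.symm]; exact h4⟩
    · refine Or.inr ⟨c, y', y, k', k, h3, h2, h5, h4, h6.symm, h8, h7, h10, h9, ?_, h13, h12⟩
      intro a b
      have := h11 b a
      rw [hg.symm] at this
      exact ⟨this.2, this.1⟩

end

theorem LL_short (h1 : S.cone_geo) (h2 : S.pr_self) (h3 : S.pr_lip) (h4 : S.pr_other)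
    (h5 : S.cd_bs) (h6 : S.cd_vt_vt) (h7 : S.btw_proj) (h8 : S.lev_bs) (h9 : S.lev_vt)
    (h10 : S.lev_vt_ne) : S.LL_short := by
  intro G X _ _ d P F T M hG hF p q v h hv
  have hg := hG.geo
  have hi := hG.isom
  have hΛ := P.hΛ
  have hΛs := P.hΛs
  have hA0 := P.hA0
  have hEx : 1000 * P.Λ ≤ Ex (1000 * P.Λ) := by
    unfold Ex
    exact Nat.le_mul_of_pos_right _ (Nat.pow_pos (by omega))
  have hDD := P.hD
  have hA := P.hA
  have hs := P.hs
  have hδ := P.hδ
  have hδ1 := P.h1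
  have hD1 : 1 ≤ P.D := by omega
  have hs1 : 1 ≤ P.s := by omega
  have hgc := h1 (F := F) hg hi hs1 hD1
  have bsd : ∀ x x' : X, d x x' ≤ 2 * P.s →
      cd F P.D d P.s (bs F P.D x) (bs F P.D x') ≤ 3 := by
    intro x x' hx
    have h11 := h5 (F := F) hg hi hs1 hD1 x x'
    have h12 : d x x' / P.s ≤ 2 := Nat.div_le_of_le_mul (by rw [Nat.mul_comm]; exact hx)
    omega
  rcases H3_kinds hg hs1 hD1 p q h with ⟨x, x', rfl, rfl, hx⟩ |
    ⟨c, y, y', k, k', hp, hq, hkD, hkD', hkk, hk1, hk2, hsp, hsq, hd, hpY, hqY⟩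
  · -- base vertices
    rcases hv with ⟨w, rfl, hw, _⟩ | ⟨c, hc, _⟩
    · have hw : d x w + d w x' ≤ d x x' + 10 * P.A := hw
      have := bsd x w (by omega)
      omega
    · exfalso
      rcases hc with hc | hc | hc
      · rw [h8 hg hi hs1 hD1] at hc; omega
      · rw [h8 hg hi hs1 hD1] at hc; omega
      · have h11 := h3 hG hF c x x'
        have hc : 20 * P.s < d (pr F d c x).1 (pr F d c x').1 := hc
        omega
  · -- vertices of a cone
    have hpr : (prc F P.D d c p).1 = sh F P.D p := h2 hG hF c _ hpY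
    have hqr : (prc F P.D d c q).1 = sh F P.D q := h2 hG hF c _ hqY
    have hlp : lev F P.D c p = k := by
      rw [hp, h9 hg hi hs1 hD1]; omega
    have hlq : lev F P.D c q = k' := by
      rw [hq, h9 hg hi hs1 hD1]; omega
    have hpv : p = vt F P.D c (prc F P.D d c p) k := by
      by_cases hk : k ≤ P.D
      · have e : prc F P.D d c p = y := Subtype.ext (hpr.trans (hsp hk))
        rw [e]; exact hp
      · have hk : k = P.D + 1 := by omega
        rw [hp, hk, H3_vtD, H3_vtD]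
    have hqv : q = vt F P.D c (prc F P.D d c q) k' := by
      by_cases hk : k' ≤ P.D
      · have e : prc F P.D d c q = y' := Subtype.ext (hqr.trans (hsq hk))
        rw [e]; exact hq
      · have hk : k' = P.D + 1 := by omega
        rw [hq, hk, H3_vtD, H3_vtD]
    rcases hv with ⟨w, rfl, hw, hdeep⟩ | ⟨c', hc, hr⟩
    · -- base points of the guessed set
      by_cases hb : 1 ≤ k ∧ 1 ≤ k'
      · exfalso
        apply hdeep c
        refine ⟨?_, Or.inl (by rw [hlp]; exact hb.1), Or.inl (by rw [hlq]; exact hb.2)⟩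
        obtain ⟨m, hm, hwm⟩ := h7 hg hG.hyp hw
        obtain ⟨z, hz, hmz⟩ := hF.qc c _ _ m hpY hqY hm
        refine ⟨z, hz, ?_⟩
        have := hg.tri w m z
        omega
      · have hkk' : k ≤ P.D ∧ k' ≤ P.D ∧ k ≤ 1 ∧ k' ≤ 1 := by omega
        have hsp' := hsp hkk'.1
        have hsq' := hsq hkk'.2.1
        have hdd := hd hkk'.1 hkk'.2.1
        have hdy : d y.1 y'.1 ≤ P.s := by
          rcases (show k = 0 ∨ k' = 0 by omega) with e | e
          · have := hdd.1
            rwa [e, pow_zero, mul_one] at this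
          · have := hdd.2
            rwa [e, pow_zero, mul_one] at this
        have hw : d (sh F P.D p) w + d w (sh F P.D q) ≤
          d (sh F P.D p) (sh F P.D q) + 10 * P.A := hw
        rw [hsp', hsq'] at hw
        rcases (show k = 0 ∨ k' = 0 by omega) with e | e
        · have e2 : p = bs F P.D y.1 := by rw [hp, e]; simp [vt]
          rw [e2]
          have := bsd y.1 w (by omega)
          omega
        · have e2 : q = bs F P.D y'.1 := by rw [hq, e]; simp [vt]
          have e3 := bsd y'.1 w (by rw [hg.symm]; omega)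
          have e4 := hgc.tri p q (bs F P.D w)
          rw [e2] at e4 h
          omega
    · -- points of the rays
      by_cases hcc : c' = c
      · subst hcc
        have hlam : lam F P.D d P.s c' p q ≤ k + 1 ∧ lam F P.D d P.s c' p q ≤ k' + 1 := by
          by_cases hkk2 : k ≤ P.D ∧ k' ≤ P.D
          · have hdd := hd hkk2.1 hkk2.2
            rw [← hsp hkk2.1, ← hsq hkk2.2, ← hpr, ← hqr] at hdd
            have e1 : lam F P.D d P.s c' p q ≤ k := Nat.sInf_le (Or.inl hdd.1)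
            have e2 : lam F P.D d P.s c' p q ≤ k' := Nat.sInf_le (Or.inl hdd.2)
            omega
          · have e1 : lam F P.D d P.s c' p q ≤ P.D + 1 := Nat.sInf_le (Or.inr rfl)
            omega
        have hKK : KK F P.D d P.s c' p q ≤ k + 1 ∧ KK F P.D d P.s c' p q ≤ k' + 1 := by
          unfold KK
          rw [hlp, hlq]
          omega
        rcases hr with ⟨j, hj1, hj2, rfl⟩ | ⟨j, hj1, hj2, rfl⟩
        · have e1 := h6 hg hi hs1 hD1 c' (prc F P.D d c' p) k j (by rw [← hlp]; exact hj1)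
          rw [← hpv] at e1
          omega
        · have e1 := h6 hg hi hs1 hD1 c' (prc F P.D d c' q) k' j (by rw [← hlq]; exact hj1)
          rw [← hqv] at e1
          have e2 := hgc.tri p q (vt F P.D c' (prc F P.D d c' q) j)
          omega
      · exfalso
        have hcc' : c ≠ c' := fun e => hcc e.symm
        rcases hc with hc | hc | hc
        · rw [hp, h10 hg hi hs1 hD1 c c' y k hcc'] at hc; omega
        · rw [hq, h10 hg hi hs1 hD1 c c' y' k' hcc'] at hc; omega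
        · have h11 := h4 hG hF c c' hcc' _ _ hpY hqY
          have hc : 20 * P.s < d (pr F d c' (sh F P.D p)).1 (pr F d c' (sh F P.D q)).1 := hc
          omega

end Mon
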