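import Pool.Agent.Work.MP_6f5fa7_al.Mon.StTool
import Pool.Agent.Work.MP_6f5fa7_al.Mon.StCone
import Pool.Agent.Work.MP_6f5fa7_al.Mon.StHyp

/-! Mon, item H5: the guessed quasi-geodesics of the cone-off are coarsely connected. -/
set_option autoImplicit false

namespace Mon

namespace H5

theorem le_Ex (ρ : ℕ) : ρ ≤ Ex ρ := Nat.le_mul_of_pos_right _ (pow_pos (by norm_num) _)

/-- linear consequences of the inequalities of `Par` -/
theorem par_lin (P : Par) : 1000000 * P.δ ≤ P.A ∧ 1000000 * P.A ≤ P.s ∧ 1 ≤ P.s ∧ 1 ≤ P.D ∧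
    1 ≤ P.A ∧ 1 ≤ P.δ := by
  have h0 := P.h1
  have h1 := P.hδ
  have h2 := P.hΛs
  have h3 := P.hΛ
  have h4 := P.hA0
  have h5 := P.hD
  have h6 := P.hA
  have h7 := P.hs
  have h8 := le_Ex (1000 * P.Λ)
  obtain ⟨e, he⟩ : ∃ e, e = Ex (1000 * P.Λ) := ⟨_, rfl⟩
  rw [← he] at h4 h8
  refine ⟨?_, h7, ?_, ?_, ?_, ?_⟩ <;> omega

section Base

variable {G X : Type} [Group G] [MulAction G X] {d : X → X → ℕ} {P : Par} {F : Fam G X} {T M : ℕ}

/-- a projection far from a point near `Y c` can replace the end point -/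
theorem left_pr (hsp : S.btw_split) (hpb : S.pr_btw) (hG : P.St G d M) (hF : FamOK P d F T)
    (c : F.C) (x w y : X) (κ : ℕ) (hκ : κ ≤ P.A) (h : Btw d x w y κ) (b : X) (hb : b ∈ F.Y c)
    (hwb : d w b ≤ 50 * P.A) (hx : 20 * P.s < d w (pr F d c x).1) :
    Btw d (pr F d c x).1 w y (κ + P.δ) := by
  obtain ⟨k1, k2, k3, k4, k5, k6⟩ := par_lin P
  have hg := hG.geo
  have h1 := hpb hG hF c x b hb
  rcases hsp hg hG.hyp h (pr F d c x).1 with h2 | h2
  · exfalso
    unfold Btw at h1 h2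
    have e1 := hg.tri x w b
    have e2 := hg.tri w b (pr F d c x).1
    have e3 := hg.symm b (pr F d c x).1
    omega
  · exact h2

theorem left_end (hsp : S.btw_split) (hpb : S.pr_btw) (hG : P.St G d M) (hF : FamOK P d F T)
    (c : F.C) (x w y : X) (κ : ℕ) (hκ : κ ≤ P.A) (h : Btw d x w y κ) (b : X) (hb : b ∈ F.Y c)
    (hwb : d w b ≤ 50 * P.A) (hx : x ∈ F.Y c ∨ 20 * P.s < d w (pr F d c x).1) :
    ∃ a ∈ F.Y c, Btw d a w y (κ + P.δ) := by
  rcases hx with hx | hx
  · refine ⟨x, hx, ?_⟩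
    unfold Btw at h ⊢
    omega
  · exact ⟨_, (pr F d c x).2, left_pr hsp hpb hG hF c x w y κ hκ h b hb hwb hx⟩

theorem btw_symm (hg : Geo d) {x w y : X} {κ : ℕ} (h : Btw d x w y κ) : Btw d y w x κ := by
  unfold Btw at h ⊢
  have e1 := hg.symm x w
  have e2 := hg.symm w y
  have e3 := hg.symm x y
  omega

/-- points between points of `Y c` are near `Y c` -/
theorem qc_near (hpj : S.btw_proj) (hG : P.St G d M) (hF : FamOK P d F T)
    (c : F.C) (a w b : X) (κ : ℕ) (hκ : κ ≤ 2 * P.δ) (ha : a ∈ F.Y c) (hb : b ∈ F.Y c)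
    (h : Btw d a w b κ) : ∃ y ∈ F.Y c, d w y ≤ 2 * P.A := by
  obtain ⟨k1, k2, k3, k4, k5, k6⟩ := par_lin P
  have hg := hG.geo
  obtain ⟨m, hm, hwm⟩ := hpj hg hG.hyp h
  obtain ⟨y, hy, hmy⟩ := hF.qc c a b m ha hb hm
  refine ⟨y, hy, ?_⟩
  have e1 := hg.tri w m y
  omega

/-- points which are deep are very near -/
theorem deep_near (hsp : S.btw_split) (hpj : S.btw_proj) (hpb : S.pr_btw) (hG : P.St G d M)
    (hF : FamOK P d F T) (c : F.C) (x w y : X) (h : Btw d x w y 0) (b : X) (hb : b ∈ F.Y c)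
    (hwb : d w b ≤ 50 * P.A) (hx : x ∈ F.Y c ∨ 20 * P.s < d w (pr F d c x).1)
    (hy : y ∈ F.Y c ∨ 20 * P.s < d w (pr F d c y).1) : ∃ y ∈ F.Y c, d w y ≤ 2 * P.A := by
  obtain ⟨k1, k2, k3, k4, k5, k6⟩ := par_lin P
  have hg := hG.geo
  obtain ⟨a, ha, h1⟩ := left_end hsp hpb hG hF c x w y 0 (by omega) h b hb hwb hx
  obtain ⟨a', ha', h2⟩ := left_end hsp hpb hG hF c y w a (0 + P.δ) (by omega)
    (btw_symm hg h1) b hb hwb hy
  exact qc_near hpj hG hF c a' w a _ (by omega) ha' ha h2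

theorem deep_left (hsp : S.btw_split) (hpj : S.btw_proj) (hpb : S.pr_btw) (hG : P.St G d M)
    (hF : FamOK P d F T) (c : F.C) (x w z b : X) (hb : b ∈ F.Y c) (hwb : d w b ≤ 51 * P.A)
    (hx : x ∈ F.Y c ∨ 19 * P.s ≤ d w (pr F d c x).1) (hz : Btw d x z w 0)
    (h1 : 52 * P.A ≤ d z w) (h2 : d z w ≤ 16 * P.s) : ∃ a ∈ F.Y c, d z a ≤ 2 * P.A := by
  obtain ⟨k1, k2, k3, k4, k5, k6⟩ := par_lin P
  have hg := hG.geo
  rcases hsp hg hG.hyp hz b with h3 | h3
  · rcases hx with hx | hx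
    · exact qc_near hpj hG hF c x z b _ (by omega) hx hb h3
    · have h4 := hpb hG hF c x b hb
      rcases hsp hg hG.hyp h3 (pr F d c x).1 with h5 | h5
      · exfalso
        unfold Btw at h4 h5 hz
        have e1 := hg.tri x z w
        have e2 := hg.tri x w b
        have e3 := hg.tri w b (pr F d c x).1
        have e4 := hg.symm b (pr F d c x).1
        omega
      · exact qc_near hpj hG hF c _ z b _ (by omega) (pr F d c x).2 hb h5
  · exfalso
    unfold Btw at h3
    have e1 := hg.symm b w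
    omega

theorem far_end (hpb : S.pr_btw) (hG : P.St G d M) (hF : FamOK P d F T) (c : F.C) (x w b : X)
    (hb : b ∈ F.Y c) (hwb : d w b ≤ 51 * P.A) (hx : 19 * P.s ≤ d w (pr F d c x).1) :
    18 * P.s ≤ d x w := by
  obtain ⟨k1, k2, k3, k4, k5, k6⟩ := par_lin P
  have hg := hG.geo
  have h4 := hpb hG hF c x b hb
  unfold Btw at h4
  have e1 := hg.tri x w b
  have e2 := hg.tri w b (pr F d c x).1
  have e3 := hg.symm b (pr F d c x).1
  omega

theorem two_deep (hsp : S.btw_split) (hpj : S.btw_proj) (hpb : S.pr_btw) (hG : P.St G d M)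
    (hF : FamOK P d F T) (c c' : F.C) (hc : c ≠ c') (x w b b' : X) (hb : b ∈ F.Y c)
    (hb' : b' ∈ F.Y c') (hwb : d w b ≤ 51 * P.A) (hwb' : d w b' ≤ 51 * P.A)
    (hx : x ∈ F.Y c ∨ 19 * P.s ≤ d w (pr F d c x).1)
    (hx' : x ∈ F.Y c' ∨ 19 * P.s ≤ d w (pr F d c' x).1)
    (hxx : 19 * P.s ≤ d w (pr F d c x).1 ∨ 19 * P.s ≤ d w (pr F d c' x).1) : False := by
  obtain ⟨k1, k2, k3, k4, k5, k6⟩ := par_lin P
  have hg := hG.geo
  have hxw : 18 * P.s ≤ d x w := by
    rcases hxx with h | h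
    · exact far_end hpb hG hF c x w b hb hwb h
    · exact far_end hpb hG hF c' x w b' hb' hwb' h
  have hs := hg.symm x w
  obtain ⟨z1, h1, h1'⟩ := hg.geo w x (15 * P.s) (by omega)
  obtain ⟨z2, h2, h2'⟩ := hg.geo w x (5 * P.s) (by omega)
  have s1 := hg.symm w z1
  have s2 := hg.symm w z2
  have s3 := hg.symm z1 x
  have s4 := hg.symm z2 x
  have b1 : Btw d x z1 w 0 := by unfold Btw; omega
  have b2 : Btw d x z2 w 0 := by unfold Btw; omega
  obtain ⟨a1, ha1, ka1⟩ := deep_left hsp hpj hpb hG hF c x w z1 b hb hwb hx b1 (by omega)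
    (by omega)
  obtain ⟨a2, ha2, ka2⟩ := deep_left hsp hpj hpb hG hF c x w z2 b hb hwb hx b2 (by omega)
    (by omega)
  obtain ⟨a3, ha3, ka3⟩ := deep_left hsp hpj hpb hG hF c' x w z1 b' hb' hwb' hx' b1 (by omega)
    (by omega)
  obtain ⟨a4, ha4, ka4⟩ := deep_left hsp hpj hpb hG hF c' x w z2 b' hb' hwb' hx' b2 (by omega)
    (by omega)
  have t1 := hg.tri a1 z1 a3
  have t2 := hg.symm a1 z1
  have t3 := hg.tri a2 z2 a4
  have t4 := hg.symm a2 z2
  have h3 := hF.ov c c' a1 a2 a3 a4 hc ha1 ha2 ha3 ha4 (by omega) (by omega)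
  have t5 := hg.tri w z2 z1
  have t6 := hg.tri z2 a2 z1
  have t7 := hg.tri a2 a1 z1
  have t8 := hg.symm a2 a1
  omega

end Base

section ConeP

variable {G X : Type} [Group G] [MulAction G X] {d : X → X → ℕ} {P : Par} {F : Fam G X} {T M : ℕ}

open Classical in
theorem sh_mem {D : ℕ} {c : F.C} {p : Cone F D} (h : 1 ≤ lev F D c p) : sh F D p ∈ F.Y c := by
  obtain ⟨p0, hp⟩ := p
  unfold lev at h
  unfold sh
  cases p0 with
  | base x =>
    have h1 : levr F D c (CV.base x) = 0 := rfl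
    rw [h1] at h
    omega
  | cone c' y k =>
    have h1 : levr F D c (CV.cone c' y k) = if c' = c then k else 0 := rfl
    rw [h1] at h
    by_cases hc : c' = c
    · subst hc
      exact hp.1
    · rw [if_neg hc] at h
      omega
  | apex c' =>
    have h1 : levr F D c (CV.apex c') = if c' = c then D + 1 else 0 := rfl
    rw [h1] at h
    by_cases hc : c' = c
    · subst hc
      exact (F.Y_ne c').choose_spec
    · rw [if_neg hc] at h
      omega

open Classical in
theorem lev_two {D : ℕ} {c c' : F.C} {p : Cone F D} (h : 1 ≤ lev F D c p)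
    (h' : 1 ≤ lev F D c' p) : c = c' := by
  obtain ⟨p0, hp⟩ := p
  unfold lev at h h'
  cases p0 with
  | base x =>
    have h1 : levr F D c (CV.base x) = 0 := rfl
    rw [h1] at h
    omega
  | cone c0 y k =>
    have h1 : ∀ c, levr F D c (CV.cone c0 y k) = if c0 = c then k else 0 := fun _ => rfl
    rw [h1] at h h'
    by_cases hc : c0 = c
    · by_cases hc' : c0 = c'
      · exact hc.symm.trans hc'
      · rw [if_neg hc'] at h'
        omega
    · rw [if_neg hc] at h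
      omega
  | apex c0 =>
    have h1 : ∀ c, levr F D c (CV.apex c0) = if c0 = c then D + 1 else 0 := fun _ => rfl
    rw [h1] at h h'
    by_cases hc : c0 = c
    · by_cases hc' : c0 = c'
      · exact hc.symm.trans hc'
      · rw [if_neg hc'] at h'
        omega
    · rw [if_neg hc] at h
      omega

theorem vt_top {D : ℕ} {c : F.C} {y : F.Y c} {k : ℕ} (h : D < k) : vt F D c y k = ap F D c := by
  have h0 : ¬ k = 0 := by omega
  have h3 : ¬ k ≤ D := by omega
  simp [vt, h0, h3]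

theorem vt_zero {D : ℕ} {c : F.C} {y : F.Y c} : vt F D c y 0 = bs F D y.1 := by
  simp [vt]

/-- a vertex on no cone is a base vertex -/
theorem eq_bs {D : ℕ} {p : Cone F D} (h : ∀ c, ¬ 1 ≤ lev F D c p) : p = bs F D (sh F D p) := by
  obtain ⟨p0, hp⟩ := p
  cases p0 with
  | base x => rfl
  | cone c y k =>
    exfalso
    have h1 : lev F D c ⟨CV.cone c y k, hp⟩ = k := if_pos rfl
    have h2 := h c
    rw [h1] at h2
    exact h2 hp.2.1
  | apex c =>
    exfalso
    have h1 : lev F D c ⟨CV.apex c, hp⟩ = D + 1 := if_pos rfl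
    have h2 := h c
    rw [h1] at h2
    omega

open Classical in
/-- a vertex of positive level is the vertex above its projection -/
theorem eq_vt {D : ℕ} {c : F.C} {p : Cone F D} (h : 1 ≤ lev F D c p) :
    p = vt F D c (prc F D d c p) (lev F D c p) := by
  have hm := sh_mem h
  obtain ⟨p0, hp⟩ := p
  cases p0 with
  | base x =>
    have h1 : lev F D c ⟨CV.base x, hp⟩ = 0 := rfl
    rw [h1] at h
    omega
  | cone c' y k =>
    have h1 : lev F D c ⟨CV.cone c' y k, hp⟩ = if c' = c then k else 0 := rfl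
    rw [h1] at h
    by_cases hc : c' = c
    · subst hc
      rw [if_pos rfl] at h1
      rw [h1]
      have h2 : prc F D d c' ⟨CV.cone c' y k, hp⟩ = ⟨y, hp.1⟩ := by
        unfold prc pr
        have h3 : sh F D (⟨CV.cone c' y k, hp⟩ : Cone F D) = y := rfl
        rw [h3] at hm ⊢
        rw [dif_pos hm]
      rw [h2]
      apply Subtype.ext
      have h0 : ¬ k = 0 := by
        have := hp.2.1
        omega
      simp [vt, h0, hp.2.2]
    · rw [if_neg hc] at h
      omega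
  | apex c' =>
    have h1 : lev F D c ⟨CV.apex c', hp⟩ = if c' = c then D + 1 else 0 := rfl
    rw [h1] at h
    by_cases hc : c' = c
    · subst hc
      rw [if_pos rfl] at h1
      rw [h1, vt_top (Nat.lt_succ_self D)]
      rfl
    · rw [if_neg hc] at h
      omega

/-- steps inside `LL` -/
def Rl (F : Fam G X) (d : X → X → ℕ) (P : Par) (p q v w : Cone F P.D) : Prop :=
  v ∈ LL F P.D d P.s P.A p q ∧ w ∈ LL F P.D d P.s P.A p q ∧ cd F P.D d P.s v w ≤ 1000

/-- connected inside `LL` -/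
def E (F : Fam G X) (d : X → X → ℕ) (P : Par) (p q v w : Cone F P.D) : Prop :=
  Relation.ReflTransGen (Rl F d P p q) v w

theorem E_symm (hcg : Geo (cd F P.D d P.s)) {p q v w : Cone F P.D} (h : E F d P p q v w) :
    E F d P p q w v := by
  induction h with
  | refl => exact Relation.ReflTransGen.refl
  | tail _ hab ih =>
    exact Relation.ReflTransGen.head ⟨hab.2.1, hab.1, by rw [hcg.symm]; exact hab.2.2⟩ ih

theorem E_chain {p q v w : Cone F P.D} (hv : v ∈ LL F P.D d P.s P.A p q)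
    (h : E F d P p q v w) :
    ∃ (m : ℕ) (f : ℕ → Cone F P.D), f 0 = v ∧ f m = w ∧
      (∀ i, i ≤ m → f i ∈ LL F P.D d P.s P.A p q) ∧
      ∀ i, i < m → cd F P.D d P.s (f i) (f (i + 1)) ≤ 1000 := by
  induction h with
  | refl => exact ⟨0, fun _ => v, rfl, rfl, fun _ _ => hv, fun i hi => by omega⟩
  | @tail a b _ hab ih =>
    obtain ⟨m, f, h0, hm, h1, h2⟩ := ih
    refine ⟨m + 1, fun i => if i ≤ m then f i else b, ?_, ?_, ?_, ?_⟩
    · simp [h0]
    · simp
    · intro i hi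
      by_cases h : i ≤ m
      · simp only [h, if_true]
        exact h1 i h
      · simp only [h, if_false]
        exact hab.2.1
    · intro i hi
      by_cases h : i + 1 ≤ m
      · have h' : i ≤ m := by omega
        simp only [h, h', if_true]
        exact h2 i (by omega)
      · have h' : i = m := by omega
        subst h'
        simp only [h, if_false, le_refl, if_true]
        rw [hm]
        exact hab.2.2

/-- the two rays of `c` -/
def Rays (F : Fam G X) (d : X → X → ℕ) (P : Par) (p q : Cone F P.D) (c : F.C) :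
    Set (Cone F P.D) :=
  {v | v ∈ Ray F P.D d c p (KK F P.D d P.s c p q) ∨ v ∈ Ray F P.D d c q (KK F P.D d P.s c p q)}

theorem rays_LL {p q : Cone F P.D} {c : F.C} (ha : ActC F P.D d P.s c p q) {v : Cone F P.D}
    (hv : v ∈ Rays F d P p q c) : v ∈ LL F P.D d P.s P.A p q := Or.inr ⟨c, ha, hv⟩

theorem ray_up (hvv : S.cd_vt_vt) (hG : P.St G d M) {p q : Cone F P.D} {c : F.C}
    (ha : ActC F P.D d P.s c p q) (r : Cone F P.D) (hr : ∀ v ∈ Ray F P.D d c r
      (KK F P.D d P.s c p q), v ∈ Rays F d P p q c) (t : ℕ) :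
    ∀ j, lev F P.D c r ≤ j → j + t = KK F P.D d P.s c p q →
      E F d P p q (vt F P.D c (prc F P.D d c r) j)
        (vt F P.D c (prc F P.D d c r) (KK F P.D d P.s c p q)) := by
  obtain ⟨k1, k2, k3, k4, k5, k6⟩ := par_lin P
  induction t with
  | zero =>
    intro j _ hj
    rw [← hj]
    exact Relation.ReflTransGen.refl
  | succ t ih =>
    intro j hj1 hj
    refine Relation.ReflTransGen.head ?_ (ih (j + 1) (by omega) (by omega))
    refine ⟨rays_LL ha (hr _ ⟨j, hj1, by omega, rfl⟩),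
      rays_LL ha (hr _ ⟨j + 1, by omega, by omega, rfl⟩), ?_⟩
    have := hvv hG.geo hG.isom k3 k4 c (prc F P.D d c r) j (j + 1) (by omega)
    omega

theorem lev_le_KK (p q : Cone F P.D) (c : F.C) :
    lev F P.D c p ≤ KK F P.D d P.s c p q ∧ lev F P.D c q ≤ KK F P.D d P.s c p q :=
  ⟨(le_max_left _ _).trans (le_max_left _ _), (le_max_right _ _).trans (le_max_left _ _)⟩

theorem tops (hcg : Geo (cd F P.D d P.s)) (hhor : S.cd_hor) (hG : P.St G d M)
    (p q : Cone F P.D) (c : F.C) :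
    cd F P.D d P.s (vt F P.D c (prc F P.D d c p) (KK F P.D d P.s c p q))
      (vt F P.D c (prc F P.D d c q) (KK F P.D d P.s c p q)) ≤ 1 := by
  obtain ⟨k1, k2, k3, k4, k5, k6⟩ := par_lin P
  have hK : lam F P.D d P.s c p q ≤ KK F P.D d P.s c p q := le_max_right _ _
  have hmem : lam F P.D d P.s c p q ∈ {k | d (prc F P.D d c p).1 (prc F P.D d c q).1 ≤
      P.s * 2 ^ k ∨ k = P.D + 1} := Nat.sInf_mem ⟨P.D + 1, Or.inr rfl⟩
  rcases hmem with h | h
  · refine hhor hG.geo hG.isom k3 k4 c _ _ _ (h.trans ?_)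
    exact Nat.mul_le_mul_left _ (Nat.pow_le_pow_right (by norm_num) hK)
  · rw [vt_top (by omega), vt_top (by omega), hcg.self]
    omega

theorem rays_conn (hcg : Geo (cd F P.D d P.s)) (hvv : S.cd_vt_vt) (hhor : S.cd_hor)
    (hG : P.St G d M) {p q : Cone F P.D} {c : F.C} (ha : ActC F P.D d P.s c p q)
    {v w : Cone F P.D} (hv : v ∈ Rays F d P p q c) (hw : w ∈ Rays F d P p q c) :
    E F d P p q v w := by
  have hl := lev_le_KK (d := d) p q c
  have key : ∀ v ∈ Rays F d P p q c, E F d P p q v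
      (vt F P.D c (prc F P.D d c p) (KK F P.D d P.s c p q)) := by
    rintro v (⟨j, h1, h2, rfl⟩ | ⟨j, h1, h2, rfl⟩)
    · exact ray_up hvv hG ha p (fun v hv => Or.inl hv) (KK F P.D d P.s c p q - j) j h1
        (by omega)
    · refine (ray_up hvv hG ha q (fun v hv => Or.inr hv) (KK F P.D d P.s c p q - j) j h1
        (by omega)).tail ?_
      refine ⟨rays_LL ha (Or.inr ⟨_, hl.2, le_rfl, rfl⟩),
        rays_LL ha (Or.inl ⟨_, hl.1, le_rfl, rfl⟩), ?_⟩
      rw [hcg.symm]
      have := tops hcg hhor hG p q c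
      omega
  exact (key v hv).trans (E_symm hcg (key w hw))

/-- representatives of the points of a geodesic -/
def Rep (F : Fam G X) (d : X → X → ℕ) (P : Par) (p q : Cone F P.D) (w : X)
    (v : Cone F P.D) : Prop :=
  (v = bs F P.D w ∧ ∀ c, ¬ Deep F P.D d P.s P.A c w p q) ∨
    ∃ c, Deep F P.D d P.s P.A c w p q ∧ v ∈ Rays F d P p q c

theorem deep_sh {c : F.C} {w : X} {p : Cone F P.D}
    (h : 1 ≤ lev F P.D c p ∨ 20 * P.s < d w (prc F P.D d c p).1) :
    sh F P.D p ∈ F.Y c ∨ 20 * P.s < d w (pr F d c (sh F P.D p)).1 :=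
  h.imp sh_mem id

theorem deep_act (hsp : S.btw_split) (hpb : S.pr_btw) (hG : P.St G d M) (hF : FamOK P d F T)
    {p q : Cone F P.D} {c : F.C} {w : X} (hw : Btw d (sh F P.D p) w (sh F P.D q) 0)
    (h : Deep F P.D d P.s P.A c w p q) : ActC F P.D d P.s c p q := by
  obtain ⟨k1, k2, k3, k4, k5, k6⟩ := par_lin P
  obtain ⟨⟨b, hb, hwb⟩, h1, h2⟩ := h
  rcases h1 with h1 | h1
  · exact Or.inl h1
  rcases h2 with h2 | h2
  · exact Or.inr (Or.inl h2)
  right; right
  have hg := hG.geo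
  have e1 := left_pr hsp hpb hG hF c _ w _ 0 (by omega) hw b hb hwb h1
  have e2 := left_pr hsp hpb hG hF c _ w _ (0 + P.δ) (by omega) (btw_symm hg e1) b hb hwb h2
  unfold Btw at e2
  have e3 := hg.symm (pr F d c (sh F P.D q)).1 w
  have e4 := hg.symm (pr F d c (sh F P.D q)).1 (pr F d c (sh F P.D p)).1
  unfold prc at h1 h2 ⊢
  omega

theorem rep_LL (hsp : S.btw_split) (hpb : S.pr_btw) (hG : P.St G d M) (hF : FamOK P d F T)
    {p q : Cone F P.D} {w : X} (hw : Btw d (sh F P.D p) w (sh F P.D q) 0) {v : Cone F P.D}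
    (h : Rep F d P p q w v) : v ∈ LL F P.D d P.s P.A p q := by
  rcases h with ⟨rfl, h⟩ | ⟨c, h, hv⟩
  · refine Or.inl ⟨w, rfl, ?_, h⟩
    unfold Btw at hw ⊢
    omega
  · exact rays_LL (deep_act hsp hpb hG hF hw h) hv

theorem rep_ex (p q : Cone F P.D) (w : X) : ∃ v, Rep F d P p q w v := by
  by_cases h : ∃ c, Deep F P.D d P.s P.A c w p q
  · obtain ⟨c, hc⟩ := h
    exact ⟨_, Or.inr ⟨c, hc, Or.inl ⟨_, (lev_le_KK p q c).1, le_rfl, rfl⟩⟩⟩
  · push Not at h
    exact ⟨_, Or.inl ⟨rfl, h⟩⟩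

/-- a base vertex near the lower end of a ray -/
theorem near_ray (hcg : Geo (cd F P.D d P.s)) (hbs : S.cd_bs) (hG : P.St G d M) {p q : Cone F P.D}
    {c : F.C} (ha : ActC F P.D d P.s c p q) {w : X}
    (hw : bs F P.D w ∈ LL F P.D d P.s P.A p q)
    (h : (¬ (1 ≤ lev F P.D c p ∨ 20 * P.s < d w (prc F P.D d c p).1)) ∨
      ¬ (1 ≤ lev F P.D c q ∨ 20 * P.s < d w (prc F P.D d c q).1)) :
    ∃ v ∈ Rays F d P p q c, E F d P p q (bs F P.D w) v := by
  obtain ⟨k1, k2, k3, k4, k5, k6⟩ := par_lin P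
  have key : ∀ r : Cone F P.D, d w (prc F P.D d c r).1 ≤ 20 * P.s →
      cd F P.D d P.s (bs F P.D w) (vt F P.D c (prc F P.D d c r) 0) ≤ 1000 := by
    intro r hr
    rw [vt_zero]
    have h1 := hbs (F := F) hG.geo hG.isom k3 k4 w (prc F P.D d c r).1
    have h2 : d w (prc F P.D d c r).1 / P.s ≤ 20 :=
      Nat.div_le_of_le_mul (by rw [mul_comm]; exact hr)
    omega
  rcases h with h | h
  · push Not at h
    have hm : vt F P.D c (prc F P.D d c p) 0 ∈ Rays F d P p q c :=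
      Or.inl ⟨0, by omega, Nat.zero_le _, rfl⟩
    exact ⟨_, hm, Relation.ReflTransGen.single ⟨hw, rays_LL ha hm, key p h.2⟩⟩
  · push Not at h
    have hm : vt F P.D c (prc F P.D d c q) 0 ∈ Rays F d P p q c :=
      Or.inr ⟨0, by omega, Nat.zero_le _, rfl⟩
    exact ⟨_, hm, Relation.ReflTransGen.single ⟨hw, rays_LL ha hm, key q h.2⟩⟩

/-- transition between a point which is not deep and a deep point -/
theorem link (hsp : S.btw_split) (hpj : S.btw_proj) (hpb : S.pr_btw)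
    (hcg : Geo (cd F P.D d P.s)) (hvv : S.cd_vt_vt) (hhor : S.cd_hor) (hbs : S.cd_bs)
    (hG : P.St G d M) (hF : FamOK P d F T) {p q : Cone F P.D} {w w' : X}
    (hw : Btw d (sh F P.D p) w (sh F P.D q) 0) (hw' : Btw d (sh F P.D p) w' (sh F P.D q) 0)
    (hww : d w w' ≤ 1) (hn : ∀ c, ¬ Deep F P.D d P.s P.A c w p q) {c : F.C}
    (hd : Deep F P.D d P.s P.A c w' p q) {v : Cone F P.D} (hv : v ∈ Rays F d P p q c) :
    E F d P p q (bs F P.D w) v := by
  obtain ⟨k1, k2, k3, k4, k5, k6⟩ := par_lin P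
  have ha := deep_act hsp hpb hG hF hw' hd
  obtain ⟨⟨b, hb, hwb⟩, h1, h2⟩ := hd
  obtain ⟨y, hy, hwy⟩ := deep_near hsp hpj hpb hG hF c _ w' _ hw' b hb hwb (deep_sh h1)
    (deep_sh h2)
  have hmem : bs F P.D w ∈ LL F P.D d P.s P.A p q :=
    rep_LL hsp hpb hG hF hw (Or.inl ⟨rfl, hn⟩)
  have h3 : (¬ (1 ≤ lev F P.D c p ∨ 20 * P.s < d w (prc F P.D d c p).1)) ∨
      ¬ (1 ≤ lev F P.D c q ∨ 20 * P.s < d w (prc F P.D d c q).1) := by
    by_contra hcon
    push Not at hcon
    have e1 := hG.geo.tri w w' y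
    exact hn c ⟨⟨y, hy, by omega⟩, hcon.1, hcon.2⟩
  obtain ⟨u, hu, hwu⟩ := near_ray hcg hbs hG ha hmem h3
  exact hwu.trans (rays_conn hcg hvv hhor hG ha hu hv)

theorem step (hsp : S.btw_split) (hpj : S.btw_proj) (hpb : S.pr_btw)
    (hcg : Geo (cd F P.D d P.s)) (hvv : S.cd_vt_vt) (hhor : S.cd_hor) (hbs : S.cd_bs)
    (hG : P.St G d M) (hF : FamOK P d F T) {p q : Cone F P.D} {w w' : X}
    (hw : Btw d (sh F P.D p) w (sh F P.D q) 0) (hw' : Btw d (sh F P.D p) w' (sh F P.D q) 0)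
    (hww : d w w' ≤ 1) {v v' : Cone F P.D} (hv : Rep F d P p q w v)
    (hv' : Rep F d P p q w' v') : E F d P p q v v' := by
  obtain ⟨k1, k2, k3, k4, k5, k6⟩ := par_lin P
  have hsy := hG.geo.symm w w'
  rcases hv with ⟨rfl, hn⟩ | ⟨c, hc, hv⟩
  · rcases hv' with ⟨rfl, hn'⟩ | ⟨c', hc', hv'⟩
    · refine Relation.ReflTransGen.single ⟨rep_LL hsp hpb hG hF hw (Or.inl ⟨rfl, hn⟩),
        rep_LL hsp hpb hG hF hw' (Or.inl ⟨rfl, hn'⟩), ?_⟩
      have h1 := hbs (F := F) hG.geo hG.isom k3 k4 w w'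
      have h2 : d w w' / P.s ≤ d w w' := Nat.div_le_self _ _
      omega
    · exact link hsp hpj hpb hcg hvv hhor hbs hG hF hw hw' hww hn hc' hv'
  · rcases hv' with ⟨rfl, hn'⟩ | ⟨c', hc', hv'⟩
    · exact E_symm hcg (link hsp hpj hpb hcg hvv hhor hbs hG hF hw' hw (by omega) hn' hc hv)
    · have hcc : c = c' := by
        by_contra hne
        obtain ⟨⟨b, hb, hwb⟩, h1, h2⟩ := hc
        obtain ⟨⟨b', hb', hwb'⟩, h1', h2'⟩ := hc'
        have e1 := hG.geo.tri w w' b'
        have e2 := hG.geo.tri w' w (pr F d c' (sh F P.D p)).1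
        refine two_deep hsp hpj hpb hG hF c c' hne (sh F P.D p) w b b' hb hb' (by omega)
          (by omega) ?_ ?_ ?_
        · rcases deep_sh h1 with h | h
          · exact Or.inl h
          · exact Or.inr (by omega)
        · rcases deep_sh h1' with h | h
          · exact Or.inl h
          · exact Or.inr (by omega)
        · rcases h1 with h | h
          · rcases h1' with h' | h'
            · exact absurd (lev_two h h') hne
            · right
              unfold prc at h'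
              omega
          · left
            unfold prc at h
            omega
      subst hcc
      exact rays_conn hcg hvv hhor hG (deep_act hsp hpb hG hF hw hc) hv hv'

theorem ends (hpm : S.pr_min) (hcg : Geo (cd F P.D d P.s)) (hvv : S.cd_vt_vt) (hhor : S.cd_hor)
    (hbs : S.cd_bs) (hG : P.St G d M) (hF : FamOK P d F T) {p q : Cone F P.D} {v : Cone F P.D}
    (hv : Rep F d P p q (sh F P.D p) v) :
    p ∈ LL F P.D d P.s P.A p q ∧ E F d P p q p v := by
  obtain ⟨k1, k2, k3, k4, k5, k6⟩ := par_lin P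
  have hg := hG.geo
  have hself : Btw d (sh F P.D p) (sh F P.D p) (sh F P.D q) (10 * P.A) := by
    unfold Btw
    rw [hg.self]
    omega
  have hnd : ∀ c, lev F P.D c p = 0 → ¬ Deep F P.D d P.s P.A c (sh F P.D p) p q := by
    rintro c hc ⟨⟨b, hb, hwb⟩, h1, _⟩
    rcases h1 with h1 | h1
    · omega
    · have h2 := hpm hG hF c (sh F P.D p) b hb
      unfold prc at h1
      omega
  by_cases hl : ∃ c, 1 ≤ lev F P.D c p
  · obtain ⟨c, hc⟩ := hl
    have ha : ActC F P.D d P.s c p q := Or.inl hc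
    have hp : p ∈ Rays F d P p q c :=
      Or.inl ⟨lev F P.D c p, le_rfl, (lev_le_KK p q c).1, eq_vt hc⟩
    refine ⟨rays_LL ha hp, ?_⟩
    rcases hv with ⟨rfl, hn⟩ | ⟨c', hc', hv⟩
    · have hmem : bs F P.D (sh F P.D p) ∈ LL F P.D d P.s P.A p q :=
        Or.inl ⟨_, rfl, hself, hn⟩
      have h3 : (¬ (1 ≤ lev F P.D c p ∨ 20 * P.s < d (sh F P.D p) (prc F P.D d c p).1)) ∨
          ¬ (1 ≤ lev F P.D c q ∨ 20 * P.s < d (sh F P.D p) (prc F P.D d c q).1) := by
        by_contra hcon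
        push Not at hcon
        exact hn c ⟨⟨_, sh_mem hc, by rw [hg.self]; omega⟩, hcon.1, hcon.2⟩
      obtain ⟨u, hu, hwu⟩ := near_ray hcg hbs hG ha hmem h3
      exact (rays_conn hcg hvv hhor hG ha hp hu).trans (E_symm hcg hwu)
    · have hcc : c = c' := by
        by_contra hne
        have h0 : lev F P.D c' p = 0 := by
          by_contra h
          exact hne (lev_two hc (by omega))
        exact hnd c' h0 hc'
      subst hcc
      exact rays_conn hcg hvv hhor hG ha hp hv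
  · push Not at hl
    have h0 : ∀ c, ¬ 1 ≤ lev F P.D c p := fun c => by
      have := hl c
      omega
    have hn : ∀ c, ¬ Deep F P.D d P.s P.A c (sh F P.D p) p q := fun c =>
      hnd c (by have := hl c; omega)
    have hmem : bs F P.D (sh F P.D p) ∈ LL F P.D d P.s P.A p q := Or.inl ⟨_, rfl, hself, hn⟩
    rw [← eq_bs h0] at hmem
    refine ⟨hmem, ?_⟩
    rcases hv with ⟨rfl, _⟩ | ⟨c, hc, _⟩
    · rw [← eq_bs h0]
      exact Relation.ReflTransGen.refl
    · exact absurd hc (hn c)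

theorem lam_symm (hg : Geo d) (p q : Cone F P.D) (c : F.C) :
    lam F P.D d P.s c p q = lam F P.D d P.s c q p := by
  unfold lam
  rw [hg.symm]

theorem KK_symm (hg : Geo d) (p q : Cone F P.D) (c : F.C) :
    KK F P.D d P.s c p q = KK F P.D d P.s c q p := by
  unfold KK
  rw [lam_symm hg, max_comm (lev F P.D c p)]

theorem deep_symm {p q : Cone F P.D} {c : F.C} {w : X} :
    Deep F P.D d P.s P.A c w p q ↔ Deep F P.D d P.s P.A c w q p :=
  ⟨fun h => ⟨h.1, h.2.2, h.2.1⟩, fun h => ⟨h.1, h.2.2, h.2.1⟩⟩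

theorem act_symm (hg : Geo d) {p q : Cone F P.D} {c : F.C} (h : ActC F P.D d P.s c p q) :
    ActC F P.D d P.s c q p := by
  rcases h with h | h | h
  · exact Or.inr (Or.inl h)
  · exact Or.inl h
  · exact Or.inr (Or.inr (by rw [hg.symm]; exact h))

theorem rays_symm (hg : Geo d) {p q : Cone F P.D} {c : F.C} {v : Cone F P.D}
    (h : v ∈ Rays F d P p q c) : v ∈ Rays F d P q p c := by
  unfold Rays at h ⊢
  rw [KK_symm hg] at h
  exact h.symm

theorem LL_symm (hg : Geo d) {p q v : Cone F P.D} (h : v ∈ LL F P.D d P.s P.A p q) :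
    v ∈ LL F P.D d P.s P.A q p := by
  rcases h with ⟨w, rfl, h1, h2⟩ | ⟨c, h1, h2⟩
  · exact Or.inl ⟨w, rfl, btw_symm hg h1, fun c hc => h2 c (deep_symm.1 hc)⟩
  · exact rays_LL (act_symm hg h1) (rays_symm hg h2)

theorem rep_symm (hg : Geo d) {p q v : Cone F P.D} {w : X} (h : Rep F d P p q w v) :
    Rep F d P q p w v := by
  rcases h with ⟨rfl, h⟩ | ⟨c, h, hv⟩
  · exact Or.inl ⟨rfl, fun c hc => h c (deep_symm.1 hc)⟩
  · exact Or.inr ⟨c, deep_symm.1 h, rays_symm hg hv⟩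

theorem E_swap (hg : Geo d) {p q v w : Cone F P.D} (h : E F d P p q v w) :
    E F d P q p v w := by
  induction h with
  | refl => exact Relation.ReflTransGen.refl
  | tail _ hab ih =>
    exact Relation.ReflTransGen.tail ih ⟨LL_symm hg hab.1, LL_symm hg hab.2.1, hab.2.2⟩

end ConeP

end H5

open H5 in
theorem LL_conn (hsp : S.btw_split) (hpj : S.btw_proj) (hpb : S.pr_btw) (hpm : S.pr_min)
    (hcg : S.cone_geo) (hvv : S.cd_vt_vt) (hhor : S.cd_hor) (hbs : S.cd_bs) : S.LL_conn := by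
  intro G X _ _ d P F T M hG hF p q
  obtain ⟨k1, k2, k3, k4, k5, k6⟩ := par_lin P
  have hg := hG.geo
  have hcg' : Geo (cd F P.D d P.s) := hcg hG.geo hG.isom k3 k4
  have hx : Btw d (sh F P.D p) (sh F P.D p) (sh F P.D q) 0 := by
    unfold Btw
    rw [hg.self]
    omega
  have hy : Btw d (sh F P.D p) (sh F P.D q) (sh F P.D q) 0 := by
    unfold Btw
    rw [hg.self (sh F P.D q)]
  obtain ⟨v0, hv0⟩ := rep_ex (d := d) p q (sh F P.D p)
  obtain ⟨v1, hv1⟩ := rep_ex (d := d) p q (sh F P.D q)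
  obtain ⟨hp, h0⟩ := ends hpm hcg' hvv hhor hbs hG hF hv0
  obtain ⟨_, h1⟩ := ends hpm hcg' hvv hhor hbs hG hF (rep_symm hg hv1)
  have h1' : E F d P p q v1 q := E_symm hcg' (E_swap hg h1)
  have key : ∀ k, ∀ w v, Btw d (sh F P.D p) w (sh F P.D q) 0 → d w (sh F P.D q) = k →
      Rep F d P p q w v → E F d P p q v v1 := by
    intro k
    induction k with
    | zero =>
      intro w v hw hk hv
      exact step hsp hpj hpb hcg' hvv hhor hbs hG hF hw hy (by omega) hv hv1
    | succ k ih =>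
      intro w v hw hk hv
      obtain ⟨w', h2, h3⟩ := hg.geo w (sh F P.D q) 1 (by omega)
      have hw' : Btw d (sh F P.D p) w' (sh F P.D q) 0 := by
        unfold Btw at hw ⊢
        have e1 := hg.tri (sh F P.D p) w w'
        omega
      obtain ⟨v', hv'⟩ := rep_ex (d := d) p q w'
      exact (step hsp hpj hpb hcg' hvv hhor hbs hG hF hw hw' (by omega) hv hv').trans
        (ih w' v' hw' (by omega) hv')
  exact E_chain hp ((h0.trans (key _ _ _ hx rfl hv0)).trans h1')

end Mon
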