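import Pool.Agent.Work.MP_6f5fa7_al.Mon.StTool
import Pool.Agent.Work.MP_6f5fa7_al.Mon.StCone
import Pool.Agent.Work.MP_6f5fa7_al.Mon.StHyp

/-! Mon, item H6: hyperbolicity of the cone-off and consequences. -/
set_option autoImplicit false

namespace Mon

namespace H6

theorem le_Ex (ρ : ℕ) : ρ ≤ Ex ρ := Nat.le_mul_of_pos_right _ (pow_pos (by norm_num) _)

/-- linear consequences of the inequalities of `Par` -/
theorem par_lin (P : Par) : 1 ≤ P.δ1 ∧ 1000 * P.δ1 ≤ P.δ ∧ 1000000 * P.δ ≤ P.A ∧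
    1000000 * P.A ≤ P.s ∧ 1000 * P.δ1 ≤ P.D ∧ 1 ≤ P.s ∧ 1 ≤ P.D ∧ 1 ≤ P.A := by
  have h0 := P.h1
  have h1 := P.hδ
  have h2 := P.hΛs
  have h3 := P.hΛ
  have h4 := P.hA0
  have h5 := P.hD
  have h6 := P.hA
  have h7 := P.hs
  have h8 := le_Ex (1000 * P.Λ)
  obtain ⟨e, he⟩ : ∃ e, e = Ex (1000 * P.Λ) := ⟨_, rfl⟩
  rw [← he] at h4 h8
  refine ⟨h0, h1, ?_, h7, ?_, ?_, ?_, ?_⟩ <;> omega

section

variable {G X : Type} [Group G] [MulAction G X] {F : Fam G X} {D : ℕ} {d : X → X → ℕ} {s : ℕ}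

theorem adj_of_cd {v w : Cone F D} (h : cd F D d s v w = 1) : cadj F D d s v w := by
  have hne : {n | Chain (cadj F D d s) n v w}.Nonempty := by
    by_contra hcon
    rw [Set.not_nonempty_iff_eq_empty] at hcon
    have h1 : cd F D d s v w = sInf {n | Chain (cadj F D d s) n v w} := rfl
    rw [hcon, Nat.sInf_empty] at h1
    omega
  have h2 := Nat.sInf_mem hne
  have h3 : sInf {n | Chain (cadj F D d s) n v w} = 1 := h
  rw [h3] at h2
  obtain ⟨u, hu, huw⟩ := h2
  have h4 : u = w := huw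
  rw [← h4]
  exact hu

theorem vt_val {c : F.C} {y : F.Y c} {k : ℕ} (h1 : 1 ≤ k) (h2 : k ≤ D) :
    (vt F D c y k).1 = CV.cone c y.1 k := by
  have h0 : ¬ k = 0 := by omega
  simp [vt, h0, h2]

theorem vt_zero {c : F.C} {y : F.Y c} : vt F D c y 0 = bs F D y.1 := by
  simp [vt]

theorem vt_top {c : F.C} {y : F.Y c} {k : ℕ} (h : D < k) : vt F D c y k = ap F D c := by
  have h0 : ¬ k = 0 := by omega
  have h3 : ¬ k ≤ D := by omega
  simp [vt, h0, h3]

theorem sh_vt {c : F.C} {y : F.Y c} {k : ℕ} (h2 : k ≤ D) : sh F D (vt F D c y k) = y.1 := by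
  unfold sh
  rcases Nat.eq_zero_or_pos k with h | h
  · rw [h, vt_zero]
    rfl
  · rw [vt_val h h2]
    rfl

/-- neighbours of cone points -/
theorem nbr {v : Cone F D} {c : F.C} {y : F.Y c} {k : ℕ} (h1 : 1 ≤ k) (h2 : k ≤ D)
    (h : cadj F D d s v (vt F D c y k)) :
    (∃ y' : F.Y c, v = vt F D c y' k) ∨ v = vt F D c y (k + 1) ∨ v = vt F D c y (k - 1) := by
  obtain ⟨v0, hv⟩ := v
  unfold cadj at h
  rw [vt_val h1 h2] at h
  change CAdj F D d s v0 (CV.cone c y.1 k) ∨ CAdj F D d s (CV.cone c y.1 k) v0 at h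
  rcases h with h | h
  · cases h with
    | hor _ y0 _ _ _ =>
      left
      refine ⟨⟨y0, hv.1⟩, ?_⟩
      apply Subtype.ext
      rw [vt_val h1 h2]
    | up0 _ _ =>
      right; right
      apply Subtype.ext
      change _ = (vt F D c y 0).1
      rw [vt_zero]
      rfl
    | up _ _ k' =>
      right; right
      apply Subtype.ext
      have hk : 1 ≤ k' := hv.2.1
      rw [Nat.add_sub_cancel, vt_val hk (by omega)]
  · cases h with
    | hor _ _ y' _ _ =>
      left
      refine ⟨⟨y', hv.1⟩, ?_⟩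
      apply Subtype.ext
      rw [vt_val h1 h2]
    | up _ _ _ =>
      right; left
      apply Subtype.ext
      have hk : k + 1 ≤ D := hv.2.2
      rw [vt_val (by omega) hk]
    | top _ _ =>
      right; left
      apply Subtype.ext
      rw [vt_top (by omega)]
      rfl

/-- the vertical points below an exit lie on geodesics to the apex -/
theorem vertical (hg : Geo (cd F D d s))
    (hll : ∀ (c : F.C) (v w : Cone F D), lev F D c v ≤ lev F D c w + cd F D d s v w)
    (hlv : ∀ (c : F.C) (y : F.Y c) (k : ℕ), lev F D c (vt F D c y k) = min k (D + 1))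
    (hva : ∀ (c : F.C) (y : F.Y c) (k : ℕ), k ≤ D + 1 →
      cd F D d s (vt F D c y k) (ap F D c) = D + 1 - k)
    (c : F.C) (p : Cone F D) (hp : lev F D c p = 0) (y : F.Y c)
    (hy : cd F D d s p (vt F D c y D) + 1 = cd F D d s p (ap F D c)) :
    ∀ m, m ≤ D → cd F D d s p (vt F D c y (D - m)) + (m + 1) = cd F D d s p (ap F D c) := by
  intro m
  induction m with
  | zero => intro _; exact hy
  | succ m ih =>
    intro hm
    have ih' := ih (by omega)
    obtain ⟨k, hk⟩ : ∃ k, k = D - m := ⟨_, rfl⟩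
    rw [← hk] at ih'
    have hk1 : 1 ≤ k := by omega
    have hk2 : k ≤ D := by omega
    have hk3 : D - (m + 1) = k - 1 := by omega
    rw [hk3]
    have h1 := hll c (vt F D c y k) p
    rw [hlv, hp, hg.symm] at h1
    obtain ⟨u, hu1, hu2⟩ := hg.geo p (vt F D c y k) (cd F D d s p (vt F D c y k) - 1)
      (Nat.sub_le _ _)
    have hu3 : cd F D d s u (vt F D c y k) = 1 := by omega
    have h2 := hg.tri p u (ap F D c)
    rcases nbr hk1 hk2 (adj_of_cd hu3) with ⟨y', rfl⟩ | rfl | rfl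
    · rw [hva c y' k (by omega)] at h2
      omega
    · rw [hva c y (k + 1) (by omega)] at h2
      omega
    · omega

end

end H6

theorem cone_hyp (h0 : S.cone_geo) (h1 : S.LL_conn) (h2 : S.LL_short) (h3 : S.LL_slim) :
    S.cone_hyp := by
  intro G X _ _ d P F T M hG hF
  obtain ⟨_, _, _, _, _, hs, hD, _⟩ := H6.par_lin P
  exact (P.hguess (Cone F P.D) (cd F P.D d P.s) (LL F P.D d P.s P.A)
    (h0 hG.geo hG.isom hs hD) (h1 hG hF) (fun p q h v hv => h2 hG hF p q v h hv)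
    (fun p q r v hv => h3 hG hF p q r v hv)).1

theorem LL_near (h0 : S.cone_geo) (h1 : S.LL_conn) (h2 : S.LL_short) (h3 : S.LL_slim) :
    S.LL_near := by
  intro G X _ _ d P F T M hG hF p q v hv
  obtain ⟨_, _, _, _, _, hs, hD, _⟩ := H6.par_lin P
  exact (P.hguess (Cone F P.D) (cd F P.D d P.s) (LL F P.D d P.s P.A)
    (h0 hG.geo hG.isom hs hD) (h1 hG hF) (fun p q h v hv => h2 hG hF p q v h hv)
    (fun p q r v hv => h3 hG hF p q r v hv)).2.1 p q v hv

theorem near_LL (h0 : S.cone_geo) (h1 : S.LL_conn) (h2 : S.LL_short) (h3 : S.LL_slim) :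
    S.near_LL := by
  intro G X _ _ d P F T M hG hF p q w hw
  obtain ⟨_, _, _, _, _, hs, hD, _⟩ := H6.par_lin P
  obtain ⟨v, hv, hvw⟩ := (P.hguess (Cone F P.D) (cd F P.D d P.s) (LL F P.D d P.s P.A)
    (h0 hG.geo hG.isom hs hD) (h1 hG hF) (fun p q h v hv => h2 hG hF p q v h hv)
    (fun p q r v hv => h3 hG hF p q r v hv)).2.2 p q w hw
  exact ⟨v, hv, hvw⟩

theorem exit_proj (h0 : S.cone_geo) (h1 : S.lev_lip) (h2 : S.lev_bs) (h3 : S.lev_vt)
    (h4 : S.lev_vt_ne) (h5 : S.lev_ap) (h6 : S.cd_vt_ap) (h7 : S.stay) (h8 : S.near_LL) :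
    S.exit_proj := by
  intro G X _ _ d P F T M hG hF c x e he
  obtain ⟨q1, q2, q3, q4, q5, hs, hD, q6⟩ := H6.par_lin P
  have hg := hG.geo
  have hi := hG.isom
  have hge : Geo (cd F P.D d P.s) := h0 hg hi hs hD
  have hll : ∀ (c : F.C) (v w : Cone F P.D),
      lev F P.D c v ≤ lev F P.D c w + cd F P.D d P.s v w := fun c v w => h1 hg hi hs hD c v w
  have hlv : ∀ (c : F.C) (y : F.Y c) (k : ℕ), lev F P.D c (vt F P.D c y k) = min k (P.D + 1) :=
    fun c y k => h3 hg hi hs hD c y k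
  have hva : ∀ (c : F.C) (y : F.Y c) (k : ℕ), k ≤ P.D + 1 →
      cd F P.D d P.s (vt F P.D c y k) (ap F P.D c) = P.D + 1 - k :=
    fun c y k hk => h6 hg hi hs hD c y k hk
  have hlb : ∀ (c : F.C) (x : X), lev F P.D c (bs F P.D x) = 0 :=
    fun c x => h2 hg hi hs hD c x
  obtain ⟨y, rfl, hy⟩ := he
  have hvert := H6.vertical hge hll hlv hva c (bs F P.D x) (hlb c x) y hy (2 * P.δ1) (by omega)
  obtain ⟨k, hk⟩ : ∃ k, k = P.D - 2 * P.δ1 := ⟨_, rfl⟩
  rw [← hk] at hvert
  have hbtw : Btw (cd F P.D d P.s) (bs F P.D x) (vt F P.D c y k) (ap F P.D c) 0 := by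
    unfold Btw
    rw [hva c y k (by omega)]
    omega
  obtain ⟨v, hv, hvd⟩ := h8 hG hF (bs F P.D x) (ap F P.D c) (vt F P.D c y k) hbtw
  have hvd' : cd F P.D d P.s (vt F P.D c y k) v ≤ P.δ1 := by
    rw [hge.symm]
    exact hvd
  have hl1 := hll c (vt F P.D c y k) v
  have hl2 := hll c v (vt F P.D c y k)
  rw [hlv] at hl1 hl2
  have hst := h7 hg hi hs hD c (vt F P.D c y k) v P.δ1 hvd' (by rw [hlv]; omega)
    (by rw [hlv]; omega)
  rw [hlv, H6.sh_vt (by omega)] at hst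
  have hpow : P.s * 2 ^ (min k (P.D + 1) + P.δ1) ≤ P.s * 2 ^ P.D :=
    Nat.mul_le_mul_left _ (Nat.pow_le_pow_right (by norm_num) (by omega))
  have hst' : d y.1 (sh F P.D v) ≤ P.δ1 * (P.s * 2 ^ P.D) :=
    hst.trans (Nat.mul_le_mul_left _ hpow)
  have key : sh F P.D v = (pr F d c x).1 := by
    rcases hv with ⟨w, rfl, _, _⟩ | ⟨c', _, hray⟩
    · rw [hlb] at hl1 hl2
      omega
    · by_cases hcc : c' = c
      · subst hcc
        rcases hray with ⟨j, _, _, rfl⟩ | ⟨j, hj, _, rfl⟩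
        · rw [hlv] at hl1 hl2
          exact H6.sh_vt (by omega)
        · have hlap : lev F P.D c' (ap F P.D c') = P.D + 1 := h5 hg hi hs hD c'
          rw [hlap] at hj
          rw [hlv] at hl1 hl2
          omega
      · rcases hray with ⟨j, _, _, rfl⟩ | ⟨j, _, _, rfl⟩
        · have h9 := h4 hg hi hs hD c' c (prc F P.D d c' (bs F P.D x)) j hcc
          rw [h9] at hl1
          omega
        · have h9 := h4 hg hi hs hD c' c (prc F P.D d c' (ap F P.D c)) j hcc
          rw [h9] at hl1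
          omega
  rw [← key]
  exact hst'

theorem cone_thick (h0 : S.cone_geo) (h1 : S.btw_proj) (h2 : S.lev_bs) (h3 : S.cd_bs)
    (h4 : S.pr_mid) (h5 : S.LL_near) : S.cone_thick := by
  intro G X _ _ d P F T M hG hF x y z B h hB
  obtain ⟨q1, q2, q3, q4, q5, hs, hD, q6⟩ := H6.par_lin P
  have hg := hG.geo
  have hi := hG.isom
  have hge : Geo (cd F P.D d P.s) := h0 hg hi hs hD
  have hlb : ∀ (c : F.C) (x : X), lev F P.D c (bs F P.D x) = 0 :=
    fun c x => h2 hg hi hs hD c x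
  obtain ⟨z', hz1, hz2⟩ := h1 hg hG.hyp h
  have hz3 : d z z' ≤ 3 * P.s := by omega
  -- a point of `LL` close to `bs z`
  have hv : ∃ v ∈ LL F P.D d P.s P.A (bs F P.D x) (bs F P.D y),
      cd F P.D d P.s (bs F P.D z) v ≤ B + 10 := by
    by_cases hdeep : ∃ c, Deep F P.D d P.s P.A c z' (bs F P.D x) (bs F P.D y)
    · obtain ⟨c, ⟨w, hw, hw1⟩, hx, hy⟩ := hdeep
      rw [hlb] at hx hy
      have hx' : 20 * P.s < d z' (pr F d c x).1 := hx.resolve_left (by omega)
      have hy' : 20 * P.s < d z' (pr F d c y).1 := hy.resolve_left (by omega)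
      have hm := h4 hG hF c x y z' w 0 (50 * P.A) hz1 hw hw1
      unfold Btw at hm
      have hBc := hB c
      have t1 := hg.tri z' w (pr F d c x).1
      have t2 := hg.tri z' w (pr F d c y).1
      have t3 := hg.symm w (pr F d c x).1
      have t4 := hg.tri z z' (pr F d c x).1
      have hact : ActC F P.D d P.s c (bs F P.D x) (bs F P.D y) := by
        right; right
        change 20 * P.s < d (pr F d c x).1 (pr F d c y).1
        omega
      refine ⟨bs F P.D (pr F d c x).1, Or.inr ⟨c, hact, Or.inl ⟨0, ?_, Nat.zero_le _, ?_⟩⟩, ?_⟩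
      · rw [hlb]
      · rw [H6.vt_zero]
        rfl
      · refine (h3 hg hi hs hD z (pr F d c x).1).trans ?_
        have t5 : d z (pr F d c x).1 ≤ (B + 3) * P.s := by
          have : (B + 3) * P.s = B * P.s + 3 * P.s := by ring
          omega
        have t6 : d z (pr F d c x).1 / P.s ≤ B + 3 :=
          Nat.div_le_of_le_mul (by rw [Nat.mul_comm]; exact t5)
        omega
    · push Not at hdeep
      refine ⟨bs F P.D z', Or.inl ⟨z', rfl, ?_, hdeep⟩, ?_⟩
      · change Btw d x z' y (10 * P.A)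
        unfold Btw at hz1 ⊢
        omega
      · refine (h3 hg hi hs hD z z').trans ?_
        have t6 : d z z' / P.s ≤ 3 := Nat.div_le_of_le_mul (by rw [Nat.mul_comm]; exact hz3)
        omega
  obtain ⟨v, hv1, hv2⟩ := hv
  obtain ⟨w, hw1, hw2⟩ := h5 hG hF (bs F P.D x) (bs F P.D y) v hv1
  have t1 := hge.tri (bs F P.D z) v w
  have t2 := hge.tri (bs F P.D x) w (bs F P.D z)
  have t3 := hge.tri (bs F P.D z) w (bs F P.D y)
  have t4 := hge.symm (bs F P.D z) w
  unfold Btw at hw1 ⊢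
  omega

end Mon
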