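import Pool.Agent.Work.MP_6f5fa7_al.Mon.StCone

/-!
Mon, item K1: slim intervals imply the four point condition (helper5).
-/
set_option autoImplicit false

namespace Mon

/-- a discrete geodesic path from `x` to `y` -/
private theorem K1_path {V : Type} {e : V → V → ℕ} (hg : Geo e) (x y : V) :
    ∃ v : ℕ → V, v 0 = x ∧ ∀ i, i ≤ e x y → e (v i) y = e x y - i ∧
      (i < e x y → e (v i) (v (i + 1)) = 1) := by
  classical
  have hstep : ∀ a : V, ∃ b : V, 1 ≤ e a y → e a b = 1 ∧ e b y = e a y - 1 := by
    intro a
    by_cases h : 1 ≤ e a y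
    · obtain ⟨b, hb1, hb2⟩ := hg.geo a y 1 h
      exact ⟨b, fun _ => ⟨hb1, hb2⟩⟩
    · exact ⟨a, fun h' => absurd h' h⟩
  choose f hf using hstep
  refine ⟨fun i => f^[i] x, rfl, ?_⟩
  have key : ∀ i, i ≤ e x y → e (f^[i] x) y = e x y - i := by
    intro i
    induction i with
    | zero => intro _; simp
    | succ i ih =>
      intro hi
      have h1 := ih (by omega)
      have h2 := (hf (f^[i] x) (by omega)).2
      rw [Function.iterate_succ_apply', h2, h1]
      omega
  intro i hi
  refine ⟨key i hi, fun hlt => ?_⟩
  have h1 := key i hi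
  have h2 := (hf (f^[i] x) (by omega)).1
  show e (f^[i] x) (f^[i + 1] x) = 1
  rw [Function.iterate_succ_apply', h2]

theorem slim_hyp : S.slim_hyp := by
  intro V e σ hg h
  -- transitional points
  have trans : ∀ x y t : V, ∃ m, Btw e x m y 0 ∧
      2 * e t m + e x y ≤ e t x + e t y + 4 * σ + 2 := by
    intro x y t
    obtain ⟨v, hv0, hv⟩ := K1_path hg x y
    have hbtw : ∀ i, i ≤ e x y → Btw e x (v i) y 0 := by
      have hx : ∀ i, i ≤ e x y → e x (v i) ≤ i := by
        intro i
        induction i with
        | zero => intro _; rw [hv0, hg.self]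
        | succ i ih =>
          intro hi
          have h1 := ih (by omega)
          have h2 := (hv i (by omega)).2 (by omega)
          have h3 := hg.tri x (v i) (v (i + 1))
          omega
      intro i hi
      have h1 := hx i hi
      have h2 := (hv i hi).1
      unfold Btw
      omega
    let Q : ℕ → Prop := fun i => ∃ u, Btw e t u y 0 ∧ e (v i) u ≤ σ
    have hQd : Q (e x y) := by
      refine ⟨y, ?_, ?_⟩
      · unfold Btw; rw [hg.self]
      · have := (hv (e x y) le_rfl).1
        omega
    classical
    have hex : ∃ i, Q i := ⟨_, hQd⟩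
    let i := Nat.find hex
    have hi : Q i := Nat.find_spec hex
    have hile : i ≤ e x y := Nat.find_min' hex hQd
    have hP : ∃ u, Btw e x u t 0 ∧ e (v i) u ≤ σ + 1 := by
      rcases Nat.eq_zero_or_pos i with h0 | hpos
      · refine ⟨x, ?_, ?_⟩
        · unfold Btw; rw [hg.self]; omega
        · rw [h0, hv0, hg.self]; omega
      · have hnot : ¬ Q (i - 1) := Nat.find_min hex (by show i - 1 < i; omega)
        obtain ⟨u, hu, hu2⟩ := h x y t (v (i - 1)) (hbtw (i - 1) (by omega))
        rcases hu with hu | hu
        · refine ⟨u, hu, ?_⟩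
          have h1 := (hv (i - 1) (by omega)).2 (by omega)
          have h2 : i - 1 + 1 = i := by omega
          rw [h2] at h1
          have h3 := hg.tri (v i) (v (i - 1)) u
          have h4 := hg.symm (v i) (v (i - 1))
          omega
        · exact absurd ⟨u, hu, hu2⟩ hnot
    obtain ⟨u, hu1, hu2⟩ := hP
    obtain ⟨w, hw1, hw2⟩ := hi
    refine ⟨v i, hbtw i hile, ?_⟩
    have hb := hbtw i hile
    unfold Btw at hb hu1 hw1
    have t1 := hg.tri x u (v i)
    have t2 := hg.tri t u (v i)
    have t3 := hg.tri t w (v i)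
    have t4 := hg.tri (v i) w y
    have t5 := hg.tri x (v i) y
    have s1 := hg.symm u (v i)
    have s2 := hg.symm t u
    have s3 := hg.symm w (v i)
    have s4 := hg.symm t x
    have s5 := hg.symm u t
    omega
  intro x y z t
  obtain ⟨m, hm, hm2⟩ := trans x y t
  obtain ⟨u, hu, hu2⟩ := h x y z m hm
  have q1 := hg.tri t u x
  have q2 := hg.tri t u z
  have q3 := hg.tri t u y
  have q4 := hg.tri t m u
  have s1 := hg.symm u x
  have s2 := hg.symm u z
  have s4 := hg.symm t x
  have s5 := hg.symm t y
  have s6 := hg.symm t z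
  have s7 := hg.symm z y
  have s8 := hg.symm u y
  have l1 := le_max_left (e x z + e y t) (e x t + e y z)
  have l2 := le_max_right (e x z + e y t) (e x t + e y z)
  rcases hu with hu | hu
  · unfold Btw at hu
    omega
  · unfold Btw at hu
    omega

end Mon
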