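import Pool.Agent.Work.MP_6f5fa7_al.Mon.StCone

/-! Mon, item K2: the guessing geodesics lemma. -/
set_option autoImplicit false

namespace Mon

section K2

variable {V : Type} {e : V → V → ℕ}

/-- Powers of two beat linear functions. -/
private theorem K2_pow (a k : ℕ) (hk : 4 * a + 2 ≤ k) : a * (k + 3) ≤ 2 ^ k := by
  induction k, hk using Nat.le_induction with
  | base =>
    obtain ⟨j, hj⟩ : ∃ j, j = 2 * a + 1 := ⟨_, rfl⟩
    have h1 : j + 1 ≤ 2 ^ j := Nat.lt_two_pow_self
    have h2 : 4 * a + 2 = j + j := by omega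
    rw [h2, pow_add]
    have h3 : (j + 1) * (j + 1) ≤ 2 ^ j * 2 ^ j := Nat.mul_le_mul h1 h1
    have h4 : a * (j + j + 3) ≤ (j + 1) * (j + 1) := by
      rw [hj]
      nlinarith
    exact h4.trans h3
  | succ k hk ih =>
    have h1 : a * (k + 1 + 3) ≤ 2 * (a * (k + 3)) := by nlinarith
    rw [pow_succ]
    omega

/-- The constant `t0`. -/
private theorem K2_const (h : ℕ) :
    ∃ t0 : ℕ, 2 * h ≤ t0 ∧ ∀ t, t0 < t → ∃ k, 6 * t + 4 ≤ 2 ^ k ∧ (k + 3) * h < t := by
  obtain ⟨K0, hK0⟩ : ∃ K0, K0 = 4 * (12 * h + 7) + 2 := ⟨_, rfl⟩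
  refine ⟨(K0 + 3) * h, ?_, ?_⟩
  · nlinarith
  · intro t ht
    have hex : ∃ k, 6 * t + 4 ≤ 2 ^ k := ⟨6 * t + 4, Nat.lt_two_pow_self.le⟩
    classical
    refine ⟨Nat.find hex, Nat.find_spec hex, ?_⟩
    generalize hk : Nat.find hex = k
    rcases lt_or_ge k K0 with h1 | h1
    · calc (k + 3) * h ≤ (K0 + 3) * h := Nat.mul_le_mul_right _ (by omega)
        _ < t := ht
    · by_contra hc
      have hc' : t ≤ (k + 3) * h := not_lt.1 hc
      have h2 : ¬ 6 * t + 4 ≤ 2 ^ (k - 1) := by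
        apply Nat.find_min hex
        omega
      have h3 : (12 * h + 7) * (k + 3) ≤ 2 ^ k := K2_pow _ _ (by omega)
      have h4 : 2 ^ k = 2 * 2 ^ (k - 1) := by
        rw [← pow_succ']
        congr 1
        omega
      nlinarith

private theorem K2_steps (hg : Geo e) (β : ℕ → V) (i j : ℕ) (hij : i ≤ j)
    (hs : ∀ l, i ≤ l → l < j → e (β l) (β (l + 1)) ≤ 1) : e (β i) (β j) ≤ j - i := by
  induction j, hij using Nat.le_induction with
  | base => rw [hg.self]; omega
  | succ j hj ih =>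
    have h1 := ih (fun l h1 h2 => hs l h1 (by omega))
    have h2 := hs j hj (by omega)
    have h3 := hg.tri (β i) (β j) (β (j + 1))
    omega

/-- A path whose length exceeds the distance of its ends by at most 2 is almost geodesic. -/
private theorem K2_ag (hg : Geo e) (β : ℕ → V) (M : ℕ)
    (hs : ∀ l, l < M → e (β l) (β (l + 1)) ≤ 1) (hM : M ≤ e (β 0) (β M) + 2) (i j : ℕ)
    (hij : i ≤ j) (hj : j ≤ M) : j ≤ i + e (β i) (β j) + 2 := by
  have h1 := K2_steps hg β 0 i (Nat.zero_le _) (fun l _ h2 => hs l (by omega))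
  have h2 := K2_steps hg β j M hj (fun l _ h2 => hs l (by omega))
  have h3 := hg.tri (β 0) (β i) (β M)
  have h4 := hg.tri (β i) (β j) (β M)
  omega

/-- Geodesic paths. -/
private theorem K2_path (hg : Geo e) (N : ℕ) : ∀ p q : V, e p q = N →
    ∃ β : ℕ → V, β 0 = p ∧ β (N + 1) = q ∧ (∀ l, l < N + 1 → e (β l) (β (l + 1)) ≤ 1) ∧
      ∀ l, l ≤ N + 1 → Btw e p (β l) q 0 := by
  induction N with
  | zero =>
    intro p q h
    refine ⟨fun l => if l = 0 then p else q, by simp, by simp, ?_, ?_⟩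
    · intro l hl
      have : l = 0 := by omega
      subst this
      simp only [if_true, zero_add, one_ne_zero, if_false]
      omega
    · intro l _
      unfold Btw
      by_cases hl : l = 0
      · simp only [hl, if_true]
        have := hg.self p
        omega
      · simp only [hl, if_false]
        have := hg.self q
        omega
  | succ N ih =>
    intro p q h
    obtain ⟨z, hz1, hz2⟩ := hg.geo p q 1 (by omega)
    obtain ⟨β, h0, h1, h2, h3⟩ := ih z q (by omega)
    refine ⟨fun l => if l = 0 then p else β (l - 1), by simp, ?_, ?_, ?_⟩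
    · simp only [Nat.add_eq_zero_iff, one_ne_zero, and_false, if_false, Nat.add_sub_cancel]
      exact h1
    · intro l hl
      rcases Nat.eq_zero_or_pos l with h4 | h4
      · subst h4
        simp only [if_true, zero_add, one_ne_zero, if_false, Nat.sub_self, h0]
        omega
      · obtain ⟨l, rfl⟩ : ∃ k, l = k + 1 := ⟨l - 1, by omega⟩
        simp only [Nat.add_eq_zero_iff, one_ne_zero, and_false, if_false, Nat.add_sub_cancel]
        exact h2 l (by omega)
    · intro l hl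
      unfold Btw
      rcases Nat.eq_zero_or_pos l with h4 | h4
      · subst h4
        simp only [if_true]
        have := hg.self p
        omega
      · obtain ⟨l, rfl⟩ : ∃ k, l = k + 1 := ⟨l - 1, by omega⟩
        simp only [Nat.add_eq_zero_iff, one_ne_zero, and_false, if_false, Nat.add_sub_cancel]
        have h5 := h3 l (by omega)
        unfold Btw at h5
        have h6 := hg.tri p z (β l)
        omega

variable {L : V → V → Set V} {h : ℕ}

/-- Step 1: the sets `L` are close to paths, with a logarithmic bound. -/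
private theorem K2_log (hg : Geo e)
    (hb : ∀ p q, e p q ≤ 1 → ∀ v ∈ L p q, e p v ≤ h)
    (hc : ∀ p q r, ∀ v ∈ L p q, ∃ w, (w ∈ L p r ∨ w ∈ L r q) ∧ e v w ≤ h)
    (β : ℕ → V) (k : ℕ) : ∀ a b : ℕ, a ≤ b → b ≤ a + 2 ^ k →
    (∀ l, a ≤ l → l < b → e (β l) (β (l + 1)) ≤ 1) → ∀ v ∈ L (β a) (β b),
      ∃ i, a ≤ i ∧ i ≤ b ∧ e v (β i) ≤ (k + 1) * h := by
  induction k with
  | zero =>
    intro a b hab hb' hs v hv
    refine ⟨a, le_rfl, hab, ?_⟩
    have h1 := K2_steps hg β a b hab hs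
    have h2 := hb (β a) (β b) (by
      rw [pow_zero] at hb'
      omega) v hv
    rw [hg.symm]
    omega
  | succ k ih =>
    intro a b hab hb' hs v hv
    have h0 : 2 ^ (k + 1) = 2 ^ k + 2 ^ k := by rw [pow_succ]; omega
    obtain ⟨c, hc1, hc2, hc3, hc4⟩ : ∃ c, a ≤ c ∧ c ≤ b ∧ c ≤ a + 2 ^ k ∧ b ≤ c + 2 ^ k := by
      rcases le_total b (a + 2 ^ k) with h1 | h1
      · exact ⟨b, hab, le_rfl, h1, by omega⟩
      · exact ⟨a + 2 ^ k, by omega, h1, le_rfl, by omega⟩
    obtain ⟨w, hw, hvw⟩ := hc (β a) (β b) (β c) v hv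
    have hkk : (k + 1 + 1) * h = (k + 1) * h + h := by ring
    rcases hw with hw | hw
    · obtain ⟨i, h1, h2, h3⟩ := ih a c hc1 hc3 (fun l h4 h5 => hs l h4 (by omega)) w hw
      refine ⟨i, h1, by omega, ?_⟩
      have h4 := hg.tri v w (β i)
      omega
    · obtain ⟨i, h1, h2, h3⟩ := ih c b hc2 hc4 (fun l h4 h5 => hs l (by omega) h5) w hw
      refine ⟨i, by omega, h2, ?_⟩
      have h4 := hg.tri v w (β i)
      omega

/-- Step 2: the sets `L` are close to geodesics. -/
private theorem K2_close (hg : Geo e)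
    (hb : ∀ p q, e p q ≤ 1 → ∀ v ∈ L p q, e p v ≤ h)
    (hc : ∀ p q r, ∀ v ∈ L p q, ∃ w, (w ∈ L p r ∨ w ∈ L r q) ∧ e v w ≤ h)
    (t0 : ℕ) (ht0 : 2 * h ≤ t0) (ht : ∀ t, t0 < t → ∃ k, 6 * t + 4 ≤ 2 ^ k ∧ (k + 3) * h < t)
    (β : ℕ → V) (M : ℕ) : ∀ a b : ℕ, a ≤ b → b - a ≤ M →
    (∀ l, a ≤ l → l < b → e (β l) (β (l + 1)) ≤ 1) →
    (∀ i j, a ≤ i → i ≤ j → j ≤ b → j ≤ i + e (β i) (β j) + 2) → ∀ v ∈ L (β a) (β b),
      ∃ i, a ≤ i ∧ i ≤ b ∧ e v (β i) ≤ t0 := by
  induction M using Nat.strong_induction_on with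
  | _ M ih =>
    intro a b hab hM hs hag v hv
    obtain ⟨c, hc1, hc2⟩ := Finset.exists_min_image (Finset.Icc a b) (fun i => e v (β i))
      ⟨a, Finset.mem_Icc.2 ⟨le_rfl, hab⟩⟩
    obtain ⟨hac, hcb⟩ := Finset.mem_Icc.1 hc1
    by_contra hcon
    push Not at hcon
    obtain ⟨t, htd⟩ : ∃ t, t = e v (β c) := ⟨_, rfl⟩
    have htt : t0 < t := by
      rw [htd]
      exact hcon c hac hcb
    obtain ⟨k, hk1, hk2⟩ := ht t htt
    -- left end
    obtain ⟨x, w, hax, hxc, hcx, hw, hvw⟩ : ∃ x w, a ≤ x ∧ x ≤ c ∧ c ≤ x + (3 * t + 2) ∧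
        w ∈ L (β x) (β b) ∧ e v w ≤ h := by
      rcases le_or_gt (a + (3 * t + 2)) c with h1 | h1
      · obtain ⟨w, hw, hvw⟩ := hc (β a) (β b) (β (c - (3 * t + 2))) v hv
        rcases hw with hw | hw
        · exfalso
          obtain ⟨i, h2, h3, h4⟩ := ih (c - (3 * t + 2) - a) (by omega) a (c - (3 * t + 2))
            (by omega) le_rfl (fun l h5 h6 => hs l h5 (by omega))
            (fun i j h5 h6 h7 => hag i j h5 h6 (by omega)) w hw
          have h5 := hag i c h2 (by omega) hcb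
          have h6 := hg.tri (β i) v (β c)
          have h7 := hg.tri v w (β i)
          have h8 := hg.symm (β i) v
          omega
        · exact ⟨c - (3 * t + 2), w, by omega, by omega, by omega, hw, hvw⟩
      · exact ⟨a, v, le_rfl, hac, by omega, hv, by rw [hg.self]; omega⟩
    -- right end
    obtain ⟨y, w2, hcy, hyb, hyc, hw2, hvw2⟩ : ∃ y w2, c ≤ y ∧ y ≤ b ∧ y ≤ c + (3 * t + 2) ∧
        w2 ∈ L (β x) (β y) ∧ e v w2 ≤ 2 * h := by
      rcases le_or_gt (c + (3 * t + 2)) b with h1 | h1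
      · obtain ⟨w2, hw2, hww2⟩ := hc (β x) (β b) (β (c + (3 * t + 2))) w hw
        have h0 := hg.tri v w w2
        rcases hw2 with hw2 | hw2
        · exact ⟨c + (3 * t + 2), w2, by omega, h1, le_rfl, hw2, by omega⟩
        · exfalso
          obtain ⟨i, h2, h3, h4⟩ := ih (b - (c + (3 * t + 2))) (by omega) (c + (3 * t + 2)) b
            h1 le_rfl (fun l h5 h6 => hs l (by omega) h6)
            (fun i j h5 h6 h7 => hag i j (by omega) h6 h7) w2 hw2
          have h5 := hag c i hac (by omega) h3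
          have h6 := hg.tri (β c) v (β i)
          have h7 := hg.tri v w2 (β i)
          have h8 := hg.symm (β c) v
          omega
      · exact ⟨b, w, hcb, le_rfl, by omega, hw, by omega⟩
    obtain ⟨i, h1, h2, h3⟩ := K2_log hg hb hc β k x y (by omega) (by omega)
      (fun l h4 h5 => hs l (by omega) (by omega)) w2 hw2
    have h4 : e v (β c) ≤ e v (β i) := hc2 i (Finset.mem_Icc.2 ⟨by omega, by omega⟩)
    have h5 := hg.tri v w2 (β i)
    have h6 : (k + 3) * h = (k + 1) * h + 2 * h := by ring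
    omega

/-- Discrete intermediate values. -/
private theorem K2_ivt (a : ℕ → ℕ) (s m : ℕ) (h0 : a 0 ≤ s) (hm : s < a m) :
    ∃ i, i < m ∧ a i ≤ s ∧ s < a (i + 1) := by
  induction m with
  | zero => omega
  | succ m ih =>
    rcases lt_or_ge s (a m) with h1 | h1
    · obtain ⟨i, h2, h3, h4⟩ := ih h1
      exact ⟨i, by omega, h3, h4⟩
    · exact ⟨m, by omega, h1, hm⟩

end K2

theorem guess (hsl : S.slim_hyp) : S.guess := by
  intro h
  obtain ⟨t0, ht0, ht⟩ := K2_const h
  refine ⟨24 * t0 + 12 * h + 14, by omega, fun δ1 hδ1 => ?_⟩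
  intro V e L hg ha hb hc
  -- second conclusion, with the bound t0
  have c2 : ∀ p q, ∀ v ∈ L p q, ∃ w, Btw e p w q 0 ∧ e v w ≤ t0 := by
    intro p q v hv
    obtain ⟨β, h0, h1, h2, h3⟩ := K2_path hg (e p q) p q rfl
    obtain ⟨i, -, h4, h5⟩ := K2_close hg hb hc t0 ht0 ht β (e p q + 1) 0 (e p q + 1)
      (Nat.zero_le _) (by omega) (fun l _ h5 => h2 l h5)
      (fun i j _ h6 h7 => K2_ag hg β (e p q + 1) h2 (by rw [h0, h1]; omega) i j h6 h7) v
      (by rw [h0, h1]; exact hv)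
    exact ⟨β i, h3 i h4, h5⟩
  -- third conclusion
  have c3 : ∀ p q w, Btw e p w q 0 → ∃ v ∈ L p q, e v w ≤ 3 * t0 + h + 2 := by
    intro p q w hw
    have hN : e p q = e p w + e w q := by
      have h1 := hg.tri p w q
      unfold Btw at hw
      omega
    obtain ⟨β1, h10, h11, h12, -⟩ := K2_path hg (e p w) p w rfl
    obtain ⟨β2, h20, h21, h22, -⟩ := K2_path hg (e w q) w q rfl
    obtain ⟨s, hs⟩ : ∃ s, s = e p w := ⟨_, rfl⟩
    obtain ⟨r, hr⟩ : ∃ r, r = e w q := ⟨_, rfl⟩
    rw [← hs] at h11 h12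
    rw [← hr] at h21 h22
    obtain ⟨β, hβ⟩ : ∃ β : ℕ → V, β = fun i => if i ≤ s + 1 then β1 i else β2 (i - (s + 1)) :=
      ⟨_, rfl⟩
    have b1 : ∀ i, i ≤ s + 1 → β i = β1 i := fun i hi => by
      rw [hβ]
      exact if_pos hi
    have b2 : ∀ i, s + 1 ≤ i → β i = β2 (i - (s + 1)) := fun i hi => by
      rcases hi.eq_or_lt with h1 | h1
      · rw [← h1, b1 _ le_rfl, h11, Nat.sub_self, h20]
      · rw [hβ]
        exact if_neg (by omega)
    have e0 : β 0 = p := by rw [b1 0 (by omega), h10]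
    have e1 : β (s + 1) = w := by rw [b1 _ le_rfl, h11]
    have e2 : β (s + r + 2) = q := by
      rw [b2 _ (by omega), show s + r + 2 - (s + 1) = r + 1 by omega, h21]
    have hst : ∀ l, l < s + r + 2 → e (β l) (β (l + 1)) ≤ 1 := by
      intro l hl
      rcases lt_or_ge l (s + 1) with h1 | h1
      · rw [b1 l (by omega), b1 (l + 1) (by omega)]
        exact h12 l h1
      · rw [b2 l h1, b2 (l + 1) (by omega), show l + 1 - (s + 1) = l - (s + 1) + 1 by omega]
        exact h22 _ (by omega)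
    have hag : ∀ i j, i ≤ j → j ≤ s + r + 2 → j ≤ i + e (β i) (β j) + 2 :=
      fun i j => K2_ag hg β (s + r + 2) hst (by rw [e0, e2]; omega) i j
    obtain ⟨m, v, hv0, hvm, hvL, hvs⟩ := ha p q
    have hnear : ∀ i, ∃ a, i ≤ m → a ≤ s + r + 2 ∧ e (v i) (β a) ≤ t0 := by
      intro i
      by_cases hi : i ≤ m
      · obtain ⟨a, -, h4, h5⟩ := K2_close hg hb hc t0 ht0 ht β (s + r + 2) 0 (s + r + 2)
          (Nat.zero_le _) (by omega) (fun l _ h5 => hst l h5)
          (fun i j _ h6 h7 => hag i j h6 h7) (v i) (by rw [e0, e2]; exact hvL i hi)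
        exact ⟨a, fun _ => ⟨h4, h5⟩⟩
      · exact ⟨0, fun h1 => absurd h1 hi⟩
    choose a ha' using hnear
    rcases lt_or_ge (s + 1) (a 0) with h1 | h1
    · -- the first point is close
      obtain ⟨h2, h3⟩ := ha' 0 (Nat.zero_le _)
      refine ⟨v 0, hvL 0 (Nat.zero_le _), ?_⟩
      have h4 := hag 0 (a 0) (Nat.zero_le _) h2
      rw [e0, ← hv0] at h4
      rw [hv0]
      omega
    · rcases le_or_gt (a m) (s + 1) with h2 | h2
      · -- the last point is close
        obtain ⟨h3, h4⟩ := ha' m le_rfl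
        refine ⟨v m, hvL m le_rfl, ?_⟩
        have h5 := hag (a m) (s + r + 2) h3 le_rfl
        rw [e2, ← hvm] at h5
        have h6 := hg.symm (β (a m)) (v m)
        rw [hvm, hg.symm q w]
        omega
      · obtain ⟨i, h3, h4, h5⟩ := K2_ivt a (s + 1) m h1 h2
        obtain ⟨h6, h7⟩ := ha' i (by omega)
        obtain ⟨h8, h9⟩ := ha' (i + 1) (by omega)
        refine ⟨v i, hvL i (by omega), ?_⟩
        have h13 := hag (a i) (a (i + 1)) (by omega) h8
        have h14 := hvs i h3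
        have h15 := hg.tri (β (a i)) (v i) (β (a (i + 1)))
        have h16 := hg.tri (v i) (v (i + 1)) (β (a (i + 1)))
        have h17 := hg.symm (β (a i)) (v i)
        have h18 := K2_steps hg β (a i) (s + 1) h4 (fun l _ h19 => hst l (by omega))
        have h19 := hg.tri (v i) (β (a i)) (β (s + 1))
        rw [e1] at h18 h19
        omega
  refine ⟨?_, ?_, ?_⟩
  · -- hyperbolicity
    have h1 : Hyp (6 * (4 * t0 + 2 * h + 2) + 2) e := by
      apply hsl hg
      intro p q r w hw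
      obtain ⟨v, hv, hvw⟩ := c3 p q w hw
      obtain ⟨v', hv', hvv'⟩ := hc p q r v hv
      rcases hv' with hv' | hv'
      · obtain ⟨u, hu, hu'⟩ := c2 p r v' hv'
        refine ⟨u, Or.inl hu, ?_⟩
        have h2 := hg.tri w v u
        have h3 := hg.tri v v' u
        have h4 := hg.symm w v
        omega
      · obtain ⟨u, hu, hu'⟩ := c2 r q v' hv'
        refine ⟨u, Or.inr hu, ?_⟩
        have h2 := hg.tri w v u
        have h3 := hg.tri v v' u
        have h4 := hg.symm w v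
        omega
    intro x y z t
    have h2 := h1 x y z t
    omega
  · intro p q v hv
    obtain ⟨w, hw, hvw⟩ := c2 p q v hv
    exact ⟨w, hw, by omega⟩
  · intro p q w hw
    obtain ⟨v, hv, hvw⟩ := c3 p q w hw
    exact ⟨v, hv, by omega⟩

end Mon
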