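import Pool.Agent.Work.MP_6f5fa7_al.Mon.StCone

/-! Mon, item K3: chain distance. -/
set_option autoImplicit false

namespace Mon

private theorem K3.trans {V : Type} (r : V → V → Prop) :
    ∀ (m n : ℕ) (u v w : V), Chain r m u v → Chain r n v w → Chain r (m + n) u w := by
  intro m
  induction m with
  | zero =>
    intro n u v w h1 h2
    have h1' : u = v := h1
    subst h1'
    simpa using h2
  | succ m ih =>
    intro n u v w h1 h2
    obtain ⟨z, hz, hzv⟩ := h1
    have h3 := ih n z v w hzv h2
    have he : m + 1 + n = (m + n) + 1 := by omega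
    rw [he]
    exact ⟨z, hz, h3⟩

private theorem K3.symm {V : Type} (r : V → V → Prop) (hs : ∀ v w, r v w → r w v) :
    ∀ (n : ℕ) (v w : V), Chain r n v w → Chain r n w v := by
  intro n
  induction n with
  | zero => intro v w h; exact Eq.symm h
  | succ n ih =>
    intro v w h
    obtain ⟨z, hz, hzw⟩ := h
    have h1 := ih z w hzw
    have h2 : Chain r 1 z v := ⟨v, hs v z hz, rfl⟩
    exact K3.trans r n 1 w z v h1 h2

private theorem K3.split {V : Type} (r : V → V → Prop) :
    ∀ (i j : ℕ) (v w : V), Chain r (i + j) v w → ∃ u, Chain r i v u ∧ Chain r j u w := by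
  intro i
  induction i with
  | zero =>
    intro j v w h
    exact ⟨v, rfl, by simpa using h⟩
  | succ i ih =>
    intro j v w h
    have he : i + 1 + j = (i + j) + 1 := by omega
    rw [he] at h
    obtain ⟨z, hz, hzw⟩ := h
    obtain ⟨u, hu1, hu2⟩ := ih j z w hzw
    exact ⟨u, ⟨z, hz, hu1⟩, hu2⟩

theorem rdist_le : S.rdist_le := by
  intro V r v w n h
  exact Nat.sInf_le h

theorem rdist_chain : S.rdist_chain := by
  intro V r hc v w
  have h : ({n | Chain r n v w} : Set ℕ).Nonempty := hc v w
  exact Nat.sInf_mem h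

theorem rdist_geo : S.rdist_geo := by
  intro V r hs hc
  refine ⟨?_, ?_, ?_, ?_⟩
  · intro x
    exact Nat.le_zero.mp (rdist_le r x x 0 rfl)
  · intro x y
    exact le_antisymm (rdist_le r x y _ (K3.symm r hs _ _ _ (rdist_chain r hc y x)))
      (rdist_le r y x _ (K3.symm r hs _ _ _ (rdist_chain r hc x y)))
  · intro x y z
    exact rdist_le r x z _ (K3.trans r _ _ _ _ _ (rdist_chain r hc x y) (rdist_chain r hc y z))
  · intro x y i hi
    have h := rdist_chain r hc x y
    obtain ⟨j, hj⟩ := Nat.exists_eq_add_of_le hi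
    rw [hj] at h
    obtain ⟨u, hu1, hu2⟩ := K3.split r i j x y h
    have h1 := rdist_le r x u i hu1
    have h2 := rdist_le r u y j hu2
    have h3 := rdist_le r x y _
      (K3.trans r _ _ _ _ _ (rdist_chain r hc x u) (rdist_chain r hc u y))
    exact ⟨u, by omega, by omega⟩

theorem rdist_lip : S.rdist_lip := by
  intro V r hc f hf v w
  have key : ∀ (n : ℕ) (v w : V), Chain r n v w → f v ≤ f w + n := by
    intro n
    induction n with
    | zero => intro v w h; have h' : v = w := h; rw [h']; exact le_rfl
    | succ n ih =>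
      intro v w h
      obtain ⟨z, hz, hzw⟩ := h
      have h1 := hf v z hz
      have h2 := ih z w hzw
      omega
  exact key _ v w (rdist_chain r hc v w)

end Mon
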