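import Pool.Agent.Work.MP_6f5fa7_al.Mon.StCone

/-! Mon, item K4: the cone-off is a geodesic space on which `G` acts by isometries. -/
set_option autoImplicit false

namespace Mon

namespace K4

section chain
variable {V : Type} {r : V → V → Prop}

/-- joined by a chain -/
def J (r : V → V → Prop) (v w : V) : Prop := ∃ n, Chain r n v w

theorem J.refl (v : V) : J r v v := ⟨0, rfl⟩

theorem J.single {v w : V} (h : r v w) : J r v w := ⟨1, w, h, rfl⟩

theorem J.trans {u v w : V} (h1 : J r u v) (h2 : J r v w) : J r u w := by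
  obtain ⟨n, hn⟩ := h1
  induction n generalizing u with
  | zero =>
    have e : u = v := hn
    rw [e]; exact h2
  | succ n ih =>
    obtain ⟨t, h, h'⟩ := hn
    obtain ⟨m, hm⟩ := ih h'
    exact ⟨m + 1, t, h, hm⟩

theorem J.symm (hs : ∀ v w, r v w → r w v) {v w : V} (h : J r v w) : J r w v := by
  obtain ⟨n, hn⟩ := h
  induction n generalizing v with
  | zero =>
    have e : v = w := hn
    rw [e]; exact J.refl w
  | succ n ih =>
    obtain ⟨t, h, h'⟩ := hn
    exact (ih h').trans (J.single (hs _ _ h))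

theorem chain_map {W : Type} {r' : W → W → Prop} (f : V → W)
    (hf : ∀ a b, r a b → r' (f a) (f b)) {n : ℕ} {v w : V} (h : Chain r n v w) :
    Chain r' n (f v) (f w) := by
  induction n generalizing v with
  | zero =>
    have e : v = w := h
    rw [e]; exact (rfl : f w = f w)
  | succ n ih =>
    obtain ⟨t, h1, h2⟩ := h
    exact ⟨f t, hf _ _ h1, ih h2⟩

theorem rdist_map (f f' : V → V) (hf : ∀ a b, r a b → r (f a) (f b))
    (hf' : ∀ a b, r a b → r (f' a) (f' b)) (hinv : ∀ v, f' (f v) = v) (v w : V) :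
    rdist r (f v) (f w) = rdist r v w := by
  unfold rdist
  congr 1
  ext n
  constructor
  · intro h
    have h1 := chain_map f' hf' h
    rwa [hinv, hinv] at h1
  · intro h
    exact chain_map f hf h

end chain

section cone
variable {G X : Type} [Group G] [MulAction G X] {d : X → X → ℕ} {s D : ℕ} {F : Fam G X}

theorem vt_mid (c : F.C) (y : F.Y c) (k : ℕ) (h0 : k ≠ 0) (h : k ≤ D) :
    vt F D c y k = ⟨.cone c y.1 k, ⟨y.2, Nat.one_le_iff_ne_zero.mpr h0, h⟩⟩ := by
  unfold vt
  rw [dif_neg h0]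
  exact dif_pos h

theorem vt_top (c : F.C) (y : F.Y c) (k : ℕ) (h : D < k) : vt F D c y k = ap F D c := by
  unfold vt
  rw [dif_neg (by omega)]
  exact dif_neg (by omega)

theorem cadj_symm (v w : Cone F D) (h : cadj F D d s v w) : cadj F D d s w v := h.symm

theorem val_smul (g : G) (v : Cone F D) : (g • v).1 = smulr F g v.1 := rfl

theorem cAdj_smul (hi : Isom G d) (g : G) {a b : CV X F.C} (h : CAdj F D d s a b) :
    CAdj F D d s (smulr F g a) (smulr F g b) := by
  cases h with
  | hor0 x x' h => exact CAdj.hor0 _ _ (by rw [hi]; exact h)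
  | hor c y y' k h => exact CAdj.hor _ _ _ _ (by rw [hi]; exact h)
  | up0 c y => exact CAdj.up0 _ _
  | up c y k => exact CAdj.up _ _ _
  | top c y => exact CAdj.top _ _

theorem cadj_smul (hi : Isom G d) (g : G) (v w : Cone F D) (h : cadj F D d s v w) :
    cadj F D d s (g • v) (g • w) := by
  rcases h with h | h
  · exact Or.inl (cAdj_smul hi g h)
  · exact Or.inr (cAdj_smul hi g h)

theorem J_bs (hg : Geo d) (hs : 1 ≤ s) (m : ℕ) : ∀ x x' : X, d x x' = m →
    J (cadj F D d s) (bs F D x) (bs F D x') := by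
  induction m with
  | zero =>
    intro x x' h
    exact J.single (Or.inl (CAdj.hor0 x x' (by omega)))
  | succ m ih =>
    intro x x' h
    obtain ⟨z, h1, h2⟩ := hg.geo x x' 1 (by omega)
    have e : cadj F D d s (bs F D x) (bs F D z) := Or.inl (CAdj.hor0 x z (by omega))
    exact (J.single e).trans (ih z x' (by omega))

theorem J_cone (c : F.C) (y : X) (hy : y ∈ F.Y c) (k : ℕ) :
    ∀ (h1 : 1 ≤ k) (h2 : k ≤ D),
      J (cadj F D d s) (bs F D y) (⟨.cone c y k, ⟨hy, h1, h2⟩⟩ : Cone F D) := by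
  induction k with
  | zero => intro h1; omega
  | succ k ih =>
    intro h1 h2
    rcases Nat.eq_zero_or_pos k with h0 | h0
    · subst h0
      exact J.single (Or.inl (CAdj.up0 c y))
    · exact (ih h0 (by omega)).trans (J.single (Or.inl (CAdj.up c y k)))

theorem J_ap (hD : 1 ≤ D) (c : F.C) : ∃ x : X, J (cadj F D d s) (bs F D x) (ap F D c) := by
  obtain ⟨y, hy⟩ := F.Y_ne c
  exact ⟨y, (J_cone c y hy D hD le_rfl).trans (J.single (Or.inl (CAdj.top c y)))⟩

theorem J_base (hD : 1 ≤ D) (v : Cone F D) : ∃ x : X, J (cadj F D d s) (bs F D x) v := by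
  rcases v with ⟨v, hv⟩
  cases v with
  | base x => exact ⟨x, J.refl _⟩
  | cone c y k => exact ⟨y, J_cone c y hv.1 k hv.2.1 hv.2.2⟩
  | apex c => exact J_ap hD c

theorem J_all (hg : Geo d) (hs : 1 ≤ s) (hD : 1 ≤ D) (v w : Cone F D) :
    J (cadj F D d s) v w := by
  obtain ⟨x, hx⟩ := J_base (d := d) (s := s) hD v
  obtain ⟨x', hx'⟩ := J_base (d := d) (s := s) hD w
  exact (J.symm cadj_symm hx).trans ((J_bs hg hs _ x x' rfl).trans hx')

end cone

end K4

theorem cone_geo (h1 : S.rdist_geo) : S.cone_geo := by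
  intro G X _ _ d s D F hg _ hs hD
  exact h1 _ K4.cadj_symm (K4.J_all hg hs hD)

theorem cone_isom : S.cone_isom := by
  intro G X _ _ d s D F _ hi _ _ g v w
  exact K4.rdist_map (fun v => g • v) (fun v => g⁻¹ • v) (K4.cadj_smul hi g)
    (K4.cadj_smul hi g⁻¹) (fun v => inv_smul_smul g v) v w

theorem smul_bs : S.smul_bs := by
  intro G X _ _ d s D F _ _ _ _ g x
  rfl

theorem smul_ap : S.smul_ap := by
  intro G X _ _ d s D F _ _ _ _ g c
  rfl

theorem smul_vt : S.smul_vt := by
  intro G X _ _ d s D F _ _ _ _ g c y k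
  by_cases h0 : k = 0
  · subst h0
    rfl
  · by_cases h : k ≤ D
    · rw [K4.vt_mid c y k h0 h, K4.vt_mid _ _ k h0 h]
      rfl
    · rw [K4.vt_top c y k (by omega), K4.vt_top _ _ k (by omega)]
      rfl

end Mon
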