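import Pool.Agent.Work.MP_6f5fa7_al.Mon.StCone

/-! Mon, item K5: levels. -/
set_option autoImplicit false

namespace Mon

namespace K5

variable {G X : Type} [Group G] [MulAction G X]

theorem chain_trans {V : Type} {r : V → V → Prop} : ∀ {m n : ℕ} {u v w : V},
    Chain r m u v → Chain r n v w → Chain r (m + n) u w
  | 0, n, u, v, w, h1, h2 => by
    have h3 : u = v := h1
    subst h3
    rwa [Nat.zero_add]
  | m + 1, n, u, v, w, h1, h2 => by
    obtain ⟨x, hx, h3⟩ := h1
    have h4 := chain_trans h3 h2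
    rw [Nat.succ_add_eq_add_succ]
    show Chain r (m + (n + 1)) u w
    rw [show m + (n + 1) = (m + n) + 1 from rfl]
    exact ⟨x, hx, h4⟩

theorem chain_symm {V : Type} {r : V → V → Prop} (hs : ∀ v w, r v w → r w v) :
    ∀ {n : ℕ} {v w : V}, Chain r n v w → Chain r n w v
  | 0, v, w, h => Eq.symm h
  | n + 1, v, w, h => by
    obtain ⟨x, hx, h3⟩ := h
    have h4 := chain_symm hs h3
    have h5 : Chain r 1 x v := ⟨v, hs _ _ hx, rfl⟩
    exact chain_trans h4 h5

theorem cadj_symm {F : Fam G X} {D s : ℕ} {d : X → X → ℕ} (v w : Cone F D)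
    (h : cadj F D d s v w) : cadj F D d s w v := Or.symm h

/-- conn: base vertices -/
theorem conn_base {F : Fam G X} {D s : ℕ} {d : X → X → ℕ} (hg : Geo d) (hs : 1 ≤ s) :
    ∀ (n : ℕ) (x y : X), d x y ≤ n →
      ∃ m, Chain (cadj F D d s) m (bs F D x) (bs F D y) := by
  intro n
  induction n with
  | zero =>
    intro x y h
    exact ⟨1, bs F D y, Or.inl (CAdj.hor0 x y (by omega)), rfl⟩
  | succ n ih =>
    intro x y h
    rcases Nat.lt_or_ge (d x y) (n + 1) with h1 | h1
    · exact ih x y (by omega)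
    · obtain ⟨z, hz1, hz2⟩ := hg.geo x y 1 (by omega)
      obtain ⟨m, hm⟩ := ih z y (by omega)
      exact ⟨m + 1, bs F D z, Or.inl (CAdj.hor0 x z (by omega)), hm⟩

theorem conn_cone {F : Fam G X} {D s : ℕ} {d : X → X → ℕ} (c : F.C) (y : X) (hy : y ∈ F.Y c) :
    ∀ (k : ℕ) (hk : 1 ≤ k ∧ k ≤ D),
      ∃ m, Chain (cadj F D d s) m ⟨.cone c y k, ⟨hy, hk.1, hk.2⟩⟩ (bs F D y) := by
  intro k
  induction k with
  | zero => intro hk; omega
  | succ k ih =>
    intro hk
    rcases Nat.eq_zero_or_pos k with h0 | h0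
    · subst h0
      exact ⟨1, bs F D y, Or.inr (CAdj.up0 c y), rfl⟩
    · obtain ⟨m, hm⟩ := ih ⟨h0, by omega⟩
      exact ⟨m + 1, ⟨.cone c y k, ⟨hy, h0, by omega⟩⟩, Or.inr (CAdj.up c y k), hm⟩

theorem conn_bs {F : Fam G X} {D s : ℕ} {d : X → X → ℕ} (hD : 1 ≤ D) (v : Cone F D) :
    ∃ m x, Chain (cadj F D d s) m v (bs F D x) := by
  rcases v with ⟨v, hv⟩
  cases v with
  | base x => exact ⟨0, x, rfl⟩
  | cone c y k =>
    obtain ⟨m, hm⟩ := conn_cone (s := s) (d := d) c y hv.1 k ⟨hv.2.1, hv.2.2⟩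
    exact ⟨m, y, hm⟩
  | apex c =>
    obtain ⟨y, hy⟩ := F.Y_ne c
    obtain ⟨m, hm⟩ := conn_cone (s := s) (d := d) c y hy D ⟨hD, le_rfl⟩
    exact ⟨m + 1, y, ⟨.cone c y D, ⟨hy, hD, le_rfl⟩⟩, Or.inr (CAdj.top c y), hm⟩

/-- the cone-off is connected -/
theorem conn {F : Fam G X} {D s : ℕ} {d : X → X → ℕ} (hg : Geo d) (hs : 1 ≤ s) (hD : 1 ≤ D)
    (v w : Cone F D) : ∃ n, Chain (cadj F D d s) n v w := by
  obtain ⟨m1, x1, h1⟩ := conn_bs (s := s) (d := d) hD v
  obtain ⟨m2, x2, h2⟩ := conn_bs (s := s) (d := d) hD w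
  obtain ⟨m3, h3⟩ := conn_base (F := F) (D := D) hg hs (d x1 x2) x1 x2 le_rfl
  exact ⟨_, chain_trans (chain_trans h1 h3) (chain_symm cadj_symm h2)⟩

theorem levr_adj {F : Fam G X} {D s : ℕ} {d : X → X → ℕ} (c : F.C) (a b : CV X F.C)
    (h : CAdj F D d s a b) : levr F D c a ≤ levr F D c b + 1 ∧ levr F D c b ≤ levr F D c a + 1 := by
  cases h with
  | hor0 x x' h => simp [levr]
  | hor c' y y' k h => simp [levr]
  | up0 c' y => simp only [levr]; split_ifs <;> omega
  | up c' y k => simp only [levr]; split_ifs <;> omega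
  | top c' y => simp only [levr]; split_ifs <;> omega

theorem vt_zero {F : Fam G X} {D : ℕ} (c : F.C) (y : F.Y c) : vt F D c y 0 = bs F D y.1 := by
  rw [vt, dif_pos rfl]

theorem vt_cone {F : Fam G X} {D : ℕ} (c : F.C) (y : F.Y c) (k : ℕ) (h1 : 1 ≤ k) (h2 : k ≤ D) :
    vt F D c y k = ⟨.cone c y.1 k, ⟨y.2, h1, h2⟩⟩ := by
  exact (dif_neg (Nat.one_le_iff_ne_zero.mp h1)).trans (dif_pos h2)

theorem vt_ap {F : Fam G X} {D : ℕ} (c : F.C) (y : F.Y c) (k : ℕ) (h2 : D < k) :
    vt F D c y k = ap F D c := by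
  exact (dif_neg (show ¬ k = 0 by omega)).trans (dif_neg (show ¬ k ≤ D by omega))

end K5

theorem lev_lip (h1 : S.rdist_lip) : S.lev_lip := by
  intro G X _ _ d s D F hg hi hs hD c v w
  refine h1 (cadj F D d s) (K5.conn hg hs hD) (lev F D c) ?_ v w
  intro v w h
  rcases h with h | h
  · exact (K5.levr_adj c _ _ h).1
  · exact (K5.levr_adj c _ _ h).2

open Classical in
theorem lev_smul : S.lev_smul := by
  intro G X _ _ d s D F hg hi hs hD g c v
  rcases v with ⟨v, hv⟩
  show levr F D (g • c) (smulr F g v) = levr F D c v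
  cases v with
  | base x => rfl
  | cone c' y k =>
    show (if g • c' = g • c then k else 0) = if c' = c then k else 0
    by_cases h : c' = c
    · rw [if_pos h, if_pos (by rw [h])]
    · rw [if_neg h, if_neg (fun h1 => h (MulAction.injective g h1))]
  | apex c' =>
    show (if g • c' = g • c then D + 1 else 0) = if c' = c then D + 1 else 0
    by_cases h : c' = c
    · rw [if_pos h, if_pos (by rw [h])]
    · rw [if_neg h, if_neg (fun h1 => h (MulAction.injective g h1))]

theorem sh_smul : S.sh_smul := by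
  intro G X _ _ d s D F hg hi hs hD g v h
  rcases v with ⟨v, hv⟩
  show shr F (smulr F g v) = g • shr F v
  cases v with
  | base x => rfl
  | cone c' y k => rfl
  | apex c' => exact absurd rfl (h c')

theorem lev_bs : S.lev_bs := by
  intro G X _ _ d s D F hg hi hs hD c x
  rfl

theorem lev_ap : S.lev_ap := by
  intro G X _ _ d s D F hg hi hs hD c
  show levr F D c (CV.apex c) = D + 1
  simp [levr]

theorem lev_vt : S.lev_vt := by
  intro G X _ _ d s D F hg hi hs hD c y k
  rcases Nat.eq_zero_or_pos k with h0 | h0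
  · subst h0
    rw [K5.vt_zero]
    show levr F D c (CV.base _) = _
    simp [levr]
  · rcases Nat.lt_or_ge D k with h1 | h1
    · rw [K5.vt_ap c y k h1]
      show levr F D c (CV.apex c) = _
      simp only [levr, if_true]
      omega
    · rw [K5.vt_cone c y k h0 h1]
      show levr F D c (CV.cone c y.1 k) = _
      simp only [levr, if_true]
      omega

theorem lev_vt_ne : S.lev_vt_ne := by
  intro G X _ _ d s D F hg hi hs hD c c' y k h
  rcases Nat.eq_zero_or_pos k with h0 | h0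
  · subst h0
    rw [K5.vt_zero]
    rfl
  · rcases Nat.lt_or_ge D k with h1 | h1
    · rw [K5.vt_ap c y k h1]
      show levr F D c' (CV.apex c) = 0
      simp only [levr, if_neg h]
    · rw [K5.vt_cone c y k h0 h1]
      show levr F D c' (CV.cone c y.1 k) = 0
      simp only [levr, if_neg h]

theorem vertex_cases : S.vertex_cases := by
  intro G X _ _ d s D F hg hi hs hD v
  rcases v with ⟨v, hv⟩
  cases v with
  | base x => exact Or.inl ⟨x, rfl⟩
  | cone c y k =>
    refine Or.inr ⟨c, ⟨y, hv.1⟩, k, hv.2.1, ?_, ?_⟩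
    · have := hv.2.2
      omega
    · rw [K5.vt_cone c ⟨y, hv.1⟩ k hv.2.1 hv.2.2]
  | apex c =>
    obtain ⟨y, hy⟩ := F.Y_ne c
    refine Or.inr ⟨c, ⟨y, hy⟩, D + 1, by omega, le_rfl, ?_⟩
    rw [K5.vt_ap c ⟨y, hy⟩ (D + 1) (by omega)]
    rfl

theorem eq_vt_of_lev : S.eq_vt_of_lev := by
  intro G X _ _ d s D F hg hi hs hD c v h
  rcases v with ⟨v, hv⟩
  cases v with
  | base x =>
    have h1 : lev F D c ⟨CV.base x, hv⟩ = 0 := rfl
    omega
  | cone c' y k =>
    by_cases hc : c' = c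
    · subst hc
      have h1 : lev F D c' ⟨CV.cone c' y k, hv⟩ = k := by
        show levr F D c' (CV.cone c' y k) = k
        simp [levr]
      refine ⟨⟨y, hv.1⟩, ?_, fun _ => rfl⟩
      rw [h1, K5.vt_cone c' ⟨y, hv.1⟩ k hv.2.1 hv.2.2]
    · have h1 : lev F D c ⟨CV.cone c' y k, hv⟩ = 0 := by
        show levr F D c (CV.cone c' y k) = 0
        simp [levr, hc]
      omega
  | apex c' =>
    by_cases hc : c' = c
    · subst hc
      have h1 : lev F D c' ⟨CV.apex c', hv⟩ = D + 1 := by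
        show levr F D c' (CV.apex c') = D + 1
        simp [levr]
      obtain ⟨y, hy⟩ := F.Y_ne c'
      refine ⟨⟨y, hy⟩, ?_, ?_⟩
      · rw [h1, K5.vt_ap c' ⟨y, hy⟩ (D + 1) (by omega)]
        rfl
      · rw [h1]
        intro h2
        omega
    · have h1 : lev F D c ⟨CV.apex c', hv⟩ = 0 := by
        show levr F D c (CV.apex c') = 0
        simp [levr, hc]
      omega

end Mon
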