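import Pool.Agent.Work.MP_6f5fa7_al.Mon.StCone

/-! Mon: K6, distances to the apex in the cone-off. -/
set_option autoImplicit false

namespace Mon

section K6
variable {G X : Type} [Group G] [MulAction G X] {d : X → X → ℕ} {s D : ℕ} {F : Fam G X}

private lemma K6_vt_zero (c : F.C) (y : F.Y c) : vt F D c y 0 = bs F D y.1 := by
  simp [vt]

private lemma K6_vt_mid (c : F.C) (y : F.Y c) (k : ℕ) (h1 : 1 ≤ k) (h2 : k ≤ D) :
    vt F D c y k = ⟨.cone c y.1 k, ⟨y.2, h1, h2⟩⟩ := by
  have h0 : ¬ k = 0 := by omega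
  unfold vt
  exact (dif_neg h0).trans (dif_pos h2)

private lemma K6_vt_top (c : F.C) (y : F.Y c) (k : ℕ) (h1 : D < k) :
    vt F D c y k = ap F D c := by
  have h0 : ¬ k = 0 := by omega
  unfold vt
  exact (dif_neg h0).trans (dif_neg (Nat.not_le.2 h1))

private lemma K6_adj (v w : Cone F D) (h : cadj F D d s v w) : cd F D d s v w ≤ 1 :=
  Nat.sInf_le ⟨w, h, rfl⟩

private lemma K6_self (v : Cone F D) : cd F D d s v v = 0 :=
  Nat.le_zero.1 (Nat.sInf_le (show Chain (cadj F D d s) 0 v v from rfl))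

private lemma K6_step (hD : 1 ≤ D) (c : F.C) (y : F.Y c) (k : ℕ) :
    cd F D d s (vt F D c y k) (vt F D c y (k + 1)) ≤ 1 := by
  rcases Nat.eq_zero_or_pos k with rfl | hk
  · rw [K6_vt_zero, K6_vt_mid c y (0 + 1) (by omega) (by omega)]
    exact K6_adj _ _ (Or.inl (CAdj.up0 c y.1))
  · rcases lt_trichotomy k D with h | h | h
    · rw [K6_vt_mid c y k hk h.le, K6_vt_mid c y (k + 1) (by omega) (by omega)]
      exact K6_adj _ _ (Or.inl (CAdj.up c y.1 k))
    · subst h
      rw [K6_vt_mid c y k hk le_rfl, K6_vt_top c y (k + 1) (by omega)]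
      exact K6_adj _ _ (Or.inl (CAdj.top c y.1))
    · rw [K6_vt_top c y k h, K6_vt_top c y (k + 1) (by omega), K6_self]
      omega

private lemma K6_lev_ap (c : F.C) : lev F D c (ap F D c) = D + 1 := by
  simp [lev, levr, ap]

private lemma K6_lev_ap_ne (c c' : F.C) (h : c ≠ c') : lev F D c (ap F D c') = 0 := by
  have h' : ¬ c' = c := fun e => h e.symm
  simp [lev, levr, ap, h']

private lemma K6_lev_vt (c : F.C) (y : F.Y c) (k : ℕ) (hk : k ≤ D + 1) :
    lev F D c (vt F D c y k) = k := by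
  rcases Nat.eq_zero_or_pos k with rfl | h1
  · rw [K6_vt_zero]
    simp [lev, levr, bs]
  · rcases Nat.lt_or_ge D k with h2 | h2
    · rw [K6_vt_top c y k h2, K6_lev_ap]
      omega
    · rw [K6_vt_mid c y k h1 h2]
      simp [lev, levr]

private lemma K6_chain_lip {V : Type} (r : V → V → Prop) (f : V → ℤ)
    (hf : ∀ v w, r v w → f v ≤ f w + 1) (n : ℕ) : ∀ v w, Chain r n v w → f v ≤ f w + n := by
  induction n with
  | zero =>
    intro v w h
    have h' : v = w := h
    subst h'
    simp
  | succ n ih =>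
    intro v w h
    obtain ⟨u, h1, h2⟩ := h
    have h3 := hf v u h1
    have h4 := ih u w h2
    push_cast
    omega

private lemma K6_levr_adj (c c' : F.C) (hcc : c ≠ c') (v w : CV X F.C)
    (h : CAdj F D d s v w) :
    (levr F D c v : ℤ) - levr F D c' v ≤ (levr F D c w : ℤ) - levr F D c' w + 1 ∧
    (levr F D c w : ℤ) - levr F D c' w ≤ (levr F D c v : ℤ) - levr F D c' v + 1 := by
  cases h with
  | hor0 x x' h => simp [levr]
  | hor c0 y y' k h => simp [levr]
  | up0 c0 y =>
    simp only [levr]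
    split_ifs with h1 h2 h2 <;> constructor <;> push_cast
  | up c0 y k =>
    simp only [levr]
    split_ifs with h1 h2 h2 <;> first
      | exact absurd (h1.symm.trans h2) hcc
      | (constructor <;> push_cast <;> omega)
  | top c0 y =>
    simp only [levr]
    split_ifs with h1 h2 h2 <;> first
      | exact absurd (h1.symm.trans h2) hcc
      | (constructor <;> push_cast <;> omega)

end K6

theorem cd_hor : S.cd_hor := by
  intro G X _ _ d s D F hg hi hs hD c y y' k h
  rcases Nat.eq_zero_or_pos k with rfl | h1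
  · rw [K6_vt_zero, K6_vt_zero]
    refine K6_adj _ _ (Or.inl (CAdj.hor0 y.1 y'.1 ?_))
    simpa using h
  · rcases Nat.lt_or_ge D k with h2 | h2
    · rw [K6_vt_top c y k h2, K6_vt_top c y' k h2, K6_self]
      omega
    · rw [K6_vt_mid c y k h1 h2, K6_vt_mid c y' k h1 h2]
      exact K6_adj _ _ (Or.inl (CAdj.hor c y.1 y'.1 k h))

theorem cd_vt_vt (hgeo : S.cone_geo) : S.cd_vt_vt := by
  intro G X _ _ d s D F hg hi hs hD c y k k' h
  have hG := hgeo (F := F) hg hi hs hD
  induction k', h using Nat.le_induction with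
  | base => rw [K6_self]; omega
  | succ m hm ih =>
    have h1 := hG.tri (vt F D c y k) (vt F D c y m) (vt F D c y (m + 1))
    have h2 := K6_step (d := d) (s := s) hD c y m
    omega

theorem cd_vt_ap (hgeo : S.cone_geo) (hlip : S.lev_lip) : S.cd_vt_ap := by
  intro G X _ _ d s D F hg hi hs hD c y k hk
  have hG := hgeo (F := F) hg hi hs hD
  have h1 := cd_vt_vt hgeo hg hi hs hD c y k (D + 1) hk
  rw [K6_vt_top c y (D + 1) (by omega)] at h1
  have h2 := hlip hg hi hs hD c (ap F D c) (vt F D c y k)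
  rw [K6_lev_ap, K6_lev_vt c y k hk, hG.symm] at h2
  omega

theorem cd_bs (hgeo : S.cone_geo) : S.cd_bs := by
  intro G X _ _ d s D F hg hi hs hD
  have hG := hgeo (F := F) hg hi hs hD
  have key : ∀ n : ℕ, ∀ x x' : X, d x x' ≤ n →
      cd F D d s (bs F D x) (bs F D x') ≤ d x x' / s + 1 := by
    intro n
    induction n with
    | zero =>
      intro x x' h
      exact (K6_adj _ _ (Or.inl (CAdj.hor0 x x' (by omega)))).trans
        (Nat.le_add_left 1 _)
    | succ n ih =>
      intro x x' h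
      rcases Nat.lt_or_ge s (d x x') with h1 | h1
      · obtain ⟨z, hz1, hz2⟩ := hg.geo x x' s h1.le
        have h2 : cd F D d s (bs F D x) (bs F D z) ≤ 1 :=
          K6_adj _ _ (Or.inl (CAdj.hor0 x z hz1.le))
        have h3 := ih z x' (by omega)
        have h4 := hG.tri (bs F D x) (bs F D z) (bs F D x')
        have h5 : d x x' / s = (d x x' - s) / s + 1 := Nat.div_eq_sub_div (by omega) h1.le
        rw [hz2] at h3
        omega
      · exact (K6_adj _ _ (Or.inl (CAdj.hor0 x x' h1))).trans (Nat.le_add_left 1 _)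
  intro x x'
  exact key _ x x' le_rfl

theorem nbr_ap : S.nbr_ap := by
  intro G X _ _ d s D F hg hi hs hD c v h
  have hne : {n | Chain (cadj F D d s) n v (ap F D c)}.Nonempty := by
    apply Nat.nonempty_of_pos_sInf
    have h' : sInf {n | Chain (cadj F D d s) n v (ap F D c)} = 1 := h
    omega
  have hm := Nat.sInf_mem hne
  have h' : sInf {n | Chain (cadj F D d s) n v (ap F D c)} = 1 := h
  rw [h'] at hm
  obtain ⟨u, h1, h2⟩ := hm
  have h3 : u = ap F D c := h2
  subst h3
  obtain ⟨v, hv⟩ := v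
  rcases h1 with h1 | h1
  · simp only [ap] at h1
    cases h1 with
    | top c y =>
      refine ⟨⟨y, hv.1⟩, ?_⟩
      rw [K6_vt_mid c ⟨y, hv.1⟩ D hD le_rfl]
  · simp only [ap] at h1
    cases h1

theorem ap_ap (hlip : S.lev_lip) : S.ap_ap := by
  intro G X _ _ d s D F hg hi hs hD c c' hcc
  have h1 := hlip hg hi hs hD c (ap F D c) (ap F D c')
  rw [K6_lev_ap, K6_lev_ap_ne c c' hcc] at h1
  have hne : {n | Chain (cadj F D d s) n (ap F D c) (ap F D c')}.Nonempty := by
    apply Nat.nonempty_of_pos_sInf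
    have h' : cd F D d s (ap F D c) (ap F D c') =
      sInf {n | Chain (cadj F D d s) n (ap F D c) (ap F D c')} := rfl
    omega
  have hm : Chain (cadj F D d s) (cd F D d s (ap F D c) (ap F D c')) (ap F D c)
      (ap F D c') := Nat.sInf_mem hne
  have h2 := K6_chain_lip (cadj F D d s)
    (fun v => (lev F D c v : ℤ) - lev F D c' v) (fun v w h => ?_) _ _ _ hm
  · simp only [K6_lev_ap, K6_lev_ap_ne c c' hcc, K6_lev_ap_ne c' c (Ne.symm hcc)] at h2
    push_cast at h2
    omega
  · rcases h with h | h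
    · exact (K6_levr_adj c c' hcc _ _ h).1
    · exact (K6_levr_adj c c' hcc _ _ h).2

end Mon
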