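import Pool.Agent.Work.MP_6f5fa7_al.Mon.StCone

/-! Mon K7: staying in a cone (helper63). -/
set_option autoImplicit false

namespace Mon

theorem K7_chain_snoc {V : Type} {r : V → V → Prop} : ∀ (n : ℕ) (a b c : V),
    Chain r n a b → r b c → Chain r (n + 1) a c := by
  intro n
  induction n with
  | zero =>
    intro a b c h hr
    have h' : a = b := h
    subst h'
    exact ⟨c, hr, rfl⟩
  | succ n ih =>
    intro a b c h hr
    obtain ⟨u, h1, h2⟩ := h
    exact ⟨u, h1, ih u b c h2 hr⟩

theorem K7_chain_trans {V : Type} {r : V → V → Prop} : ∀ (n m : ℕ) (a b c : V),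
    Chain r n a b → Chain r m b c → Chain r (n + m) a c := by
  intro n m
  induction m with
  | zero =>
    intro a b c h h'
    have h'' : b = c := h'
    subst h''
    exact h
  | succ m ih =>
    intro a b c h h'
    obtain ⟨u, h1, h2⟩ := h'
    have h3 : Chain r (n + 1) a u := K7_chain_snoc n a b u h h1
    have h4 : ∀ (k : ℕ) (x : V), Chain r k a x → ∀ y, Chain r m x y → Chain r (k + m) a y := by
      intro k x hx y hy
      clear h1 h2 h3 ih
      revert k x
      induction m generalizing y with
      | zero =>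
        intro k x hx hy
        have : x = y := hy
        subst this
        exact hx
      | succ m ih2 =>
        intro k x hx hy
        obtain ⟨z, hz1, hz2⟩ := hy
        have := ih2 y (k + 1) z (K7_chain_snoc k a x z hx hz1) hz2
        have e : k + (m + 1) = k + 1 + m := by omega
        rw [e]; exact this
    have := h4 (n + 1) u h3 c h2
    have e : n + (m + 1) = n + 1 + m := by omega
    rw [e]; exact this

theorem K7_chain_symm {V : Type} {r : V → V → Prop} (hs : ∀ v w, r v w → r w v) :
    ∀ (n : ℕ) (a b : V), Chain r n a b → Chain r n b a := by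
  intro n
  induction n with
  | zero =>
    intro a b h
    have h' : a = b := h
    subst h'
    rfl
  | succ n ih =>
    intro a b h
    obtain ⟨u, h1, h2⟩ := h
    exact K7_chain_snoc n b u a (ih u b h2) (hs a u h1)

theorem K7_rdist_le {V : Type} (r : V → V → Prop) (v w : V) (n : ℕ) (h : Chain r n v w) :
    rdist r v w ≤ n := by
  classical
  exact Nat.sInf_le h

theorem K7_rdist_chain {V : Type} (r : V → V → Prop) (v w : V) (hc : ∃ n, Chain r n v w) :
    Chain r (rdist r v w) v w := by
  classical
  exact Nat.sInf_mem (s := {n | Chain r n v w}) hc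

section
variable {G X : Type} [Group G] [MulAction G X] {d : X → X → ℕ} {s D : ℕ} {F : Fam G X}

theorem K7_cadj_symm (v w : Cone F D) (h : cadj F D d s v w) : cadj F D d s w v := by
  rcases h with h | h
  · exact Or.inr h
  · exact Or.inl h

/-- going down from level `k` to the base vertex -/
theorem K7_down (c : F.C) (y : X) : ∀ (k : ℕ) (h1 : 1 ≤ k) (h2 : CVal F D (.cone c y k)),
    Chain (cadj F D d s) k ⟨.cone c y k, h2⟩ (bs F D y) := by
  intro k
  induction k with
  | zero => intro h1; omega
  | succ k ih =>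
    intro h1 h2
    by_cases hk : k = 0
    · subst hk
      exact ⟨bs F D y, Or.inr (CAdj.up0 c y), rfl⟩
    · have hk1 : 1 ≤ k := by omega
      have h3 : CVal F D (.cone c y k) := ⟨h2.1, hk1, by have := h2.2.2; omega⟩
      exact ⟨⟨.cone c y k, h3⟩, Or.inr (CAdj.up c y k), ih hk1 h3⟩

theorem K7_base_conn (hg : Geo d) (hs : 1 ≤ s) : ∀ (m : ℕ) (x x' : X), d x x' ≤ m →
    ∃ n, Chain (cadj F D d s) n (bs F D x) (bs F D x') := by
  intro m
  induction m with
  | zero =>
    intro x x' h
    exact ⟨1, bs F D x', Or.inl (CAdj.hor0 x x' (by omega)), rfl⟩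
  | succ m ih =>
    intro x x' h
    by_cases h0 : d x x' = 0
    · exact ih x x' (by omega)
    · obtain ⟨z, hz1, hz2⟩ := hg.geo x x' 1 (by omega)
      obtain ⟨n, hn⟩ := ih z x' (by omega)
      exact ⟨n + 1, bs F D z, Or.inl (CAdj.hor0 x z (by omega)), hn⟩

theorem K7_to_some_base (hD : 1 ≤ D) (v : Cone F D) :
    ∃ (x : X) (n : ℕ), Chain (cadj F D d s) n v (bs F D x) := by
  obtain ⟨v, hv⟩ := v
  cases v with
  | base x => exact ⟨x, 0, rfl⟩
  | cone c y k => exact ⟨y, k, K7_down c y k hv.2.1 hv⟩
  | apex c =>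
    obtain ⟨y, hy⟩ := F.Y_ne c
    have h3 : CVal F D (.cone c y D) := ⟨hy, hD, le_refl _⟩
    exact ⟨y, D + 1, ⟨.cone c y D, h3⟩, Or.inr (CAdj.top c y), K7_down c y D hD h3⟩

theorem K7_conn (hg : Geo d) (hs : 1 ≤ s) (hD : 1 ≤ D) (v w : Cone F D) :
    ∃ n, Chain (cadj F D d s) n v w := by
  obtain ⟨x, n, hn⟩ := K7_to_some_base (d := d) (s := s) hD v
  obtain ⟨x', n', hn'⟩ := K7_to_some_base (d := d) (s := s) hD w
  obtain ⟨m, hm⟩ := K7_base_conn (F := F) (D := D) hg hs (d x x') x x' (le_refl _)
  exact ⟨n + m + n', K7_chain_trans _ _ _ _ _ (K7_chain_trans _ _ _ _ _ hn hm)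
    (K7_chain_symm K7_cadj_symm _ _ _ hn')⟩

theorem K7_cd_chain (hg : Geo d) (hs : 1 ≤ s) (hD : 1 ≤ D) (v w : Cone F D) :
    Chain (cadj F D d s) (cd F D d s v w) v w :=
  K7_rdist_chain _ v w (K7_conn hg hs hD v w)

/-- levels are Lipschitz along edges (raw) -/
theorem K7_lev_adj (c : F.C) (v w : Cone F D) (h : cadj F D d s v w) :
    lev F D c w ≤ lev F D c v + 1 := by
  classical
  obtain ⟨v, hv⟩ := v
  obtain ⟨w, hw⟩ := w
  unfold lev
  rcases h with h | h
  · simp only at h
    cases h with
    | hor0 x x' h => simp [levr]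
    | hor c' y y' k h => simp [levr]
    | up0 c' y =>
      simp only [levr]
      split_ifs <;> omega
    | up c' y k =>
      simp only [levr]
      split_ifs <;> omega
    | top c' y =>
      simp only [levr]
      split_ifs <;> omega
  · simp only at h
    cases h with
    | hor0 x x' h => simp [levr]
    | hor c' y y' k h => simp [levr]
    | up0 c' y =>
      simp only [levr]
      split_ifs <;> omega
    | up c' y k =>
      simp only [levr]
      split_ifs <;> omega
    | top c' y =>
      simp only [levr]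
      split_ifs <;> omega

theorem K7_lev_chain (c : F.C) : ∀ (n : ℕ) (v w : Cone F D), Chain (cadj F D d s) n v w →
    lev F D c w ≤ lev F D c v + n := by
  intro n
  induction n with
  | zero =>
    intro v w h
    have h' : v = w := h
    subst h'
    omega
  | succ n ih =>
    intro v w h
    obtain ⟨u, h1, h2⟩ := h
    have := K7_lev_adj c v u h1
    have := ih u w h2
    omega

/-- one step between non-apex vertices all of whose levels are at most `L` -/
theorem K7_step (hg : Geo d) (L : ℕ) (hL : L ≤ D) (v w : Cone F D) (h : cadj F D d s v w)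
    (hv : ∀ c, lev F D c v ≤ L) (hw : ∀ c, lev F D c w ≤ L) :
    d (sh F D v) (sh F D w) ≤ s * 2 ^ L := by
  classical
  obtain ⟨v, hv0⟩ := v
  obtain ⟨w, hw0⟩ := w
  unfold lev at hv hw
  unfold sh
  have h2L : 1 ≤ 2 ^ L := Nat.one_le_two_pow
  have hsL : s ≤ s * 2 ^ L := Nat.le_mul_of_pos_right s (by omega)
  rcases h with h | h
  · simp only at h
    cases h with
    | hor0 x x' h => simp only [shr]; omega
    | hor c' y y' k h =>
      have h1 : k ≤ L := by have := hv c'; simpa [levr] using this
      simp only [shr]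
      exact le_trans h (Nat.mul_le_mul_left s (Nat.pow_le_pow_right (by norm_num) h1))
    | up0 c' y => simp only [shr]; rw [hg.self]; omega
    | up c' y k => simp only [shr]; rw [hg.self]; omega
    | top c' y =>
      exfalso
      have h1 : D + 1 ≤ L := by have := hw c'; simpa [levr] using this
      omega
  · simp only at h
    cases h with
    | hor0 x x' h => simp only [shr]; rw [hg.symm]; omega
    | hor c' y y' k h =>
      have h1 : k ≤ L := by have := hv c'; simpa [levr] using this
      simp only [shr]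
      rw [hg.symm]
      exact le_trans h (Nat.mul_le_mul_left s (Nat.pow_le_pow_right (by norm_num) h1))
    | up0 c' y => simp only [shr]; rw [hg.self]; omega
    | up c' y k => simp only [shr]; rw [hg.self]; omega
    | top c' y =>
      exfalso
      have h1 : D + 1 ≤ L := by have := hv c'; simpa [levr] using this
      omega

/-- positive level over `c` means no level over `c' ≠ c` -/
theorem K7_lev_other (c c' : F.C) (v : Cone F D) (h : 1 ≤ lev F D c v) (hne : c' ≠ c) :
    lev F D c' v = 0 := by
  classical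
  obtain ⟨v, hv⟩ := v
  unfold lev at *
  cases v with
  | base x => simp [levr]
  | cone c0 y k =>
    simp only [levr] at h ⊢
    split_ifs at h with h1
    · rw [if_neg]
      intro h2
      exact hne (h2.symm.trans h1)
    · omega
  | apex c0 =>
    simp only [levr] at h ⊢
    split_ifs at h with h1
    · rw [if_neg]
      intro h2
      exact hne (h2.symm.trans h1)
    · omega

theorem K7_all_le (c : F.C) (v : Cone F D) (L : ℕ) (h : 1 ≤ lev F D c v) (h' : lev F D c v ≤ L) :
    ∀ c', lev F D c' v ≤ L := by
  intro c'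
  by_cases hc : c' = c
  · rw [hc]; exact h'
  · rw [K7_lev_other c c' v h hc]; omega

theorem K7_le_one (hg : Geo d) (hs : 1 ≤ s) (hD : 1 ≤ D) (v w : Cone F D)
    (h : cd F D d s v w ≤ 1) : v = w ∨ cadj F D d s v w := by
  have hch := K7_cd_chain hg hs hD v w
  have h01 : cd F D d s v w = 0 ∨ cd F D d s v w = 1 := by omega
  rcases h01 with h0 | h1
  · rw [h0] at hch
    exact Or.inl hch
  · rw [h1] at hch
    obtain ⟨u, hu1, hu2⟩ := hch
    have : u = w := hu2
    subst this
    exact Or.inr hu1

end

theorem stay_path : S.stay_path := by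
  intro G X _ _ d s D F hg hi hs hD c γ m
  induction m with
  | zero =>
    intro h1 h2
    rw [hg.self]
    exact Nat.zero_le _
  | succ m ih =>
    intro h1 h2
    have e1 := ih (fun i hi => h1 i (by omega)) (fun i hi => h2 i (by omega))
    have e2 : d (sh F D (γ m)) (sh F D (γ (m + 1))) ≤ s * 2 ^ D := by
      rcases K7_le_one hg hs hD _ _ (h1 m (by omega)) with h | h
      · rw [← h, hg.self]; exact Nat.zero_le _
      · have hm := h2 m (by omega)
        have hm1 := h2 (m + 1) (le_refl _)
        exact K7_step hg D (le_refl _) _ _ h (K7_all_le c _ D hm.1 hm.2)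
          (K7_all_le c _ D hm1.1 hm1.2)
    have e3 := hg.tri (sh F D (γ 0)) (sh F D (γ m)) (sh F D (γ (m + 1)))
    have e4 : (m + 1) * (s * 2 ^ D) = m * (s * 2 ^ D) + s * 2 ^ D := by ring
    omega

theorem K7_stay_chain {G X : Type} [Group G] [MulAction G X] {d : X → X → ℕ} {s D : ℕ}
    {F : Fam G X} (hg : Geo d) (c : F.C) (L : ℕ) (hL : L ≤ D) : ∀ (n : ℕ) (v w : Cone F D),
    Chain (cadj F D d s) n v w → n < lev F D c v → lev F D c v + n ≤ L →
    d (sh F D v) (sh F D w) ≤ n * (s * 2 ^ L) := by
  intro n
  induction n with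
  | zero =>
    intro v w h _ _
    have h' : v = w := h
    subst h'
    rw [hg.self]; exact Nat.zero_le _
  | succ n ih =>
    intro v w h h1 h2
    obtain ⟨u, hu1, hu2⟩ := h
    have l1 := K7_lev_adj c v u hu1
    have l2 := K7_lev_adj c u v (K7_cadj_symm v u hu1)
    have e1 := ih u w hu2 (by omega) (by omega)
    have e2 : d (sh F D v) (sh F D u) ≤ s * 2 ^ L :=
      K7_step hg L hL _ _ hu1 (K7_all_le c _ L (by omega) (by omega))
        (K7_all_le c _ L (by omega) (by omega))
    have e3 := hg.tri (sh F D v) (sh F D u) (sh F D w)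
    have e4 : (n + 1) * (s * 2 ^ L) = n * (s * 2 ^ L) + s * 2 ^ L := by ring
    omega

theorem stay : S.stay := by
  intro G X _ _ d s D F hg hi hs hD c v w j h h1 h2
  have hch := K7_cd_chain hg hs hD v w
  have e := K7_stay_chain hg c (lev F D c v + j) h2 _ v w hch (by omega) (by omega)
  exact le_trans e (Nat.mul_le_mul_right _ h)

theorem K7_bs_chain {G X : Type} [Group G] [MulAction G X] {d : X → X → ℕ} {s D : ℕ}
    {F : Fam G X} (hg : Geo d) (L : ℕ) (hL : L ≤ D) : ∀ (n a : ℕ) (v w : Cone F D),
    Chain (cadj F D d s) n v w → (∀ c, lev F D c v ≤ a) → a + n ≤ L →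
    d (sh F D v) (sh F D w) ≤ n * (s * 2 ^ L) := by
  intro n
  induction n with
  | zero =>
    intro a v w h _ _
    have h' : v = w := h
    subst h'
    rw [hg.self]; exact Nat.zero_le _
  | succ n ih =>
    intro a v w h h1 h2
    obtain ⟨u, hu1, hu2⟩ := h
    have l1 : ∀ c, lev F D c u ≤ a + 1 := by
      intro c
      have := K7_lev_adj c v u hu1
      have := h1 c
      omega
    have e1 := ih (a + 1) u w hu2 l1 (by omega)
    have e2 : d (sh F D v) (sh F D u) ≤ s * 2 ^ L :=
      K7_step hg L hL _ _ hu1 (fun c => by have := h1 c; omega) (fun c => by have := l1 c; omega)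
    have e3 := hg.tri (sh F D v) (sh F D u) (sh F D w)
    have e4 : (n + 1) * (s * 2 ^ L) = n * (s * 2 ^ L) + s * 2 ^ L := by ring
    omega

theorem bs_dist : S.bs_dist := by
  intro G X _ _ d s D F hg hi hs hD u v ρ h hρ
  have hch := K7_cd_chain hg hs hD (bs F D u) (bs F D v)
  have e := K7_bs_chain hg ρ hρ _ 0 (bs F D u) (bs F D v) hch
    (fun c => by simp [lev, levr, bs]) (by omega)
  have e1 : d u v ≤ cd F D d s (bs F D u) (bs F D v) * (s * 2 ^ ρ) := e
  refine le_trans e1 (le_trans (Nat.mul_le_mul_right _ h) ?_)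
  unfold Ex
  apply le_of_eq
  ring

theorem cone_fix : S.cone_fix := by
  intro G X _ _ d s D F hg hi hs hD c v g ρ h h1
  classical
  by_contra hne
  have h1' : cd F D d s v (g • v) ≤ ρ := h1
  have hch := K7_cd_chain hg hs hD v (g • v)
  have hch' := K7_chain_symm K7_cadj_symm _ _ _ hch
  have l1 := K7_lev_chain c _ _ _ hch'
  have l2 : lev F D (g • c) (g • v) = lev F D c v := by
    obtain ⟨v, hv⟩ := v
    cases v with
    | base x => rfl
    | cone c0 y k =>
      change (if g • c0 = g • c then k else 0) = (if c0 = c then k else 0)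
      by_cases hc : c0 = c
      · rw [if_pos hc, if_pos (by rw [hc])]
      · rw [if_neg hc, if_neg (fun e => hc (MulAction.injective g e))]
    | apex c0 =>
      change (if g • c0 = g • c then D + 1 else 0) = (if c0 = c then D + 1 else 0)
      by_cases hc : c0 = c
      · rw [if_pos hc, if_pos (by rw [hc])]
      · rw [if_neg hc, if_neg (fun e => hc (MulAction.injective g e))]
  have l3 := K7_lev_other c (g • c) (g • v) (by omega) hne
  omega

theorem to_base : S.to_base := by
  intro G X _ _ d s D F hg hi hs hD v ρ hρ h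
  classical
  obtain ⟨v, hv⟩ := v
  cases v with
  | base x =>
    have : cd F D d s ⟨.base x, hv⟩ (bs F D (sh F D ⟨.base x, hv⟩)) ≤ 0 :=
      K7_rdist_le _ _ _ 0 rfl
    omega
  | cone c y k =>
    have hk : k ≤ ρ := by
      have := h c
      simpa [lev, levr] using this
    have : cd F D d s ⟨.cone c y k, hv⟩ (bs F D (sh F D ⟨.cone c y k, hv⟩)) ≤ k :=
      K7_rdist_le _ _ _ k (K7_down c y k hv.2.1 hv)
    omega
  | apex c =>
    exfalso
    have : D + 1 ≤ ρ := by
      have := h c
      simpa [lev, levr] using this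
    omega

end Mon
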