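import Pool.Agent.Work.MP_6f5fa7_al.Mon.StPiece

/-! Mon: item P1, prefix products (helper71). -/
set_option autoImplicit false

namespace Mon

theorem P1_Ww_zero {G : Type} [Group G] (Q : ℕ) (V x : G) : Ww Q 0 V x = 1 := by
  simp [Ww]

theorem P1_Ww_succ {G : Type} [Group G] (Q k : ℕ) (V x : G) :
    Ww Q (k + 1) V x = Ww Q k V x * (V ^ (Q ^ (k + 1)) * x) := by
  unfold Ww
  rw [List.range_succ, List.map_append, List.prod_append]
  simp

theorem P1_N (P : Par) : 1 ≤ P.N := by
  have h1 := P.h1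
  have h2 := P.hδ
  have h3 := P.hΛs
  have h4 := P.hΛ
  have h5 := P.hA0
  have h6 := P.hD
  have h7 := P.hA
  have h8 := P.hs
  have h9 := P.hN10
  have h10 : 1000 * P.Λ ≤ Ex (1000 * P.Λ) := by
    unfold Ex
    exact Nat.le_mul_of_pos_right _ (by positivity)
  omega

theorem gs_zero : S.gs_zero := by
  intro G _ Q N hN V x
  simp [gs, Ww]

theorem gs_succ : S.gs_succ := by
  intro G _ Q N hN V x j
  have hN' : (0 : ℤ) < N := by exact_mod_cast hN
  have hr0 : 0 ≤ j % (N : ℤ) := Int.emod_nonneg _ hN'.ne'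
  have hrN : j % (N : ℤ) < N := Int.emod_lt_of_pos _ hN'
  have hdm : (N : ℤ) * (j / (N : ℤ)) + j % (N : ℤ) = j := Int.mul_ediv_add_emod j N
  unfold gs fx
  rcases lt_or_eq_of_le (show j % (N : ℤ) + 1 ≤ N by omega) with h | h
  · have h1 : (j + 1) / (N : ℤ) = j / (N : ℤ) := by
      rw [Int.ediv_eq_iff_of_pos hN']
      constructor
      · nlinarith
      · nlinarith
    have h2 : (j + 1) % (N : ℤ) = j % (N : ℤ) + 1 := by
      have := Int.mul_ediv_add_emod (j + 1) N
      rw [h1] at this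
      omega
    have h3 : (j % (N : ℤ) + 1).toNat = (j % (N : ℤ)).toNat + 1 := by omega
    rw [h1, h2, h3, P1_Ww_succ, mul_assoc]
  · have h1 : (j + 1) / (N : ℤ) = j / (N : ℤ) + 1 := by
      rw [Int.ediv_eq_iff_of_pos hN']
      constructor
      · nlinarith
      · nlinarith
    have h2 : (j + 1) % (N : ℤ) = 0 := by
      have := Int.mul_ediv_add_emod (j + 1) N
      rw [h1] at this
      nlinarith
    have h3 : (j % (N : ℤ)).toNat + 1 = N := by omega
    have h4 : Ww Q N V x = Ww Q (j % (N : ℤ)).toNat V x *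
        (V ^ (Q ^ ((j % (N : ℤ)).toNat + 1)) * x) := by
      conv_lhs => rw [← h3]
      rw [P1_Ww_succ]
    rw [h1, h2, zpow_add_one, Int.toNat_zero, P1_Ww_zero, mul_one, mul_assoc, ← h4]

theorem gs_period : S.gs_period := by
  intro G _ Q N hN V x j k
  have hN' : (0 : ℤ) < N := by exact_mod_cast hN
  unfold gs
  rw [Int.add_mul_ediv_right _ _ hN'.ne', Int.add_mul_emod_self_right, add_comm, zpow_add, mul_assoc]

theorem axs_next : S.axs_next := by
  intro G X _ _ d P F hG hF V x c h j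
  unfold axs
  rw [gs_succ G P.Q P.N (P1_N P) V x j, mul_smul, mul_smul]

theorem axs_prev : S.axs_prev := by
  intro G X _ _ d P F hG hF V x c h j
  have h1 := gs_succ G P.Q P.N (P1_N P) V x (j - 1)
  rw [sub_add_cancel] at h1
  unfold axs
  rw [h1]
  have h2 : ∀ m : ℕ, V ^ m • c = c := by
    intro m
    induction m with
    | zero => simp
    | succ m ih => rw [pow_succ, mul_smul, h.fix, ih]
  rw [← mul_smul, mul_assoc, mul_assoc, mul_inv_cancel, mul_one, mul_smul, h2]

end Mon
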