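import Pool.Agent.Work.MP_6f5fa7_al.Mon.StDesc
import Pool.Agent.Work.MP_6f5fa7_al.Mon.StFam2

/-! Mon, item P11: the property `S` of the double quotient. -/
set_option autoImplicit false

namespace Mon

private theorem P11_Uw {A B : Type} [Group A] [Group B] (f : A →* B) (Q : ℕ) (x y : A) :
    f (Uw Q x y) = Uw Q (f x) (f y) := by
  unfold Uw
  simp only [map_mul, map_pow, map_inv]

private theorem P11_Ww {A B : Type} [Group A] [Group B] (f : A →* B) (Q N : ℕ) (V x : A) :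
    f (Ww Q N V x) = Ww Q N (f V) (f x) := by
  unfold Ww
  rw [map_list_prod, List.map_map]
  congr 1
  apply List.map_congr_left
  intro j _
  simp only [Function.comp_apply, map_mul, map_pow]

private theorem P11_Ew {A B : Type} [Group A] [Group B] (f : A →* B) (Q N : ℕ) (x y : A) :
    f (Ew Q N x y) = Ew Q N (f x) (f y) := by
  unfold Ew
  rw [P11_Ww, P11_Uw]

private theorem P11_comm {A : Type} [Group A] (K : Subgroup A) [K.Normal] (a b : A)
    (h : a * b * a⁻¹ * b⁻¹ ∈ K) : (QuotientGroup.mk' K a) * (QuotientGroup.mk' K b) =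
      (QuotientGroup.mk' K b) * (QuotientGroup.mk' K a) := by
  have h1 : QuotientGroup.mk' K (a * b * a⁻¹ * b⁻¹) = 1 := (QuotientGroup.eq_one_iff _).2 h
  rw [map_mul, map_mul, map_mul, map_inv, map_inv, mul_inv_eq_one, mul_inv_eq_iff_eq_mul] at h1
  exact h1

private theorem P11_T (P : Par) : P.TT2 ≤ P.TT1 := by
  have h1 := P.h1
  have h2 := P.hδ
  have h3 := P.hΛs
  have h4 := P.hΛ
  have h5 := P.hA0
  have h6 := P.hD
  have h7 := P.hA
  have h8 := P.hs
  have h9 : 1000 * P.Λ ≤ Ex (1000 * P.Λ) := Nat.le_mul_of_pos_right _ (by positivity)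
  have hs1 : 1 ≤ P.s := by omega
  have hM1 : 1 ≤ P.M := by have := P.hM; omega
  have hT1 : 1 ≤ P.TT2 := by
    have h10 := P.hTT2
    have h11 : 1 ≤ P.δ1 * P.s * 2 ^ P.D :=
      Nat.mul_pos (Nat.mul_pos h1 hs1) (by positivity)
    omega
  have hQ1 : 1 ≤ P.Q := by
    have h10 := P.hQ
    have h11 : 1 ≤ P.M * P.TT2 := Nat.mul_pos hM1 hT1
    have h12 : 1000 * P.M * P.TT2 = 1000 * (P.M * P.TT2) := by ring
    omega
  have h10 := P.hTT1
  have h11 : 1 ≤ P.Q ^ (10 * P.N + 100) := Nat.one_le_pow _ _ hQ1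
  calc P.TT2 ≤ 1000 * P.TT2 := by omega
    _ ≤ 1000 * P.TT2 * P.Q ^ (10 * P.N + 100) := Nat.le_mul_of_pos_right _ h11
    _ ≤ P.TT1 := h10

theorem desc_two (h1 : S.desc1) (h2 : S.desc2) (hok : S.fam2_ok) (hrel : S.rel_mem) :
    S.desc_two := by
  intro G X _ _ d P F hG hF hci hQ hS x y hx hU
  obtain ⟨a, rfl⟩ := QuotientGroup.mk'_surjective (Ker (fam2 P d F hG.isom hci)) x
  obtain ⟨b, rfl⟩ := QuotientGroup.mk'_surjective (Ker (fam2 P d F hG.isom hci)) y
  have hx' : a ^ P.n ∈ Ker (fam2 P d F hG.isom hci) := by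
    rw [← map_pow] at hx
    exact (QuotientGroup.eq_one_iff _).1 hx
  have hU' : (Uw P.Q a b) ^ P.n ∈ Ker (fam2 P d F hG.isom hci) := by
    rw [← P11_Uw, ← map_pow] at hU
    exact (QuotientGroup.eq_one_iff _).1 hU
  have hS' : ∀ x y : G ⧸ Ker F, x ^ P.n = 1 → (Uw P.Q x y) ^ P.n = 1 → x * y = y * x ∨
      Ew P.Q P.N x y = 1 ∨ ∃ c, Ew P.Q P.N x y ∈ (fam2 P d F hG.isom hci).R c := by
    intro x y hx hU
    obtain ⟨a, rfl⟩ := QuotientGroup.mk'_surjective (Ker F) x
    obtain ⟨b, rfl⟩ := QuotientGroup.mk'_surjective (Ker F) y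
    have hx' : a ^ P.n ∈ Ker F := by
      rw [← map_pow] at hx
      exact (QuotientGroup.eq_one_iff _).1 hx
    have hU' : (Uw P.Q a b) ^ P.n ∈ Ker F := by
      rw [← P11_Uw, ← map_pow] at hU
      exact (QuotientGroup.eq_one_iff _).1 hU
    rcases h1 (G := G) (X := X) hG hF.ok (P11_T P) hF hS a b hx' hU' with h3 | h3 | h3
    · exact Or.inl (P11_comm _ a b h3)
    · refine Or.inr (Or.inl ?_)
      rw [← P11_Ew]
      exact (QuotientGroup.eq_one_iff _).2 h3
    · obtain ⟨V, x', c, hr, κ, hκ, he⟩ := h3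
      · have h4 := hrel (G := G) (X := X) hG hF hci V x' c hr
        refine Or.inr (Or.inr ⟨(⟨Ax2 P F V x' c, ⟨V, x', c, hr, rfl⟩⟩ : C2 P d F), ?_⟩)
        have h5 : Ew P.Q P.N (QuotientGroup.mk' (Ker F) a) (QuotientGroup.mk' (Ker F) b) =
            (QuotientGroup.mk (Ww P.Q P.N V x') : G ⧸ Ker F) := by
          rw [← P11_Ew, he, map_mul]
          have h6 : QuotientGroup.mk' (Ker F) κ = 1 := (QuotientGroup.eq_one_iff _).2 hκ
          rw [h6, one_mul]
          rfl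
        rw [h5]
        exact h4
  rcases h2 (G := G ⧸ Ker F) (X := Vq (Ker F) (Cone F P.D)) hQ
    (hok (G := G) (X := X) hG hF hci) le_rfl (fun c g hg => hg) hS' a b hx' hU' with h3 | h3
  · exact Or.inl (P11_comm _ a b h3)
  · right
    rw [← P11_Ew]
    exact (QuotientGroup.eq_one_iff _).2 h3

end Mon
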