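import Pool.Agent.Work.MP_6f5fa7_al.Mon.Defs3

/-! Mon: M13, the type 2 family (relators `W(V,x)`). -/
set_option autoImplicit false

namespace Mon

/-- prefix products -/
def S.gs_zero : Prop :=
  ∀ (G : Type) [Group G] (Q N : ℕ) (hN : 1 ≤ N) (V x : G),
    gs Q N V x 0 = 1

def S.gs_succ : Prop :=
  ∀ (G : Type) [Group G] (Q N : ℕ) (hN : 1 ≤ N) (V x : G) (j : ℤ),
    gs Q N V x (j + 1) = gs Q N V x j * (V ^ (fx Q N j) * x)

def S.gs_period : Prop :=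
  ∀ (G : Type) [Group G] (Q N : ℕ) (hN : 1 ≤ N) (V x : G) (j k : ℤ),
    gs Q N V x (j + k * N) = Ww Q N V x ^ k * gs Q N V x j

-- variable {G X : Type} [Group G] [MulAction G X] {d : X → X → ℕ} {P : Par} {F : Fam G X}   (hG : P.St G d P.M) (hF : Fam1 P d F) {V x : G} {c : F.C} (h : Rel1 P d F V x c)

def S.axs_next : Prop :=
  ∀ {G X : Type} [Group G] [MulAction G X] {d : X → X → ℕ} {P : Par} {F : Fam G X}   (hG : P.St G d P.M) (hF : Fam1 P d F) {V x : G} {c : F.C} (h : Rel1 P d F V x c)  (j : ℤ),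
    axs P F V x c (j + 1) = gs P.Q P.N V x j • (V ^ (fx P.Q P.N j) • (x • c))

def S.axs_prev : Prop :=
  ∀ {G X : Type} [Group G] [MulAction G X] {d : X → X → ℕ} {P : Par} {F : Fam G X}   (hG : P.St G d P.M) (hF : Fam1 P d F) {V x : G} {c : F.C} (h : Rel1 P d F V x c)  (j : ℤ),
    axs P F V x c (j - 1) = gs P.Q P.N V x j • (x⁻¹ • c)

def S.rel_len : Prop :=
  ∀ {G X : Type} [Group G] [MulAction G X] {d : X → X → ℕ} {P : Par} {F : Fam G X}   (hG : P.St G d P.M) (hF : Fam1 P d F) {V x : G} {c : F.C} (h : Rel1 P d F V x c),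
    2 * P.D + 2 ≤ qd (Ker F) (cd F P.D d P.s) (ap F P.D c) (x • ap F P.D c) ∧
    qd (Ker F) (cd F P.D d P.s) (ap F P.D c) (x • ap F P.D c) ≤ 3 * P.D

def S.rel_step : Prop :=
  ∀ {G X : Type} [Group G] [MulAction G X] {d : X → X → ℕ} {P : Par} {F : Fam G X}   (hG : P.St G d P.M) (hF : Fam1 P d F) {V x : G} {c : F.C} (h : Rel1 P d F V x c)  (j : ℤ),
    qd (Ker F) (cd F P.D d P.s) (ap F P.D (axs P F V x c j))
    (ap F P.D (axs P F V x c (j + 1))) =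
      qd (Ker F) (cd F P.D d P.s) (ap F P.D c) (x • ap F P.D c)

def S.rel_ne : Prop :=
  ∀ {G X : Type} [Group G] [MulAction G X] {d : X → X → ℕ} {P : Par} {F : Fam G X}   (hG : P.St G d P.M) (hF : Fam1 P d F) {V x : G} {c : F.C} (h : Rel1 P d F V x c)  (j : ℤ) (κ : G) (hκ : κ ∈ Ker F),
    κ • axs P F V x c j ≠ axs P F V x c (j + 1)

/-- the exits toward `x c` and `x⁻¹ c` are close modulo `R c` -/
def S.rel_exits : Prop :=
  ∀ {G X : Type} [Group G] [MulAction G X] {d : X → X → ℕ} {P : Par} {F : Fam G X}   (hG : P.St G d P.M) (hF : Fam1 P d F) {V x : G} {c : F.C} (h : Rel1 P d F V x c)  (y y' : X)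
    (hy : y ∈ Exi F P.D (qd (Ker F) (cd F P.D d P.s)) c (x⁻¹ • ap F P.D c))
    (hy' : y' ∈ Exi F P.D (qd (Ker F) (cd F P.D d P.s)) c (x • ap F P.D c)),
    ∃ r ∈ F.R c, d y (r • y') ≤ P.θ

/-- sizes of the rotations -/
def S.rel_V : Prop :=
  ∀ {G X : Type} [Group G] [MulAction G X] {d : X → X → ℕ} {P : Par} {F : Fam G X}   (hG : P.St G d P.M) (hF : Fam1 P d F) {V x : G} {c : F.C} (h : Rel1 P d F V x c)  (y : X) (hy : y ∈ F.Y c) (f : ℕ),
    f * (16 * P.δ) ≤ P.M * d y (V ^ f • y) ∧ d y (V ^ f • y) ≤ f * (2 * P.θ)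

def S.rel_turn : Prop :=
  ∀ {G X : Type} [Group G] [MulAction G X] {d : X → X → ℕ} {P : Par} {F : Fam G X}   (hG : P.St G d P.M) (hF : Fam1 P d F) {V x : G} {c : F.C} (h : Rel1 P d F V x c)  (j : ℤ),
    AngQ F P.D d (qd (Ker F) (cd F P.D d P.s)) (axs P F V x c j)
    (ap F P.D (axs P F V x c (j - 1))) (ap F P.D (axs P F V x c (j + 1))) (100 * P.θ)

def S.ax_ang : Prop :=
  ∀ {G X : Type} [Group G] [MulAction G X] {d : X → X → ℕ} {P : Par} {F : Fam G X}   (hG : P.St G d P.M) (hF : Fam1 P d F) {V x : G} {c : F.C} (h : Rel1 P d F V x c)  (i j l : ℤ) (hij : i < j) (hjl : j < l),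
    AngQ F P.D d (qd (Ker F) (cd F P.D d P.s)) (axs P F V x c j)
      (ap F P.D (axs P F V x c i)) (ap F P.D (axs P F V x c l)) (96 * P.θ)

def S.ax_dist : Prop :=
  ∀ {G X : Type} [Group G] [MulAction G X] {d : X → X → ℕ} {P : Par} {F : Fam G X}   (hG : P.St G d P.M) (hF : Fam1 P d F) {V x : G} {c : F.C} (h : Rel1 P d F V x c)  (i : ℤ) (m : ℕ),
    qd (Ker F) (cd F P.D d P.s) (ap F P.D (axs P F V x c i))
    (ap F P.D (axs P F V x c (i + m))) =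
      m * qd (Ker F) (cd F P.D d P.s) (ap F P.D c) (x • ap F P.D c)

/-- points between two apices of the axis are between two consecutive ones -/
def S.ax_seg : Prop :=
  ∀ {G X : Type} [Group G] [MulAction G X] {d : X → X → ℕ} {P : Par} {F : Fam G X}   (hG : P.St G d P.M) (hF : Fam1 P d F) {V x : G} {c : F.C} (h : Rel1 P d F V x c)  (i : ℤ) (m : ℕ) (hm : 1 ≤ m) (z : Cone F P.D)
    (hz : Btw (qd (Ker F) (cd F P.D d P.s)) (ap F P.D (axs P F V x c i)) z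
      (ap F P.D (axs P F V x c (i + m))) 0),
    ∃ k : ℕ, k < m ∧ Btw (qd (Ker F) (cd F P.D d P.s)) (ap F P.D (axs P F V x c (i + k))) z
      (ap F P.D (axs P F V x c (i + k + 1))) 0

def S.ax_inj : Prop :=
  ∀ {G X : Type} [Group G] [MulAction G X] {d : X → X → ℕ} {P : Par} {F : Fam G X}   (hG : P.St G d P.M) (hF : Fam1 P d F) {V x : G} {c : F.C} (h : Rel1 P d F V x c)  (i j : ℤ) (κ : G) (hκ : κ ∈ Ker F)
    (hij : κ • axs P F V x c i = axs P F V x c j),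
    i = j

-- variable {V' x' : G} {c' : F.C} (h' : Rel1 P d F V' x' c')

/-- long overlaps give common apices -/
def S.piece_window : Prop :=
  ∀ {G X : Type} [Group G] [MulAction G X] {d : X → X → ℕ} {P : Par} {F : Fam G X}   (hG : P.St G d P.M) (hF : Fam1 P d F) {V x : G} {c : F.C} (h : Rel1 P d F V x c) {V' x' : G} {c' : F.C} (h' : Rel1 P d F V' x' c')  (i j i' j' : ℤ) (a b a' b' : Cone F P.D)
    (ha : Btw (qd (Ker F) (cd F P.D d P.s)) (ap F P.D (axs P F V x c i)) a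
      (ap F P.D (axs P F V x c (i + 1))) 0)
    (hb : Btw (qd (Ker F) (cd F P.D d P.s)) (ap F P.D (axs P F V x c j)) b
      (ap F P.D (axs P F V x c (j + 1))) 0)
    (ha' : Btw (qd (Ker F) (cd F P.D d P.s)) (ap F P.D (axs P F V' x' c' i')) a'
      (ap F P.D (axs P F V' x' c' (i' + 1))) 0)
    (hb' : Btw (qd (Ker F) (cd F P.D d P.s)) (ap F P.D (axs P F V' x' c' j')) b'
      (ap F P.D (axs P F V' x' c' (j' + 1))) 0)
    (h1 : qd (Ker F) (cd F P.D d P.s) a a' ≤ 100 * P.A)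
    (h2 : qd (Ker F) (cd F P.D d P.s) b b' ≤ 100 * P.A)
    (h3 : P.s < 50 * qd (Ker F) (cd F P.D d P.s) a b),
    ∃ l m ε : ℤ, (ε = 1 ∨ ε = -1) ∧ ∀ k : ℤ, 0 ≤ k → k ≤ 4 →
      ∃ κ ∈ Ker F, κ • axs P F V x c (l + k) = axs P F V' x' c' (m + ε * k)

/-- comparison of the turns at a common apex, same orientation -/
def S.turn_cmp : Prop :=
  ∀ {G X : Type} [Group G] [MulAction G X] {d : X → X → ℕ} {P : Par} {F : Fam G X}   (hG : P.St G d P.M) (hF : Fam1 P d F) {V x : G} {c : F.C} (h : Rel1 P d F V x c) {V' x' : G} {c' : F.C} (h' : Rel1 P d F V' x' c')  (g : G) (hg : g • c' = c) (f f' : ℕ) (hf : f ≤ P.Q ^ P.N) (hf' : f' ≤ P.Q ^ P.N)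
    (κ κ' : G) (hκ : κ ∈ Ker F) (hκ' : κ' ∈ Ker F) (h1 : κ • (g • (x'⁻¹ • c')) = x⁻¹ • c)
    (h2 : κ' • (g • (V' ^ f' • (x' • c'))) = V ^ f • (x • c)) (y : X) (hy : y ∈ F.Y c),
    d y ((V⁻¹ ^ f * (g * V' * g⁻¹) ^ f') • y) ≤ 10 * P.θ

/-- comparison of the turns at a common apex, reversed orientation -/
def S.turn_cmp_rev : Prop :=
  ∀ {G X : Type} [Group G] [MulAction G X] {d : X → X → ℕ} {P : Par} {F : Fam G X}   (hG : P.St G d P.M) (hF : Fam1 P d F) {V x : G} {c : F.C} (h : Rel1 P d F V x c) {V' x' : G} {c' : F.C} (h' : Rel1 P d F V' x' c')  (g : G) (hg : g • c' = c) (f f' : ℕ) (hf : f ≤ P.Q ^ P.N)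
    (hf' : f' ≤ P.Q ^ P.N) (κ κ' : G) (hκ : κ ∈ Ker F) (hκ' : κ' ∈ Ker F)
    (h1 : κ • (g • (V' ^ f' • (x' • c'))) = x⁻¹ • c)
    (h2 : κ' • (g • (x'⁻¹ • c')) = V ^ f • (x • c)) (y : X) (hy : y ∈ F.Y c),
    d y ((V ^ f * (g * V' * g⁻¹) ^ f') • y) ≤ 10 * P.θ

/-- consequence: equal exponents, and equal rotations -/
def S.turn_eq : Prop :=
  ∀ {G X : Type} [Group G] [MulAction G X] {d : X → X → ℕ} {P : Par} {F : Fam G X}   (hG : P.St G d P.M) (hF : Fam1 P d F) {V x : G} {c : F.C} (h : Rel1 P d F V x c) {V' x' : G} {c' : F.C} (h' : Rel1 P d F V' x' c')  (g : G) (hg : g • c' = c) (i j : ℕ) (hi : 1 ≤ i) (hj : 1 ≤ j)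
    (y : X) (hy : y ∈ F.Y c)
    (hcmp : d y ((V⁻¹ ^ (P.Q ^ i) * (g * V' * g⁻¹) ^ (P.Q ^ j)) • y) ≤ 10 * P.θ),
    i = j ∧ g * V' * g⁻¹ = V

def S.turn_eq_rev : Prop :=
  ∀ {G X : Type} [Group G] [MulAction G X] {d : X → X → ℕ} {P : Par} {F : Fam G X}   (hG : P.St G d P.M) (hF : Fam1 P d F) {V x : G} {c : F.C} (h : Rel1 P d F V x c) {V' x' : G} {c' : F.C} (h' : Rel1 P d F V' x' c')  (g : G) (hg : g • c' = c) (i j : ℕ) (hi : 1 ≤ i) (hj : 1 ≤ j)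
    (y : X) (hy : y ∈ F.Y c)
    (hcmp : d y ((V ^ (P.Q ^ i) * (g * V' * g⁻¹) ^ (P.Q ^ j)) • y) ≤ 10 * P.θ),
    i = j

/-- five consecutive common apices determine the relator -/
def S.piece_core : Prop :=
  ∀ {G X : Type} [Group G] [MulAction G X] {d : X → X → ℕ} {P : Par} {F : Fam G X}   (hG : P.St G d P.M) (hF : Fam1 P d F) {V x : G} {c : F.C} (h : Rel1 P d F V x c) {V' x' : G} {c' : F.C} (h' : Rel1 P d F V' x' c')  (l m ε : ℤ) (hε : ε = 1 ∨ ε = -1)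
    (hw : ∀ k : ℤ, 0 ≤ k → k ≤ 4 →
      ∃ κ ∈ Ker F, κ • axs P F V x c (l + k) = axs P F V' x' c' (m + ε * k)),
    ε = 1 ∧ (P.N : ℤ) ∣ l - m ∧ ∃ g : G, g • c' = c ∧ g * V' * g⁻¹ = V ∧
      (∃ κ ∈ Ker F, g * x' * g⁻¹ = κ * x) ∧
      ∀ k : ℤ, ∃ κ ∈ Ker F, gs P.Q P.N V x (l + k) * g = κ * gs P.Q P.N V' x' (m + k)

/-- the stabiliser of the axis is generated by `W` modulo the kernel -/
def S.ax_stab : Prop :=
  ∀ {G X : Type} [Group G] [MulAction G X] {d : X → X → ℕ} {P : Par} {F : Fam G X}   (hG : P.St G d P.M) (hF : Fam1 P d F) {V x : G} {c : F.C} (h : Rel1 P d F V x c) {V' x' : G} {c' : F.C} (h' : Rel1 P d F V' x' c')  (g : G)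
    (hg : ∀ j : ℤ, ∃ (j' : ℤ) (κ : G), κ ∈ Ker F ∧
      κ • (g • axs P F V x c j) = axs P F V x c j'),
    ∃ (k : ℤ) (κ : G), κ ∈ Ker F ∧ g = κ * Ww P.Q P.N V x ^ k

end Mon

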