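import Pool.Agent.Work.MP_6f5fa7_al.Mon.StCone
import Pool.Agent.Work.MP_6f5fa7_al.Mon.StAct
import Pool.Agent.Work.MP_6f5fa7_al.Mon.StPiece

/-!
[MON P2] (helper66): lengths, exits, sizes and turns of the relators.
-/
set_option autoImplicit false

namespace Mon

private theorem P2_num (P : Par) :
    1 ≤ P.δ ∧ 1 ≤ P.s ∧ 1 ≤ P.D ∧ 1 ≤ P.M ∧ 1 ≤ P.N ∧ 2 * P.A0 + 6 * P.δ ≤ P.D ∧
      P.A ≤ P.θ ∧ 1 ≤ P.θ ∧ 5000 * P.θ ≤ P.TT2 := by
  have e : 1000 * P.Λ ≤ Ex (1000 * P.Λ) := by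
    unfold Ex
    exact Nat.le_mul_of_pos_right _ (by positivity)
  have h1 := P.h1
  have h2 := P.hδ
  have h3 := P.hΛs
  have h4 := P.hΛ
  have h5 := P.hA0
  have h6 := P.hD
  have h7 := P.hA
  have h8 := P.hs
  have h9 := P.hTT2
  have h10 := P.hM
  have h11 := P.hN10
  have u1 : P.s ≤ P.s * 2 ^ P.D := Nat.le_mul_of_pos_right _ (by positivity)
  have u2 : P.s * 2 ^ P.D ≤ P.δ1 * (P.s * 2 ^ P.D) := Nat.le_mul_of_pos_left _ h1
  have u3 : P.δ1 * P.s * 2 ^ P.D = P.δ1 * (P.s * 2 ^ P.D) := by ring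
  have u4 : P.θ = 12 * (P.δ1 * (P.s * 2 ^ P.D)) + 6 * (P.s * 2 ^ P.D) := by
    unfold Par.θ
    ring
  rw [u3] at h9
  generalize P.δ1 * (P.s * 2 ^ P.D) = w at u2 u4 h9
  generalize P.s * 2 ^ P.D = u at u1 u2 u4
  generalize 10 * P.M1 * (P.s * Ex (1000 * P.Λ)) = z at h10
  refine ⟨by omega, by omega, by omega, by omega, by omega, by omega, by omega, by omega,
    by omega⟩

private theorem P2_Q (P : Par) : 1 ≤ P.Q := by
  obtain ⟨-, -, -, hM, -, -, -, hθ, hT⟩ := P2_num P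
  have h1 := P.hQ
  have h2 : 1 ≤ P.M * P.TT2 := Nat.mul_pos hM (by omega)
  have h3 : 1000 * P.M * P.TT2 = 1000 * (P.M * P.TT2) := by ring
  omega

private theorem P2_TT (P : Par) : 1000 * P.TT2 * P.Q ^ P.N ≤ P.TT1 := by
  have h1 : P.Q ^ P.N ≤ P.Q ^ (10 * P.N + 100) :=
    Nat.pow_le_pow_right (P2_Q P) (by omega)
  exact (Nat.mul_le_mul_left _ h1).trans P.hTT1

private theorem P2_T (P : Par) : P.TT2 ≤ P.TT1 := by
  have h1 : 1 ≤ P.Q ^ P.N := Nat.one_le_pow _ _ (P2_Q P)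
  have h2 : 1000 * P.TT2 * 1 ≤ 1000 * P.TT2 * P.Q ^ P.N := Nat.mul_le_mul_left _ h1
  have h3 := P2_TT P
  omega

section
variable {G X : Type} [Group G] [MulAction G X] {d : X → X → ℕ} {P : Par} {F : Fam G X}
  {V x : G} {c : F.C}

private theorem P2_ap (D : ℕ) (g : G) (c : F.C) : ap F D (g • c) = g • ap F D c := rfl

private theorem P2_ap_inj {D : ℕ} {c c' : F.C} (h : ap F D c = ap F D c') : c = c' := by
  have h1 : (CV.apex c : CV X F.C) = CV.apex c' := congrArg Subtype.val h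
  injection h1

private theorem P2_fix (h : Rel1 P d F V x c) (f : ℕ) : V ^ f • c = c :=
  MulAction.mem_stabilizer_iff.1 (Subgroup.pow_mem (MulAction.stabilizer G c)
    (MulAction.mem_stabilizer_iff.2 h.fix) f)

/-- `x c` is not in the orbit of `c` under the kernel -/
private theorem P2_ne1 (h : Rel1 P d F V x c) : ∀ κ ∈ Ker F, κ • c ≠ x • c := by
  intro κ hκ he
  refine h.nofix c ⟨κ⁻¹, (Ker F).inv_mem hκ, ?_⟩
  rw [mul_smul, ← he, inv_smul_smul]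

/-- `x⁻¹ c` is not in the orbit of `c` under the kernel -/
private theorem P2_ne2 (h : Rel1 P d F V x c) : ∀ κ ∈ Ker F, x⁻¹ • c ≠ κ • c := by
  intro κ hκ he
  refine h.nofix c ⟨x * κ * x⁻¹, (ker_nrm F).conj_mem κ hκ x, ?_⟩
  rw [inv_mul_cancel_right, mul_smul, ← he, smul_inv_smul]

end

theorem rel_len (hap : S.qd_ap) (hle : S.qd_le) (hcg : S.cone_geo) (hci : S.cone_isom) :
    S.rel_len := by
  intro G X _ _ d P F hG hF V x c h
  obtain ⟨n1, n2, n3, n4, n5, n6, n7, n8, n9⟩ := P2_num P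
  refine ⟨hap hG hF.ok (P2_T P) c (x • c) (P2_ne1 h), ?_⟩
  obtain ⟨p, h1, h2⟩ := h.close
  have g1 := hle hG hF.ok (P2_T P) (ap F P.D c) (x • ap F P.D c) 1 (Ker F).one_mem
  rw [one_smul] at g1
  have geo := hcg (F := F) hG.geo hG.isom n2 n3
  have iso := hci (F := F) hG.geo hG.isom n2 n3
  have t1 := geo.tri (ap F P.D c) p (x • ap F P.D c)
  have t2 := geo.tri p (x • p) (x • ap F P.D c)
  have t3 := iso x p (ap F P.D c)
  have t4 := geo.symm (ap F P.D c) p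
  omega

theorem rel_step (hnext : S.axs_next) (hqi : S.qd_isom) : S.rel_step := by
  intro G X _ _ d P F hG hF V x c h j
  have iso := hqi hG hF.ok (P2_T P)
  rw [hnext hG hF h j]
  have e1 : ap F P.D (axs P F V x c j) = gs P.Q P.N V x j • ap F P.D c := rfl
  have e2 : ap F P.D (gs P.Q P.N V x j • (V ^ (fx P.Q P.N j) • (x • c))) =
      gs P.Q P.N V x j • (V ^ (fx P.Q P.N j) • (x • ap F P.D c)) := rfl
  rw [e1, e2, iso]
  have e3 : ap F P.D c = V ^ (fx P.Q P.N j) • ap F P.D c := by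
    rw [← P2_ap, P2_fix h]
  calc qd (Ker F) (cd F P.D d P.s) (ap F P.D c) (V ^ (fx P.Q P.N j) • (x • ap F P.D c))
      = qd (Ker F) (cd F P.D d P.s) (V ^ (fx P.Q P.N j) • ap F P.D c)
        (V ^ (fx P.Q P.N j) • (x • ap F P.D c)) := by rw [← e3]
    _ = _ := iso _ _ _

theorem rel_ne (hlen : S.rel_len) (hstep : S.rel_step) (hz : S.qd_zero) : S.rel_ne := by
  intro G X _ _ d P F hG hF V x c h j κ hκ he
  have h1 := hstep hG hF h j
  have h2 := (hlen hG hF h).1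
  have h3 := hz hG hF.ok (P2_T P) κ hκ (ap F P.D (axs P F V x c j))
  rw [← he, P2_ap, h3] at h1
  omega

theorem rel_exits (hap : S.qd_ap) (hle : S.qd_le) (hcg : S.cone_geo) (hci : S.cone_isom)
    (hqi : S.qd_isom) (hthru : S.angQ_thru) : S.rel_exits := by
  intro G X _ _ d P F hG hF V x c h y y' hy hy'
  obtain ⟨n1, n2, n3, n4, n5, n6, n7, n8, n9⟩ := P2_num P
  by_contra hcon
  push Not at hcon
  have hA : AngQ F P.D d (qd (Ker F) (cd F P.D d P.s)) c (x⁻¹ • ap F P.D c)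
      (x • ap F P.D c) (P.θ + 1) := ⟨y, hy, y', hy', fun r hr => hcon r hr⟩
  have hth := (hthru hG hF.ok (P2_T P) c _ _ (P.θ + 1) (Nat.lt_succ_self _) hA).1
  have iso' := hqi hG hF.ok (P2_T P)
  have e1 : qd (Ker F) (cd F P.D d P.s) (x⁻¹ • ap F P.D c) (ap F P.D c) =
      qd (Ker F) (cd F P.D d P.s) (ap F P.D c) (x • ap F P.D c) := by
    rw [← iso' x (x⁻¹ • ap F P.D c) (ap F P.D c), smul_inv_smul]
  have e2 := hap hG hF.ok (P2_T P) c (x • c) (P2_ne1 h)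
  rw [P2_ap] at e2
  obtain ⟨p, h1, h2⟩ := h.close
  have g1 := hle hG hF.ok (P2_T P) (x⁻¹ • ap F P.D c) (x • ap F P.D c) 1 (Ker F).one_mem
  rw [one_smul] at g1
  have geo := hcg (F := F) hG.geo hG.isom n2 n3
  have iso := hci (F := F) hG.geo hG.isom n2 n3
  have t1 := geo.tri (x⁻¹ • ap F P.D c) (x⁻¹ • p) (x • ap F P.D c)
  have t2 := geo.tri (x⁻¹ • p) p (x • ap F P.D c)
  have t3 := geo.tri p (x • p) (x • ap F P.D c)
  have t4 := iso x p (ap F P.D c)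
  have t5 := iso x⁻¹ (ap F P.D c) p
  have t6 := geo.symm (ap F P.D c) p
  have t7 : cd F P.D d P.s (x⁻¹ • p) p = cd F P.D d P.s p (x • p) := by
    rw [← iso x (x⁻¹ • p) p, smul_inv_smul]
  omega

theorem rel_V : S.rel_V := by
  intro G X _ _ d P F hG hF V x c h y hy f
  obtain ⟨n1, n2, n3, n4, n5, n6, n7, n8, n9⟩ := P2_num P
  have hV1 : V ≠ 1 := by
    rintro rfl
    exact h.ntr (F.R c).one_mem
  refine ⟨hF.gr c V y f h.fix hV1, ?_⟩
  obtain ⟨y0, hy0, h0⟩ := h.small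
  have h1 : d y (V • y) ≤ 2 * P.θ := by
    have := hF.disp c V y y0 h.fix hy hy0
    omega
  induction f with
  | zero =>
    rw [pow_zero, one_smul, hG.geo.self]
    exact Nat.zero_le _
  | succ f ih =>
    have t1 := hG.geo.tri y (V • y) (V ^ (f + 1) • y)
    have t2 : d (V • y) (V ^ (f + 1) • y) = d y (V ^ f • y) := by
      rw [pow_succ', mul_smul, hG.isom]
    have t3 : (f + 1) * (2 * P.θ) = f * (2 * P.θ) + 2 * P.θ := by ring
    omega

theorem rel_turn (hnext : S.axs_next) (hprev : S.axs_prev) (hsm : S.angQ_smul)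
    (hne : S.exitQ_ne) (hes : S.exitQ_smul) (hex : S.rel_exits) (hV : S.rel_V) :
    S.rel_turn := by
  intro G X _ _ d P F hG hF V x c h j
  obtain ⟨n1, n2, n3, n4, n5, n6, n7, n8, n9⟩ := P2_num P
  have nQ := P2_Q P
  rw [hnext hG hF h j, hprev hG hF h j]
  obtain ⟨f, hf⟩ : ∃ f, f = fx P.Q P.N j := ⟨_, rfl⟩
  rw [← hf]
  refine hsm hG hF.ok (P2_T P) (gs P.Q P.N V x j) c (ap F P.D (x⁻¹ • c))
    (ap F P.D (V ^ f • (x • c))) (100 * P.θ) ?_
  -- bounds of the exponent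
  have hf1 : P.Q ≤ f := by
    rw [hf]
    unfold fx
    rw [pow_succ]
    exact Nat.le_mul_of_pos_left _ (Nat.one_le_pow _ _ nQ)
  have hf2 : f ≤ P.Q ^ P.N := by
    rw [hf]
    unfold fx
    refine Nat.pow_le_pow_right nQ ?_
    have hN : (0 : ℤ) < (P.N : ℤ) := by exact_mod_cast n5
    have e1 := Int.emod_nonneg j hN.ne'
    have e2 := Int.emod_lt_of_pos j hN
    omega
  -- exits
  obtain ⟨y1, hy1⟩ := hne hG hF.ok (P2_T P) c (x⁻¹ • ap F P.D c) (fun κ hκ he =>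
    P2_ne2 h κ hκ (P2_ap_inj (F := F) (D := P.D) he))
  obtain ⟨y2, hy2⟩ := hne hG hF.ok (P2_T P) c (x • ap F P.D c) (fun κ hκ he =>
    P2_ne1 h κ hκ (P2_ap_inj (F := F) (D := P.D) he.symm))
  have hy3 := hes hG hF.ok (P2_T P) (V ^ f) c (x • ap F P.D c) y2 hy2
  have hy2Y : y2 ∈ F.Y c := by
    obtain ⟨y, hy, -⟩ := hy2
    rw [← hy]
    exact y.2
  have hy3Y : V ^ f • y2 ∈ F.Y c := by
    have := F.Y_smul (V ^ f) c y2 hy2Y
    rwa [P2_fix h] at this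
  rw [P2_fix h] at hy3
  refine ⟨y1, hy1, V ^ f • y2, hy3, fun r hr => ?_⟩
  obtain ⟨r0, hr0, hd0⟩ := hex hG hF h y1 y2 hy1 hy2
  obtain ⟨v1, v2⟩ := hV hG hF h y2 hy2Y f
  have tr := hG.geo.tri (r0 • y2) y1 (r • V ^ f • y2)
  have sy := hG.geo.symm (r0 • y2) y1
  have e1 : d (r0 • y2) (r • V ^ f • y2) = d y2 ((r0⁻¹ * r) • V ^ f • y2) := by
    have e2 : r • V ^ f • y2 = r0 • (r0⁻¹ * r) • V ^ f • y2 := by
      rw [smul_smul r0, mul_inv_cancel_left]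
    rw [e2, hG.isom]
  by_cases hρ : r0⁻¹ * r = 1
  · rw [hρ, one_smul] at e1
    -- the rotation alone is large
    have k1 : P.M * P.TT2 ≤ P.M * d y2 (V ^ f • y2) := by
      have k2 : P.M * P.TT2 ≤ P.Q := by
        have := P.hQ
        have k3 : 1000 * P.M * P.TT2 = 1000 * (P.M * P.TT2) := by ring
        omega
      have k4 : f ≤ f * (16 * P.δ) := Nat.le_mul_of_pos_right _ (by omega)
      omega
    have k5 := Nat.le_of_mul_le_mul_left k1 n4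
    omega
  · have hmem : r0⁻¹ * r ∈ F.R c := (F.R c).mul_mem ((F.R c).inv_mem hr0) hr
    have b1 := hF.ok.big c (r0⁻¹ * r) (V ^ f • y2) hmem hρ hy3Y
    have b2 := hG.geo.tri (V ^ f • y2) y2 ((r0⁻¹ * r) • V ^ f • y2)
    have b3 := hG.geo.symm (V ^ f • y2) y2
    have b4 := P2_TT P
    have b5 : 1 ≤ P.Q ^ P.N := Nat.one_le_pow _ _ nQ
    have b6 : f * (2 * P.θ) ≤ P.Q ^ P.N * (2 * P.θ) := Nat.mul_le_mul_right _ hf2
    have b7 : P.θ * 1 ≤ P.θ * P.Q ^ P.N := Nat.mul_le_mul_left _ b5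
    have b8 : 5000 * P.θ * P.Q ^ P.N ≤ P.TT2 * P.Q ^ P.N := Nat.mul_le_mul_right _ n9
    have b9 : P.Q ^ P.N * (2 * P.θ) = 2 * (P.θ * P.Q ^ P.N) := by ring
    have b10 : 5000 * P.θ * P.Q ^ P.N = 5000 * (P.θ * P.Q ^ P.N) := by ring
    have b11 : 1000 * P.TT2 * P.Q ^ P.N = 1000 * (P.TT2 * P.Q ^ P.N) := by ring
    rw [b9] at b6
    rw [b10] at b8
    rw [b11] at b4
    omega

end Mon
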