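import Pool.Agent.Work.MP_6f5fa7_al.Mon.StPiece
import Pool.Agent.Work.MP_6f5fa7_al.Mon.StAct
import Pool.Agent.Work.MP_6f5fa7_al.Mon.StDesc

/-! Mon: item P3, distances on the axis of a relator. -/
set_option autoImplicit false

namespace Mon

private theorem P3_pos (P : Par) : 0 < P.s ∧ 0 < P.θ ∧ P.TT2 ≤ P.TT1 := by
  have h1 := P.h1
  have hδ := P.hδ
  have hΛs := P.hΛs
  have hΛ := P.hΛ
  have hA0 := P.hA0
  have hD := P.hD
  have hA := P.hA
  have hs := P.hs
  have hM1 := P.hM1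
  have hM := P.hM
  have hTT2 := P.hTT2
  have hQ := P.hQ
  have hTT1 := P.hTT1
  have e1 : 0 < Ex (1000 * P.Λ) := by
    unfold Ex
    have : 0 < 1000 * P.Λ := by omega
    positivity
  have s0 : 0 < P.s := by omega
  have t0 : 0 < P.δ1 * P.s * 2 ^ P.D := by
    have : 0 < P.δ1 := by omega
    positivity
  have t1 : 0 < P.TT2 := by omega
  have m0 : 0 < P.M := by omega
  have q0 : 0 < P.Q := by
    have : 0 < 1000 * P.M * P.TT2 := by positivity
    omega
  refine ⟨s0, ?_, ?_⟩
  · unfold Par.θ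
    positivity
  · have q1 : 1 ≤ P.Q ^ (10 * P.N + 100) := Nat.one_le_pow _ _ q0
    calc P.TT2 ≤ 1000 * P.TT2 := by omega
      _ = 1000 * P.TT2 * 1 := by ring
      _ ≤ 1000 * P.TT2 * P.Q ^ (10 * P.N + 100) := Nat.mul_le_mul_left _ q1
      _ ≤ P.TT1 := hTT1

private theorem P3_cd_self {G X : Type} [Group G] [MulAction G X] (F : Fam G X) (D : ℕ)
    (d : X → X → ℕ) (s : ℕ) (p : Cone F D) : cd F D d s p p = 0 := by
  apply Nat.le_zero.mp
  unfold cd rdist
  exact Nat.sInf_le rfl

private theorem P3_qd_self {G X : Type} [Group G] [MulAction G X] (F : Fam G X) (D : ℕ)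
    (d : X → X → ℕ) (s : ℕ) (p : Cone F D) {κ : G} (hκ : κ ∈ Ker F) :
    qd (Ker F) (cd F D d s) p (κ • p) = 0 := by
  apply Nat.le_zero.mp
  unfold qd
  refine Nat.sInf_le ⟨κ⁻¹, (Ker F).inv_mem hκ, ?_⟩
  rw [inv_smul_smul]
  exact P3_cd_self F D d s p

theorem ax_ang (hcan : S.canoeQ) (hturn : S.rel_turn) (hne : S.rel_ne) : S.ax_ang := by
  intro G X _ _ d P F hG hF V x c h i j l hij hjl
  have hp := P3_pos P
  have h1 := hcan hG hF.ok hp.2.2 (axs P F V x c) (100 * P.θ) (by omega)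
    (fun i κ hκ => hne hG hF h i κ hκ) (fun i => hturn hG hF h i) i j l hij hjl
  have h2 : 100 * P.θ - 4 * P.θ = 96 * P.θ := by omega
  rw [h2] at h1
  exact h1

private theorem P3_thru (hang : S.ax_ang) (hthru : S.angQ_thru)
    {G X : Type} [Group G] [MulAction G X] {d : X → X → ℕ} {P : Par} {F : Fam G X}
    (hG : P.St G d P.M) (hF : Fam1 P d F) {V x : G} {c : F.C} (h : Rel1 P d F V x c)
    (i j l : ℤ) (hij : i < j) (hjl : j < l) :
    Thru (qd (Ker F) (cd F P.D d P.s)) (ap F P.D (axs P F V x c j))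
      (ap F P.D (axs P F V x c i)) (ap F P.D (axs P F V x c l)) := by
  have hp := P3_pos P
  exact hthru hG hF.ok hp.2.2 _ _ _ (96 * P.θ) (by omega) (hang hG hF h i j l hij hjl)

theorem ax_dist (hang : S.ax_ang) (hthru : S.angQ_thru) (hstep : S.rel_step) : S.ax_dist := by
  intro G X _ _ d P F hG hF V x c h i m
  induction m with
  | zero =>
    have := P3_qd_self F P.D d P.s (ap F P.D (axs P F V x c i)) (Ker F).one_mem
    rw [one_smul] at this
    simpa using this
  | succ m ih =>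
    have hs := hstep hG hF h (i + m)
    have e1 : (i + ((m + 1 : ℕ) : ℤ)) = i + m + 1 := by push_cast; ring
    rw [e1]
    rcases Nat.eq_zero_or_pos m with hm | hm
    · subst hm
      simpa using hs
    · have h1 := (P3_thru hang hthru hG hF h i (i + m) (i + m + 1) (by omega) (by omega)).1
      rw [h1, ih, hs]
      ring

theorem ax_seg (hang : S.ax_ang) (hthru : S.angQ_thru) : S.ax_seg := by
  intro G X _ _ d P F hG hF V x c h i m hm z hz
  induction m with
  | zero => omega
  | succ m ih =>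
    rcases Nat.eq_zero_or_pos m with hm0 | hm0
    · subst hm0
      exact ⟨0, by omega, by simpa using hz⟩
    · have e1 : (i + ((m + 1 : ℕ) : ℤ)) = i + m + 1 := by push_cast; ring
      rw [e1] at hz
      rcases (P3_thru hang hthru hG hF h i (i + m) (i + m + 1) (by omega) (by omega)).2 z hz with
        h1 | h1
      · obtain ⟨k, hk, h2⟩ := ih hm0 h1
        exact ⟨k, by omega, h2⟩
      · exact ⟨m, by omega, h1⟩

private theorem P3_inj (hdist : S.ax_dist) (hlen : S.rel_len)
    {G X : Type} [Group G] [MulAction G X] {d : X → X → ℕ} {P : Par} {F : Fam G X}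
    (hG : P.St G d P.M) (hF : Fam1 P d F) {V x : G} {c : F.C} (h : Rel1 P d F V x c)
    (i j : ℤ) (hij : i < j) (κ : G) (hκ : κ ∈ Ker F)
    (he : κ • axs P F V x c i = axs P F V x c j) : False := by
  obtain ⟨m, hm⟩ : ∃ m : ℕ, j = i + m := ⟨(j - i).toNat, by omega⟩
  have hm0 : 0 < m := by omega
  have h1 := hdist hG hF h i m
  have h2 := (hlen hG hF h).1
  rw [← hm, ← he] at h1
  have h3 : ap F P.D (κ • axs P F V x c i) = κ • ap F P.D (axs P F V x c i) := rfl
  rw [h3, P3_qd_self F P.D d P.s _ hκ] at h1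
  have h4 : 0 < m * qd (Ker F) (cd F P.D d P.s) (ap F P.D c) (x • ap F P.D c) :=
    Nat.mul_pos hm0 (by omega)
  omega

theorem ax_inj (hdist : S.ax_dist) (hlen : S.rel_len) : S.ax_inj := by
  intro G X _ _ d P F hG hF V x c h i j κ hκ he
  rcases lt_trichotomy i j with h1 | h1 | h1
  · exact (P3_inj hdist hlen hG hF h i j h1 κ hκ he).elim
  · exact h1
  · exact (P3_inj hdist hlen hG hF h j i h1 κ⁻¹ ((Ker F).inv_mem hκ)
      (by rw [← he, inv_smul_smul])).elim

end Mon
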