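import Pool.Agent.Work.MP_6f5fa7_al.Mon.StPiece
import Pool.Agent.Work.MP_6f5fa7_al.Mon.StAct

/-! Mon: M13, long overlaps of two axes give common apices (piece_window). -/
set_option autoImplicit false

namespace Mon

/-- distances on an axis -/
private theorem P4_dist {V : Type} {q : V → V → ℕ} (hq : Geo q) (C : ℤ → V) (ℓ : ℕ)
    (hC : ∀ (i : ℤ) (m : ℕ), q (C i) (C (i + m)) = m * ℓ) (i j : ℤ) :
    q (C i) (C j) = (i - j).natAbs * ℓ := by
  rcases le_total i j with h | h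
  · obtain ⟨m, hm⟩ := Int.le.dest h
    rw [← hm, hC]
    congr 1
    omega
  · obtain ⟨m, hm⟩ := Int.le.dest h
    rw [← hm, hq.symm, hC]
    congr 1
    omega

/-- the window of common apices, abstractly -/
private theorem P4_core {V : Type} {q : V → V → ℕ} (hq : Geo q) (C C' : ℤ → V)
    (An : ℤ → V → V → ℕ → Prop) (D A ℓ ℓ' : ℕ) (hA : 1000 * D ≤ A)
    (hl1 : 2 * D + 2 ≤ ℓ) (hl2 : ℓ ≤ 3 * D) (hl2' : ℓ' ≤ 3 * D)
    (hC : ∀ (i : ℤ) (m : ℕ), q (C i) (C (i + m)) = m * ℓ)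
    (hC' : ∀ (i : ℤ) (m : ℕ), q (C' i) (C' (i + m)) = m * ℓ')
    (hseg : ∀ (i : ℤ) (m : ℕ), 1 ≤ m → ∀ z, Btw q (C' i) z (C' (i + m)) 0 →
      ∃ k : ℕ, k < m ∧ Btw q (C' (i + k)) z (C' (i + k + 1)) 0)
    (hang : ∀ i l j : ℤ, i < l → l < j → An l (C i) (C j) 96)
    (htri : ∀ (l : ℤ) (p v r : V) (t t1 t2 : ℕ), q (C l) v ≠ 0 → An l p r t → t1 + t2 ≤ t →
      An l p v t1 ∨ An l v r t2)
    (hthru : ∀ (l : ℤ) (p r : V) (t : ℕ), 10 ≤ t → An l p r t →
      q p r = q p (C l) + q (C l) r)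
    (i j i' j' : ℤ) (hij : i < j) (h1 : q (C i) (C' i') ≤ 100 * A + 6 * D)
    (h2 : q (C j) (C' j') ≤ 100 * A + 6 * D) (h3 : 19000 * A ≤ q (C i) (C j)) :
    ∃ l0 : ℤ, ∀ k : ℤ, 0 ≤ k → k ≤ 4 → ∃ n : ℤ, q (C (l0 + k)) (C' n) < 2 * D + 2 := by
  have hdC := P4_dist hq C ℓ hC
  have hdC' := P4_dist hq C' ℓ' hC'
  have hl0 : 0 < ℓ := by omega
  obtain ⟨K0, hK0, hK1⟩ : ∃ K0 : ℕ, 102 * A < K0 * ℓ ∧ K0 * ℓ ≤ 103 * A := by
    refine ⟨102 * A / ℓ + 1, ?_, ?_⟩
    · exact (Nat.div_lt_iff_lt_mul hl0).mp (Nat.lt_succ_self _)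
    · have := Nat.div_mul_le_self (102 * A) ℓ
      rw [Nat.add_mul, Nat.one_mul]
      omega
  obtain ⟨N, hN⟩ := Int.le.dest hij.le
  have hNl : 19000 * A ≤ N * ℓ := by
    have h := hC i N
    rw [hN] at h
    omega
  refine ⟨i + K0, fun k hk0 hk4 => ?_⟩
  obtain ⟨κ, hκ⟩ := Int.eq_ofNat_of_zero_le hk0
  have hκ4 : κ ≤ 4 := by omega
  have hl : i + (K0 : ℤ) + k = i + ((K0 + κ : ℕ) : ℤ) := by push_cast; omega
  rw [hl]
  have e1 : q (C i) (C (i + ((K0 + κ : ℕ) : ℤ))) = (K0 + κ) * ℓ := hC i (K0 + κ)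
  have e0 : κ * ℓ ≤ 4 * ℓ := Nat.mul_le_mul_right ℓ hκ4
  have e0' : (K0 + κ) * ℓ = K0 * ℓ + κ * ℓ := Nat.add_mul _ _ _
  have hlt : K0 + κ < N := by
    apply Nat.lt_of_mul_lt_mul_right (a := ℓ)
    omega
  obtain ⟨N', hN'⟩ := Nat.exists_eq_add_of_lt hlt
  have hNN : N * ℓ = K0 * ℓ + κ * ℓ + (N' + 1) * ℓ := by
    rw [hN']; ring
  have hK0p : 0 < K0 := by
    rcases Nat.eq_zero_or_pos K0 with h | h
    · rw [h, Nat.zero_mul] at hK0; omega
    · exact h
  generalize hL : i + ((K0 + κ : ℕ) : ℤ) = L at *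
  have hiL : i < L := by
    have : (0 : ℤ) < ((K0 + κ : ℕ) : ℤ) := by
      exact_mod_cast Nat.add_pos_left hK0p κ
    omega
  have hjL : j = L + ((N' + 1 : ℕ) : ℤ) := by
    rw [← hN, hN', ← hL]; push_cast; ring
  have hLj : L < j := by
    rw [hjL]; push_cast; omega
  have e2 : q (C L) (C j) = (N' + 1) * ℓ := by rw [hjL]; exact hC L (N' + 1)
  -- distances
  have d1 : 102 * A < q (C i) (C L) := by omega
  have d2 : 102 * A < q (C L) (C j) := by omega
  have n1 : q (C L) (C' i') ≠ 0 := by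
    intro h0
    have := hq.tri (C i) (C' i') (C L)
    rw [hq.symm (C' i') (C L)] at this
    omega
  have n2 : q (C L) (C' j') ≠ 0 := by
    intro h0
    have := hq.tri (C L) (C' j') (C j)
    rw [hq.symm (C' j') (C j)] at this
    omega
  have t1 : An L (C' i') (C j) 50 := by
    rcases htri L (C i) (C' i') (C j) 96 40 50 n1 (hang i L j hiL hLj) (by norm_num) with h | h
    · exfalso
      have := hthru L _ _ 40 (by norm_num) h
      omega
    · exact h
  have t2 : An L (C' i') (C' j') 10 := by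
    rcases htri L (C' i') (C' j') (C j) 50 10 40 n2 t1 (by norm_num) with h | h
    · exact h
    · exfalso
      have := hthru L _ _ 40 (by norm_num) h
      rw [hq.symm (C' j') (C j)] at this
      omega
  have t3 := hthru L _ _ 10 (le_refl _) t2
  have fin : ∀ n : ℤ, Btw q (C' n) (C L) (C' (n + 1)) 0 →
      ∃ n : ℤ, q (C L) (C' n) < 2 * D + 2 := by
    intro n hn
    unfold Btw at hn
    have h1 := hC' n 1
    rw [Nat.one_mul, Nat.cast_one] at h1
    rw [hq.symm (C' n) (C L)] at hn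
    by_cases hc : q (C L) (C' n) < 2 * D + 2
    · exact ⟨n, hc⟩
    · exact ⟨n + 1, by omega⟩
  rcases lt_trichotomy i' j' with hlt' | heq | hgt
  · obtain ⟨m, hm⟩ := Int.le.dest hlt'.le
    have hm1 : 1 ≤ m := by omega
    obtain ⟨k', _, hk'⟩ := hseg i' m hm1 (C L) (by rw [hm]; unfold Btw; omega)
    exact fin _ hk'
  · exfalso
    subst heq
    rw [hq.self] at t3
    omega
  · obtain ⟨m, hm⟩ := Int.le.dest hgt.le
    have hm1 : 1 ≤ m := by omega
    obtain ⟨k', _, hk'⟩ := hseg j' m hm1 (C L) (by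
      rw [hm]; unfold Btw
      rw [hq.symm (C' j') (C L), hq.symm (C L) (C' i'), hq.symm (C' j') (C' i')]
      omega)
    exact fin _ hk'

/-- a map which preserves distances up to a factor in (2/3, 3/2) on five points is affine -/
private theorem P4_affine (D ℓ ℓ' : ℕ) (hl1 : 2 * D + 2 ≤ ℓ) (hl2 : ℓ ≤ 3 * D)
    (hl1' : 2 * D + 2 ≤ ℓ') (hl2' : ℓ' ≤ 3 * D) (e : ℤ → ℤ)
    (he : ∀ k m : ℤ, 0 ≤ k → k ≤ 4 → 0 ≤ m → m ≤ 4 →
      (e k - e m).natAbs * ℓ' = (k - m).natAbs * ℓ) :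
    ∃ m ε : ℤ, (ε = 1 ∨ ε = -1) ∧ ∀ k : ℤ, 0 ≤ k → k ≤ 4 → e k = m + ε * k := by
  have h10 := he 1 0 (by norm_num) (by norm_num) (by norm_num) (by norm_num)
  have hone : (e 1 - e 0).natAbs = 1 := by
    generalize (e 1 - e 0).natAbs = w at *
    have : ((1 : ℤ) - 0).natAbs = 1 := by norm_num
    rw [this, Nat.one_mul] at h10
    rcases Nat.lt_trichotomy w 1 with h | h | h
    · have : w = 0 := by omega
      rw [this, Nat.zero_mul] at h10
      omega
    · exact h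
    · have : 2 * ℓ' ≤ w * ℓ' := Nat.mul_le_mul_right _ h
      omega
  have hll : ℓ' = ℓ := by
    rw [hone] at h10
    have : ((1 : ℤ) - 0).natAbs = 1 := by norm_num
    rw [this] at h10
    omega
  subst hll
  have he' : ∀ k m : ℤ, 0 ≤ k → k ≤ 4 → 0 ≤ m → m ≤ 4 →
      (e k - e m).natAbs = (k - m).natAbs := by
    intro k m a1 a2 a3 a4
    exact Nat.eq_of_mul_eq_mul_right (by omega) (he k m a1 a2 a3 a4)
  refine ⟨e 0, e 1 - e 0, by omega, fun k hk0 hk4 => ?_⟩
  have b0 := he' k 0 hk0 hk4 (by norm_num) (by norm_num)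
  have b1 := he' k 1 hk0 hk4 (by norm_num) (by norm_num)
  have hε : e 1 - e 0 = 1 ∨ e 1 - e 0 = -1 := by omega
  rcases hε with h | h
  · rw [h]; omega
  · rw [h]; omega

theorem piece_window (hax : S.ax_ang) (hdist : S.ax_dist) (hseg : S.ax_seg) (hlen : S.rel_len)
    (htri : S.angQ_tri) (hthru : S.angQ_thru) (hap : S.qd_ap) (hgeo : S.qd_geo)
    (hzero : S.qd_zero) : S.piece_window := by
  intro G X _ _ d P F hG hF V x c h V' x' c' h' i j i' j' a b a' b' ha hb ha' hb' h1 h2 h3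
  have hex : 1 ≤ Ex (1000 * P.Λ) := by
    have : 1 ≤ 1000 * P.Λ := by
      have := P.h1
      have := P.hδ
      have := P.hΛs
      have := P.hΛ
      omega
    unfold Ex
    exact Nat.mul_pos this (by positivity)
  have hD1 : 1 ≤ P.D := by
    have := P.hA0
    have := P.hD
    omega
  have hs1 : 1 ≤ P.s := by
    have := P.hA
    have := P.hs
    omega
  have hθ : 0 < P.θ := by
    unfold Par.θ
    have := P.h1
    positivity
  have hT : P.TT2 ≤ P.TT1 := by
    have hQ1 : 1 ≤ P.Q ^ (10 * P.N + 100) := by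
      apply Nat.one_le_pow
      have := P.hQ
      have h2 := P.hTT2
      have h3 : 1 ≤ P.M := by
        have := P.hM
        omega
      have h4 : 1 ≤ P.TT2 := by
        refine le_trans ?_ h2
        have := P.h1
        have : 0 < P.δ1 * P.s * 2 ^ P.D := by positivity
        omega
      have : 0 < 1000 * P.M * P.TT2 := by positivity
      omega
    calc P.TT2 ≤ 1000 * P.TT2 := by omega
      _ = 1000 * P.TT2 * 1 := by ring
      _ ≤ 1000 * P.TT2 * P.Q ^ (10 * P.N + 100) := Nat.mul_le_mul_left _ hQ1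
      _ ≤ P.TT1 := P.hTT1
  have hq : Geo (qd (Ker F) (cd F P.D d P.s)) := hgeo hG hF.ok hT
  have hA := P.hA
  have hs := P.hs
  obtain ⟨hl1, hl2⟩ := hlen hG hF h
  obtain ⟨hl1', hl2'⟩ := hlen hG hF h'
  have hC := hdist hG hF h
  have hC' := hdist hG hF h'
  -- the first conclusion, for `i < j`
  have main : ∀ (i j i' j' : ℤ) (a b a' b' : Cone F P.D),
      Btw (qd (Ker F) (cd F P.D d P.s)) (ap F P.D (axs P F V x c i)) a
        (ap F P.D (axs P F V x c (i + 1))) 0 →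
      Btw (qd (Ker F) (cd F P.D d P.s)) (ap F P.D (axs P F V x c j)) b
        (ap F P.D (axs P F V x c (j + 1))) 0 →
      Btw (qd (Ker F) (cd F P.D d P.s)) (ap F P.D (axs P F V' x' c' i')) a'
        (ap F P.D (axs P F V' x' c' (i' + 1))) 0 →
      Btw (qd (Ker F) (cd F P.D d P.s)) (ap F P.D (axs P F V' x' c' j')) b'
        (ap F P.D (axs P F V' x' c' (j' + 1))) 0 →
      qd (Ker F) (cd F P.D d P.s) a a' ≤ 100 * P.A →
      qd (Ker F) (cd F P.D d P.s) b b' ≤ 100 * P.A →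
      P.s < 50 * qd (Ker F) (cd F P.D d P.s) a b → i < j →
      ∃ l0 : ℤ, ∀ k : ℤ, 0 ≤ k → k ≤ 4 → ∃ n : ℤ,
        qd (Ker F) (cd F P.D d P.s) (ap F P.D (axs P F V x c (l0 + k)))
          (ap F P.D (axs P F V' x' c' n)) < 2 * P.D + 2 := by
    intro i j i' j' a b a' b' ha hb ha' hb' h1 h2 h3 hij
    have b1 := hC i 1
    have b2 := hC j 1
    have b3 := hC' i' 1
    have b4 := hC' j' 1
    rw [Nat.one_mul, Nat.cast_one] at b1 b2 b3 b4
    unfold Btw at ha hb ha' hb'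
    generalize hqq : qd (Ker F) (cd F P.D d P.s) = q at *
    have s1 := hq.symm (ap F P.D (axs P F V x c j)) b
    have s2 := hq.symm (ap F P.D (axs P F V' x' c' i')) a'
    have s3 := hq.symm (ap F P.D (axs P F V' x' c' j')) b'
    have s4 := hq.symm (ap F P.D (axs P F V x c i)) a
    refine P4_core hq (fun n => ap F P.D (axs P F V x c n))
      (fun n => ap F P.D (axs P F V' x' c' n))
      (fun l p r t => AngQ F P.D d q (axs P F V x c l) p r (t * P.θ)) P.D P.A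
      (q (ap F P.D c) (x • ap F P.D c)) (q (ap F P.D c') (x' • ap F P.D c'))
      hA hl1 hl2 hl2' hC hC' ?_ ?_ ?_ ?_ i j i' j' hij ?_ ?_ ?_
    · intro i m hm z hz
      subst hqq
      exact hseg hG hF h' i m hm z hz
    · intro i l j hil hlj
      subst hqq
      exact hax hG hF h i l j hil hlj
    · intro l p v r t t1 t2 hv hp ht
      subst hqq
      refine htri hG hF.ok hT _ p v r (t * P.θ) (t1 * P.θ) (t2 * P.θ) ?_ hp ?_
      · intro κ hκ hv'
        apply hv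
        show qd (Ker F) (cd F P.D d P.s) _ v = 0
        rw [hv']
        exact hzero hG hF.ok hT κ hκ _
      · rw [← Nat.add_mul]
        exact le_trans (Nat.mul_le_mul_right _ ht) (Nat.le_succ _)
    · intro l p r t ht hp
      subst hqq
      refine (hthru hG hF.ok hT _ p r (t * P.θ) ?_ hp).1
      calc P.θ < 10 * P.θ := by omega
        _ ≤ t * P.θ := Nat.mul_le_mul_right _ ht
    · have t1 := hq.tri (ap F P.D (axs P F V x c i)) a (ap F P.D (axs P F V' x' c' i'))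
      have t2 := hq.tri a a' (ap F P.D (axs P F V' x' c' i'))
      show q (ap F P.D (axs P F V x c i)) (ap F P.D (axs P F V' x' c' i')) ≤ _
      omega
    · have t1 := hq.tri (ap F P.D (axs P F V x c j)) b (ap F P.D (axs P F V' x' c' j'))
      have t2 := hq.tri b b' (ap F P.D (axs P F V' x' c' j'))
      show q (ap F P.D (axs P F V x c j)) (ap F P.D (axs P F V' x' c' j')) ≤ _
      omega
    · have t1 := hq.tri a (ap F P.D (axs P F V x c i)) b
      have t2 := hq.tri (ap F P.D (axs P F V x c i)) (ap F P.D (axs P F V x c j)) b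
      show _ ≤ q (ap F P.D (axs P F V x c i)) (ap F P.D (axs P F V x c j))
      omega
  have win : ∃ l0 : ℤ, ∀ k : ℤ, 0 ≤ k → k ≤ 4 → ∃ n : ℤ,
        qd (Ker F) (cd F P.D d P.s) (ap F P.D (axs P F V x c (l0 + k)))
          (ap F P.D (axs P F V' x' c' n)) < 2 * P.D + 2 := by
    rcases lt_trichotomy i j with hlt | heq | hgt
    · exact main i j i' j' a b a' b' ha hb ha' hb' h1 h2 h3 hlt
    · exfalso
      subst heq
      have b1 := hC i 1
      rw [Nat.one_mul, Nat.cast_one] at b1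
      unfold Btw at ha hb
      have t1 := hq.tri a (ap F P.D (axs P F V x c i)) b
      have s1 := hq.symm (ap F P.D (axs P F V x c i)) a
      omega
    · refine main j i j' i' b a b' a' hb ha hb' ha' h2 h1 ?_ hgt
      rw [hq.symm]
      exact h3
  obtain ⟨l0, hl0⟩ := win
  have hex2 : ∀ k : ℤ, ∃ n : ℤ, 0 ≤ k → k ≤ 4 → ∃ κ ∈ Ker F,
      κ • axs P F V x c (l0 + k) = axs P F V' x' c' n := by
    intro k
    by_cases hk : 0 ≤ k ∧ k ≤ 4
    · obtain ⟨n, hn⟩ := hl0 k hk.1 hk.2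
      refine ⟨n, fun _ _ => ?_⟩
      by_contra hcon
      push Not at hcon
      have := hap hG hF.ok hT _ _ hcon
      omega
    · exact ⟨0, fun h0 h4 => absurd ⟨h0, h4⟩ hk⟩
  choose e he using hex2
  have hsame : ∀ (p r : Cone F P.D) (κ κ' : G), κ ∈ Ker F → κ' ∈ Ker F →
      qd (Ker F) (cd F P.D d P.s) (κ • p) (κ' • r) = qd (Ker F) (cd F P.D d P.s) p r := by
    intro p r κ κ' hκ hκ'
    have z1 := hzero hG hF.ok hT κ hκ p
    have z2 := hzero hG hF.ok hT κ' hκ' r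
    have t1 := hq.tri (κ • p) p (κ' • r)
    have t2 := hq.tri p r (κ' • r)
    have t3 := hq.tri p (κ • p) r
    have t4 := hq.tri (κ • p) (κ' • r) r
    have s1 := hq.symm (κ • p) p
    have s2 := hq.symm (κ' • r) r
    omega
  obtain ⟨m, ε, hε, hm⟩ := P4_affine P.D _ _ hl1 hl2 hl1' hl2' e (by
    intro k m k0 k4 m0 m4
    obtain ⟨κ, hκ, hk⟩ := he k k0 k4
    obtain ⟨κ', hκ', hm⟩ := he m m0 m4
    rw [← P4_dist hq (fun n => ap F P.D (axs P F V' x' c' n)) _ hC' (e k) (e m)]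
    have : (k - m).natAbs = ((l0 + k) - (l0 + m)).natAbs := by congr 1; ring
    rw [this, ← P4_dist hq (fun n => ap F P.D (axs P F V x c n)) _ hC (l0 + k) (l0 + m)]
    show qd (Ker F) (cd F P.D d P.s) (ap F P.D (axs P F V' x' c' (e k)))
      (ap F P.D (axs P F V' x' c' (e m))) = _
    rw [← hk, ← hm]
    exact hsame (ap F P.D (axs P F V x c (l0 + k))) (ap F P.D (axs P F V x c (l0 + m))) κ κ' hκ hκ')
  refine ⟨l0, m, ε, hε, fun k k0 k4 => ?_⟩
  obtain ⟨κ, hκ, hk⟩ := he k k0 k4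
  exact ⟨κ, hκ, by rw [hk, hm k k0 k4]⟩

end Mon
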