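import Pool.Agent.Work.MP_6f5fa7_al.Mon.StPiece
import Pool.Agent.Work.MP_6f5fa7_al.Mon.StAct

/-! Mon, item P5: comparison of the turns at a common apex. -/
set_option autoImplicit false

namespace Mon

private theorem P5.pars (P : Par) : P.TT2 ≤ P.TT1 ∧ P.A ≤ P.θ ∧
    6 * P.θ + 4 * P.θ * P.Q ^ P.N < P.TT1 := by
  have p1 := P.h1
  have p2 := P.hδ
  have p3 := P.hΛs
  have p4 := P.hΛ
  have p5 : P.Λ ≤ P.A0 := by
    have h3 : 1000 * P.Λ ≤ Ex (1000 * P.Λ) := by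
      unfold Ex
      exact Nat.le_mul_of_pos_right _ (Nat.pos_of_ne_zero (by positivity))
    have h4 := P.hA0
    omega
  have p6 := P.hD
  have p7 := P.hA
  have p8 := P.hs
  have p9 := P.hTT2
  have hMpos : 10 ≤ P.M := by have := P.hM; omega
  set S0 : ℕ := P.s * 2 ^ P.D with hS0
  have hS0s : P.s ≤ S0 := Nat.le_mul_of_pos_right _ (Nat.pos_of_ne_zero (by positivity))
  have hS0pos : 1 ≤ S0 := by omega
  have hθ0 : P.θ = (12 * P.δ1 + 6) * S0 := rfl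
  have hδS : S0 ≤ P.δ1 * S0 := Nat.le_mul_of_pos_left _ (by omega)
  have hθ1 : P.θ = 12 * (P.δ1 * S0) + 6 * S0 := by rw [hθ0]; ring
  have hTT2 : 100000 * (P.δ1 * S0) ≤ P.TT2 := by
    have : P.δ1 * S0 = P.δ1 * P.s * 2 ^ P.D := by rw [hS0]; ring
    rw [this]; exact p9
  have hTT2θ : 100 * P.θ ≤ P.TT2 := by omega
  have hTT2pos : 1 ≤ P.TT2 := by omega
  have hQ := P.hQ
  have hMT : 1 ≤ P.M * P.TT2 := Nat.mul_pos (by omega) (by omega)
  have hQpos : 1 ≤ P.Q := by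
    have : 1000 * (P.M * P.TT2) = 1000 * P.M * P.TT2 := by ring
    omega
  have hTT1 := P.hTT1
  have hq : P.Q ^ P.N ≤ P.Q ^ (10 * P.N + 100) := Nat.pow_le_pow_right hQpos (by omega)
  have hq1 : 1 ≤ P.Q ^ P.N := Nat.one_le_pow _ _ hQpos
  set W : ℕ := P.Q ^ P.N with hW
  have hA : 1000 * P.TT2 * W ≤ P.TT1 := le_trans (Nat.mul_le_mul_left _ hq) hTT1
  have hB : P.TT2 ≤ P.TT2 * W := Nat.le_mul_of_pos_right _ (by omega)
  have hC : 100 * (P.θ * W) ≤ P.TT2 * W := by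
    have := Nat.mul_le_mul_right W hTT2θ
    calc 100 * (P.θ * W) = 100 * P.θ * W := by ring
      _ ≤ P.TT2 * W := this
  have hA' : 1000 * P.TT2 * W = 1000 * (P.TT2 * W) := by ring
  have hE : 4 * P.θ * W = 4 * (P.θ * W) := by ring
  rw [hA'] at hA
  rw [hE]
  refine ⟨by omega, by omega, by omega⟩

private theorem P5.ap_inj {G X : Type} [Group G] [MulAction G X] {F : Fam G X} {D : ℕ}
    {c c' : F.C} (h : ap F D c = ap F D c') : c = c' := by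
  have h1 : (CV.apex c : CV X F.C) = CV.apex c' := congrArg Subtype.val h
  exact CV.apex.inj h1

section
variable {G X : Type} [Group G] [MulAction G X] {d : X → X → ℕ} {P : Par} {F : Fam G X}

private theorem P5.ex_plus (hne : S.exitQ_ne) (hG : P.St G d P.M) (hF : Fam1 P d F) {V x : G}
    {c : F.C} (h : Rel1 P d F V x c) :
    (Exi F P.D (qd (Ker F) (cd F P.D d P.s)) c (x • ap F P.D c)).Nonempty := by
  refine hne hG hF.ok (P5.pars P).1 c _ ?_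
  intro κ hκ he
  have he' : ap F P.D (x • c) = ap F P.D (κ • c) := he
  have h1 := P5.ap_inj he'
  refine h.nofix c ⟨κ⁻¹, (Ker F).inv_mem hκ, ?_⟩
  rw [mul_smul, h1, smul_smul, inv_mul_cancel, one_smul]

private theorem P5.ex_minus (hne : S.exitQ_ne) (hG : P.St G d P.M) (hF : Fam1 P d F) {V x : G}
    {c : F.C} (h : Rel1 P d F V x c) :
    (Exi F P.D (qd (Ker F) (cd F P.D d P.s)) c (x⁻¹ • ap F P.D c)).Nonempty := by
  refine hne hG hF.ok (P5.pars P).1 c _ ?_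
  intro κ hκ he
  have he' : ap F P.D (x⁻¹ • c) = ap F P.D (κ • c) := he
  have h1 := P5.ap_inj he'
  refine h.nofix c ⟨x * κ * x⁻¹, (ker_nrm F).conj_mem κ hκ x, ?_⟩
  have h2 : x * κ * x⁻¹ * x = x * κ := by group
  rw [h2, mul_smul, ← h1, smul_smul, mul_inv_cancel, one_smul]

/-- the last step of both comparisons -/
private theorem P5.fin (hG : P.St G d P.M) (hF : Fam1 P d F) {c : F.C} {u r : G} (hu : u • c = c)
    (hr : r ∈ F.R c) {z : X} (hz : z ∈ F.Y c) (hB : d z (u • z) ≤ 4 * P.θ * P.Q ^ P.N)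
    (h6 : d z ((r * u) • z) ≤ 6 * P.θ) {y : X} (hy : y ∈ F.Y c) : d y (u • y) ≤ 10 * P.θ := by
  have hgeo := hG.geo
  have hiso := hG.isom
  obtain ⟨-, q2, q3⟩ := P5.pars P
  have hr1 : r = 1 := by
    by_contra hne
    have h1 := hF.ok.big c r z hr hne hz
    have t1 := hgeo.tri z ((r * u) • z) (r • z)
    have e1 : d ((r * u) • z) (r • z) = d (u • z) z := by rw [mul_smul, hiso]
    have e2 := hgeo.symm (u • z) z
    omega
  rw [hr1, one_mul] at h6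
  have h7 := hF.disp c u y z hu hy hz
  omega

private theorem P5.pow_fix {u : G} {c : F.C} (hu : u • c = c) (m : ℕ) : (u ^ m) • c = c := by
  induction m with
  | zero => simp
  | succ m ih => rw [pow_succ, mul_smul, hu, ih]

private theorem P5.conj_pow_smul (g V' : G) (m : ℕ) (z : X) :
    (g * V' * g⁻¹) ^ m • (g • z) = g • (V' ^ m • z) := by
  rw [conj_pow, smul_smul, inv_mul_cancel_right, mul_smul]

/-- bound for the conjugated rotation -/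
private theorem P5.move_conj (hV : S.rel_V) (hG : P.St G d P.M) (hF : Fam1 P d F) {V' x' : G}
    {c c' : F.C} (h' : Rel1 P d F V' x' c') {g : G} (hg : g • c' = c) {z : X} (hz : z ∈ F.Y c)
    (f' : ℕ) : d z ((g * V' * g⁻¹) ^ f' • z) ≤ f' * (2 * P.θ) := by
  have hiso := hG.isom
  have hgc : g⁻¹ • c = c' := by rw [← hg, smul_smul, inv_mul_cancel, one_smul]
  have hz' : g⁻¹ • z ∈ F.Y c' := by
    rw [← hgc]
    exact F.Y_smul g⁻¹ c z hz
  have h1 := (hV hG hF h' (g⁻¹ • z) hz' f').2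
  have h2 : z = g • (g⁻¹ • z) := by rw [smul_smul, mul_inv_cancel, one_smul]
  calc d z ((g * V' * g⁻¹) ^ f' • z)
      = d (g • (g⁻¹ • z)) ((g * V' * g⁻¹) ^ f' • (g • (g⁻¹ • z))) := by rw [← h2]
    _ = d (g⁻¹ • z) (V' ^ f' • (g⁻¹ • z)) := by rw [P5.conj_pow_smul, hiso]
    _ ≤ f' * (2 * P.θ) := h1

end

theorem turn_cmp (hsmall : S.exitQ_small) (hsmul : S.exitQ_smul) (hker : S.exitQ_ker)
    (hne : S.exitQ_ne) (hex : S.rel_exits) (hV : S.rel_V) : S.turn_cmp := by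
  intro G X _ _ d P F hG hF V x c h V' x' c' h' g hg f f' hf hf' κ κ' hκ hκ' h1 h2 y hy
  have hgeo := hG.geo
  have hiso := hG.isom
  have hT := (P5.pars P).1
  obtain ⟨ym, hym⟩ := P5.ex_minus hne hG hF h
  obtain ⟨yp, hyp⟩ := P5.ex_plus hne hG hF h
  obtain ⟨zm, hzm⟩ := P5.ex_minus hne hG hF h'
  obtain ⟨zp, hzp⟩ := P5.ex_plus hne hG hF h'
  have hypY : yp ∈ F.Y c := by
    obtain ⟨u, hu, -⟩ := hyp
    rw [← hu]; exact u.2
  -- first exits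
  have a1 := hsmul hG hF.ok hT g c' _ zm hzm
  rw [hg] at a1
  have a2 := hker hG hF.ok hT κ hκ c _ _ a1
  have e1 : κ • (g • (x'⁻¹ • ap F P.D c')) = x⁻¹ • ap F P.D c := by
    have : ap F P.D (κ • (g • (x'⁻¹ • c'))) = ap F P.D (x⁻¹ • c) := by rw [h1]
    exact this
  rw [e1] at a2
  obtain ⟨r1, hr1, b1⟩ := hsmall hG hF.ok hT c _ ym (g • zm) hym a2
  obtain ⟨r2, hr2, b2⟩ := hex hG hF h ym yp hym hyp
  obtain ⟨r3, hr3, b3⟩ := hex hG hF h' zm zp hzm hzp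
  have hr3' : g * r3 * g⁻¹ ∈ F.R c := by
    rw [← hg]; exact F.R_smul g c' r3 hr3
  -- second exits
  have hVc : (V ^ f) • c = c := P5.pow_fix h.fix f
  have hV'c : (V' ^ f') • c' = c' := P5.pow_fix h'.fix f'
  have a3 := hsmul hG hF.ok hT (V ^ f) c _ yp hyp
  rw [hVc] at a3
  have a4 := hsmul hG hF.ok hT (V' ^ f') c' _ zp hzp
  rw [hV'c] at a4
  have a5 := hsmul hG hF.ok hT g c' _ _ a4
  rw [hg] at a5
  have a6 := hker hG hF.ok hT κ' hκ' c _ _ a5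
  have e2 : κ' • (g • (V' ^ f' • (x' • ap F P.D c'))) = V ^ f • (x • ap F P.D c) := by
    have : ap F P.D (κ' • (g • (V' ^ f' • (x' • c')))) = ap F P.D (V ^ f • (x • c)) := by rw [h2]
    exact this
  rw [e2] at a6
  obtain ⟨r5, hr5, b5⟩ := hsmall hG hF.ok hT c _ _ _ a3 a6
  -- commutation
  set V2 : G := g * V' * g⁻¹ with hV2
  have hgc : g⁻¹ • c = c' := by rw [← hg, smul_smul, inv_mul_cancel, one_smul]
  have hV2c : V2 • c = c := by
    rw [hV2, mul_smul, hgc, mul_smul, h'.fix, hg]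
  have hV2f : (V2 ^ f') • c = c := P5.pow_fix hV2c f'
  have hfixR : ∀ r ∈ F.R c, r • c = c := fun r hr => F.R_fix c r hr
  -- distances
  have c1 : d (r1 • (g • zm)) (r1 • ((g * r3 * g⁻¹) • (g • zp))) ≤ P.θ := by
    rw [hiso]
    have : (g * r3 * g⁻¹) • (g • zp) = g • (r3 • zp) := by
      rw [smul_smul, inv_mul_cancel_right, mul_smul]
    rw [this, hiso]
    exact b3
  set r4 : G := r2⁻¹ * (r1 * (g * r3 * g⁻¹)) with hr4
  have hr4R : r4 ∈ F.R c := (F.R c).mul_mem ((F.R c).inv_mem hr2) ((F.R c).mul_mem hr1 hr3')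
  have c2 : d yp (r4 • (g • zp)) ≤ 4 * P.θ := by
    have e3 : d yp (r4 • (g • zp)) = d (r2 • yp) (r1 • ((g * r3 * g⁻¹) • (g • zp))) := by
      rw [← hiso r2 yp, smul_smul, hr4, mul_inv_cancel_left, mul_smul]
    have t1 := hgeo.tri (r2 • yp) ym (r1 • ((g * r3 * g⁻¹) • (g • zp)))
    have t2 := hgeo.tri ym (r1 • (g • zm)) (r1 • ((g * r3 * g⁻¹) • (g • zp)))
    have s1 := hgeo.symm (r2 • yp) ym
    omega
  have e4 : g • (V' ^ f' • zp) = V2 ^ f' • (g • zp) := by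
    rw [hV2, P5.conj_pow_smul]
  rw [e4] at b5
  set r : G := r5 * r4⁻¹ with hr
  have hrR : r ∈ F.R c := (F.R c).mul_mem hr5 ((F.R c).inv_mem hr4R)
  have hVi : (V ^ f)⁻¹ • c = c := by
    rw [inv_smul_eq_iff]; exact hVc.symm
  have key : d yp ((r * ((V ^ f)⁻¹ * V2 ^ f')) • yp) ≤ 6 * P.θ := by
    have k1 : r5 * ((V2 ^ f') * r4⁻¹) = V ^ f * (r * ((V ^ f)⁻¹ * V2 ^ f')) := by
      have m1 : V2 ^ f' * r4⁻¹ = r4⁻¹ * V2 ^ f' :=
        hF.ab c _ _ hV2f (hfixR _ ((F.R c).inv_mem hr4R))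
      have m2 : V ^ f * r = r * V ^ f := hF.ab c _ _ hVc (hfixR _ hrR)
      calc r5 * ((V2 ^ f') * r4⁻¹) = r5 * r4⁻¹ * V2 ^ f' := by rw [m1]; group
        _ = r * V2 ^ f' := by rw [hr]
        _ = r * V ^ f * ((V ^ f)⁻¹ * V2 ^ f') := by group
        _ = V ^ f * r * ((V ^ f)⁻¹ * V2 ^ f') := by rw [m2]
        _ = _ := by group
    have k2 : d yp ((r * ((V ^ f)⁻¹ * V2 ^ f')) • yp) =
        d (V ^ f • yp) ((r5 * ((V2 ^ f') * r4⁻¹)) • yp) := by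
      rw [k1, mul_smul (V ^ f), hiso]
    have k3 : d (r5 • (V2 ^ f' • (g • zp))) ((r5 * ((V2 ^ f') * r4⁻¹)) • yp) =
        d yp (r4 • (g • zp)) := by
      rw [mul_smul, mul_smul, hiso, hiso, ← hiso r4 (g • zp), smul_inv_smul, hgeo.symm]
    have t3 := hgeo.tri (V ^ f • yp) (r5 • (V2 ^ f' • (g • zp)))
      ((r5 * ((V2 ^ f') * r4⁻¹)) • yp)
    omega
  have hB : d yp (((V ^ f)⁻¹ * V2 ^ f') • yp) ≤ 4 * P.θ * P.Q ^ P.N := by
    have v1 := (hV hG hF h yp hypY f).2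
    have v2 := P5.move_conj hV hG hF h' hg hypY f'
    rw [← hV2] at v2
    have t4 := hgeo.tri yp ((V ^ f)⁻¹ • yp) (((V ^ f)⁻¹ * V2 ^ f') • yp)
    have e5 : d yp ((V ^ f)⁻¹ • yp) = d yp (V ^ f • yp) := by
      rw [← hiso (V ^ f) yp, smul_smul, mul_inv_cancel, one_smul, hgeo.symm]
    have e6 : d ((V ^ f)⁻¹ • yp) (((V ^ f)⁻¹ * V2 ^ f') • yp) = d yp (V2 ^ f' • yp) := by
      rw [mul_smul, hiso]
    have w1 : f * (2 * P.θ) ≤ P.Q ^ P.N * (2 * P.θ) := Nat.mul_le_mul_right _ hf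
    have w2 : f' * (2 * P.θ) ≤ P.Q ^ P.N * (2 * P.θ) := Nat.mul_le_mul_right _ hf'
    have w3 : P.Q ^ P.N * (2 * P.θ) + P.Q ^ P.N * (2 * P.θ) = 4 * P.θ * P.Q ^ P.N := by ring
    omega
  have hu : ((V ^ f)⁻¹ * V2 ^ f') • c = c := by rw [mul_smul, hV2f, hVi]
  have := P5.fin hG hF hu hrR hypY hB key hy
  rw [inv_pow]
  exact this

theorem turn_cmp_rev (hsmall : S.exitQ_small) (hsmul : S.exitQ_smul) (hker : S.exitQ_ker)
    (hne : S.exitQ_ne) (hex : S.rel_exits) (hV : S.rel_V) : S.turn_cmp_rev := by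
  intro G X _ _ d P F hG hF V x c h V' x' c' h' g hg f f' hf hf' κ κ' hκ hκ' h1 h2 y hy
  have hgeo := hG.geo
  have hiso := hG.isom
  have hT := (P5.pars P).1
  obtain ⟨ym, hym⟩ := P5.ex_minus hne hG hF h
  obtain ⟨yp, hyp⟩ := P5.ex_plus hne hG hF h
  obtain ⟨zm, hzm⟩ := P5.ex_minus hne hG hF h'
  obtain ⟨zp, hzp⟩ := P5.ex_plus hne hG hF h'
  have hypY : yp ∈ F.Y c := by
    obtain ⟨u, hu, -⟩ := hyp
    rw [← hu]; exact u.2
  have hVc : (V ^ f) • c = c := P5.pow_fix h.fix f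
  have hV'c : (V' ^ f') • c' = c' := P5.pow_fix h'.fix f'
  -- first exits
  have a4 := hsmul hG hF.ok hT (V' ^ f') c' _ zp hzp
  rw [hV'c] at a4
  have a5 := hsmul hG hF.ok hT g c' _ _ a4
  rw [hg] at a5
  have a6 := hker hG hF.ok hT κ hκ c _ _ a5
  have e2 : κ • (g • (V' ^ f' • (x' • ap F P.D c'))) = x⁻¹ • ap F P.D c := by
    have : ap F P.D (κ • (g • (V' ^ f' • (x' • c')))) = ap F P.D (x⁻¹ • c) := by rw [h1]
    exact this
  rw [e2] at a6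
  obtain ⟨r1, hr1, b1⟩ := hsmall hG hF.ok hT c _ ym _ hym a6
  obtain ⟨r2, hr2, b2⟩ := hex hG hF h ym yp hym hyp
  obtain ⟨r3, hr3, b3⟩ := hex hG hF h' zm zp hzm hzp
  have hr3' : g * r3 * g⁻¹ ∈ F.R c := by
    rw [← hg]; exact F.R_smul g c' r3 hr3
  -- second exits
  have a1 := hsmul hG hF.ok hT g c' _ zm hzm
  rw [hg] at a1
  have a2 := hker hG hF.ok hT κ' hκ' c _ _ a1
  have e1 : κ' • (g • (x'⁻¹ • ap F P.D c')) = V ^ f • (x • ap F P.D c) := by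
    have : ap F P.D (κ' • (g • (x'⁻¹ • c'))) = ap F P.D (V ^ f • (x • c)) := by rw [h2]
    exact this
  rw [e1] at a2
  have a3 := hsmul hG hF.ok hT (V ^ f) c _ yp hyp
  rw [hVc] at a3
  obtain ⟨r5, hr5, b5⟩ := hsmall hG hF.ok hT c _ _ _ a3 a2
  -- commutation
  set V2 : G := g * V' * g⁻¹ with hV2
  have hgc : g⁻¹ • c = c' := by rw [← hg, smul_smul, inv_mul_cancel, one_smul]
  have hV2c : V2 • c = c := by
    rw [hV2, mul_smul, hgc, mul_smul, h'.fix, hg]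
  have hV2f : (V2 ^ f') • c = c := P5.pow_fix hV2c f'
  have hfixR : ∀ r ∈ F.R c, r • c = c := fun r hr => F.R_fix c r hr
  have e4 : g • (V' ^ f' • zp) = V2 ^ f' • (g • zp) := by
    rw [hV2, P5.conj_pow_smul]
  rw [e4] at b1
  have c1 : d (r5 • (g • zm)) (r5 • ((g * r3 * g⁻¹) • (g • zp))) ≤ P.θ := by
    rw [hiso]
    have : (g * r3 * g⁻¹) • (g • zp) = g • (r3 • zp) := by
      rw [smul_smul, inv_mul_cancel_right, mul_smul]
    rw [this, hiso]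
    exact b3
  set r6 : G := r5 * (g * r3 * g⁻¹) with hr6
  have hr6R : r6 ∈ F.R c := (F.R c).mul_mem hr5 hr3'
  have c2 : d (V ^ f • yp) (r6 • (g • zp)) ≤ 3 * P.θ := by
    have t1 := hgeo.tri (V ^ f • yp) (r5 • (g • zm)) (r5 • ((g * r3 * g⁻¹) • (g • zp)))
    have e3 : r6 • (g • zp) = r5 • ((g * r3 * g⁻¹) • (g • zp)) := by rw [hr6, mul_smul]
    rw [e3]
    omega
  have c3 : d (r2 • yp) (r1 • (V2 ^ f' • (g • zp))) ≤ 3 * P.θ := by
    have t1 := hgeo.tri (r2 • yp) ym (r1 • (V2 ^ f' • (g • zp)))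
    have s1 := hgeo.symm (r2 • yp) ym
    omega
  set r : G := r2⁻¹ * r1 * r6⁻¹ with hr
  have hrR : r ∈ F.R c := (F.R c).mul_mem ((F.R c).mul_mem ((F.R c).inv_mem hr2) hr1)
    ((F.R c).inv_mem hr6R)
  have key : d yp ((r * (V ^ f * V2 ^ f')) • yp) ≤ 6 * P.θ := by
    have k1 : r2 * (r * (V ^ f * V2 ^ f')) = r1 * (V2 ^ f' * (r6⁻¹ * V ^ f)) := by
      have m1 : V2 ^ f' * r6⁻¹ = r6⁻¹ * V2 ^ f' :=
        hF.ab c _ _ hV2f (hfixR _ ((F.R c).inv_mem hr6R))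
      have m2 : V ^ f * V2 ^ f' = V2 ^ f' * V ^ f := hF.ab c _ _ hVc hV2f
      calc r2 * (r * (V ^ f * V2 ^ f')) = r1 * (r6⁻¹ * V2 ^ f') * V ^ f := by
            rw [m2, hr]; group
        _ = r1 * (V2 ^ f' * r6⁻¹) * V ^ f := by rw [m1]
        _ = _ := by group
    have k2 : d yp ((r * (V ^ f * V2 ^ f')) • yp) =
        d (r2 • yp) ((r1 * (V2 ^ f' * (r6⁻¹ * V ^ f))) • yp) := by
      rw [← k1, mul_smul r2, hiso]
    have k3 : d (r1 • (V2 ^ f' • (g • zp))) ((r1 * (V2 ^ f' * (r6⁻¹ * V ^ f))) • yp) =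
        d (V ^ f • yp) (r6 • (g • zp)) := by
      rw [mul_smul, mul_smul (V2 ^ f'), mul_smul r6⁻¹, hiso, hiso, ← hiso r6 (g • zp),
        smul_inv_smul, hgeo.symm]
    have t3 := hgeo.tri (r2 • yp) (r1 • (V2 ^ f' • (g • zp)))
      ((r1 * (V2 ^ f' * (r6⁻¹ * V ^ f))) • yp)
    omega
  have hB : d yp ((V ^ f * V2 ^ f') • yp) ≤ 4 * P.θ * P.Q ^ P.N := by
    have v1 := (hV hG hF h yp hypY f).2
    have v2 := P5.move_conj hV hG hF h' hg hypY f'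
    rw [← hV2] at v2
    have t4 := hgeo.tri yp (V ^ f • yp) ((V ^ f * V2 ^ f') • yp)
    have e6 : d (V ^ f • yp) ((V ^ f * V2 ^ f') • yp) = d yp (V2 ^ f' • yp) := by
      rw [mul_smul, hiso]
    have w1 : f * (2 * P.θ) ≤ P.Q ^ P.N * (2 * P.θ) := Nat.mul_le_mul_right _ hf
    have w2 : f' * (2 * P.θ) ≤ P.Q ^ P.N * (2 * P.θ) := Nat.mul_le_mul_right _ hf'
    have w3 : P.Q ^ P.N * (2 * P.θ) + P.Q ^ P.N * (2 * P.θ) = 4 * P.θ * P.Q ^ P.N := by ring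
    omega
  have hu : (V ^ f * V2 ^ f') • c = c := by rw [mul_smul, hV2f, hVc]
  exact P5.fin hG hF hu hrR hypY hB key hy

end Mon
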