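import Pool.Agent.Work.MP_6f5fa7_al.Mon.StPiece

/-! Mon: item P6 (M13: equal exponents and equal rotations). -/
set_option autoImplicit false

namespace Mon

/-- item P6: numbers -/
theorem P6_par (P : Par) : 1 ≤ P.δ ∧ 1 ≤ P.Q ∧ 1 ≤ P.M ∧ 1 ≤ P.θ ∧
    12 * (P.M * P.θ) < P.Q := by
  have h1 := P.h1
  have h2 := P.hδ
  have h3 := P.hM
  have h4 := P.hTT2
  have h5 := P.hQ
  have h6 := P.hs
  have h7 := P.hA
  have h8 := P.hD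
  have h9 := P.hA0
  have h10 := P.hΛ
  have h11 := P.hΛs
  have hδ : 1 ≤ P.δ := by omega
  have hM : 1 ≤ P.M := by omega
  have hEx : P.Λ ≤ Ex (1000 * P.Λ) := by
    unfold Ex
    calc P.Λ ≤ 1000 * P.Λ * 1 := by omega
      _ ≤ 1000 * P.Λ * 2 ^ (1000 * P.Λ) := Nat.mul_le_mul_left _ Nat.one_le_two_pow
  have hs : 1 ≤ P.s := by omega
  have hp : 1 ≤ P.s * 2 ^ P.D := Nat.one_le_iff_ne_zero.mpr (by positivity)
  have hθ : P.θ = (12 * P.δ1 + 6) * (P.s * 2 ^ P.D) := rfl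
  have hθ1 : 1 ≤ P.θ := by
    rw [hθ]
    exact Nat.one_le_iff_ne_zero.mpr (by positivity)
  have hT : 100 * P.θ ≤ P.TT2 := by
    refine le_trans ?_ h4
    rw [hθ]
    have : P.δ1 * P.s * 2 ^ P.D = P.δ1 * (P.s * 2 ^ P.D) := by ring
    rw [this]
    nlinarith [Nat.mul_le_mul_right (P.s * 2 ^ P.D) h1]
  have hQ : 100000 * (P.M * P.θ) ≤ P.Q := by
    calc 100000 * (P.M * P.θ) = 1000 * P.M * (100 * P.θ) := by ring
      _ ≤ 1000 * P.M * P.TT2 := Nat.mul_le_mul_left _ hT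
      _ ≤ P.Q := h5
  have hMθ : 1 ≤ P.M * P.θ := Nat.one_le_iff_ne_zero.mpr (by positivity)
  exact ⟨hδ, by omega, hM, hθ1, by omega⟩

/-- item P6: comparison of the exponents -/
theorem P6_exp (P : Par) {i j B C : ℕ} (h1 : P.Q ^ i * (16 * P.δ) ≤ P.M * B)
    (h2 : B ≤ C + 10 * P.θ) (h3 : C ≤ P.Q ^ j * (2 * P.θ)) : i ≤ j := by
  obtain ⟨hδ, hQ, hM, hθ, h⟩ := P6_par P
  by_contra hij
  push Not at hij
  have hp : P.Q * P.Q ^ j ≤ P.Q ^ i := by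
    rw [← pow_succ']
    exact Nat.pow_le_pow_right hQ hij
  have hq : 1 ≤ P.Q ^ j := Nat.one_le_pow _ _ hQ
  have e1 : P.Q * P.Q ^ j ≤ P.M * B := by
    calc P.Q * P.Q ^ j ≤ P.Q ^ i * 1 := by omega
      _ ≤ P.Q ^ i * (16 * P.δ) := Nat.mul_le_mul_left _ (by omega)
      _ ≤ P.M * B := h1
  have e2 : B ≤ 12 * P.θ * P.Q ^ j := by
    have : 10 * P.θ * 1 ≤ 10 * P.θ * P.Q ^ j := Nat.mul_le_mul_left _ hq
    have e3 : P.Q ^ j * (2 * P.θ) + 10 * P.θ * P.Q ^ j = 12 * P.θ * P.Q ^ j := by ring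
    omega
  have e3 : P.Q * P.Q ^ j ≤ 12 * (P.M * P.θ) * P.Q ^ j := by
    calc P.Q * P.Q ^ j ≤ P.M * B := e1
      _ ≤ P.M * (12 * P.θ * P.Q ^ j) := Nat.mul_le_mul_left _ e2
      _ = _ := by ring
  have e4 : P.Q ≤ 12 * (P.M * P.θ) := Nat.le_of_mul_le_mul_right e3 (by omega)
  omega

section
variable {G X : Type} [Group G] [MulAction G X] {d : X → X → ℕ} {P : Par} {F : Fam G X}

/-- item P6: `rel_V` for the second rotation, conjugated -/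
theorem P6_conj (hV : S.rel_V) (hG : P.St G d P.M) (hF : Fam1 P d F) {V' x' : G} {c c' : F.C}
    (h' : Rel1 P d F V' x' c') (g : G) (hg : g • c' = c) (y : X) (hy : y ∈ F.Y c) (f : ℕ) :
    f * (16 * P.δ) ≤ P.M * d y ((g * V' * g⁻¹) ^ f • y) ∧
      d y ((g * V' * g⁻¹) ^ f • y) ≤ f * (2 * P.θ) := by
  have hc : g⁻¹ • c = c' := by rw [← hg, inv_smul_smul]
  have hy' : g⁻¹ • y ∈ F.Y c' := hc ▸ F.Y_smul g⁻¹ c y hy
  have h1 := hV hG hF h' (g⁻¹ • y) hy' f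
  have h2 : d (g⁻¹ • y) (V' ^ f • g⁻¹ • y) = d y ((g * V' * g⁻¹) ^ f • y) := by
    rw [← hG.isom g (g⁻¹ • y), smul_inv_smul, conj_pow, smul_smul, smul_smul, mul_assoc]
  rwa [h2] at h1

end

theorem turn_eq (hV : S.rel_V) : S.turn_eq := by
  intro G X _ _ d P F hG hF V x c h V' x' c' h' g hg i j hi hj y hy hcmp
  obtain ⟨hδ, hQ, hM, hθ, hnum⟩ := P6_par P
  set U := g * V' * g⁻¹ with hU
  have hUc : U • c = c := by
    rw [hU, ← hg, smul_smul, inv_mul_cancel_right, mul_smul, h'.fix]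
  have hk : d (V ^ (P.Q ^ i) • y) (U ^ (P.Q ^ j) • y) ≤ 10 * P.θ := by
    have e : d y ((V⁻¹ ^ (P.Q ^ i) * U ^ (P.Q ^ j)) • y) =
        d (V ^ (P.Q ^ i) • y) (U ^ (P.Q ^ j) • y) := by
      rw [← hG.isom (V ^ (P.Q ^ i)) y, smul_smul, ← mul_assoc, inv_pow, mul_inv_cancel, one_mul]
    rwa [e] at hcmp
  have t1 := hG.geo.tri y (U ^ (P.Q ^ j) • y) (V ^ (P.Q ^ i) • y)
  have t2 := hG.geo.tri y (V ^ (P.Q ^ i) • y) (U ^ (P.Q ^ j) • y)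
  have t3 := hG.geo.symm (U ^ (P.Q ^ j) • y) (V ^ (P.Q ^ i) • y)
  obtain ⟨a1, a2⟩ := hV hG hF h y hy (P.Q ^ i)
  obtain ⟨b1, b2⟩ := P6_conj hV hG hF h' g hg y hy (P.Q ^ j)
  rw [← hU] at b1 b2
  have hij : i = j := le_antisymm (P6_exp P a1 (by omega) b2) (P6_exp P b1 (by omega) a2)
  refine ⟨hij, ?_⟩
  subst hij
  by_contra hne
  have hcomm : Commute V⁻¹ U := (show Commute V U from hF.ab c V U h.fix hUc).inv_left
  have hfix : (V⁻¹ * U) • c = c := by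
    rw [mul_smul, hUc, inv_smul_eq_iff, h.fix]
  have hn1 : V⁻¹ * U ≠ 1 := fun h0 => hne (by rw [← mul_one V, ← h0, mul_inv_cancel_left])
  have hgr := hF.gr c (V⁻¹ * U) y (P.Q ^ i) hfix hn1
  rw [hcomm.mul_pow] at hgr
  have hp : P.Q ≤ P.Q ^ i := by
    calc P.Q = P.Q ^ 1 := (pow_one _).symm
      _ ≤ P.Q ^ i := Nat.pow_le_pow_right hQ hi
  have e1 : P.Q ≤ P.M * (10 * P.θ) := by
    calc P.Q ≤ P.Q ^ i * 1 := by omega
      _ ≤ P.Q ^ i * (16 * P.δ) := Nat.mul_le_mul_left _ (by omega)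
      _ ≤ _ := hgr
      _ ≤ P.M * (10 * P.θ) := Nat.mul_le_mul_left _ hcmp
  have e2 : P.M * (10 * P.θ) = 10 * (P.M * P.θ) := by ring
  omega

theorem turn_eq_rev (hV : S.rel_V) : S.turn_eq_rev := by
  intro G X _ _ d P F hG hF V x c h V' x' c' h' g hg i j hi hj y hy hcmp
  set U := g * V' * g⁻¹ with hU
  have hk : d (V⁻¹ ^ (P.Q ^ i) • y) (U ^ (P.Q ^ j) • y) ≤ 10 * P.θ := by
    have e : d y ((V ^ (P.Q ^ i) * U ^ (P.Q ^ j)) • y) =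
        d (V⁻¹ ^ (P.Q ^ i) • y) (U ^ (P.Q ^ j) • y) := by
      rw [← hG.isom (V⁻¹ ^ (P.Q ^ i)) y, smul_smul, ← mul_assoc, inv_pow, inv_mul_cancel, one_mul]
    rwa [e] at hcmp
  have hinv : d y (V⁻¹ ^ (P.Q ^ i) • y) = d y (V ^ (P.Q ^ i) • y) := by
    rw [← hG.isom (V ^ (P.Q ^ i)) y, smul_smul, inv_pow, mul_inv_cancel, one_smul, hG.geo.symm]
  have t1 := hG.geo.tri y (U ^ (P.Q ^ j) • y) (V⁻¹ ^ (P.Q ^ i) • y)
  have t2 := hG.geo.tri y (V⁻¹ ^ (P.Q ^ i) • y) (U ^ (P.Q ^ j) • y)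
  have t3 := hG.geo.symm (U ^ (P.Q ^ j) • y) (V⁻¹ ^ (P.Q ^ i) • y)
  obtain ⟨a1, a2⟩ := hV hG hF h y hy (P.Q ^ i)
  obtain ⟨b1, b2⟩ := P6_conj hV hG hF h' g hg y hy (P.Q ^ j)
  rw [← hU] at b1 b2
  exact le_antisymm (P6_exp P a1 (by omega) b2) (P6_exp P b1 (by omega) a2)

end Mon
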