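import Pool.Agent.Work.MP_6f5fa7_al.Mon.StAct
import Pool.Agent.Work.MP_6f5fa7_al.Mon.StDesc
import Pool.Agent.Work.MP_6f5fa7_al.Mon.StPiece

/-! Mon: item P7, five consecutive common apices determine the relator (helper76). -/
set_option autoImplicit false

namespace Mon

private theorem P7_fx_le {Q N : ℕ} (hQ : 1 ≤ Q) (hN : 1 ≤ N) (j : ℤ) : fx Q N j ≤ Q ^ N := by
  unfold fx
  apply Nat.pow_le_pow_right hQ
  have h1 : (0 : ℤ) < N := by exact_mod_cast hN
  have h2 := Int.emod_lt_of_pos j h1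
  have h3 := Int.emod_nonneg j h1.ne'
  omega

private theorem P7_dvd {N : ℕ} (hN : 1 ≤ N) (i j : ℤ)
    (h : (i % (N : ℤ)).toNat + 1 = (j % (N : ℤ)).toNat + 1) : (N : ℤ) ∣ i - j := by
  have h1 : (0 : ℤ) < N := by exact_mod_cast hN
  have h2 := Int.emod_nonneg i h1.ne'
  have h3 := Int.emod_nonneg j h1.ne'
  have h4 : i % (N : ℤ) = j % (N : ℤ) := by omega
  have h5 : j ≡ i [ZMOD (N : ℤ)] := h4.symm
  exact h5.dvd

private theorem P7_fx_eq {Q N : ℕ} {i j : ℤ} (h : (N : ℤ) ∣ i - j) : fx Q N i = fx Q N j := by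
  unfold fx
  have h1 : j % (N : ℤ) = i % (N : ℤ) := (Int.modEq_iff_dvd.2 h)
  rw [h1]

private theorem P7_mk {G : Type} [Group G] {K : Subgroup G} (hK : K.Normal) (a b : G) :
    (QuotientGroup.mk' K a = QuotientGroup.mk' K b) ↔ ∃ κ ∈ K, a = κ * b := by
  constructor
  · intro h
    have h1 : a⁻¹ * b ∈ K := QuotientGroup.eq.1 h
    refine ⟨a * b⁻¹, ?_, by group⟩
    have h2 := hK.conj_mem _ (K.inv_mem h1) a
    have h3 : a * (a⁻¹ * b)⁻¹ * a⁻¹ = a * b⁻¹ := by group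
    rwa [h3] at h2
  · rintro ⟨κ, hκ, rfl⟩
    rw [map_mul]
    have : QuotientGroup.mk' K κ = 1 := (QuotientGroup.eq_one_iff κ).2 hκ
    rw [this, one_mul]

theorem piece_core (h_cmp : S.turn_cmp) (h_cmpr : S.turn_cmp_rev) (h_eq : S.turn_eq)
    (h_eqr : S.turn_eq_rev) (h_two : S.fix_two) (h_succ : S.gs_succ) (h_next : S.axs_next)
    (h_prev : S.axs_prev) : S.piece_core := by
  intro G X _ _ d P F hG hF V x c h V' x' c' h' l m ε hε hw
  have nK : (Ker F).Normal := ker_nrm F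
  have hN3 : 3 ≤ P.N := by
    have e1 := P.hN
    have e2 := P.hTT2
    have e3 : 1 ≤ P.δ1 * P.s * 2 ^ P.D := by
      have f1 := P.h1
      have f2 := P.hδ
      have f3 : 1 ≤ P.s := by
        have := P.hD; have := P.hA; have := P.hs; have := P.hA0; have := P.hΛs; have := P.hΛ
        have f4 : P.Λ ≤ Ex (1000 * P.Λ) := by
          unfold Ex
          have : 1 ≤ 2 ^ (1000 * P.Λ) := Nat.one_le_two_pow
          nlinarith
        omega
      exact Nat.mul_pos (Nat.mul_pos f1 f3) (Nat.pos_of_ne_zero (by positivity))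
    omega
  have hN1 : 1 ≤ P.N := by omega
  have hM1 : 1 ≤ P.M := by have := P.hM; omega
  have hTT : 1 ≤ P.TT2 := by
    have e2 := P.hTT2
    have e3 : 1 ≤ P.δ1 * P.s * 2 ^ P.D := by
      have f1 := P.h1
      have f2 := P.hδ
      have f3 : 1 ≤ P.s := by
        have := P.hD; have := P.hA; have := P.hs; have := P.hA0; have := P.hΛs; have := P.hΛ
        have f4 : P.Λ ≤ Ex (1000 * P.Λ) := by
          unfold Ex
          have : 1 ≤ 2 ^ (1000 * P.Λ) := Nat.one_le_two_pow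
          nlinarith
        omega
      exact Nat.mul_pos (Nat.mul_pos f1 f3) (Nat.pos_of_ne_zero (by positivity))
    omega
  have hQ1 : 1 ≤ P.Q := by
    have e1 := P.hQ
    have e2 : 1 ≤ P.M * P.TT2 := Nat.mul_pos hM1 hTT
    have e3 : 1000 * P.M * P.TT2 = 1000 * (P.M * P.TT2) := by ring
    omega
  have hT : P.TT2 ≤ P.TT1 := by
    have e1 := P.hTT1
    have e2 : 1 ≤ P.Q ^ (10 * P.N + 100) := Nat.one_le_pow _ _ hQ1
    nlinarith
  obtain ⟨y, hy, -⟩ := h.small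
  choose! κ hκ using hw
  obtain ⟨γ, hγ⟩ : ∃ γ : ℤ → G, ∀ k, γ k = (gs P.Q P.N V x (l + k))⁻¹ * (κ k)⁻¹ *
      gs P.Q P.N V' x' (m + ε * k) := ⟨_, fun k => rfl⟩
  have hγc : ∀ k, 0 ≤ k → k ≤ 4 → γ k • c' = c := by
    intro k h0 h4
    have h1 := (hκ k h0 h4).2
    unfold axs at h1
    rw [hγ, mul_smul, ← h1, mul_smul, inv_smul_smul, inv_smul_smul]
  have hA : ∀ k j, 0 ≤ k → k ≤ 4 → 0 ≤ j → j ≤ 4 → ∃ κ' ∈ Ker F,
      κ' • (γ k • ((gs P.Q P.N V' x' (m + ε * k))⁻¹ • axs P F V' x' c' (m + ε * j))) =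
        (gs P.Q P.N V x (l + k))⁻¹ • axs P F V x c (l + j) := by
    intro k j hk0 hk4 hj0 hj4
    refine ⟨(gs P.Q P.N V x (l + k))⁻¹ * ((κ j)⁻¹ * κ k) * ((gs P.Q P.N V x (l + k))⁻¹)⁻¹,
      nK.conj_mem _ ((Ker F).mul_mem ((Ker F).inv_mem (hκ j hj0 hj4).1) (hκ k hk0 hk4).1) _, ?_⟩
    rw [hγ, ← (hκ j hj0 hj4).2]
    simp only [smul_smul]
    congr 1
    group
  have hprev : ∀ j, (gs P.Q P.N V x j)⁻¹ • axs P F V x c (j - 1) = x⁻¹ • c := by
    intro j
    rw [h_prev hG hF h j, inv_smul_smul]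
  have hnext : ∀ j, (gs P.Q P.N V x j)⁻¹ • axs P F V x c (j + 1) =
      V ^ (fx P.Q P.N j) • (x • c) := by
    intro j
    rw [h_next hG hF h j, inv_smul_smul]
  have hprev' : ∀ j, (gs P.Q P.N V' x' j)⁻¹ • axs P F V' x' c' (j - 1) = x'⁻¹ • c' := by
    intro j
    rw [h_prev hG hF h' j, inv_smul_smul]
  have hnext' : ∀ j, (gs P.Q P.N V' x' j)⁻¹ • axs P F V' x' c' (j + 1) =
      V' ^ (fx P.Q P.N j) • (x' • c') := by
    intro j
    rw [h_next hG hF h' j, inv_smul_smul]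
  rcases hε with rfl | rfl
  swap
  · -- reversed orientation
    exfalso
    have key : ∀ k, 1 ≤ k → k ≤ 3 → (P.N : ℤ) ∣ (l + k) - (m + -1 * k) := by
      intro k hk1 hk3
      obtain ⟨κ1, hκ1, e1⟩ := hA k (k - 1) (by omega) (by omega) (by omega) (by omega)
      obtain ⟨κ2, hκ2, e2⟩ := hA k (k + 1) (by omega) (by omega) (by omega) (by omega)
      rw [show m + -1 * (k - 1) = (m + -1 * k) + 1 by ring, hnext',
        show l + (k - 1) = (l + k) - 1 by ring, hprev] at e1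
      rw [show m + -1 * (k + 1) = (m + -1 * k) - 1 by ring, hprev',
        show l + (k + 1) = (l + k) + 1 by ring, hnext] at e2
      have h1 := h_cmpr hG hF h h' (γ k) (hγc k (by omega) (by omega)) (fx P.Q P.N (l + k))
        (fx P.Q P.N (m + -1 * k)) (P7_fx_le hQ1 hN1 _) (P7_fx_le hQ1 hN1 _) κ1 κ2 hκ1 hκ2
        e1 e2 y hy
      have h2 := h_eqr hG hF h h' (γ k) (hγc k (by omega) (by omega))
        (((l + k) % (P.N : ℤ)).toNat + 1) (((m + -1 * k) % (P.N : ℤ)).toNat + 1) (by omega)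
        (by omega) y hy h1
      exact P7_dvd hN1 _ _ h2
    have k1 := key 1 (by omega) (by omega)
    have k2 := key 2 (by omega) (by omega)
    have k3 : (P.N : ℤ) ∣ 2 := by
      have := dvd_sub k2 k1
      have e : (l + 2 - (m + -1 * 2)) - (l + 1 - (m + -1 * 1)) = 2 := by ring
      rwa [e] at this
    have k4 := Int.le_of_dvd (by norm_num) k3
    omega
  have key : ∀ k, 1 ≤ k → k ≤ 3 → (P.N : ℤ) ∣ (l + k) - (m + 1 * k) ∧ γ k * V' * (γ k)⁻¹ = V := by
    intro k hk1 hk3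
    obtain ⟨κ1, hκ1, e1⟩ := hA k (k - 1) (by omega) (by omega) (by omega) (by omega)
    obtain ⟨κ2, hκ2, e2⟩ := hA k (k + 1) (by omega) (by omega) (by omega) (by omega)
    rw [show m + 1 * (k - 1) = (m + 1 * k) - 1 by ring, hprev',
      show l + (k - 1) = (l + k) - 1 by ring, hprev] at e1
    rw [show m + 1 * (k + 1) = (m + 1 * k) + 1 by ring, hnext',
      show l + (k + 1) = (l + k) + 1 by ring, hnext] at e2
    have h1 := h_cmp hG hF h h' (γ k) (hγc k (by omega) (by omega)) (fx P.Q P.N (l + k))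
      (fx P.Q P.N (m + 1 * k)) (P7_fx_le hQ1 hN1 _) (P7_fx_le hQ1 hN1 _) κ1 κ2 hκ1 hκ2
      e1 e2 y hy
    have h2 := h_eq hG hF h h' (γ k) (hγc k (by omega) (by omega))
      (((l + k) % (P.N : ℤ)).toNat + 1) (((m + 1 * k) % (P.N : ℤ)).toNat + 1) (by omega)
      (by omega) y hy h1
    exact ⟨P7_dvd hN1 _ _ h2.1, h2.2⟩
  have hdvd : (P.N : ℤ) ∣ l - m := by
    have := (key 1 (by omega) (by omega)).1
    have e : (l + 1) - (m + 1 * 1) = l - m := by ring
    rwa [e] at this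
  have hf : ∀ k : ℤ, fx P.Q P.N (l + k) = fx P.Q P.N (m + k) := by
    intro k
    apply P7_fx_eq
    have e : (l + k) - (m + k) = l - m := by ring
    rwa [e]
  -- the quotient group
  set π := QuotientGroup.mk' (Ker F) with hπ
  have hπK : ∀ κ ∈ Ker F, π κ = 1 := fun κ hκ => (QuotientGroup.eq_one_iff κ).2 hκ
  have hmk : ∀ a b, π a = π b ↔ ∃ κ ∈ Ker F, a = κ * b := P7_mk nK
  have hcom : ∀ k, 1 ≤ k → k ≤ 3 → ∀ f : ℕ, π (γ k) * π V' ^ f = π V ^ f * π (γ k) := by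
    intro k h1 h3 f
    have e := (key k h1 h3).2
    rw [← map_pow, ← map_pow, ← map_mul, ← map_mul, ← e, conj_pow]
    congr 1
    group
  have hpg : ∀ k, 0 ≤ k → k ≤ 4 → π (γ k) = (π (gs P.Q P.N V x (l + k)))⁻¹ *
      π (gs P.Q P.N V' x' (m + k)) := by
    intro k h0 h4
    rw [hγ, map_mul, map_mul, map_inv, map_inv, hπK _ (hκ k h0 h4).1, inv_one, mul_one, one_mul]
  have hstep : ∀ k, 1 ≤ k → k ≤ 3 → π (γ (k + 1)) = (π x)⁻¹ * π (γ k) * π x' := by
    intro k h1 h3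
    have hc := hcom k h1 h3 (fx P.Q P.N (l + k))
    rw [hpg (k + 1) (by omega) (by omega), show l + (k + 1) = (l + k) + 1 by ring,
      show m + (k + 1) = (m + k) + 1 by ring, h_succ G P.Q P.N hN1 V x, h_succ G P.Q P.N hN1 V' x',
      ← hf k]
    simp only [map_mul, map_pow, mul_inv_rev]
    rw [hpg k (by omega) (by omega)] at hc ⊢
    have e1 : (π x)⁻¹ * (π V ^ fx P.Q P.N (l + k))⁻¹ * (π (gs P.Q P.N V x (l + k)))⁻¹ *
        (π (gs P.Q P.N V' x' (m + k)) * (π V' ^ fx P.Q P.N (l + k) * π x')) =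
        (π x)⁻¹ * (π V ^ fx P.Q P.N (l + k))⁻¹ * ((π (gs P.Q P.N V x (l + k)))⁻¹ *
        π (gs P.Q P.N V' x' (m + k)) * π V' ^ fx P.Q P.N (l + k)) * π x' := by
      simp only [mul_assoc]
    rw [e1, hc]
    group
  -- the rotations `s1`, `s2`
  obtain ⟨s1, hs1⟩ : ∃ s1, s1 = γ 2 * (γ 1)⁻¹ := ⟨_, rfl⟩
  obtain ⟨s2, hs2⟩ : ∃ s2, s2 = γ 3 * (γ 2)⁻¹ := ⟨_, rfl⟩
  have hg1 : γ 1 • c' = c := hγc 1 (by omega) (by omega)
  have hg2 : γ 2 • c' = c := hγc 2 (by omega) (by omega)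
  have hg3 : γ 3 • c' = c := hγc 3 (by omega) (by omega)
  have hs1c : s1 • c = c := by
    rw [hs1, mul_smul, inv_smul_eq_iff.2 hg1.symm, hg2]
  have hs2c : s2 • c = c := by
    rw [hs2, mul_smul, inv_smul_eq_iff.2 hg2.symm, hg3]
  have e2 : π (γ 2) = (π x)⁻¹ * π (γ 1) * π x' := hstep 1 (by omega) (by omega)
  have e3 : π (γ 3) = (π x)⁻¹ * π (γ 2) * π x' := hstep 2 (by omega) (by omega)
  have hX' : π x' = (π (γ 1))⁻¹ * π x * π (γ 2) := by
    rw [e2]; group
  have hrel : π s2 = (π x)⁻¹ * π s1 * π x := by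
    rw [hs1, hs2, map_mul, map_mul, map_inv, map_inv, e3, hX']
    group
  have hs2K : s2 ∈ Ker F := by
    apply h_two hG hF.ok hT s2 c (x⁻¹ • c)
    · exact ⟨1, (Ker F).one_mem, by rw [one_mul]; exact hs2c⟩
    · rw [← map_inv, ← map_mul, ← map_mul] at hrel
      obtain ⟨κ1, hκ1, e⟩ := (hmk _ _).1 hrel
      refine ⟨κ1⁻¹, (Ker F).inv_mem hκ1, ?_⟩
      rw [e, inv_mul_cancel_left, mul_smul, smul_inv_smul, mul_smul, hs1c]
    · intro κ1 hκ1 hcon
      apply h.nofix c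
      refine ⟨x * κ1 * x⁻¹, nK.conj_mem _ hκ1 x, ?_⟩
      rw [inv_mul_cancel_right, mul_smul, hcon, smul_inv_smul]
  have hs1K : π s1 = 1 := by
    rw [hπK s2 hs2K] at hrel
    have : π s1 = π x * ((π x)⁻¹ * π s1 * π x) * (π x)⁻¹ := by group
    rw [this, ← hrel]; group
  have h12 : π (γ 2) = π (γ 1) := by
    rw [hs1, map_mul, map_inv] at hs1K
    exact mul_inv_eq_one.1 hs1K
  have hxx : π (γ 1) * π x' = π x * π (γ 1) := by
    rw [hX', h12]; group
  refine ⟨rfl, hdvd, γ 1, hg1, (key 1 (by omega) (by omega)).2, ?_, ?_⟩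
  · rw [← hmk, map_mul, map_mul, map_inv, hxx]
    group
  · have hall : ∀ k : ℤ, π (gs P.Q P.N V x (l + k)) * π (γ 1) = π (gs P.Q P.N V' x' (m + k)) := by
      have hst : ∀ k : ℤ, (π (gs P.Q P.N V x (l + k)) * π (γ 1) = π (gs P.Q P.N V' x' (m + k)) ↔
          π (gs P.Q P.N V x (l + (k + 1))) * π (γ 1) = π (gs P.Q P.N V' x' (m + (k + 1)))) := by
        intro k
        have e4 : π (gs P.Q P.N V x (l + (k + 1))) * π (γ 1) =
            (π (gs P.Q P.N V x (l + k)) * π (γ 1)) * (π V' ^ fx P.Q P.N (l + k) * π x') := by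
          rw [show l + (k + 1) = (l + k) + 1 by ring, h_succ G P.Q P.N hN1 V x]
          simp only [map_mul, map_pow]
          have c1 := hcom 1 (by omega) (by omega) (fx P.Q P.N (l + k))
          calc π (gs P.Q P.N V x (l + k)) * (π V ^ fx P.Q P.N (l + k) * π x) * π (γ 1) =
              π (gs P.Q P.N V x (l + k)) * π V ^ fx P.Q P.N (l + k) * (π x * π (γ 1)) := by
                simp only [mul_assoc]
            _ = π (gs P.Q P.N V x (l + k)) * (π V ^ fx P.Q P.N (l + k) * π (γ 1)) * π x' := by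
                rw [← hxx]; simp only [mul_assoc]
            _ = _ := by rw [← c1]; simp only [mul_assoc]
        have e5 : π (gs P.Q P.N V' x' (m + (k + 1))) =
            π (gs P.Q P.N V' x' (m + k)) * (π V' ^ fx P.Q P.N (l + k) * π x') := by
          rw [show m + (k + 1) = (m + k) + 1 by ring, h_succ G P.Q P.N hN1 V' x', ← hf k]
          simp only [map_mul, map_pow]
        rw [e4, e5]
        exact (mul_left_inj _).symm
      have h1 : π (gs P.Q P.N V x (l + 1)) * π (γ 1) = π (gs P.Q P.N V' x' (m + 1)) := by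
        rw [hpg 1 (by omega) (by omega)]; group
      have h0 : π (gs P.Q P.N V x (l + 0)) * π (γ 1) = π (gs P.Q P.N V' x' (m + 0)) :=
        (hst 0).2 (by simpa using h1)
      intro k
      induction k using Int.induction_on with
      | zero => exact h0
      | succ i ih => exact (hst _).1 ih
      | pred i ih =>
        apply (hst _).2
        rw [show (-(i : ℤ) - 1 + 1) = -(i : ℤ) by ring]
        exact ih
    intro k
    rw [← hmk, map_mul]
    exact hall k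

end Mon
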