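import Pool.Agent.Work.MP_6f5fa7_al.Mon.StPiece
import Pool.Agent.Work.MP_6f5fa7_al.Mon.StDesc
import Pool.Agent.Work.MP_6f5fa7_al.Mon.StAct
import Pool.Agent.Work.MP_6f5fa7_al.Mon.StCone

/-! Mon, item P8: the stabiliser of the axis. -/
set_option autoImplicit false

namespace Mon

private theorem P8_num (P : Par) : 1 ≤ P.s ∧ 1 ≤ P.D ∧ 1 ≤ P.N ∧ P.TT2 ≤ P.TT1 := by
  have h1 := P.h1
  have h2 := P.hδ
  have h3 := P.hΛs
  have h4 := P.hΛ
  have h5 := P.hA0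
  have h6 := P.hD
  have h7 := P.hA
  have h8 := P.hs
  have h9 : 1000 * P.Λ ≤ Ex (1000 * P.Λ) := by
    unfold Ex
    exact Nat.le_mul_of_pos_right _ (by positivity)
  have hs : 1 ≤ P.s := by omega
  have hN := P.hN10
  have hM1 := P.hM1
  have hM10 : 1 ≤ P.M1 := by omega
  have hEs : 1 ≤ P.s * Ex (1000 * P.Λ) := Nat.one_le_iff_ne_zero.2
    (Nat.mul_ne_zero (by omega) (by omega))
  have hM := P.hM
  have hM0 : 1 ≤ P.M := by omega
  have hT := P.hTT2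
  have h10 : 1 ≤ P.δ1 * P.s * 2 ^ P.D := Nat.one_le_iff_ne_zero.2
    (Nat.mul_ne_zero (Nat.mul_ne_zero (by omega) (by omega)) (by positivity))
  have hT1 : 1 ≤ P.TT2 := by omega
  have hQ := P.hQ
  have hQ1 : 1 ≤ P.Q := by
    have : 1 ≤ 1000 * P.M * P.TT2 := Nat.one_le_iff_ne_zero.2
      (Nat.mul_ne_zero (Nat.mul_ne_zero (by omega) (by omega)) (by omega))
    omega
  have hTT := P.hTT1
  have hQk : 1 ≤ P.Q ^ (10 * P.N + 100) := Nat.one_le_pow _ _ hQ1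
  refine ⟨hs, by omega, by omega, ?_⟩
  calc P.TT2 ≤ 1000 * P.TT2 * 1 := by omega
    _ ≤ 1000 * P.TT2 * P.Q ^ (10 * P.N + 100) := Nat.mul_le_mul_left _ hQk
    _ ≤ P.TT1 := hTT

/-- a map of `ℤ` which preserves distances is a translation or a reflection (on `0..4`) -/
private theorem P8_tau (τ : ℤ → ℤ) (h : ∀ (i : ℤ) (m : ℕ), |τ (i + m) - τ i| = m) :
    (∀ k : ℤ, 0 ≤ k → k ≤ 4 → τ k = τ 0 + k) ∨ (∀ k : ℤ, 0 ≤ k → k ≤ 4 → τ k = τ 0 - k) := by
  have a1 := h 0 1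
  have a2 := h 0 2
  have a3 := h 0 3
  have a4 := h 0 4
  have b2 := h 1 1
  have b3 := h 1 2
  have b4 := h 1 3
  norm_num at a1 a2 a3 a4 b2 b3 b4
  rcases abs_eq (by norm_num) |>.1 a1 with h1 | h1
  · left
    intro k hk0 hk4
    have hk : k = 0 ∨ k = 1 ∨ k = 2 ∨ k = 3 ∨ k = 4 := by omega
    rcases abs_eq (by norm_num) |>.1 a2 with h2 | h2 <;>
    rcases abs_eq (by norm_num) |>.1 a3 with h3 | h3 <;>
    rcases abs_eq (by norm_num) |>.1 a4 with h4 | h4 <;>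
    rcases abs_eq (by norm_num) |>.1 b2 with h5 | h5 <;>
    rcases abs_eq (by norm_num) |>.1 b3 with h6 | h6 <;>
    rcases abs_eq (by norm_num) |>.1 b4 with h7 | h7 <;>
    rcases hk with rfl | rfl | rfl | rfl | rfl <;> omega
  · right
    intro k hk0 hk4
    have hk : k = 0 ∨ k = 1 ∨ k = 2 ∨ k = 3 ∨ k = 4 := by omega
    rcases abs_eq (by norm_num) |>.1 a2 with h2 | h2 <;>
    rcases abs_eq (by norm_num) |>.1 a3 with h3 | h3 <;>
    rcases abs_eq (by norm_num) |>.1 a4 with h4 | h4 <;>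
    rcases abs_eq (by norm_num) |>.1 b2 with h5 | h5 <;>
    rcases abs_eq (by norm_num) |>.1 b3 with h6 | h6 <;>
    rcases abs_eq (by norm_num) |>.1 b4 with h7 | h7 <;>
    rcases hk with rfl | rfl | rfl | rfl | rfl <;> omega

theorem ax_stab (h1 : S.piece_core) (h2 : S.ax_dist) (h3 : S.fix_two) (h4 : S.gs_period)
    (h5 : S.gs_zero) (h6 : S.rel_len) (h7 : S.cone_isom) (h8 : S.qd_geo) (h9 : S.qd_isom)
    (h10 : S.qd_zero) : S.ax_stab := by
  intro G X _ _ d P F hG hF V x c h V' x' c' h' g hg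
  obtain ⟨ns, nD, nN, nT⟩ := P8_num P
  have hci : Isom G (cd F P.D d P.s) := h7 hG.geo hG.isom ns nD
  have hq : Geo (qd (Ker F) (cd F P.D d P.s)) := h8 hG hF.ok nT
  have hqi : Isom G (qd (Ker F) (cd F P.D d P.s)) := h9 hG hF.ok nT
  have hqz := fun (κ : G) (hκ : κ ∈ Ker F) (p : Cone F P.D) => h10 hG hF.ok nT κ hκ p
  obtain ⟨hl, -⟩ := h6 hG hF h
  set q := qd (Ker F) (cd F P.D d P.s) with hqdef
  -- invariance under the kernel
  have hqk : ∀ (κ κ' : G), κ ∈ Ker F → κ' ∈ Ker F → ∀ a b : Cone F P.D,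
      q (κ • a) (κ' • b) = q a b := by
    intro κ κ' hκ hκ' a b
    have e1 := hqz κ hκ a
    have e2 := hqz κ' hκ' b
    have t1 := hq.tri (κ • a) a (κ' • b)
    have t2 := hq.tri a b (κ' • b)
    have t3 := hq.tri a (κ • a) b
    have t4 := hq.tri (κ • a) (κ' • b) b
    have s1 := hq.symm (κ • a) a
    have s2 := hq.symm (κ' • b) b
    omega
  have hAd : ∀ (i : ℤ) (m : ℕ), q (ap F P.D (axs P F V x c i)) (ap F P.D (axs P F V x c (i + m))) =
      m * q (ap F P.D c) (x • ap F P.D c) := h2 hG hF h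
  choose τ κ hκ hτ using hg
  -- the map on the indices preserves distances
  have hdist : ∀ (i : ℤ) (m : ℕ), |τ (i + m) - τ i| = m := by
    intro i m
    have e1 : q (ap F P.D (axs P F V x c (τ i))) (ap F P.D (axs P F V x c (τ (i + m)))) =
        m * q (ap F P.D c) (x • ap F P.D c) := by
      rw [← hAd i m, ← hτ i, ← hτ (i + m)]
      have e3 : ∀ (κ : G) (c : F.C), ap F P.D (κ • (g • c)) = κ • (g • ap F P.D c) :=
        fun κ c => rfl
      rw [e3, e3, hqk _ _ (hκ i) (hκ (i + m)), hqi]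
    rcases le_total (τ i) (τ (i + m)) with hle | hle
    · obtain ⟨k, hk⟩ := Int.eq_ofNat_of_zero_le (sub_nonneg.2 hle)
      have e2 := hAd (τ i) k
      rw [← hk, add_sub_cancel, e1] at e2
      have e3 : m = k := Nat.eq_of_mul_eq_mul_right (by omega) e2
      rw [abs_of_nonneg (sub_nonneg.2 hle), hk, e3]
    · obtain ⟨k, hk⟩ := Int.eq_ofNat_of_zero_le (sub_nonneg.2 hle)
      have e2 := hAd (τ (i + m)) k
      rw [← hk, add_sub_cancel, hq.symm, e1] at e2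
      have e3 : m = k := Nat.eq_of_mul_eq_mul_right (by omega) e2
      rw [abs_of_nonpos (sub_nonpos.2 hle), neg_sub, hk, e3]
  have hR := h.smul hG.isom hci g
  have hax : ∀ j : ℤ, (κ j)⁻¹ • axs P F V x c (τ j) =
      axs P F (g * V * g⁻¹) (g * x * g⁻¹) (g • c) j := by
    intro j
    rw [axs_smul, ← hτ j, inv_smul_smul]
  -- the orientation is preserved
  have key : (P.N : ℤ) ∣ τ 0 - 0 ∧ ∃ g0 : G, g0 • (g • c) = c ∧ g0 * (g * V * g⁻¹) * g0⁻¹ = V ∧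
      (∃ κ ∈ Ker F, g0 * (g * x * g⁻¹) * g0⁻¹ = κ * x) ∧
      ∀ k : ℤ, ∃ κ ∈ Ker F, gs P.Q P.N V x (τ 0 + k) * g0 =
        κ * gs P.Q P.N (g * V * g⁻¹) (g * x * g⁻¹) (0 + k) := by
    rcases P8_tau τ hdist with ht | ht
    · exact (h1 hG hF h hR (τ 0) 0 1 (Or.inl rfl) (by
        intro k hk0 hk4
        refine ⟨(κ k)⁻¹, (Ker F).inv_mem (hκ k), ?_⟩
        rw [← ht k hk0 hk4, hax k]
        congr 1
        ring)).2
    · have hh := (h1 hG hF h hR (τ 0 - 4) 4 (-1) (Or.inr rfl) (by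
        intro k hk0 hk4
        refine ⟨(κ (4 - k))⁻¹, (Ker F).inv_mem (hκ (4 - k)), ?_⟩
        have e : τ 0 - 4 + k = τ (4 - k) := by
          rw [ht (4 - k) (by omega) (by omega)]; ring
        rw [e, hax (4 - k)]
        congr 1
        ring)).1
      norm_num at hh
  obtain ⟨⟨t, ht⟩, g0, hg0, hV, ⟨μ, hμ, hx⟩, hgs⟩ := key
  -- `s = g0 g` is in the kernel
  have hsx : (g0 * g) * x = μ * x * (g0 * g) := by
    have : (g0 * g) * x = (g0 * (g * x * g⁻¹) * g0⁻¹) * (g0 * g) := by group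
    rw [this, hx]
  have hsc : (g0 * g) • c = c := by rw [mul_smul]; exact hg0
  have hs : g0 * g ∈ Ker F := by
    refine h3 hG hF.ok nT (g0 * g) c (x • c) ⟨1, (Ker F).one_mem, by rw [one_mul, hsc]⟩
      ⟨μ⁻¹, (Ker F).inv_mem hμ, ?_⟩ ?_
    · have : (μ⁻¹ * (g0 * g)) • (x • c) = (μ⁻¹ * (g0 * g * x)) • c := by
        rw [smul_smul, mul_assoc]
      rw [this, hsx]
      have e : μ⁻¹ * (μ * x * (g0 * g)) = x * (g0 * g) := by group
      rw [e, mul_smul, hsc]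
    · intro ν hν hνc
      refine h.nofix c ⟨ν⁻¹, (Ker F).inv_mem hν, ?_⟩
      rw [mul_smul, ← hνc, inv_smul_smul]
  -- the prefix product
  obtain ⟨ν, hν, hν2⟩ := hgs 0
  rw [add_zero, add_zero, h5 G P.Q P.N nN, mul_one] at hν2
  have ht' : τ 0 = 0 + t * P.N := by rw [sub_zero] at ht; rw [ht]; ring
  rw [ht', h4 G P.Q P.N nN, h5 G P.Q P.N nN, mul_one] at hν2
  refine ⟨t, ν⁻¹ * (Ww P.Q P.N V x ^ t * (g0 * g) * (Ww P.Q P.N V x ^ t)⁻¹),
    (Ker F).mul_mem ((Ker F).inv_mem hν) ((ker_nrm F).conj_mem _ hs _), ?_⟩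
  have e0 : g0 = (Ww P.Q P.N V x ^ t)⁻¹ * ν := by rw [← hν2]; group
  have e1 : g = g0⁻¹ * (g0 * g) := by group
  calc g = g0⁻¹ * (g0 * g) := e1
    _ = ((Ww P.Q P.N V x ^ t)⁻¹ * ν)⁻¹ * (g0 * g) := by rw [← e0]
    _ = _ := by group

end Mon
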