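import Pool.Agent.Work.MP_6f5fa7_al.Mon.StPiece
import Pool.Agent.Work.MP_6f5fa7_al.Mon.StFam2
import Pool.Agent.Work.MP_6f5fa7_al.Mon.StAct
import Pool.Agent.Work.MP_6f5fa7_al.Mon.StTool

/-! Mon: item P9 (fam2_Y, fam2_qc, rel_mem). -/
set_option autoImplicit false

namespace Mon

private theorem P9_le_Ex (r : ℕ) : r ≤ Ex r := by
  unfold Ex
  exact Nat.le_mul_of_pos_right r (by positivity)

private theorem P9_δ (P : Par) : 1 ≤ P.δ ∧ P.δ ≤ P.D := by
  have h1 := P.h1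
  have h2 := P.hδ
  have h3 := P.hΛs
  have h4 := P.hΛ
  have h5 := P.hA0
  have h6 := P9_le_Ex (1000 * P.Λ)
  have h7 := P.hD
  constructor <;> omega

private theorem P9_A (P : Par) : 3 * P.D + 5 * P.δ ≤ P.A := by
  have h1 := (P9_δ P).2
  have h2 := P.hA
  omega

private theorem P9_N (P : Par) : 1 ≤ P.N := by
  have h1 := P9_δ P
  have h2 := P.hA
  have h3 := P.hs
  have h4 := P.hN10
  omega

private theorem P9_TT (P : Par) : P.TT2 ≤ P.TT1 := by
  have h1 := P9_δ P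
  have h2 := P.hA
  have h3 := P.hs
  have h4 := P.hTT2
  have hs1 : 1 ≤ P.s := by omega
  have h0 : 1 ≤ P.δ1 * P.s * 2 ^ P.D :=
    Nat.mul_pos (Nat.mul_pos P.h1 hs1) (by positivity)
  have hT : 1 ≤ P.TT2 := by omega
  have hM : 1 ≤ P.M := by
    have := P.hM
    omega
  have hQ : 1 ≤ P.Q := by
    have h6 := P.hQ
    have h7 : 1 ≤ 1000 * P.M * P.TT2 := Nat.mul_pos (by omega) hT
    omega
  have h8 := P.hTT1
  have h9 : 1 ≤ P.Q ^ (10 * P.N + 100) := Nat.one_le_pow _ _ hQ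
  calc P.TT2 ≤ 1000 * P.TT2 := by omega
    _ ≤ 1000 * P.TT2 * P.Q ^ (10 * P.N + 100) := Nat.le_mul_of_pos_right _ h9
    _ ≤ P.TT1 := h8

theorem fam2_Y (qd_geo : S.qd_geo) (ax_seg : S.ax_seg) : S.fam2_Y := by
  intro G X _ _ d P F hG hF hci S z hz V x c h hS
  have hg : Geo (qd (Ker F) (cd F P.D d P.s)) := qd_geo hG hF.ok (P9_TT P)
  obtain ⟨a, ha, b, hb, hab⟩ := hz
  rw [hS] at ha hb
  obtain ⟨i, rfl⟩ := ha
  obtain ⟨j, rfl⟩ := hb
  obtain ⟨v, rfl⟩ := mkq_surj (Ker F) z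
  simp only at hab
  unfold Btw at hab
  rw [dq_mk _ hci, dq_mk _ hci, dq_mk _ hci] at hab
  have hab' : Btw (qd (Ker F) (cd F P.D d P.s)) (ap F P.D (axs P F V x c i)) v
      (ap F P.D (axs P F V x c j)) 0 := hab
  rcases lt_trichotomy i j with hij | hij | hij
  · obtain ⟨m, hm⟩ := Int.eq_ofNat_of_zero_le (show 0 ≤ j - i by omega)
    have hj : j = i + (m : ℤ) := by omega
    rw [hj] at hab'
    obtain ⟨k, _, hk⟩ := ax_seg hG hF h i m (by omega) v hab'
    exact ⟨v, i + k, rfl, hk⟩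
  · subst hij
    refine ⟨v, i, rfl, ?_⟩
    have h0 := hg.self (ap F P.D (axs P F V x c i))
    have h1 := hg.tri v (ap F P.D (axs P F V x c i)) (ap F P.D (axs P F V x c (i + 1)))
    unfold Btw
    omega
  · obtain ⟨m, hm⟩ := Int.eq_ofNat_of_zero_le (show 0 ≤ i - j by omega)
    have hj : i = j + (m : ℤ) := by omega
    have hab2 : Btw (qd (Ker F) (cd F P.D d P.s)) (ap F P.D (axs P F V x c j)) v
        (ap F P.D (axs P F V x c (j + (m : ℤ)))) 0 := by
      rw [← hj]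
      have e1 := hg.symm (ap F P.D (axs P F V x c j)) v
      have e2 := hg.symm v (ap F P.D (axs P F V x c i))
      have e3 := hg.symm (ap F P.D (axs P F V x c j)) (ap F P.D (axs P F V x c i))
      unfold Btw
      omega
    obtain ⟨k, _, hk⟩ := ax_seg hG hF h j m (by omega) v hab2
    exact ⟨v, j + k, rfl, hk⟩

theorem fam2_qc (qd_geo : S.qd_geo) (qd_hyp : S.qd_hyp) (ax_seg : S.ax_seg)
    (rel_len : S.rel_len) (rel_step : S.rel_step) (btw_quad : S.btw_quad)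
    (btw_proj : S.btw_proj) : S.fam2_qc := by
  intro G X _ _ d P F hG hF hci S a b z ha hb hz
  have hg : Geo (qd (Ker F) (cd F P.D d P.s)) := qd_geo hG hF.ok (P9_TT P)
  have hh : Hyp P.δ (qd (Ker F) (cd F P.D d P.s)) := qd_hyp hG hF.ok (P9_TT P)
  obtain ⟨V, x, c, h, hS⟩ := S.2
  obtain ⟨va, i, hva, hi⟩ := fam2_Y qd_geo ax_seg hG hF hci S a ha V x c h hS
  obtain ⟨vb, j, hvb, hj⟩ := fam2_Y qd_geo ax_seg hG hF hci S b hb V x c h hS
  obtain ⟨w, rfl⟩ := mkq_surj (Ker F) z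
  have hA := P9_A P
  have hstep : ∀ i : ℤ, qd (Ker F) (cd F P.D d P.s) (ap F P.D (axs P F V x c i))
      (ap F P.D (axs P F V x c (i + 1))) ≤ 3 * P.D := by
    intro i
    rw [rel_step hG hF h i]
    exact (rel_len hG hF h).2
  by_cases hza : qd (Ker F) (cd F P.D d P.s) w va ≤ 3 * P.D + 3 * P.δ
  · refine ⟨a, ha, ?_⟩
    rw [← hva, dq_mk _ hci]
    omega
  by_cases hzb : qd (Ker F) (cd F P.D d P.s) w vb ≤ 3 * P.D + 3 * P.δ
  · refine ⟨b, hb, ?_⟩
    rw [← hvb, dq_mk _ hci]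
    omega
  have hw : Btw (qd (Ker F) (cd F P.D d P.s)) va w vb 0 := by
    unfold Btw at hz ⊢
    rw [← hva, ← hvb, dq_mk _ hci, dq_mk _ hci, dq_mk _ hci] at hz
    exact hz
  have hi' : qd (Ker F) (cd F P.D d P.s) (ap F P.D (axs P F V x c i)) va ≤ 3 * P.D := by
    have := hstep i
    unfold Btw at hi
    omega
  have hj' : qd (Ker F) (cd F P.D d P.s) (ap F P.D (axs P F V x c j)) vb ≤ 3 * P.D := by
    have := hstep j
    unfold Btw at hj
    omega
  have hq := btw_quad hg hh hw hi' hj' (by omega) (by omega)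
  obtain ⟨m, hm, hwm⟩ := btw_proj hg hh hq
  refine ⟨mkq (Ker F) m, ⟨mkq (Ker F) (ap F P.D (axs P F V x c i)), ?_,
    mkq (Ker F) (ap F P.D (axs P F V x c j)), ?_, ?_⟩, ?_⟩
  · rw [hS]
    exact ⟨i, rfl⟩
  · rw [hS]
    exact ⟨j, rfl⟩
  · unfold Btw
    rw [dq_mk _ hci, dq_mk _ hci, dq_mk _ hci]
    exact hm
  · rw [dq_mk _ hci]
    omega

theorem rel_mem (gs_period : S.gs_period) : S.rel_mem := by
  intro G X _ _ d P F hG hF hci V x c h
  have hp : ∀ j : ℤ, Ww P.Q P.N V x • axs P F V x c j = axs P F V x c (j + P.N) := by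
    intro j
    have := gs_period G P.Q P.N (P9_N P) V x j 1
    rw [one_mul, zpow_one] at this
    unfold axs
    rw [this, mul_smul]
  have hp' : ∀ j : ℤ, (QuotientGroup.mk (Ww P.Q P.N V x) : G ⧸ Ker F) •
      mkq (Ker F) (ap F P.D (axs P F V x c j)) =
        mkq (Ker F) (ap F P.D (axs P F V x c (j + P.N))) := by
    intro j
    rw [qsmul_mk]
    have : Ww P.Q P.N V x • ap F P.D (axs P F V x c j) =
        ap F P.D (Ww P.Q P.N V x • axs P F V x c j) := rfl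
    rw [this, hp]
  have key : (fun a => (QuotientGroup.mk (Ww P.Q P.N V x) : G ⧸ Ker F) • a) '' Ax2 P F V x c =
      Ax2 P F V x c := by
    ext a
    constructor
    · rintro ⟨_, ⟨j, rfl⟩, rfl⟩
      exact ⟨j + P.N, (hp' j).symm⟩
    · rintro ⟨j, rfl⟩
      refine ⟨_, ⟨j - P.N, rfl⟩, ?_⟩
      have := hp' (j - P.N)
      rw [sub_add_cancel] at this
      exact this
  exact Subtype.ext key

end Mon
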