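import Pool.Agent.Work.MP_6f5fa7_al.Mon.StTool

/-! Mon T1: basic four point lemmas. -/
set_option autoImplicit false

namespace Mon

theorem btw_split : S.btw_split := by
  intro X d δ hg hh x w y κ h z
  have h1 := hh w z x y
  have s1 := hg.symm w z
  have s2 := hg.symm w x
  have s3 := hg.symm z x
  unfold Btw at *
  rcases le_max_iff.1 (le_refl (max (d w x + d z y) (d w y + d z x))) with h2 | h2
  · right; omega
  · left; omega

theorem btw_close : S.btw_close := by
  intro X d δ hg hh x y w w' κ j h h' h1 h2
  have h3 := hh w w' x y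
  have s1 := hg.symm w x
  have s2 := hg.symm w' x
  unfold Btw at *
  rcases le_max_iff.1 (le_refl (max (d w x + d w' y) (d w y + d w' x))) with h4 | h4 <;> omega

theorem btw_quad : S.btw_quad := by
  intro X d δ hg hh x y x' y' w κ R h hx hy h1 h2
  have s1 := hg.symm w x'
  have s2 := hg.symm x x'
  rcases btw_split hg hh h y with h3 | h3
  · rcases btw_split hg hh h3 x with h4 | h4
    · unfold Btw at *
      omega
    · unfold Btw at *
      omega
  · unfold Btw at *
    omega

theorem btw_proj : S.btw_proj := by
  intro X d δ hg hh x y w κ h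
  obtain ⟨m, hm1, hm2⟩ := hg.geo x y (min (d x w) (d x y)) (min_le_right _ _)
  have e0 : Btw d x m y 0 := by
    unfold Btw
    omega
  refine ⟨m, e0, ?_⟩
  have e1 : Btw d x m y κ := by
    unfold Btw at *
    omega
  have e2 := btw_close (j := κ) hg hh h e1 (by unfold Btw at h; omega) (by omega)
  omega

theorem tri_centre : S.tri_centre := by
  intro X d δ hg hh x y z
  have t1 := hg.tri x y z
  have t2 := hg.tri x z y
  have t3 := hg.tri y x z
  have s1 := hg.symm y x
  have s2 := hg.symm z y
  have s3 := hg.symm z x
  obtain ⟨m, hm1, hm2⟩ := hg.geo x y ((d x y + d x z - d y z) / 2) (by omega)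
  have h1 := hh m z x y
  have s4 := hg.symm m x
  refine ⟨m, by unfold Btw; omega, by omega, by omega, ?_⟩
  rcases le_max_iff.1 (le_refl (max (d m x + d z y) (d m y + d z x))) with h4 | h4 <;> omega

theorem fellow : S.fellow := by
  intro X d δ hg hh c p q v w h1 h2 h3 h4
  have h5 := hh v q c p
  have s1 := hg.symm v c
  have s2 := hg.symm q p
  have s3 := hg.symm q c
  have e1 : Btw d c v q δ := by
    unfold Btw at *
    rcases le_max_iff.1 (le_refl (max (d v c + d q p) (d v p + d q c))) with h6 | h6 <;> omega
  have e2 : Btw d c w q δ := by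
    unfold Btw at *
    omega
  have e3 := btw_close (j := 0) hg hh e1 e2 (by omega) (by omega)
  omega

end Mon
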