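import Pool.Agent.Work.MP_6f5fa7_al.Mon.StTool

/-! Mon: item T3, displacement growth. -/
set_option autoImplicit false

namespace Mon

private lemma T3_pow_disp {X : Type} {d : X → X → ℕ} {G : Type} [Group G] [MulAction G X]
    (hg : Geo d) (hi : Isom G d) (k : G) (x : X) (j : ℕ) :
    d x (k ^ j • x) ≤ j * d x (k • x) := by
  induction j with
  | zero => simp [hg.self]
  | succ j ih =>
    have h1 := hg.tri x (k ^ j • x) (k ^ (j + 1) • x)
    have h2 : d (k ^ j • x) (k ^ (j + 1) • x) = d x (k • x) := by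
      rw [pow_succ, mul_smul, hi]
    rw [h2] at h1
    rw [Nat.succ_mul]
    omega

theorem disp_growth (hlox : S.lox_growth) : S.disp_growth := by
  intro X d δ G _ _ hg hi hh hδ g L h hL x i
  classical
  have hex : ∃ n, ∃ y : X, d y (g • y) = n := ⟨_, x, rfl⟩
  obtain ⟨x0, hx0⟩ := Nat.find_spec hex
  have hmin : ∀ y, d x0 (g • x0) ≤ d y (g • y) := fun y => by
    rw [hx0]; exact Nat.find_min' hex ⟨y, rfl⟩
  obtain ⟨l, hl⟩ : ∃ l, l = d x0 (g • x0) := ⟨_, rfl⟩
  have hLl : L ≤ l := hl ▸ h x0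
  obtain ⟨m, hm1, hm2⟩ := hg.geo x0 (g • x0) (l / 2) (by rw [← hl]; omega)
  have e1 : d (g • m) (g • x0) = d m x0 := hi g m x0
  have e2 : d (g • m) (g • (g • x0)) = d m (g • x0) := hi g m (g • x0)
  have e3 : d (g • x0) (g • (g • x0)) = d x0 (g • x0) := hi g x0 (g • x0)
  have h1 := hh m (g • m) x0 (g • x0)
  have h2 := hh m (g • m) (g • x0) (g • (g • x0))
  have h3 := hh x0 (g • m) m (g • (g • x0))
  have h4 := hmin m
  have h5 := hg.tri m (g • x0) (g • m)
  have s1 := hg.symm (g • m) x0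
  have s2 := hg.symm (g • m) m
  have s3 := hg.symm (g • x0) (g • m)
  have s4 := hg.symm m x0
  have ha2 : 2 * l ≤ d x0 (g • (g • x0)) + 3 * δ := by omega
  have hsq : g ^ 2 • x0 = g • (g • x0) := by rw [pow_two, mul_smul]
  rw [← hsq] at ha2
  have grow : ∀ j, j * (l - 4 * δ) ≤ d x0 (g ^ j • x0) := by
    intro j
    cases j with
    | zero => simp
    | succ j =>
      have h6 := hlox hg hi hh g x0 (by omega) j
      have hc : l - 4 * δ ≤ d x0 (g ^ 2 • x0) - d x0 (g • x0) - δ := by omega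
      have h7 := Nat.mul_le_mul_left j hc
      rw [Nat.succ_mul]
      omega
  by_contra hlt
  push Not at hlt
  obtain ⟨c, hc⟩ : ∃ c, c = d x0 x := ⟨_, rfl⟩
  have g1 := grow (i * (2 * c + 1))
  have g2 := hg.tri x0 x (g ^ (i * (2 * c + 1)) • x0)
  have g3 := hg.tri x (g ^ (i * (2 * c + 1)) • x) (g ^ (i * (2 * c + 1)) • x0)
  have g4 : d (g ^ (i * (2 * c + 1)) • x) (g ^ (i * (2 * c + 1)) • x0) = d x x0 := hi _ _ _
  have g5 := T3_pow_disp hg hi (g ^ i) x (2 * c + 1)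
  rw [← pow_mul] at g5
  have g6 := hg.symm x x0
  have g7 : (d x (g ^ i • x) + 1) * (2 * c + 1) ≤ i * (2 * c + 1) * (l - 4 * δ) := by
    have q1 : d x (g ^ i • x) + 1 ≤ i * (l - 4 * δ) :=
      le_trans hlt (Nat.mul_le_mul_left i (by omega))
    calc (d x (g ^ i • x) + 1) * (2 * c + 1) ≤ i * (l - 4 * δ) * (2 * c + 1) :=
          Nat.mul_le_mul_right _ q1
      _ = i * (2 * c + 1) * (l - 4 * δ) := by ring
  have g8 : (d x (g ^ i • x) + 1) * (2 * c + 1) =
      (2 * c + 1) * d x (g ^ i • x) + (2 * c + 1) := by ring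
  omega

end Mon
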