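import Pool.Agent.Work.MP_6f5fa7_al.Mon.StTool

/-! Mon, item T4 (helper91): quasi-centres. -/
set_option autoImplicit false

namespace Mon

private theorem T4_exists_min {X : Type} (r : X → ℕ) (x : X) : ∃ z, ∀ w, r z ≤ r w := by
  classical
  have h : ∃ k, ∃ z, r z = k := ⟨r x, x, rfl⟩
  obtain ⟨z, hz⟩ := Nat.find_spec h
  exact ⟨z, fun w => by rw [hz]; exact Nat.find_min' h ⟨w, rfl⟩⟩

theorem quasi_centre : S.quasi_centre := by
  intro X d δ G _ _ hg hi hh g x M L hM h
  -- the radius function
  let r : X → ℕ := fun w => (Finset.range M).sup fun j => d w (g ^ j • x)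
  have hr : ∀ (w : X) (j : ℕ), j < M → d w (g ^ j • x) ≤ r w := fun w j hj =>
    Finset.le_sup (f := fun j => d w (g ^ j • x)) (Finset.mem_range.2 hj)
  have hr' : ∀ (w : X) (B : ℕ), (∀ j, j < M → d w (g ^ j • x) ≤ B) → r w ≤ B := fun w B hB =>
    Finset.sup_le fun j hj => hB j (Finset.mem_range.1 hj)
  obtain ⟨z, hz⟩ := T4_exists_min r x
  refine ⟨z, fun i hiM => ?_⟩
  have key : ∀ j, j < M → d (g ^ i • z) (g ^ j • x) ≤ r z + L := by
    intro j hj
    by_cases hij : i ≤ j
    · obtain ⟨k, rfl⟩ := Nat.exists_eq_add_of_le hij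
      have e : g ^ (i + k) • x = g ^ i • g ^ k • x := by rw [pow_add, mul_smul]
      rw [e, hi]
      have := hr z k (by omega)
      omega
    · have hij' : j < i := not_le.1 hij
      obtain ⟨k, hk⟩ := Nat.exists_eq_add_of_le (show i ≤ M + j by omega)
      have e : g ^ (M + j) • x = g ^ i • g ^ k • x := by rw [hk, pow_add, mul_smul]
      have e2 : g ^ (M + j) • x = g ^ j • g ^ M • x := by rw [add_comm, pow_add, mul_smul]
      have h1 := hg.tri (g ^ i • z) (g ^ (M + j) • x) (g ^ j • x)
      have h2 : d (g ^ i • z) (g ^ (M + j) • x) ≤ r z := by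
        rw [e, hi]; exact hr z k (by omega)
      have h3 : d (g ^ (M + j) • x) (g ^ j • x) ≤ L := by
        rw [e2, hi, hg.symm]; exact h
      omega
  obtain ⟨m, hm1, hm2⟩ := hg.geo z (g ^ i • z) (d z (g ^ i • z) / 2) (Nat.div_le_self _ _)
  have hm : r z ≤ r z + L + δ - d z (g ^ i • z) / 2 := by
    refine le_trans (hz m) (hr' m _ fun j hj => ?_)
    have h4 := hh m (g ^ j • x) z (g ^ i • z)
    have h5 := key j hj
    have h6 := hr z j hj
    have h7 : d m z = d z (g ^ i • z) / 2 := by rw [hg.symm]; exact hm1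
    rw [h7, hm2, hg.symm (g ^ j • x) (g ^ i • z), hg.symm (g ^ j • x) z] at h4
    omega
  by_contra hcon
  push Not at hcon
  have h8 : L + δ + 1 ≤ d z (g ^ i • z) / 2 := by omega
  -- if the radius is zero, use the distance to `x` directly
  by_cases h0 : d z (g ^ i • z) / 2 ≤ r z + L + δ
  · omega
  · have h9 := hr z 0 (by omega)
    have h10 := key 0 (by omega)
    have h11 := hg.tri z (g ^ 0 • x) (g ^ i • z)
    rw [hg.symm (g ^ 0 • x) (g ^ i • z)] at h11
    omega

theorem quasi_centre_tors : S.quasi_centre_tors := by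
  intro X d δ G _ _ hg hi hh g x n hn h
  obtain ⟨z, hz⟩ := quasi_centre hg hi hh g x n 0 hn (by rw [h x])
  -- elements with displacement zero form a subgroup
  let T : Subgroup G :=
    { carrier := {a | ∀ y : X, d y (a • y) = 0}
      mul_mem' := by
        intro a b ha hb y
        have h1 := hg.tri y (b • y) (a • b • y)
        have h2 := hb y
        have h3 := ha (b • y)
        rw [mul_smul]
        omega
      one_mem' := by
        intro y
        rw [one_smul]
        exact hg.self y
      inv_mem' := by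
        intro a ha y
        have h1 := hi a y (a⁻¹ • y)
        rw [smul_inv_smul, hg.symm, ha y] at h1
        exact h1.symm }
  have hT : ∀ q : ℤ, ∀ y : X, d y ((g ^ n) ^ q • y) = 0 := fun q =>
    T.zpow_mem (show g ^ n ∈ T from h) q
  refine ⟨z, fun i => ?_⟩
  have hn' : (n : ℤ) ≠ 0 := by positivity
  have hr0 := Int.emod_nonneg i hn'
  have hr1 := Int.emod_lt_of_pos i (show (0 : ℤ) < n by exact_mod_cast hn)
  obtain ⟨k, hk⟩ := Int.eq_ofNat_of_zero_le hr0
  have hki : i = (k : ℤ) + (n : ℤ) * (i / (n : ℤ)) := by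
    rw [← hk]; exact (Int.emod_add_mul_ediv i n).symm
  have e : g ^ i = g ^ k * (g ^ n) ^ (i / (n : ℤ)) := by
    conv_lhs => rw [hki]
    rw [zpow_add, zpow_mul, zpow_natCast, zpow_natCast]
  have hkn : k ≤ n := by
    rw [hk] at hr1
    have : k < n := by exact_mod_cast hr1
    exact this.le
  have h1 := hz k hkn
  have h2 := hg.tri z (g ^ k • z) (g ^ i • z)
  have h3 : d (g ^ k • z) (g ^ i • z) = 0 := by
    rw [e, mul_smul, hi]; exact hT _ z
  omega

end Mon
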