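import Pool.Agent.Work.MP_6f5fa7_al.Mon.StTool

/-! Mon, item T5: middle points of geodesics (SHIFT argument). -/
set_option autoImplicit false

namespace Mon

section T5

variable {X : Type} {d : X → X → ℕ} {δ : ℕ} {G : Type} [Group G] [MulAction G X]

private theorem T5_inv (hg : Geo d) (hi : Isom G d) {g : G} {x : X} {R : ℕ} (h : Mv d g x R) :
    Mv d g⁻¹ x R := by
  have h1 := hi g x (g⁻¹ • x)
  rw [smul_inv_smul] at h1
  show d x (g⁻¹ • x) ≤ R
  rw [← h1, hg.symm]
  exact h

private theorem T5_dist (hg : Geo d) (hi : Isom G d) {g : G} {x w : X} {R : ℕ}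
    (h : Mv d g x R) : d x (g • w) ≤ d x w + R ∧ d x w ≤ d x (g • w) + R := by
  have h0 : d x (g • x) ≤ R := h
  have h1 := hi g x w
  have h2 := hg.tri x (g • x) (g • w)
  have h3 := hg.tri (g • x) x (g • w)
  have h4 := hg.symm x (g • x)
  omega

private theorem T5_step (hq : S.btw_quad) (hg : Geo d) (hi : Isom G d) (hh : Hyp δ d) {g : G}
    {x y w : X} {κ R : ℕ} (g1 : Mv d g x R) (g2 : Mv d g y R) (hw : Btw d x w y κ)
    (h1 : R + κ + 2 * δ < d x w) (h2 : R + κ + δ < d w y) :
    Btw d x (g • w) y (κ + 2 * δ) := by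
  have e1 := hi g x w
  have e2 := hi g w y
  have e3 := hi g x y
  refine hq hg hh (x' := g • x) (y' := g • y) (R := R) ?_ g1 g2 ?_ ?_
  · show d (g • x) (g • w) + d (g • w) (g • y) ≤ d (g • x) (g • y) + κ
    rw [e1, e2, e3]
    exact hw
  · rw [hg.symm, e1]; exact h1
  · rw [e2]; exact h2

private theorem T5_cmp (hc : S.btw_close) (hg : Geo d) (hi : Isom G d) (hh : Hyp δ d) {g : G}
    {x y w w' : X} {κ R : ℕ} (g1 : Mv d g x R) (hw : Btw d x w y κ) (hw' : Btw d x w' y κ)
    (m1 : 2 * R + κ + 2 * δ < 2 * d x w) (m2 : 2 * R + κ + 2 * δ < 2 * d x w') :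
    d x (g • w) + d x w' ≤ d x (g • w') + d x w + δ := by
  have h0 : d x (g • x) ≤ R := g1
  have e1 := hi g x w
  have e2 := hi g x w'
  have e3 := hi g w w'
  have h1 := hh x (g • w) (g • x) (g • w')
  have h2 := (T5_dist hg hi g1 (w := w)).2
  have h3 : d w w' ≤ (max (d x w) (d x w') - min (d x w) (d x w')) + κ + δ :=
    hc hg hh hw hw' (by omega) (by omega)
  have h4 := hg.symm (g • w) (g • x)
  omega

end T5

theorem middle_move' (hc : S.btw_close) (hq : S.btw_quad) : S.middle_move' := by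
  intro X d δ G _ _ hg hi hh g x y m R g1 g2 hm m1 m2
  have h1 := T5_step hq hg hi hh g1 g2 hm (by omega) (by omega)
  obtain ⟨h2, h3⟩ := T5_dist hg hi g1 (w := m)
  have hm' : d x m + d m y ≤ d x y + 0 := hm
  have h4 : d m (g • m) ≤ R + (0 + 2 * δ) + δ :=
    hc hg hh (x := x) (y := y) (by show d x m + d m y ≤ d x y + (0 + 2 * δ); omega) h1 h3 h2
  show d m (g • m) ≤ R + 3 * δ
  omega

theorem middle_move (hc : S.btw_close) (hq : S.btw_quad) : S.middle_move := by
  intro X d δ G _ _ hg hi hh g x y m R g1 g2 hm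
  have near : ∀ z : X, Mv d g z R → d m z ≤ R + 2 * δ → Mv d g m (3 * R + 6 * δ) := by
    intro z hz hmz
    have h0 : d z (g • z) ≤ R := hz
    have h1 := hg.tri m z (g • m)
    have h2 := hg.tri z (g • z) (g • m)
    have h3 := hi g z m
    have h4 := hg.symm z m
    show d m (g • m) ≤ 3 * R + 6 * δ
    omega
  rcases Nat.lt_or_ge (R + 2 * δ) (d x m) with h1 | h1
  · rcases Nat.lt_or_ge (R + 2 * δ) (d m y) with h2 | h2
    · have h3 : d m (g • m) ≤ R + 3 * δ := middle_move' hc hq hg hi hh g x y m R g1 g2 hm h1 h2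
      show d m (g • m) ≤ 3 * R + 6 * δ
      omega
    · exact near y g2 h2
  · exact near x g1 (by rw [hg.symm]; exact h1)

theorem comm_middle (hc : S.btw_close) (hq : S.btw_quad) : S.comm_middle := by
  intro X d δ G _ _ hg hi hh g h x y m R g1 g2 h1 h2 hm m1 m2
  have hm' : d x m + d m y ≤ d x y + 0 := hm
  by_cases hz : R = 0 ∧ δ = 0
  · -- degenerate case: everything is fixed
    obtain ⟨rfl, rfl⟩ := hz
    have fx : ∀ k : G, Mv d k x 0 → Mv d k y 0 → d m (k • m) = 0 := by
      intro k k1 k2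
      have h3 : d m (k • m) ≤ 3 * 0 + 6 * 0 := middle_move hc hq hg hi hh k x y m 0 k1 k2 hm
      omega
    have a1 := fx g g1 g2
    have a2 := fx h h1 h2
    have a3 := fx g⁻¹ (T5_inv hg hi g1) (T5_inv hg hi g2)
    have a4 := fx h⁻¹ (T5_inv hg hi h1) (T5_inv hg hi h2)
    have b1 := hg.tri m (g • m) (g • h • m)
    have b2 := hi g m (h • m)
    have b3 := hg.tri m (g • h • m) (g • h • g⁻¹ • m)
    have b4 := hi g (h • m) (h • g⁻¹ • m)
    have b5 := hi h m (g⁻¹ • m)
    have b6 := hg.tri m (g • h • g⁻¹ • m) (g • h • g⁻¹ • h⁻¹ • m)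
    have b7 := hi g (h • g⁻¹ • m) (h • g⁻¹ • h⁻¹ • m)
    have b8 := hi h (g⁻¹ • m) (g⁻¹ • h⁻¹ • m)
    have b9 := hi g⁻¹ m (h⁻¹ • m)
    show d m ((g * h * g⁻¹ * h⁻¹) • m) ≤ 20 * 0
    rw [mul_smul, mul_smul, mul_smul]
    omega
  · have hpos : 0 < R + δ := by omega
    have g1' := T5_inv hg hi g1
    have g2' := T5_inv hg hi g2
    have h1' := T5_inv hg hi h1
    have h2' := T5_inv hg hi h2
    have sy : ∀ {k : G} {w : X}, Mv d k y R → d (k • w) y ≤ d w y + R ∧ d w y ≤ d (k • w) y + R := by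
      intro k w hk
      have := T5_dist hg hi hk (w := w)
      rw [hg.symm (k • w) y, hg.symm w y]
      exact this
    -- first point
    have s1 := T5_step hq hg hi hh h1' h2' hm (by omega) (by omega)
    have f1 := T5_dist hg hi h1' (w := m)
    have y1 := sy (w := m) h2'
    generalize hp1 : h⁻¹ • m = p at s1 f1 y1
    have e1 : h • p = m := by rw [← hp1, smul_inv_smul]
    -- second point
    have s2 := T5_step hq hg hi hh g1' g2' s1 (by omega) (by omega)
    have f2 := T5_dist hg hi g1' (w := p)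
    have y2 := sy (w := p) g2'
    generalize hw1 : g⁻¹ • p = w at s2 f2 y2
    have e2 : g • w = p := by rw [← hw1, smul_inv_smul]
    -- third point
    have s3 := T5_step hq hg hi hh h1 h2 s2 (by omega) (by omega)
    have f3 := T5_dist hg hi h1 (w := w)
    have y3 := sy (w := w) h2
    generalize hv1 : h • w = v at s3 f3 y3
    -- fourth point
    have s4 := T5_step hq hg hi hh g1 g2 s3 (by omega) (by omega)
    have f4 := T5_dist hg hi g1 (w := v)
    have y4 := sy (w := v) g2
    have he : (g * h * g⁻¹ * h⁻¹) • m = g • v := by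
      rw [mul_smul, mul_smul, mul_smul, hp1, hw1, hv1]
    -- comparison of the shifts
    have bm : Btw d x m y (8 * δ) := by
      show d x m + d m y ≤ d x y + 8 * δ
      omega
    have bp : Btw d x p y (8 * δ) := by
      have : d x p + d p y ≤ d x y + (0 + 2 * δ) := s1
      show d x p + d p y ≤ d x y + 8 * δ
      omega
    have bw : Btw d x w y (8 * δ) := by
      have : d x w + d w y ≤ d x y + (0 + 2 * δ + 2 * δ) := s2
      show d x w + d w y ≤ d x y + 8 * δ
      omega
    have bv : Btw d x v y (8 * δ) := by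
      have : d x v + d v y ≤ d x y + (0 + 2 * δ + 2 * δ + 2 * δ) := s3
      show d x v + d v y ≤ d x y + 8 * δ
      omega
    have bu : Btw d x (g • v) y (8 * δ) := by
      have : d x (g • v) + d (g • v) y ≤ d x y + (0 + 2 * δ + 2 * δ + 2 * δ + 2 * δ) := s4
      show d x (g • v) + d (g • v) y ≤ d x y + 8 * δ
      omega
    have c1 := T5_cmp hc hg hi hh g1 bv bw (by omega) (by omega)
    have c2 := T5_cmp hc hg hi hh g1 bw bv (by omega) (by omega)
    have c3 := T5_cmp hc hg hi hh h1 bw bp (by omega) (by omega)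
    have c4 := T5_cmp hc hg hi hh h1 bp bw (by omega) (by omega)
    rw [e2] at c1 c2
    rw [e1, hv1] at c3 c4
    have fin : d m (g • v) ≤ 2 * δ + 8 * δ + δ :=
      hc hg hh bm bu (by omega) (by omega)
    show d m ((g * h * g⁻¹ * h⁻¹) • m) ≤ 20 * δ
    rw [he]
    omega

end Mon
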