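import Pool.Agent.Work.MP_6f5fa7_al.Mon.StTool

/-! Mon, item T6: the dichotomy for elements moving both ends of a long geodesic a little. -/
set_option autoImplicit false

namespace Mon

theorem dichotomy (q1 : S.btw_close) (q2 : S.btw_quad) (q3 : S.lox_growth) (q4 : S.lox_thick) :
    S.dichotomy := by
  intro X d δ G _ _ hg hi hh hδ g x y m R g1 g2 hm m1 m2
  have e2 : g ^ 2 • m = g • g • m := by rw [pow_two, mul_smul]
  unfold Mv at g1 g2
  unfold Btw at hm
  -- isometries
  have i1 : d (g • x) (g • m) = d x m := hi g x m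
  have i2 : d (g • m) (g • y) = d m y := hi g m y
  have i3 : d (g • x) (g • g • m) = d x (g • m) := hi g x (g • m)
  have i4 : d (g • g • m) (g • y) = d (g • m) y := hi g (g • m) y
  have i5 : d (g • m) (g • g • m) = d m (g • m) := hi g m (g • m)
  have i6 : d (g • x) (g • y) = d x y := hi g x y
  have s1 := hg.symm x (g • x)
  have s2 := hg.symm y (g • y)
  have s3 := hg.symm (g • m) (g • x)
  have s4 := hg.symm (g • g • m) (g • x)
  -- first shift
  have b1 : Btw d x (g • m) y (0 + 2 * δ) := by
    refine q2 hg hh (x' := g • x) (y' := g • y) (R := R) (κ := 0) ?_ ?_ ?_ ?_ ?_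
    · unfold Btw; omega
    · omega
    · omega
    · omega
    · omega
  have b1' := b1
  unfold Btw at b1'
  have u1 := hg.tri (g • x) x (g • m)
  have u2 := hg.tri (g • m) y (g • y)
  have u3 := hg.tri x (g • x) (g • m)
  have b2 : Btw d x (g • g • m) y (2 * δ + 2 * δ) := by
    refine q2 hg hh (x' := g • x) (y' := g • y) (R := R) (κ := 2 * δ) ?_ ?_ ?_ ?_ ?_
    · unfold Btw; omega
    · omega
    · omega
    · omega
    · omega
  -- closeness of `m` and `g m`
  have c1 : ∀ j : ℕ, d x m ≤ d x (g • m) + j → d x (g • m) ≤ d x m + j →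
      d m (g • m) ≤ j + (0 + 2 * δ) + δ := by
    intro j h1 h2
    refine q1 hg hh (x := x) (y := y) ?_ b1 h1 h2
    unfold Btw; omega
  have c2 := hh x (g • x) (g • m) (g • g • m)
  have c3 := hh x (g • m) (g • x) (g • g • m)
  have c4 := hh x (g • g • m) (g • x) (g • m)
  have s5 := hg.symm (g • m) (g • g • m)
  have s6 := hg.symm (g • m) (g • x)
  have v1 := hg.tri x m (g • g • m)
  have v2 := hg.tri x (g • g • m) m
  have s7 := hg.symm (g • g • m) m
  have cR := c1 R (by omega) (by omega)
  have key : d m (g • m) ≤ 25 * δ ∨ (2 * d m (g • m) ≤ d m (g • g • m) + 7 * δ ∧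
      25 * δ < d m (g • m)) := by
    rcases le_or_gt (d m (g • m)) (25 * δ) with h | h
    · exact Or.inl h
    · right
      refine ⟨?_, h⟩
      rcases le_total (d x m) (d x (g • m)) with hl | hl
      · have c5 := c1 (d x (g • m) - d x m) (by omega) (by omega)
        omega
      · have c5 := c1 (d x m - d x (g • m)) (by omega) (by omega)
        omega
  rcases key with h | ⟨h, h'⟩
  · exact Or.inl h
  · right
    rw [← e2] at h
    have t1 := q4 hg hi hh g m (7 * δ) h (by omega)
    have t2 : 7 * δ + 2 * δ = 9 * δ := by ring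
    rw [t2] at t1
    refine ⟨t1, ?_⟩
    intro i
    have t3 := q3 hg hi hh g m (by omega)
    rcases i with _ | i
    · exact Nat.zero_le _
    · have t4 := t3 i
      have t5 : 1 ≤ d m (g ^ 2 • m) - d m (g • m) - δ := by omega
      have t6 : i * 1 ≤ i * (d m (g ^ 2 • m) - d m (g • m) - δ) := Nat.mul_le_mul_left i t5
      omega

end Mon
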