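import Pool.Agent.Work.MP_6f5fa7_al.Mon.StTool

/-! Mon: item T7, `ax_near` and `broken`. -/
set_option autoImplicit false

namespace Mon

/-- discrete intermediate value -/
private lemma T7_ivt (a : ℕ → ℕ) (R F c : ℕ) (h0 : a 0 = 0) (hs : ∀ l, a (l + 1) ≤ a l + R)
    (N : ℕ) (hN : F ≤ a N + c) : ∃ l, l ≤ N ∧ a l ≤ F + R ∧ F ≤ a l + (R + c) := by
  by_cases h : ∃ l, l ≤ N ∧ F ≤ a l
  · have h' := Nat.find_spec h
    obtain ⟨h1, h2⟩ := h'
    refine ⟨Nat.find h, h1, ?_, by omega⟩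
    rcases Nat.eq_zero_or_pos (Nat.find h) with h3 | h3
    · rw [h3, h0]; omega
    · have h4 : ¬ (Nat.find h - 1 ≤ N ∧ F ≤ a (Nat.find h - 1)) := Nat.find_min h (by omega)
      have h5 := hs (Nat.find h - 1)
      have h6 : Nat.find h - 1 + 1 = Nat.find h := by omega
      rw [h6] at h5
      have h7 : ¬ F ≤ a (Nat.find h - 1) := fun h8 => h4 ⟨by omega, h8⟩
      omega
  · push Not at h
    have h1 := h N le_rfl
    exact ⟨N, le_rfl, by omega, by omega⟩

private lemma T7_d_zpow {G X : Type} [Group G] [MulAction G X] {d : X → X → ℕ}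
    (hi : Isom G d) (g : G) (x : X) (i j : ℤ) (k : ℕ) (hk : (k : ℤ) = j - i) :
    d (g ^ i • x) (g ^ j • x) = d x (g ^ k • x) := by
  have h : g ^ j • x = g ^ i • (g ^ k • x) := by
    rw [smul_smul, ← zpow_natCast g k, ← zpow_add, hk]
    congr 2
    ring
  rw [h, hi]

theorem ax_near (hc : S.btw_close) (hq : S.btw_quad) : S.ax_near := by
  intro X d δ G _ _ hg hi hh g x m κ κ' R hub h1 h2 h3
  obtain ⟨i, hlarge⟩ := hub (3 * d x m + κ + 2 * δ)
  -- the displacement of `m`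
  have hm1 : d x (g ^ i • x) ≤ 2 * d x m + d m (g ^ i • m) := by
    have e1 := hg.tri x m (g ^ i • x)
    have e2 := hg.tri m (g ^ i • m) (g ^ i • x)
    have e3 : d (g ^ i • m) (g ^ i • x) = d m x := hi _ _ _
    have e4 := hg.symm m x
    omega
  have eA : d (g ^ (-(i : ℤ)) • m) (g ^ (0 : ℤ) • m) = d m (g ^ i • m) :=
    T7_d_zpow hi g m _ _ i (by ring)
  have eB : d (g ^ (0 : ℤ) • m) (g ^ (i : ℤ) • m) = d m (g ^ i • m) :=
    T7_d_zpow hi g m _ _ i (by ring)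
  have eC : d (g ^ (-(i : ℤ)) • m) (g ^ (i : ℤ) • m) = d m (g ^ (i + i) • m) :=
    T7_d_zpow hi g m _ _ (i + i) (by push_cast; ring)
  rw [zpow_zero, one_smul] at eA eB
  have hbm : Btw d (g ^ (-(i : ℤ)) • m) m (g ^ (i : ℤ) • m) κ := by
    unfold Btw
    have := h1 i i
    omega
  have hx1 : d (g ^ (-(i : ℤ)) • x) (g ^ (-(i : ℤ)) • m) ≤ d x m := (hi _ _ _).le
  have hx2 : d (g ^ (i : ℤ) • x) (g ^ (i : ℤ) • m) ≤ d x m := (hi _ _ _).le
  have hbx : Btw d (g ^ (-(i : ℤ)) • x) m (g ^ (i : ℤ) • x) (κ + 2 * δ) := by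
    refine hq hg hh hbm hx1 hx2 ?_ ?_
    · have e := hg.symm m (g ^ (-(i : ℤ)) • m)
      omega
    · rw [eB]; omega
  -- the orbit points
  have hfa : ∀ l : ℕ, d (g ^ (-(i : ℤ)) • x) (g ^ (-(i : ℤ) + l) • x) = d x (g ^ l • x) := fun l =>
    T7_d_zpow hi g x _ _ l (by ring)
  have hends : d (g ^ (-(i : ℤ)) • x) (g ^ (i : ℤ) • x) = d x (g ^ (i + i) • x) :=
    T7_d_zpow hi g x _ _ (i + i) (by push_cast; ring)
  have hstep : ∀ l : ℕ, d x (g ^ (l + 1) • x) ≤ d x (g ^ l • x) + R := by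
    intro l
    have e1 := hg.tri x (g ^ l • x) (g ^ (l + 1) • x)
    have e2 : d (g ^ l • x) (g ^ (l + 1) • x) = d x (g • x) := by
      rw [pow_succ, mul_smul, hi]
    have e3 : d x (g • x) ≤ R := h3
    omega
  have hF : d (g ^ (-(i : ℤ)) • x) m ≤ d x (g ^ (i + i) • x) + (κ + 2 * δ) := by
    unfold Btw at hbx
    omega
  obtain ⟨l, hl1, hl2, hl3⟩ := T7_ivt (fun l => d x (g ^ l • x)) R
    (d (g ^ (-(i : ℤ)) • x) m) (κ + 2 * δ) (by simp [hg.self]) hstep (i + i) hF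
  refine ⟨-(i : ℤ) + l, ?_⟩
  have hrest : d (g ^ (-(i : ℤ) + l) • x) (g ^ (i : ℤ) • x) = d x (g ^ (i + i - l) • x) :=
    T7_d_zpow hi g x _ _ (i + i - l) (by push_cast [Nat.cast_sub hl1]; ring)
  have hbl : Btw d (g ^ (-(i : ℤ)) • x) (g ^ (-(i : ℤ) + l) • x) (g ^ (i : ℤ) • x)
      (κ + κ' + 2 * δ) := by
    unfold Btw
    rw [hfa, hrest, hends]
    have e1 := h2 l (i + i - l)
    have e2 : l + (i + i - l) = i + i := by omega
    rw [e2] at e1
    omega
  have hbx' : Btw d (g ^ (-(i : ℤ)) • x) m (g ^ (i : ℤ) • x) (κ + κ' + 2 * δ) := by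
    unfold Btw at hbx ⊢
    omega
  have := hc hg hh hbx' hbl (j := R + κ + 2 * δ) (by rw [hfa]; omega) (by rw [hfa]; omega)
  omega

theorem broken : S.broken := by
  intro X d δ G _ _ hg hh q B L h1 h2 hL m
  have key : ∀ m : ℕ, d (q 0) (q m) + d (q m) (q (m + 1)) ≤ d (q 0) (q (m + 1)) + B + δ := by
    intro m
    induction m with
    | zero => rw [hg.self]; omega
    | succ m ih =>
      have e1 := hh (q 0) (q (m + 1)) (q m) (q (m + 2))
      have e2 := h2 m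
      have e3 := h1 m
      have e4 := hg.symm (q (m + 1)) (q m)
      rcases le_total (d (q 0) (q m) + d (q (m + 1)) (q (m + 2)))
        (d (q 0) (q (m + 2)) + d (q (m + 1)) (q m)) with h | h
      · rw [max_eq_right h] at e1
        have e5 : m + 1 + 1 = m + 2 := rfl
        rw [e5]
        omega
      · rw [max_eq_left h] at e1
        exfalso
        omega
  induction m with
  | zero => exact Nat.zero_le _
  | succ m ih =>
    have e1 := key m
    have e2 := h1 m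
    omega

end Mon
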