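import Pool.Agent.Work.MP_6f5fa7_al.Mon.Defs3

/-! Mon: the first quotient is a stage; the interface for the induction. -/
set_option autoImplicit false

namespace Mon

/-- transfer to the orbit space -/
def S.good_q : Prop :=
  ∀ (G V : Type) [Group G] [MulAction G V] (e : V → V → ℕ) (K : Subgroup G)
    [hK : K.Normal] (hi : Isom G e) (n δ Λ A A0 M : ℕ) (h : Good G (qd K e) K n δ Λ A A0 M),
    Good1 (G ⧸ K) (dq K e) n δ Λ A A0 M

-- variable {G X : Type} [Group G] [MulAction G X] {d : X → X → ℕ} {P : Par}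

/-- the quotient by a type 1 family is a stage -/
def S.st_one : Prop :=
  ∀ {G X : Type} [Group G] [MulAction G X] {d : X → X → ℕ} {P : Par}  {F : Fam G X} {M : ℕ} (hG : P.St G d M) (hF : FamOK P d F P.TT1)
    (hsh : ∀ h : G, P.Short d h → ∃ c : F.C, h • c = c),
    P.St (G ⧸ Ker F) (dq (Ker F) (cd F P.D d P.s)) P.M1

/-- the quotient by a type 2 family is a stage -/
def S.st_two : Prop :=
  ∀ {G X : Type} [Group G] [MulAction G X] {d : X → X → ℕ} {P : Par}  {F : Fam G X} (hG : P.St G d P.M1) (hF : FamOK P d F P.TT2),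
    P.St (G ⧸ Ker F) (dq (Ker F) (cd F P.D d P.s)) P.M

/-- the two steps -/
def S.two_steps : Prop :=
  ∀ {G X : Type} [Group G] [MulAction G X] {d : X → X → ℕ} {P : Par}  (hG : P.St G d P.M) (hS : SProp P G),
    ∃ F : Fam G X, FamOK P d F P.TT1 ∧ (∀ h : G, P.Short d h → ∃ c : F.C, h • c = c) ∧
      ∃ F2 : Fam (G ⧸ Ker F) (Vq (Ker F) (Cone F P.D)),
        FamOK P (dq (Ker F) (cd F P.D d P.s)) F2 P.TT2 ∧
          SProp P ((G ⧸ Ker F) ⧸ Ker F2)

end Mon

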