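import Pool.Agent.Work.MP_6f5fa7_al.Mon.M14Iter
import Pool.Agent.Work.MP_6f5fa7_al.Mon.StEnd
import Pool.Agent.Work.MP_6f5fa7_al.Mon.StFam2
import Pool.Agent.Work.MP_6f5fa7_al.Mon.StDesc
import Pool.Agent.Work.MP_6f5fa7_al.Mon.StPiece
import Pool.Agent.Work.MP_6f5fa7_al.Mon.I_A1
import Pool.Agent.Work.MP_6f5fa7_al.Mon.I_A10
import Pool.Agent.Work.MP_6f5fa7_al.Mon.I_A11
import Pool.Agent.Work.MP_6f5fa7_al.Mon.I_A12
import Pool.Agent.Work.MP_6f5fa7_al.Mon.I_A13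
import Pool.Agent.Work.MP_6f5fa7_al.Mon.I_A14
import Pool.Agent.Work.MP_6f5fa7_al.Mon.I_A15
import Pool.Agent.Work.MP_6f5fa7_al.Mon.I_A16
import Pool.Agent.Work.MP_6f5fa7_al.Mon.I_A2
import Pool.Agent.Work.MP_6f5fa7_al.Mon.I_A3
import Pool.Agent.Work.MP_6f5fa7_al.Mon.I_A4
import Pool.Agent.Work.MP_6f5fa7_al.Mon.I_A5
import Pool.Agent.Work.MP_6f5fa7_al.Mon.I_A6
import Pool.Agent.Work.MP_6f5fa7_al.Mon.I_A7
import Pool.Agent.Work.MP_6f5fa7_al.Mon.I_A8
import Pool.Agent.Work.MP_6f5fa7_al.Mon.I_A9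
import Pool.Agent.Work.MP_6f5fa7_al.Mon.I_C1
import Pool.Agent.Work.MP_6f5fa7_al.Mon.I_C2
import Pool.Agent.Work.MP_6f5fa7_al.Mon.I_C3
import Pool.Agent.Work.MP_6f5fa7_al.Mon.I_C4
import Pool.Agent.Work.MP_6f5fa7_al.Mon.I_C5
import Pool.Agent.Work.MP_6f5fa7_al.Mon.I_C7
import Pool.Agent.Work.MP_6f5fa7_al.Mon.I_D1
import Pool.Agent.Work.MP_6f5fa7_al.Mon.I_D2
import Pool.Agent.Work.MP_6f5fa7_al.Mon.I_D3
import Pool.Agent.Work.MP_6f5fa7_al.Mon.I_D4
import Pool.Agent.Work.MP_6f5fa7_al.Mon.I_D5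
import Pool.Agent.Work.MP_6f5fa7_al.Mon.I_D6
import Pool.Agent.Work.MP_6f5fa7_al.Mon.I_D7
import Pool.Agent.Work.MP_6f5fa7_al.Mon.I_D8
import Pool.Agent.Work.MP_6f5fa7_al.Mon.I_E1
import Pool.Agent.Work.MP_6f5fa7_al.Mon.I_F1
import Pool.Agent.Work.MP_6f5fa7_al.Mon.I_F2
import Pool.Agent.Work.MP_6f5fa7_al.Mon.I_F3
import Pool.Agent.Work.MP_6f5fa7_al.Mon.I_H1
import Pool.Agent.Work.MP_6f5fa7_al.Mon.I_H2
import Pool.Agent.Work.MP_6f5fa7_al.Mon.I_H3
import Pool.Agent.Work.MP_6f5fa7_al.Mon.I_H4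
import Pool.Agent.Work.MP_6f5fa7_al.Mon.I_H5
import Pool.Agent.Work.MP_6f5fa7_al.Mon.I_H6
import Pool.Agent.Work.MP_6f5fa7_al.Mon.I_K1
import Pool.Agent.Work.MP_6f5fa7_al.Mon.I_K2
import Pool.Agent.Work.MP_6f5fa7_al.Mon.I_K3
import Pool.Agent.Work.MP_6f5fa7_al.Mon.I_K4
import Pool.Agent.Work.MP_6f5fa7_al.Mon.I_K5
import Pool.Agent.Work.MP_6f5fa7_al.Mon.I_K6
import Pool.Agent.Work.MP_6f5fa7_al.Mon.I_K7
import Pool.Agent.Work.MP_6f5fa7_al.Mon.I_P1
import Pool.Agent.Work.MP_6f5fa7_al.Mon.I_P10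
import Pool.Agent.Work.MP_6f5fa7_al.Mon.I_P11
import Pool.Agent.Work.MP_6f5fa7_al.Mon.I_P2
import Pool.Agent.Work.MP_6f5fa7_al.Mon.I_P3
import Pool.Agent.Work.MP_6f5fa7_al.Mon.I_P4
import Pool.Agent.Work.MP_6f5fa7_al.Mon.I_P5
import Pool.Agent.Work.MP_6f5fa7_al.Mon.I_P6
import Pool.Agent.Work.MP_6f5fa7_al.Mon.I_P7
import Pool.Agent.Work.MP_6f5fa7_al.Mon.I_P8
import Pool.Agent.Work.MP_6f5fa7_al.Mon.I_P9
import Pool.Agent.Work.MP_6f5fa7_al.Mon.I_T1
import Pool.Agent.Work.MP_6f5fa7_al.Mon.I_T2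
import Pool.Agent.Work.MP_6f5fa7_al.Mon.I_T3
import Pool.Agent.Work.MP_6f5fa7_al.Mon.I_T4
import Pool.Agent.Work.MP_6f5fa7_al.Mon.I_T5
import Pool.Agent.Work.MP_6f5fa7_al.Mon.I_T6
import Pool.Agent.Work.MP_6f5fa7_al.Mon.I_T7
import Pool.Agent.Work.MP_6f5fa7_al.Mon.C6b

/-! Mon: the assembly of all items (helper71; generated by a topological sort of the items). -/
set_option autoImplicit false

namespace Mon

/-- THE BLACK BOX -/
theorem bb_holds : BB := by
  have h_btw_split : S.btw_split := @Mon.btw_split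
  have h_btw_proj : S.btw_proj := @Mon.btw_proj
  have h_pr_btw : S.pr_btw := @Mon.pr_btw
  have h_pr_min : S.pr_min := @Mon.pr_min
  have h_rdist_geo : S.rdist_geo := @Mon.rdist_geo
  have h_cone_geo : S.cone_geo := @Mon.cone_geo h_rdist_geo
  have h_cd_vt_vt : S.cd_vt_vt := @Mon.cd_vt_vt h_cone_geo
  have h_cd_hor : S.cd_hor := @Mon.cd_hor
  have h_cd_bs : S.cd_bs := @Mon.cd_bs h_cone_geo
  have h_LL_conn : S.LL_conn := @Mon.LL_conn h_btw_split h_btw_proj h_pr_btw h_pr_min h_cone_geo h_cd_vt_vt h_cd_hor h_cd_bs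
  have h_pr_self : S.pr_self := @Mon.pr_self
  have h_pr_lip : S.pr_lip := @Mon.pr_lip
  have h_pr_btw2 : S.pr_btw2 := @Mon.pr_btw2
  have h_pr_other : S.pr_other := @Mon.pr_other h_btw_proj h_pr_btw2
  have h_lev_bs : S.lev_bs := @Mon.lev_bs
  have h_lev_vt : S.lev_vt := @Mon.lev_vt
  have h_lev_vt_ne : S.lev_vt_ne := @Mon.lev_vt_ne
  have h_LL_short : S.LL_short := @Mon.LL_short h_cone_geo h_pr_self h_pr_lip h_pr_other h_cd_bs h_cd_vt_vt h_btw_proj h_lev_bs h_lev_vt h_lev_vt_ne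
  have h_btw_quad : S.btw_quad := @Mon.btw_quad
  have h_pr_mid : S.pr_mid := @Mon.pr_mid
  have h_LL_slim : S.LL_slim := @Mon.LL_slim h_btw_split h_btw_proj h_btw_quad h_cone_geo h_cd_bs h_cd_vt_vt h_cd_hor h_pr_mid h_pr_btw h_pr_btw2 h_pr_self
  have h_LL_near : S.LL_near := @Mon.LL_near h_cone_geo h_LL_conn h_LL_short h_LL_slim
  have h_cone_isom : S.cone_isom := @Mon.cone_isom
  have h_ker_normal : S.ker_normal := @Mon.ker_normal
  have h_qd_isom : S.qd_isom := @Mon.qd_isom h_cone_isom h_ker_normal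
  have h_smul_vt : S.smul_vt := @Mon.smul_vt
  have h_smul_ap : S.smul_ap := @Mon.smul_ap
  have h_exitQ_smul : S.exitQ_smul := @Mon.exitQ_smul h_qd_isom h_smul_vt h_smul_ap
  have h_angQ_smul : S.angQ_smul := @Mon.angQ_smul h_exitQ_smul
  have h_cone_hyp : S.cone_hyp := @Mon.cone_hyp h_cone_geo h_LL_conn h_LL_short h_LL_slim
  have h_rdist_lip : S.rdist_lip := @Mon.rdist_lip
  have h_lev_lip : S.lev_lip := @Mon.lev_lip h_rdist_lip
  have h_ap_ap : S.ap_ap := @Mon.ap_ap h_lev_lip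
  have h_nbr_ap : S.nbr_ap := @Mon.nbr_ap
  have h_lev_ap : S.lev_ap := @Mon.lev_ap
  have h_eq_vt_of_lev : S.eq_vt_of_lev := @Mon.eq_vt_of_lev
  have h_exit_ne : S.exit_ne := @Mon.exit_ne h_cone_geo h_nbr_ap h_lev_lip h_lev_ap h_eq_vt_of_lev
  have h_cd_vt_ap : S.cd_vt_ap := @Mon.cd_vt_ap h_cone_geo h_lev_lip
  have h_stay : S.stay := @Mon.stay
  have h_btw_close : S.btw_close := @Mon.btw_close
  have h_exit_small : S.exit_small := @Mon.exit_small h_cone_geo h_cd_vt_ap h_lev_lip h_lev_vt h_eq_vt_of_lev h_stay h_cone_hyp h_btw_close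
  have h_exit_smul : S.exit_smul := @Mon.exit_smul h_cone_isom h_smul_ap h_smul_vt
  have h_exit_thru : S.exit_thru := @Mon.exit_thru h_cone_geo h_cd_vt_ap h_ap_ap
  have h_stay_path : S.stay_path := @Mon.stay_path
  have h_fellow : S.fellow := @Mon.fellow
  have h_ang_thru : S.ang_thru := @Mon.ang_thru h_cone_geo h_lev_lip h_lev_vt h_lev_ap h_cd_vt_ap h_eq_vt_of_lev h_stay h_stay_path h_btw_split h_btw_close h_fellow h_cone_hyp
  have h_windmill : S.windmill := @Mon.windmill h_btw_split h_btw_proj h_cone_geo h_cone_isom h_cone_hyp h_ap_ap h_smul_ap h_exit_ne h_exit_small h_exit_smul h_exit_thru h_ang_thru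
  have h_ang_tri : S.ang_tri := @Mon.ang_tri h_cone_geo h_nbr_ap h_lev_lip h_lev_ap h_eq_vt_of_lev
  have h_poly_lift : S.poly_lift := @Mon.poly_lift h_windmill h_ang_tri h_ang_thru h_cone_geo h_cone_isom
  have h_qd_att : S.qd_att := @Mon.qd_att
  have h_qd_le : S.qd_le := @Mon.qd_le
  have h_ker_stab : S.ker_stab := @Mon.ker_stab h_cone_geo h_cone_isom h_cd_vt_ap h_ap_ap h_ang_thru h_windmill
  have h_qd_geo : S.qd_geo := @Mon.qd_geo h_cone_geo h_cone_isom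
  have h_qd_zero : S.qd_zero := @Mon.qd_zero h_cone_geo
  have h_angQ_thru : S.angQ_thru := @Mon.angQ_thru h_poly_lift h_qd_att h_cone_isom h_cone_geo h_cd_vt_ap h_ap_ap h_qd_le h_smul_vt h_smul_ap h_ker_stab h_qd_geo h_qd_zero h_ang_thru
  have h_exitQ_ne : S.exitQ_ne := @Mon.exitQ_ne h_exit_ne h_qd_att h_cone_isom h_cd_vt_ap h_qd_le h_smul_vt h_smul_ap h_qd_geo
  have h_angQ_tri : S.angQ_tri := @Mon.angQ_tri h_exitQ_ne
  have h_qd_ap : S.qd_ap := @Mon.qd_ap h_smul_ap h_ap_ap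
  have h_exitQ_thru : S.exitQ_thru := @Mon.exitQ_thru h_cd_vt_ap h_qd_le h_qd_geo h_qd_ap
  have h_exitQ_small : S.exitQ_small := @Mon.exitQ_small h_poly_lift h_qd_att h_cone_isom h_cone_geo h_cd_vt_ap h_ap_ap h_qd_le h_smul_vt h_smul_ap h_ker_stab h_qd_geo h_qd_zero h_exit_small
  have h_canoeQ : S.canoeQ := @Mon.canoeQ h_angQ_thru h_exitQ_thru h_exitQ_small h_exitQ_ne h_qd_ap h_qd_zero
  have h_axs_next : S.axs_next := @Mon.axs_next
  have h_axs_prev : S.axs_prev := @Mon.axs_prev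
  have h_rel_exits : S.rel_exits := @Mon.rel_exits h_qd_ap h_qd_le h_cone_geo h_cone_isom h_qd_isom h_angQ_thru
  have h_rel_V : S.rel_V := @Mon.rel_V
  have h_rel_turn : S.rel_turn := @Mon.rel_turn h_axs_next h_axs_prev h_angQ_smul h_exitQ_ne h_exitQ_smul h_rel_exits h_rel_V
  have h_rel_len : S.rel_len := @Mon.rel_len h_qd_ap h_qd_le h_cone_geo h_cone_isom
  have h_rel_step : S.rel_step := @Mon.rel_step h_axs_next h_qd_isom
  have h_rel_ne : S.rel_ne := @Mon.rel_ne h_rel_len h_rel_step h_qd_zero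
  have h_ax_ang : S.ax_ang := @Mon.ax_ang h_canoeQ h_rel_turn h_rel_ne
  have h_ax_dist : S.ax_dist := @Mon.ax_dist h_ax_ang h_angQ_thru h_rel_step
  have h_ax_near : S.ax_near := @Mon.ax_near h_btw_close h_btw_quad
  have h_ax_seg : S.ax_seg := @Mon.ax_seg h_ax_ang h_angQ_thru
  have h_exitQ_ker : S.exitQ_ker := @Mon.exitQ_ker h_qd_geo h_qd_zero
  have h_turn_cmp : S.turn_cmp := @Mon.turn_cmp h_exitQ_small h_exitQ_smul h_exitQ_ker h_exitQ_ne h_rel_exits h_rel_V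
  have h_turn_cmp_rev : S.turn_cmp_rev := @Mon.turn_cmp_rev h_exitQ_small h_exitQ_smul h_exitQ_ker h_exitQ_ne h_rel_exits h_rel_V
  have h_turn_eq : S.turn_eq := @Mon.turn_eq h_rel_V
  have h_turn_eq_rev : S.turn_eq_rev := @Mon.turn_eq_rev h_rel_V
  have h_poly_lift' : S.poly_lift' := @Mon.poly_lift' h_windmill h_ang_tri h_ang_thru h_cone_geo h_cone_isom h_cd_vt_ap h_ap_ap
  have h_slim_hyp : S.slim_hyp := @Mon.slim_hyp
  have h_qd_hyp : S.qd_hyp := @Mon.qd_hyp h_poly_lift' h_qd_att h_cone_isom h_cone_geo h_cone_hyp h_qd_le h_qd_geo h_qd_zero h_btw_split h_btw_proj h_slim_hyp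
  have h_middle_move : S.middle_move := @Mon.middle_move h_btw_close h_btw_quad
  have h_near_unique : S.near_unique := @Mon.near_unique h_cone_geo h_cone_isom h_lev_lip h_lev_ap h_eq_vt_of_lev h_ap_ap h_ang_tri h_ang_thru h_windmill
  have h_cone_fix : S.cone_fix := @Mon.cone_fix
  have h_to_base : S.to_base := @Mon.to_base
  have h_smul_bs : S.smul_bs := @Mon.smul_bs
  have h_bs_dist : S.bs_dist := @Mon.bs_dist
  have h_rot : S.rot := @Mon.rot h_qd_geo h_qd_isom h_qd_hyp h_middle_move h_qd_ap h_qd_att h_qd_zero h_near_unique h_cone_geo h_cone_isom h_cone_hyp h_fellow h_cone_fix h_eq_vt_of_lev h_cd_vt_ap h_to_base h_smul_bs h_smul_ap h_bs_dist h_cd_bs h_ker_normal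
  have h_fix_two : S.fix_two := @Mon.fix_two h_rot h_qd_ap
  have h_gs_succ : S.gs_succ := @Mon.gs_succ
  have h_piece_core : S.piece_core := @Mon.piece_core h_turn_cmp h_turn_cmp_rev h_turn_eq h_turn_eq_rev h_fix_two h_gs_succ h_axs_next h_axs_prev
  have h_gs_period : S.gs_period := @Mon.gs_period
  have h_gs_zero : S.gs_zero := @Mon.gs_zero
  have h_ax_stab : S.ax_stab := @Mon.ax_stab h_piece_core h_ax_dist h_fix_two h_gs_period h_gs_zero h_rel_len h_cone_isom h_qd_geo h_qd_isom h_qd_zero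
  have h_lox_growth : S.lox_growth := @Mon.lox_growth
  have h_lox_thick : S.lox_thick := @Mon.lox_thick
  have h_dichotomy : S.dichotomy := @Mon.dichotomy h_btw_close h_btw_quad h_lox_growth h_lox_thick
  have h_disp_growth : S.disp_growth := @Mon.disp_growth h_lox_growth
  have h_t2_unbdd : S.t2_unbdd := @Mon.t2_unbdd h_disp_growth
  have h_axis_near : S.axis_near := @Mon.axis_near h_dichotomy h_t2_unbdd
  have h_broken : S.broken := @Mon.broken
  have h_canoe_len : S.canoe_len := @Mon.canoe_len h_angQ_thru h_exitQ_thru h_exitQ_small h_exitQ_ne h_qd_ap h_qd_zero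
  have h_comm_middle : S.comm_middle := @Mon.comm_middle h_btw_close h_btw_quad
  have h_cone_thick : S.cone_thick := @Mon.cone_thick h_cone_geo h_btw_proj h_lev_bs h_cd_bs h_pr_mid h_LL_near
  have h_tors_of_bdd : S.tors_of_bdd := @Mon.tors_of_bdd h_disp_growth
  have h_cyc_abelian : S.cyc_abelian := @Mon.cyc_abelian h_btw_quad h_btw_proj h_btw_close h_ax_near h_t2_unbdd h_tors_of_bdd h_comm_middle
  have h_middle_move' : S.middle_move' := @Mon.middle_move' h_btw_close h_btw_quad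
  have h_inf_of_far : S.inf_of_far := @Mon.inf_of_far h_dichotomy
  have h_cyc_tf : S.cyc_tf := @Mon.cyc_tf h_inf_of_far h_t2_unbdd
  have h_cyc_cent : S.cyc_cent := @Mon.cyc_cent h_btw_quad h_btw_proj h_middle_move' h_ax_near h_t2_unbdd h_tors_of_bdd h_axis_near h_cyc_tf
  have h_quasi_centre_tors : S.quasi_centre_tors := @Mon.quasi_centre_tors
  have h_cyc_norm : S.cyc_norm := @Mon.cyc_norm_b h_ax_near h_quasi_centre_tors h_t2_unbdd h_tors_of_bdd h_cyc_tf h_cyc_cent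
  have h_pow_coprime : S.pow_coprime := @Mon.pow_coprime
  have h_size_small : S.size_small := @Mon.size_small h_pow_coprime
  have h_desc_fix : S.desc_fix := @Mon.desc_fix h_fix_two h_pow_coprime h_canoe_len h_size_small h_angQ_thru h_angQ_tri h_angQ_smul h_exitQ_ne h_exitQ_smul h_qd_isom h_qd_geo h_qd_zero h_qd_ap
  have h_fixB_of_close : S.fixB_of_close := @Mon.fixB_of_close h_smul_ap h_ap_ap
  have h_narrow_lift : S.narrow_lift := @Mon.narrow_lift h_cone_geo h_cone_isom h_smul_ap h_ang_tri h_ang_thru h_windmill h_qd_att h_qd_le h_qd_geo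
  have h_ker_far : S.ker_far := @Mon.ker_far h_windmill h_ang_thru h_cone_geo h_cone_isom
  have h_tor_lift : S.tor_lift := @Mon.tor_lift h_quasi_centre_tors h_middle_move h_cone_geo h_cone_isom h_smul_ap h_ker_normal h_ker_far h_near_unique h_qd_att h_qd_le h_qd_geo h_qd_isom h_qd_zero h_qd_hyp h_fixB_of_close h_narrow_lift h_rot
  have h_old_small : S.old_small := @Mon.old_small h_qd_geo h_qd_isom h_qd_hyp h_middle_move h_fixB_of_close h_qd_att h_qd_le h_qd_zero h_ker_normal h_narrow_lift h_cone_fix h_to_base h_bs_dist h_tor_lift h_inf_of_far h_cd_bs h_cone_geo h_cone_isom h_smul_bs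
  have h_old_turn : S.old_turn := @Mon.old_turn h_old_small h_fellow h_btw_close h_qd_geo h_qd_isom h_qd_hyp
  have h_pow_fix : S.pow_fix := @Mon.pow_fix
  have h_old_close : S.old_close := @Mon.old_close @h_broken h_qd_geo h_qd_isom h_qd_hyp h_qd_zero h_old_turn h_pow_coprime h_pow_fix
  have h_loc_iso : S.loc_iso := @Mon.loc_iso h_windmill h_ang_thru h_ang_tri h_cone_geo h_cone_isom
  have h_desc_old : S.desc_old := @Mon.desc_old h_quasi_centre_tors h_qd_geo h_qd_isom h_qd_hyp h_qd_zero h_fixB_of_close h_old_close h_qd_att h_qd_le h_loc_iso h_tor_lift h_exit_ne h_exit_smul h_ang_thru h_cone_geo h_cone_isom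
  have h_desc1 : S.desc1 := @Mon.desc1 h_desc_fix h_desc_old
  have h_desc2 : S.desc2 := @Mon.desc2 h_desc_old
  have h_fam2_qc : S.fam2_qc := @Mon.fam2_qc h_qd_geo h_qd_hyp h_ax_seg h_rel_len h_rel_step h_btw_quad h_btw_proj
  have h_fam2_Y : S.fam2_Y := @Mon.fam2_Y h_qd_geo h_ax_seg
  have h_piece_window : S.piece_window := @Mon.piece_window h_ax_ang h_ax_dist h_ax_seg h_rel_len h_angQ_tri h_angQ_thru h_qd_ap h_qd_geo h_qd_zero
  have h_fam2_ok : S.fam2_ok := @Mon.fam2_ok h_fam2_qc h_fam2_Y h_piece_window h_piece_core h_ax_stab h_ax_dist h_rel_len h_rel_step h_gs_period h_qd_geo h_qd_isom h_qd_zero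
  have h_rel_mem : S.rel_mem := @Mon.rel_mem h_gs_period
  have h_desc_two : S.desc_two := @Mon.desc_two h_desc1 h_desc2 h_fam2_ok h_rel_mem
  have h_near_LL : S.near_LL := @Mon.near_LL h_cone_geo h_LL_conn h_LL_short h_LL_slim
  have h_exit_proj : S.exit_proj := @Mon.exit_proj h_cone_geo h_lev_lip h_lev_bs h_lev_vt h_lev_vt_ne h_lev_ap h_cd_vt_ap h_stay h_near_LL
  have h_fam_stab : S.fam_stab := @Mon.fam_stab h_cyc_norm
  have h_fam_R : S.fam_R := @Mon.fam_R h_cyc_abelian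
  have h_fam_near : S.fam_near := @Mon.fam_near h_btw_proj h_dichotomy h_ax_near h_cyc_tf h_t2_unbdd
  have h_fam_disp : S.fam_disp := @Mon.fam_disp h_fam_near
  have h_fam_qc : S.fam_qc := @Mon.fam_qc h_fam_near h_btw_quad h_btw_close
  have h_far_comm : S.far_comm := @Mon.far_comm h_comm_middle h_btw_quad h_btw_proj h_cyc_norm h_cyc_abelian
  have h_fam_ov : S.fam_ov := @Mon.fam_ov h_fam_near h_far_comm h_cyc_cent
  have h_fam_inter : S.fam_inter := @Mon.fam_inter h_cyc_abelian h_cyc_cent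
  have h_near_Y : S.near_Y := @Mon.near_Y h_cyc_tf h_t2_unbdd h_dichotomy h_btw_proj h_ax_near
  have h_t2_growth' : S.t2_growth' := @Mon.t2_growth' h_disp_growth
  have h_fam1 : S.fam1 := @Mon.fam1 h_fam_stab h_fam_R h_fam_disp h_fam_qc h_fam_ov h_fam_inter h_near_Y h_cyc_tf h_t2_growth' h_cyc_abelian
  have h_guess : S.guess := @Mon.guess h_slim_hyp
  have h_ker_big : S.ker_big := @Mon.ker_big h_windmill h_exit_proj h_pr_lip
  have h_quasi_centre : S.quasi_centre := @Mon.quasi_centre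
  have h_qT2a : S.qT2a := @Mon.qT2a h_qd_geo h_qd_isom h_qd_hyp h_qd_att h_qd_le h_qd_zero h_quasi_centre h_fixB_of_close h_ker_normal h_ker_far h_cone_fix h_to_base h_bs_dist h_cone_geo h_cone_isom h_smul_bs h_smul_ap h_disp_growth
  have h_qT2b : S.qT2b := @Mon.qT2b h_qd_geo h_qd_isom h_qd_hyp h_qd_att h_qd_le h_qd_zero h_quasi_centre h_fixB_of_close h_ker_normal h_ker_far h_cone_fix h_to_base h_bs_dist h_cone_geo h_cone_isom h_smul_bs h_smul_ap h_disp_growth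
  have h_qT3a : S.qT3a := @Mon.qT3a h_rot h_old_small h_qd_geo
  have h_small_turns : S.small_turns := @Mon.small_turns h_windmill h_ang_thru h_ang_tri h_cone_geo h_cone_isom
  have h_qT3b : S.qT3b := @Mon.qT3b h_btw_close h_btw_quad h_btw_proj h_axis_near h_cone_geo h_cone_isom h_smul_bs h_cd_bs h_bs_dist h_cone_fix h_to_base h_pr_btw2 h_exit_proj h_cone_thick h_ker_normal h_small_turns h_qd_att h_qd_le h_qd_geo h_qd_isom
  have h_qT3c : S.qT3c := @Mon.qT3c h_rot h_qd_geo h_qd_isom h_qd_hyp h_qd_zero h_qd_att h_fixB_of_close h_ker_normal h_middle_move h_narrow_lift h_cone_geo h_cone_isom h_smul_bs h_cone_fix h_to_base h_bs_dist h_cd_bs h_far_comm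
  have h_st_one : S.st_one := @Mon.st_one h_qT2a h_qT3a h_qT3b h_qT3c h_qd_geo h_qd_isom h_qd_hyp h_cone_isom
  have h_two_steps : S.two_steps := @Mon.two_steps h_st_one h_fam1 h_fam2_ok h_desc_two h_cone_isom
  have s1 : TwoSteps := fun _ _ _ _ _ _ hG hS => h_two_steps hG hS
  exact bb_of_steps s1 h_guess h_comm_middle h_ker_big h_cone_isom h_cd_bs h_smul_bs h_qd_le h_qd_geo h_qd_isom h_qd_hyp h_qT2a h_qT2b h_qT3a h_qT3b h_qT3c

end Mon
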