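import Mathlib

/-! Mon: the black box (final statement of the construction). -/
set_option autoImplicit false

namespace Mon

/-- `U(x,y) = x^Q (y x y⁻¹)^(Q²) x^(Q³) (y x y⁻¹)^(Q⁴)` -/
def Uw {T : Type} [Group T] (Q : ℕ) (x y : T) : T :=
  x ^ Q * (y * x * y⁻¹) ^ (Q ^ 2) * x ^ (Q ^ 3) * (y * x * y⁻¹) ^ (Q ^ 4)

/-- `W(V,x) = ∏_{j=1..N} V^(Q^j) x` -/
def Ww {T : Type} [Group T] (Q N : ℕ) (V x : T) : T :=
  ((List.range N).map (fun j => V ^ (Q ^ (j + 1)) * x)).prod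

/-- `E(x,y) = ∏_{j=1..N} U(x,y)^(Q^j) x` -/
def Ew {T : Type} [Group T] (Q N : ℕ) (x y : T) : T := Ww Q N (Uw Q x y) x

/-- the exponent of `E(x,y)` as a power of `x`, when `x` and `y` commute -/
def sig (Q N : ℕ) : ℕ := N + (Q + Q ^ 2 + Q ^ 3 + Q ^ 4) * ((List.range N).map (fun j => Q ^ (j + 1))).sum

/-- THE BLACK BOX -/
def BB : Prop :=
  ∃ (p Q N : ℕ) (T : Type) (_ : Group T), p.Prime ∧ 1 ≤ N ∧ 2 ≤ Q ∧ sig Q N < p ∧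
    (∀ x : T, x ^ p = 1) ∧ (∃ a b : T, Subgroup.closure {a, b} = ⊤ ∧ a * b ≠ b * a) ∧
    ∀ x y : T, x * y ≠ y * x → Ew Q N x y = 1

end Mon
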