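import Pool.Agent.Work.MP_6f5fa7_al.Mon.Defs

/-! Mon: chain distances, families, the cone-off. -/
set_option autoImplicit false

namespace Mon

/-- `n` steps of the relation `r` -/
def Chain {V : Type} (r : V → V → Prop) : ℕ → V → V → Prop
  | 0, v, w => v = w
  | n + 1, v, w => ∃ u, r v u ∧ Chain r n u w

open Classical in
/-- least number of steps (0 if there is none) -/
noncomputable def rdist {V : Type} (r : V → V → Prop) (v w : V) : ℕ := sInf {n | Chain r n v w}

/-- A `G`-invariant family of subsets `Y c` with subgroups `R c` fixing `c`. -/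
structure Fam (G X : Type) [Group G] [MulAction G X] where
  C : Type
  [act : MulAction G C]
  Y : C → Set X
  R : C → Subgroup G
  Y_smul : ∀ (g : G) (c : C) (x : X), x ∈ Y c → g • x ∈ Y (g • c)
  R_smul : ∀ (g : G) (c : C) (r : G), r ∈ R c → g * r * g⁻¹ ∈ R (g • c)
  R_fix : ∀ (c : C) (r : G), r ∈ R c → r • c = c
  Y_ne : ∀ c, (Y c).Nonempty

attribute [instance] Fam.act

/-- The hypotheses on the family in a step; `T` is the displacement of the elements of `R c`. -/
structure FamOK (P : Par) {G X : Type} [Group G] [MulAction G X] (d : X → X → ℕ) (F : Fam G X)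
    (T : ℕ) : Prop where
  qc : ∀ (c : F.C) (a b z : X), a ∈ F.Y c → b ∈ F.Y c → Btw d a z b 0 → ∃ y ∈ F.Y c, d z y ≤ P.A
  ov : ∀ (c c' : F.C) (a b a' b' : X), c ≠ c' → a ∈ F.Y c → b ∈ F.Y c → a' ∈ F.Y c' →
    b' ∈ F.Y c' → d a a' ≤ 100 * P.A → d b b' ≤ 100 * P.A → 50 * d a b ≤ P.s
  big : ∀ (c : F.C) (r : G) (y : X), r ∈ F.R c → r ≠ 1 → y ∈ F.Y c → T ≤ d y (r • y)
  near : ∀ (c : F.C) (g : G) (x : X) (ρ : ℕ), g • c = c → g ∉ F.R c → Mv d g x ρ →
    ∃ y ∈ F.Y c, d x y ≤ 6 * ρ + 3 * P.A
  pow : ∀ (c : F.C) (g : G), g • c = c → g ^ P.n ∈ F.R c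
  comm : ∀ (c : F.C) (g h : G), g • c = c → h • c = c → g * h * g⁻¹ * h⁻¹ ∈ F.R c
  inter : ∀ (c c' : F.C) (g : G), c ≠ c' → g • c = c → g • c' = c' → g ∈ F.R c

/-- raw vertices of the cone-off -/
inductive CV (X C : Type) : Type
  | base : X → CV X C
  | cone : C → X → ℕ → CV X C
  | apex : C → CV X C

/-- validity: cone points lie over points of `Y c` at levels `1..D` -/
def CVal {G X : Type} [Group G] [MulAction G X] (F : Fam G X) (D : ℕ) : CV X F.C → Prop
  | .base _ => True
  | .cone c y k => y ∈ F.Y c ∧ 1 ≤ k ∧ k ≤ D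
  | .apex _ => True

/-- the vertex set of the cone-off -/
def Cone {G X : Type} [Group G] [MulAction G X] (F : Fam G X) (D : ℕ) : Type :=
  {v : CV X F.C // CVal F D v}

section
variable {G X : Type} [Group G] [MulAction G X] (F : Fam G X) (D : ℕ)

/-- level 0 vertex -/
def bs (x : X) : Cone F D := ⟨.base x, trivial⟩

/-- apex -/
def ap (c : F.C) : Cone F D := ⟨.apex c, trivial⟩

/-- the vertex of level `k` above `y ∈ Y c`; level `0` is `y`, levels `> D` are the apex -/
def vt (c : F.C) (y : F.Y c) (k : ℕ) : Cone F D :=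
  if h0 : k = 0 then bs F D y.1
  else if h : k ≤ D then ⟨.cone c y.1 k, ⟨y.2, Nat.one_le_iff_ne_zero.mpr h0, h⟩⟩
  else ap F D c

/-- adjacency of raw vertices (before symmetrisation): `s` is the scale -/
inductive CAdj (d : X → X → ℕ) (s : ℕ) : CV X F.C → CV X F.C → Prop
  | hor0 (x x' : X) : d x x' ≤ s → CAdj d s (.base x) (.base x')
  | hor (c : F.C) (y y' : X) (k : ℕ) : d y y' ≤ s * 2 ^ k → CAdj d s (.cone c y k) (.cone c y' k)
  | up0 (c : F.C) (y : X) : CAdj d s (.base y) (.cone c y 1)
  | up (c : F.C) (y : X) (k : ℕ) : CAdj d s (.cone c y k) (.cone c y (k + 1))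
  | top (c : F.C) (y : X) : CAdj d s (.cone c y D) (.apex c)

/-- symmetrised adjacency on the cone-off -/
def cadj (d : X → X → ℕ) (s : ℕ) (v w : Cone F D) : Prop :=
  CAdj F D d s v.1 w.1 ∨ CAdj F D d s w.1 v.1

/-- the distance of the cone-off -/
noncomputable def cd (d : X → X → ℕ) (s : ℕ) : Cone F D → Cone F D → ℕ :=
  rdist (cadj F D d s)

/-- shadow of a raw vertex in `X` -/
noncomputable def shr : CV X F.C → X
  | .base x => x
  | .cone _ y _ => y
  | .apex c => (F.Y_ne c).choose

/-- shadow of a vertex in `X` -/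
noncomputable def sh (v : Cone F D) : X := shr F v.1

open Classical in
/-- level of a raw vertex in the cone over `c` -/
noncomputable def levr (c : F.C) : CV X F.C → ℕ
  | .base _ => 0
  | .cone c' _ k => if c' = c then k else 0
  | .apex c' => if c' = c then D + 1 else 0

/-- level of a vertex in the cone over `c` -/
noncomputable def lev (c : F.C) (v : Cone F D) : ℕ := levr F D c v.1

/-- action on raw vertices -/
def smulr (g : G) : CV X F.C → CV X F.C
  | .base x => .base (g • x)
  | .cone c y k => .cone (g • c) (g • y) k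
  | .apex c => .apex (g • c)

theorem smulr_val (g : G) (v : CV X F.C) (h : CVal F D v) : CVal F D (smulr F g v) := by
  cases v with
  | base x => trivial
  | cone c y k => exact ⟨F.Y_smul g c y h.1, h.2.1, h.2.2⟩
  | apex c => trivial

instance : MulAction G (Cone F D) where
  smul g v := ⟨smulr F g v.1, smulr_val F D g v.1 v.2⟩
  one_smul v := by
    apply Subtype.ext
    rcases v with ⟨v, hv⟩
    cases v <;> simp [HSMul.hSMul, smulr] <;> (try constructor) <;> exact one_smul G _
  mul_smul g h v := by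
    apply Subtype.ext
    rcases v with ⟨v, hv⟩
    cases v <;> simp [HSMul.hSMul, smulr] <;> (try constructor) <;> exact mul_smul g h _

end

section
variable {G X : Type} [Group G] [MulAction G X]

open Classical in
/-- a closest point of `Y c` (the point itself if it is in `Y c`) -/
noncomputable def pr (F : Fam G X) (d : X → X → ℕ) (c : F.C) (x : X) : F.Y c :=
  if h : x ∈ F.Y c then ⟨x, h⟩
  else
    have hex : ∃ m, ∃ y : F.Y c, d x y.1 = m := ⟨_, ⟨_, (F.Y_ne c).choose_spec⟩, rfl⟩
    (Nat.find_spec hex).choose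

variable (F : Fam G X) (D : ℕ) (d : X → X → ℕ) (s A : ℕ)

/-- projection of a vertex to `Y c` -/
noncomputable def prc (c : F.C) (p : Cone F D) : F.Y c := pr F d c (sh F D p)

/-- least level at which the projections of `p` and `q` are adjacent -/
noncomputable def lam (c : F.C) (p q : Cone F D) : ℕ :=
  sInf {k | d (prc F D d c p).1 (prc F D d c q).1 ≤ s * 2 ^ k ∨ k = D + 1}

/-- turning level -/
noncomputable def KK (c : F.C) (p q : Cone F D) : ℕ :=
  max (max (lev F D c p) (lev F D c q)) (lam F D d s c p q)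

/-- `c` is active for `p, q` -/
def ActC (c : F.C) (p q : Cone F D) : Prop :=
  1 ≤ lev F D c p ∨ 1 ≤ lev F D c q ∨ 20 * s < d (prc F D d c p).1 (prc F D d c q).1

/-- vertical ray over the projection of `p` from the level of `p` to level `K` -/
def Ray (c : F.C) (p : Cone F D) (K : ℕ) : Set (Cone F D) :=
  {v | ∃ j, lev F D c p ≤ j ∧ j ≤ K ∧ v = vt F D c (prc F D d c p) j}

/-- `w` is deep inside the overlap of `Y c` with the geodesics from `p` to `q` -/
def Deep (c : F.C) (w : X) (p q : Cone F D) : Prop :=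
  (∃ y ∈ F.Y c, d w y ≤ 50 * A) ∧ (1 ≤ lev F D c p ∨ 20 * s < d w (prc F D d c p).1) ∧
    (1 ≤ lev F D c q ∨ 20 * s < d w (prc F D d c q).1)

/-- the guessed quasi-geodesics of the cone-off -/
def LL (p q : Cone F D) : Set (Cone F D) :=
  {v | ∃ w, v = bs F D w ∧ Btw d (sh F D p) w (sh F D q) (10 * A) ∧ ∀ c, ¬ Deep F D d s A c w p q} ∪
  {v | ∃ c, ActC F D d s c p q ∧
    (v ∈ Ray F D d c p (KK F D d s c p q) ∨ v ∈ Ray F D d c q (KK F D d s c p q))}

end

/-- exits of `p` from `c` -/
def Exi {G X : Type} [Group G] [MulAction G X] (F : Fam G X) (D : ℕ)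
    (e : Cone F D → Cone F D → ℕ) (c : F.C) (p : Cone F D) : Set X :=
  {x | ∃ y : F.Y c, y.1 = x ∧ e p (vt F D c y D) + 1 = e p (ap F D c)}

/-- the exits of `p` and `q` from `c` contain points at distance at least `t` -/
def Ang {G X : Type} [Group G] [MulAction G X] (F : Fam G X) (D : ℕ) (d : X → X → ℕ)
    (e : Cone F D → Cone F D → ℕ) (c : F.C) (p q : Cone F D) (t : ℕ) : Prop :=
  ∃ y ∈ Exi F D e c p, ∃ y' ∈ Exi F D e c q, t ≤ d y y'

/-- kernel of a step: the subgroup generated by all `R c` -/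
def Ker {G X : Type} [Group G] [MulAction G X] (F : Fam G X) : Subgroup G :=
  Subgroup.closure {r | ∃ c, r ∈ F.R c}

/-- the windmill predicate: `k` can be peeled to `1`, always at a large angle -/
inductive Peel {G X : Type} [Group G] [MulAction G X] (F : Fam G X) (D : ℕ) (d : X → X → ℕ)
    (e : Cone F D → Cone F D → ℕ) (t : ℕ) (p : Cone F D) : G → Prop
  | one : Peel F D d e t p 1
  | step (k r : G) (c : F.C) : r ∈ F.R c → Ang F D d e c p (k • p) t →
      Peel F D d e t p (r * k) → Peel F D d e t p k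

open Classical in
/-- quotient pseudo-distance -/
noncomputable def qd {G V : Type} [Group G] [MulAction G V] (K : Subgroup G) (e : V → V → ℕ)
    (p q : V) : ℕ := sInf {m | ∃ k ∈ K, e p (k • q) = m}

/-- the class of `u` fixes the class of the apex of `c` -/
def FixB {G X : Type} [Group G] [MulAction G X] (F : Fam G X) (u : G) (c : F.C) : Prop :=
  ∃ κ ∈ Ker F, (κ * u) • c = c

/-- exits in the quotient contain points at distance at least `t` modulo `R c` -/
def AngQ {G X : Type} [Group G] [MulAction G X] (F : Fam G X) (D : ℕ) (d : X → X → ℕ)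
    (e : Cone F D → Cone F D → ℕ) (c : F.C) (p q : Cone F D) (t : ℕ) : Prop :=
  ∃ y ∈ Exi F D e c p, ∃ y' ∈ Exi F D e c q, ∀ r ∈ F.R c, t ≤ d y (r • y')

/-- `p` is not an apex -/
def NA {G X : Type} [Group G] [MulAction G X] {F : Fam G X} {D : ℕ} (p : Cone F D) : Prop :=
  ∀ c, p ≠ ap F D c

end Mon
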