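import Mathlib

/-!
Mon: basic definitions (helper13).  ℕ-valued geodesic pseudo-metrics, hyperbolicity, group actions.
-/
set_option autoImplicit false

namespace Mon

/-- ℕ-valued geodesic pseudo-metric. -/
structure Geo {X : Type} (d : X → X → ℕ) : Prop where
  self : ∀ x, d x x = 0
  symm : ∀ x y, d x y = d y x
  tri : ∀ x y z, d x z ≤ d x y + d y z
  geo : ∀ x y i, i ≤ d x y → ∃ z, d x z = i ∧ d z y = d x y - i

/-- four point condition -/
def Hyp {X : Type} (δ : ℕ) (d : X → X → ℕ) : Prop :=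
  ∀ x y z t, d x y + d z t ≤ max (d x z + d y t) (d x t + d y z) + δ

/-- `z` lies between `x` and `y` up to `k`. -/
def Btw {X : Type} (d : X → X → ℕ) (x z y : X) (k : ℕ) : Prop :=
  d x z + d z y ≤ d x y + k

/-- every geodesic from `p` to `q` passes through `c` -/
def Thru {X : Type} (d : X → X → ℕ) (c p q : X) : Prop :=
  d p q = d p c + d c q ∧ ∀ z, Btw d p z q 0 → Btw d p z c 0 ∨ Btw d c z q 0

/-- the action is by isometries -/
def Isom (G : Type) {X : Type} [Group G] [MulAction G X] (d : X → X → ℕ) : Prop :=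
  ∀ (g : G) (x y : X), d (g • x) (g • y) = d x y

/-- `x` is on a quasi-axis of `g`, with error `κ` -/
def Thick {G X : Type} [Group G] [MulAction G X] (d : X → X → ℕ) (g : G) (x : X) (κ : ℕ) : Prop :=
  ∀ i j : ℕ, d x (g ^ i • x) + d x (g ^ j • x) ≤ d x (g ^ (i + j) • x) + κ

/-- `g` moves `x` by at most `R` -/
def Mv {G X : Type} [Group G] [MulAction G X] (d : X → X → ℕ) (g : G) (x : X) (R : ℕ) : Prop :=
  d x (g • x) ≤ R

/-- The invariants of a stage (with respect to a normal subgroup `N` playing the role of `1`). -/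
structure Good (G : Type) {X : Type} [Group G] [MulAction G X] (d : X → X → ℕ)
    (N : Subgroup G) (n δ Λ A A0 M : ℕ) : Prop where
  geo : Geo d
  isom : Isom G d
  hyp : Hyp δ d
  T2 : ∀ g : G, g ^ n ∈ N ∨ ∀ x : X, 20 * δ ≤ d x (g ^ M • x)
  T3a : ∀ (g : G) (x y : X), g ∉ N → A ≤ d x y → Mv d g x Λ → Mv d g y Λ → g ^ n ∉ N
  T3b : ∀ (g : G) (x : X), g ^ n ∉ N → Mv d g x Λ → Thick d g x A0
  T3c : ∀ (g h : G) (x y : X), A ≤ d x y → Mv d g x Λ → Mv d g y Λ → Mv d h x Λ → Mv d h y Λ →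
    g * h * g⁻¹ * h⁻¹ ∈ N

/-- A stage with trivial `N`. -/
abbrev Good1 (G : Type) {X : Type} [Group G] [MulAction G X] (d : X → X → ℕ)
    (n δ Λ A A0 M : ℕ) : Prop := Good G d ⊥ n δ Λ A A0 M

/-- `ρ ↦ ρ 2^ρ` -/
def Ex (ρ : ℕ) : ℕ := ρ * 2 ^ ρ

/-- The conclusion of the guessing-geodesics lemma with constants `h`, `δ1`: if the sets `L p q`
are coarsely connected, small for adjacent points and slim, then the space is `δ1`-hyperbolic and
`L p q` is `δ1`-Hausdorff close to the set of points between `p` and `q`. -/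
def GuessP (h δ1 : ℕ) : Prop :=
  ∀ (V : Type) (e : V → V → ℕ) (L : V → V → Set V), Geo e →
    (∀ p q, ∃ (m : ℕ) (v : ℕ → V), v 0 = p ∧ v m = q ∧ (∀ i, i ≤ m → v i ∈ L p q) ∧
      ∀ i, i < m → e (v i) (v (i + 1)) ≤ h) →
    (∀ p q, e p q ≤ 1 → ∀ v ∈ L p q, e p v ≤ h) →
    (∀ p q r, ∀ v ∈ L p q, ∃ w, (w ∈ L p r ∨ w ∈ L r q) ∧ e v w ≤ h) →
    Hyp δ1 e ∧ (∀ p q, ∀ v ∈ L p q, ∃ w, Btw e p w q 0 ∧ e v w ≤ δ1) ∧
      (∀ p q w, Btw e p w q 0 → ∃ v ∈ L p q, e v w ≤ δ1)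

/-- All numerical parameters with the inequalities that may be used in every file. -/
structure Par where
  δ1 : ℕ
  δ : ℕ
  Λs : ℕ
  Λ : ℕ
  A0 : ℕ
  D : ℕ
  A : ℕ
  s : ℕ
  /-- `T2`-exponents after a type 1 step, and after a type 2 step -/
  M1 : ℕ
  M : ℕ
  /-- displacement of the kernels: type 2 and type 1 -/
  TT2 : ℕ
  N : ℕ
  Q : ℕ
  TT1 : ℕ
  n : ℕ
  h1 : 1 ≤ δ1
  hguess : GuessP 1000 δ1
  hδ : 1000 * δ1 ≤ δ
  hΛs : 100 * δ ≤ Λs
  hΛ : 10 * Λs ≤ Λ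
  hA0 : 1000000 * Ex (1000 * Λ) ≤ A0
  /-- bounds everything that does not depend on `D` (displacements up to `10^6 Ex (1000 Λ)`) -/
  hA0' : 1000000 * Ex (1000 * (1000000 * Ex (1000 * Λ))) ≤ A0
  hD : 1000 * A0 ≤ D
  hA : 1000 * D ≤ A
  hs : 1000000 * A ≤ s
  hM1 : 10 * (s * Ex (1000 * Λ)) + 10 ≤ M1
  hM : 10 * M1 * (s * Ex (1000 * Λ)) + 10 ≤ M
  hTT2 : 100000 * (δ1 * s * 2 ^ D) ≤ TT2
  hN : TT2 ≤ N
  hN10 : 100 * s ≤ N
  hQ : 1000 * M * TT2 ≤ Q
  hTT1 : 1000 * TT2 * Q ^ (10 * N + 100) ≤ TT1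
  hn : 1000 * M * TT1 ≤ n
  hprime : n.Prime

/-- the angle threshold -/
def Par.θ (P : Par) : ℕ := (12 * P.δ1 + 6) * (P.s * 2 ^ P.D)

/-- a clean stage (`N = ⊥`) with the parameters of `P` and `T2` exponent `M` -/
abbrev Par.St (P : Par) (G : Type) {X : Type} [Group G] [MulAction G X] (d : X → X → ℕ)
    (M : ℕ) : Prop := Good1 G d P.n P.δ P.Λ P.A P.A0 M

/-- `h` is a short element of infinite order -/
def Par.Short (P : Par) {G X : Type} [Group G] [MulAction G X] (d : X → X → ℕ) (h : G) : Prop :=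
  h ^ P.n ≠ 1 ∧ ∃ x : X, Mv d h x P.Λs

/-- all points moved at most `Λs` by a nontrivial element of `S` (used for `S = C(h)`, `h` short) -/
def Par.Yset (P : Par) {G X : Type} [Group G] [MulAction G X] (d : X → X → ℕ) (S : Subgroup G) :
    Set X :=
  {x | ∃ g ∈ S, g ≠ 1 ∧ Mv d g x P.Λs}

end Mon
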