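import Pool.Agent.Work.MP_6f5fa7_al.Mon.ConeDefs
import Pool.Agent.Work.MP_6f5fa7_al.Mon.BB

/-!
Mon: the type 1 family (centralisers of short elements), relator data, quotient spaces, the type 2
family.
-/
set_option autoImplicit false

namespace Mon

/-- what is used about the type 1 family (besides `FamOK`) -/
structure Fam1 (P : Par) {G X : Type} [Group G] [MulAction G X] (d : X → X → ℕ) (F : Fam G X) :
    Prop where
  ok : FamOK P d F P.TT1
  ab : ∀ (c : F.C) (g h : G), g • c = c → h • c = c → g * h = h * g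
  gr : ∀ (c : F.C) (g : G) (x : X) (f : ℕ), g • c = c → g ≠ 1 →
    f * (16 * P.δ) ≤ P.M * d x (g ^ f • x)
  disp : ∀ (c : F.C) (g : G) (y y' : X), g • c = c → y ∈ F.Y c → y' ∈ F.Y c →
    d y (g • y) ≤ d y' (g • y') + P.A
  hsh : ∀ h : G, P.Short d h → ∃ c : F.C, h • c = c

section
variable (P : Par) {G X : Type} [Group G] [MulAction G X] (d : X → X → ℕ)

/-- indices of the type 1 family: centralisers of short elements -/
def CycC : Type := {S : Subgroup G // ∃ h, P.Short d h ∧ S = Subgroup.centralizer {h}}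

theorem conj_short (hi : Isom G d) (g h : G) (hh : P.Short d h) : P.Short d (g * h * g⁻¹) := by
  obtain ⟨h1, x, hx⟩ := hh
  refine ⟨fun h => h1 ?_, g • x, ?_⟩
  · rw [conj_pow] at h
    have := congrArg (fun z => g⁻¹ * z * g) h
    simpa [mul_assoc] using this
  · unfold Mv at hx ⊢
    rw [smul_smul, inv_mul_cancel_right, mul_smul, hi]
    exact hx

theorem map_centralizer (g h : G) :
    (Subgroup.centralizer {h}).map (MulAut.conj g).toMonoidHom =
      Subgroup.centralizer {g * h * g⁻¹} := by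
  ext u
  constructor
  · rintro ⟨v, hv, rfl⟩
    have hv' : v * h = h * v := Subgroup.mem_centralizer_singleton_iff.mp hv
    rw [Subgroup.mem_centralizer_singleton_iff]
    change (g * v * g⁻¹) * (g * h * g⁻¹) = (g * h * g⁻¹) * (g * v * g⁻¹)
    calc (g * v * g⁻¹) * (g * h * g⁻¹) = g * (v * h) * g⁻¹ := by group
      _ = g * (h * v) * g⁻¹ := by rw [hv']
      _ = _ := by group
  · intro hu
    have hu' : u * (g * h * g⁻¹) = (g * h * g⁻¹) * u :=
      Subgroup.mem_centralizer_singleton_iff.mp hu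
    refine ⟨g⁻¹ * u * g, ?_, ?_⟩
    · show g⁻¹ * u * g ∈ Subgroup.centralizer {h}
      rw [Subgroup.mem_centralizer_singleton_iff]
      calc (g⁻¹ * u * g) * h = g⁻¹ * (u * (g * h * g⁻¹)) * g := by group
        _ = g⁻¹ * ((g * h * g⁻¹) * u) * g := by rw [hu']
        _ = _ := by group
    · show g * (g⁻¹ * u * g) * g⁻¹ = u
      group

variable {d} in
/-- conjugation action on the indices -/
@[reducible] def cycAct (hi : Isom G d) : MulAction G (CycC P (G := G) d) where
  smul g c := ⟨c.1.map (MulAut.conj g).toMonoidHom, by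
    obtain ⟨h, hh, hS⟩ := c.2
    exact ⟨g * h * g⁻¹, conj_short P d hi g h hh, by rw [hS, map_centralizer]⟩⟩
  one_smul c := by
    apply Subtype.ext
    show c.1.map (MulAut.conj (1 : G)).toMonoidHom = c.1
    ext u
    simp
  mul_smul g h c := by
    apply Subtype.ext
    show c.1.map (MulAut.conj (g * h)).toMonoidHom =
      (c.1.map (MulAut.conj h).toMonoidHom).map (MulAut.conj g).toMonoidHom
    rw [Subgroup.map_map]
    congr 1
    ext u
    simp [mul_assoc]

variable {d} in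
/-- the type 1 family -/
def cycFam (hi : Isom G d) : Fam G X where
  C := CycC P (G := G) d
  act := cycAct P hi
  Y c := P.Yset d c.1
  R c := Subgroup.closure {r | ∃ g ∈ c.1, r = g ^ P.n}
  Y_smul g c x hx := by
    obtain ⟨u, hu, hu1, hux⟩ := hx
    refine ⟨g * u * g⁻¹, ⟨u, hu, rfl⟩, fun h => hu1 ?_, ?_⟩
    · have := congrArg (fun z => g⁻¹ * z * g) h
      simpa [mul_assoc] using this
    · unfold Mv at hux ⊢
      rw [smul_smul, inv_mul_cancel_right, mul_smul, hi]
      exact hux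
  R_smul g c r hr := by
    have : r ∈ (Subgroup.closure {r | ∃ g' ∈ (c.1.map (MulAut.conj g).toMonoidHom),
        r = g' ^ P.n}).comap (MulAut.conj g).toMonoidHom := by
      refine (Subgroup.closure_le _).mpr ?_ hr
      rintro _ ⟨u, hu, rfl⟩
      apply Subgroup.subset_closure
      exact ⟨g * u * g⁻¹, ⟨u, hu, rfl⟩, by simp⟩
    exact this
  R_fix c r hr := by
    have hrS : r ∈ c.1 := by
      refine (Subgroup.closure_le _).mpr ?_ hr
      rintro _ ⟨u, hu, rfl⟩
      exact c.1.pow_mem hu _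
    apply Subtype.ext
    show c.1.map (MulAut.conj r).toMonoidHom = c.1
    ext u
    constructor
    · rintro ⟨v, hv, rfl⟩
      exact c.1.mul_mem (c.1.mul_mem hrS hv) (c.1.inv_mem hrS)
    · intro hu
      refine ⟨r⁻¹ * u * r, c.1.mul_mem (c.1.mul_mem (c.1.inv_mem hrS) hu) hrS, ?_⟩
      show r * (r⁻¹ * u * r) * r⁻¹ = u
      group
  Y_ne c := by
    obtain ⟨h, hh, hS⟩ := c.2
    obtain ⟨h1, x, hx⟩ := hh
    refine ⟨x, h, ?_, fun h0 => h1 (by rw [h0, one_pow]), hx⟩
    rw [hS]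
    exact Subgroup.mem_centralizer_singleton_iff.mpr rfl

end

/-- the property `S_k` of a stage -/
def SProp (P : Par) (G : Type) [Group G] : Prop :=
  ∀ x y : G, x ^ P.n = 1 → (Uw P.Q x y) ^ P.n = 1 → x * y = y * x ∨ Ew P.Q P.N x y = 1

/-- relator data: `V` fixes `c`, `x` is old (small lift, fixes no apex) -/
structure Rel1 (P : Par) {G X : Type} [Group G] [MulAction G X] (d : X → X → ℕ) (F : Fam G X)
    (V x : G) (c : F.C) : Prop where
  fix : V • c = c
  ntr : V ∉ F.R c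
  small : ∃ y ∈ F.Y c, d y (V • y) ≤ P.θ
  tor : x ^ P.n = 1
  nofix : ∀ c', ¬ FixB F x c'
  close : ∃ p : Cone F P.D, cd F P.D d P.s p (x • p) ≤ 3 * P.δ ∧
    cd F P.D d P.s p (ap F P.D c) ≤ P.D + P.A0

/-! ## Quotient spaces -/

section
variable {G V : Type} [Group G] [MulAction G V] (K : Subgroup G)

/-- the orbit space -/
def Vq (K : Subgroup G) (V : Type) [MulAction G V] : Type := MulAction.orbitRel.Quotient K V

/-- class of a point -/
def mkq (v : V) : Vq K V := Quotient.mk'' v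

theorem mkq_eq (v w : V) : mkq K v = mkq K w ↔ ∃ κ ∈ K, κ • w = v := by
  have h0 : mkq K v = mkq K w ↔ (MulAction.orbitRel K V) v w :=
    Quotient.eq'' (s₁ := MulAction.orbitRel K V)
  rw [h0]
  constructor
  · rintro ⟨⟨κ, hκ⟩, h⟩
    exact ⟨κ, hκ, h⟩
  · rintro ⟨κ, hκ, h⟩
    exact ⟨⟨κ, hκ⟩, h⟩

theorem mkq_surj (a : Vq K V) : ∃ v : V, mkq K v = a := Quotient.exists_rep a

theorem mkq_smul {κ : G} (hκ : κ ∈ K) (v : V) : mkq K (κ • v) = mkq K v :=
  (mkq_eq K _ _).mpr ⟨κ, hκ, rfl⟩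

/-- distance of the orbit space -/
noncomputable def dq (e : V → V → ℕ) (a b : Vq K V) : ℕ :=
  qd K e (Quotient.out (s := MulAction.orbitRel K V) a)
    (Quotient.out (s := MulAction.orbitRel K V) b)

theorem dq_mk {e : V → V → ℕ} (hi : Isom G e) (p q : V) :
    dq K e (mkq K p) (mkq K q) = qd K e p q := by
  unfold dq qd
  obtain ⟨κ, hκ, h1⟩ := (mkq_eq K _ _).mp
    (Quotient.out_eq (s := MulAction.orbitRel K V) (mkq K p) : mkq K _ = mkq K p)
  obtain ⟨κ', hκ', h2⟩ := (mkq_eq K _ _).mp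
    (Quotient.out_eq (s := MulAction.orbitRel K V) (mkq K q) : mkq K _ = mkq K q)
  rw [← h1, ← h2]
  congr 1
  ext m
  constructor
  · rintro ⟨k, hk, rfl⟩
    refine ⟨κ⁻¹ * k * κ', K.mul_mem (K.mul_mem (K.inv_mem hκ) hk) hκ', ?_⟩
    rw [← hi κ]
    simp [smul_smul, mul_assoc]
  · rintro ⟨k, hk, rfl⟩
    refine ⟨κ * k * κ'⁻¹, K.mul_mem (K.mul_mem hκ hk) (K.inv_mem hκ'), ?_⟩
    rw [← hi κ p]
    simp [smul_smul, mul_assoc]

variable [hK : K.Normal]

/-- action of `G` on the orbit space -/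
def gact (g : G) : Vq K V → Vq K V :=
  Quotient.lift (s := MulAction.orbitRel K V) (fun v => mkq K (g • v)) (by
    rintro v w ⟨⟨κ, hκ⟩, h⟩
    have h' : κ • w = v := h
    show mkq K (g • v) = mkq K (g • w)
    rw [mkq_eq]
    refine ⟨g * κ * g⁻¹, hK.conj_mem κ hκ g, ?_⟩
    rw [smul_smul, inv_mul_cancel_right, mul_smul, h'])

theorem gact_mk (g : G) (v : V) : gact K g (mkq K v) = mkq K (g • v) := rfl

instance qAct : MulAction (G ⧸ K) (Vq K V) where
  smul := Quotient.lift (s := QuotientGroup.leftRel K) (fun g => gact K g) (by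
    intro g g' h
    have h' : g⁻¹ * g' ∈ K := QuotientGroup.leftRel_apply.mp h
    funext a
    obtain ⟨v, rfl⟩ := mkq_surj K a
    show mkq K (g • v) = mkq K (g' • v)
    rw [mkq_eq]
    refine ⟨g * (g⁻¹ * g')⁻¹ * g⁻¹, hK.conj_mem _ (K.inv_mem h') g, ?_⟩
    rw [smul_smul]
    congr 1
    group)
  one_smul a := by
    obtain ⟨v, rfl⟩ := mkq_surj K a
    show mkq K ((1 : G) • v) = mkq K v
    rw [one_smul]
  mul_smul g h a := by
    obtain ⟨v, rfl⟩ := mkq_surj K a
    obtain ⟨g, rfl⟩ := QuotientGroup.mk_surjective g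
    obtain ⟨h, rfl⟩ := QuotientGroup.mk_surjective h
    show mkq K ((g * h) • v) = mkq K (g • (h • v))
    rw [mul_smul]

theorem qsmul_mk (g : G) (v : V) : (QuotientGroup.mk g : G ⧸ K) • mkq K v = mkq K (g • v) := rfl

end

instance ker_nrm {G X : Type} [Group G] [MulAction G X] (F : Fam G X) : (Ker F).Normal := by
  refine ⟨fun k hk g => ?_⟩
  have : k ∈ (Ker F).comap (MulAut.conj g).toMonoidHom := by
    refine (Subgroup.closure_le _).mpr ?_ hk
    rintro r ⟨c, hr⟩
    exact Subgroup.subset_closure ⟨g • c, F.R_smul g c r hr⟩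
  exact this

/-! ## The type 2 family -/

section
variable {G X : Type} [Group G] [MulAction G X]

/-- prefix products of the bi-infinite word `...W(V,x) W(V,x)...` -/
def gs (Q N : ℕ) (V x : G) (j : ℤ) : G :=
  Ww Q N V x ^ (j / (N : ℤ)) * Ww Q (j % (N : ℤ)).toNat V x

/-- the apices on the axis of `W(V,x)` -/
def axs (P : Par) (F : Fam G X) (V x : G) (c : F.C) (j : ℤ) : F.C := gs P.Q P.N V x j • c

/-- the set of the classes of the apices on the axis of `W(V,x)` -/
def Ax2 (P : Par) (F : Fam G X) (V x : G) (c : F.C) : Set (Vq (Ker F) (Cone F P.D)) :=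
  Set.range fun j : ℤ => mkq (Ker F) (ap F P.D (axs P F V x c j))

theorem Uw_conj (Q : ℕ) (g x y : G) : Uw Q (g * x * g⁻¹) (g * y * g⁻¹) = g * Uw Q x y * g⁻¹ := by
  unfold Uw
  have : (g * y * g⁻¹) * (g * x * g⁻¹) * (g * y * g⁻¹)⁻¹ = g * (y * x * y⁻¹) * g⁻¹ := by group
  rw [this]
  simp only [conj_pow]
  group

theorem Ww_conj (Q N : ℕ) (g V x : G) : Ww Q N (g * V * g⁻¹) (g * x * g⁻¹) =
    g * Ww Q N V x * g⁻¹ := by
  unfold Ww
  induction N with
  | zero => simp
  | succ N ih =>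
    rw [List.range_succ, List.map_append, List.prod_append, ih, List.map_append, List.prod_append]
    simp only [List.map_cons, List.map_nil, List.prod_cons, List.prod_nil, mul_one, conj_pow]
    group

theorem gs_conj (Q N : ℕ) (g V x : G) (j : ℤ) : gs Q N (g * V * g⁻¹) (g * x * g⁻¹) j =
    g * gs Q N V x j * g⁻¹ := by
  unfold gs
  rw [Ww_conj, Ww_conj, conj_zpow]
  group

theorem axs_smul (P : Par) (F : Fam G X) (g V x : G) (c : F.C) (j : ℤ) :
    axs P F (g * V * g⁻¹) (g * x * g⁻¹) (g • c) j = g • axs P F V x c j := by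
  unfold axs
  rw [gs_conj, smul_smul, smul_smul]
  congr 1
  group

theorem FixB_conj (F : Fam G X) {x : G} {c : F.C} (g : G) (h : FixB F (g * x * g⁻¹) c) :
    FixB F x (g⁻¹ • c) := by
  obtain ⟨κ, hκ, h⟩ := h
  refine ⟨g⁻¹ * κ * g, by simpa using (ker_nrm F).conj_mem κ hκ g⁻¹, ?_⟩
  rw [smul_smul]
  have : g⁻¹ * κ * g * x * g⁻¹ = g⁻¹ * (κ * (g * x * g⁻¹)) := by group
  rw [this, mul_smul, h]

/-- relator data can be translated -/
theorem Rel1.smul {P : Par} {d : X → X → ℕ} {F : Fam G X} (hi : Isom G d) {V x : G} {c : F.C}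
    (hci : Isom G (cd F P.D d P.s)) (h : Rel1 P d F V x c) (g : G) :
    Rel1 P d F (g * V * g⁻¹) (g * x * g⁻¹) (g • c) where
  fix := by rw [smul_smul, inv_mul_cancel_right, mul_smul, h.fix]
  ntr hr := h.ntr (by
    have := F.R_smul g⁻¹ (g • c) _ hr
    simpa [mul_assoc] using this)
  small := by
    obtain ⟨y, hy, h1⟩ := h.small
    refine ⟨g • y, F.Y_smul g c y hy, ?_⟩
    rw [smul_smul, inv_mul_cancel_right, mul_smul, hi]
    exact h1
  tor := by rw [conj_pow, h.tor]; group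
  nofix c' hc' := h.nofix _ (FixB_conj F g hc')
  close := by
    obtain ⟨p, h1, h2⟩ := h.close
    refine ⟨g • p, ?_, ?_⟩
    · rw [smul_smul, inv_mul_cancel_right, mul_smul, hci]
      exact h1
    · have : ap F P.D (g • c) = g • ap F P.D c := rfl
      rw [this, hci]
      exact h2

theorem Ax2_smul (P : Par) (F : Fam G X) (g V x : G) (c : F.C) :
    Ax2 P F (g * V * g⁻¹) (g * x * g⁻¹) (g • c) =
      (fun a => (QuotientGroup.mk g : G ⧸ Ker F) • a) '' Ax2 P F V x c := by
  unfold Ax2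
  rw [← Set.range_comp]
  congr 1
  funext j
  show mkq (Ker F) (ap F P.D (axs P F (g * V * g⁻¹) (g * x * g⁻¹) (g • c) j)) =
    (QuotientGroup.mk g : G ⧸ Ker F) • mkq (Ker F) (ap F P.D (axs P F V x c j))
  rw [axs_smul, qsmul_mk]
  rfl

/-- indices of the type 2 family -/
def C2 (P : Par) (d : X → X → ℕ) (F : Fam G X) : Type :=
  {S : Set (Vq (Ker F) (Cone F P.D)) // ∃ V x c, Rel1 P d F V x c ∧ S = Ax2 P F V x c}

/-- action on the indices of the type 2 family -/
@[reducible] def C2act (P : Par) (d : X → X → ℕ) (F : Fam G X) (hi : Isom G d)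
    (hci : Isom G (cd F P.D d P.s)) : MulAction (G ⧸ Ker F) (C2 P d F) where
  smul g S := ⟨(fun a => g • a) '' S.1, by
    obtain ⟨g, rfl⟩ := QuotientGroup.mk_surjective g
    obtain ⟨V, x, c, h, hS⟩ := S.2
    exact ⟨g * V * g⁻¹, g * x * g⁻¹, g • c, h.smul hi hci g, by rw [hS, Ax2_smul]⟩⟩
  one_smul S := by
    apply Subtype.ext
    show (fun a => (1 : G ⧸ Ker F) • a) '' S.1 = S.1
    simp
  mul_smul g h S := by
    apply Subtype.ext
    show (fun a => (g * h) • a) '' S.1 = (fun a => g • a) '' ((fun a => h • a) '' S.1)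
    rw [Set.image_image]
    simp only [mul_smul]

theorem dq_isom {G V : Type} [Group G] [MulAction G V] {e : V → V → ℕ} (K : Subgroup G)
    [hK : K.Normal] (hi : Isom G e) : Isom (G ⧸ K) (dq K e) := by
  intro g a b
  obtain ⟨g, rfl⟩ := QuotientGroup.mk_surjective g
  obtain ⟨v, rfl⟩ := mkq_surj K a
  obtain ⟨w, rfl⟩ := mkq_surj K b
  rw [qsmul_mk, qsmul_mk, dq_mk K hi, dq_mk K hi]
  unfold qd
  congr 1
  ext m
  constructor
  · rintro ⟨k, hk, rfl⟩
    refine ⟨g⁻¹ * k * g, by simpa using hK.conj_mem k hk g⁻¹, ?_⟩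
    rw [← hi g]
    simp [smul_smul, mul_assoc]
  · rintro ⟨k, hk, rfl⟩
    refine ⟨g * k * g⁻¹, hK.conj_mem k hk g, ?_⟩
    rw [← hi g v]
    simp [smul_smul, mul_assoc]

/-- the type 2 family -/
noncomputable def fam2 (P : Par) (d : X → X → ℕ) (F : Fam G X) (hi : Isom G d)
    (hci : Isom G (cd F P.D d P.s)) : Fam (G ⧸ Ker F) (Vq (Ker F) (Cone F P.D)) where
  C := C2 P d F
  act := C2act P d F hi hci
  Y S := {z | ∃ a ∈ S.1, ∃ b ∈ S.1, Btw (dq (Ker F) (cd F P.D d P.s)) a z b 0}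
  R S := @MulAction.stabilizer (G ⧸ Ker F) (C2 P d F) _ (C2act P d F hi hci) S
  Y_smul g S z hz := by
    obtain ⟨a, ha, b, hb, h⟩ := hz
    refine ⟨g • a, ⟨a, ha, rfl⟩, g • b, ⟨b, hb, rfl⟩, ?_⟩
    unfold Btw at h ⊢
    rw [dq_isom _ hci, dq_isom _ hci, dq_isom _ hci]
    exact h
  R_smul g S r hr := by
    letI := C2act P d F hi hci
    have hr' : r • S = S := hr
    show (g * r * g⁻¹) • (g • S) = g • S
    rw [smul_smul, inv_mul_cancel_right, mul_smul, hr']
  R_fix S r hr := hr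
  Y_ne S := by
    obtain ⟨V, x, c, h, hS⟩ := S.2
    have hm : mkq (Ker F) (ap F P.D (axs P F V x c 0)) ∈ S.1 := by
      rw [hS]; exact ⟨0, rfl⟩
    refine ⟨mkq (Ker F) (ap F P.D (axs P F V x c 0)), _, hm, _, hm, ?_⟩
    unfold Btw
    rw [dq_mk _ hci]
    have : qd (Ker F) (cd F P.D d P.s) (ap F P.D (axs P F V x c 0))
        (ap F P.D (axs P F V x c 0)) = 0 := by
      unfold qd
      apply Nat.le_zero.mp
      apply Nat.sInf_le
      refine ⟨1, (Ker F).one_mem, ?_⟩
      rw [one_smul]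
      apply Nat.le_zero.mp
      unfold cd rdist
      exact Nat.sInf_le rfl
    omega

end

end Mon
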