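import Pool.Agent.Work.MP_6f5fa7_al.Mon.Defs2

/-! Mon: exponents of the relators. -/
set_option autoImplicit false

namespace Mon

/-- exponent of `V` after position `j` -/
def fx (Q N : ℕ) (j : ℤ) : ℕ := Q ^ ((j % (N : ℤ)).toNat + 1)

end Mon
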