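import Pool.Agent.Work.MP_6f5fa7_al.Mon.StTool
import Pool.Agent.Work.MP_6f5fa7_al.Mon.StCone
import Pool.Agent.Work.MP_6f5fa7_al.Mon.StAct

/-! Mon, item A13 (helper78): `T2` for the quotient. -/
set_option autoImplicit false

namespace Mon

private theorem a13_pow_ker {G : Type} [Group G] (K : Subgroup G) (hK : K.Normal) (κ g : G)
    (hκ : κ ∈ K) (i : ℕ) : ∃ k ∈ K, (κ * g) ^ i = k * g ^ i := by
  induction i with
  | zero => exact ⟨1, K.one_mem, by simp⟩
  | succ i ih =>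
    obtain ⟨k, hk, h⟩ := ih
    refine ⟨k * (g ^ i * κ * (g ^ i)⁻¹), K.mul_mem hk (hK.conj_mem κ hκ (g ^ i)), ?_⟩
    rw [pow_succ, h, pow_succ]
    group

private theorem a13_pow_mem {G : Type} [Group G] (K : Subgroup G) (hK : K.Normal) (κ g : G)
    (hκ : κ ∈ K) (i : ℕ) (h : (κ * g) ^ i ∈ K) : g ^ i ∈ K := by
  obtain ⟨k, hk, h1⟩ := a13_pow_ker K hK κ g hκ i
  have h2 : g ^ i = k⁻¹ * (κ * g) ^ i := by rw [h1]; group
  rw [h2]
  exact K.mul_mem (K.inv_mem hk) h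

private theorem a13_ex_mono {a b : ℕ} (h : a ≤ b) : Ex a ≤ Ex b :=
  Nat.mul_le_mul h (Nat.pow_le_pow_right (by norm_num) h)

private theorem a13_le_ex (a : ℕ) : a ≤ Ex a := by
  unfold Ex
  exact Nat.le_mul_of_pos_right a (by positivity)

private theorem a13_par (P : Par) : 1000 ≤ P.δ ∧ 1000 * P.δ ≤ P.Λ ∧ 1000 * P.Λ ≤ P.A0 ∧
    1000 * P.A0 ≤ P.D ∧ P.D ≤ P.s ∧ 1 ≤ P.D := by
  have h1 := P.h1
  have h2 := P.hδ
  have h3 := P.hΛs
  have h4 := P.hΛ
  have h5 := P.hA0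
  have h6 := P.hD
  have h7 := P.hA
  have h8 := P.hs
  have h9 := a13_le_ex (1000 * P.Λ)
  refine ⟨by omega, by omega, by omega, by omega, by omega, by omega⟩

/-- the common part of `qT2a` and `qT2b` -/
private theorem a13_core (hgeo : S.qd_geo) (hisom : S.qd_isom) (hhyp : S.qd_hyp)
    (hatt : S.qd_att) (hle : S.qd_le) (hzero : S.qd_zero) (hqc : S.quasi_centre)
    (hfix : S.fixB_of_close) (hnorm : S.ker_normal) (hfar : S.ker_far) (hcf : S.cone_fix)
    (htb : S.to_base) (hbd : S.bs_dist) (hcg : S.cone_geo) (hci : S.cone_isom)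
    (hsb : S.smul_bs) (hsa : S.smul_ap)
    {G X : Type} [Group G] [MulAction G X] {d : X → X → ℕ} {P : Par} {F : Fam G X} {T M : ℕ}
    (hG : P.St G d M) (hF : FamOK P d F T) (hT : P.TT2 ≤ T) (m : ℕ) (hm : 1 ≤ m) (g : G)
    (x : Cone F P.D) (h : qd (Ker F) (cd F P.D d P.s) x (g ^ m • x) < 20 * P.δ) :
    g ^ P.n ∈ Ker F ∨ ∃ κ ∈ Ker F, (∀ c : F.C, (κ * g) • c ≠ c) ∧
      ∃ u : X, ∀ i, i ≤ m → d u ((κ * g) ^ i • u) ≤ P.s * Ex (129 * P.δ) := by
  obtain ⟨p1, p2, p3, p4, p5, p6⟩ := a13_par P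
  have hs1 : 1 ≤ P.s := by omega
  have hN := hnorm hG hF hT
  have qG := hgeo hG hF hT
  have qI := hisom hG hF hT
  have eG : Geo (cd F P.D d P.s) := hcg hG.geo hG.isom hs1 p6
  have eI : Isom G (cd F P.D d P.s) := hci hG.geo hG.isom hs1 p6
  -- elements fixing some `c`
  have hfixc : ∀ κ ∈ Ker F, ∀ c : F.C, (κ * g) • c = c → g ^ P.n ∈ Ker F := by
    intro κ hκ c hc
    refine a13_pow_mem _ hN κ g hκ P.n ?_
    exact Subgroup.subset_closure ⟨c, hF.pow c _ hc⟩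
  obtain ⟨z, hz⟩ := hqc qG qI (hhyp hG hF hT) g x m (20 * P.δ) hm h.le
  have hz' : ∀ i, i ≤ m → qd (Ker F) (cd F P.D d P.s) z (g ^ i • z) ≤ 43 * P.δ := by
    intro i hi
    have := hz i hi
    omega
  by_cases hA : ∃ c, 2 * qd (Ker F) (cd F P.D d P.s) z (ap F P.D c) < P.D
  · left
    obtain ⟨c, hc⟩ := hA
    have h1 := hz' 1 hm
    rw [pow_one] at h1
    have h2 := qG.tri (ap F P.D c) z (g • ap F P.D c)
    have h3 := qG.tri z (g • z) (g • ap F P.D c)
    have h4 := qI g z (ap F P.D c)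
    have h5 := qG.symm (ap F P.D c) z
    have h6 := hfix hG hF hT c g (by omega)
    obtain ⟨κ, hκ, h7⟩ := h6
    exact hfixc κ hκ c h7
  push Not at hA
  have hNA : NA z := by
    intro c hc
    have h1 := hA c
    rw [hc, qG.self] at h1
    omega
  have hNAg : ∀ (k : G), NA (k • z) := by
    intro k c hc
    have h1 : z = ap F P.D (k⁻¹ • c) := by
      rw [← hsa hG.geo hG.isom hs1 p6 k⁻¹ c, ← hc, inv_smul_smul]
    exact hNA _ h1
  obtain ⟨κ, hκ, hκe⟩ := hatt hG hF hT z (g • z)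
  have h11 := hz' 1 hm
  rw [pow_one] at h11
  have he1 : cd F P.D d P.s z ((κ * g) • z) ≤ 43 * P.δ := by
    rw [mul_smul, hκe]; exact h11
  have hq1 : ∀ i, i ≤ m → qd (Ker F) (cd F P.D d P.s) z ((κ * g) ^ i • z) ≤ 43 * P.δ := by
    intro i hi
    obtain ⟨k, hk, h1⟩ := a13_pow_ker _ hN κ g hκ i
    rw [h1, mul_smul]
    have h2 := qG.tri z (g ^ i • z) (k • g ^ i • z)
    have h3 := hzero hG hF hT k hk (g ^ i • z)
    have h4 := hz' i hi
    omega
  have hei : ∀ i, i ≤ m → cd F P.D d P.s z ((κ * g) ^ i • z) ≤ 43 * P.δ := by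
    intro i
    induction i with
    | zero =>
      intro _
      rw [pow_zero, one_smul, eG.self]
      exact Nat.zero_le _
    | succ i ih =>
      intro hi
      have h1 := ih (by omega)
      have h2 : cd F P.D d P.s z ((κ * g) ^ (i + 1) • z) ≤ 86 * P.δ := by
        have h3 := eG.tri z ((κ * g) • z) ((κ * g) ^ (i + 1) • z)
        have h4 := eI (κ * g) z ((κ * g) ^ i • z)
        rw [← mul_smul, ← pow_succ'] at h4
        omega
      obtain ⟨k, hk, hke⟩ := hatt hG hF hT z ((κ * g) ^ (i + 1) • z)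
      have h5 := hq1 (i + 1) hi
      by_cases hk1 : k = 1
      · rw [hk1, one_smul] at hke
        omega
      · exfalso
        obtain ⟨c, hc⟩ := hfar hG hF hT ((κ * g) ^ (i + 1) • z) (hNAg _) k hk hk1
        have h6 := eG.tri ((κ * g) ^ (i + 1) • z) z (k • (κ * g) ^ (i + 1) • z)
        have h7 := eG.symm ((κ * g) ^ (i + 1) • z) z
        have h8 := hle hG hF hT ((κ * g) ^ (i + 1) • z) (ap F P.D c) 1 (Ker F).one_mem
        rw [one_smul] at h8
        have h9 := qI ((κ * g) ^ (i + 1))⁻¹ ((κ * g) ^ (i + 1) • z) (ap F P.D c)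
        rw [inv_smul_smul, hsa hG.geo hG.isom hs1 p6] at h9
        have h10 := hA (((κ * g) ^ (i + 1))⁻¹ • c)
        omega
  by_cases hfx : ∃ c : F.C, (κ * g) • c = c
  · obtain ⟨c, hc⟩ := hfx
    exact Or.inl (hfixc κ hκ c hc)
  push Not at hfx
  right
  refine ⟨κ, hκ, hfx, sh F P.D z, fun i hi => ?_⟩
  have hlev : ∀ c, lev F P.D c z ≤ 43 * P.δ := by
    intro c
    by_contra hc
    push Not at hc
    exact hfx c (hcf hG.geo hG.isom hs1 p6 c z (κ * g) (43 * P.δ) hc he1)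
  have hb := htb hG.geo hG.isom hs1 p6 z (43 * P.δ) (by omega) hlev
  have h1 : cd F P.D d P.s (bs F P.D (sh F P.D z)) (bs F P.D ((κ * g) ^ i • sh F P.D z)) ≤
      129 * P.δ := by
    rw [← hsb hG.geo hG.isom hs1 p6]
    have h2 := eG.tri (bs F P.D (sh F P.D z)) z ((κ * g) ^ i • bs F P.D (sh F P.D z))
    have h3 := eG.tri z ((κ * g) ^ i • z) ((κ * g) ^ i • bs F P.D (sh F P.D z))
    have h4 := eI ((κ * g) ^ i) z (bs F P.D (sh F P.D z))
    have h5 := eG.symm (bs F P.D (sh F P.D z)) z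
    have h6 := hei i hi
    omega
  exact hbd hG.geo hG.isom hs1 p6 _ _ _ h1 (by omega)

theorem qT2a (hgeo : S.qd_geo) (hisom : S.qd_isom) (hhyp : S.qd_hyp)
    (hatt : S.qd_att) (hle : S.qd_le) (hzero : S.qd_zero) (hqc : S.quasi_centre)
    (hfix : S.fixB_of_close) (hnorm : S.ker_normal) (hfar : S.ker_far) (hcf : S.cone_fix)
    (htb : S.to_base) (hbd : S.bs_dist) (hcg : S.cone_geo) (hci : S.cone_isom)
    (hsb : S.smul_bs) (hsa : S.smul_ap) (hdg : S.disp_growth) : S.qT2a := by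
  intro G X _ _ d P F T M hG hF hT hsh g
  by_contra hcon
  push Not at hcon
  obtain ⟨hgn, x, hx⟩ := hcon
  obtain ⟨p1, p2, p3, p4, p5, p6⟩ := a13_par P
  have hM1 := P.hM1
  have hΛs := P.hΛs
  have hexm : Ex (129 * P.δ) ≤ Ex (1000 * P.Λ) := a13_ex_mono (by omega)
  have hsex : P.s * Ex (129 * P.δ) ≤ P.s * Ex (1000 * P.Λ) := Nat.mul_le_mul_left _ hexm
  rcases a13_core hgeo hisom hhyp hatt hle hzero hqc hfix hnorm hfar hcf htb hbd hcg hci hsb hsa
    hG hF hT P.M1 (by omega) g x hx with h | ⟨κ, hκ, hfx, u, hu⟩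
  · exact hgn h
  · by_cases h1 : (κ * g) ^ P.n = 1
    · exact hgn (a13_pow_mem _ (hnorm hG hF hT) κ g hκ P.n (by rw [h1]; exact (Ker F).one_mem))
    · by_cases h2 : ∃ y : X, Mv d (κ * g) y P.Λs
      · obtain ⟨c, hc⟩ := hsh (κ * g) ⟨h1, h2⟩
        exact hfx c hc
      · push Not at h2
        have h3 : ∀ y : X, P.Λs + 1 ≤ d y ((κ * g) • y) := fun y => by
          have := h2 y
          unfold Mv at this
          omega
        have h4 := hdg hG.geo hG.isom hG.hyp (by omega) (κ * g) (P.Λs + 1) h3 (by omega) u P.M1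
        have h5 := hu P.M1 le_rfl
        have h6 : P.M1 * 1 ≤ P.M1 * (P.Λs + 1 - 4 * P.δ) := Nat.mul_le_mul_left _ (by omega)
        omega

theorem qT2b (hgeo : S.qd_geo) (hisom : S.qd_isom) (hhyp : S.qd_hyp)
    (hatt : S.qd_att) (hle : S.qd_le) (hzero : S.qd_zero) (hqc : S.quasi_centre)
    (hfix : S.fixB_of_close) (hnorm : S.ker_normal) (hfar : S.ker_far) (hcf : S.cone_fix)
    (htb : S.to_base) (hbd : S.bs_dist) (hcg : S.cone_geo) (hci : S.cone_isom)
    (hsb : S.smul_bs) (hsa : S.smul_ap) (hdg : S.disp_growth) : S.qT2b := by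
  intro G X _ _ d P F T M hG hF hT hMM g
  by_contra hcon
  push Not at hcon
  obtain ⟨hgn, x, hx⟩ := hcon
  obtain ⟨p1, p2, p3, p4, p5, p6⟩ := a13_par P
  have hM := P.hM
  have hexm : Ex (129 * P.δ) ≤ Ex (1000 * P.Λ) := a13_ex_mono (by omega)
  have hsex : P.s * Ex (129 * P.δ) ≤ P.s * Ex (1000 * P.Λ) := Nat.mul_le_mul_left _ hexm
  rcases a13_core hgeo hisom hhyp hatt hle hzero hqc hfix hnorm hfar hcf htb hbd hcg hci hsb hsa
    hG hF hT P.M (by omega) g x hx with h | ⟨κ, hκ, hfx, u, hu⟩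
  · exact hgn h
  · rcases hG.T2 (κ * g) with h1 | h1
    · rw [Subgroup.mem_bot] at h1
      exact hgn (a13_pow_mem _ (hnorm hG hF hT) κ g hκ P.n (by rw [h1]; exact (Ker F).one_mem))
    · rw [hMM] at h1
      set N : ℕ := P.s * Ex (1000 * P.Λ) with hN
      have hNpos : 1 ≤ N := by
        have := a13_le_ex (1000 * P.Λ)
        have h2 : 1 * 1 ≤ P.s * Ex (1000 * P.Λ) := Nat.mul_le_mul (by omega) (by omega)
        omega
      have h4 := hdg hG.geo hG.isom hG.hyp (by omega) ((κ * g) ^ P.M1) (20 * P.δ) h1 (by omega) u N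
      rw [← pow_mul] at h4
      have h5 : P.M1 * N ≤ P.M := by
        have : P.M1 * N ≤ 10 * P.M1 * N := by
          rw [mul_assoc]; omega
        omega
      have h6 := hu (P.M1 * N) h5
      have h7 : N * 2 ≤ N * (20 * P.δ - 4 * P.δ) := Nat.mul_le_mul_left _ (by omega)
      omega

end Mon
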