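import Pool.Agent.Work.MP_6f5fa7_al.Mon.StAct
import Pool.Agent.Work.MP_6f5fa7_al.Mon.StCone

/-! Mon, item A9: narrow lifting. -/
set_option autoImplicit false

namespace Mon

private theorem a9_par (P : Par) : 1 ≤ P.D ∧ 1 ≤ P.s ∧ 20 * P.θ + 1 ≤ P.TT2 := by
  have h1 := P.h1
  have h2 := P.hδ
  have h3 := P.hΛs
  have h4 := P.hΛ
  have h5 := P.hA0
  have h6 := P.hD
  have h7 := P.hA
  have h8 := P.hs
  have h9 := P.hTT2
  have hEx : 1 ≤ Ex (1000 * P.Λ) := by
    unfold Ex
    have : 1 ≤ 2 ^ (1000 * P.Λ) := Nat.one_le_two_pow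
    have h10 : 1 ≤ 1000 * P.Λ := by omega
    exact Nat.one_le_iff_ne_zero.2 (Nat.mul_ne_zero (by omega) (by omega))
  have hA0 : 1 ≤ P.A0 := by omega
  have hD : 1 ≤ P.D := by omega
  have hs : 1 ≤ P.s := by omega
  refine ⟨hD, hs, ?_⟩
  unfold Par.θ
  have hW : 1 ≤ P.s * 2 ^ P.D := Nat.one_le_iff_ne_zero.2
    (Nat.mul_ne_zero (by omega) (pow_ne_zero _ (by norm_num)))
  have e1 : P.δ1 * P.s * 2 ^ P.D = P.δ1 * (P.s * 2 ^ P.D) := by ring
  rw [e1] at h9
  generalize P.s * 2 ^ P.D = W at *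
  nlinarith [Nat.mul_le_mul h1 (le_refl W)]

theorem narrow_lift (hcg : S.cone_geo) (hci : S.cone_isom) (hsap : S.smul_ap) (hat : S.ang_tri)
    (hath : S.ang_thru) (hw : S.windmill) (hqa : S.qd_att) (hql : S.qd_le) (hqg : S.qd_geo) :
    S.narrow_lift := by
  intro G X _ _ d P F T M hG hF hT p q hp hq g ρ hρ h0 h1 h2 h3
  obtain ⟨hD, hs, hθ⟩ := a9_par P
  have geo : Geo (cd F P.D d P.s) := hcg hG.geo hG.isom hs hD
  have iso : Isom G (cd F P.D d P.s) := hci hG.geo hG.isom hs hD
  have qgeo : Geo (qd (Ker F) (cd F P.D d P.s)) := hqg hG hF hT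
  have qle : ∀ x y, qd (Ker F) (cd F P.D d P.s) x y ≤ cd F P.D d P.s x y := by
    intro x y
    have := hql hG hF hT x y 1 (one_mem _)
    rwa [one_smul] at this
  have sap : ∀ (g : G) (c : F.C), g • ap F P.D c = ap F P.D (g • c) := fun g c =>
    hsap hG.geo hG.isom hs hD g c
  have na : ∀ v : Cone F P.D, NA v → NA (g • v) := by
    intro v hv c h
    apply hv (g⁻¹ • c)
    rw [← sap, ← h, inv_smul_smul]
  obtain ⟨κ, hκ, hκe⟩ := hqa hG hF hT q (g • q)
  have h2' : cd F P.D d P.s q (κ • g • q) ≤ ρ := by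
    rw [hκe]; exact h2
  have W := hw hG hF hT (g • q) (na q hq) κ hκ
  -- contradictions
  have cpq : ∀ c, ¬ Thru (cd F P.D d P.s) (ap F P.D c) p q := by
    intro c hc
    have h4 := hc.1
    have h5 := h3 c (ap F P.D c) (by
      unfold Btw
      have e1 := qle p (ap F P.D c)
      have e2 := qle (ap F P.D c) q
      omega)
    rw [qgeo.self] at h5
    omega
  have cp : ∀ c, ¬ cd F P.D d P.s p (ap F P.D c) ≤ ρ := by
    intro c hc
    have h5 := h3 c p (by unfold Btw; rw [qgeo.self]; omega)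
    have e1 := qle p (ap F P.D c)
    omega
  have cq : ∀ c, ¬ cd F P.D d P.s q (ap F P.D c) ≤ ρ := by
    intro c hc
    have h5 := h3 c q (by unfold Btw; have := qgeo.self q; omega)
    have e1 := qle q (ap F P.D c)
    omega
  cases W with
  | one =>
    unfold Mv
    rwa [one_smul] at h2'
  | step _ r c hr hA hP =>
    exfalso
    have hθ' : 20 * P.θ + 1 ≤ T := le_trans hθ hT
    rcases hat hG hF hT c (g • q) (g • p) (κ • g • q) (T - 6 * P.θ) (P.θ + 1) (T - 7 * P.θ)
      (na p hp c) hA (by omega) with k1 | k1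
    · have t1 := hath hG hF hT c (g • q) (g • p) (P.θ + 1) (by omega) k1
      have t2 := t1.1
      have e1 : cd F P.D d P.s (g • q) (g • p) = cd F P.D d P.s q p := iso g q p
      have e2 : cd F P.D d P.s (g • q) (ap F P.D c) =
          cd F P.D d P.s q (ap F P.D (g⁻¹ • c)) := by
        rw [← sap, ← iso g q, smul_inv_smul]
      have e3 : cd F P.D d P.s (ap F P.D c) (g • p) =
          cd F P.D d P.s (ap F P.D (g⁻¹ • c)) p := by
        rw [← sap, ← iso g _ p, smul_inv_smul]
      rw [e1, e2, e3] at t2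
      have h5 := h3 (g⁻¹ • c) (ap F P.D (g⁻¹ • c)) (by
        unfold Btw
        have e4 := qle p (ap F P.D (g⁻¹ • c))
        have e5 := qle (ap F P.D (g⁻¹ • c)) q
        have e6 := geo.symm p (ap F P.D (g⁻¹ • c))
        have e7 := geo.symm (ap F P.D (g⁻¹ • c)) q
        have e8 := geo.symm p q
        omega)
      rw [qgeo.self] at h5
      omega
    · rcases hat hG hF hT c (g • p) p (κ • g • q) (T - 7 * P.θ) (P.θ + 1) (T - 8 * P.θ)
        (hp c) k1 (by omega) with k2 | k2
      · have t1 := (hath hG hF hT c (g • p) p (P.θ + 1) (by omega) k2).1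
        apply cp c
        have e1 := geo.symm p (ap F P.D c)
        have e2 := geo.symm p (g • p)
        have e3 : cd F P.D d P.s p (g • p) ≤ ρ := h1
        omega
      · rcases hat hG hF hT c p q (κ • g • q) (T - 8 * P.θ) (P.θ + 1) (T - 9 * P.θ)
          (hq c) k2 (by omega) with k3 | k3
        · exact cpq c (hath hG hF hT c p q (P.θ + 1) (by omega) k3)
        · have t1 := (hath hG hF hT c q (κ • g • q) (T - 9 * P.θ) (by omega) k3).1
          apply cq c
          omega

end Mon
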