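import Pool.Agent.Work.MP_6f5fa7_al.Mon.StTool
import Pool.Agent.Work.MP_6f5fa7_al.Mon.StCyc

set_option autoImplicit false

namespace Mon

namespace C6h13

theorem Ex_pos {a : ℕ} (h : 1 ≤ a) : 1 ≤ Ex a := by
  unfold Ex
  exact Nat.one_le_iff_ne_zero.mpr (Nat.mul_ne_zero (by omega) (by positivity))

theorem n_ge (P : Par) : 3 ≤ P.n := by
  have h1 := P.h1
  have h2 := P.hδ
  have h3 := P.hΛs
  have h4 := P.hΛ
  have h5 : 1 ≤ Ex (1000 * P.Λ) := Ex_pos (by omega)
  have h6 := P.hA0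
  have h7 := P.hD
  have h8 := P.hA
  have h9 := P.hs
  have h10 := P.hTT2
  have h11 : 1 ≤ P.δ1 * P.s * 2 ^ P.D :=
    Nat.one_le_iff_ne_zero.mpr (Nat.mul_ne_zero (Nat.mul_ne_zero (by omega) (by omega))
      (by positivity))
  have h12 := P.hM
  have h13 := P.hQ
  have hM : 1 ≤ P.M := by omega
  have hT2 : 1 ≤ P.TT2 := by omega
  have hMT : 1 ≤ P.M * P.TT2 := Nat.one_le_iff_ne_zero.mpr (Nat.mul_ne_zero (by omega) (by omega))
  have hQ : 1 ≤ P.Q := by
    have : 1000 * P.M * P.TT2 = 1000 * (P.M * P.TT2) := by ring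
    omega
  have h14 := P.hTT1
  have h15 : 1 ≤ P.TT2 * P.Q ^ (10 * P.N + 100) :=
    Nat.one_le_iff_ne_zero.mpr (Nat.mul_ne_zero (by omega) (by positivity))
  have hT1 : 1 ≤ P.TT1 := by
    have : 1000 * P.TT2 * P.Q ^ (10 * P.N + 100) = 1000 * (P.TT2 * P.Q ^ (10 * P.N + 100)) := by
      ring
    omega
  have h16 := P.hn
  have h17 : 1 ≤ P.M * P.TT1 := Nat.one_le_iff_ne_zero.mpr (Nat.mul_ne_zero (by omega) (by omega))
  have : 1000 * P.M * P.TT1 = 1000 * (P.M * P.TT1) := by ring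
  omega

end C6h13

theorem cyc_norm (hax : S.ax_near) (hub : S.t2_unbdd) (hbd : S.tors_of_bdd) (htf : S.cyc_tf)
    (hct : S.cyc_cent) (hqc : S.quasi_centre_tors) : S.cyc_norm := by
  intro G X _ _ d P M hG h hh g h1
  have hh' := hh
  obtain ⟨hn, x0, hx0⟩ := hh'
  have hi := hG.isom
  have hgeo := hG.geo
  set h' := g * h * g⁻¹ with hh'def
  have hΛ : P.Λs ≤ P.Λ := by have := P.hΛ; omega
  have hcomm : Commute h' h := h1
  have hnb : h ^ P.n ∉ (⊥ : Subgroup G) := by simpa using hn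
  have hT0 : Thick d h x0 P.A0 := hG.T3b h x0 hnb (le_trans hx0 hΛ)
  -- orbit points of h'
  have hnear : ∀ i : ℕ, ∃ j : ℤ, d (h' ^ i • x0) (h ^ j • x0) ≤
      2 * (P.A0 + P.A0 + P.Λs + 5 * P.δ) := by
    intro i
    have hmv : Mv d h (h' ^ i • x0) P.Λs := by
      unfold Mv
      have : h * h' ^ i = h' ^ i * h := ((hcomm.pow_left i).symm).eq
      rw [smul_smul, this, mul_smul, hi]
      exact hx0
    exact hax hgeo hi hG.hyp h x0 (h' ^ i • x0) P.A0 P.A0 P.Λs
      (fun B => hub P hG hn x0 B) (hG.T3b h _ hnb (le_trans hmv hΛ)) hT0 hx0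
  -- lengths
  have hlen : ∀ i : ℕ, d x0 (h' ^ i • x0) ≤ d x0 (h ^ i • x0) + 2 * d x0 (g⁻¹ • x0) ∧
      d x0 (h ^ i • x0) ≤ d x0 (h' ^ i • x0) + 2 * d x0 (g⁻¹ • x0) := by
    intro i
    have e1 : h' ^ i = g * h ^ i * g⁻¹ := by rw [hh'def, conj_pow]
    have e2 : d x0 (h' ^ i • x0) = d (g⁻¹ • x0) (h ^ i • (g⁻¹ • x0)) := by
      rw [e1, ← hi g⁻¹]
      congr 1
      simp [smul_smul, mul_assoc]
    have e3 : d (h ^ i • x0) (h ^ i • (g⁻¹ • x0)) = d x0 (g⁻¹ • x0) := hi _ _ _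
    have t1 := hgeo.tri (g⁻¹ • x0) x0 (h ^ i • (g⁻¹ • x0))
    have t2 := hgeo.tri x0 (h ^ i • x0) (h ^ i • (g⁻¹ • x0))
    have t3 := hgeo.tri x0 (g⁻¹ • x0) (h ^ i • x0)
    have t4 := hgeo.tri (g⁻¹ • x0) (h ^ i • (g⁻¹ • x0)) (h ^ i • x0)
    have s1 := hgeo.symm (g⁻¹ • x0) x0
    have s2 := hgeo.symm (h ^ i • (g⁻¹ • x0)) (h ^ i • x0)
    omega
  -- distances in the orbit of h
  have hdist : ∀ a b : ℕ, d (h ^ a • x0) (h ^ (a + b) • x0) = d x0 (h ^ b • x0) := by
    intro a b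
    rw [pow_add, mul_smul, hi]
  set B2 := 2 * (2 * (P.A0 + P.A0 + P.Λs + 5 * P.δ)) + 2 * d x0 (g⁻¹ • x0) + P.A0 with hB2
  have hmain : ∀ i : ℕ, d x0 ((h⁻¹ * h') ^ i • x0) ≤ B2 ∨ d x0 ((h * h') ^ i • x0) ≤ B2 := by
    intro i
    obtain ⟨j, hj⟩ := hnear i
    obtain ⟨l1, l2⟩ := hlen i
    have key : ∀ m : ℕ, d x0 (h ^ m • x0) ≤ d x0 (h ^ i • x0) +
        (2 * (P.A0 + P.A0 + P.Λs + 5 * P.δ) + 2 * d x0 (g⁻¹ • x0)) →
        d x0 (h ^ i • x0) ≤ d x0 (h ^ m • x0) +
        (2 * (P.A0 + P.A0 + P.Λs + 5 * P.δ) + 2 * d x0 (g⁻¹ • x0)) →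
        d (h ^ m • x0) (h ^ i • x0) ≤
          2 * (P.A0 + P.A0 + P.Λs + 5 * P.δ) + 2 * d x0 (g⁻¹ • x0) + P.A0 := by
      intro m k1 k2
      rcases le_total i m with hle | hle
      · obtain ⟨b, rfl⟩ := Nat.exists_eq_add_of_le hle
        have := hT0 i b
        have e := hdist i b
        have s := hgeo.symm (h ^ (i + b) • x0) (h ^ i • x0)
        omega
      · obtain ⟨b, rfl⟩ := Nat.exists_eq_add_of_le hle
        have := hT0 m b
        have e := hdist m b
        omega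
    rcases Int.eq_nat_or_neg j with ⟨m, rfl | rfl⟩
    · left
      rw [zpow_natCast] at hj
      have t1 := hgeo.tri x0 (h ^ m • x0) (h' ^ i • x0)
      have t2 := hgeo.tri x0 (h' ^ i • x0) (h ^ m • x0)
      have s1 := hgeo.symm (h ^ m • x0) (h' ^ i • x0)
      have k := key m (by omega) (by omega)
      have t3 := hgeo.tri (h ^ i • x0) (h ^ m • x0) (h' ^ i • x0)
      have s2 := hgeo.symm (h ^ i • x0) (h ^ m • x0)
      have e : (h⁻¹ * h') ^ i = (h ^ i)⁻¹ * h' ^ i := by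
        rw [(hcomm.symm.inv_left).mul_pow, inv_pow]
      have e2 : d x0 ((h⁻¹ * h') ^ i • x0) = d (h ^ i • x0) (h' ^ i • x0) := by
        rw [e, ← hi (h ^ i) x0]
        congr 1
        rw [smul_smul]; group
      omega
    · right
      have hj' : d (h' ^ i • x0) (h ^ (-(m : ℤ)) • x0) ≤ _ := hj
      have e0 : d x0 (h ^ (-(m : ℤ)) • x0) = d x0 (h ^ m • x0) := by
        rw [← hi (h ^ m) x0, smul_smul, zpow_neg, zpow_natCast, mul_inv_cancel, one_smul,
          hgeo.symm]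
      have t1 := hgeo.tri x0 (h ^ (-(m : ℤ)) • x0) (h' ^ i • x0)
      have t2 := hgeo.tri x0 (h' ^ i • x0) (h ^ (-(m : ℤ)) • x0)
      have s1 := hgeo.symm (h ^ (-(m : ℤ)) • x0) (h' ^ i • x0)
      have k := key m (by omega) (by omega)
      have k' : d (h ^ (-(m : ℤ)) • x0) (h ^ (-(i : ℤ)) • x0) = d (h ^ m • x0) (h ^ i • x0) := by
        rw [← hi (h ^ m * h ^ i) (h ^ (-(m : ℤ)) • x0), smul_smul, smul_smul]
        have e1 : h ^ m * h ^ i * h ^ (-(m : ℤ)) = h ^ i := by
          rw [← zpow_natCast, ← zpow_natCast, ← zpow_add, ← zpow_add]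
          congr 1; ring
        have e2 : h ^ m * h ^ i * h ^ (-(i : ℤ)) = h ^ m := by
          rw [← zpow_natCast, ← zpow_natCast, ← zpow_add, ← zpow_add]
          congr 1; ring
        rw [e1, e2, hgeo.symm]
      have t3 := hgeo.tri (h' ^ i • x0) (h ^ (-(m : ℤ)) • x0) (h ^ (-(i : ℤ)) • x0)
      have e : (h * h') ^ i = h ^ i * h' ^ i := hcomm.symm.mul_pow i
      have e2 : d x0 ((h * h') ^ i • x0) = d (h ^ (-(i : ℤ)) • x0) (h' ^ i • x0) := by
        rw [e, ← hi (h ^ i) (h ^ (-(i : ℤ)) • x0), smul_smul, smul_smul, zpow_neg, zpow_natCast,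
          mul_inv_cancel, one_smul]
      have s3 := hgeo.symm (h ^ (-(i : ℤ)) • x0) (h' ^ i • x0)
      omega
  by_cases hc : ∀ k : ℕ, ∃ i : ℕ, k ≤ i ∧ d x0 ((h⁻¹ * h') ^ i • x0) ≤ B2
  · have ht := hbd P hG x0 B2 hc
    have h2 : h⁻¹ * h' = 1 := by
      by_contra hne
      exact htf P hG hh (g := h⁻¹ * h') (by
        have := hcomm.eq
        calc h⁻¹ * h' * h = h⁻¹ * (h' * h) := by group
          _ = h⁻¹ * (h * h') := by rw [this]
          _ = h * (h⁻¹ * h') := by group) hne ht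
    have h3 : h' = h := by
      have := congrArg (fun z => h * z) h2
      simpa using this
    rw [hh'def] at h3
    have := congrArg (fun z => z * g) h3
    simpa using this
  · push Not at hc
    obtain ⟨k, hk⟩ := hc
    have ht := hbd P hG (g := h * h') x0 B2 (fun k' => ⟨max k k', le_max_right _ _, by
      rcases hmain (max k k') with h4 | h4
      · exact absurd h4 (not_le.mpr (hk _ (le_max_left _ _)))
      · exact h4⟩)
    have h2 : h * h' = 1 := by
      by_contra hne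
      exact htf P hG hh (g := h * h') (by
        have := hcomm.eq
        rw [mul_assoc, this, ← mul_assoc]) hne ht
    have h3 : h' = h⁻¹ := (eq_inv_of_mul_eq_one_right h2)
    have h4 : g ^ 2 * h = h * g ^ 2 := by
      have e1 : g * h * g⁻¹ = h⁻¹ := h3
      have e2 : g * h = h⁻¹ * g := by
        have := congrArg (fun z => z * g) e1
        simpa using this
      have e3 : g * h⁻¹ = h * g := by
        have := congrArg (fun z => z⁻¹) e1
        have e4 : g * h⁻¹ * g⁻¹ = h := by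
          simpa [mul_assoc] using this
        have := congrArg (fun z => z * g) e4
        simpa using this
      calc g ^ 2 * h = g * (g * h) := by rw [pow_two, mul_assoc]
        _ = g * h⁻¹ * g := by rw [e2, mul_assoc]
        _ = h * g ^ 2 := by rw [e3, pow_two, mul_assoc]
    by_cases h5 : g ^ 2 = 1
    · exfalso
      rcases hG.T2 g with h6 | h6
      · have h7 : g ^ P.n = 1 := by simpa using h6
        have hodd : Odd P.n := P.hprime.odd_of_ne_two (by have := C6h13.n_ge P; omega)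
        obtain ⟨k, hk⟩ := hodd
        have h8 : g = 1 := by
          rw [hk, pow_add, pow_mul, h5, one_pow, one_mul, pow_one] at h7
          exact h7
        have h9 : h' = h := by rw [hh'def, h8]; simp
        have h10 : h * h = 1 := by
          have := h2; rw [h9] at this; exact this
        have h11 : h ^ 2 = 1 := by rw [pow_two]; exact h10
        rcases hG.T2 h with h12 | h12
        · exact hnb h12
        · obtain ⟨z, hz⟩ := hqc hgeo hi hG.hyp h x0 2 (by norm_num) (fun y => by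
            rw [h11, one_smul]; exact hgeo.self y)
          have a1 := h12 z
          have a2 := hz (M : ℤ)
          rw [zpow_natCast] at a2
          have a3 := P.h1
          have a4 := P.hδ
          omega
      · obtain ⟨z, hz⟩ := hqc hgeo hi hG.hyp g x0 2 (by norm_num) (fun y => by
          rw [h5, one_smul]; exact hgeo.self y)
        have a1 := h6 z
        have a2 := hz (M : ℤ)
        rw [zpow_natCast] at a2
        have a3 := P.h1
        have a4 := P.hδ
        omega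
    · exact hct P hG hh (g := g ^ 2) (g' := g) h4 h5 (by rw [← pow_succ, ← pow_succ'])

end Mon
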