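import Pool.Agent.Work.MP_6f5fa7_al.Mon.StAct
import Pool.Agent.Work.MP_6f5fa7_al.Mon.StDesc

/-! Mon: item D5 (canoes in the quotient). -/
set_option autoImplicit false

namespace Mon

private theorem d5_theta_pos (P : Par) : 1 ≤ P.θ := by
  have h1 := P.h1
  have hδ := P.hδ
  have hΛs := P.hΛs
  have hΛ := P.hΛ
  have hA0 := P.hA0
  have hD := P.hD
  have hA := P.hA
  have hs := P.hs
  have hE : 1 ≤ Ex (1000 * P.Λ) := by
    unfold Ex
    exact Nat.one_le_iff_ne_zero.mpr (Nat.mul_ne_zero (by omega) (by positivity))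
  have hs1 : 1 ≤ P.s := by omega
  unfold Par.θ
  exact Nat.one_le_iff_ne_zero.mpr (Nat.mul_ne_zero (by omega)
    (Nat.mul_ne_zero (by omega) (by positivity)))

private theorem d5_ap_inj {G X : Type} [Group G] [MulAction G X] {F : Fam G X} {D : ℕ}
    {c c' : F.C} (h : ap F D c = ap F D c') : c = c' := by
  have h1 : (ap F D c).1 = (ap F D c').1 := congrArg Subtype.val h
  have h2 : (CV.apex c : CV X F.C) = CV.apex c' := h1
  injection h2

/-- symmetry of the angle -/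
private theorem d5_symm {G X : Type} [Group G] [MulAction G X] {F : Fam G X} {D : ℕ}
    {d : X → X → ℕ} {e : Cone F D → Cone F D → ℕ} (hg : Geo d) (hi : Isom G d) {c : F.C}
    {p q : Cone F D} {t : ℕ} (h : AngQ F D d e c p q t) : AngQ F D d e c q p t := by
  obtain ⟨y, hy, y', hy', h⟩ := h
  refine ⟨y', hy', y, hy, fun r hr => ?_⟩
  have h1 := h r⁻¹ ((F.R c).inv_mem hr)
  have h2 : d y' (r • y) = d y (r⁻¹ • y') := by
    rw [hg.symm, ← hi r⁻¹ (r • y) y', inv_smul_smul]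
  rw [h2]
  exact h1

/-- the one sided statement: exits, classes and the geodesics -/
private theorem d5_left (a1 : S.angQ_thru) (a2 : S.exitQ_thru) (a3 : S.exitQ_small)
    (a4 : S.exitQ_ne) (a5 : S.qd_ap) (a6 : S.qd_zero)
    {G X : Type} [Group G] [MulAction G X] {d : X → X → ℕ} {P : Par} {F : Fam G X} {T M : ℕ}
    (hG : P.St G d M) (hF : FamOK P d F T) (hT : P.TT2 ≤ T) (v : ℤ → F.C) (t : ℕ)
    (ht : 10 * P.θ ≤ t) (hne : ∀ i, ∀ κ ∈ Ker F, κ • v i ≠ v (i + 1))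
    (hang : ∀ i, AngQ F P.D d (qd (Ker F) (cd F P.D d P.s)) (v i) (ap F P.D (v (i - 1)))
      (ap F P.D (v (i + 1))) t) (i : ℤ) (m : ℕ) :
    Exi F P.D (qd (Ker F) (cd F P.D d P.s)) (v (i + m + 1)) (ap F P.D (v i)) ⊆
        Exi F P.D (qd (Ker F) (cd F P.D d P.s)) (v (i + m + 1)) (ap F P.D (v (i + m))) ∧
      (∀ κ ∈ Ker F, κ • v i ≠ v (i + m + 1)) ∧
      Thru (qd (Ker F) (cd F P.D d P.s)) (ap F P.D (v (i + m + 1))) (ap F P.D (v i))
        (ap F P.D (v (i + m + 1 + 1))) := by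
  have hθ := d5_theta_pos P
  -- the last part follows from the first two
  have key : ∀ j : ℤ, Exi F P.D (qd (Ker F) (cd F P.D d P.s)) (v j) (ap F P.D (v i)) ⊆
        Exi F P.D (qd (Ker F) (cd F P.D d P.s)) (v j) (ap F P.D (v (j - 1))) →
      (∀ κ ∈ Ker F, κ • v i ≠ v j) →
      Thru (qd (Ker F) (cd F P.D d P.s)) (ap F P.D (v j)) (ap F P.D (v i))
        (ap F P.D (v (j + 1))) := by
    intro j h1 h2
    apply a1 hG hF hT (v j) (ap F P.D (v i)) (ap F P.D (v (j + 1))) (t - 2 * P.θ) (by omega)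
    obtain ⟨y, hy⟩ := a4 hG hF hT (v j) (ap F P.D (v i)) (by
      intro κ hκ h
      have h' : ap F P.D (v i) = ap F P.D (κ • v j) := h
      have h3 := d5_ap_inj h'
      refine h2 κ⁻¹ ((Ker F).inv_mem hκ) ?_
      rw [h3, inv_smul_smul])
    obtain ⟨y1, hy1, y2, hy2, h12⟩ := hang j
    obtain ⟨r, hr, hr1⟩ := a3 hG hF hT (v j) (ap F P.D (v (j - 1))) y1 y hy1 (h1 hy)
    refine ⟨y, hy, y2, hy2, fun r' hr' => ?_⟩
    have h3 := h12 (r * r') ((F.R (v j)).mul_mem hr hr')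
    have h4 := hG.geo.tri y1 (r • y) ((r * r') • y2)
    have h5 : d (r • y) ((r * r') • y2) = d y (r' • y2) := by
      rw [mul_smul, hG.isom]
    omega
  induction m with
  | zero =>
    have e1 : i + ((0 : ℕ) : ℤ) = i := by simp
    rw [e1]
    refine ⟨fun x hx => hx, hne i, ?_⟩
    apply key (i + 1)
    · have e2 : i + 1 - 1 = i := by ring
      rw [e2]
    · exact hne i
  | succ m ih =>
    obtain ⟨ih1, ih2, ih3⟩ := ih
    have e1 : i + ((m + 1 : ℕ) : ℤ) = i + m + 1 := by push_cast; ring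
    rw [e1]
    have b1 : Exi F P.D (qd (Ker F) (cd F P.D d P.s)) (v (i + m + 1 + 1)) (ap F P.D (v i)) ⊆
        Exi F P.D (qd (Ker F) (cd F P.D d P.s)) (v (i + m + 1 + 1))
          (ap F P.D (v (i + m + 1))) :=
      a2 hG hF hT (v (i + m + 1 + 1)) (v (i + m + 1)) (ap F P.D (v i)) (hne _) ih3
    have b2 : ∀ κ ∈ Ker F, κ • v i ≠ v (i + m + 1 + 1) := by
      intro κ hκ h
      have c1 := a6 hG hF hT κ hκ (ap F P.D (v i))
      have c2 : κ • ap F P.D (v i) = ap F P.D (v (i + m + 1 + 1)) := by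
        rw [← h]
        rfl
      rw [c2] at c1
      have c3 := ih3.1
      have c4 := a5 hG hF hT (v i) (v (i + m + 1)) ih2
      omega
    refine ⟨b1, b2, ?_⟩
    apply key (i + m + 1 + 1)
    · have e2 : i + m + 1 + 1 - 1 = i + m + 1 := by ring
      rw [e2]
      exact b1
    · exact b2

theorem canoeQ (a1 : S.angQ_thru) (a2 : S.exitQ_thru) (a3 : S.exitQ_small)
    (a4 : S.exitQ_ne) (a5 : S.qd_ap) (a6 : S.qd_zero) : S.canoeQ := by
  intro G X _ _ d P F T M hG hF hT v t ht hne hang i j l hij hjl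
  -- left side
  obtain ⟨m, hm⟩ : ∃ m : ℕ, j = i + m + 1 := ⟨(j - i - 1).toNat, by omega⟩
  obtain ⟨L1, L2, -⟩ := d5_left a1 a2 a3 a4 a5 a6 hG hF hT v t ht hne hang i m
  -- right side: the reversed sequence
  obtain ⟨k, hk⟩ : ∃ k : ℕ, l = j + k + 1 := ⟨(l - j - 1).toNat, by omega⟩
  obtain ⟨R1, R2, -⟩ := d5_left a1 a2 a3 a4 a5 a6 hG hF hT (fun x => v (-x)) t ht
    (by
      intro x κ hκ h
      have h0 : κ • v (-x) = v (-(x + 1)) := h
      have h1 := hne (-(x + 1)) κ⁻¹ ((Ker F).inv_mem hκ)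
      apply h1
      rw [← h0, inv_smul_smul]
      congr 1
      ring)
    (by
      intro x
      have h1 := hang (-x)
      have e1 : -x - 1 = -(x + 1) := by ring
      have e2 : -x + 1 = -(x - 1) := by ring
      rw [e1, e2] at h1
      exact d5_symm hG.geo hG.isom h1) (-l) k
  have e3 : (-l) + (k : ℤ) + 1 = -j := by rw [hk]; ring
  have e4 : (-l) + (k : ℤ) = -(j + 1) := by rw [hk]; ring
  rw [e3, e4] at R1
  rw [e3] at R2
  rw [neg_neg, neg_neg, neg_neg] at R1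
  rw [neg_neg, neg_neg] at R2
  have e5 : i + (m : ℤ) = j - 1 := by rw [hm]; ring
  rw [← hm, e5] at L1
  rw [← hm] at L2
  obtain ⟨y, hy⟩ := a4 hG hF hT (v j) (ap F P.D (v i)) (by
    intro κ hκ h
    have h' : ap F P.D (v i) = ap F P.D (κ • v j) := h
    have h3 := d5_ap_inj h'
    refine L2 κ⁻¹ ((Ker F).inv_mem hκ) ?_
    rw [h3, inv_smul_smul])
  obtain ⟨y', hy'⟩ := a4 hG hF hT (v j) (ap F P.D (v l)) (by
    intro κ hκ h
    have h' : ap F P.D (v l) = ap F P.D (κ • v j) := h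
    have h3 := d5_ap_inj h'
    refine R2 κ⁻¹ ((Ker F).inv_mem hκ) ?_
    rw [h3, inv_smul_smul])
  obtain ⟨y1, hy1, y2, hy2, h12⟩ := hang j
  obtain ⟨r, hr, hr1⟩ := a3 hG hF hT (v j) (ap F P.D (v (j - 1))) y1 y hy1 (L1 hy)
  obtain ⟨r2, hr2, hr21⟩ := a3 hG hF hT (v j) (ap F P.D (v (j + 1))) y2 y' hy2 (R1 hy')
  refine ⟨y, hy, y', hy', fun r' hr' => ?_⟩
  have h3 := h12 (r * r' * r2⁻¹)
    ((F.R (v j)).mul_mem ((F.R (v j)).mul_mem hr hr') ((F.R (v j)).inv_mem hr2))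
  have h4 := hG.geo.tri y1 (r • y) ((r * r' * r2⁻¹) • y2)
  have h5 := hG.geo.tri (r • y) ((r * r') • y') ((r * r' * r2⁻¹) • y2)
  have h6 : d (r • y) ((r * r') • y') = d y (r' • y') := by
    rw [mul_smul, hG.isom]
  have h7 : d ((r * r') • y') ((r * r' * r2⁻¹) • y2) = d y2 (r2 • y') := by
    rw [mul_smul (r * r') r2⁻¹, hG.isom, hG.geo.symm, ← hG.isom r2 (r2⁻¹ • y2) y',
      smul_inv_smul]
  omega

theorem canoe_len (a1 : S.angQ_thru) (a2 : S.exitQ_thru) (a3 : S.exitQ_small)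
    (a4 : S.exitQ_ne) (a5 : S.qd_ap) (a6 : S.qd_zero) : S.canoe_len := by
  intro G X _ _ d P F T M hG hF hT v t ht hne hang i m
  induction m with
  | zero => exact Nat.zero_le _
  | succ m ih =>
    rcases Nat.eq_zero_or_pos m with hm | hm
    · subst hm
      have e1 : i + ((0 + 1 : ℕ) : ℤ) = i + 1 := by simp
      rw [e1]
      have := a5 hG hF hT (v i) (v (i + 1)) (hne i)
      omega
    · obtain ⟨m', rfl⟩ : ∃ m', m = m' + 1 := ⟨m - 1, by omega⟩
      obtain ⟨-, -, h3⟩ := d5_left a1 a2 a3 a4 a5 a6 hG hF hT v t ht hne hang i m'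
      have e1 : i + ((m' + 1 + 1 : ℕ) : ℤ) = i + m' + 1 + 1 := by push_cast; ring
      have e2 : i + ((m' + 1 : ℕ) : ℤ) = i + m' + 1 := by push_cast; ring
      rw [e1]
      rw [e2] at ih
      have h4 := a5 hG hF hT (v (i + m' + 1)) (v (i + m' + 1 + 1)) (hne _)
      have h5 := h3.1
      omega

end Mon
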