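import Pool.Agent.Work.MP_6f5fa7_al.Mon.StTool
import Pool.Agent.Work.MP_6f5fa7_al.Mon.StCone
import Pool.Agent.Work.MP_6f5fa7_al.Mon.StHyp

/-! Mon: item H4 (`LL_slim`: the guessed sets are slim). -/
set_option autoImplicit false

namespace Mon

private theorem H4_num (P : Par) : 1 ≤ P.δ ∧ 1000000 * P.δ ≤ P.A ∧ 1000000 * P.A ≤ P.s ∧
    1 ≤ P.D := by
  have hΛ := P.hΛ
  have hΛs := P.hΛs
  have hA0 := P.hA0
  have hEx : 1000 * P.Λ ≤ Ex (1000 * P.Λ) := by
    unfold Ex
    exact Nat.le_mul_of_pos_right _ (Nat.pow_pos (by omega))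
  have hDD := P.hD
  have hA := P.hA
  have hs := P.hs
  have hδ := P.hδ
  have hδ1 := P.h1
  omega

section
variable {G X : Type} [Group G] [MulAction G X] {d : X → X → ℕ} {F : Fam G X} {s D A : ℕ}

private theorem H4_sh (c : F.C) (p : Cone F D) (h : 1 ≤ lev F D c p) : sh F D p ∈ F.Y c := by
  obtain ⟨p, hp⟩ := p
  cases p with
  | base x =>
    have h : 1 ≤ levr F D c (.base x) := h
    simp [levr] at h
  | cone c' y k =>
    have h : 1 ≤ levr F D c (.cone c' y k) := h
    unfold levr at h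
    by_cases hc : c' = c
    · subst hc
      exact hp.1
    · simp only [hc, if_false] at h
      omega
  | apex c' =>
    have h : 1 ≤ levr F D c (.apex c') := h
    unfold levr at h
    by_cases hc : c' = c
    · subst hc
      exact (F.Y_ne c').choose_spec
    · simp only [hc, if_false] at h
      omega

private theorem H4_levD (c : F.C) (p : Cone F D) : lev F D c p ≤ D + 1 := by
  obtain ⟨p, hp⟩ := p
  cases p with
  | base x => show levr F D c (.base x) ≤ D + 1; simp [levr]
  | cone c' y k =>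
    show levr F D c (.cone c' y k) ≤ D + 1
    simp only [levr]
    have := hp.2.2
    split_ifs <;> omega
  | apex c' =>
    show levr F D c (.apex c') ≤ D + 1
    simp only [levr]
    split_ifs <;> omega

private theorem H4_vt0 (c : F.C) (y : F.Y c) : vt F D c y 0 = bs F D y.1 := dif_pos rfl

private theorem H4_lam_le (c : F.C) (p q : Cone F D) : lam F D d s c p q ≤ D + 1 :=
  Nat.sInf_le (Or.inr rfl)

private theorem H4_lam_le' (c : F.C) (p q : Cone F D) (k : ℕ)
    (h : d (prc F D d c p).1 (prc F D d c q).1 ≤ s * 2 ^ k) : lam F D d s c p q ≤ k :=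
  Nat.sInf_le (Or.inl h)

private theorem H4_lam_spec (c : F.C) (p q : Cone F D) :
    d (prc F D d c p).1 (prc F D d c q).1 ≤ s * 2 ^ (lam F D d s c p q) ∨
      lam F D d s c p q = D + 1 := by
  have hne : {k | d (prc F D d c p).1 (prc F D d c q).1 ≤ s * 2 ^ k ∨ k = D + 1}.Nonempty :=
    ⟨D + 1, Or.inr rfl⟩
  exact Nat.sInf_mem hne

private theorem H4_lam_symm (hg : Geo d) (c : F.C) (p q : Cone F D) :
    lam F D d s c p q = lam F D d s c q p := by
  unfold lam
  simp only [hg.symm (prc F D d c p).1 (prc F D d c q).1]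

private theorem H4_KK_symm (hg : Geo d) (c : F.C) (p q : Cone F D) :
    KK F D d s c p q = KK F D d s c q p := by
  unfold KK
  rw [H4_lam_symm hg, max_comm (lev F D c p)]

private theorem H4_ActC_symm (hg : Geo d) (c : F.C) (p q : Cone F D)
    (h : ActC F D d s c p q) : ActC F D d s c q p := by
  rcases h with h | h | h
  · exact Or.inr (Or.inl h)
  · exact Or.inl h
  · right; right
    rwa [hg.symm]

private theorem H4_Deep_symm (c : F.C) (w : X) (p q : Cone F D)
    (h : Deep F D d s A c w p q) : Deep F D d s A c w q p :=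
  ⟨h.1, h.2.2, h.2.1⟩

private theorem H4_LL_symm (hg : Geo d) (p q v : Cone F D)
    (h : v ∈ LL F D d s A p q) : v ∈ LL F D d s A q p := by
  rcases h with ⟨w, h1, h2, h3⟩ | ⟨c, h1, h2⟩
  · refine Or.inl ⟨w, h1, ?_, fun c hc => h3 c (H4_Deep_symm c w q p hc)⟩
    have h2 : d (sh F D p) w + d w (sh F D q) ≤ d (sh F D p) (sh F D q) + 10 * A := h2
    show d (sh F D q) w + d w (sh F D p) ≤ d (sh F D q) (sh F D p) + 10 * A
    rw [hg.symm (sh F D q) w, hg.symm w (sh F D p), hg.symm (sh F D q) (sh F D p)]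
    omega
  · refine Or.inr ⟨c, H4_ActC_symm hg c p q h1, ?_⟩
    rw [H4_KK_symm hg c q p]
    exact h2.symm

/-- members of the rays are in the guessed sets -/
private theorem H4_ray_mem (c : F.C) (p q : Cone F D) (j : ℕ) (h : ActC F D d s c p q)
    (h1 : lev F D c p ≤ j) (h2 : j ≤ KK F D d s c p q) :
    vt F D c (prc F D d c p) j ∈ LL F D d s A p q :=
  Or.inr ⟨c, h, Or.inl ⟨j, h1, h2, rfl⟩⟩

private theorem H4_inact (c : F.C) (p q : Cone F D) (h : ¬ ActC F D d s c p q) :
    lev F D c p = 0 ∧ lev F D c q = 0 ∧ d (prc F D d c p).1 (prc F D d c q).1 ≤ 20 * s := by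
  unfold ActC at h
  omega

private theorem H4_inact_KK (c : F.C) (p q : Cone F D) (h : ¬ ActC F D d s c p q) :
    KK F D d s c p q ≤ 5 := by
  obtain ⟨h1, h2, h3⟩ := H4_inact c p q h
  have := H4_lam_le' (d := d) (s := s) c p q 5 (by
    have e : (2 : ℕ) ^ 5 = 32 := by norm_num
    rw [e]; omega)
  unfold KK
  omega

end

section
variable {G X : Type} [Group G] [MulAction G X] {d : X → X → ℕ} {P : Par} {F : Fam G X}
  {T M : ℕ}

/-- a point which is between `x` and `y` and near `Y c`, far from the projections of `x` and `y`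
(unless these points are in `Y c`), is very near `Y c` -/
private theorem H4_near (hsplit : S.btw_split) (hproj : S.btw_proj) (hpb : S.pr_btw)
    (hself : S.pr_self) (hG : P.St G d M) (hF : FamOK P d F T) (c : F.C) (x y u y0 : X)
    (h : Btw d x u y (10 * P.A)) (hy0 : y0 ∈ F.Y c) (h0 : d u y0 ≤ 80 * P.A)
    (hx : x ∈ F.Y c ∨ 20 * P.s < d u (pr F d c x).1)
    (hy : y ∈ F.Y c ∨ 20 * P.s < d u (pr F d c y).1) :
    ∃ y' ∈ F.Y c, d u y' ≤ 50 * P.A := by
  obtain ⟨n1, n2, n3, n4⟩ := H4_num P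
  have hg := hG.geo
  have hh := hG.hyp
  set a := (pr F d c x).1 with ha
  set b := (pr F d c y).1 with hb
  have haY : a ∈ F.Y c := (pr F d c x).2
  have hbY : b ∈ F.Y c := (pr F d c y).2
  have e1 : Btw d a u y (10 * P.A + P.δ) := by
    rcases hx with hx | hx
    · have e : a = x := hself hG hF c x hx
      rw [e]
      unfold Btw at h ⊢
      omega
    · rcases hsplit hg hh h a with h1 | h1
      · exfalso
        have h2 := hpb hG hF c x y0 hy0
        unfold Btw at h1 h2
        have h3 := hg.tri x u y0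
        rw [← ha] at h2
        rw [hg.symm u a] at *
        have h4 := hg.symm u a
        have h5 := hg.symm a u
        omega
      · exact h1
  have e2 : Btw d a u b (10 * P.A + 2 * P.δ) := by
    rcases hy with hy | hy
    · have e : b = y := hself hG hF c y hy
      rw [e]
      unfold Btw at e1 ⊢
      omega
    · rcases hsplit hg hh e1 b with h1 | h1
      · unfold Btw at h1 ⊢
        omega
      · exfalso
        have h2 := hpb hG hF c y y0 hy0
        unfold Btw at h1 h2
        rw [← hb] at h2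
        have h3 := hg.tri y u y0
        have h4 := hg.symm u b
        have h5 := hg.symm y u
        have h6 := hg.symm y b
        omega
  obtain ⟨m, hm, hum⟩ := hproj hg hh e2
  obtain ⟨z, hz, hmz⟩ := hF.qc c a b m haY hbY hm
  refine ⟨z, hz, ?_⟩
  have := hg.tri u m z
  omega

/-- deep points exist only for active `c` -/
private theorem H4_act (hmid : S.pr_mid) (hG : P.St G d M) (hF : FamOK P d F T) (c : F.C)
    (u : X) (p r : Cone F P.D) (h : Btw d (sh F P.D p) u (sh F P.D r) 0)
    (hd : Deep F P.D d P.s P.A c u p r) : ActC F P.D d P.s c p r := by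
  obtain ⟨n1, n2, n3, n4⟩ := H4_num P
  have hg := hG.geo
  obtain ⟨⟨y0, hy0, h0⟩, h1, h2⟩ := hd
  by_cases hp : 1 ≤ lev F P.D c p
  · exact Or.inl hp
  by_cases hr : 1 ≤ lev F P.D c r
  · exact Or.inr (Or.inl hr)
  right; right
  have h1 : 20 * P.s < d u (prc F P.D d c p).1 := by
    rcases h1 with h1 | h1
    · exact absurd h1 hp
    · exact h1
  have h2 : 20 * P.s < d u (prc F P.D d c r).1 := by
    rcases h2 with h2 | h2
    · exact absurd h2 hr
    · exact h2
  have h3 := hmid hG hF c _ _ u y0 0 (50 * P.A) h hy0 h0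
  have h3 : d (prc F P.D d c p).1 y0 + d y0 (prc F P.D d c r).1 ≤
    d (prc F P.D d c p).1 (prc F P.D d c r).1 + (0 + 6 * P.A + 2 * (50 * P.A)) := h3
  have h4 := hg.tri u y0 (prc F P.D d c p).1
  have h5 := hg.tri u y0 (prc F P.D d c r).1
  have h6 := hg.symm y0 (prc F P.D d c p).1
  omega

/-- the projection of `x` to `Y c` is not deep in another `Y c'` -/
private theorem H4_ndeep (hsplit : S.btw_split) (hproj : S.btw_proj) (hquad : S.btw_quad)
    (hpb : S.pr_btw) (hpb2 : S.pr_btw2)
    (hself : S.pr_self) (hG : P.St G d M) (hF : FamOK P d F T) (c c' : F.C) (hc : c ≠ c')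
    (x y a' : X) (hab : 20 * P.s < d (pr F d c x).1 (pr F d c y).1)
    (ha' : a' ∈ F.Y c') (haa : d (pr F d c x).1 a' ≤ 50 * P.A)
    (hy : y ∈ F.Y c' ∨ 20 * P.s < d (pr F d c x).1 (pr F d c' y).1) : False := by
  obtain ⟨n1, n2, n3, n4⟩ := H4_num P
  have hg := hG.geo
  have hh := hG.hyp
  have e1 := hpb2 hG hF c x y (by omega)
  set a := (pr F d c x).1 with ha
  set b := (pr F d c y).1 with hb
  set b' := (pr F d c' y).1 with hb'
  have haY : a ∈ F.Y c := (pr F d c x).2
  have hbY : b ∈ F.Y c := (pr F d c y).2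
  have hbY' : b' ∈ F.Y c' := (pr F d c' y).2
  have t1 := hg.tri x a y
  -- `b` is between `a` and `y`
  have e2 : d a b + d b y ≤ d a y + 7 * P.A := by omega
  have e3 : 19 * P.s < d a y := by omega
  have e4 : 19 * P.s < d a b' := by
    rcases hy with hy | hy
    · have e : b' = y := hself hG hF c' y hy
      rw [e]; exact e3
    · omega
  have e5 := hpb hG hF c' y a' ha'
  rw [← hb'] at e5
  have e5 : d y b' + d b' a' ≤ d y a' + 3 * P.A := e5
  obtain ⟨m, hm1, hm2⟩ := hg.geo a y P.s (by omega)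
  have hm : Btw d a m y 0 := by unfold Btw; omega
  have t2 := hg.symm a m
  -- `m` is near `Y c`
  have f1 : ∃ t ∈ F.Y c, d m t ≤ 2 * P.A := by
    rcases hsplit hg hh hm b with h1 | h1
    · obtain ⟨m1, h2, h3⟩ := hproj hg hh h1
      obtain ⟨t, ht, h4⟩ := hF.qc c a b m1 haY hbY h2
      refine ⟨t, ht, ?_⟩
      have := hg.tri m m1 t
      omega
    · exfalso
      unfold Btw at h1
      omega
  -- `m` is near `Y c'`
  have f2 : ∃ t ∈ F.Y c', d m t ≤ 2 * P.A := by
    have g1 : Btw d a' m y (0 + 2 * P.δ) := by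
      refine hquad hg hh (x' := a) (y' := y) (R := 50 * P.A) hm ?_ ?_ ?_ ?_
      · rw [hg.symm]; exact haa
      · rw [hg.self]; omega
      · omega
      · omega
    rcases hsplit hg hh g1 b' with h1 | h1
    · obtain ⟨m1, h2, h3⟩ := hproj hg hh h1
      obtain ⟨t, ht, h4⟩ := hF.qc c' a' b' m1 ha' hbY' h2
      refine ⟨t, ht, ?_⟩
      have := hg.tri m m1 t
      omega
    · exfalso
      unfold Btw at h1
      have g2 := hg.tri y m a'
      have g3 := hg.tri m a a'
      have g4 := hg.tri a a' b'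
      have g5 := hg.symm y m
      have g6 := hg.symm y b'
      have g7 := hg.symm a' b'
      omega
  obtain ⟨t, ht, h1⟩ := f1
  obtain ⟨t', ht', h2⟩ := f2
  have h3 := hF.ov c c' a t a' t' hc haY ht ha' ht' (by omega) (by
    have := hg.tri t m t'
    have h4 := hg.symm t m
    omega)
  have h5 := hg.tri a t m
  have h6 := hg.symm t m
  omega

/-- base points, when the point is also between `sh p` and `sh r` -/
private theorem H4_base (hsplit : S.btw_split) (hproj : S.btw_proj)
    (hcg : S.cone_geo) (hcb : S.cd_bs) (hmid : S.pr_mid)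
    (hpb : S.pr_btw) (hself : S.pr_self) (hG : P.St G d M) (hF : FamOK P d F T)
    (p q r : Cone F P.D) (u : X)
    (hu : Btw d (sh F P.D p) u (sh F P.D q) (10 * P.A))
    (hnd : ∀ c, ¬ Deep F P.D d P.s P.A c u p q)
    (hur : Btw d (sh F P.D p) u (sh F P.D r) (10 * P.A + P.δ)) :
    ∃ w, (w ∈ LL F P.D d P.s P.A p r ∨ w ∈ LL F P.D d P.s P.A r q) ∧
      cd F P.D d P.s (bs F P.D u) w ≤ 100 := by
  obtain ⟨n1, n2, n3, n4⟩ := H4_num P
  have hg := hG.geo
  have hi := hG.isom
  have hh := hG.hyp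
  have hs1 : 1 ≤ P.s := by omega
  have hgc := hcg (F := F) hg hi hs1 n4
  have bsd : ∀ x x' : X, d x x' ≤ 20 * P.s →
      cd F P.D d P.s (bs F P.D x) (bs F P.D x') ≤ 21 := by
    intro x x' hx
    have h11 := hcb (F := F) hg hi hs1 n4 x x'
    have h12 : d x x' / P.s ≤ 20 := Nat.div_le_of_le_mul (by rw [Nat.mul_comm]; exact hx)
    omega
  obtain ⟨u', hu', huu⟩ := hproj hg hh hur
  by_cases hD : ∀ c, ¬ Deep F P.D d P.s P.A c u' p r
  · refine ⟨bs F P.D u', Or.inl (Or.inl ⟨u', rfl, ?_, hD⟩), ?_⟩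
    · unfold Btw at hu' ⊢; omega
    · have := bsd u u' (by omega)
      omega
  push Not at hD
  obtain ⟨c, hc⟩ := hD
  have hact := H4_act hmid hG hF c u' p r hu' hc
  obtain ⟨⟨y0, hy0, h0⟩, h1, h2⟩ := hc
  by_cases N2 : lev F P.D c p = 0 ∧ d u (prc F P.D d c p).1 ≤ 20 * P.s
  · refine ⟨vt F P.D c (prc F P.D d c p) 0, Or.inl (H4_ray_mem c p r 0 hact (by omega)
      (Nat.zero_le _)), ?_⟩
    rw [H4_vt0]
    have := bsd _ _ N2.2
    omega
  by_cases N3 : lev F P.D c q = 0 ∧ d u (prc F P.D d c q).1 ≤ 20 * P.s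
  · by_cases hrq : ActC F P.D d P.s c r q
    · refine ⟨vt F P.D c (prc F P.D d c q) 0, Or.inr (H4_LL_symm hg _ _ _
        (H4_ray_mem c q r 0 (H4_ActC_symm hg c r q hrq) (by omega) (Nat.zero_le _))), ?_⟩
      rw [H4_vt0]
      have := bsd _ _ N3.2
      omega
    · obtain ⟨k1, k2, k3⟩ := H4_inact c r q hrq
      refine ⟨vt F P.D c (prc F P.D d c r) 0, Or.inl (H4_LL_symm hg _ _ _
        (H4_ray_mem c r p 0 (H4_ActC_symm hg c p r hact) (by omega) (Nat.zero_le _))), ?_⟩
      rw [H4_vt0]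
      have e1 := bsd _ _ N3.2
      have e2 := bsd (prc F P.D d c q).1 (prc F P.D d c r).1 (by rw [hg.symm]; exact k3)
      have e3 := hgc.tri (bs F P.D u) (bs F P.D (prc F P.D d c q).1)
        (bs F P.D (prc F P.D d c r).1)
      omega
  exfalso
  have hP : 1 ≤ lev F P.D c p ∨ 20 * P.s < d u (prc F P.D d c p).1 := by omega
  have hQ : 1 ≤ lev F P.D c q ∨ 20 * P.s < d u (prc F P.D d c q).1 := by omega
  apply hnd c
  refine ⟨?_, hP, hQ⟩
  refine H4_near hsplit hproj hpb hself hG hF c (sh F P.D p) (sh F P.D q) u y0 hu hy0 ?_ ?_ ?_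
  · have := hg.tri u u' y0
    omega
  · rcases hP with h | h
    · exact Or.inl (H4_sh c p h)
    · exact Or.inr h
  · rcases hQ with h | h
    · exact Or.inl (H4_sh c q h)
    · exact Or.inr h

/-- base points -/
private theorem H4_base' (hsplit : S.btw_split) (hproj : S.btw_proj)
    (hcg : S.cone_geo) (hcb : S.cd_bs) (hmid : S.pr_mid)
    (hpb : S.pr_btw) (hself : S.pr_self) (hG : P.St G d M) (hF : FamOK P d F T)
    (p q r : Cone F P.D) (u : X)
    (hu : Btw d (sh F P.D p) u (sh F P.D q) (10 * P.A))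
    (hnd : ∀ c, ¬ Deep F P.D d P.s P.A c u p q) :
    ∃ w, (w ∈ LL F P.D d P.s P.A p r ∨ w ∈ LL F P.D d P.s P.A r q) ∧
      cd F P.D d P.s (bs F P.D u) w ≤ 100 := by
  have hg := hG.geo
  have hh := hG.hyp
  rcases hsplit hg hh hu (sh F P.D r) with h | h
  · exact H4_base hsplit hproj hcg hcb hmid hpb hself hG hF p q r u hu hnd h
  · have hu2 : Btw d (sh F P.D q) u (sh F P.D p) (10 * P.A) := by
      unfold Btw at hu ⊢
      have e1 := hg.symm (sh F P.D q) u
      have e2 := hg.symm u (sh F P.D p)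
      have e3 := hg.symm (sh F P.D q) (sh F P.D p)
      omega
    have h2 : Btw d (sh F P.D q) u (sh F P.D r) (10 * P.A + P.δ) := by
      unfold Btw at h ⊢
      have e1 := hg.symm (sh F P.D q) u
      have e2 := hg.symm u (sh F P.D r)
      have e3 := hg.symm (sh F P.D q) (sh F P.D r)
      omega
    obtain ⟨w, hw, hd⟩ := H4_base hsplit hproj hcg hcb hmid hpb hself hG hF q p r u hu2
      (fun c hc => hnd c (H4_Deep_symm c u q p hc)) h2
    refine ⟨w, ?_, hd⟩
    rcases hw with hw | hw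
    · exact Or.inr (H4_LL_symm hg _ _ _ hw)
    · exact Or.inl (H4_LL_symm hg _ _ _ hw)

/-- points on the ray over the projection of `p` -/
private theorem H4_ray (hsplit : S.btw_split) (hproj : S.btw_proj) (hquad : S.btw_quad)
    (hcg : S.cone_geo) (hcb : S.cd_bs) (hcv : S.cd_vt_vt) (hch : S.cd_hor) (hmid : S.pr_mid)
    (hpb : S.pr_btw) (hpb2 : S.pr_btw2) (hself : S.pr_self) (hG : P.St G d M)
    (hF : FamOK P d F T) (p q r : Cone F P.D) (c : F.C) (hact : ActC F P.D d P.s c p q)
    (j : ℕ) (hj1 : lev F P.D c p ≤ j) (hj2 : j ≤ KK F P.D d P.s c p q) :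
    ∃ w, (w ∈ LL F P.D d P.s P.A p r ∨ w ∈ LL F P.D d P.s P.A r q) ∧
      cd F P.D d P.s (vt F P.D c (prc F P.D d c p) j) w ≤ 1000 := by
  obtain ⟨n1, n2, n3, n4⟩ := H4_num P
  have hg := hG.geo
  have hi := hG.isom
  have hh := hG.hyp
  have hs1 : 1 ≤ P.s := by omega
  have hgc := hcg (F := F) hg hi hs1 n4
  have bsd : ∀ x x' : X, d x x' ≤ 20 * P.s →
      cd F P.D d P.s (bs F P.D x) (bs F P.D x') ≤ 21 := by
    intro x x' hx
    have h11 := hcb (F := F) hg hi hs1 n4 x x'
    have h12 : d x x' / P.s ≤ 20 := Nat.div_le_of_le_mul (by rw [Nat.mul_comm]; exact hx)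
    omega
  have vv : ∀ (y : F.Y c) (k k' : ℕ), k ≤ k' →
      cd F P.D d P.s (vt F P.D c y k') (vt F P.D c y k) ≤ k' - k := by
    intro y k k' hk
    rw [hgc.symm]
    exact hcv hg hi hs1 n4 c y k k' hk
  set K' := KK F P.D d P.s c p r with hK'
  set K'' := KK F P.D d P.s c r q with hK''
  have l1 := H4_levD c p
  have l2 := H4_levD c q
  have l3 := H4_levD c r
  have hKp : lev F P.D c p ≤ K' ∧ lev F P.D c r ≤ K' ∧ lam F P.D d P.s c p r ≤ K' := by
    rw [hK']; unfold KK; omega
  -- case B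
  have caseB : K' + 2 ≤ j → j ≤ K'' + 1 ∧
      d (prc F P.D d c p).1 (prc F P.D d c r).1 ≤ P.s * 2 ^ (j - 1) := by
    intro hB
    have m1 := H4_lam_le (d := d) (s := P.s) c p q
    have hjD : j ≤ P.D + 1 := by
      unfold KK at hj2; omega
    have m2 : d (prc F P.D d c p).1 (prc F P.D d c r).1 ≤ P.s * 2 ^ (j - 2) := by
      rcases H4_lam_spec (d := d) (s := P.s) c p r with m | m
      · refine m.trans (Nat.mul_le_mul_left _ (Nat.pow_le_pow_right (by omega) (by omega)))
      · omega
    have m3 : P.s * 2 ^ (j - 1) = P.s * 2 ^ (j - 2) + P.s * 2 ^ (j - 2) := by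
      have : j - 1 = (j - 2) + 1 := by omega
      rw [this, pow_succ]; ring
    refine ⟨?_, by omega⟩
    by_cases hq : j ≤ lev F P.D c q
    · have : lev F P.D c q ≤ K'' := by rw [hK'']; unfold KK; omega
      omega
    have m4 : j ≤ lam F P.D d P.s c p q := by
      unfold KK at hj2; omega
    have m5 : lam F P.D d P.s c r q ≤ K'' := by rw [hK'']; unfold KK; omega
    by_contra hcon
    have m6 : d (prc F P.D d c r).1 (prc F P.D d c q).1 ≤ P.s * 2 ^ (j - 2) := by
      rcases H4_lam_spec (d := d) (s := P.s) c r q with m | m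
      · refine m.trans (Nat.mul_le_mul_left _ (Nat.pow_le_pow_right (by omega) (by omega)))
      · omega
    have m7 := hg.tri (prc F P.D d c p).1 (prc F P.D d c r).1 (prc F P.D d c q).1
    have m8 := H4_lam_le' (d := d) (s := P.s) c p q (j - 1) (by omega)
    omega
  by_cases hpr : ActC F P.D d P.s c p r
  · by_cases hj3 : j ≤ K' + 10
    · refine ⟨vt F P.D c (prc F P.D d c p) (min j K'), Or.inl (H4_ray_mem c p r _ hpr
        (by omega) (by omega)), ?_⟩
      have := vv (prc F P.D d c p) (min j K') j (by omega)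
      omega
    · obtain ⟨b1, b2⟩ := caseB (by omega)
      by_cases hrq : ActC F P.D d P.s c r q
      · refine ⟨vt F P.D c (prc F P.D d c r) (j - 1), Or.inr (H4_ray_mem c r q _ hrq
          (by omega) (by omega)), ?_⟩
        have e1 := vv (prc F P.D d c p) (j - 1) j (by omega)
        have e2 := hch (F := F) hg hi hs1 n4 c (prc F P.D d c p) (prc F P.D d c r) (j - 1) b2
        have e3 := hgc.tri (vt F P.D c (prc F P.D d c p) j)
          (vt F P.D c (prc F P.D d c p) (j - 1)) (vt F P.D c (prc F P.D d c r) (j - 1))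
        omega
      · exfalso
        have := H4_inact_KK c r q hrq
        omega
  · obtain ⟨i1, i2, i3⟩ := H4_inact c p r hpr
    have i4 := H4_inact_KK c p r hpr
    by_cases hrq : ActC F P.D d P.s c r q
    · by_cases hj3 : K' + 2 ≤ j
      · obtain ⟨b1, b2⟩ := caseB hj3
        refine ⟨vt F P.D c (prc F P.D d c r) (j - 1), Or.inr (H4_ray_mem c r q _ hrq
          (by omega) (by omega)), ?_⟩
        have e1 := vv (prc F P.D d c p) (j - 1) j (by omega)
        have e2 := hch (F := F) hg hi hs1 n4 c (prc F P.D d c p) (prc F P.D d c r) (j - 1) b2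
        have e3 := hgc.tri (vt F P.D c (prc F P.D d c p) j)
          (vt F P.D c (prc F P.D d c p) (j - 1)) (vt F P.D c (prc F P.D d c r) (j - 1))
        omega
      · refine ⟨vt F P.D c (prc F P.D d c r) 0, Or.inr (H4_ray_mem c r q 0 hrq
          (by omega) (Nat.zero_le _)), ?_⟩
        have e1 := vv (prc F P.D d c p) 0 j (by omega)
        have e2 := bsd _ _ i3
        have e3 := hgc.tri (vt F P.D c (prc F P.D d c p) j)
          (vt F P.D c (prc F P.D d c p) 0) (vt F P.D c (prc F P.D d c r) 0)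
        rw [H4_vt0 c (prc F P.D d c p), H4_vt0 c (prc F P.D d c r)] at e3
        rw [H4_vt0 c (prc F P.D d c p)] at e1
        rw [H4_vt0 c (prc F P.D d c r)]
        omega
    · obtain ⟨k1, k2, k3⟩ := H4_inact c r q hrq
      have hj6 : j ≤ 6 := by
        have e1 := hg.tri (prc F P.D d c p).1 (prc F P.D d c r).1 (prc F P.D d c q).1
        have e2 := H4_lam_le' (d := d) (s := P.s) c p q 6 (by
          have e : (2 : ℕ) ^ 6 = 64 := by norm_num
          rw [e]; omega)
        unfold KK at hj2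
        omega
      have hab : 20 * P.s < d (prc F P.D d c p).1 (prc F P.D d c q).1 := by
        rcases hact with h | h | h
        · omega
        · omega
        · exact h
      have b1 : Btw d (sh F P.D p) (prc F P.D d c p).1 (sh F P.D q) (10 * P.A) := by
        have h1 := hpb2 hG hF c (sh F P.D p) (sh F P.D q) (by
          have : 20 * P.s < d (pr F d c (sh F P.D p)).1 (pr F d c (sh F P.D q)).1 := hab
          omega)
        have h2 := hg.tri (prc F P.D d c p).1 (prc F P.D d c q).1 (sh F P.D q)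
        have h1 : d (sh F P.D p) (prc F P.D d c p).1 +
          d (prc F P.D d c p).1 (prc F P.D d c q).1 + d (prc F P.D d c q).1 (sh F P.D q) ≤
          d (sh F P.D p) (sh F P.D q) + 7 * P.A := h1
        unfold Btw
        omega
      have b2 : ∀ c', ¬ Deep F P.D d P.s P.A c' (prc F P.D d c p).1 p q := by
        intro c' hc'
        by_cases hcc : c = c'
        · subst hcc
          obtain ⟨-, h1, -⟩ := hc'
          rw [hg.self] at h1
          omega
        · obtain ⟨⟨a', ha', haa⟩, -, h2⟩ := hc'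
          refine H4_ndeep hsplit hproj hquad hpb hpb2 hself hG hF c c' hcc
            (sh F P.D p) (sh F P.D q) a' hab ha' haa ?_
          rcases h2 with h2 | h2
          · exact Or.inl (H4_sh c' q h2)
          · exact Or.inr h2
      obtain ⟨w, hw, hd⟩ := H4_base' hsplit hproj hcg hcb hmid hpb hself hG hF p q r
        (prc F P.D d c p).1 b1 b2
      refine ⟨w, hw, ?_⟩
      have e1 := vv (prc F P.D d c p) 0 j (by omega)
      rw [H4_vt0 c (prc F P.D d c p)] at e1
      have e3 := hgc.tri (vt F P.D c (prc F P.D d c p) j) (bs F P.D (prc F P.D d c p).1) w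
      omega

end

theorem LL_slim (hsplit : S.btw_split) (hproj : S.btw_proj) (hquad : S.btw_quad)
    (hcg : S.cone_geo) (hcb : S.cd_bs) (hcv : S.cd_vt_vt) (hch : S.cd_hor) (hmid : S.pr_mid)
    (hpb : S.pr_btw) (hpb2 : S.pr_btw2) (hself : S.pr_self) : S.LL_slim := by
  intro G X _ _ d P F T M hG hF p q r v hv
  have hg := hG.geo
  rcases hv with ⟨w, rfl, h1, h2⟩ | ⟨c, hc, ⟨j, h1, h2, rfl⟩ | ⟨j, h1, h2, rfl⟩⟩
  · obtain ⟨w', h3, h4⟩ := H4_base' hsplit hproj hcg hcb hmid hpb hself hG hF p q r w h1 h2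
    exact ⟨w', h3, by omega⟩
  · exact H4_ray hsplit hproj hquad hcg hcb hcv hch hmid hpb hpb2 hself hG hF p q r c hc j h1 h2
  · rw [H4_KK_symm hg] at h2
    obtain ⟨w, h3, h4⟩ := H4_ray hsplit hproj hquad hcg hcb hcv hch hmid hpb hpb2 hself hG hF
      q p r c (H4_ActC_symm hg c p q hc) j h1 h2
    refine ⟨w, ?_, h4⟩
    rcases h3 with h3 | h3
    · exact Or.inr (H4_LL_symm hg _ _ _ h3)
    · exact Or.inl (H4_LL_symm hg _ _ _ h3)

end Mon
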