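import Pool.Agent.Work.MP_6f5fa7_al.Mon.StAct
import Pool.Agent.Work.MP_6f5fa7_al.Mon.StPiece
import Pool.Agent.Work.MP_6f5fa7_al.Mon.StFam2

/-! Mon, item P10: fam2_ov, fam2_big, fam2_ok. -/
set_option autoImplicit false

namespace Mon

/-- numerical facts -/
private theorem P10_num (P : Par) : P.TT2 ≤ P.TT1 ∧ P.TT2 ≤ P.N ∧ 4 ≤ P.N := by
  have h1 := P.h1
  have h2 := P.hδ
  have h3 := P.hΛs
  have h4 := P.hΛ
  have h5 := P.hA0
  have h7 := P.hD
  have h8 := P.hA
  have h9 := P.hs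
  have h10 := P.hM1
  have h11 := P.hM
  have h12 := P.hTT2
  have h13 := P.hN
  have h14 := P.hN10
  have h15 := P.hQ
  have h16 := P.hTT1
  have hEx : 1 ≤ Ex (1000 * P.Λ) :=
    le_trans (by omega : 1 ≤ 1000 * P.Λ) (Nat.le_mul_of_pos_right _ (by positivity))
  have hs : 1 ≤ P.s := by omega
  have hT : 1 ≤ P.TT2 := by
    have : 1 ≤ P.δ1 * P.s * 2 ^ P.D :=
      Nat.one_le_iff_ne_zero.mpr (by
        have a1 : P.δ1 ≠ 0 := by omega
        have a2 : P.s ≠ 0 := by omega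
        positivity)
    omega
  have hM : 1 ≤ P.M := by omega
  have hQ : 1 ≤ P.Q := by
    have : 1 ≤ P.M * P.TT2 := Nat.one_le_iff_ne_zero.mpr (by
      have a1 : P.M ≠ 0 := by omega
      have a2 : P.TT2 ≠ 0 := by omega
      positivity)
    have e : 1000 * P.M * P.TT2 = 1000 * (P.M * P.TT2) := by ring
    omega
  have hQp : 1 ≤ P.Q ^ (10 * P.N + 100) := Nat.one_le_pow _ _ hQ
  have e : 1000 * P.TT2 * P.Q ^ (10 * P.N + 100) = 1000 * (P.TT2 * P.Q ^ (10 * P.N + 100)) := by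
    ring
  have hle : P.TT2 ≤ P.TT2 * P.Q ^ (10 * P.N + 100) := Nat.le_mul_of_pos_right _ (by omega)
  exact ⟨by omega, by omega, by omega⟩

private theorem P10_ap_inj {G X : Type} [Group G] [MulAction G X] {F : Fam G X} {D : ℕ}
    {c c' : F.C} (h : ap F D c = ap F D c') : c = c' := by
  have h1 : (CV.apex c : CV X F.C) = CV.apex c' := congrArg Subtype.val h
  injection h1

/-- the axis as a set, one inclusion -/
private theorem P10_sub {G X : Type} [Group G] [MulAction G X] {P : Par} {F : Fam G X}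
    {V x V' x' : G} {c c' : F.C} (l m : ℤ) (g : G) (hg : g • c' = c)
    (hk : ∀ k : ℤ, ∃ κ ∈ Ker F, gs P.Q P.N V x (l + k) * g = κ * gs P.Q P.N V' x' (m + k)) :
    Ax2 P F V x c = Ax2 P F V' x' c' := by
  have key : ∀ k : ℤ, mkq (Ker F) (ap F P.D (axs P F V x c (l + k))) =
      mkq (Ker F) (ap F P.D (axs P F V' x' c' (m + k))) := by
    intro k
    obtain ⟨κ, hκ, h1⟩ := hk k
    rw [mkq_eq]
    refine ⟨κ, hκ, ?_⟩
    show ap F P.D (κ • axs P F V' x' c' (m + k)) = ap F P.D (axs P F V x c (l + k))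
    congr 1
    unfold axs
    rw [← hg, smul_smul, smul_smul, h1]
  apply subset_antisymm
  · rintro _ ⟨j, rfl⟩
    refine ⟨m + (j - l), ?_⟩
    have := key (j - l)
    rw [show l + (j - l) = j by ring] at this
    exact this.symm
  · rintro _ ⟨j, rfl⟩
    refine ⟨l + (j - m), ?_⟩
    have := key (j - m)
    rw [show m + (j - m) = j by ring] at this
    exact this

theorem fam2_ov (h_Y : S.fam2_Y) (h_win : S.piece_window) (h_core : S.piece_core) :
    S.fam2_ov := by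
  intro G X _ _ d P F hG hF hci S S' a b a' b' hne ha hb ha' hb' h1 h2
  obtain ⟨V, x, c, h, hS⟩ := S.2
  obtain ⟨V', x', c', h', hS'⟩ := S'.2
  obtain ⟨va, i, ea, ba⟩ := h_Y hG hF hci S a ha V x c h hS
  obtain ⟨vb, j, eb, bb⟩ := h_Y hG hF hci S b hb V x c h hS
  obtain ⟨va', i', ea', ba'⟩ := h_Y hG hF hci S' a' ha' V' x' c' h' hS'
  obtain ⟨vb', j', eb', bb'⟩ := h_Y hG hF hci S' b' hb' V' x' c' h' hS'
  subst ea eb ea' eb'
  rw [dq_mk (Ker F) hci] at h1 h2 ⊢
  by_contra hcon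
  obtain ⟨l, m, ε, hε, hw⟩ := h_win hG hF h h' i j i' j' va vb va' vb' ba bb ba' bb' h1 h2
    (not_le.mp hcon)
  obtain ⟨_, _, g, hg, _, _, hk⟩ := h_core hG hF h h' l m ε hε hw
  apply hne
  apply Subtype.ext
  rw [hS, hS']
  exact P10_sub l m g hg hk

theorem fam2_big (h_Y : S.fam2_Y) (h_stab : S.ax_stab) (h_dist : S.ax_dist)
    (h_len : S.rel_len) (h_step : S.rel_step) (h_per : S.gs_period) (h_geo : S.qd_geo)
    (h_iso : S.qd_isom) (h_zero : S.qd_zero) : S.fam2_big := by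
  intro G X _ _ d P F hG hF hci S r y hr hr1 hy
  obtain ⟨V, x, c, h, hS⟩ := S.2
  obtain ⟨nT, nN, nN4⟩ := P10_num P
  have qg := h_geo hG hF.ok nT
  have qi := h_iso hG hF.ok nT
  have qz := h_zero hG hF.ok nT
  set q := qd (Ker F) (cd F P.D d P.s) with hq
  obtain ⟨g, rfl⟩ := QuotientGroup.mk_surjective r
  have hr2 : (fun a => (QuotientGroup.mk g : G ⧸ Ker F) • a) '' S.1 = S.1 := by
    let _ := C2act P d F hG.isom hci
    have hr' : (QuotientGroup.mk g : G ⧸ Ker F) • (S : C2 P d F) = S := hr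
    exact congrArg Subtype.val hr'
  rw [hS] at hr2
  have hgj : ∀ j : ℤ, ∃ (j' : ℤ) (κ : G), κ ∈ Ker F ∧
      κ • (g • axs P F V x c j) = axs P F V x c j' := by
    intro j
    have h1 : (QuotientGroup.mk g : G ⧸ Ker F) • mkq (Ker F) (ap F P.D (axs P F V x c j)) ∈
        Ax2 P F V x c := by
      rw [← hr2]
      exact ⟨_, ⟨j, rfl⟩, rfl⟩
    obtain ⟨j', h2⟩ := h1
    have h3 : mkq (Ker F) (ap F P.D (axs P F V x c j')) =
        mkq (Ker F) (ap F P.D (g • axs P F V x c j)) := h2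
    obtain ⟨κ, hκ, h4⟩ := (mkq_eq (Ker F) _ _).mp h3
    exact ⟨j', κ, hκ, P10_ap_inj h4⟩
  obtain ⟨k, κ, hκ, hgk⟩ := h_stab hG hF h h g hgj
  have hk0 : k ≠ 0 := by
    rintro rfl
    apply hr1
    rw [zpow_zero, mul_one] at hgk
    rw [hgk]
    exact (QuotientGroup.eq_one_iff κ).mpr hκ
  obtain ⟨v, i, ev, bv⟩ := h_Y hG hF hci S y hy V x c h hS
  subst ev
  rw [qsmul_mk, dq_mk (Ker F) hci]
  have hl : 2 * P.D + 2 ≤ q (ap F P.D c) (x • ap F P.D c) := (h_len hG hF h).1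
  have hst : q (ap F P.D (axs P F V x c i)) (ap F P.D (axs P F V x c (i + 1))) =
      q (ap F P.D c) (x • ap F P.D c) := h_step hG hF h i
  set ℓ := q (ap F P.D c) (x • ap F P.D c) with hℓ
  set Ci := ap F P.D (axs P F V x c i) with hCi
  have b1 : q Ci v ≤ ℓ := by
    have h1 : q Ci v + q v (ap F P.D (axs P F V x c (i + 1))) ≤
        q Ci (ap F P.D (axs P F V x c (i + 1))) + 0 := bv
    have h2 : q Ci (ap F P.D (axs P F V x c (i + 1))) = ℓ := hst
    omega
  -- the image of `C_i`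
  have hgC : g • Ci = κ • ap F P.D (axs P F V x c (i + k * P.N)) := by
    show ap F P.D (g • axs P F V x c i) = ap F P.D (κ • axs P F V x c (i + k * P.N))
    congr 1
    unfold axs
    rw [h_per G P.Q P.N (by omega) V x i k, smul_smul, smul_smul, hgk, mul_assoc]
  have b2 : q Ci (ap F P.D (axs P F V x c (i + k * P.N))) ≤ q Ci (g • Ci) := by
    rw [hgC]
    have h1 := qg.tri Ci (κ • ap F P.D (axs P F V x c (i + k * P.N)))
      (ap F P.D (axs P F V x c (i + k * P.N)))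
    have h2 := qz κ hκ (ap F P.D (axs P F V x c (i + k * P.N)))
    rw [qg.symm] at h2
    omega
  have b3 : q Ci (ap F P.D (axs P F V x c (i + k * P.N))) = (k.natAbs * P.N) * ℓ := by
    rcases le_total 0 k with hk | hk
    · have h1 := h_dist hG hF h i (k.natAbs * P.N)
      rw [show ((k.natAbs * P.N : ℕ) : ℤ) = k * P.N by
        rw [Nat.cast_mul, Int.natAbs_of_nonneg hk]] at h1
      exact h1
    · have h1 := h_dist hG hF h (i + k * P.N) (k.natAbs * P.N)
      rw [show i + k * P.N + ((k.natAbs * P.N : ℕ) : ℤ) = i by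
        rw [Nat.cast_mul, Int.ofNat_natAbs_of_nonpos hk]
        ring] at h1
      rw [qg.symm]
      exact h1
  have b4 : q (g • v) (g • Ci) = q Ci v := by rw [qi, qg.symm]
  have b5 : q Ci (g • Ci) ≤ q Ci v + q v (g • v) + q (g • v) (g • Ci) :=
    (qg.tri _ (g • v) _).trans (Nat.add_le_add_right (qg.tri _ v _) _)
  have b6 : P.N * ℓ ≤ (k.natAbs * P.N) * ℓ := by
    refine Nat.mul_le_mul_right _ ?_
    exact Nat.le_mul_of_pos_left _ (Int.natAbs_pos.mpr hk0)
  have b7 : P.N * ℓ ≤ 2 * ℓ + q v (g • v) := by omega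
  have b8 : P.N + 2 * ℓ ≤ P.N * ℓ := by
    obtain ⟨n', hn'⟩ : ∃ n', P.N = n' + 4 := ⟨P.N - 4, by omega⟩
    obtain ⟨l', hl'⟩ : ∃ l', ℓ = l' + 2 := ⟨ℓ - 2, by omega⟩
    rw [hn', hl']
    nlinarith
  show P.TT2 ≤ q v (g • v)
  omega

theorem fam2_ok (h_qc : S.fam2_qc) (h_Y : S.fam2_Y) (h_win : S.piece_window)
    (h_core : S.piece_core) (h_stab : S.ax_stab) (h_dist : S.ax_dist)
    (h_len : S.rel_len) (h_step : S.rel_step) (h_per : S.gs_period) (h_geo : S.qd_geo)
    (h_iso : S.qd_isom) (h_zero : S.qd_zero) : S.fam2_ok := by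
  intro G X _ _ d P F hG hF hci
  have hst : ∀ (c : (fam2 P d F hG.isom hci).C) (g : G ⧸ Ker F),
      g ∈ (fam2 P d F hG.isom hci).R c ↔ g • c = c := fun c g => Iff.rfl
  refine ⟨?_, ?_, ?_, ?_, ?_, ?_, ?_⟩
  · exact h_qc hG hF hci
  · intro S S' a b a' b' hne ha hb ha' hb' h1 h2
    exact fam2_ov h_Y h_win h_core hG hF hci S S' a b a' b' hne ha hb ha' hb' h1 h2
  · intro S r y hr hr1 hy
    exact fam2_big h_Y h_stab h_dist h_len h_step h_per h_geo h_iso h_zero hG hF hci S r y hr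
      hr1 hy
  · intro c g x ρ h1 h2 _
    exact absurd ((hst c g).mpr h1) h2
  · intro c g h1
    exact ((fam2 P d F hG.isom hci).R c).pow_mem ((hst c g).mpr h1) _
  · intro c g h h1 h2
    have g1 := (hst c g).mpr h1
    have g2 := (hst c h).mpr h2
    exact ((fam2 P d F hG.isom hci).R c).mul_mem
      (((fam2 P d F hG.isom hci).R c).mul_mem
        (((fam2 P d F hG.isom hci).R c).mul_mem g1 g2)
        (((fam2 P d F hG.isom hci).R c).inv_mem g1))
      (((fam2 P d F hG.isom hci).R c).inv_mem g2)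
  · intro c c' g _ h1 _
    exact (hst c g).mpr h1

end Mon
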