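import Pool.Agent.Work.MP_6f5fa7_al.Mon.StTool

/-! Mon: item T2 (growth along orbits of loxodromic elements). -/
set_option autoImplicit false

namespace Mon

private theorem T2_orb {X : Type} {d : X → X → ℕ} {G : Type} [Group G] [MulAction G X]
    (hi : Isom G d) (g : G) (x : X) (a b : ℕ) :
    d (g ^ a • x) (g ^ (a + b) • x) = d x (g ^ b • x) := by
  rw [pow_add, mul_smul, hi]

private theorem T2_step {X : Type} {d : X → X → ℕ} {δ : ℕ} {G : Type} [Group G] [MulAction G X]
    (hg : Geo d) (hi : Isom G d) (hh : Hyp δ d) (g : G) (x : X)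
    (h : d x (g • x) + δ + 1 ≤ d x (g ^ 2 • x)) (i : ℕ) :
    d x (g ^ i • x) ≤ d x (g ^ (i + 1) • x) ∧
      d x (g ^ 2 • x) + d x (g ^ (i + 1) • x) ≤ d x (g ^ (i + 2) • x) + d x (g • x) + δ := by
  induction i with
  | zero =>
    constructor
    · rw [pow_zero, one_smul, hg.self]
      exact Nat.zero_le _
    · rw [zero_add, pow_one, zero_add]
      omega
  | succ i ih =>
    obtain ⟨h1, h2⟩ := ih
    have h3 : d x (g ^ (i + 1) • x) ≤ d x (g ^ (i + 1 + 1) • x) := by
      have e : i + 1 + 1 = i + 2 := rfl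
      rw [e]
      omega
    refine ⟨h3, ?_⟩
    have h4 := hh x (g ^ 2 • x) (g ^ 1 • x) (g ^ (i + 3) • x)
    have e1 : d (g ^ 1 • x) (g ^ (i + 3) • x) = d x (g ^ (i + 2) • x) := by
      have := T2_orb hi g x 1 (i + 2)
      rwa [show 1 + (i + 2) = i + 3 by omega] at this
    have e2 : d (g ^ 2 • x) (g ^ (i + 3) • x) = d x (g ^ (i + 1) • x) := by
      have := T2_orb hi g x 2 (i + 1)
      rwa [show 2 + (i + 1) = i + 3 by omega] at this
    have e3 : d (g ^ 2 • x) (g ^ 1 • x) = d x (g • x) := by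
      rw [hg.symm]
      have := T2_orb hi g x 1 1
      rwa [pow_one] at this ⊢
    rw [e1, e2, e3, pow_one] at h4
    have e4 : i + 1 + 2 = i + 3 := by omega
    have e5 : i + 1 + 1 = i + 2 := by omega
    rw [e4, e5]
    rw [e5] at h3
    omega

theorem lox_growth : S.lox_growth := by
  intro X d δ G _ _ hg hi hh g x h i
  induction i with
  | zero => simp
  | succ i ih =>
    have h1 := (T2_step hg hi hh g x h i).2
    have e : i + 1 + 1 = i + 2 := rfl
    rw [e, Nat.succ_mul]
    omega

theorem lox_thick : S.lox_thick := by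
  intro X d δ G _ _ hg hi hh g x κ h h1
  have h0 : d x (g • x) + δ + 1 ≤ d x (g ^ 2 • x) := by omega
  have key : ∀ i : ℕ, d x (g • x) + d x (g ^ i • x) ≤ d x (g ^ (i + 1) • x) + κ + δ := by
    intro i
    cases i with
    | zero =>
      rw [pow_zero, one_smul, hg.self, zero_add, pow_one]
      omega
    | succ i =>
      have h2 := (T2_step hg hi hh g x h0 i).2
      have e : i + 1 + 1 = i + 2 := rfl
      rw [e]
      omega
  intro i j
  cases i with
  | zero =>
    rw [pow_zero, one_smul, hg.self, zero_add, zero_add]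
    omega
  | succ i =>
    have h4 := hh (g ^ (i + 1) • x) (g ^ 0 • x) (g ^ i • x) (g ^ (i + 1 + j) • x)
    have e1 : d (g ^ (i + 1) • x) (g ^ 0 • x) = d x (g ^ (i + 1) • x) := by
      rw [hg.symm, pow_zero, one_smul]
    have e2 : d (g ^ i • x) (g ^ (i + 1 + j) • x) = d x (g ^ (j + 1) • x) := by
      have := T2_orb hi g x i (j + 1)
      rwa [show i + (j + 1) = i + 1 + j by omega] at this
    have e3 : d (g ^ (i + 1) • x) (g ^ i • x) = d x (g • x) := by
      rw [hg.symm]
      have := T2_orb hi g x i 1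
      rwa [pow_one] at this
    have e4 : d (g ^ 0 • x) (g ^ (i + 1 + j) • x) = d x (g ^ (i + 1 + j) • x) := by
      rw [pow_zero, one_smul]
    have e5 := T2_orb hi g x (i + 1) j
    have e6 : d (g ^ 0 • x) (g ^ i • x) = d x (g ^ i • x) := by
      rw [pow_zero, one_smul]
    rw [e1, e2, e3, e4, e5, e6] at h4
    have h5 := key i
    have h6 := key j
    omega

end Mon
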