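import Pool.Agent.Work.MP_6f5fa7_al.Mon.M14Defs
import Pool.Agent.Work.MP_6f5fa7_al.Mon.StTool

/-! Mon: M14, the base stage: the free group acting on itself (helper71). -/
set_option autoImplicit false

namespace Mon.M14B

section lcp
variable {β : Type} [DecidableEq β]

/-- length of the longest common initial part -/
def lcp : List β → List β → ℕ
  | a :: u, b :: v => if a = b then lcp u v + 1 else 0
  | _, _ => 0

theorem lcp_nil_left (v : List β) : lcp [] v = 0 := by
  cases v <;> rfl

theorem lcp_nil_right (v : List β) : lcp v [] = 0 := by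
  cases v <;> rfl

theorem lcp_cons (a b : β) (u v : List β) :
    lcp (a :: u) (b :: v) = if a = b then lcp u v + 1 else 0 := rfl

theorem lcp_comm (u v : List β) : lcp u v = lcp v u := by
  induction u generalizing v with
  | nil => rw [lcp_nil_left, lcp_nil_right]
  | cons a u ih =>
    cases v with
    | nil => rw [lcp_nil_left, lcp_nil_right]
    | cons b v =>
      rw [lcp_cons, lcp_cons, ih v]
      by_cases h : a = b
      · simp [h]
      · simp [h, Ne.symm h]

theorem lcp_ultra (u v w : List β) : min (lcp u w) (lcp v w) ≤ lcp u v := by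
  induction u generalizing v w with
  | nil => simp [lcp_nil_left]
  | cons a u ih =>
    cases v with
    | nil => simp [lcp_nil_left, lcp_nil_right]
    | cons b v =>
      cases w with
      | nil => simp [lcp_nil_right]
      | cons c w =>
        rw [lcp_cons, lcp_cons, lcp_cons]
        have := ih v w
        by_cases h1 : a = c
        · by_cases h2 : b = c
          · subst h1; subst h2
            simp only [if_true]
            omega
          · simp [h2]
        · simp [h1]

end lcp

section free
variable {α : Type} [DecidableEq α]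

open FreeGroup

theorem isReduced_invRev {u : List (α × Bool)} (h : IsReduced u) : IsReduced (invRev u) := by
  rw [isReduced_iff_reduce_eq, reduce_invRev, h.reduce_eq]

theorem length_reduce_invRev_append (u v : List (α × Bool)) (hu : IsReduced u)
    (hv : IsReduced v) : (reduce (invRev u ++ v)).length + 2 * lcp u v = u.length + v.length := by
  induction u generalizing v with
  | nil => rw [lcp_nil_left, invRev_empty, List.nil_append, hv.reduce_eq]; simp
  | cons a u ih =>
    cases v with
    | nil =>
      rw [lcp_nil_right, List.append_nil, (isReduced_invRev hu).reduce_eq, invRev_length]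
      simp
    | cons b v =>
      rw [lcp_cons]
      by_cases h : a = b
      · subst h
        have hu' : FreeGroup.IsReduced u := List.IsChain.tail hu
        have hv' : FreeGroup.IsReduced v := List.IsChain.tail hv
        have e : invRev (a :: u) ++ a :: v = invRev u ++ (a.1, !a.2) :: (a.1, !(!a.2)) :: v := by
          simp [invRev]
        have e2 : reduce (invRev (a :: u) ++ a :: v) = reduce (invRev u ++ v) := by
          rw [e]
          exact reduce.Step.eq Red.Step.not
        rw [e2]
        have := ih v hu' hv'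
        simp only [if_true, List.length_cons]
        omega
      · rw [if_neg h]
        have hr : IsReduced (invRev (a :: u) ++ b :: v) := by
          unfold FreeGroup.IsReduced
          rw [List.isChain_append]
          refine ⟨isReduced_invRev hu, hv, ?_⟩
          intro x hx y hy hxy
          have hx' : x = (a.1, !a.2) := by
            have : (invRev (a :: u)).getLast? = some (a.1, !a.2) := by
              simp [invRev]
            rw [this] at hx
            simpa using hx.symm
          have hy' : y = b := by simpa using hy.symm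
          subst hx'; subst hy'
          have hxy' : a.1 = y.1 := hxy
          change (!a.2) = y.2
          by_contra hne
          apply h
          refine Prod.ext hxy' ?_
          revert hne
          cases a.2 <;> cases y.2 <;> simp
        rw [hr.reduce_eq, List.length_append, invRev_length]
        simp

/-- the word metric of the free group -/
def fd (x y : FreeGroup α) : ℕ := (x⁻¹ * y).norm

theorem fd_eq (x y : FreeGroup α) :
    fd x y + 2 * lcp x.toWord y.toWord = x.norm + y.norm := by
  have h : (x⁻¹ * y).toWord = reduce (invRev x.toWord ++ y.toWord) := by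
    rw [toWord_mul, toWord_inv]
  unfold fd FreeGroup.norm
  rw [h]
  exact length_reduce_invRev_append _ _ isReduced_toWord isReduced_toWord

theorem fd_mul (g x y : FreeGroup α) : fd (g * x) (g * y) = fd x y := by
  unfold fd
  congr 1
  group

theorem fd_hyp0 (x y z : FreeGroup α) :
    fd x y + z.norm ≤ max (fd x z + y.norm) (x.norm + fd y z) := by
  have h1 := fd_eq x y
  have h2 := fd_eq x z
  have h3 := fd_eq y z
  have h4 := lcp_ultra x.toWord y.toWord z.toWord
  have h5 : lcp y.toWord z.toWord = lcp z.toWord y.toWord := lcp_comm _ _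
  omega

theorem fd_hyp : Hyp 0 (fd : FreeGroup α → FreeGroup α → ℕ) := by
  intro x y z t
  have h := fd_hyp0 (t⁻¹ * x) (t⁻¹ * y) (t⁻¹ * z)
  rw [fd_mul, fd_mul, fd_mul] at h
  have e : ∀ w : FreeGroup α, (t⁻¹ * w).norm = fd w t := by
    intro w
    unfold fd
    rw [← norm_inv_eq]
    congr 1
    group
  rw [e, e, e] at h
  omega

theorem fd_geo : Geo (fd : FreeGroup α → FreeGroup α → ℕ) := by
  refine ⟨?_, ?_, ?_, ?_⟩
  · intro x; simp [fd]
  · intro x y
    unfold fd
    rw [← norm_inv_eq]
    congr 1
    group
  · intro x y z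
    unfold fd
    have : x⁻¹ * z = (x⁻¹ * y) * (y⁻¹ * z) := by group
    rw [this]
    exact norm_mul_le _ _
  · intro x y i hi
    set w := (x⁻¹ * y).toWord with hw
    have hr : IsReduced w := isReduced_toWord
    have hlen : w.length = fd x y := rfl
    refine ⟨x * mk (w.take i), ?_, ?_⟩
    · unfold fd FreeGroup.norm
      rw [inv_mul_cancel_left, toWord_mk]
      have h1 : FreeGroup.IsReduced (w.take i) := List.IsChain.take hr i
      rw [h1.reduce_eq, List.length_take, hlen]
      exact min_eq_left hi
    · have h2 : (x * mk (w.take i))⁻¹ * y = mk (w.drop i) := by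
        have h3 : x⁻¹ * y = mk (w.take i) * mk (w.drop i) := by
          rw [mul_mk, List.take_append_drop, hw, mk_toWord]
        rw [mul_inv_rev, mul_assoc, h3, inv_mul_cancel_left]
      have h1 : FreeGroup.IsReduced (w.drop i) := List.IsChain.drop hr i
      unfold fd FreeGroup.norm
      rw [h2, toWord_mk, h1.reduce_eq, List.length_drop, hlen]
      try rfl

theorem fd_isom : Isom (FreeGroup α) (fd : FreeGroup α → FreeGroup α → ℕ) := fun g x y =>
  fd_mul g x y

/-- norms of powers -/
theorem norm_pow (x : FreeGroup α) : ∃ c r : ℕ, (∀ n : ℕ, (x ^ (n + 1)).norm = 2 * c + (n + 1) * r) ∧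
    (x ≠ 1 → 1 ≤ r) := by
  refine ⟨(reduceCyclically.conjugator x.toWord).length, (reduceCyclically x.toWord).length,
    ?_, ?_⟩
  · intro n
    unfold FreeGroup.norm
    rw [toWord_pow, reduceCyclically.reduce_flatten_replicate_succ isReduced_toWord]
    simp only [List.length_append, List.length_flatten, List.map_replicate, List.sum_replicate,
      invRev_length, smul_eq_mul]
    ring
  · intro hx
    by_contra h0
    have h1 : reduceCyclically x.toWord = [] := by
      rw [← List.length_eq_zero_iff]; omega
    have h2 := reduceCyclically.conj_conjugator_reduceCyclically x.toWord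
    rw [h1, List.append_nil] at h2
    apply hx
    rw [← mk_toWord (x := x), ← h2, ← mul_mk, ← inv_mk, mul_inv_cancel]

theorem fd_pow (x g : FreeGroup α) (i : ℕ) : fd x (g ^ i • x) = ((x⁻¹ * g * x) ^ i).norm := by
  unfold fd
  congr 1
  have : (x⁻¹ * g * x) ^ i = x⁻¹ * g ^ i * x := by
    have := conj_pow (i := i) (a := x⁻¹) (b := g)
    rwa [inv_inv] at this
  rw [this, smul_eq_mul, mul_assoc]

theorem free_pow_ne {g : FreeGroup α} (hg : g ≠ 1) {n : ℕ} (hn : 1 ≤ n) : g ^ n ≠ 1 := by
  obtain ⟨c, r, h1, h2⟩ := norm_pow g
  obtain ⟨m, rfl⟩ : ∃ m, n = m + 1 := ⟨n - 1, by omega⟩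
  have h3 := h2 hg
  intro h
  have h4 := h1 m
  rw [h, FreeGroup.norm_one] at h4
  nlinarith

/-- the base stage -/
theorem free_st (h_cm : S.comm_middle) (P : Par) :
    P.St (FreeGroup α) (fd : FreeGroup α → FreeGroup α → ℕ) P.M := by
  have n1 := P.h1
  have n2 := P.hδ
  have n3 := P.hΛs
  have n4 := P.hΛ
  have n5 : 1000 * P.Λ ≤ Ex (1000 * P.Λ) := Nat.le_mul_of_pos_right _ (by positivity)
  have n6 := P.hA0
  have n7 := P.hD
  have n8 := P.hA
  have n9 := P.hM1
  have n9' : 1 ≤ P.s := by have := P.hs; omega
  have n10 : Ex (1000 * P.Λ) ≤ P.s * Ex (1000 * P.Λ) := Nat.le_mul_of_pos_left _ n9'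
  have n11 := P.hM
  have n12 : P.M1 ≤ 10 * P.M1 * (P.s * Ex (1000 * P.Λ)) := by
    have : 1 ≤ P.s * Ex (1000 * P.Λ) := by omega
    nlinarith
  have hprime := P.hprime.one_lt
  have key : ∀ g : FreeGroup α, g ≠ 1 → ∀ x : FreeGroup α, x⁻¹ * g * x ≠ 1 := by
    intro g hg x h
    apply hg
    have : g = x * (x⁻¹ * g * x) * x⁻¹ := by group
    rw [this, h]
    group
  refine ⟨fd_geo, fd_isom, ?_, ?_, ?_, ?_, ?_⟩
  · intro x y z t
    have := fd_hyp x y z t
    omega
  · intro g
    by_cases hg : g = 1
    · left; rw [hg, one_pow]; exact Subgroup.one_mem _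
    · right
      intro x
      rw [fd_pow]
      obtain ⟨c, r, h1, h2⟩ := norm_pow (x⁻¹ * g * x)
      have h3 := h2 (key g hg x)
      obtain ⟨m, hm⟩ : ∃ m, P.M = m + 1 := ⟨P.M - 1, by omega⟩
      rw [hm, h1 m, ← hm]
      have : P.M ≤ P.M * r := Nat.le_mul_of_pos_right _ h3
      omega
  · intro g x y hg _ _ _ h
    exact free_pow_ne (fun h0 => hg (by rw [h0]; exact Subgroup.one_mem _)) hprime.le
      (Subgroup.mem_bot.1 h)
  · intro g x _ h1 i j
    rw [fd_pow, fd_pow, fd_pow]
    obtain ⟨c, r, h2, _⟩ := norm_pow (x⁻¹ * g * x)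
    have h3 : (x⁻¹ * g * x).norm ≤ P.Λ := by
      have h4 : fd x (g • x) ≤ P.Λ := h1
      have h5 := fd_pow x g 1
      rw [pow_one, pow_one] at h5
      rwa [h5] at h4
    have h4 := h2 0
    rw [zero_add, pow_one, one_mul] at h4
    have e : ∀ i, ((x⁻¹ * g * x) ^ i).norm ≤ 2 * c + i * r := by
      intro i
      cases i with
      | zero => simp
      | succ i => exact (h2 i).le
    rcases Nat.eq_zero_or_pos (i + j) with h0 | h0
    · have hi : i = 0 := by omega
      have hj : j = 0 := by omega
      subst hi; subst hj
      simp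
    · obtain ⟨m, hm⟩ : ∃ m, i + j = m + 1 := ⟨i + j - 1, by omega⟩
      have h5 : ((x⁻¹ * g * x) ^ (i + j)).norm = 2 * c + (i + j) * r := by rw [hm]; exact h2 m
      rw [h5]
      have := e i
      have := e j
      have e3 : (i + j) * r = i * r + j * r := by ring
      omega
  · intro g k x y hA h1 h2 h3 h4
    obtain ⟨m, hm1, hm2⟩ := fd_geo.geo x y (5 * P.Λ) (by omega)
    have hmid : Btw fd x m y 0 := by unfold Btw; omega
    have := h_cm fd_geo fd_isom fd_hyp g k x y m P.Λ h1 h2 h3 h4 hmid (by omega) (by omega)
    unfold Mv at this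
    rw [Subgroup.mem_bot]
    have h5 : (m⁻¹ * ((g * k * g⁻¹ * k⁻¹) • m)).norm = 0 := by
      have : fd m ((g * k * g⁻¹ * k⁻¹) • m) ≤ 20 * 0 := this
      unfold fd at this
      omega
    rw [FreeGroup.norm_eq_zero, smul_eq_mul] at h5
    have h6 : g * k * g⁻¹ * k⁻¹ = m * (m⁻¹ * (g * k * g⁻¹ * k⁻¹ * m)) * m⁻¹ := by group
    rw [h6, h5]
    group

theorem free_inv (P : Par) : SProp P (FreeGroup α) := by
  intro x y hx _
  left
  have h1 : x = 1 := by
    by_contra h
    exact free_pow_ne h P.hprime.one_lt.le hx
  rw [h1, one_mul, mul_one]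

theorem fd_of (a : α) : fd (1 : FreeGroup α) (of a • 1) = 1 := by
  unfold fd
  simp

end free

theorem free_ne : (FreeGroup.of 0 : FreeGroup (Fin 2)) * FreeGroup.of 1 ≠
    FreeGroup.of 1 * FreeGroup.of 0 := by decide

end Mon.M14B
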