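import Pool.Agent.Work.MP_6f5fa7_al.Mon.Defs2

/-! Mon: M14, the quotient of a stage by a normal subgroup (helper71). -/
set_option autoImplicit false

namespace Mon

section quot
variable {G : Type} [Group G] (K : Subgroup G) {V : Type} [MulAction G V]

theorem mk_pow_smul [K.Normal] (g : G) (i : ℕ) (v : V) :
    ((g : G ⧸ K)) ^ i • mkq K v = mkq K (g ^ i • v) := by
  rw [← QuotientGroup.mk_pow]; exact qsmul_mk K _ v

/-- TRANSFER: a stage modulo `K` becomes a clean stage -/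
theorem good_transfer [hN : K.Normal] {e : V → V → ℕ} (he : Isom G e) {n δ Λ A A0 M : ℕ}
    (h : Good G (qd K e) K n δ Λ A A0 M) : Good1 (G ⧸ K) (dq K e) n δ Λ A A0 M := by
  have hd : ∀ v w : V, dq K e (mkq K v) (mkq K w) = qd K e v w := dq_mk K he
  have hmem : ∀ g : G, (g : G ⧸ K) ∈ (⊥ : Subgroup (G ⧸ K)) ↔ g ∈ K := fun g => by
    rw [Subgroup.mem_bot, QuotientGroup.eq_one_iff]
  have hmv : ∀ (g : G) (v : V) (R : ℕ), Mv (dq K e) (g : G ⧸ K) (mkq K v) R ↔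
      Mv (qd K e) g v R := fun g v R => by
    unfold Mv; rw [qsmul_mk, hd]
  have hth : ∀ (g : G) (v : V) (κ : ℕ), Thick (qd K e) g v κ →
      Thick (dq K e) (g : G ⧸ K) (mkq K v) κ := fun g v κ h i j => by
    rw [mk_pow_smul, mk_pow_smul, mk_pow_smul, hd, hd, hd]; exact h i j
  refine ⟨⟨?_, ?_, ?_, ?_⟩, ?_, ?_, ?_, ?_, ?_, ?_⟩
  · intro x
    obtain ⟨v, rfl⟩ := mkq_surj K x
    rw [hd]; exact h.geo.self v
  · intro x y
    obtain ⟨v, rfl⟩ := mkq_surj K x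
    obtain ⟨w, rfl⟩ := mkq_surj K y
    rw [hd, hd]; exact h.geo.symm v w
  · intro x y z
    obtain ⟨v, rfl⟩ := mkq_surj K x
    obtain ⟨w, rfl⟩ := mkq_surj K y
    obtain ⟨u, rfl⟩ := mkq_surj K z
    rw [hd, hd, hd]; exact h.geo.tri v w u
  · intro x y i hi
    obtain ⟨v, rfl⟩ := mkq_surj K x
    obtain ⟨w, rfl⟩ := mkq_surj K y
    rw [hd] at hi
    obtain ⟨u, h1, h2⟩ := h.geo.geo v w i hi
    exact ⟨mkq K u, by rw [hd]; exact h1, by rw [hd, hd]; exact h2⟩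
  · intro g x y
    obtain ⟨v, rfl⟩ := mkq_surj K x
    obtain ⟨w, rfl⟩ := mkq_surj K y
    obtain ⟨g, rfl⟩ := QuotientGroup.mk_surjective g
    rw [qsmul_mk, qsmul_mk, hd, hd]; exact h.isom g v w
  · intro x y z t
    obtain ⟨v, rfl⟩ := mkq_surj K x
    obtain ⟨w, rfl⟩ := mkq_surj K y
    obtain ⟨u, rfl⟩ := mkq_surj K z
    obtain ⟨t, rfl⟩ := mkq_surj K t
    rw [hd, hd, hd, hd, hd, hd]; exact h.hyp v w u t
  · intro g
    obtain ⟨g, rfl⟩ := QuotientGroup.mk_surjective g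
    rcases h.T2 g with h1 | h1
    · left; rw [← QuotientGroup.mk_pow, hmem]; exact h1
    · right
      intro x
      obtain ⟨v, rfl⟩ := mkq_surj K x
      rw [mk_pow_smul, hd]; exact h1 v
  · intro g x y hg hA h1 h2
    obtain ⟨v, rfl⟩ := mkq_surj K x
    obtain ⟨w, rfl⟩ := mkq_surj K y
    obtain ⟨g, rfl⟩ := QuotientGroup.mk_surjective g
    rw [hmem] at hg
    rw [hd] at hA
    rw [← QuotientGroup.mk_pow, hmem]
    exact h.T3a g v w hg hA ((hmv g v Λ).1 h1) ((hmv g w Λ).1 h2)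
  · intro g x hg h1
    obtain ⟨v, rfl⟩ := mkq_surj K x
    obtain ⟨g, rfl⟩ := QuotientGroup.mk_surjective g
    rw [← QuotientGroup.mk_pow, hmem] at hg
    exact hth g v A0 (h.T3b g v hg ((hmv g v Λ).1 h1))
  · intro g k x y hA h1 h2 h3 h4
    obtain ⟨v, rfl⟩ := mkq_surj K x
    obtain ⟨w, rfl⟩ := mkq_surj K y
    obtain ⟨g, rfl⟩ := QuotientGroup.mk_surjective g
    obtain ⟨k, rfl⟩ := QuotientGroup.mk_surjective k
    rw [hd] at hA
    have := h.T3c g k v w hA ((hmv g v Λ).1 h1) ((hmv g w Λ).1 h2) ((hmv k v Λ).1 h3)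
      ((hmv k w Λ).1 h4)
    rw [← QuotientGroup.mk_inv, ← QuotientGroup.mk_inv, ← QuotientGroup.mk_mul,
      ← QuotientGroup.mk_mul, ← QuotientGroup.mk_mul, hmem]
    exact this

end quot

section words
variable {G H : Type} [Group G] [Group H]

theorem map_Uw (f : G →* H) (Q : ℕ) (x y : G) : f (Uw Q x y) = Uw Q (f x) (f y) := by
  simp [Uw]

theorem map_Ww (f : G →* H) (Q N : ℕ) (V x : G) : f (Ww Q N V x) = Ww Q N (f V) (f x) := by
  unfold Ww
  rw [map_list_prod, List.map_map]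
  congr 1
  apply List.map_congr_left
  intro j _
  simp

theorem map_Ew (f : G →* H) (Q N : ℕ) (x y : G) : f (Ew Q N x y) = Ew Q N (f x) (f y) := by
  unfold Ew
  rw [map_Ww, map_Uw]

end words

end Mon
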