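import Pool.Agent.Work.MP_6f5fa7_al.Mon.StCone
import Pool.Agent.Work.MP_6f5fa7_al.Mon.BB

/-! Mon: M14, existence of the parameters (helper71). -/
set_option autoImplicit false

namespace Mon

theorem exists_par (h : S.guess) : Nonempty Par := by
  obtain ⟨δ1, h1, hg⟩ := h 1000
  have hg1 := hg δ1 le_rfl
  let Λ : ℕ := 10 * (100 * (1000 * δ1))
  let A0 : ℕ := 1000000 * Ex (1000 * Λ) + 1000000 * Ex (1000 * (1000000 * Ex (1000 * Λ)))
  let D : ℕ := 1000 * A0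
  let A : ℕ := 1000 * D
  let s : ℕ := 1000000 * A
  let M1 : ℕ := 10 * (s * Ex (1000 * Λ)) + 10
  let M : ℕ := 10 * M1 * (s * Ex (1000 * Λ)) + 10
  let TT2 : ℕ := 100000 * (δ1 * s * 2 ^ D)
  let N : ℕ := TT2 + 100 * s
  let Q : ℕ := 1000 * M * TT2
  let TT1 : ℕ := 1000 * TT2 * Q ^ (10 * N + 100)
  obtain ⟨n, hn, hp⟩ := Nat.exists_infinite_primes (1000 * M * TT1)
  exact ⟨{
    δ1 := δ1
    δ := 1000 * δ1
    Λs := 100 * (1000 * δ1)
    Λ := Λ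
    A0 := A0
    D := D
    A := A
    s := s
    M1 := M1
    M := M
    TT2 := TT2
    N := N
    Q := Q
    TT1 := TT1
    n := n
    h1 := h1
    hguess := hg1
    hδ := le_rfl
    hΛs := le_rfl
    hΛ := le_rfl
    hA0 := Nat.le_add_right _ _
    hA0' := Nat.le_add_left _ _
    hD := le_rfl
    hA := le_rfl
    hs := le_rfl
    hM1 := le_rfl
    hM := le_rfl
    hTT2 := le_rfl
    hN := Nat.le_add_right _ _
    hN10 := Nat.le_add_left _ _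
    hQ := le_rfl
    hTT1 := le_rfl
    hn := hn
    hprime := hp }⟩

theorem Ex_ge (a : ℕ) : a ≤ Ex a := Nat.le_mul_of_pos_right _ (by positivity)

/-- positivity and size of some parameters -/
theorem Par.basic (P : Par) : 2 ≤ P.Λs ∧ 2 ≤ P.s ∧ 2 ≤ P.Q ∧ 1 ≤ P.N ∧ 1 ≤ P.TT2 ∧
    P.TT2 ≤ P.TT1 ∧ 9 * P.θ + 5 ≤ P.TT2 ∧ 1 ≤ P.M ∧ 1 ≤ P.D ∧ 1 ≤ P.TT1 := by
  have n1 := P.h1
  have n2 := P.hδ
  have n3 := P.hΛs
  have n4 := P.hΛ
  have n5 : 1000 * P.Λ ≤ Ex (1000 * P.Λ) := Ex_ge _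
  have n6 := P.hA0
  have n7 := P.hD
  have n8 := P.hA
  have n9 := P.hs
  have n10 := P.hM
  have n11 := P.hTT2
  have n12 := P.hN
  have n13 := P.hQ
  have n14 := P.hTT1
  have p1 : 0 < 2 ^ P.D := by positivity
  have p2 : 0 < P.s * 2 ^ P.D := Nat.mul_pos (by omega) p1
  have p3 : P.s * 2 ^ P.D ≤ P.δ1 * P.s * 2 ^ P.D := by
    rw [mul_assoc]; exact Nat.le_mul_of_pos_left _ n1
  have p4 : P.θ ≤ 18 * (P.δ1 * P.s * 2 ^ P.D) := by
    unfold Par.θ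
    have : (12 * P.δ1 + 6) * (P.s * 2 ^ P.D) = 12 * (P.δ1 * P.s * 2 ^ P.D) +
      6 * (P.s * 2 ^ P.D) := by ring
    omega
  have p5 : 1 ≤ P.TT2 := by omega
  have p6 : 1000 ≤ P.Q := by
    have : 1 ≤ P.M * P.TT2 := Nat.mul_pos (by omega) p5
    have e : 1000 * P.M * P.TT2 = 1000 * (P.M * P.TT2) := by ring
    omega
  have p7 : P.TT2 ≤ P.TT1 := by
    refine le_trans ?_ n14
    have : 1 ≤ P.Q ^ (10 * P.N + 100) := Nat.one_le_pow _ _ (by omega)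
    calc P.TT2 ≤ 1000 * P.TT2 := by omega
      _ ≤ 1000 * P.TT2 * P.Q ^ (10 * P.N + 100) := Nat.le_mul_of_pos_right _ this
  refine ⟨by omega, by omega, by omega, by omega, p5, p7, by omega, by omega, by omega, by omega⟩

theorem Par.sig_lt (P : Par) : sig P.Q P.N < P.n := by
  obtain ⟨b1, b2, b3, b4, b5, b6, b7, b8, b9, b10⟩ := P.basic
  have hn := P.hn
  have hTT1 := P.hTT1
  have hsum : ((List.range P.N).map (fun j => P.Q ^ (j + 1))).sum ≤ P.N * P.Q ^ P.N := by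
    have h1 : ∀ x ∈ (List.range P.N).map (fun j => P.Q ^ (j + 1)), x ≤ P.Q ^ P.N := by
      intro x hx
      obtain ⟨j, hj, rfl⟩ := List.mem_map.1 hx
      have := List.mem_range.1 hj
      exact Nat.pow_le_pow_right (by omega) (by omega)
    have h2 := List.sum_le_card_nsmul _ _ h1
    simpa using h2
  have hN : P.N ≤ P.Q ^ P.N :=
    (Nat.lt_two_pow_self).le.trans (Nat.pow_le_pow_left b3 P.N)
  have hQ1 : ∀ i, i ≤ 4 → P.Q ^ i ≤ P.Q ^ 4 := fun i hi => Nat.pow_le_pow_right (by omega) hi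
  have e1 := hQ1 1 (by norm_num)
  have e2 := hQ1 2 (by norm_num)
  have e3 := hQ1 3 (by norm_num)
  rw [pow_one] at e1
  have h4 : sig P.Q P.N ≤ P.Q ^ P.N + 4 * P.Q ^ 4 * (P.Q ^ P.N * P.Q ^ P.N) := by
    unfold sig
    refine Nat.add_le_add hN ?_
    refine Nat.mul_le_mul (by omega) (hsum.trans ?_)
    exact Nat.mul_le_mul_right _ hN
  have h5 : P.Q ^ P.N + 4 * P.Q ^ 4 * (P.Q ^ P.N * P.Q ^ P.N) ≤ P.Q ^ (10 * P.N + 100) := by
    have f1 : P.Q ^ P.N ≤ P.Q ^ (2 * P.N + 4) := Nat.pow_le_pow_right (by omega) (by omega)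
    have f2 : 4 * P.Q ^ 4 * (P.Q ^ P.N * P.Q ^ P.N) = 4 * P.Q ^ (2 * P.N + 4) := by
      rw [show 2 * P.N + 4 = 4 + (P.N + P.N) by ring, pow_add, pow_add]; ring
    have f3 : 8 * P.Q ^ (2 * P.N + 4) ≤ P.Q ^ (2 * P.N + 7) := by
      rw [show 2 * P.N + 7 = 3 + (2 * P.N + 4) by ring, pow_add P.Q 3]
      refine Nat.mul_le_mul_right _ ?_
      calc 8 = 2 ^ 3 := by norm_num
        _ ≤ P.Q ^ 3 := Nat.pow_le_pow_left b3 3
    have f4 : P.Q ^ (2 * P.N + 7) ≤ P.Q ^ (10 * P.N + 100) :=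
      Nat.pow_le_pow_right (by omega) (by omega)
    omega
  have h6 : P.Q ^ (10 * P.N + 100) ≤ P.TT1 := by
    refine le_trans ?_ hTT1
    exact Nat.le_mul_of_pos_left _ (by omega)
  have h7 : P.TT1 < P.n := by
    have : P.TT1 ≤ P.M * P.TT1 := Nat.le_mul_of_pos_left _ b8
    have e : 1000 * P.M * P.TT1 = 1000 * (P.M * P.TT1) := by ring
    omega
  omega

end Mon
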