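import Pool.Agent.Work.MP_6f5fa7_al.Mon.M14Defs
import Pool.Agent.Work.MP_6f5fa7_al.Mon.M14Base
import Pool.Agent.Work.MP_6f5fa7_al.Mon.M14Par
import Pool.Agent.Work.MP_6f5fa7_al.Mon.StAct
import Pool.Agent.Work.MP_6f5fa7_al.Mon.StCone

/-! Mon: M14, the iteration (helper71). -/
set_option autoImplicit false

namespace Mon

/-- THE TWO STEPS: a family of axes of short elements (type 1), then a family of axes of the
words `W` on the quotient (type 2), with the invariant in the second quotient -/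
def TwoSteps : Prop :=
  ∀ (P : Par) {G X : Type} [Group G] [MulAction G X] (d : X → X → ℕ), P.St G d P.M → SProp P G →
    ∃ F : Fam G X, FamOK P d F P.TT1 ∧ (∀ h : G, P.Short d h → ∃ c : F.C, h • c = c) ∧
      ∃ F2 : Fam (G ⧸ Ker F) (Vq (Ker F) (Cone F P.D)),
        FamOK P (dq (Ker F) (cd F P.D d P.s)) F2 P.TT2 ∧ SProp P ((G ⧸ Ker F) ⧸ Ker F2)

/-- a stage of the construction -/
structure Stage (P : Par) where
  G : Type
  X : Type
  [grp : Group G]
  [act : MulAction G X]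
  d : X → X → ℕ
  φ : FreeGroup (Fin 2) →* G
  x0 : X
  surj : Function.Surjective φ
  st : P.St G d P.M
  inv : SProp P G
  h0 : d x0 (φ (FreeGroup.of 0) • x0) ≤ 1
  h1 : d x0 (φ (FreeGroup.of 1) • x0) ≤ 1
  nab : φ (FreeGroup.of 0) * φ (FreeGroup.of 1) ≠ φ (FreeGroup.of 1) * φ (FreeGroup.of 0)

attribute [instance] Stage.grp Stage.act

/-- relation between consecutive stages -/
def Next {P : Par} (S S' : Stage P) : Prop :=
  (∀ g, S.φ g = 1 → S'.φ g = 1) ∧
  (∀ g, S'.d S'.x0 (S'.φ g • S'.x0) ≤ S.d S.x0 (S.φ g • S.x0) / P.s + 1) ∧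
  ∀ g, S.d S.x0 (S.φ g • S.x0) ≤ P.Λs → S'.φ g ^ P.n = 1

/-- the base stage -/
noncomputable def stage0 (h_cm : S.comm_middle) (P : Par) : Stage P where
  G := FreeGroup (Fin 2)
  X := FreeGroup (Fin 2)
  d := M14B.fd
  φ := MonoidHom.id _
  x0 := 1
  surj := Function.surjective_id
  st := M14B.free_st h_cm P
  inv := M14B.free_inv P
  h0 := (M14B.fd_of 0).le
  h1 := (M14B.fd_of 1).le
  nab := M14B.free_ne

theorem commutator_move {G X : Type} [Group G] [MulAction G X] {d : X → X → ℕ} (hg : Geo d)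
    (hi : Isom G d) (a b : G) (x : X) (ha : d x (a • x) ≤ 1) (hb : d x (b • x) ≤ 1) :
    d x ((a * b * a⁻¹ * b⁻¹) • x) ≤ 4 := by
  have hmul : ∀ g k : G, d x ((g * k) • x) ≤ d x (g • x) + d x (k • x) := by
    intro g k
    have t := hg.tri x (g • x) ((g * k) • x)
    have e := hi g x (k • x)
    rw [mul_smul] at t ⊢
    omega
  have hinv : ∀ g : G, d x (g⁻¹ • x) = d x (g • x) := by
    intro g
    have e := hi g x (g⁻¹ • x)
    rw [smul_inv_smul] at e
    rw [← e, hg.symm]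
  have t1 := hmul (a * b * a⁻¹) b⁻¹
  have t2 := hmul (a * b) a⁻¹
  have t3 := hmul a b
  have e1 := hinv a
  have e2 := hinv b
  omega

/-- one quotient step, for the marking -/
theorem quot_step (h_big : S.ker_big) (h_ci : S.cone_isom)
    (h_cb : S.cd_bs) (h_sb : S.smul_bs) (h_le : S.qd_le) (P : Par)
    {G X : Type} [Group G] [MulAction G X] {d : X → X → ℕ} {M T : ℕ} (hG : P.St G d M)
    (F : Fam G X) (hF : FamOK P d F T) (hT : P.TT2 ≤ T) (φ : FreeGroup (Fin 2) →* G) (x0 : X)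
    (h0 : d x0 (φ (FreeGroup.of 0) • x0) ≤ 1) (h1 : d x0 (φ (FreeGroup.of 1) • x0) ≤ 1)
    (nab : φ (FreeGroup.of 0) * φ (FreeGroup.of 1) ≠ φ (FreeGroup.of 1) * φ (FreeGroup.of 0))
    :
    (∀ g, dq (Ker F) (cd F P.D d P.s) (mkq (Ker F) (bs F P.D x0))
      ((QuotientGroup.mk' (Ker F)).comp φ g • mkq (Ker F) (bs F P.D x0)) ≤
        d x0 (φ g • x0) / P.s + 1) ∧
    (QuotientGroup.mk' (Ker F)).comp φ (FreeGroup.of 0) *
      (QuotientGroup.mk' (Ker F)).comp φ (FreeGroup.of 1) ≠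
    (QuotientGroup.mk' (Ker F)).comp φ (FreeGroup.of 1) *
      (QuotientGroup.mk' (Ker F)).comp φ (FreeGroup.of 0) := by
  obtain ⟨b1, b2, b3, b4, b5, b6, b7, b8, b9, b10⟩ := P.basic
  have cei : Isom G (cd F P.D d P.s) := h_ci hG.geo hG.isom (by omega) b9
  constructor
  · intro g
    have e1 : (QuotientGroup.mk' (Ker F)).comp φ g • mkq (Ker F) (bs F P.D x0) =
        mkq (Ker F) (bs F P.D (φ g • x0)) := by
      rw [← h_sb (F := F) hG.geo hG.isom (show 1 ≤ P.s by omega) b9 (φ g) x0]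
      exact qsmul_mk (Ker F) (φ g) _
    rw [e1, dq_mk (Ker F) cei]
    refine le_trans ?_ (h_cb (F := F) hG.geo hG.isom (show 1 ≤ P.s by omega) b9 x0 (φ g • x0))
    have := h_le hG hF hT (bs F P.D x0) (bs F P.D (φ g • x0)) 1 (Subgroup.one_mem _)
    rwa [one_smul] at this
  · intro h
    set a := φ (FreeGroup.of 0) with ha
    set b := φ (FreeGroup.of 1) with hb
    have h' : (QuotientGroup.mk (a * b) : G ⧸ Ker F) = QuotientGroup.mk (b * a) := h
    have hk : a * b * a⁻¹ * b⁻¹ ∈ Ker F := by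
      rw [← QuotientGroup.eq_one_iff]
      have e : (QuotientGroup.mk (a * b * a⁻¹ * b⁻¹) : G ⧸ Ker F) =
          QuotientGroup.mk (a * b) * (QuotientGroup.mk (b * a))⁻¹ := by
        rw [← QuotientGroup.mk_inv, ← QuotientGroup.mk_mul]
        congr 1
        group
      rw [e, h', mul_inv_cancel]
    have hk1 : a * b * a⁻¹ * b⁻¹ ≠ 1 := by
      intro h2
      apply nab
      have : a * b = (a * b * a⁻¹ * b⁻¹) * (b * a) := by group
      rw [this, h2, one_mul]
    have m1 := h_big hG hF hT (a * b * a⁻¹ * b⁻¹) hk hk1 x0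
    have m2 := commutator_move hG.geo hG.isom a b x0 h0 h1
    omega

/-- the quotient stage is a clean stage; type 1 -/
theorem quot_st1 (h_geo : S.qd_geo) (h_isom : S.qd_isom)
    (h_hyp : S.qd_hyp) (h2a : S.qT2a) (h3a : S.qT3a) (h3b : S.qT3b) (h3c : S.qT3c)
    (h_ci : S.cone_isom) (P : Par) {G X : Type} [Group G] [MulAction G X] {d : X → X → ℕ}
    {M T : ℕ} (hG : P.St G d M) (F : Fam G X) (hF : FamOK P d F T) (hT : P.TT2 ≤ T)
    (hsh : ∀ h : G, P.Short d h → ∃ c : F.C, h • c = c) :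
    P.St (G ⧸ Ker F) (dq (Ker F) (cd F P.D d P.s)) P.M1 := by
  obtain ⟨b1, b2, b3, b4, b5, b6, b7, b8, b9, b10⟩ := P.basic
  have cei : Isom G (cd F P.D d P.s) := h_ci hG.geo hG.isom (by omega) b9
  refine good_transfer (Ker F) cei ⟨h_geo hG hF hT, h_isom hG hF hT, h_hyp hG hF hT,
    h2a hG hF hT hsh, ?_, ?_, ?_⟩
  · intro g x y; exact h3a hG hF hT g x y
  · intro g x; exact h3b hG hF hT g x
  · intro g k x y; exact h3c hG hF hT g k x y

/-- the quotient stage is a clean stage; type 2 -/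
theorem quot_st2 (h_geo : S.qd_geo) (h_isom : S.qd_isom)
    (h_hyp : S.qd_hyp) (h2b : S.qT2b) (h3a : S.qT3a) (h3b : S.qT3b) (h3c : S.qT3c)
    (h_ci : S.cone_isom) (P : Par) {G X : Type} [Group G] [MulAction G X] {d : X → X → ℕ}
    {M T : ℕ} (hG : P.St G d M) (F : Fam G X) (hF : FamOK P d F T) (hT : P.TT2 ≤ T)
    (hM : M = P.M1) :
    P.St (G ⧸ Ker F) (dq (Ker F) (cd F P.D d P.s)) P.M := by
  obtain ⟨b1, b2, b3, b4, b5, b6, b7, b8, b9, b10⟩ := P.basic
  have cei : Isom G (cd F P.D d P.s) := h_ci hG.geo hG.isom (by omega) b9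
  refine good_transfer (Ker F) cei ⟨h_geo hG hF hT, h_isom hG hF hT, h_hyp hG hF hT,
    h2b hG hF hT hM, ?_, ?_, ?_⟩
  · intro g x y; exact h3a hG hF hT g x y
  · intro g x; exact h3b hG hF hT g x
  · intro g k x y; exact h3c hG hF hT g k x y

theorem div_le_div_step {s x : ℕ} (hs : 2 ≤ s) : (x / s + 1) / s + 1 ≤ x / s + 1 := by
  have h1 : (x / s + 1) / s ≤ (x / s + 1) / 2 := Nat.div_le_div_left hs (by norm_num)
  rcases Nat.eq_zero_or_pos (x / s) with h | h
  · rw [h, Nat.div_eq_of_lt (by omega)]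
  · omega

theorem exists_next (s1 : TwoSteps) (h_big : S.ker_big) (h_ci : S.cone_isom)
    (h_cb : S.cd_bs) (h_sb : S.smul_bs) (h_le : S.qd_le) (h_geo : S.qd_geo)
    (h_isom : S.qd_isom) (h_hyp : S.qd_hyp) (h2a : S.qT2a) (h2b : S.qT2b) (h3a : S.qT3a)
    (h3b : S.qT3b) (h3c : S.qT3c) (P : Par) (S : Stage P) : ∃ S' : Stage P, Next S S' := by
  obtain ⟨b1, b2, b3, b4, b5, b6, b7, b8, b9, b10⟩ := P.basic
  obtain ⟨F, hF, hsh, F2, hF2, hInv⟩ := s1 P S.d S.st S.inv
  have q1 := quot_step h_big h_ci h_cb h_sb h_le P S.st F hF b6 S.φ S.x0 S.h0 S.h1 S.nab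
  have g1 := quot_st1 h_geo h_isom h_hyp h2a h3a h3b h3c h_ci P S.st F hF b6 hsh
  set φ1 := (QuotientGroup.mk' (Ker F)).comp S.φ with hφ1
  set x1 := mkq (Ker F) (bs F P.D S.x0) with hx1
  have le1 : ∀ m, m ≤ 1 → m / P.s + 1 ≤ 1 := by
    intro m hm
    rw [Nat.div_eq_of_lt (by omega)]
  have q2 := quot_step h_big h_ci h_cb h_sb h_le P g1 F2 hF2 le_rfl φ1 x1
    ((q1.1 _).trans (le1 _ S.h0)) ((q1.1 _).trans (le1 _ S.h1)) q1.2
  have g2 := quot_st2 h_geo h_isom h_hyp h2b h3a h3b h3c h_ci P g1 F2 hF2 le_rfl rfl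
  refine ⟨{
    G := (S.G ⧸ Ker F) ⧸ Ker F2
    X := Vq (Ker F2) (Cone F2 P.D)
    d := dq (Ker F2) (cd F2 P.D (dq (Ker F) (cd F P.D S.d P.s)) P.s)
    φ := (QuotientGroup.mk' (Ker F2)).comp φ1
    x0 := mkq (Ker F2) (bs F2 P.D x1)
    surj := (QuotientGroup.mk'_surjective _).comp
      ((QuotientGroup.mk'_surjective _).comp S.surj)
    st := g2
    inv := hInv
    h0 := (q2.1 _).trans (le1 _ ((q1.1 _).trans (le1 _ S.h0)))
    h1 := (q2.1 _).trans (le1 _ ((q1.1 _).trans (le1 _ S.h1)))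
    nab := q2.2 }, ?_, ?_, ?_⟩
  · intro g hg
    change QuotientGroup.mk' (Ker F2) (QuotientGroup.mk' (Ker F) (S.φ g)) = 1
    rw [hg, map_one, map_one]
  · intro g
    exact (q2.1 g).trans ((Nat.add_le_add_right (Nat.div_le_div_right (q1.1 g)) 1).trans
      (div_le_div_step b2))
  · intro g hg
    have h1 : S.φ g ^ P.n ∈ Ker F := by
      by_cases h : S.φ g ^ P.n = 1
      · rw [h]; exact Subgroup.one_mem _
      · obtain ⟨c, hc⟩ := hsh (S.φ g) ⟨h, S.x0, hg⟩
        exact Subgroup.subset_closure ⟨c, hF.pow c _ hc⟩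
    change (QuotientGroup.mk' (Ker F2) (QuotientGroup.mk' (Ker F) (S.φ g))) ^ P.n = 1
    rw [← map_pow, ← map_pow]
    have : QuotientGroup.mk' (Ker F) (S.φ g ^ P.n) = 1 := (QuotientGroup.eq_one_iff _).2 h1
    rw [this, map_one]

/-- the limit -/
theorem bb_of_next {P : Par} (S0 : Stage P) (hnext : ∀ S : Stage P, ∃ S', Next S S') : BB := by
  obtain ⟨b1, b2, b3, b4, b5, b6, b7, b8, b9, b10⟩ := P.basic
  choose nx hnx using hnext
  let S : ℕ → Stage P := fun k => Nat.rec (motive := fun _ => Stage P) S0 (fun _ s => nx s) k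
  have hS : ∀ k, Next (S k) (S (k + 1)) := fun k => hnx (S k)
  have mono : ∀ (g : FreeGroup (Fin 2)) (k l : ℕ), k ≤ l → (S k).φ g = 1 → (S l).φ g = 1 := by
    intro g k l hkl hk
    induction l, hkl using Nat.le_induction with
    | base => exact hk
    | succ l _ ih => exact (hS l).1 g ih
  let N : Subgroup (FreeGroup (Fin 2)) :=
    { carrier := {g | ∃ k, (S k).φ g = 1}
      mul_mem' := by
        rintro g g' ⟨k, hk⟩ ⟨l, hl⟩
        refine ⟨max k l, ?_⟩
        rw [map_mul, mono g k _ (le_max_left _ _) hk, mono g' l _ (le_max_right _ _) hl, one_mul]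
      one_mem' := ⟨0, map_one _⟩
      inv_mem' := by
        rintro g ⟨k, hk⟩
        exact ⟨k, by rw [map_inv, hk, inv_one]⟩ }
  have hNmem : ∀ g, g ∈ N ↔ ∃ k, (S k).φ g = 1 := fun g => Iff.rfl
  haveI hN : N.Normal := ⟨by
    rintro g ⟨k, hk⟩ h
    exact ⟨k, by rw [map_mul, map_mul, hk, mul_one, map_inv, mul_inv_cancel]⟩⟩
  -- displacements
  have disp : ∀ (g : FreeGroup (Fin 2)) (m k : ℕ),
      (S k).d (S k).x0 ((S k).φ g • (S k).x0) ≤ m + 2 →
      ∃ l, k ≤ l ∧ (S l).d (S l).x0 ((S l).φ g • (S l).x0) ≤ 2 := by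
    intro g m
    induction m with
    | zero => intro k hk; exact ⟨k, le_rfl, hk⟩
    | succ m ih =>
      intro k hk
      have h1 := (hS k).2.1 g
      have h2 : (S k).d (S k).x0 ((S k).φ g • (S k).x0) / P.s ≤ (m + 1 + 2) / 2 :=
        (Nat.div_le_div_right hk).trans (Nat.div_le_div_left b2 (by norm_num))
      obtain ⟨l, hl, h3⟩ := ih (k + 1) (by omega)
      exact ⟨l, by omega, h3⟩
  have tors : ∀ g : FreeGroup (Fin 2), ∃ k, (S k).φ g ^ P.n = 1 := by
    intro g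
    obtain ⟨l, _, hl⟩ := disp g _ 0 (Nat.le_add_right _ _)
    exact ⟨l + 1, (hS l).2.2 g (hl.trans b1)⟩
  refine ⟨P.n, P.Q, P.N, FreeGroup (Fin 2) ⧸ N, inferInstance, P.hprime, b4, b3, P.sig_lt,
    ?_, ?_, ?_⟩
  · intro x
    obtain ⟨g, rfl⟩ := QuotientGroup.mk_surjective x
    obtain ⟨k, hk⟩ := tors g
    rw [← QuotientGroup.mk_pow, QuotientGroup.eq_one_iff]
    exact ⟨k, by rw [map_pow]; exact hk⟩
  · refine ⟨QuotientGroup.mk (FreeGroup.of 0), QuotientGroup.mk (FreeGroup.of 1), ?_, ?_⟩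
    · have h1 : Subgroup.closure ({FreeGroup.of 0, FreeGroup.of 1} :
          Set (FreeGroup (Fin 2))) = ⊤ := by
        rw [← FreeGroup.closure_range_of]
        congr 1
        ext x
        simp only [Set.mem_insert_iff, Set.mem_singleton_iff, Set.mem_range]
        constructor
        · rintro (h | h)
          · exact ⟨0, h.symm⟩
          · exact ⟨1, h.symm⟩
        · rintro ⟨i, hi⟩
          fin_cases i
          · left; exact hi.symm
          · right; exact hi.symm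
      have h2 := congrArg (Subgroup.map (QuotientGroup.mk' N)) h1
      rw [MonoidHom.map_closure, Subgroup.map_top_of_surjective _
        (QuotientGroup.mk'_surjective N), Set.image_pair] at h2
      exact h2
    · intro h
      have h1 : FreeGroup.of 0 * FreeGroup.of 1 * (FreeGroup.of 1 * FreeGroup.of 0)⁻¹ ∈ N := by
        rw [← QuotientGroup.eq_one_iff, QuotientGroup.mk_mul, QuotientGroup.mk_inv,
          QuotientGroup.mk_mul, QuotientGroup.mk_mul, h, mul_inv_cancel]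
      obtain ⟨k, hk⟩ := h1
      apply (S k).nab
      rw [map_mul, map_inv, map_mul, map_mul, mul_inv_eq_one] at hk
      exact hk
  · intro x y hxy
    obtain ⟨g, rfl⟩ := QuotientGroup.mk_surjective x
    obtain ⟨h, rfl⟩ := QuotientGroup.mk_surjective y
    obtain ⟨k, hk⟩ := tors g
    obtain ⟨l, hl⟩ := tors (Uw P.Q g h)
    set m := max k l with hm
    have hk' : (S m).φ g ^ P.n = 1 := by
      rw [← map_pow]; exact mono _ k m (le_max_left _ _) (by rw [map_pow]; exact hk)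
    have hl' : Uw P.Q ((S m).φ g) ((S m).φ h) ^ P.n = 1 := by
      rw [← map_Uw, ← map_pow]; exact mono _ l m (le_max_right _ _) (by rw [map_pow]; exact hl)
    rcases (S m).inv _ _ hk' hl' with h1 | h1
    · exfalso
      apply hxy
      have h2 : g * h * (h * g)⁻¹ ∈ N :=
        ⟨m, by rw [map_mul, map_inv, map_mul, map_mul, h1, mul_inv_cancel]⟩
      rw [← QuotientGroup.eq_one_iff, QuotientGroup.mk_mul, QuotientGroup.mk_inv,
        mul_inv_eq_one] at h2
      exact h2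
    · rw [← map_Ew] at h1
      have h2 : Ew P.Q P.N g h ∈ N := ⟨m, h1⟩
      rw [← QuotientGroup.eq_one_iff] at h2
      have h3 := map_Ew (QuotientGroup.mk' N) P.Q P.N g h
      exact h3.symm.trans h2

/-- THE ASSEMBLY -/
theorem bb_of_steps (s1 : TwoSteps) (h_guess : S.guess)
    (h_cm : S.comm_middle) (h_big : S.ker_big) (h_ci : S.cone_isom)
    (h_cb : S.cd_bs) (h_sb : S.smul_bs) (h_le : S.qd_le) (h_geo : S.qd_geo)
    (h_isom : S.qd_isom) (h_hyp : S.qd_hyp) (h2a : S.qT2a) (h2b : S.qT2b) (h3a : S.qT3a)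
    (h3b : S.qT3b) (h3c : S.qT3c) : BB := by
  obtain ⟨P⟩ := exists_par h_guess
  exact bb_of_next (stage0 h_cm P) fun S => exists_next s1 h_big h_ci h_cb h_sb h_le
    h_geo h_isom h_hyp h2a h2b h3a h3b h3c P S

end Mon
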